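import Mathlib

set_option autoImplicit false

namespace Pool.Agent.Work.MP_2dba45_nt.Kloost

open Finset

variable {q : ℕ} [NeZero q]

/-- Second moment of a two-parameter exponential sum. -/
theorem second_moment {ι : Type*} [Fintype ι] [DecidableEq ι] (u v : ι → ZMod q) :
    ∑ a : ZMod q, ∑ b : ZMod q,
      ‖∑ i : ι, (ZMod.stdAddChar (a * u i + b * v i) : ℂ)‖ ^ 2 =
    (q : ℝ) ^ 2 * (#{p : ι × ι | u p.1 = u p.2 ∧ v p.1 = v p.2} : ℝ) := by
  have h1 : ∀ a b : ZMod q, ((‖∑ i : ι, (ZMod.stdAddChar (a * u i + b * v i) : ℂ)‖ ^ 2 : ℝ) : ℂ) =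
      ∑ i, ∑ j, (ZMod.stdAddChar (a * (u i - u j)) : ℂ) * ZMod.stdAddChar (b * (v i - v j)) := by
    intro a b
    rw [← Complex.normSq_eq_norm_sq, Complex.normSq_eq_conj_mul_self, map_sum, mul_comm,
      Finset.sum_mul_sum]
    refine Finset.sum_congr rfl fun i _ => Finset.sum_congr rfl fun j _ => ?_
    rw [← AddChar.map_neg_eq_conj, ← AddChar.map_add_eq_mul, ← AddChar.map_add_eq_mul]
    congr 1
    ring
  have h2 : ∀ x : ZMod q, ∑ a : ZMod q, (ZMod.stdAddChar (a * x) : ℂ) =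
      if x = 0 then (q : ℂ) else 0 := by
    intro x
    rw [AddChar.sum_mulShift _ (ZMod.isPrimitive_stdAddChar q), ZMod.card]
    split_ifs <;> simp
  have key : ((∑ a : ZMod q, ∑ b : ZMod q,
      ‖∑ i : ι, (ZMod.stdAddChar (a * u i + b * v i) : ℂ)‖ ^ 2 : ℝ) : ℂ) =
    (((q : ℝ) ^ 2 * (#{p : ι × ι | u p.1 = u p.2 ∧ v p.1 = v p.2} : ℝ) : ℝ) : ℂ) := by
    rw [Complex.ofReal_sum]
    simp_rw [Complex.ofReal_sum, h1]
    calc ∑ a : ZMod q, ∑ b : ZMod q, ∑ i, ∑ j,
        (ZMod.stdAddChar (a * (u i - u j)) : ℂ) * ZMod.stdAddChar (b * (v i - v j))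
        = ∑ i, ∑ j, (∑ a : ZMod q, (ZMod.stdAddChar (a * (u i - u j)) : ℂ)) *
            (∑ b : ZMod q, (ZMod.stdAddChar (b * (v i - v j)) : ℂ)) := by
          simp_rw [Finset.sum_mul_sum]
          rw [Finset.sum_comm' (t' := univ) (s' := fun _ => univ) (by simp)]
          rw [Finset.sum_comm]
          calc _ = ∑ a : ZMod q, ∑ i, ∑ b : ZMod q, ∑ j,
                (ZMod.stdAddChar (a * (u i - u j)) : ℂ) * ZMod.stdAddChar (b * (v i - v j)) := by
                refine Finset.sum_congr rfl fun a _ => ?_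
                rw [Finset.sum_comm]
            _ = ∑ a : ZMod q, ∑ i, ∑ j, ∑ b : ZMod q,
                (ZMod.stdAddChar (a * (u i - u j)) : ℂ) * ZMod.stdAddChar (b * (v i - v j)) := by
                refine Finset.sum_congr rfl fun a _ => Finset.sum_congr rfl fun i _ => ?_
                rw [Finset.sum_comm]
            _ = ∑ i, ∑ a : ZMod q, ∑ j, ∑ b : ZMod q,
                (ZMod.stdAddChar (a * (u i - u j)) : ℂ) * ZMod.stdAddChar (b * (v i - v j)) := by
                rw [Finset.sum_comm]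
            _ = _ := by
                refine Finset.sum_congr rfl fun i _ => ?_
                rw [Finset.sum_comm]
      _ = ∑ i, ∑ j, if (u i = u j ∧ v i = v j) then (q : ℂ) ^ 2 else 0 := by
          refine Finset.sum_congr rfl fun i _ => Finset.sum_congr rfl fun j _ => ?_
          rw [h2, h2]
          by_cases h3 : u i = u j <;> by_cases h4 : v i = v j <;> simp [h3, h4, sub_eq_zero, sq]
      _ = _ := by
          rw [← Fintype.sum_prod_type', ← Finset.sum_filter, Finset.sum_const, nsmul_eq_mul]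
          push_cast
          ring
  exact_mod_cast key


/-- Kloosterman sum. -/
noncomputable def K (a b : ZMod q) : ℂ :=
  ∑ x : (ZMod q)ˣ, (ZMod.stdAddChar (a * (x : ZMod q) + b * ((x⁻¹ : (ZMod q)ˣ) : ZMod q)) : ℂ)

/-- the solutions counted by the fourth moment -/
def Sol (q : ℕ) [NeZero q] : Finset (((ZMod q)ˣ × (ZMod q)ˣ) × ((ZMod q)ˣ × (ZMod q)ˣ)) :=
  {p | (p.1.1 : ZMod q) + (p.1.2 : ZMod q) = (p.2.1 : ZMod q) + (p.2.2 : ZMod q) ∧
    ((p.1.1⁻¹ : (ZMod q)ˣ) : ZMod q) + ((p.1.2⁻¹ : (ZMod q)ˣ) : ZMod q) =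
    ((p.2.1⁻¹ : (ZMod q)ˣ) : ZMod q) + ((p.2.2⁻¹ : (ZMod q)ˣ) : ZMod q)}

theorem K_sq (a b : ZMod q) : (K a b) ^ 2 = ∑ p : (ZMod q)ˣ × (ZMod q)ˣ,
    (ZMod.stdAddChar (a * ((p.1 : ZMod q) + (p.2 : ZMod q)) +
      b * (((p.1⁻¹ : (ZMod q)ˣ) : ZMod q) + ((p.2⁻¹ : (ZMod q)ˣ) : ZMod q))) : ℂ) := by
  rw [K, sq, Finset.sum_mul_sum, ← Finset.sum_product']
  simp only [Finset.univ_product_univ]
  refine Finset.sum_congr rfl fun p _ => ?_
  rw [← AddChar.map_add_eq_mul]
  congr 1
  ring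

theorem fourth_moment : ∑ a : ZMod q, ∑ b : ZMod q, ‖K a b‖ ^ 4 = (q : ℝ) ^ 2 * (#(Sol q) : ℝ) := by
  have h := second_moment (q := q) (ι := (ZMod q)ˣ × (ZMod q)ˣ)
    (fun p => (p.1 : ZMod q) + (p.2 : ZMod q))
    (fun p => ((p.1⁻¹ : (ZMod q)ˣ) : ZMod q) + ((p.2⁻¹ : (ZMod q)ˣ) : ZMod q))
  rw [Sol, ← h]
  refine Finset.sum_congr rfl fun a _ => Finset.sum_congr rfl fun b _ => ?_
  rw [← K_sq, norm_pow, ← pow_mul]

theorem K_twist (a b : ZMod q) (c : (ZMod q)ˣ) :
    K (a * (c : ZMod q)) (b * ((c⁻¹ : (ZMod q)ˣ) : ZMod q)) = K a b := by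
  unfold K
  apply Fintype.sum_equiv (Equiv.mulLeft c)
  intro x
  congr 1
  simp only [Equiv.coe_mulLeft, mul_inv_rev, Units.val_mul]
  ring

/-- number of solutions of `a x = 0` -/
theorem card_annihilator (a : ZMod q) : #{x : ZMod q | a * x = 0} ≤ Nat.gcd a.val q := by
  have hq : 0 < q := Nat.pos_of_ne_zero (NeZero.ne q)
  set g := Nat.gcd a.val q with hg
  have hgpos : 0 < g := Nat.gcd_pos_of_pos_right _ hq
  have hgq : g ∣ q := Nat.gcd_dvd_right _ _
  calc #{x : ZMod q | a * x = 0} ≤ #(Finset.range g) := by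
        apply Finset.card_le_card_of_injOn (fun x => x.val / (q / g))
        · intro x hx
          simp only [Finset.coe_filter, Finset.mem_univ, true_and, Set.mem_ofPred_eq] at hx
          simp only [Finset.coe_range, Set.mem_Iio]
          apply Nat.div_lt_of_lt_mul
          rw [Nat.div_mul_cancel hgq]
          exact ZMod.val_lt x
        · intro x hx y hy hxy
          simp only [Finset.coe_filter, Finset.mem_univ, true_and, Set.mem_ofPred_eq] at hx hy
          have key : ∀ z : ZMod q, a * z = 0 → (q / g) ∣ z.val := by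
            intro z hz
            have h1 : q ∣ a.val * z.val := by
              rw [← ZMod.natCast_eq_zero_iff]
              push_cast
              rw [ZMod.natCast_zmod_val, ZMod.natCast_zmod_val, hz]
            have h2 : q / g ∣ (a.val / g) * z.val := by
              obtain ⟨k, hk⟩ := h1
              refine ⟨k, ?_⟩
              apply Nat.eq_of_mul_eq_mul_left hgpos
              have hga : g ∣ a.val := Nat.gcd_dvd_left _ _
              calc g * (a.val / g * z.val) = (g * (a.val / g)) * z.val := by ring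
                _ = a.val * z.val := by rw [Nat.mul_div_cancel' hga]
                _ = q * k := hk
                _ = (g * (q / g)) * k := by rw [Nat.mul_div_cancel' hgq]
                _ = g * (q / g * k) := by ring
            have hcop : Nat.Coprime (q / g) (a.val / g) := by
              rw [Nat.coprime_comm]
              exact Nat.coprime_div_gcd_div_gcd hgpos
            exact hcop.dvd_of_dvd_mul_left h2
          have hx' := key x hx
          have hy' := key y hy
          apply ZMod.val_injective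
          have h3 := Nat.div_mul_cancel hx'
          have h4 := Nat.div_mul_cancel hy'
          simp only at hxy
          rw [← h3, ← h4, hxy]
    _ = g := Finset.card_range _

theorem K_fourth_le (a b : ZMod q) :
    (Nat.totient q : ℝ) * ‖K a b‖ ^ 4 ≤ (Nat.gcd a.val q : ℝ) * ((q : ℝ) ^ 2 * (#(Sol q) : ℝ)) := by
  classical
  have h1 : (Nat.totient q : ℝ) * ‖K a b‖ ^ 4 =
      ∑ c : (ZMod q)ˣ, ‖K (a * (c : ZMod q)) (b * ((c⁻¹ : (ZMod q)ˣ) : ZMod q))‖ ^ 4 := by
    simp_rw [K_twist]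
    rw [Finset.sum_const, Finset.card_univ, ZMod.card_units_eq_totient, nsmul_eq_mul]
  rw [h1, ← fourth_moment]
  let f : (ZMod q)ˣ → ZMod q × ZMod q := fun c => (a * (c : ZMod q), b * ((c⁻¹ : (ZMod q)ˣ) : ZMod q))
  have h2 : ∑ c : (ZMod q)ˣ, ‖K (a * (c : ZMod q)) (b * ((c⁻¹ : (ZMod q)ˣ) : ZMod q))‖ ^ 4 =
      ∑ y : ZMod q × ZMod q, ∑ c ∈ (univ : Finset (ZMod q)ˣ) with f c = y, ‖K y.1 y.2‖ ^ 4 := by
    rw [← Finset.sum_fiberwise (s := (univ : Finset (ZMod q)ˣ)) (g := f)]
    refine Finset.sum_congr rfl fun y _ => Finset.sum_congr rfl fun c hc => ?_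
    rw [Finset.mem_filter] at hc
    rw [← hc.2]
  rw [h2, Finset.mul_sum, ← Finset.univ_product_univ, Finset.sum_product]
  refine Finset.sum_le_sum fun a' _ => ?_
  rw [Finset.mul_sum]
  refine Finset.sum_le_sum fun b' _ => ?_
  rw [Finset.sum_const, nsmul_eq_mul]
  apply mul_le_mul_of_nonneg_right _ (by positivity)
  norm_cast
  refine le_trans ?_ (card_annihilator a)
  rcases Finset.eq_empty_or_nonempty
    ({c ∈ (univ : Finset (ZMod q)ˣ) | f c = (a', b')}) with he | ⟨c0, hc0⟩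
  · rw [he]; simp
  · apply Finset.card_le_card_of_injOn (fun c : (ZMod q)ˣ => (c : ZMod q) - (c0 : ZMod q))
    · intro c hc
      simp only [Finset.coe_filter, Finset.mem_univ, true_and, Set.mem_ofPred_eq, f,
        Prod.mk.injEq] at hc
      simp only [Finset.mem_filter, Finset.mem_univ, true_and, f, Prod.mk.injEq] at hc0
      simp only [Finset.coe_filter, Finset.mem_univ, true_and, Set.mem_ofPred_eq]
      rw [mul_sub, hc.1, hc0.1, sub_self]
    · intro x _ y _ hxy
      simp only [sub_left_inj] at hxy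
      exact Units.ext hxy


theorem sum_gcd_le : ∑ u : ZMod q, Nat.gcd u.val q ≤ q * #(q.divisors) := by
  classical
  have hq : 0 < q := Nat.pos_of_ne_zero (NeZero.ne q)
  calc ∑ u : ZMod q, Nat.gcd u.val q
      ≤ ∑ u : ZMod q, ∑ g ∈ q.divisors, (if g ∣ u.val then g else 0) := by
        refine Finset.sum_le_sum fun u _ => ?_
        have hmem : Nat.gcd u.val q ∈ q.divisors :=
          Nat.mem_divisors.2 ⟨Nat.gcd_dvd_right _ _, hq.ne'⟩
        have := Finset.single_le_sum (f := fun g => if g ∣ u.val then g else 0)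
          (fun i _ => Nat.zero_le _) hmem
        simpa [Nat.gcd_dvd_left] using this
    _ = ∑ g ∈ q.divisors, ∑ u : ZMod q, (if g ∣ u.val then g else 0) := Finset.sum_comm
    _ ≤ ∑ g ∈ q.divisors, q := by
        refine Finset.sum_le_sum fun g hg => ?_
        have hgq := (Nat.mem_divisors.1 hg).1
        have hgpos : 0 < g := Nat.pos_of_dvd_of_pos hgq hq
        rw [← Finset.sum_filter, Finset.sum_const, smul_eq_mul]
        have hc : #{u : ZMod q | g ∣ u.val} ≤ #(Finset.range (q / g)) := by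
          apply Finset.card_le_card_of_injOn (fun x => x.val / g)
          · intro x hx
            simp only [Finset.coe_filter, Finset.mem_univ, true_and, Set.mem_ofPred_eq] at hx
            simp only [Finset.coe_range, Set.mem_Iio]
            apply Nat.div_lt_of_lt_mul
            rw [Nat.mul_div_cancel' hgq]
            exact ZMod.val_lt x
          · intro x hx y hy hxy
            simp only [Finset.coe_filter, Finset.mem_univ, true_and, Set.mem_ofPred_eq] at hx hy
            apply ZMod.val_injective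
            have h3 := Nat.div_mul_cancel hx
            have h4 := Nat.div_mul_cancel hy
            simp only at hxy
            rw [← h3, ← h4, hxy]
        rw [Finset.card_range] at hc
        calc #{u : ZMod q | g ∣ u.val} * g ≤ (q / g) * g := Nat.mul_le_mul_right _ hc
          _ ≤ q := Nat.div_mul_le_self _ _
    _ = q * #(q.divisors) := by rw [Finset.sum_const, smul_eq_mul, mul_comm]

theorem gcd_mul_le (u w : ZMod q) :
    Nat.gcd (2 * u * w).val q ≤ 2 * (Nat.gcd u.val q * Nat.gcd w.val q) := by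
  have hq : 0 < q := Nat.pos_of_ne_zero (NeZero.ne q)
  have h1 : Nat.gcd (2 * u * w).val q = Nat.gcd q (2 * (u.val * w.val)) := by
    have h2 : (2 * u * w).val = (2 * (u.val * w.val)) % q := by
      rw [← ZMod.val_natCast]
      congr 1
      push_cast
      rw [ZMod.natCast_zmod_val, ZMod.natCast_zmod_val]
      ring
    rw [h2]
    exact (Nat.gcd_rec q _).symm
  rw [h1]
  have hg1 : 0 < Nat.gcd q 2 := Nat.gcd_pos_of_pos_left _ hq
  have hg2 : 0 < Nat.gcd q u.val := Nat.gcd_pos_of_pos_left _ hq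
  have hg3 : 0 < Nat.gcd q w.val := Nat.gcd_pos_of_pos_left _ hq
  have h3 : Nat.gcd q (2 * (u.val * w.val)) ≤ Nat.gcd q 2 * Nat.gcd q (u.val * w.val) :=
    Nat.le_of_dvd (Nat.mul_pos hg1 (Nat.gcd_pos_of_pos_left _ hq)) (Nat.gcd_mul_right_dvd_mul_gcd _ _ _)
  have h4 : Nat.gcd q (u.val * w.val) ≤ Nat.gcd q u.val * Nat.gcd q w.val :=
    Nat.le_of_dvd (Nat.mul_pos hg2 hg3) (Nat.gcd_mul_right_dvd_mul_gcd _ _ _)
  have h5 : Nat.gcd q 2 ≤ 2 := Nat.gcd_le_right _ (by norm_num)
  calc Nat.gcd q (2 * (u.val * w.val)) ≤ Nat.gcd q 2 * Nat.gcd q (u.val * w.val) := h3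
    _ ≤ 2 * (Nat.gcd q u.val * Nat.gcd q w.val) := Nat.mul_le_mul h5 h4
    _ = 2 * (Nat.gcd u.val q * Nat.gcd w.val q) := by
      rw [Nat.gcd_comm q u.val, Nat.gcd_comm q w.val]

theorem card_affine_le (c t : ZMod q) : #{x : ZMod q | (2 * x + t) * c = 0} ≤
    #{x : ZMod q | (2 * c) * x = 0} := by
  classical
  rcases Finset.eq_empty_or_nonempty ({x : ZMod q | (2 * x + t) * c = 0} : Finset (ZMod q))
    with he | ⟨c0, hc0⟩
  · rw [he]; simp
  · apply Finset.card_le_card_of_injOn (fun x => x - c0)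
    · intro x hx
      simp only [Finset.coe_filter, Finset.mem_univ, true_and, Set.mem_ofPred_eq] at hx
      simp only [Finset.mem_filter, Finset.mem_univ, true_and] at hc0
      simp only [Finset.coe_filter, Finset.mem_univ, true_and, Set.mem_ofPred_eq]
      linear_combination hx - hc0
    · intro x _ y _ hxy
      simpa using hxy

theorem card_Sol_le : #(Sol q) ≤ 2 * (q * #(q.divisors)) ^ 2 := by
  classical
  have hstep1 : #(Sol q) ≤ #{p : ZMod q × (ZMod q × ZMod q) |
      (2 * p.1 + (p.2.1 + p.2.2)) * (p.2.1 * p.2.2) = 0} := by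
    apply Finset.card_le_card_of_injOn (fun p => ((p.1.1 : ZMod q),
      ((p.2.1 : ZMod q) - (p.1.1 : ZMod q), (p.1.2 : ZMod q) - (p.2.1 : ZMod q))))
    · rintro ⟨⟨x1, x2⟩, ⟨x3, x4⟩⟩ hp
      simp only [Sol, Finset.coe_filter, Finset.mem_univ, true_and, Set.mem_ofPred_eq] at hp
      simp only [Finset.coe_filter, Finset.mem_univ, true_and, Set.mem_ofPred_eq]
      obtain ⟨h1, h2⟩ := hp
      have e1 : (x1 : ZMod q) * ((x1⁻¹ : (ZMod q)ˣ) : ZMod q) = 1 := by simp
      have e2 : (x2 : ZMod q) * ((x2⁻¹ : (ZMod q)ˣ) : ZMod q) = 1 := by simp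
      have e3 : (x3 : ZMod q) * ((x3⁻¹ : (ZMod q)ˣ) : ZMod q) = 1 := by simp
      have e4 : (x4 : ZMod q) * ((x4⁻¹ : (ZMod q)ˣ) : ZMod q) = 1 := by simp
      set y1 := ((x1⁻¹ : (ZMod q)ˣ) : ZMod q)
      set y2 := ((x2⁻¹ : (ZMod q)ˣ) : ZMod q)
      set y3 := ((x3⁻¹ : (ZMod q)ˣ) : ZMod q)
      set y4 := ((x4⁻¹ : (ZMod q)ˣ) : ZMod q)
      set X1 := (x1 : ZMod q)
      set X2 := (x2 : ZMod q)
      set X3 := (x3 : ZMod q)
      set X4 := (x4 : ZMod q)
      have hmul : X1 * X2 * X3 * X4 * (y1 + y2) = X1 * X2 * X3 * X4 * (y3 + y4) := by rw [h2]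
      have hL : X1 * X2 * X3 * X4 * (y1 + y2) = (X1 + X2) * (X3 * X4) := by
        linear_combination (X2 * X3 * X4) * e1 + (X1 * X3 * X4) * e2
      have hR : X1 * X2 * X3 * X4 * (y3 + y4) = (X3 + X4) * (X1 * X2) := by
        linear_combination (X1 * X2 * X4) * e3 + (X1 * X2 * X3) * e4
      rw [hL, hR] at hmul
      have hX4 : X4 = X1 + X2 - X3 := by linear_combination -h1
      rw [hX4] at hmul
      linear_combination hmul
    · rintro ⟨⟨x1, x2⟩, ⟨x3, x4⟩⟩ hp ⟨⟨z1, z2⟩, ⟨z3, z4⟩⟩ hp' hxy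
      simp only [Sol, Finset.coe_filter, Finset.mem_univ, true_and, Set.mem_ofPred_eq] at hp hp'
      simp only [Prod.mk.injEq] at hxy
      obtain ⟨h1, h2, h3⟩ := hxy
      have g1 : x1 = z1 := Units.ext h1
      have g3 : (x3 : ZMod q) = z3 := by rw [h1] at h2; exact sub_left_injective h2
      have g3' : x3 = z3 := Units.ext g3
      have g2 : (x2 : ZMod q) = z2 := by rw [g3] at h3; exact sub_left_injective h3
      have g2' : x2 = z2 := Units.ext g2
      have g4 : (x4 : ZMod q) = z4 := by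
        have := hp.1
        have h' := hp'.1
        rw [g1, g2', g3'] at this
        rw [h'] at this
        exact (add_left_cancel this).symm
      have g4' : x4 = z4 := Units.ext g4
      rw [g1, g2', g3', g4']
  have hstep2 : #{p : ZMod q × (ZMod q × ZMod q) |
      (2 * p.1 + (p.2.1 + p.2.2)) * (p.2.1 * p.2.2) = 0} =
      ∑ u : ZMod q, ∑ w : ZMod q, #{x : ZMod q | (2 * x + (u + w)) * (u * w) = 0} := by
    rw [Finset.card_filter, ← Finset.univ_product_univ, Finset.sum_product_right,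
      ← Finset.univ_product_univ, Finset.sum_product]
    refine Finset.sum_congr rfl fun u _ => Finset.sum_congr rfl fun w _ => ?_
    rw [Finset.card_filter]
  rw [hstep2] at hstep1
  calc #(Sol q) ≤ ∑ u : ZMod q, ∑ w : ZMod q,
        #{x : ZMod q | (2 * x + (u + w)) * (u * w) = 0} := hstep1
    _ ≤ ∑ u : ZMod q, ∑ w : ZMod q, 2 * (Nat.gcd u.val q * Nat.gcd w.val q) := by
        refine Finset.sum_le_sum fun u _ => Finset.sum_le_sum fun w _ => ?_
        refine (card_affine_le (u * w) (u + w)).trans ?_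
        refine (card_annihilator (2 * (u * w))).trans ?_
        rw [← mul_assoc]
        exact gcd_mul_le u w
    _ = 2 * (∑ u : ZMod q, Nat.gcd u.val q) ^ 2 := by
        rw [sq, Finset.sum_mul_sum, Finset.mul_sum]
        refine Finset.sum_congr rfl fun u _ => ?_
        rw [Finset.mul_sum]
    _ ≤ 2 * (q * #(q.divisors)) ^ 2 := by
        have := sum_gcd_le (q := q)
        gcongr

/-- Elementary bound for Kloosterman sums to an arbitrary modulus. -/
theorem K_bound (a b : ZMod q) :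
    ‖K a b‖ ^ 4 ≤ 2 * (Nat.gcd a.val q : ℝ) * (q : ℝ) ^ 3 * (#(q.divisors) : ℝ) ^ 3 := by
  have hq : 0 < q := Nat.pos_of_ne_zero (NeZero.ne q)
  have h1 := K_fourth_le a b
  have h2 : (#(Sol q) : ℝ) ≤ 2 * ((q : ℝ) * #(q.divisors)) ^ 2 := by
    exact_mod_cast card_Sol_le (q := q)
  have h3 : q ≤ Nat.totient q * #(q.divisors) := by
    calc q = ∑ m ∈ q.divisors, Nat.totient m := (Nat.sum_totient q).symm
      _ ≤ ∑ m ∈ q.divisors, Nat.totient q := by
          refine Finset.sum_le_sum fun m hm => ?_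
          exact Nat.le_of_dvd (Nat.totient_pos.2 hq) (Nat.totient_dvd_of_dvd (Nat.mem_divisors.1 hm).1)
      _ = Nat.totient q * #(q.divisors) := by rw [Finset.sum_const, smul_eq_mul, mul_comm]
  have h3' : (q : ℝ) ≤ Nat.totient q * #(q.divisors) := by exact_mod_cast h3
  have hq' : (0 : ℝ) < q := by exact_mod_cast hq
  have h4 : (q : ℝ) * ‖K a b‖ ^ 4 ≤ (q : ℝ) *
      (2 * (Nat.gcd a.val q : ℝ) * (q : ℝ) ^ 3 * (#(q.divisors) : ℝ) ^ 3) := by
    calc (q : ℝ) * ‖K a b‖ ^ 4 ≤ (Nat.totient q * #(q.divisors)) * ‖K a b‖ ^ 4 := by gcongr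
      _ = #(q.divisors) * (Nat.totient q * ‖K a b‖ ^ 4) := by ring
      _ ≤ #(q.divisors) * ((Nat.gcd a.val q : ℝ) * ((q : ℝ) ^ 2 * (#(Sol q) : ℝ))) := by gcongr
      _ ≤ #(q.divisors) * ((Nat.gcd a.val q : ℝ) * ((q : ℝ) ^ 2 *
            (2 * ((q : ℝ) * #(q.divisors)) ^ 2))) := by gcongr
      _ = _ := by ring
  exact le_of_mul_le_mul_left h4 hq'

end Pool.Agent.Work.MP_2dba45_nt.Kloost
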