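import Mathlib
import Pool.Agent.Work.MP_2dba45_nt.Kloost

set_option autoImplicit false

namespace Pool.Agent.Work.MP_2dba45_nt.Compl

open Finset Pool.Agent.Work.MP_2dba45_nt.Kloost

/-- weight bounding geometric sums -/
noncomputable def wt (b : ℕ) (j : ℕ) : ℝ := (b : ℝ) / 2 * (1 / (j : ℝ) + 1 / ((b : ℝ) - j))

theorem sin_lower {t : ℝ} (h0 : 0 < t) (h1 : t < 1) :
    2 * min t (1 - t) ≤ Real.sin (Real.pi * t) := by
  rcases le_total t (1 / 2) with h | h
  · have := Real.mul_le_sin (x := Real.pi * t) (by positivity)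
      (by nlinarith [Real.pi_pos])
    have e : 2 / Real.pi * (Real.pi * t) = 2 * t := by
      field_simp
    rw [e] at this
    have hm : min t (1 - t) ≤ t := min_le_left _ _
    linarith
  · have := Real.mul_le_sin (x := Real.pi * (1 - t)) (by nlinarith [Real.pi_pos])
      (by nlinarith [Real.pi_pos])
    have e : 2 / Real.pi * (Real.pi * (1 - t)) = 2 * (1 - t) := by
      field_simp
    rw [e] at this
    have e2 : Real.sin (Real.pi * (1 - t)) = Real.sin (Real.pi * t) := by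
      rw [mul_sub, mul_one, Real.sin_pi_sub]
    rw [e2] at this
    have hm : min t (1 - t) ≤ 1 - t := min_le_right _ _
    linarith

variable {b : ℕ} [NeZero b]

theorem norm_psi_sub_one (x : ZMod b) (hx : x ≠ 0) :
    4 * min ((x.val : ℝ) / b) (1 - (x.val : ℝ) / b) ≤ ‖(ZMod.stdAddChar x : ℂ) - 1‖ := by
  have hb : (0 : ℝ) < b := by exact_mod_cast Nat.pos_of_ne_zero (NeZero.ne b)
  have hv0 : 0 < x.val := Nat.pos_of_ne_zero (by rwa [Ne, ZMod.val_eq_zero])
  have hv1 : x.val < b := ZMod.val_lt x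
  set t : ℝ := (x.val : ℝ) / b with ht
  have ht0 : 0 < t := by have : (0 : ℝ) < x.val := by exact_mod_cast hv0
                         positivity
  have ht1 : t < 1 := by rw [ht, div_lt_one hb]; exact_mod_cast hv1
  have h1 : (ZMod.stdAddChar x : ℂ) = Complex.exp (Complex.I * ((2 * Real.pi * t : ℝ) : ℂ)) := by
    rw [ZMod.stdAddChar_apply, ZMod.toCircle_apply]
    congr 1
    rw [ht]
    push_cast
    ring
  rw [h1, Complex.norm_exp_I_mul_ofReal_sub_one]
  have h2 : 2 * Real.pi * t / 2 = Real.pi * t := by ring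
  rw [h2, Real.norm_eq_abs]
  have h3 := sin_lower ht0 ht1
  refine le_trans ?_ (le_abs_self _)
  linarith

theorem geom_bound (x : ZMod b) (hx : x ≠ 0) (L : ℕ) :
    ‖∑ s ∈ range L, (ZMod.stdAddChar ((s : ZMod b) * x) : ℂ)‖ ≤ wt b x.val := by
  have hb : (0 : ℝ) < b := by exact_mod_cast Nat.pos_of_ne_zero (NeZero.ne b)
  have hv0 : 0 < x.val := Nat.pos_of_ne_zero (by rwa [Ne, ZMod.val_eq_zero])
  have hv1 : x.val < b := ZMod.val_lt x
  have hv0' : (0 : ℝ) < x.val := by exact_mod_cast hv0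
  have hv1' : (x.val : ℝ) < b := by exact_mod_cast hv1
  have hlow := norm_psi_sub_one x hx
  set t : ℝ := (x.val : ℝ) / b with ht
  have ht0 : 0 < t := by positivity
  have ht1 : t < 1 := by rw [ht, div_lt_one hb]; exact_mod_cast hv1
  have hmin : 0 < min t (1 - t) := lt_min ht0 (by linarith)
  have hne : (ZMod.stdAddChar x : ℂ) ≠ 1 := by
    intro h
    rw [h, sub_self, norm_zero] at hlow
    linarith
  have h1 : ∑ s ∈ range L, (ZMod.stdAddChar ((s : ZMod b) * x) : ℂ) =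
      ((ZMod.stdAddChar x : ℂ) ^ L - 1) / ((ZMod.stdAddChar x : ℂ) - 1) := by
    rw [← geom_sum_eq hne]
    refine Finset.sum_congr rfl fun s _ => ?_
    rw [← nsmul_eq_mul, AddChar.map_nsmul_eq_pow]
  rw [h1, norm_div]
  have h2 : ‖(ZMod.stdAddChar x : ℂ) ^ L - 1‖ ≤ 2 := by
    calc ‖(ZMod.stdAddChar x : ℂ) ^ L - 1‖ ≤ ‖(ZMod.stdAddChar x : ℂ) ^ L‖ + ‖(1 : ℂ)‖ :=
          norm_sub_le _ _
      _ = 2 := by rw [norm_pow, AddChar.norm_apply, one_pow, norm_one]; norm_num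
  calc ‖(ZMod.stdAddChar x : ℂ) ^ L - 1‖ / ‖(ZMod.stdAddChar x : ℂ) - 1‖
      ≤ 2 / (4 * min t (1 - t)) := by gcongr
    _ = (1 / 2) * (1 / min t (1 - t)) := by field_simp; ring
    _ ≤ (1 / 2) * (1 / t + 1 / (1 - t)) := by
        have p1 : 0 < 1 / t := by positivity
        have p2 : 0 < 1 / (1 - t) := by
          have : 0 < 1 - t := by linarith
          positivity
        rcases min_choice t (1 - t) with h | h <;> rw [h] <;> nlinarith
    _ = wt b x.val := by
        rw [wt, ht]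
        have : (b : ℝ) - x.val ≠ 0 := by linarith
        have h5 : 1 - (x.val : ℝ) / b = ((b : ℝ) - x.val) / b := by field_simp
        rw [h5]
        field_simp

theorem wt_nonneg (x : ZMod b) : 0 ≤ wt b x.val := by
  have hv1 : x.val < b := ZMod.val_lt x
  have hv1' : (x.val : ℝ) < b := by exact_mod_cast hv1
  unfold wt
  have : (0 : ℝ) < (b : ℝ) - x.val := by linarith
  positivity

theorem gcd_mul_unit (x : ZMod b) (c : (ZMod b)ˣ) :
    Nat.gcd (x * (c : ZMod b)).val b = Nat.gcd x.val b := by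
  rw [ZMod.val_mul]
  have h1 : (x.val * (c : ZMod b).val % b).gcd b = (x.val * (c : ZMod b).val).gcd b :=
    (Nat.mod_modEq _ _).gcd_eq
  rw [h1]
  exact Nat.Coprime.gcd_mul_right_cancel _ (ZMod.val_coe_unit_coprime c)

theorem sum_gcd_div_le (b : ℕ) (hb : 0 < b) :
    ∑ j ∈ (range b).filter (fun j => j ≠ 0), (Nat.gcd j b : ℝ) * (1 / (j : ℝ)) ≤
      #(b.divisors) * (1 + Real.log b) := by
  calc ∑ j ∈ (range b).filter (fun j => j ≠ 0), (Nat.gcd j b : ℝ) * (1 / (j : ℝ))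
      ≤ ∑ j ∈ (range b).filter (fun j => j ≠ 0), ∑ g ∈ b.divisors,
          (if g ∣ j then (g : ℝ) * (1 / (j : ℝ)) else 0) := by
        refine Finset.sum_le_sum fun j _ => ?_
        have hmem : Nat.gcd j b ∈ b.divisors :=
          Nat.mem_divisors.2 ⟨Nat.gcd_dvd_right _ _, hb.ne'⟩
        have := Finset.single_le_sum (f := fun g : ℕ => if g ∣ j then (g : ℝ) * (1 / (j : ℝ)) else 0)
          (fun i _ => by positivity) hmem
        simpa [Nat.gcd_dvd_left] using this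
    _ = ∑ g ∈ b.divisors, ∑ j ∈ (range b).filter (fun j => j ≠ 0),
          (if g ∣ j then (g : ℝ) * (1 / (j : ℝ)) else 0) := Finset.sum_comm
    _ ≤ ∑ g ∈ b.divisors, (1 + Real.log b) := by
        refine Finset.sum_le_sum fun g hg => ?_
        have hgb := (Nat.mem_divisors.1 hg).1
        have hgpos : 0 < g := Nat.pos_of_dvd_of_pos hgb hb
        rw [← Finset.sum_filter]
        calc ∑ j ∈ ((range b).filter (fun j => j ≠ 0)).filter (fun j => g ∣ j),
              (g : ℝ) * (1 / (j : ℝ))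
            ≤ ∑ i ∈ range b, ((i + 1 : ℕ) : ℝ)⁻¹ := by
              have hinj : Set.InjOn (fun j => j / g - 1)
                  (((range b).filter (fun j => j ≠ 0)).filter (fun j => g ∣ j) : Finset ℕ) := by
                intro x hx y hy hxy
                simp only [Finset.coe_filter, Finset.mem_filter, Finset.mem_range,
                  Set.mem_ofPred_eq] at hx hy
                obtain ⟨⟨hx1, hx2⟩, ⟨x', rfl⟩⟩ := hx
                obtain ⟨⟨hy1, hy2⟩, ⟨y', rfl⟩⟩ := hy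
                simp only [Nat.mul_div_cancel_left _ hgpos] at hxy
                have : x' ≠ 0 := by rintro rfl; simp at hx2
                have : y' ≠ 0 := by rintro rfl; simp at hy2
                have : x' = y' := by omega
                rw [this]
              have hval : ∀ j ∈ ((range b).filter (fun j => j ≠ 0)).filter (fun j => g ∣ j),
                  (g : ℝ) * (1 / (j : ℝ)) = (((j / g - 1) + 1 : ℕ) : ℝ)⁻¹ := by
                intro j hj
                simp only [Finset.mem_filter, Finset.mem_range] at hj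
                obtain ⟨⟨hj1, hj2⟩, ⟨j', rfl⟩⟩ := hj
                have hj' : j' ≠ 0 := by rintro rfl; simp at hj2
                rw [Nat.mul_div_cancel_left _ hgpos, Nat.sub_add_cancel (Nat.pos_of_ne_zero hj')]
                have : (g : ℝ) ≠ 0 := by positivity
                have : (j' : ℝ) ≠ 0 := by positivity
                push_cast
                field_simp
              rw [Finset.sum_congr rfl hval,
                ← Finset.sum_image (f := fun i : ℕ => ((i + 1 : ℕ) : ℝ)⁻¹) hinj]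
              apply Finset.sum_le_sum_of_subset_of_nonneg
              · intro i hi
                rw [Finset.mem_image] at hi
                obtain ⟨j, hj, rfl⟩ := hi
                simp only [Finset.mem_filter, Finset.mem_range] at hj
                rw [Finset.mem_range]
                have : j / g ≤ j := Nat.div_le_self _ _
                omega
              · intro i _ _
                positivity
          _ = ((harmonic b : ℚ) : ℝ) := by
              rw [harmonic]; push_cast; rfl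
          _ ≤ 1 + Real.log b := harmonic_le_one_add_log b
    _ = #(b.divisors) * (1 + Real.log b) := by rw [Finset.sum_const, nsmul_eq_mul]

/-- sum over nonzero residues as a sum over a range -/
theorem sum_zmod_eq (f : ℕ → ℝ) :
    ∑ x ∈ (univ : Finset (ZMod b)).filter (fun x => x ≠ 0), f x.val =
      ∑ j ∈ (range b).filter (fun j => j ≠ 0), f j := by
  refine Finset.sum_nbij' (fun x => x.val) (fun j => (j : ZMod b)) ?_ ?_ ?_ ?_ ?_
  · intro x hx
    simp only [Finset.mem_filter, Finset.mem_univ, true_and] at hx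
    simp only [Finset.mem_filter, Finset.mem_range]
    exact ⟨ZMod.val_lt x, by rwa [Ne, ZMod.val_eq_zero]⟩
  · intro j hj
    simp only [Finset.mem_filter, Finset.mem_range] at hj
    simp only [Finset.mem_filter, Finset.mem_univ, true_and]
    intro h
    apply hj.2
    have := ZMod.val_cast_of_lt hj.1
    rw [h, ZMod.val_zero] at this
    exact this.symm
  · intro x _
    exact ZMod.natCast_zmod_val x
  · intro j hj
    simp only [Finset.mem_filter, Finset.mem_range] at hj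
    exact ZMod.val_cast_of_lt hj.1
  · intro x _
    rfl

theorem sum_gcd_wt_le :
    ∑ x ∈ (univ : Finset (ZMod b)).filter (fun x => x ≠ 0), (Nat.gcd x.val b : ℝ) * wt b x.val ≤
      b * (#(b.divisors) * (1 + Real.log b)) := by
  have hb : 0 < b := Nat.pos_of_ne_zero (NeZero.ne b)
  have h0 := sum_gcd_div_le b hb
  have h1 := sum_zmod_eq (b := b) (fun j => (Nat.gcd j b : ℝ) * wt b j)
  rw [h1]
  have hrefl : ∑ j ∈ (range b).filter (fun j => j ≠ 0), (Nat.gcd j b : ℝ) * (1 / ((b : ℝ) - j)) =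
      ∑ j ∈ (range b).filter (fun j => j ≠ 0), (Nat.gcd j b : ℝ) * (1 / (j : ℝ)) := by
    refine Finset.sum_nbij' (fun j => b - j) (fun j => b - j) ?_ ?_ ?_ ?_ ?_
    · intro j hj
      simp only [Finset.mem_filter, Finset.mem_range] at hj ⊢
      omega
    · intro j hj
      simp only [Finset.mem_filter, Finset.mem_range] at hj ⊢
      omega
    · intro j hj
      simp only [Finset.mem_filter, Finset.mem_range] at hj ⊢
      omega
    · intro j hj
      simp only [Finset.mem_filter, Finset.mem_range] at hj ⊢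
      omega
    · intro j hj
      simp only [Finset.mem_filter, Finset.mem_range] at hj
      have h2 : Nat.gcd (b - j) b = Nat.gcd j b := by
        exact Nat.gcd_self_sub_left (m := b) (n := j) hj.1.le
      rw [h2, Nat.cast_sub hj.1.le]
  have h2 : ∑ j ∈ (range b).filter (fun j => j ≠ 0), (Nat.gcd j b : ℝ) * wt b j =
      (b : ℝ) / 2 * (∑ j ∈ (range b).filter (fun j => j ≠ 0), (Nat.gcd j b : ℝ) * (1 / (j : ℝ)) +
        ∑ j ∈ (range b).filter (fun j => j ≠ 0), (Nat.gcd j b : ℝ) * (1 / ((b : ℝ) - j))) := by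
    rw [← Finset.sum_add_distrib, Finset.mul_sum]
    refine Finset.sum_congr rfl fun j _ => ?_
    unfold wt
    ring
  rw [h2, hrefl]
  have hb' : (0 : ℝ) < b := by exact_mod_cast hb
  nlinarith

theorem K_symm (x y : ZMod b) : K x y = K y x := by
  unfold K
  apply Fintype.sum_equiv (Equiv.inv (ZMod b)ˣ)
  intro u
  congr 1
  simp only [Equiv.inv_apply, inv_inv]
  ring

theorem K_le (x y : ZMod b) :
    ‖K x y‖ ≤ 2 * (b : ℝ) ^ ((3 : ℝ) / 4) * #(b.divisors) * (Nat.gcd x.val b : ℝ) := by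
  have hb : 0 < b := Nat.pos_of_ne_zero (NeZero.ne b)
  have hb' : (0 : ℝ) < b := by exact_mod_cast hb
  have hg : (1 : ℝ) ≤ Nat.gcd x.val b := by
    exact_mod_cast Nat.gcd_pos_of_pos_right _ hb
  have ht : (1 : ℝ) ≤ #(b.divisors) := by
    exact_mod_cast Finset.card_pos.2 ⟨1, Nat.one_mem_divisors.2 hb.ne'⟩
  have h1 := K_bound x y
  have h2 : ((b : ℝ) ^ ((3 : ℝ) / 4)) ^ 4 = (b : ℝ) ^ 3 := by
    rw [← Real.rpow_natCast, ← Real.rpow_mul hb'.le]
    norm_num
  set g : ℝ := (Nat.gcd x.val b : ℝ)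
  set t : ℝ := (#(b.divisors) : ℝ)
  have h3 : ‖K x y‖ ^ 4 ≤ (2 * (b : ℝ) ^ ((3 : ℝ) / 4) * t * g) ^ 4 := by
    refine h1.trans ?_
    have : (2 * (b : ℝ) ^ ((3 : ℝ) / 4) * t * g) ^ 4 = 16 * (b : ℝ) ^ 3 * t ^ 4 * g ^ 4 := by
      rw [mul_pow, mul_pow, mul_pow, h2]; norm_num
    rw [this]
    have e1 : t ^ 3 ≤ t ^ 4 := pow_le_pow_right₀ ht (by norm_num)
    have e2 : g ≤ g ^ 4 := by
      calc g = g ^ 1 := (pow_one g).symm
        _ ≤ g ^ 4 := pow_le_pow_right₀ hg (by norm_num)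
    calc 2 * g * (b : ℝ) ^ 3 * t ^ 3 ≤ 16 * g ^ 4 * (b : ℝ) ^ 3 * t ^ 4 := by gcongr; norm_num
      _ = _ := by ring
  exact le_of_pow_le_pow_left₀ (by norm_num) (by positivity) h3

/-- incomplete sums -/
noncomputable def hat (α D : ZMod b) (L : ℕ) (h : ZMod b) : ℂ :=
  ∑ s ∈ range L, (ZMod.stdAddChar (h * (α + D * (s : ZMod b))) : ℂ)

theorem hat_zero (α D : ZMod b) (L : ℕ) : hat α D L 0 = L := by
  simp [hat]

theorem norm_hat_le (α : ZMod b) (D : (ZMod b)ˣ) (L : ℕ) (h : ZMod b) (hh : h ≠ 0) :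
    ‖hat α D L h‖ ≤ wt b (h * (D : ZMod b)).val := by
  have hne : h * (D : ZMod b) ≠ 0 := by
    intro h0
    apply hh
    have := congrArg (fun x => x * ((D⁻¹ : (ZMod b)ˣ) : ZMod b)) h0
    simpa [mul_assoc] using this
  have h1 : hat α D L h = (ZMod.stdAddChar (h * α) : ℂ) *
      ∑ s ∈ range L, (ZMod.stdAddChar ((s : ZMod b) * (h * (D : ZMod b))) : ℂ) := by
    unfold hat
    rw [Finset.mul_sum]
    refine Finset.sum_congr rfl fun s _ => ?_
    rw [← AddChar.map_add_eq_mul]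
    congr 1
    ring
  rw [h1, norm_mul, AddChar.norm_apply, one_mul]
  exact geom_bound _ hne L

theorem sum_norm_hat_gcd (α : ZMod b) (D : (ZMod b)ˣ) (L : ℕ) :
    ∑ h ∈ (univ : Finset (ZMod b)).filter (fun x => x ≠ 0),
      (Nat.gcd h.val b : ℝ) * ‖hat α D L h‖ ≤ b * (#(b.divisors) * (1 + Real.log b)) := by
  refine le_trans ?_ (sum_gcd_wt_le (b := b))
  have h1 : ∑ x ∈ (univ : Finset (ZMod b)).filter (fun x => x ≠ 0),
      (Nat.gcd x.val b : ℝ) * wt b x.val =
      ∑ h ∈ (univ : Finset (ZMod b)).filter (fun x => x ≠ 0),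
      (Nat.gcd (h * (D : ZMod b)).val b : ℝ) * wt b (h * (D : ZMod b)).val := by
    symm
    refine Finset.sum_nbij' (fun h => h * (D : ZMod b))
      (fun h => h * ((D⁻¹ : (ZMod b)ˣ) : ZMod b)) ?_ ?_ ?_ ?_ ?_
    · intro h hh
      simp only [Finset.mem_filter, Finset.mem_univ, true_and] at hh ⊢
      intro h0
      apply hh
      have := congrArg (fun x => x * ((D⁻¹ : (ZMod b)ˣ) : ZMod b)) h0
      simpa [mul_assoc] using this
    · intro h hh
      simp only [Finset.mem_filter, Finset.mem_univ, true_and] at hh ⊢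
      intro h0
      apply hh
      have := congrArg (fun x => x * (D : ZMod b)) h0
      simpa [mul_assoc] using this
    · intro h _
      simp [mul_assoc]
    · intro h _
      simp [mul_assoc]
    · intro h _
      rfl
  rw [h1]
  refine Finset.sum_le_sum fun h hh => ?_
  simp only [Finset.mem_filter, Finset.mem_univ, true_and] at hh
  rw [gcd_mul_unit]
  gcongr
  exact norm_hat_le α D L h hh

theorem sum_norm_hat (α : ZMod b) (D : (ZMod b)ˣ) (L : ℕ) :
    ∑ h : ZMod b, ‖hat α D L h‖ ≤ L + b * (#(b.divisors) * (1 + Real.log b)) := by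
  have hb : 0 < b := Nat.pos_of_ne_zero (NeZero.ne b)
  rw [← Finset.sum_filter_add_sum_filter_not univ (fun x : ZMod b => x = 0)]
  have h1 : ∑ x ∈ (univ : Finset (ZMod b)).filter (fun x => x = 0), ‖hat α D L x‖ = L := by
    rw [Finset.filter_eq' univ (0 : ZMod b)]
    simp [hat_zero]
  rw [h1]
  gcongr
  refine le_trans ?_ (sum_norm_hat_gcd α D L)
  refine Finset.sum_le_sum fun h _ => ?_
  have hg : (1 : ℝ) ≤ Nat.gcd h.val b := by
    exact_mod_cast Nat.gcd_pos_of_pos_right _ hb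
  calc ‖hat α D L h‖ = 1 * ‖hat α D L h‖ := (one_mul _).symm
    _ ≤ _ := by gcongr

/-- detection by additive characters -/
theorem detect (y : ZMod b) : ∑ h : ZMod b, (ZMod.stdAddChar (h * y) : ℂ) =
    if y = 0 then (b : ℂ) else 0 := by
  rw [AddChar.sum_mulShift _ (ZMod.isPrimitive_stdAddChar b), ZMod.card]
  split_ifs <;> simp

theorem count_eq (α₁ α₂ D₁ D₂ : ZMod b) (L₁ L₂ : ℕ) :
    (b : ℂ) ^ 2 * (#((range L₁ ×ˢ range L₂).filter
      (fun p : ℕ × ℕ => (α₁ + D₁ * p.1) * (α₂ + D₂ * p.2) = 1)) : ℂ) =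
    ∑ h : ZMod b, ∑ k : ZMod b, hat α₁ D₁ L₁ h * hat α₂ D₂ L₂ k * K (-h) (-k) := by
  have h1 : ∀ (x : (ZMod b)ˣ), ∑ h : ZMod b, hat α₁ D₁ L₁ h * (ZMod.stdAddChar (-h * (x : ZMod b)) : ℂ)
      = ∑ s ∈ range L₁, if α₁ + D₁ * s = (x : ZMod b) then (b : ℂ) else 0 := by
    intro x
    unfold hat
    simp_rw [Finset.sum_mul]
    rw [Finset.sum_comm]
    refine Finset.sum_congr rfl fun s _ => ?_
    simp_rw [← AddChar.map_add_eq_mul]
    have h2 : ∀ h : ZMod b, h * (α₁ + D₁ * s) + -h * (x : ZMod b) =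
        h * (α₁ + D₁ * s - (x : ZMod b)) := by intro h; ring
    simp_rw [h2, detect, sub_eq_zero]
  have h1' : ∀ (x : (ZMod b)ˣ), ∑ k : ZMod b, hat α₂ D₂ L₂ k *
      (ZMod.stdAddChar (-k * ((x⁻¹ : (ZMod b)ˣ) : ZMod b)) : ℂ)
      = ∑ t ∈ range L₂, if α₂ + D₂ * t = ((x⁻¹ : (ZMod b)ˣ) : ZMod b) then (b : ℂ) else 0 := by
    intro x
    unfold hat
    simp_rw [Finset.sum_mul]
    rw [Finset.sum_comm]
    refine Finset.sum_congr rfl fun s _ => ?_
    simp_rw [← AddChar.map_add_eq_mul]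
    have h2 : ∀ h : ZMod b, h * (α₂ + D₂ * s) + -h * ((x⁻¹ : (ZMod b)ˣ) : ZMod b) =
        h * (α₂ + D₂ * s - ((x⁻¹ : (ZMod b)ˣ) : ZMod b)) := by intro h; ring
    simp_rw [h2, detect, sub_eq_zero]
  have h3 : ∑ h : ZMod b, ∑ k : ZMod b, hat α₁ D₁ L₁ h * hat α₂ D₂ L₂ k * K (-h) (-k) =
      ∑ x : (ZMod b)ˣ, (∑ h : ZMod b, hat α₁ D₁ L₁ h * (ZMod.stdAddChar (-h * (x : ZMod b)) : ℂ)) *
        (∑ k : ZMod b, hat α₂ D₂ L₂ k *
          (ZMod.stdAddChar (-k * ((x⁻¹ : (ZMod b)ˣ) : ZMod b)) : ℂ)) := by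
    simp_rw [Finset.sum_mul_sum]
    rw [Finset.sum_comm]
    calc ∑ k : ZMod b, ∑ h : ZMod b, hat α₁ D₁ L₁ h * hat α₂ D₂ L₂ k * K (-h) (-k)
        = ∑ k : ZMod b, ∑ h : ZMod b, ∑ x : (ZMod b)ˣ,
          (hat α₁ D₁ L₁ h * (ZMod.stdAddChar (-h * (x : ZMod b)) : ℂ)) *
          (hat α₂ D₂ L₂ k * (ZMod.stdAddChar (-k * ((x⁻¹ : (ZMod b)ˣ) : ZMod b)) : ℂ)) := by
          refine Finset.sum_congr rfl fun k _ => Finset.sum_congr rfl fun h _ => ?_
          rw [K, Finset.mul_sum]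
          refine Finset.sum_congr rfl fun x _ => ?_
          rw [AddChar.map_add_eq_mul]
          ring
      _ = ∑ k : ZMod b, ∑ x : (ZMod b)ˣ, ∑ h : ZMod b,
          (hat α₁ D₁ L₁ h * (ZMod.stdAddChar (-h * (x : ZMod b)) : ℂ)) *
          (hat α₂ D₂ L₂ k * (ZMod.stdAddChar (-k * ((x⁻¹ : (ZMod b)ˣ) : ZMod b)) : ℂ)) := by
          refine Finset.sum_congr rfl fun k _ => ?_
          rw [Finset.sum_comm]
      _ = ∑ x : (ZMod b)ˣ, ∑ k : ZMod b, ∑ h : ZMod b,
          (hat α₁ D₁ L₁ h * (ZMod.stdAddChar (-h * (x : ZMod b)) : ℂ)) *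
          (hat α₂ D₂ L₂ k * (ZMod.stdAddChar (-k * ((x⁻¹ : (ZMod b)ˣ) : ZMod b)) : ℂ)) := by
          rw [Finset.sum_comm]
      _ = _ := by
          refine Finset.sum_congr rfl fun x _ => ?_
          rw [Finset.sum_comm]
  rw [h3]
  simp_rw [h1, h1', Finset.sum_mul_sum]
  rw [Finset.card_filter, Finset.sum_product]
  push_cast
  rw [Finset.mul_sum]
  rw [Finset.sum_comm]
  refine Finset.sum_congr rfl fun s _ => ?_
  rw [Finset.mul_sum, Finset.sum_comm]
  refine Finset.sum_congr rfl fun t _ => ?_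
  by_cases hst : (α₁ + D₁ * s) * (α₂ + D₂ * t) = 1
  · rw [if_pos hst]
    have hu : ∃ x : (ZMod b)ˣ, (x : ZMod b) = α₁ + D₁ * s ∧
        ((x⁻¹ : (ZMod b)ˣ) : ZMod b) = α₂ + D₂ * t :=
      ⟨⟨α₁ + D₁ * s, α₂ + D₂ * t, hst, by rw [mul_comm]; exact hst⟩, rfl, rfl⟩
    obtain ⟨x, hx1, hx2⟩ := hu
    rw [Finset.sum_eq_single x]
    · rw [if_pos hx1.symm, if_pos hx2.symm]; ring
    · intro y _ hy
      rw [if_neg, zero_mul]
      intro h
      exact hy (Units.ext (h.symm.trans hx1.symm))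
    · intro h; exact absurd (Finset.mem_univ _) h
  · rw [if_neg hst, mul_zero]
    symm
    apply Finset.sum_eq_zero
    intro x _
    by_cases ha : α₁ + D₁ * s = (x : ZMod b)
    · by_cases hb' : α₂ + D₂ * t = ((x⁻¹ : (ZMod b)ˣ) : ZMod b)
      · exfalso
        apply hst
        rw [ha, hb']
        simp
      · rw [if_neg hb', mul_zero]
    · rw [if_neg ha, zero_mul]

theorem count_bound (α₁ α₂ : ZMod b) (D₁ D₂ : (ZMod b)ˣ) (L₁ L₂ : ℕ) :
    |(#((range L₁ ×ˢ range L₂).filter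
      (fun p : ℕ × ℕ => (α₁ + (D₁ : ZMod b) * p.1) * (α₂ + (D₂ : ZMod b) * p.2) = 1)) : ℝ) -
      (L₁ : ℝ) * L₂ * Nat.totient b / (b : ℝ) ^ 2| ≤
    2 * (#(b.divisors) : ℝ) ^ 3 * (1 + Real.log b) ^ 2 * (b : ℝ) ^ (-(1 / 4) : ℝ) * (L₁ + L₂ + b) := by
  have hb : 0 < b := Nat.pos_of_ne_zero (NeZero.ne b)
  have hb' : (0 : ℝ) < b := by exact_mod_cast hb
  have hb1 : (1 : ℝ) ≤ b := by exact_mod_cast hb
  have ht : (1 : ℝ) ≤ #(b.divisors) := by
    exact_mod_cast Finset.card_pos.2 ⟨1, Nat.one_mem_divisors.2 hb.ne'⟩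
  have hlog : 0 ≤ Real.log b := Real.log_nonneg hb1
  set t : ℝ := (#(b.divisors) : ℝ) with htdef
  set c := #((range L₁ ×ˢ range L₂).filter
      (fun p : ℕ × ℕ => (α₁ + (D₁ : ZMod b) * p.1) * (α₂ + (D₂ : ZMod b) * p.2) = 1)) with hc
  have h1 := count_eq α₁ α₂ (D₁ : ZMod b) (D₂ : ZMod b) L₁ L₂
  rw [← hc] at h1
  have hK0 : K (-(0 : ZMod b)) (-(0 : ZMod b)) = (Nat.totient b : ℂ) := by
    simp only [K, neg_zero, zero_mul, add_zero, AddChar.map_zero_eq_one, Finset.sum_const,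
      Finset.card_univ, ZMod.card_units_eq_totient, nsmul_eq_mul, mul_one]
  have h2 : (b : ℂ) ^ 2 * c - L₁ * L₂ * Nat.totient b =
      ∑ h ∈ (univ : Finset (ZMod b)).filter (fun x => x ≠ 0), ∑ k : ZMod b,
        hat α₁ D₁ L₁ h * hat α₂ D₂ L₂ k * K (-h) (-k) +
      ∑ k ∈ (univ : Finset (ZMod b)).filter (fun x => x ≠ 0),
        (L₁ : ℂ) * hat α₂ D₂ L₂ k * K (-0) (-k) := by
    rw [h1]
    rw [← Finset.sum_filter_add_sum_filter_not univ (fun x : ZMod b => x = 0)]
    rw [Finset.filter_eq' univ (0 : ZMod b)]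
    simp only [Finset.mem_univ, if_true, Finset.sum_singleton, hat_zero]
    rw [← Finset.sum_filter_add_sum_filter_not univ (fun x : ZMod b => x = 0)
      (fun k => (L₁ : ℂ) * hat α₂ D₂ L₂ k * K (-0) (-k))]
    rw [Finset.filter_eq' univ (0 : ZMod b)]
    simp only [Finset.mem_univ, if_true, Finset.sum_singleton, hat_zero, hK0]
    ring
  have hKb : ∀ h k : ZMod b, ‖K (-h) (-k)‖ ≤
      2 * (b : ℝ) ^ ((3 : ℝ) / 4) * t * (Nat.gcd h.val b : ℝ) := by
    intro h k
    have h3 := K_le (-h) (-k)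
    have h4 : Nat.gcd (-h).val b = Nat.gcd h.val b := by
      have := gcd_mul_unit h (-1)
      rw [← this]
      congr 2
      simp
    rw [h4] at h3
    exact h3
  have hA := sum_norm_hat_gcd α₁ D₁ L₁
  have hA' := sum_norm_hat_gcd α₂ D₂ L₂
  have hB := sum_norm_hat α₂ D₂ L₂
  rw [← htdef] at hA hA' hB
  have h5 : ‖(b : ℂ) ^ 2 * c - L₁ * L₂ * Nat.totient b‖ ≤
      2 * (b : ℝ) ^ ((3 : ℝ) / 4) * t * ((b * (t * (1 + Real.log b))) *
        (L₂ + b * (t * (1 + Real.log b)))) +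
      L₁ * (2 * (b : ℝ) ^ ((3 : ℝ) / 4) * t) * (b * (t * (1 + Real.log b))) := by
    rw [h2]
    refine (norm_add_le _ _).trans ?_
    apply add_le_add
    · calc ‖∑ h ∈ (univ : Finset (ZMod b)).filter (fun x => x ≠ 0), ∑ k : ZMod b,
          hat α₁ D₁ L₁ h * hat α₂ D₂ L₂ k * K (-h) (-k)‖
          ≤ ∑ h ∈ (univ : Finset (ZMod b)).filter (fun x => x ≠ 0), ∑ k : ZMod b,
            ‖hat α₁ D₁ L₁ h‖ * ‖hat α₂ D₂ L₂ k‖ *
              (2 * (b : ℝ) ^ ((3 : ℝ) / 4) * t * (Nat.gcd h.val b : ℝ)) := by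
            refine norm_sum_le_of_le _ fun h _ => norm_sum_le_of_le _ fun k _ => ?_
            rw [norm_mul, norm_mul]
            gcongr
            exact hKb h k
        _ = 2 * (b : ℝ) ^ ((3 : ℝ) / 4) * t *
            ((∑ h ∈ (univ : Finset (ZMod b)).filter (fun x => x ≠ 0),
              (Nat.gcd h.val b : ℝ) * ‖hat α₁ D₁ L₁ h‖) * ∑ k : ZMod b, ‖hat α₂ D₂ L₂ k‖) := by
            rw [Finset.sum_mul_sum, Finset.mul_sum]
            refine Finset.sum_congr rfl fun h _ => ?_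
            rw [Finset.mul_sum]
            refine Finset.sum_congr rfl fun k _ => ?_
            ring
        _ ≤ _ := by gcongr
    · calc ‖∑ k ∈ (univ : Finset (ZMod b)).filter (fun x => x ≠ 0),
          (L₁ : ℂ) * hat α₂ D₂ L₂ k * K (-0) (-k)‖
          ≤ ∑ k ∈ (univ : Finset (ZMod b)).filter (fun x => x ≠ 0),
            (L₁ : ℝ) * ‖hat α₂ D₂ L₂ k‖ *
              (2 * (b : ℝ) ^ ((3 : ℝ) / 4) * t * (Nat.gcd k.val b : ℝ)) := by
            refine norm_sum_le_of_le _ fun k _ => ?_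
            rw [norm_mul, norm_mul, K_symm]
            have := hKb k 0
            rw [Complex.norm_natCast]
            gcongr
        _ = L₁ * (2 * (b : ℝ) ^ ((3 : ℝ) / 4) * t) *
            ∑ k ∈ (univ : Finset (ZMod b)).filter (fun x => x ≠ 0),
              (Nat.gcd k.val b : ℝ) * ‖hat α₂ D₂ L₂ k‖ := by
            rw [Finset.mul_sum]
            refine Finset.sum_congr rfl fun k _ => ?_
            ring
        _ ≤ _ := by gcongr
  have h6 : ‖(b : ℂ) ^ 2 * c - L₁ * L₂ * Nat.totient b‖ =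
      (b : ℝ) ^ 2 * |(c : ℝ) - (L₁ : ℝ) * L₂ * Nat.totient b / (b : ℝ) ^ 2| := by
    have e : (b : ℂ) ^ 2 * c - L₁ * L₂ * Nat.totient b =
        (((b : ℝ) ^ 2 * ((c : ℝ) - (L₁ : ℝ) * L₂ * Nat.totient b / (b : ℝ) ^ 2) : ℝ) : ℂ) := by
      have : (b : ℝ) ^ 2 * ((c : ℝ) - (L₁ : ℝ) * L₂ * Nat.totient b / (b : ℝ) ^ 2) =
          (b : ℝ) ^ 2 * c - L₁ * L₂ * Nat.totient b := by
        field_simp
      rw [this]
      push_cast
      ring
    rw [e, Complex.norm_real, Real.norm_eq_abs, abs_mul, abs_of_pos (by positivity)]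
  rw [h6] at h5
  have h7 : (b : ℝ) ^ ((3 : ℝ) / 4) = b * (b : ℝ) ^ (-(1 / 4) : ℝ) := by
    rw [← Real.rpow_one_add' hb'.le (by norm_num)]
    norm_num
  set r := (b : ℝ) ^ (-(1 / 4) : ℝ) with hr
  have hr0 : 0 < r := Real.rpow_pos_of_pos hb' _
  rw [h7] at h5
  have h8 : 2 * ((b : ℝ) * r) * t * ((b * (t * (1 + Real.log b))) *
        (L₂ + b * (t * (1 + Real.log b)))) +
      L₁ * (2 * ((b : ℝ) * r) * t) * (b * (t * (1 + Real.log b))) ≤
      (b : ℝ) ^ 2 * (2 * t ^ 3 * (1 + Real.log b) ^ 2 * r * (L₁ + L₂ + b)) := by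
    set l := 1 + Real.log b with hl
    have hl1 : 1 ≤ l := by linarith
    have e1 : 2 * ((b : ℝ) * r) * t * ((b * (t * l)) * (L₂ + b * (t * l))) +
      L₁ * (2 * ((b : ℝ) * r) * t) * (b * (t * l)) =
      (b : ℝ) ^ 2 * (2 * r * (t ^ 2 * l * L₂ + b * t ^ 3 * l ^ 2 + t ^ 2 * l * L₁)) := by ring
    rw [e1]
    have e2 : t ^ 2 * l ≤ t ^ 3 * l ^ 2 := by
      calc t ^ 2 * l = t ^ 2 * l * 1 := by ring
        _ ≤ t ^ 2 * l * (t * l) := by
          gcongr
          nlinarith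
        _ = t ^ 3 * l ^ 2 := by ring
    have e3 : t ^ 2 * l * L₂ ≤ t ^ 3 * l ^ 2 * L₂ := by gcongr
    have e4 : t ^ 2 * l * L₁ ≤ t ^ 3 * l ^ 2 * L₁ := by gcongr
    calc (b : ℝ) ^ 2 * (2 * r * (t ^ 2 * l * L₂ + b * t ^ 3 * l ^ 2 + t ^ 2 * l * L₁))
        ≤ (b : ℝ) ^ 2 * (2 * r * (t ^ 3 * l ^ 2 * L₂ + b * t ^ 3 * l ^ 2 + t ^ 3 * l ^ 2 * L₁)) := by
          gcongr
      _ = _ := by ring
  have h9 := h5.trans h8
  exact le_of_mul_le_mul_left h9 (by positivity)

end Pool.Agent.Work.MP_2dba45_nt.Compl
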