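import Mathlib

set_option autoImplicit false

namespace Pool.Agent.Work.MP_2dba45_nt.Sel

open Finset

variable {ι : Type*} [DecidableEq ι]

/-- signed subset sum over an interval -/
theorem sum_between (S R : Finset ι) (hSR : S ⊆ R) :
    ∑ T ∈ R.powerset with S ⊆ T, (-1 : ℝ) ^ #T = if R = S then (-1) ^ #S else 0 := by
  have h1 : ∑ T ∈ R.powerset with S ⊆ T, (-1 : ℝ) ^ #T =
      ∑ T ∈ (R \ S).powerset, (-1 : ℝ) ^ (#S + #T) := by
    refine Finset.sum_nbij' (fun T => T \ S) (fun T => S ∪ T) ?_ ?_ ?_ ?_ ?_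
    · intro T hT
      simp only [Finset.mem_filter, Finset.mem_powerset] at hT
      simp only [Finset.mem_powerset]
      exact Finset.sdiff_subset_sdiff hT.1 (le_refl _)
    · intro T hT
      simp only [Finset.mem_powerset] at hT
      simp only [Finset.mem_filter, Finset.mem_powerset]
      exact ⟨Finset.union_subset hSR (hT.trans Finset.sdiff_subset), Finset.subset_union_left⟩
    · intro T hT
      simp only [Finset.mem_filter, Finset.mem_powerset] at hT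
      exact Finset.union_sdiff_of_subset hT.2
    · intro T hT
      simp only [Finset.mem_powerset] at hT
      have hd : Disjoint T S := Finset.disjoint_of_subset_left hT Finset.sdiff_disjoint
      rw [Finset.union_sdiff_cancel_left hd.symm]
    · intro T hT
      simp only [Finset.mem_filter, Finset.mem_powerset] at hT
      congr 1
      rw [Finset.card_sdiff_of_subset hT.2]
      have := Finset.card_le_card hT.2
      omega
  rw [h1]
  simp_rw [pow_add]
  rw [← Finset.mul_sum, ]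
  have h2 := Finset.sum_powerset_neg_one_pow_card (x := R \ S)
  have h3 : ∑ T ∈ (R \ S).powerset, (-1 : ℝ) ^ #T = if R \ S = ∅ then 1 else 0 := by
    exact_mod_cast congrArg (fun x : ℤ => (x : ℝ)) h2
  rw [h3]
  by_cases h : R = S
  · simp [h]
  · have : R \ S ≠ ∅ := by
      intro h4
      exact h (Finset.Subset.antisymm (Finset.sdiff_eq_empty_iff_subset.1 h4) hSR)
    simp [h, this]

/-- the data of the sieve weights -/
noncomputable def hh (g : ι → ℝ) (T : Finset ι) : ℝ := ∏ p ∈ T, (g p / (1 - g p))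

noncomputable def gg (g : ι → ℝ) (T : Finset ι) : ℝ := ∏ p ∈ T, g p

noncomputable def GG (g : ι → ℝ) (D : Finset (Finset ι)) : ℝ := ∑ T ∈ D, hh g T

noncomputable def lam (g : ι → ℝ) (D : Finset (Finset ι)) (T : Finset ι) : ℝ :=
  (-1) ^ #T * (gg g T)⁻¹ * (GG g D)⁻¹ * ∑ R ∈ D with T ⊆ R, hh g R

section
variable {g : ι → ℝ} {P : Finset ι} {D : Finset (Finset ι)}

theorem gg_pos (hg0 : ∀ p ∈ P, 0 < g p) {T : Finset ι} (hT : T ⊆ P) : 0 < gg g T :=
  Finset.prod_pos fun p hp => hg0 p (hT hp)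

theorem hh_pos (hg0 : ∀ p ∈ P, 0 < g p) (hg1 : ∀ p ∈ P, g p < 1) {T : Finset ι} (hT : T ⊆ P) :
    0 < hh g T :=
  Finset.prod_pos fun p hp => div_pos (hg0 p (hT hp)) (by linarith [hg1 p (hT hp)])

theorem GG_pos (hg0 : ∀ p ∈ P, 0 < g p) (hg1 : ∀ p ∈ P, g p < 1) (hD : D ⊆ P.powerset)
    (hD0 : ∅ ∈ D) : 0 < GG g D := by
  refine Finset.sum_pos (fun T hT => hh_pos hg0 hg1 (Finset.mem_powerset.1 (hD hT))) ⟨∅, hD0⟩

theorem lam_empty (hg0 : ∀ p ∈ P, 0 < g p) (hg1 : ∀ p ∈ P, g p < 1) (hD : D ⊆ P.powerset)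
    (hD0 : ∅ ∈ D) : lam g D ∅ = 1 := by
  have hG := GG_pos hg0 hg1 hD hD0
  unfold lam
  simp only [Finset.card_empty, pow_zero, gg, Finset.prod_empty, inv_one, Finset.empty_subset,
    Finset.filter_true, mul_one, one_mul]
  exact inv_mul_cancel₀ hG.ne'

theorem inv_gg (hg0 : ∀ p ∈ P, 0 < g p) (hg1 : ∀ p ∈ P, g p < 1) {T : Finset ι} (hT : T ⊆ P) :
    (gg g T)⁻¹ = ∑ S ∈ T.powerset, (hh g S)⁻¹ := by
  have h1 : (gg g T)⁻¹ = ∏ p ∈ T, (1 + (g p / (1 - g p))⁻¹) := by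
    rw [gg, ← Finset.prod_inv_distrib]
    refine Finset.prod_congr rfl fun p hp => ?_
    have h0 := hg0 p (hT hp)
    have h1 := hg1 p (hT hp)
    have : 1 - g p ≠ 0 := by linarith
    field_simp
    ring
  rw [h1, Finset.prod_one_add]
  refine Finset.sum_congr rfl fun S _ => ?_
  rw [hh, Finset.prod_inv_distrib]

theorem abs_lam_le (hg0 : ∀ p ∈ P, 0 < g p) (hg1 : ∀ p ∈ P, g p < 1) (hD : D ⊆ P.powerset)
    (hD0 : ∅ ∈ D) (hDc : ∀ T ∈ D, ∀ S ⊆ T, S ∈ D) {T : Finset ι} (hT : T ⊆ P) :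
    |lam g D T| ≤ 1 := by
  have hG := GG_pos hg0 hg1 hD hD0
  have hgT := gg_pos hg0 hT
  have hsum : 0 ≤ ∑ R ∈ D with T ⊆ R, hh g R :=
    Finset.sum_nonneg fun R hR =>
      (hh_pos hg0 hg1 (Finset.mem_powerset.1 (hD (Finset.mem_filter.1 hR).1))).le
  have h1 : |lam g D T| = (gg g T)⁻¹ * (GG g D)⁻¹ * ∑ R ∈ D with T ⊆ R, hh g R := by
    unfold lam
    rw [abs_mul, abs_mul, abs_mul, abs_pow, abs_neg, abs_one, one_pow, one_mul,
      abs_of_pos (inv_pos.2 hgT), abs_of_pos (inv_pos.2 hG), abs_of_nonneg hsum]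
  rw [h1]
  have key : (gg g T)⁻¹ * ∑ R ∈ D with T ⊆ R, hh g R ≤ GG g D := by
    rw [inv_gg hg0 hg1 hT, Finset.sum_mul_sum, ← Finset.sum_product']
    have h2 : ∀ x ∈ T.powerset ×ˢ (D.filter fun R => T ⊆ R),
        (hh g x.1)⁻¹ * hh g x.2 = hh g (x.2 \ x.1) := by
      rintro ⟨S, R⟩ hx
      simp only [Finset.mem_product, Finset.mem_powerset, Finset.mem_filter] at hx
      have hSR : S ⊆ R := hx.1.trans hx.2.2
      have hRP : R ⊆ P := Finset.mem_powerset.1 (hD hx.2.1)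
      have hS := hh_pos hg0 hg1 (hSR.trans hRP)
      simp only
      rw [hh, hh, hh, ← Finset.prod_sdiff hSR, mul_comm, mul_assoc]
      have h3 : (∏ p ∈ S, g p / (1 - g p)) * (∏ p ∈ S, g p / (1 - g p))⁻¹ = 1 :=
        mul_inv_cancel₀ hS.ne'
      rw [h3, mul_one]
    rw [Finset.sum_congr rfl h2]
    have hinj : Set.InjOn (fun x : Finset ι × Finset ι => x.2 \ x.1)
        (T.powerset ×ˢ (D.filter fun R => T ⊆ R) : Finset (Finset ι × Finset ι)) := by
      rintro ⟨S, R⟩ hx ⟨S', R'⟩ hy hxy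
      simp only [Finset.coe_product, Set.mem_prod, Finset.mem_coe, Finset.mem_powerset,
        Finset.mem_filter] at hx hy
      simp only at hxy
      have e1 : ∀ (S R : Finset ι), S ⊆ T → T ⊆ R → T \ (R \ S) = S := by
        intro S R h1 h2
        ext a
        simp only [Finset.mem_sdiff]
        constructor
        · rintro ⟨ha, hb⟩
          by_contra hc
          exact hb ⟨h2 ha, hc⟩
        · intro ha
          exact ⟨h1 ha, fun h => h.2 ha⟩
      have e2 : ∀ (S R : Finset ι), S ⊆ T → T ⊆ R → (R \ S) ∪ T = R := by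
        intro S R h1 h2
        ext a
        simp only [Finset.mem_sdiff, Finset.mem_union]
        constructor
        · rintro (h | h)
          · exact h.1
          · exact h2 h
        · intro ha
          by_cases haT : a ∈ T
          · exact Or.inr haT
          · exact Or.inl ⟨ha, fun h => haT (h1 h)⟩
      have f1 : S = S' := by
        rw [← e1 S R hx.1 hx.2.2, hxy, e1 S' R' hy.1 hy.2.2]
      have f2 : R = R' := by
        rw [← e2 S R hx.1 hx.2.2, hxy, e2 S' R' hy.1 hy.2.2]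
      rw [f1, f2]
    rw [← Finset.sum_image (f := fun Q => hh g Q) hinj, GG]
    apply Finset.sum_le_sum_of_subset_of_nonneg
    · intro Q hQ
      rw [Finset.mem_image] at hQ
      obtain ⟨⟨S, R⟩, hx, rfl⟩ := hQ
      simp only [Finset.mem_product, Finset.mem_powerset, Finset.mem_filter] at hx
      exact hDc R hx.2.1 _ Finset.sdiff_subset
    · intro Q hQ _
      exact (hh_pos hg0 hg1 (Finset.mem_powerset.1 (hD hQ))).le
  calc (gg g T)⁻¹ * (GG g D)⁻¹ * ∑ R ∈ D with T ⊆ R, hh g R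
      = (GG g D)⁻¹ * ((gg g T)⁻¹ * ∑ R ∈ D with T ⊆ R, hh g R) := by ring
    _ ≤ (GG g D)⁻¹ * GG g D := by gcongr
    _ = 1 := inv_mul_cancel₀ hG.ne'

theorem sum_lam_gg (hg0 : ∀ p ∈ P, 0 < g p) (hg1 : ∀ p ∈ P, g p < 1) (hD : D ⊆ P.powerset)
    (hD0 : ∅ ∈ D) (hDc : ∀ T ∈ D, ∀ S ⊆ T, S ∈ D) {S : Finset ι} (hS : S ∈ D) :
    ∑ T ∈ D with S ⊆ T, lam g D T * gg g T = (-1) ^ #S * hh g S * (GG g D)⁻¹ := by
  have h1 : ∀ T ∈ D.filter (fun T => S ⊆ T), lam g D T * gg g T =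
      (GG g D)⁻¹ * ∑ R ∈ D, (if T ⊆ R then (-1) ^ #T * hh g R else 0) := by
    intro T hT
    rw [Finset.mem_filter] at hT
    have hgT := gg_pos hg0 (Finset.mem_powerset.1 (hD hT.1))
    unfold lam
    rw [← Finset.sum_filter, ← Finset.mul_sum]
    field_simp
  rw [Finset.sum_congr rfl h1, ← Finset.mul_sum, Finset.sum_comm]
  have h2 : ∀ R ∈ D, ∑ T ∈ D with S ⊆ T, (if T ⊆ R then (-1 : ℝ) ^ #T * hh g R else 0) =
      if R = S then (-1) ^ #S * hh g S else 0 := by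
    intro R hR
    rw [← Finset.sum_filter, ← Finset.sum_mul]
    by_cases hSR : S ⊆ R
    · have h3 : (D.filter fun T => S ⊆ T).filter (fun T => T ⊆ R) =
          R.powerset.filter (fun T => S ⊆ T) := by
        ext T
        simp only [Finset.mem_filter, Finset.mem_powerset]
        constructor
        · rintro ⟨⟨_, h2⟩, h3⟩; exact ⟨h3, h2⟩
        · rintro ⟨h3, h2⟩; exact ⟨⟨hDc R hR T h3, h2⟩, h3⟩
      rw [h3, sum_between S R hSR]
      by_cases h : R = S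
      · subst h; simp
      · simp [h]
    · have h3 : (D.filter fun T => S ⊆ T).filter (fun T => T ⊆ R) = ∅ := by
        rw [Finset.filter_eq_empty_iff]
        intro T hT
        rw [Finset.mem_filter] at hT
        intro h
        exact hSR (hT.2.trans h)
      rw [h3]
      have h : R ≠ S := by rintro rfl; exact hSR (le_refl _)
      simp [h]
  rw [Finset.sum_congr rfl h2, Finset.sum_ite_eq' D S]
  simp only [hS, if_true]
  ring

theorem main_eq (hg0 : ∀ p ∈ P, 0 < g p) (hg1 : ∀ p ∈ P, g p < 1) (hD : D ⊆ P.powerset)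
    (hD0 : ∅ ∈ D) (hDc : ∀ T ∈ D, ∀ S ⊆ T, S ∈ D) :
    ∑ T₁ ∈ D, ∑ T₂ ∈ D, lam g D T₁ * lam g D T₂ * gg g (T₁ ∪ T₂) = (GG g D)⁻¹ := by
  have hG := GG_pos hg0 hg1 hD hD0
  have h1 : ∀ T₁ ∈ D, ∀ T₂ ∈ D, lam g D T₁ * lam g D T₂ * gg g (T₁ ∪ T₂) =
      ∑ S ∈ D, (hh g S)⁻¹ * ((if S ⊆ T₁ then lam g D T₁ * gg g T₁ else 0) *
        (if S ⊆ T₂ then lam g D T₂ * gg g T₂ else 0)) := by
    intro T₁ h₁ T₂ h₂
    have hP1 := Finset.mem_powerset.1 (hD h₁)
    have hP2 := Finset.mem_powerset.1 (hD h₂)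
    have hui : gg g (T₁ ∪ T₂) * gg g (T₁ ∩ T₂) = gg g T₁ * gg g T₂ :=
      Finset.prod_union_inter
    have hi := gg_pos hg0 (Finset.inter_subset_left.trans hP1 : T₁ ∩ T₂ ⊆ P)
    have hu : gg g (T₁ ∪ T₂) = gg g T₁ * gg g T₂ * (gg g (T₁ ∩ T₂))⁻¹ := by
      rw [← hui]; field_simp
    rw [hu, inv_gg hg0 hg1 (Finset.inter_subset_left.trans hP1 : T₁ ∩ T₂ ⊆ P)]
    have hps : (T₁ ∩ T₂).powerset = D.filter (fun S => S ⊆ T₁ ∧ S ⊆ T₂) := by
      ext S
      simp only [Finset.mem_powerset, Finset.subset_inter_iff, Finset.mem_filter]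
      exact ⟨fun h => ⟨hDc T₁ h₁ S h.1, h⟩, fun h => h.2⟩
    rw [hps, Finset.sum_filter, Finset.mul_sum, Finset.mul_sum]
    refine Finset.sum_congr rfl fun S _ => ?_
    by_cases ha : S ⊆ T₁ <;> by_cases hb : S ⊆ T₂ <;> simp [ha, hb] <;> ring
  calc ∑ T₁ ∈ D, ∑ T₂ ∈ D, lam g D T₁ * lam g D T₂ * gg g (T₁ ∪ T₂)
      = ∑ T₁ ∈ D, ∑ T₂ ∈ D, ∑ S ∈ D, (hh g S)⁻¹ *
        ((if S ⊆ T₁ then lam g D T₁ * gg g T₁ else 0) *
        (if S ⊆ T₂ then lam g D T₂ * gg g T₂ else 0)) :=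
        Finset.sum_congr rfl fun T₁ h₁ => Finset.sum_congr rfl fun T₂ h₂ => h1 T₁ h₁ T₂ h₂
    _ = ∑ S ∈ D, (hh g S)⁻¹ * (∑ T ∈ D with S ⊆ T, lam g D T * gg g T) ^ 2 := by
        rw [Finset.sum_congr rfl fun T₁ _ => Finset.sum_comm]
        rw [Finset.sum_comm]
        refine Finset.sum_congr rfl fun S _ => ?_
        rw [Finset.sum_filter, sq, Finset.sum_mul_sum, Finset.mul_sum]
        refine Finset.sum_congr rfl fun T₁ _ => ?_
        rw [Finset.mul_sum]
    _ = ∑ S ∈ D, (GG g D)⁻¹ ^ 2 * hh g S := by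
        refine Finset.sum_congr rfl fun S hS => ?_
        rw [sum_lam_gg hg0 hg1 hD hD0 hDc hS]
        have hS' := hh_pos hg0 hg1 (Finset.mem_powerset.1 (hD hS))
        have : ((-1 : ℝ) ^ #S) ^ 2 = 1 := by rw [← pow_mul, mul_comm, pow_mul]; norm_num
        calc (hh g S)⁻¹ * ((-1) ^ #S * hh g S * (GG g D)⁻¹) ^ 2
            = ((hh g S)⁻¹ * hh g S) * (((-1) ^ #S) ^ 2) * hh g S * (GG g D)⁻¹ ^ 2 := by ring
          _ = _ := by rw [this, inv_mul_cancel₀ hS'.ne']; ring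
    _ = (GG g D)⁻¹ ^ 2 * GG g D := by rw [← Finset.mul_sum]; rfl
    _ = (GG g D)⁻¹ := by field_simp

end

section count
variable {α : Type*}

open Classical in
/-- number of elements of `A` that are bad for every index of `T` -/
noncomputable def cnt (A : Finset α) (bad : ι → α → Prop) (T : Finset ι) : ℕ :=
  #{x ∈ A | ∀ p ∈ T, bad p x}

open Classical in
/-- number of elements of `A` that are bad for no index of `P` -/
noncomputable def sift (A : Finset α) (bad : ι → α → Prop) (P : Finset ι) : ℕ :=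
  #{x ∈ A | ∀ p ∈ P, ¬ bad p x}

/-- Selberg's upper bound sieve, abstract form. -/
theorem selberg (A : Finset α) (bad : ι → α → Prop) (P : Finset ι) (g : ι → ℝ) (X : ℝ)
    (D : Finset (Finset ι))
    (hg0 : ∀ p ∈ P, 0 < g p) (hg1 : ∀ p ∈ P, g p < 1) (hD : D ⊆ P.powerset)
    (hD0 : ∅ ∈ D) (hDc : ∀ T ∈ D, ∀ S ⊆ T, S ∈ D) :
    (sift A bad P : ℝ) ≤ X * (GG g D)⁻¹ +
      ∑ T₁ ∈ D, ∑ T₂ ∈ D, |(cnt A bad (T₁ ∪ T₂) : ℝ) - X * gg g (T₁ ∪ T₂)| := by
  classical
  have h1 : (sift A bad P : ℝ) ≤ ∑ x ∈ A, (∑ T ∈ D, if (∀ p ∈ T, bad p x) then lam g D T else 0) ^ 2 := by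
    rw [sift, Finset.card_filter, Nat.cast_sum]
    refine Finset.sum_le_sum fun x _ => ?_
    by_cases hx : ∀ p ∈ P, ¬ bad p x
    · have : ∑ T ∈ D, (if (∀ p ∈ T, bad p x) then lam g D T else 0) = 1 := by
        rw [Finset.sum_eq_single ∅]
        · simp [lam_empty hg0 hg1 hD hD0]
        · intro T hT hne
          rw [if_neg]
          intro h
          obtain ⟨p, hp⟩ := Finset.nonempty_iff_ne_empty.2 hne
          exact hx p (Finset.mem_powerset.1 (hD hT) hp) (h p hp)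
        · intro h; exact absurd hD0 h
      rw [this, if_pos hx]
      norm_num
    · rw [if_neg hx]
      simp only [Nat.cast_zero]
      positivity
  have h2 : ∑ x ∈ A, (∑ T ∈ D, if (∀ p ∈ T, bad p x) then lam g D T else 0) ^ 2 =
      ∑ T₁ ∈ D, ∑ T₂ ∈ D, lam g D T₁ * lam g D T₂ * (cnt A bad (T₁ ∪ T₂) : ℝ) := by
    calc ∑ x ∈ A, (∑ T ∈ D, if (∀ p ∈ T, bad p x) then lam g D T else 0) ^ 2
        = ∑ x ∈ A, ∑ T₁ ∈ D, ∑ T₂ ∈ D, lam g D T₁ * lam g D T₂ *
            (if (∀ p ∈ T₁ ∪ T₂, bad p x) then 1 else 0) := by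
          refine Finset.sum_congr rfl fun x _ => ?_
          rw [sq, Finset.sum_mul_sum]
          refine Finset.sum_congr rfl fun T₁ _ => Finset.sum_congr rfl fun T₂ _ => ?_
          by_cases ha : ∀ p ∈ T₁, bad p x
          · by_cases hb : ∀ p ∈ T₂, bad p x
            · have : ∀ p ∈ T₁ ∪ T₂, bad p x := by
                intro p hp
                rcases Finset.mem_union.1 hp with h | h
                · exact ha p h
                · exact hb p h
              rw [if_pos ha, if_pos hb, if_pos this, mul_one]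
            · have : ¬ ∀ p ∈ T₁ ∪ T₂, bad p x :=
                fun h => hb fun p hp => h p (Finset.mem_union_right _ hp)
              rw [if_neg hb, if_neg this, mul_zero, mul_zero]
          · have : ¬ ∀ p ∈ T₁ ∪ T₂, bad p x :=
              fun h => ha fun p hp => h p (Finset.mem_union_left _ hp)
            rw [if_neg ha, if_neg this, zero_mul, mul_zero]
      _ = _ := by
          rw [Finset.sum_comm]
          refine Finset.sum_congr rfl fun T₁ _ => ?_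
          rw [Finset.sum_comm]
          refine Finset.sum_congr rfl fun T₂ _ => ?_
          rw [← Finset.mul_sum, cnt, Finset.card_filter]
          push_cast
          rfl
  have h3 : ∑ T₁ ∈ D, ∑ T₂ ∈ D, lam g D T₁ * lam g D T₂ * (cnt A bad (T₁ ∪ T₂) : ℝ) =
      X * (GG g D)⁻¹ + ∑ T₁ ∈ D, ∑ T₂ ∈ D, lam g D T₁ * lam g D T₂ *
        ((cnt A bad (T₁ ∪ T₂) : ℝ) - X * gg g (T₁ ∪ T₂)) := by
    rw [← main_eq hg0 hg1 hD hD0 hDc, Finset.mul_sum, ← Finset.sum_add_distrib]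
    refine Finset.sum_congr rfl fun T₁ _ => ?_
    rw [Finset.mul_sum, ← Finset.sum_add_distrib]
    refine Finset.sum_congr rfl fun T₂ _ => ?_
    ring
  rw [h2, h3] at h1
  refine h1.trans ?_
  gcongr with T₁ h₁ T₂ h₂
  calc lam g D T₁ * lam g D T₂ * ((cnt A bad (T₁ ∪ T₂) : ℝ) - X * gg g (T₁ ∪ T₂))
      ≤ |lam g D T₁ * lam g D T₂ * ((cnt A bad (T₁ ∪ T₂) : ℝ) - X * gg g (T₁ ∪ T₂))| :=
        le_abs_self _
    _ = |lam g D T₁| * |lam g D T₂| * |(cnt A bad (T₁ ∪ T₂) : ℝ) - X * gg g (T₁ ∪ T₂)| := by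
        rw [abs_mul, abs_mul]
    _ ≤ 1 * 1 * |(cnt A bad (T₁ ∪ T₂) : ℝ) - X * gg g (T₁ ∪ T₂)| := by
        gcongr
        · exact abs_lam_le hg0 hg1 hD hD0 hDc (Finset.mem_powerset.1 (hD h₁))
        · exact abs_lam_le hg0 hg1 hD hD0 hDc (Finset.mem_powerset.1 (hD h₂))
    _ = _ := by ring

end count

end Pool.Agent.Work.MP_2dba45_nt.Sel
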