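import Mathlib
import Pool.Agent.Work.MP_2dba45_nt.Sel

set_option autoImplicit false

namespace Pool.Agent.Work.MP_2dba45_nt.Sel

open Finset

/-- truncated family of sets of primes -/
noncomputable def Dfam (P : Finset ℕ) (D : ℝ) : Finset (Finset ℕ) :=
  P.powerset.filter (fun T => ((∏ p ∈ T, p : ℕ) : ℝ) ≤ D)

theorem Dfam_sub (P : Finset ℕ) (D : ℝ) : Dfam P D ⊆ P.powerset := Finset.filter_subset _ _

theorem empty_mem_Dfam (P : Finset ℕ) {D : ℝ} (hD : 1 ≤ D) : ∅ ∈ Dfam P D := by
  simp [Dfam, hD]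

theorem Dfam_down {P : Finset ℕ} {D : ℝ} (hP : ∀ p ∈ P, p.Prime) :
    ∀ T ∈ Dfam P D, ∀ S ⊆ T, S ∈ Dfam P D := by
  intro T hT S hST
  simp only [Dfam, Finset.mem_filter, Finset.mem_powerset] at hT ⊢
  refine ⟨hST.trans hT.1, le_trans ?_ hT.2⟩
  norm_cast
  apply Finset.prod_le_prod_of_subset_of_one_le' hST
  intro p hp _
  exact (hP p (hT.1 hp)).one_lt.le

theorem card_Dfam_le {P : Finset ℕ} {D : ℝ} (hP : ∀ p ∈ P, p.Prime) (hD : 1 ≤ D) :
    (#(Dfam P D) : ℝ) ≤ D := by
  have h1 : #(Dfam P D) ≤ #(Finset.Icc 1 ⌊D⌋₊) := by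
    apply Finset.card_le_card_of_injOn (fun T => ∏ p ∈ T, p)
    · intro T hT
      simp only [Dfam, Finset.coe_filter, Finset.mem_powerset, Set.mem_ofPred_eq] at hT
      simp only [Finset.coe_Icc, Set.mem_Icc]
      refine ⟨?_, Nat.le_floor hT.2⟩
      exact Finset.prod_pos fun p hp => (hP p (hT.1 hp)).pos
    · intro T hT S hS hTS
      simp only [Dfam, Finset.coe_filter, Finset.mem_powerset, Set.mem_ofPred_eq] at hT hS
      simp only at hTS
      rw [← Nat.primeFactors_prod (fun p hp => hP p (hT.1 hp)), hTS,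
        Nat.primeFactors_prod (fun p hp => hP p (hS.1 hp))]
  rw [Nat.card_Icc, Nat.add_sub_cancel] at h1
  calc (#(Dfam P D) : ℝ) ≤ (⌊D⌋₊ : ℝ) := by exact_mod_cast h1
    _ ≤ D := Nat.floor_le (by linarith)

theorem GG_ge (P : Finset ℕ) (g : ℕ → ℝ) (z D K : ℝ) (hP : ∀ p ∈ P, p.Prime)
    (hPz : ∀ p ∈ P, (p : ℝ) ≤ z) (hz : 1 < z)
    (hg0 : ∀ p ∈ P, 0 < g p) (hg1 : ∀ p ∈ P, g p < 1)
    (hD : 1 ≤ D) (hK : ∑ p ∈ P, g p * Real.log p ≤ K * Real.log z) :
    (∏ p ∈ P, (1 - g p))⁻¹ * (1 - Real.exp (2 * K - Real.log D / Real.log z)) ≤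
      GG g (Dfam P D) := by
  have hlz : 0 < Real.log z := Real.log_pos hz
  have hfull : (∏ p ∈ P, (1 - g p))⁻¹ = ∑ T ∈ P.powerset, hh g T := by
    rw [← Finset.prod_inv_distrib]
    have : ∀ p ∈ P, (1 - g p)⁻¹ = 1 + g p / (1 - g p) := by
      intro p hp
      have : 1 - g p ≠ 0 := by linarith [hg1 p hp]
      field_simp
      ring
    rw [Finset.prod_congr rfl this, Finset.prod_one_add]
    rfl
  have hsplit : ∑ T ∈ P.powerset, hh g T = GG g (Dfam P D) +
      ∑ T ∈ P.powerset with ¬ (((∏ p ∈ T, p : ℕ) : ℝ) ≤ D), hh g T := by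
    rw [GG, Dfam, Finset.sum_filter_add_sum_filter_not]
  have hprodpos : 0 < ∏ p ∈ P, (1 - g p) :=
    Finset.prod_pos fun p hp => by linarith [hg1 p hp]
  have htail : ∑ T ∈ P.powerset with ¬ (((∏ p ∈ T, p : ℕ) : ℝ) ≤ D), hh g T ≤
      (∏ p ∈ P, (1 - g p))⁻¹ * Real.exp (2 * K - Real.log D / Real.log z) := by
    calc ∑ T ∈ P.powerset with ¬ (((∏ p ∈ T, p : ℕ) : ℝ) ≤ D), hh g T
        ≤ ∑ T ∈ P.powerset with ¬ (((∏ p ∈ T, p : ℕ) : ℝ) ≤ D),
          Real.exp (- (Real.log D / Real.log z)) *
            ∏ p ∈ T, (g p / (1 - g p) * Real.exp (Real.log p / Real.log z)) := by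
          refine Finset.sum_le_sum fun T hT => ?_
          simp only [Finset.mem_filter, Finset.mem_powerset, not_le] at hT
          rw [Finset.prod_mul_distrib, ← Real.exp_sum, ← Finset.sum_div, mul_left_comm,
            ← Real.exp_add]
          have h0 : 0 < hh g T := hh_pos hg0 hg1 hT.1
          have h1 : Real.log D ≤ ∑ p ∈ T, Real.log (p : ℝ) := by
            rw [← Real.log_prod (fun p hp => by
              have := (hP p (hT.1 hp)).pos; positivity)]
            apply Real.log_le_log (by linarith)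
            have := hT.2.le
            push_cast at this
            exact this
          have h2 : 1 ≤ Real.exp (-(Real.log D / Real.log z) +
              (∑ p ∈ T, Real.log (p : ℝ)) / Real.log z) := by
            apply Real.one_le_exp
            rw [← neg_div, ← add_div]
            apply div_nonneg _ hlz.le
            linarith
          calc hh g T = hh g T * 1 := (mul_one _).symm
            _ ≤ _ := by
              apply mul_le_mul_of_nonneg_left h2 h0.le
      _ ≤ ∑ T ∈ P.powerset,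
          Real.exp (- (Real.log D / Real.log z)) *
            ∏ p ∈ T, (g p / (1 - g p) * Real.exp (Real.log p / Real.log z)) := by
          apply Finset.sum_le_sum_of_subset_of_nonneg (Finset.filter_subset _ _)
          intro T hT _
          apply mul_nonneg (Real.exp_pos _).le
          apply Finset.prod_nonneg
          intro p hp
          have hp' := (Finset.mem_powerset.1 hT) hp
          exact mul_nonneg (div_pos (hg0 p hp') (by linarith [hg1 p hp'])).le (Real.exp_pos _).le
      _ = Real.exp (- (Real.log D / Real.log z)) *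
            ∏ p ∈ P, (1 + g p / (1 - g p) * Real.exp (Real.log p / Real.log z)) := by
          rw [← Finset.mul_sum, Finset.prod_one_add]
      _ = Real.exp (- (Real.log D / Real.log z)) * ((∏ p ∈ P, (1 - g p))⁻¹ *
            ∏ p ∈ P, (1 + g p * (Real.exp (Real.log p / Real.log z) - 1))) := by
          rw [← Finset.prod_inv_distrib, ← Finset.prod_mul_distrib]
          congr 1
          refine Finset.prod_congr rfl fun p hp => ?_
          have : 1 - g p ≠ 0 := by linarith [hg1 p hp]
          field_simp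
          ring
      _ ≤ Real.exp (- (Real.log D / Real.log z)) * ((∏ p ∈ P, (1 - g p))⁻¹ *
            Real.exp (2 * K)) := by
          gcongr
          calc ∏ p ∈ P, (1 + g p * (Real.exp (Real.log p / Real.log z) - 1))
              ≤ ∏ p ∈ P, Real.exp (g p * (2 * (Real.log p / Real.log z))) := by
                apply Finset.prod_le_prod
                · intro p hp
                  have h1 : 1 ≤ Real.exp (Real.log p / Real.log z) := by
                    apply Real.one_le_exp
                    apply div_nonneg _ hlz.le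
                    exact Real.log_nonneg (by exact_mod_cast (hP p hp).one_lt.le)
                  have := hg0 p hp
                  have := mul_nonneg this.le (sub_nonneg.2 h1)
                  linarith
                · intro p hp
                  have hl0 : 0 ≤ Real.log p / Real.log z := by
                    apply div_nonneg _ hlz.le
                    exact Real.log_nonneg (by exact_mod_cast (hP p hp).one_lt.le)
                  have hl1 : Real.log p / Real.log z ≤ 1 := by
                    rw [div_le_one hlz]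
                    exact Real.log_le_log (by exact_mod_cast (hP p hp).pos) (hPz p hp)
                  have h1 : Real.exp (Real.log p / Real.log z) - 1 ≤
                      2 * (Real.log p / Real.log z) := by
                    have h2 := Real.abs_exp_sub_one_sub_id_le
                      (x := Real.log p / Real.log z) (by rw [abs_of_nonneg hl0]; exact hl1)
                    have h3 := (abs_le.1 h2).2
                    nlinarith
                  calc 1 + g p * (Real.exp (Real.log p / Real.log z) - 1)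
                      ≤ 1 + g p * (2 * (Real.log p / Real.log z)) := by
                        have := hg0 p hp
                        gcongr
                    _ ≤ _ := by rw [add_comm]; exact Real.add_one_le_exp _
            _ = Real.exp (2 * ((∑ p ∈ P, g p * Real.log p) / Real.log z)) := by
                rw [← Real.exp_sum]
                congr 1
                rw [Finset.sum_div, Finset.mul_sum]
                refine Finset.sum_congr rfl fun p _ => ?_
                ring
            _ ≤ Real.exp (2 * K) := by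
                apply Real.exp_le_exp.2
                have : (∑ p ∈ P, g p * Real.log p) / Real.log z ≤ K := by
                  rw [div_le_iff₀ hlz]; exact hK
                linarith
      _ = (∏ p ∈ P, (1 - g p))⁻¹ * Real.exp (2 * K - Real.log D / Real.log z) := by
          rw [mul_left_comm, ← Real.exp_add]
          congr 2
          ring
  have := hfull.trans hsplit
  rw [mul_sub, mul_one]
  linarith

theorem sum_err_le {P : Finset ℕ} {D : ℝ} (hP : ∀ p ∈ P, p.Prime) (hD : 1 ≤ D)
    (F : Finset ℕ → ℝ) (E : ℝ) (hE : 0 ≤ E)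
    (hF : ∀ T ⊆ P, |F T| ≤ E * (((∏ p ∈ T, p : ℕ) : ℝ)) ^ 2) :
    ∑ T₁ ∈ Dfam P D, ∑ T₂ ∈ Dfam P D, |F (T₁ ∪ T₂)| ≤ E * D ^ 6 := by
  have h1 : ∀ T₁ ∈ Dfam P D, ∀ T₂ ∈ Dfam P D, |F (T₁ ∪ T₂)| ≤ E * D ^ 4 := by
    intro T₁ h₁ T₂ h₂
    simp only [Dfam, Finset.mem_filter, Finset.mem_powerset] at h₁ h₂
    refine (hF _ (Finset.union_subset h₁.1 h₂.1)).trans ?_
    have h3 : ∏ p ∈ T₁ ∪ T₂, p ≤ (∏ p ∈ T₁, p) * (∏ p ∈ T₂, p) := by
      rw [← Finset.prod_union_inter]
      apply Nat.le_mul_of_pos_right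
      exact Finset.prod_pos fun p hp =>
        (hP p (h₁.1 (Finset.mem_inter.1 hp).1)).pos
    have h4 : ((∏ p ∈ T₁ ∪ T₂, p : ℕ) : ℝ) ≤ D * D := by
      calc ((∏ p ∈ T₁ ∪ T₂, p : ℕ) : ℝ) ≤ ((∏ p ∈ T₁, p : ℕ) : ℝ) * ((∏ p ∈ T₂, p : ℕ) : ℝ) := by
            exact_mod_cast h3
        _ ≤ D * D := by
            apply mul_le_mul h₁.2 h₂.2 (by positivity) (by linarith)
    calc E * (((∏ p ∈ T₁ ∪ T₂, p : ℕ) : ℝ)) ^ 2 ≤ E * (D * D) ^ 2 := by gcongr
      _ = E * D ^ 4 := by ring
  calc ∑ T₁ ∈ Dfam P D, ∑ T₂ ∈ Dfam P D, |F (T₁ ∪ T₂)|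
      ≤ ∑ T₁ ∈ Dfam P D, ∑ T₂ ∈ Dfam P D, E * D ^ 4 :=
        Finset.sum_le_sum fun T₁ h₁ => Finset.sum_le_sum fun T₂ h₂ => h1 T₁ h₁ T₂ h₂
    _ = (#(Dfam P D) : ℝ) * ((#(Dfam P D) : ℝ) * (E * D ^ 4)) := by
        rw [Finset.sum_const, Finset.sum_const, nsmul_eq_mul, nsmul_eq_mul]
    _ ≤ D * (D * (E * D ^ 4)) := by
        have := card_Dfam_le hP hD
        gcongr
    _ = E * D ^ 6 := by ring

/-- Upper bound sieve with fundamental lemma precision. -/
theorem upper {α : Type*} (A : Finset α) (bad : ℕ → α → Prop) (P : Finset ℕ) (g : ℕ → ℝ)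
    (X z D K E : ℝ) (hP : ∀ p ∈ P, p.Prime) (hPz : ∀ p ∈ P, (p : ℝ) ≤ z) (hz : 1 < z)
    (hg0 : ∀ p ∈ P, 0 < g p) (hg1 : ∀ p ∈ P, g p < 1) (hX : 0 ≤ X) (hE : 0 ≤ E)
    (hD : 1 ≤ D) (hK : ∑ p ∈ P, g p * Real.log p ≤ K * Real.log z)
    (hs : 2 * Real.exp (2 * K - Real.log D / Real.log z) ≤ 1)
    (hrem : ∀ T ⊆ P, |(cnt A bad T : ℝ) - X * gg g T| ≤ E * (((∏ p ∈ T, p : ℕ) : ℝ)) ^ 2) :
    (sift A bad P : ℝ) ≤ X * (∏ p ∈ P, (1 - g p)) *
      (1 + 2 * Real.exp (2 * K - Real.log D / Real.log z)) + E * D ^ 6 := by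
  set e := Real.exp (2 * K - Real.log D / Real.log z) with he
  have he0 : 0 < e := Real.exp_pos _
  have h1 := selberg A bad P g X (Dfam P D) hg0 hg1 (Dfam_sub P D) (empty_mem_Dfam P hD)
    (Dfam_down hP)
  have h2 := GG_ge P g z D K hP hPz hz hg0 hg1 hD hK
  rw [← he] at h2
  have hV : 0 < ∏ p ∈ P, (1 - g p) := Finset.prod_pos fun p hp => by linarith [hg1 p hp]
  have h3 : (GG g (Dfam P D))⁻¹ ≤ (∏ p ∈ P, (1 - g p)) * (1 + 2 * e) := by
    have h4 : 0 < (∏ p ∈ P, (1 - g p))⁻¹ * (1 - e) := by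
      apply mul_pos (inv_pos.2 hV); linarith
    calc (GG g (Dfam P D))⁻¹ ≤ ((∏ p ∈ P, (1 - g p))⁻¹ * (1 - e))⁻¹ :=
          inv_anti₀ h4 h2
      _ = (∏ p ∈ P, (1 - g p)) * (1 - e)⁻¹ := by rw [mul_inv, inv_inv]
      _ ≤ (∏ p ∈ P, (1 - g p)) * (1 + 2 * e) := by
          gcongr
          rw [inv_le_iff_one_le_mul₀ (by linarith)]
          nlinarith
  have h5 := sum_err_le hP hD (fun T => (cnt A bad T : ℝ) - X * gg g T) E hE hrem
  calc (sift A bad P : ℝ) ≤ X * (GG g (Dfam P D))⁻¹ + ∑ T₁ ∈ Dfam P D, ∑ T₂ ∈ Dfam P D,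
        |(cnt A bad (T₁ ∪ T₂) : ℝ) - X * gg g (T₁ ∪ T₂)| := h1
    _ ≤ X * ((∏ p ∈ P, (1 - g p)) * (1 + 2 * e)) + E * D ^ 6 := by gcongr
    _ = _ := by ring

open Classical in
/-- Buchstab identity -/
theorem buchstab {α : Type*} (A : Finset α) (bad : ℕ → α → Prop) (P : Finset ℕ) :
    (#A : ℝ) = sift A bad P +
      ∑ p ∈ P, (sift (A.filter (fun x => bad p x)) bad (P.filter (fun q => q < p)) : ℝ) := by
  have h1 : ∀ x ∈ A, (1 : ℝ) = (if ∀ p ∈ P, ¬ bad p x then 1 else 0) +
      ∑ p ∈ P, (if (bad p x ∧ ∀ q ∈ P.filter (fun q => q < p), ¬ bad q x) then (1 : ℝ) else 0) := by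
    intro x _
    by_cases hx : ∀ p ∈ P, ¬ bad p x
    · rw [if_pos hx, Finset.sum_eq_zero, add_zero]
      intro p hp
      rw [if_neg]
      exact fun h => hx p hp h.1
    · rw [if_neg hx]
      push Not at hx
      have hne : (P.filter (fun p => bad p x)).Nonempty := by
        obtain ⟨p, hp, hb⟩ := hx
        exact ⟨p, Finset.mem_filter.2 ⟨hp, hb⟩⟩
      set m := (P.filter (fun p => bad p x)).min' hne with hm
      have hmm := Finset.min'_mem _ hne
      rw [← hm, Finset.mem_filter] at hmm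
      rw [Finset.sum_eq_single m, zero_add, if_pos]
      · refine ⟨hmm.2, fun q hq hb => ?_⟩
        rw [Finset.mem_filter] at hq
        have := Finset.min'_le (P.filter (fun p => bad p x)) q (Finset.mem_filter.2 ⟨hq.1, hb⟩)
        rw [← hm] at this
        omega
      · intro p hp hne'
        rw [if_neg]
        rintro ⟨h1, h2⟩
        have h3 := Finset.min'_le (P.filter (fun p => bad p x)) p (Finset.mem_filter.2 ⟨hp, h1⟩)
        rw [← hm] at h3
        have h4 : m < p := lt_of_le_of_ne h3 (Ne.symm hne')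
        exact h2 m (Finset.mem_filter.2 ⟨hmm.1, h4⟩) hmm.2
      · intro h; exact absurd hmm.1 h
  have h2 : (#A : ℝ) = ∑ x ∈ A, (1 : ℝ) := by simp
  rw [h2, Finset.sum_congr rfl h1, Finset.sum_add_distrib, Finset.sum_comm]
  congr 1
  · rw [sift, Finset.card_filter]; push_cast; rfl
  · refine Finset.sum_congr rfl fun p _ => ?_
    rw [sift, Finset.filter_filter, Finset.card_filter]
    push_cast
    rfl

theorem pow_mul_exp_le {s u : ℝ} (hs : 5 ≤ s) (hu : 1 ≤ u) :
    u ^ 5 * Real.exp (-(s * u)) ≤ Real.exp (-s) := by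
  have h1 : u ≤ Real.exp (u - 1) := by
    have := Real.add_one_le_exp (u - 1); linarith
  have h2 : u ^ 5 ≤ Real.exp (s * (u - 1)) := by
    calc u ^ 5 ≤ Real.exp (u - 1) ^ 5 := by gcongr
      _ = Real.exp (5 * (u - 1)) := by rw [← Real.exp_nat_mul]; norm_num
      _ ≤ Real.exp (s * (u - 1)) := by
          apply Real.exp_le_exp.2
          apply mul_le_mul_of_nonneg_right hs; linarith
  calc u ^ 5 * Real.exp (-(s * u)) ≤ Real.exp (s * (u - 1)) * Real.exp (-(s * u)) := by gcongr
    _ = Real.exp (-s) := by rw [← Real.exp_add]; congr 1; ring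

/-- Lower bound sieve with fundamental lemma precision. -/
theorem lower {α : Type*} (A : Finset α) (bad : ℕ → α → Prop) (P : Finset ℕ) (g : ℕ → ℝ)
    (X z D K C E : ℝ) (hP : ∀ p ∈ P, p.Prime) (hPz : ∀ p ∈ P, (p : ℝ) ≤ z) (hz : 1 < z)
    (hg0 : ∀ p ∈ P, 0 < g p) (hg1 : ∀ p ∈ P, g p < 1) (hX : 0 ≤ X) (hE : 0 ≤ E)
    (hD : 1 ≤ D) (hK0 : 0 ≤ K) (hC0 : 0 ≤ C)
    (hK : ∀ y : ℝ, 1 < y → ∑ p ∈ P.filter (fun p : ℕ => (p : ℝ) ≤ y), g p * Real.log p ≤
      K * Real.log y)
    (hC : ∀ p ∈ P, (∏ q ∈ P with p ≤ q, (1 - g q))⁻¹ ≤ C * (Real.log z / Real.log p) ^ 4)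
    (hs5 : 5 ≤ Real.log D / Real.log z)
    (hs : 2 * Real.exp (2 * K - Real.log D / Real.log z) ≤ 1)
    (hrem : ∀ T ⊆ P, |(cnt A bad T : ℝ) - X * gg g T| ≤ E * (((∏ p ∈ T, p : ℕ) : ℝ)) ^ 2) :
    X * (∏ p ∈ P, (1 - g p)) *
      (1 - 2 * C * K * Real.exp (2 * K - Real.log D / Real.log z)) - E * (1 + z ^ 3 * D ^ 6) ≤
      (sift A bad P : ℝ) := by
  classical
  have hlz : 0 < Real.log z := Real.log_pos hz
  set V := ∏ p ∈ P, (1 - g p) with hV
  have hVpos : 0 < V := Finset.prod_pos fun p hp => by linarith [hg1 p hp]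
  have hb := buchstab A bad P
  have h0 : X - E ≤ (#A : ℝ) := by
    have h := hrem ∅ (Finset.empty_subset _)
    simp only [cnt, Finset.notMem_empty, false_implies, implies_true, Finset.filter_true, gg,
      Finset.prod_empty, mul_one, Nat.cast_one, one_pow] at h
    have := (abs_le.1 h).1
    linarith
  -- bounds for each prime
  have hlD : 0 ≤ Real.log D := Real.log_nonneg hD
  have h1 : ∀ p ∈ P, (sift (A.filter (fun x => bad p x)) bad (P.filter (fun q => q < p)) : ℝ) ≤
      X * (g p * ∏ q ∈ P with q < p, (1 - g q)) +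
      X * V * (2 * C * Real.exp (2 * K - Real.log D / Real.log z) *
        (g p * Real.log p / Real.log z)) + E * z ^ 2 * D ^ 6 := by
    intro p hp
    have hpp := hP p hp
    have hp1 : (1 : ℝ) < p := by exact_mod_cast hpp.one_lt
    have hp0 : (0 : ℝ) < p := by linarith
    have hlp : 0 < Real.log p := Real.log_pos hp1
    have hlpz : Real.log p ≤ Real.log z := Real.log_le_log hp0 (hPz p hp)
    have hsub : P.filter (fun q => q < p) ⊆ P := Finset.filter_subset _ _
    have hKp : ∑ q ∈ P.filter (fun q => q < p), g q * Real.log q ≤ K * Real.log p := by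
      refine le_trans ?_ (hK p hp1)
      apply Finset.sum_le_sum_of_subset_of_nonneg
      · intro q hq
        rw [Finset.mem_filter] at hq ⊢
        exact ⟨hq.1, by exact_mod_cast hq.2.le⟩
      · intro q hq _
        rw [Finset.mem_filter] at hq
        exact mul_nonneg (hg0 q hq.1).le (Real.log_nonneg (by exact_mod_cast (hP q hq.1).one_lt.le))
    have hsle : Real.log D / Real.log z ≤ Real.log D / Real.log p := by gcongr
    have hsp : 2 * Real.exp (2 * K - Real.log D / Real.log p) ≤ 1 := by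
      refine le_trans ?_ hs
      gcongr
    have hremp : ∀ T ⊆ P.filter (fun q => q < p),
        |(cnt (A.filter (fun x => bad p x)) bad T : ℝ) - X * g p * gg g T| ≤
          E * z ^ 2 * (((∏ p ∈ T, p : ℕ) : ℝ)) ^ 2 := by
      intro T hT
      have hpT : p ∉ T := by
        intro h
        have := (Finset.mem_filter.1 (hT h)).2
        omega
      have h2 := hrem (insert p T) (Finset.insert_subset hp (hT.trans hsub))
      have h3 : cnt A bad (insert p T) = cnt (A.filter (fun x => bad p x)) bad T := by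
        unfold cnt
        rw [Finset.filter_filter]
        congr 1
        ext x
        simp only [Finset.mem_filter, Finset.mem_insert, forall_eq_or_imp]
      have h4 : gg g (insert p T) = g p * gg g T := Finset.prod_insert hpT
      rw [h3, h4, Finset.prod_insert hpT] at h2
      rw [mul_assoc X]
      refine h2.trans ?_
      push_cast
      rw [mul_pow, mul_assoc E]
      have := hPz p hp
      gcongr
    have hu := upper (A.filter (fun x => bad p x)) bad (P.filter (fun q => q < p)) g
      (X * g p) p D K (E * z ^ 2) (fun q hq => hP q (hsub hq))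
      (fun q hq => by
        have := (Finset.mem_filter.1 hq).2
        exact_mod_cast this.le) hp1 (fun q hq => hg0 q (hsub hq)) (fun q hq => hg1 q (hsub hq))
      (mul_nonneg hX (hg0 p hp).le) (by positivity) hD hKp hsp hremp
    refine hu.trans ?_
    have hVp0 : 0 < ∏ q ∈ P with q < p, (1 - g q) :=
      Finset.prod_pos fun q hq => by linarith [hg1 q (hsub hq)]
    -- V(p) ≤ V * C * (log z/log p)^4
    have hVp : ∏ q ∈ P with q < p, (1 - g q) ≤ V * (C * (Real.log z / Real.log p) ^ 4) := by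
      have h5 : V = (∏ q ∈ P with q < p, (1 - g q)) * ∏ q ∈ P with p ≤ q, (1 - g q) := by
        rw [hV, ← Finset.prod_filter_mul_prod_filter_not P (fun q => q < p)]
        congr 1
        apply Finset.prod_congr _ (fun _ _ => rfl)
        ext q; simp only [Finset.mem_filter, not_lt]
      have h6 : 0 < ∏ q ∈ P with p ≤ q, (1 - g q) :=
        Finset.prod_pos fun q hq => by linarith [hg1 q (Finset.mem_filter.1 hq).1]
      have h7 := hC p hp
      calc ∏ q ∈ P with q < p, (1 - g q) = V * (∏ q ∈ P with p ≤ q, (1 - g q))⁻¹ := by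
            rw [h5]; field_simp
        _ ≤ V * (C * (Real.log z / Real.log p) ^ 4) := by gcongr
    set u := Real.log z / Real.log p with hu'
    have hu1 : 1 ≤ u := by rw [hu', le_div_iff₀ hlp]; linarith
    have hu0 : 0 < u := by linarith
    set s := Real.log D / Real.log z with hs'
    have hsu : Real.log D / Real.log p = s * u := by
      rw [hs', hu']; field_simp
    have hpe := pow_mul_exp_le hs5 hu1
    have h8 : u ^ 4 * Real.exp (2 * K - s * u) ≤
        Real.exp (2 * K - s) * (Real.log p / Real.log z) := by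
      have h9 : Real.log p / Real.log z = u⁻¹ := by rw [hu']; field_simp
      rw [h9, ← div_eq_mul_inv, le_div_iff₀ hu0]
      have e1 : Real.exp (2 * K - s * u) = Real.exp (2 * K) * Real.exp (-(s * u)) := by
        rw [← Real.exp_add]; ring_nf
      have e2 : Real.exp (2 * K - s) = Real.exp (2 * K) * Real.exp (-s) := by
        rw [← Real.exp_add]; ring_nf
      rw [e1, e2]
      calc u ^ 4 * (Real.exp (2 * K) * Real.exp (-(s * u))) * u
          = Real.exp (2 * K) * (u ^ 5 * Real.exp (-(s * u))) := by ring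
        _ ≤ Real.exp (2 * K) * Real.exp (-s) := by gcongr
    rw [hsu]
    have hgp := hg0 p hp
    have h10 : X * g p * (∏ q ∈ P with q < p, (1 - g q)) * (1 + 2 * Real.exp (2 * K - s * u)) ≤
        X * (g p * ∏ q ∈ P with q < p, (1 - g q)) +
        X * V * (2 * C * Real.exp (2 * K - s) * (g p * Real.log p / Real.log z)) := by
      have h11 : (∏ q ∈ P with q < p, (1 - g q)) * Real.exp (2 * K - s * u) ≤
          V * C * (Real.exp (2 * K - s) * (Real.log p / Real.log z)) := by
        calc (∏ q ∈ P with q < p, (1 - g q)) * Real.exp (2 * K - s * u)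
            ≤ (V * (C * u ^ 4)) * Real.exp (2 * K - s * u) := by gcongr
          _ = V * C * (u ^ 4 * Real.exp (2 * K - s * u)) := by ring
          _ ≤ _ := by gcongr
      calc X * g p * (∏ q ∈ P with q < p, (1 - g q)) * (1 + 2 * Real.exp (2 * K - s * u))
          = X * (g p * ∏ q ∈ P with q < p, (1 - g q)) + 2 * (X * g p) *
            ((∏ q ∈ P with q < p, (1 - g q)) * Real.exp (2 * K - s * u)) := by ring
        _ ≤ X * (g p * ∏ q ∈ P with q < p, (1 - g q)) + 2 * (X * g p) *
            (V * C * (Real.exp (2 * K - s) * (Real.log p / Real.log z))) := by gcongr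
        _ = _ := by ring
    linarith
  have h2 : ∑ p ∈ P, (sift (A.filter (fun x => bad p x)) bad (P.filter (fun q => q < p)) : ℝ) ≤
      X * (1 - V) + X * V * (2 * C * K * Real.exp (2 * K - Real.log D / Real.log z)) +
      E * z ^ 3 * D ^ 6 := by
    refine (Finset.sum_le_sum h1).trans ?_
    rw [Finset.sum_add_distrib, Finset.sum_add_distrib, ← Finset.mul_sum, ← Finset.mul_sum,
      ← Finset.mul_sum, ← Finset.sum_div]
    have e1 : ∑ p ∈ P, g p * ∏ q ∈ P with q < p, (1 - g q) = 1 - V := by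
      rw [hV, Finset.prod_one_sub_ordered]; ring
    rw [e1]
    have e2 : (∑ p ∈ P, g p * Real.log p) / Real.log z ≤ K := by
      rw [div_le_iff₀ hlz]
      refine le_trans (le_of_eq ?_) (hK z hz)
      congr 1
      ext p
      simp only [Finset.mem_filter]
      exact ⟨fun h => ⟨h, hPz p h⟩, fun h => h.1⟩
    have e3 : (#P : ℝ) ≤ z := by
      have : #P ≤ #(Finset.Icc 1 ⌊z⌋₊) := by
        apply Finset.card_le_card
        intro p hp
        rw [Finset.mem_Icc]
        exact ⟨(hP p hp).one_lt.le, Nat.le_floor (hPz p hp)⟩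
      rw [Nat.card_Icc, Nat.add_sub_cancel] at this
      calc (#P : ℝ) ≤ (⌊z⌋₊ : ℝ) := by exact_mod_cast this
        _ ≤ z := Nat.floor_le (by linarith)
    have e4 : ∑ p ∈ P, E * z ^ 2 * D ^ 6 ≤ E * z ^ 3 * D ^ 6 := by
      rw [Finset.sum_const, nsmul_eq_mul]
      calc (#P : ℝ) * (E * z ^ 2 * D ^ 6) ≤ z * (E * z ^ 2 * D ^ 6) := by gcongr
        _ = _ := by ring
    have e5 : X * V * (2 * C * Real.exp (2 * K - Real.log D / Real.log z) *
        ((∑ p ∈ P, g p * Real.log p) / Real.log z)) ≤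
        X * V * (2 * C * K * Real.exp (2 * K - Real.log D / Real.log z)) := by
      calc X * V * (2 * C * Real.exp (2 * K - Real.log D / Real.log z) *
        ((∑ p ∈ P, g p * Real.log p) / Real.log z)) ≤
          X * V * (2 * C * Real.exp (2 * K - Real.log D / Real.log z) * K) := by gcongr
        _ = _ := by ring
    linarith
  nlinarith [h0, hb, h2]

end Pool.Agent.Work.MP_2dba45_nt.Sel
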