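import Mathlib
import Pool.Agent.Work.MP_2dba45_nt.Sel2
import Pool.Agent.Work.MP_2dba45_nt.Compl

set_option autoImplicit false

namespace Pool.Agent.Work.MP_2dba45_nt.Crt

open Finset

theorem sum_crt_two (q M : ℕ) (hqM : Nat.Coprime q M) (hq : 0 < q) (hM : 0 < M) (F G : ℕ → ℕ) :
    ∑ x ∈ range (q * M), F (x % q) * G (x % M) =
      (∑ y ∈ range q, F y) * ∑ y ∈ range M, G y := by
  rw [Finset.sum_mul_sum, ← Finset.sum_product']
  refine Finset.sum_nbij' (fun x => (x % q, x % M))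
    (fun y => (Nat.chineseRemainder hqM y.1 y.2 : ℕ)) ?_ ?_ ?_ ?_ ?_
  · intro x _
    simp only [Finset.mem_product, Finset.mem_range]
    exact ⟨Nat.mod_lt _ hq, Nat.mod_lt _ hM⟩
  · rintro ⟨a, b⟩ _
    simp only [Finset.mem_range]
    exact Nat.chineseRemainder_lt_mul hqM a b hq.ne' hM.ne'
  · intro x hx
    simp only [Finset.mem_range] at hx
    simp only
    have h1 := (Nat.chineseRemainder hqM (x % q) (x % M)).2
    have h2 := Nat.chineseRemainder_lt_mul hqM (x % q) (x % M) hq.ne' hM.ne'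
    have h3 : (Nat.chineseRemainder hqM (x % q) (x % M) : ℕ) ≡ x [MOD q * M] := by
      rw [← Nat.modEq_and_modEq_iff_modEq_mul hqM]
      exact ⟨h1.1.trans (Nat.mod_modEq _ _), h1.2.trans (Nat.mod_modEq _ _)⟩
    exact Nat.ModEq.eq_of_lt_of_lt h3 h2 hx
  · rintro ⟨a, b⟩ hab
    simp only [Finset.mem_product, Finset.mem_range] at hab
    have h1 := (Nat.chineseRemainder hqM a b).2
    simp only [Prod.mk.injEq]
    exact ⟨by rw [h1.1, Nat.mod_eq_of_lt hab.1], by rw [h1.2, Nat.mod_eq_of_lt hab.2]⟩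
  · intro x _
    rfl

theorem sum_crt (T : Finset ℕ) (hT : ∀ p ∈ T, p.Prime) (f : ℕ → ℕ → ℕ) :
    ∑ x ∈ range (∏ p ∈ T, p), ∏ p ∈ T, f p (x % p) = ∏ p ∈ T, ∑ y ∈ range p, f p y := by
  classical
  induction T using Finset.induction_on with
  | empty => simp
  | insert q T hq ih =>
    have hT' : ∀ p ∈ T, p.Prime := fun p hp => hT p (Finset.mem_insert_of_mem hp)
    have hqp := hT q (Finset.mem_insert_self _ _)
    rw [Finset.prod_insert hq, Finset.prod_insert hq, ← ih hT']
    set M := ∏ p ∈ T, p with hM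
    have hMpos : 0 < M := Finset.prod_pos fun p hp => (hT' p hp).pos
    have hcop : Nat.Coprime q M := by
      rw [hM, Nat.coprime_prod_right_iff]
      intro p hp
      rw [Nat.coprime_primes hqp (hT' p hp)]
      rintro rfl
      exact hq hp
    rw [← sum_crt_two q M hcop hqp.pos hMpos (f q) (fun y => ∏ p ∈ T, f p (y % p))]
    refine Finset.sum_congr rfl fun x _ => ?_
    rw [Finset.prod_insert hq]
    congr 1
    refine Finset.prod_congr rfl fun p hp => ?_
    rw [Nat.mod_mod_of_dvd]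
    exact Finset.dvd_prod_of_mem _ hp

theorem sum_crt2 (T : Finset ℕ) (hT : ∀ p ∈ T, p.Prime) (f : ℕ → ℕ → ℕ → ℕ) :
    ∑ y ∈ range (∏ p ∈ T, p), ∑ x ∈ range (∏ p ∈ T, p), ∏ p ∈ T, f p (x % p) (y % p) =
      ∏ p ∈ T, ∑ y ∈ range p, ∑ x ∈ range p, f p x y := by
  rw [← sum_crt T hT (fun p y => ∑ x ∈ range p, f p x y)]
  refine Finset.sum_congr rfl fun y _ => ?_
  rw [← sum_crt T hT (fun p x => f p x (y % p))]

open Classical in
/-- counting a periodic condition -/
theorem card_periodic (Q : ℕ → Prop) (M : ℕ) (hM : 0 < M) (hQ : ∀ t, Q t ↔ Q (t % M)) (L : ℕ) :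
    |(#((range L).filter Q) : ℝ) - (L : ℝ) * #((range M).filter Q) / M| ≤
      #((range M).filter Q) := by
  have h1 : ∀ k, #((range (M * k)).filter Q) = k * #((range M).filter Q) := by
    intro k
    induction k with
    | zero => simp
    | succ k ih =>
      rw [Finset.card_filter] at ih ⊢
      rw [Nat.mul_succ, Finset.sum_range_add, ih, Nat.succ_mul, Finset.card_filter]
      congr 1
      refine Finset.sum_congr rfl fun t ht => ?_
      rw [Finset.mem_range] at ht
      have : Q (M * k + t) ↔ Q t := by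
        rw [hQ (M * k + t), Nat.mul_add_mod, ← hQ t]
      by_cases h : Q t
      · rw [if_pos h, if_pos (this.2 h)]
      · rw [if_neg h, if_neg (fun h' => h (this.1 h'))]
  set c := #((range M).filter Q) with hc
  have h2 : (L / M) * c ≤ #((range L).filter Q) := by
    rw [← h1]
    apply Finset.card_le_card
    intro t ht
    rw [Finset.mem_filter, Finset.mem_range] at ht ⊢
    exact ⟨lt_of_lt_of_le ht.1 (Nat.mul_div_le L M), ht.2⟩
  have h3 : #((range L).filter Q) ≤ (L / M + 1) * c := by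
    rw [← h1]
    apply Finset.card_le_card
    intro t ht
    rw [Finset.mem_filter, Finset.mem_range] at ht ⊢
    exact ⟨lt_trans ht.1 (Nat.lt_mul_div_succ L hM), ht.2⟩
  have hM' : (0 : ℝ) < M := by exact_mod_cast hM
  have h4 : ((L / M : ℕ) : ℝ) ≤ (L : ℝ) / M := Nat.cast_div_le
  have h5 : (L : ℝ) / M ≤ (L / M : ℕ) + 1 := by
    rw [div_le_iff₀ hM']
    have := Nat.lt_mul_div_succ L hM
    have : (L : ℝ) < M * ((L / M : ℕ) + 1) := by exact_mod_cast this
    linarith
  have h2' : ((L / M : ℕ) : ℝ) * c ≤ (#((range L).filter Q) : ℝ) := by exact_mod_cast h2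
  have h3' : (#((range L).filter Q) : ℝ) ≤ ((L / M : ℕ) + 1) * c := by exact_mod_cast h3
  have hc0 : (0 : ℝ) ≤ c := Nat.cast_nonneg c
  have e : (L : ℝ) * c / M = (L : ℝ) / M * c := by ring
  rw [e, abs_le]
  constructor
  · nlinarith
  · nlinarith

open Classical in
/-- one-dimensional local density -/
noncomputable def rho (bad : ℕ → ℕ → Prop) (p : ℕ) : ℕ := #((range p).filter (fun t => bad p t))

open Classical in
theorem card_crt (bad : ℕ → ℕ → Prop) (T : Finset ℕ) (hT : ∀ p ∈ T, p.Prime)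
    (hper : ∀ p ∈ T, ∀ t, bad p t ↔ bad p (t % p)) :
    #((range (∏ p ∈ T, p)).filter (fun t => ∀ p ∈ T, bad p t)) = ∏ p ∈ T, rho bad p := by
  have h := sum_crt T hT (fun p x => if bad p x then 1 else 0)
  rw [Finset.card_filter]
  have e1 : ∀ p ∈ T, rho bad p = ∑ y ∈ range p, (if bad p y then 1 else 0) := by
    intro p _
    rw [rho, Finset.card_filter]
  rw [Finset.prod_congr rfl e1, ← h]
  refine Finset.sum_congr rfl fun x _ => ?_
  by_cases hx : ∀ p ∈ T, bad p x
  · rw [if_pos hx, Finset.prod_eq_one]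
    intro p hp
    rw [if_pos ((hper p hp x).1 (hx p hp))]
  · rw [if_neg hx]
    push Not at hx
    obtain ⟨p, hp, hb⟩ := hx
    symm
    apply Finset.prod_eq_zero hp
    rw [if_neg (fun h => hb ((hper p hp x).2 h))]

/-- counting in one dimension, in the form needed for the sieve -/
theorem cnt_range (bad : ℕ → ℕ → Prop) (T : Finset ℕ) (hT : ∀ p ∈ T, p.Prime)
    (hper : ∀ p ∈ T, ∀ t, bad p t ↔ bad p (t % p)) (L : ℕ) :
    |(Sel.cnt (range L) bad T : ℝ) - (L : ℝ) * Sel.gg (fun p => (rho bad p : ℝ) / p) T| ≤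
      ((∏ p ∈ T, p : ℕ) : ℝ) := by
  classical
  have hM : 0 < ∏ p ∈ T, p := Finset.prod_pos fun p hp => (hT p hp).pos
  have hQ : ∀ t, (∀ p ∈ T, bad p t) ↔ (∀ p ∈ T, bad p (t % (∏ p ∈ T, p))) := by
    intro t
    refine forall₂_congr fun p hp => ?_
    rw [hper p hp t, hper p hp (t % (∏ p ∈ T, p)),
      Nat.mod_mod_of_dvd _ (Finset.dvd_prod_of_mem _ hp)]
  have h1 := card_periodic (fun t => ∀ p ∈ T, bad p t) (∏ p ∈ T, p) hM hQ L
  have h2 := card_crt bad T hT hper
  have h3 : Sel.gg (fun p => (rho bad p : ℝ) / p) T =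
      (#((range (∏ p ∈ T, p)).filter (fun t => ∀ p ∈ T, bad p t)) : ℝ) / ((∏ p ∈ T, p : ℕ) : ℝ) := by
    rw [Sel.gg, Finset.prod_div_distrib, h2]
    push_cast
    rfl
  rw [h3, ← mul_div_assoc]
  have h4 : Sel.cnt (range L) bad T = #((range L).filter (fun t => ∀ p ∈ T, bad p t)) := by
    unfold Sel.cnt
    congr
  rw [h4]
  have h5 : (#((range (∏ p ∈ T, p)).filter (fun t => ∀ p ∈ T, bad p t)) : ℝ) ≤
      ((∏ p ∈ T, p : ℕ) : ℝ) := by
    exact_mod_cast (Finset.card_filter_le _ _).trans (le_of_eq (Finset.card_range _))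
  have h6 : |(#((range L).filter (fun t => ∀ p ∈ T, bad p t)) : ℝ) - (L : ℝ) *
      (#((range (∏ p ∈ T, p)).filter (fun t => ∀ p ∈ T, bad p t)) : ℝ) /
      ((∏ p ∈ T, p : ℕ) : ℝ)| ≤
      (#((range (∏ p ∈ T, p)).filter (fun t => ∀ p ∈ T, bad p t)) : ℝ) := by
    convert h1
  exact h6.trans h5

/-- the same with squared remainder -/
theorem cnt_range' (bad : ℕ → ℕ → Prop) (T : Finset ℕ) (hT : ∀ p ∈ T, p.Prime)
    (hper : ∀ p ∈ T, ∀ t, bad p t ↔ bad p (t % p)) (L : ℕ) :
    |(Sel.cnt (range L) bad T : ℝ) - (L : ℝ) * Sel.gg (fun p => (rho bad p : ℝ) / p) T| ≤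
      1 * ((∏ p ∈ T, p : ℕ) : ℝ) ^ 2 := by
  refine (cnt_range bad T hT hper L).trans ?_
  have : (1 : ℝ) ≤ ((∏ p ∈ T, p : ℕ) : ℝ) := by
    exact_mod_cast Finset.prod_pos fun p hp => (hT p hp).pos
  nlinarith

open Classical in
/-- invariance of the local density under affine substitution -/
theorem rho_affine (Q : ℕ → Prop) (p : ℕ) (hQ : ∀ t, Q t ↔ Q (t % p)) (hp : p.Prime) (a W : ℕ)
    (hW : Nat.Coprime W p) :
    #((range p).filter (fun t => Q (a + W * t))) = #((range p).filter Q) := by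
  haveI : Fact p.Prime := ⟨hp⟩
  refine Finset.card_bij (fun t _ => (a + W * t) % p) ?_ ?_ ?_
  · intro t ht
    rw [Finset.mem_filter, Finset.mem_range] at ht ⊢
    exact ⟨Nat.mod_lt _ hp.pos, (hQ _).1 ht.2⟩
  · intro t ht s hs hts
    rw [Finset.mem_filter, Finset.mem_range] at ht hs
    have h1 : a + W * t ≡ a + W * s [MOD p] := hts
    have h2 : W * t ≡ W * s [MOD p] := Nat.ModEq.add_left_cancel' a h1
    have h3 : t ≡ s [MOD p] := Nat.ModEq.cancel_left_of_coprime (by rwa [Nat.coprime_comm] at hW) h2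
    exact Nat.ModEq.eq_of_lt_of_lt h3 ht.1 hs.1
  · intro y hy
    rw [Finset.mem_filter, Finset.mem_range] at hy
    have hWu : (W : ZMod p) ≠ 0 := by
      intro h
      rw [ZMod.natCast_eq_zero_iff] at h
      have := Nat.Coprime.eq_one_of_dvd hW.symm h
      exact hp.one_lt.ne' this
    set t : ℕ := (((y : ZMod p) - a) / W).val with ht
    have h1 : a + W * t ≡ y [MOD p] := by
      rw [← ZMod.natCast_eq_natCast_iff]
      push_cast
      rw [ht, ZMod.natCast_zmod_val]
      field_simp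
      ring
    have h2 : (a + W * t) % p = y := by
      have := h1
      unfold Nat.ModEq at this
      rw [this, Nat.mod_eq_of_lt hy.1]
    refine ⟨t, ?_, h2⟩
    rw [Finset.mem_filter, Finset.mem_range]
    refine ⟨ZMod.val_lt _, ?_⟩
    rw [hQ, h2]
    exact hy.2

end Pool.Agent.Work.MP_2dba45_nt.Crt
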