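import Mathlib

set_option autoImplicit false

namespace Pool.Agent.Work.MP_2dba45_nt.BilDef

open Finset

/-- residues `ν < D` with `D ∣ ν ^ 2 + 1` (for `D = 1` this is `{0}`) -/
def Rt (D : ℕ) : Finset ℕ := (range D).filter (fun ν => D ∣ ν ^ 2 + 1)

/-- the remainder for `n ≡ c (mod r)`, `D ∣ n ^ 2 + 1`, with weight `W` on `(N, 2 N]` -/
noncomputable def Rem (W : ℕ → ℝ) (N D r c : ℕ) : ℝ :=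
  ∑ n ∈ (Ioc N (2 * N)).filter (fun n => n ≡ c [MOD r] ∧ D ∣ n ^ 2 + 1), W n
    - (#(Rt D) : ℝ) / ((D : ℝ) * r) * ∑ n ∈ Ioc N (2 * N), W n

/-- the bilinear remainder bound of level `N ^ (1 - ε) * N ^ (1 / 12 - ε)` -/
def BIL : Prop :=
  ∀ ε : ℝ, 0 < ε → ε < 1 / 100 → ∃ η : ℝ, 0 < η ∧ ∃ c₀ : ℝ, 0 < c₀ ∧ ∃ N₀ : ℕ,
    ∀ N : ℕ, N₀ ≤ N → ∃ W : ℕ → ℝ, (∀ n, 0 ≤ W n ∧ W n ≤ 1) ∧
      (∀ n, n ≤ N ∨ 2 * N < n → W n = 0) ∧ c₀ * N ≤ ∑ n ∈ Ioc N (2 * N), W n ∧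
      ∀ r c : ℕ, 1 ≤ r → (r : ℝ) ≤ (N : ℝ) ^ η →
        ∀ M Q : ℝ, M ≤ (N : ℝ) ^ (1 - ε) → Q ≤ (N : ℝ) ^ (1 / 12 - ε) →
          ∀ b : ℕ → ℝ, (∀ q, |b q| ≤ 1) →
            ∑ m ∈ (Icc 1 ⌊M⌋₊).filter (fun m => m.Coprime r),
              |∑ q ∈ (Icc 1 ⌊Q⌋₊).filter (fun q => Squarefree q ∧ q.Coprime (2 * m * r)),
                b q * Rem W N (m * q) r c| ≤ (N : ℝ) ^ (1 - η)

end Pool.Agent.Work.MP_2dba45_nt.BilDef
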