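import Mathlib

set_option autoImplicit false

namespace Pool.Agent.Work.MP_2dba45_nt.Mert

open Finset ArithmeticFunction

/-- summation by parts -/
theorem parts (c f : ℕ → ℝ) (a b : ℕ) (hab : a ≤ b) :
    ∑ n ∈ Ico a b, c n * f n = (∑ j ∈ Ico a b, c j) * f b +
      ∑ n ∈ Ico a b, (∑ j ∈ Ico a (n + 1), c j) * (f n - f (n + 1)) := by
  induction b, hab using Nat.le_induction with
  | base => simp
  | succ b hab ih =>
    rw [Finset.sum_Ico_succ_top hab, ih, Finset.sum_Ico_succ_top hab (fun n => _ * _),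
      Finset.sum_Ico_succ_top hab c]
    ring

theorem abel_bound (c f : ℕ → ℝ) (a b : ℕ) (hab : a ≤ b) (hc : ∀ m, a ≤ m → |∑ j ∈ Ico a m, c j| ≤ 1)
    (hf0 : ∀ n, a ≤ n → 0 ≤ f n) (hf : ∀ n, a ≤ n → f (n + 1) ≤ f n) :
    |∑ n ∈ Ico a b, c n * f n| ≤ f a := by
  rw [parts c f a b hab]
  calc |(∑ j ∈ Ico a b, c j) * f b + ∑ n ∈ Ico a b, (∑ j ∈ Ico a (n + 1), c j) * (f n - f (n + 1))|
      ≤ |(∑ j ∈ Ico a b, c j) * f b| +
        |∑ n ∈ Ico a b, (∑ j ∈ Ico a (n + 1), c j) * (f n - f (n + 1))| := abs_add_le _ _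
    _ ≤ 1 * f b + ∑ n ∈ Ico a b, 1 * (f n - f (n + 1)) := by
        apply add_le_add
        · rw [abs_mul, abs_of_nonneg (hf0 b hab)]
          gcongr
          · exact hf0 b hab
          · exact hc b hab
        · refine (Finset.abs_sum_le_sum_abs _ _).trans ?_
          refine Finset.sum_le_sum fun n hn => ?_
          rw [Finset.mem_Ico] at hn
          rw [abs_mul, abs_of_nonneg (sub_nonneg.2 (hf n hn.1))]
          gcongr
          · linarith [hf n hn.1]
          · exact hc (n + 1) (by omega)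
    _ = f a := by
        simp only [one_mul]
        rw [Finset.sum_Ico_eq_sub _ hab, Finset.sum_range_sub', Finset.sum_range_sub']
        ring

/-- hypotheses on a real character -/
structure Good (χ : ℕ → ℝ) : Prop where
  mul : ∀ m n, χ (m * n) = χ m * χ n
  one : χ 1 = 1
  le : ∀ n, |χ n| ≤ 1
  sum : ∀ a m, a ≤ m → |∑ j ∈ Ico a m, χ j| ≤ 1

noncomputable def wC (χ : ℕ → ℝ) : ArithmeticFunction ℝ := ⟨fun n => χ n / n, by simp⟩
noncomputable def wL (χ : ℕ → ℝ) : ArithmeticFunction ℝ := ⟨fun n => χ n * Λ n / n, by simp⟩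

theorem wC_apply (χ : ℕ → ℝ) (n : ℕ) : wC χ n = χ n / n := rfl
theorem wL_apply (χ : ℕ → ℝ) (n : ℕ) : wL χ n = χ n * Λ n / n := rfl

theorem conv_apply {χ : ℕ → ℝ} (h : Good χ) {n : ℕ} (hn : 0 < n) :
    (wL χ * wC χ) n = χ n * (Real.log n / n) := by
  rw [ArithmeticFunction.mul_apply]
  have h1 : ∀ x ∈ n.divisorsAntidiagonal, wL χ x.1 * wC χ x.2 = χ n / n * Λ x.1 := by
    intro x hx
    rw [Nat.mem_divisorsAntidiagonal] at hx
    rw [wL_apply, wC_apply]
    have h1 : x.1 ≠ 0 := by rintro h0; rw [h0] at hx; simp at hx; omega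
    have h2 : x.2 ≠ 0 := by rintro h0; rw [h0] at hx; simp at hx; omega
    have h3 : χ n = χ x.1 * χ x.2 := by rw [← h.mul, hx.1]
    have h4 : (n : ℝ) = x.1 * x.2 := by exact_mod_cast hx.1.symm
    rw [h3, h4]
    have h1' : (x.1 : ℝ) ≠ 0 := by exact_mod_cast h1
    have h2' : (x.2 : ℝ) ≠ 0 := by exact_mod_cast h2
    field_simp
  have h2 : ∑ i ∈ n.divisorsAntidiagonal, Λ i.1 = ∑ i ∈ n.divisors, Λ i :=
    Nat.sum_divisorsAntidiagonal (fun i _ => Λ i)
  rw [Finset.sum_congr rfl h1, ← Finset.mul_sum, h2, vonMangoldt_sum]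
  ring

theorem sum_log_bound {χ : ℕ → ℝ} (h : Good χ) (N : ℕ) :
    |∑ n ∈ Ioc 0 N, χ n * (Real.log n / n)| ≤ 2 := by
  have h1 : Ioc 0 N = Ico 1 (N + 1) := by ext; simp; omega
  rw [h1]
  rcases Nat.lt_or_ge N 2 with hN | hN
  · interval_cases N
    · simp
    · simp
  rw [← Finset.sum_Ico_consecutive _ (show 1 ≤ 3 by norm_num) (show 3 ≤ N + 1 by omega)]
  have h2 : |∑ n ∈ Ico 3 (N + 1), χ n * (Real.log n / n)| ≤ Real.log (3 : ℕ) / (3 : ℕ) := by
    apply abel_bound χ (fun n => Real.log n / n) 3 (N + 1) (by omega)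
    · intro m hm; exact h.sum 3 m hm
    · intro n hn
      have : (1 : ℝ) ≤ n := by exact_mod_cast (by omega : 1 ≤ n)
      exact div_nonneg (Real.log_nonneg this) (by positivity)
    · intro n hn
      apply Real.log_div_self_antitoneOn
      · have : (3 : ℝ) ≤ n := by exact_mod_cast hn
        show Real.exp 1 ≤ _
        linarith [Real.exp_one_lt_d9]
      · have : (3 : ℝ) ≤ n := by exact_mod_cast hn
        show Real.exp 1 ≤ _
        push_cast
        linarith [Real.exp_one_lt_d9]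
      · push_cast; linarith
  have h3 : ∑ n ∈ Ico 1 3, χ n * (Real.log n / n) = χ 2 * (Real.log 2 / 2) := by
    have : Ico 1 3 = {1, 2} := by decide
    rw [this]
    simp
  rw [h3]
  have h4 : |χ 2 * (Real.log 2 / 2)| ≤ 1 := by
    rw [abs_mul]
    have := h.le 2
    have h5 : |Real.log 2 / 2| ≤ 1 := by
      rw [abs_of_nonneg (by positivity)]
      linarith [Real.log_two_lt_d9]
    calc |χ 2| * |Real.log 2 / 2| ≤ 1 * 1 := by gcongr
      _ = 1 := one_mul 1
  have h5 : Real.log (3 : ℕ) / (3 : ℕ) ≤ 1 := by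
    rw [div_le_one (by norm_num)]
    have := Real.log_le_sub_one_of_pos (x := ((3 : ℕ) : ℝ)) (by norm_num)
    push_cast at this ⊢
    linarith
  calc _ ≤ |χ 2 * (Real.log 2 / 2)| + |∑ n ∈ Ico 3 (N + 1), χ n * (Real.log n / n)| := abs_add_le _ _
    _ ≤ 2 := by linarith

noncomputable def LL (χ : ℕ → ℝ) (y : ℕ) : ℝ := ∑ j ∈ Ioc 0 y, χ j / j

theorem LL_ge {χ : ℕ → ℝ} (h : Good χ) {N : ℕ} (hN : 1 ≤ N) : 1 / 2 ≤ LL χ N := by
  unfold LL
  have h1 : Ioc 0 N = Ico 1 (N + 1) := by ext; simp; omega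
  rw [h1, ← Finset.sum_Ico_consecutive _ (show 1 ≤ 2 by norm_num) (show 2 ≤ N + 1 by omega)]
  have h2 : |∑ n ∈ Ico 2 (N + 1), χ n * (1 / (n : ℝ))| ≤ 1 / ((2 : ℕ) : ℝ) := by
    apply abel_bound χ (fun n => 1 / (n : ℝ)) 2 (N + 1) (by omega)
    · intro m hm; exact h.sum 2 m hm
    · intro n hn; positivity
    · intro n hn
      apply one_div_le_one_div_of_le
      · exact_mod_cast (by omega : 0 < n)
      · push_cast; linarith
  have h3 : ∑ n ∈ Ico 1 2, χ n / (n : ℝ) = 1 := by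
    have : Ico 1 2 = {1} := by decide
    rw [this]
    simp [h.one]
  have h4 : ∑ n ∈ Ico 2 (N + 1), χ n / (n : ℝ) = ∑ n ∈ Ico 2 (N + 1), χ n * (1 / (n : ℝ)) := by
    refine Finset.sum_congr rfl fun n _ => ?_
    ring
  rw [h3, h4]
  have := (abs_le.1 h2).1
  push_cast at this
  linarith

theorem LL_sub {χ : ℕ → ℝ} (h : Good χ) {y N : ℕ} (hyN : y ≤ N) :
    |LL χ y - LL χ N| ≤ 1 / ((y : ℝ) + 1) := by
  unfold LL
  have h1 : ∀ N, Ioc 0 N = Ico 1 (N + 1) := by intro N; ext; simp; omega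
  rw [h1, h1, ← Finset.sum_Ico_consecutive _ (show 1 ≤ y + 1 by omega)
    (show y + 1 ≤ N + 1 by omega)]
  have h2 : |∑ n ∈ Ico (y + 1) (N + 1), χ n * (1 / (n : ℝ))| ≤ 1 / (((y + 1 : ℕ)) : ℝ) := by
    apply abel_bound χ (fun n => 1 / (n : ℝ)) (y + 1) (N + 1) (by omega)
    · intro m hm; exact h.sum _ m hm
    · intro n hn; positivity
    · intro n hn
      apply one_div_le_one_div_of_le
      · exact_mod_cast (by omega : 0 < n)
      · push_cast; linarith
  have h4 : ∑ n ∈ Ico (y + 1) (N + 1), χ n / (n : ℝ) =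
      ∑ n ∈ Ico (y + 1) (N + 1), χ n * (1 / (n : ℝ)) := by
    refine Finset.sum_congr rfl fun n _ => ?_
    ring
  rw [h4]
  push_cast at h2
  rw [sub_add_cancel_left, abs_neg]
  exact h2

theorem sum_Lam_le (N : ℕ) : ∑ k ∈ Ioc 0 N, Λ k ≤ (Real.log 4 + 4) * N := by
  have h := Chebyshev.psi_le_const_mul_self (x := (N : ℝ)) (by positivity)
  rw [Chebyshev.psi, Nat.floor_natCast] at h
  exact h

theorem sum_chi_Lam {χ : ℕ → ℝ} (h : Good χ) (N : ℕ) :
    |∑ k ∈ Ioc 0 N, χ k * Λ k / k| ≤ 20 := by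
  rcases Nat.eq_zero_or_pos N with rfl | hN
  · simp
  have hN' : (0 : ℝ) < N := by exact_mod_cast hN
  have h1 : ∑ n ∈ Ioc 0 N, χ n * (Real.log n / n) =
      ∑ k ∈ Ioc 0 N, (χ k * Λ k / k) * LL χ (N / k) := by
    rw [Finset.sum_congr rfl (fun n hn => (conv_apply h (Finset.mem_Ioc.1 hn).1).symm),
      ArithmeticFunction.sum_Ioc_mul_eq_sum_sum]
    rfl
  have h2 : ∑ k ∈ Ioc 0 N, (χ k * Λ k / k) * LL χ (N / k) =
      LL χ N * ∑ k ∈ Ioc 0 N, χ k * Λ k / k +
      ∑ k ∈ Ioc 0 N, (χ k * Λ k / k) * (LL χ (N / k) - LL χ N) := by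
    rw [Finset.mul_sum, ← Finset.sum_add_distrib]
    refine Finset.sum_congr rfl fun k _ => ?_
    ring
  have h3 : |∑ k ∈ Ioc 0 N, (χ k * Λ k / k) * (LL χ (N / k) - LL χ N)| ≤ Real.log 4 + 4 := by
    calc |∑ k ∈ Ioc 0 N, (χ k * Λ k / k) * (LL χ (N / k) - LL χ N)|
        ≤ ∑ k ∈ Ioc 0 N, |(χ k * Λ k / k) * (LL χ (N / k) - LL χ N)| :=
          Finset.abs_sum_le_sum_abs _ _
      _ ≤ ∑ k ∈ Ioc 0 N, Λ k / N := by
          refine Finset.sum_le_sum fun k hk => ?_
          rw [Finset.mem_Ioc] at hk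
          have hk0 : (0 : ℝ) < k := by exact_mod_cast hk.1
          rw [abs_mul]
          have e1 : |χ k * Λ k / k| ≤ Λ k / k := by
            rw [abs_div, abs_mul, abs_of_nonneg (vonMangoldt_nonneg (n := k)),
              abs_of_pos hk0]
            have := h.le k
            have h0 : 0 ≤ Λ k := vonMangoldt_nonneg
            gcongr
            calc |χ k| * Λ k ≤ 1 * Λ k := by gcongr
              _ = Λ k := one_mul _
          have e2 : |LL χ (N / k) - LL χ N| ≤ k / N := by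
            refine (LL_sub h (Nat.div_le_self N k)).trans ?_
            rw [div_le_div_iff₀ (by positivity) hN', one_mul]
            have := Nat.lt_mul_div_succ N hk.1
            have : (N : ℝ) < k * ((N / k : ℕ) + 1) := by exact_mod_cast this
            linarith
          calc |χ k * Λ k / k| * |LL χ (N / k) - LL χ N| ≤ (Λ k / k) * (k / N) := by
                have h0 : 0 ≤ Λ k := vonMangoldt_nonneg
                gcongr
            _ = Λ k / N := by field_simp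
      _ = (∑ k ∈ Ioc 0 N, Λ k) / N := by rw [Finset.sum_div]
      _ ≤ Real.log 4 + 4 := by
          rw [div_le_iff₀ hN']
          exact sum_Lam_le N
  have h4 := sum_log_bound h N
  rw [h1, h2] at h4
  have h5 := LL_ge h hN
  set S := ∑ k ∈ Ioc 0 N, χ k * Λ k / k
  have hlog4 : Real.log 4 ≤ 2 := by
    have : Real.log 4 = 2 * Real.log 2 := by
      rw [show (4 : ℝ) = 2 ^ 2 by norm_num, Real.log_pow]; norm_num
    rw [this]; linarith [Real.log_two_lt_d9]
  have h6 : |LL χ N * S| ≤ 8 := by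
    have e := abs_sub_abs_le_abs_sub (LL χ N * S) (-(∑ k ∈ Ioc 0 N, (χ k * Λ k / k) * (LL χ (N / k) - LL χ N)))
    rw [sub_neg_eq_add, abs_neg] at e
    linarith
  rw [abs_mul, abs_of_pos (by linarith)] at h6
  have h7 : 1 / 2 * |S| ≤ 8 := by
    calc 1 / 2 * |S| ≤ LL χ N * |S| := by gcongr
      _ ≤ 8 := h6
  linarith

theorem sum_Lam_div (N : ℕ) (hN : 0 < N) : |∑ k ∈ Ioc 0 N, Λ k / k - Real.log N| ≤ 6 := by
  have hN' : (0 : ℝ) < N := by exact_mod_cast hN
  have hlog4 : Real.log 4 ≤ 2 := by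
    have : Real.log 4 = 2 * Real.log 2 := by
      rw [show (4 : ℝ) = 2 ^ 2 by norm_num, Real.log_pow]; norm_num
    rw [this]; linarith [Real.log_two_lt_d9]
  have h1 : ∑ n ∈ Ioc 0 N, Real.log n = ∑ k ∈ Ioc 0 N, Λ k * ((N / k : ℕ) : ℝ) := by
    rw [← ArithmeticFunction.sum_Ioc_mul_zeta_eq_sum]
    rw [vonMangoldt_mul_zeta]
    rfl
  have hfac : ∑ n ∈ Ioc 0 N, Real.log n = Real.log (N.factorial) := by
    rw [← Finset.prod_Ico_id_eq_factorial, Nat.cast_prod, Real.log_prod]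
    · apply Finset.sum_congr _ (fun _ _ => rfl)
      ext; simp; omega
    · intro n hn
      rw [Finset.mem_Ico] at hn
      have : 0 < n := hn.1
      positivity
  have hupper : ∑ n ∈ Ioc 0 N, Real.log n ≤ N * Real.log N := by
    calc ∑ n ∈ Ioc 0 N, Real.log n ≤ ∑ n ∈ Ioc 0 N, Real.log N := by
          refine Finset.sum_le_sum fun n hn => ?_
          rw [Finset.mem_Ioc] at hn
          apply Real.log_le_log
          · exact_mod_cast hn.1
          · exact_mod_cast hn.2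
      _ = N * Real.log N := by simp
  have hlower : N * Real.log N - N ≤ ∑ n ∈ Ioc 0 N, Real.log n := by
    rw [hfac]
    have h2 := Real.pow_div_factorial_le_exp (N : ℝ) hN'.le N
    have hf : (0 : ℝ) < N.factorial := by exact_mod_cast N.factorial_pos
    rw [div_le_iff₀ hf] at h2
    have h3 := Real.log_le_log (by positivity) h2
    rw [Real.log_mul (by positivity) hf.ne', Real.log_exp, Real.log_pow] at h3
    linarith
  have hA : (∑ k ∈ Ioc 0 N, Λ k * ((N / k : ℕ) : ℝ)) ≤ N * ∑ k ∈ Ioc 0 N, Λ k / k := by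
    rw [Finset.mul_sum]
    refine Finset.sum_le_sum fun k hk => ?_
    have h0 : 0 ≤ Λ k := vonMangoldt_nonneg
    have : ((N / k : ℕ) : ℝ) ≤ N / k := Nat.cast_div_le
    calc Λ k * ((N / k : ℕ) : ℝ) ≤ Λ k * (N / k) := by gcongr
      _ = N * (Λ k / k) := by ring
  have hB : N * ∑ k ∈ Ioc 0 N, Λ k / k - ∑ k ∈ Ioc 0 N, Λ k ≤
      (∑ k ∈ Ioc 0 N, Λ k * ((N / k : ℕ) : ℝ)) := by
    rw [Finset.mul_sum, ← Finset.sum_sub_distrib]
    refine Finset.sum_le_sum fun k hk => ?_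
    rw [Finset.mem_Ioc] at hk
    have hk0 : (0 : ℝ) < k := by exact_mod_cast hk.1
    have h0 : 0 ≤ Λ k := vonMangoldt_nonneg
    have h5 : (N : ℝ) / k - 1 ≤ ((N / k : ℕ) : ℝ) := by
      have := Nat.lt_mul_div_succ N hk.1
      have h6 : (N : ℝ) < k * ((N / k : ℕ) + 1) := by exact_mod_cast this
      have : (N : ℝ) / k < (N / k : ℕ) + 1 := by
        rw [div_lt_iff₀ hk0]; linarith
      linarith
    calc N * (Λ k / k) - Λ k = Λ k * (N / k - 1) := by ring
      _ ≤ _ := by gcongr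
  have hpsi := sum_Lam_le N
  rw [h1] at hupper hlower
  set S := ∑ k ∈ Ioc 0 N, Λ k / k
  rw [abs_le]
  constructor
  · have : (N : ℝ) * (Real.log N - 1) ≤ N * S := by linarith
    have := le_of_mul_le_mul_left this hN'
    linarith
  · have : (N : ℝ) * S ≤ N * (Real.log N + 6) := by nlinarith
    have := le_of_mul_le_mul_left this hN'
    linarith

/-- the tail over proper prime powers is bounded -/
theorem nonprime_bound : ∃ C : ℝ, ∀ (χ : ℕ → ℝ), (∀ n, |χ n| ≤ 1) → ∀ N : ℕ,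
    |∑ k ∈ Ioc 0 N, χ k * Λ k / k - ∑ p ∈ (Ioc 0 N).filter Nat.Prime, χ p * Real.log p / p| ≤ C := by
  have hs := vonMangoldt.summable_residueClass_non_primes_div (q := 1) 0
  refine ⟨∑' n : ℕ, (if n.Prime then 0 else vonMangoldt.residueClass (0 : ZMod 1) n) / n,
    fun χ hχ N => ?_⟩
  have h1 : ∑ k ∈ Ioc 0 N, χ k * Λ k / k =
      ∑ p ∈ (Ioc 0 N).filter Nat.Prime, χ p * Real.log p / p +
      ∑ k ∈ (Ioc 0 N).filter (fun n => ¬ n.Prime), χ k * Λ k / k := by
    rw [← Finset.sum_filter_add_sum_filter_not (Ioc 0 N) Nat.Prime]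
    congr 1
    refine Finset.sum_congr rfl fun p hp => ?_
    rw [vonMangoldt_apply_prime (Finset.mem_filter.1 hp).2]
  rw [h1, add_sub_cancel_left]
  calc |∑ k ∈ (Ioc 0 N).filter (fun n => ¬ n.Prime), χ k * Λ k / k|
      ≤ ∑ k ∈ (Ioc 0 N).filter (fun n => ¬ n.Prime), |χ k * Λ k / k| :=
        Finset.abs_sum_le_sum_abs _ _
    _ ≤ ∑ k ∈ (Ioc 0 N).filter (fun n => ¬ n.Prime),
        (if k.Prime then 0 else vonMangoldt.residueClass (0 : ZMod 1) k) / k := by
        refine Finset.sum_le_sum fun k hk => ?_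
        rw [Finset.mem_filter] at hk
        rw [if_neg hk.2, abs_div, abs_mul, abs_of_nonneg (vonMangoldt_nonneg (n := k)),
          Nat.abs_cast]
        have h2 : vonMangoldt.residueClass (0 : ZMod 1) k = Λ k := by
          rw [vonMangoldt.residueClass, Set.indicator_of_mem]
          simp only [Set.mem_ofPred_eq]
          exact Subsingleton.elim _ _
        rw [h2]
        have h0 : 0 ≤ Λ k := vonMangoldt_nonneg
        have := hχ k
        gcongr
        calc |χ k| * Λ k ≤ 1 * Λ k := by gcongr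
          _ = Λ k := one_mul _
    _ ≤ _ := by
        apply hs.sum_le_tsum
        intro n _
        split_ifs
        · simp
        · exact div_nonneg (vonMangoldt.residueClass_nonneg _ _) (by positivity)

theorem mertens_one : ∃ C : ℝ, ∀ N : ℕ, 0 < N →
    |∑ p ∈ (Ioc 0 N).filter Nat.Prime, Real.log p / p - Real.log N| ≤ C := by
  obtain ⟨C, hC⟩ := nonprime_bound
  refine ⟨C + 6, fun N hN => ?_⟩
  have h1 := hC (fun _ => 1) (fun _ => by simp) N
  have h2 := sum_Lam_div N hN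
  simp only [one_mul] at h1
  have h3 := abs_sub_le (∑ p ∈ (Ioc 0 N).filter Nat.Prime, Real.log p / p)
    (∑ k ∈ Ioc 0 N, Λ k / k) (Real.log N)
  rw [abs_sub_comm] at h1
  linarith

theorem mertens_chi : ∃ C : ℝ, ∀ (χ : ℕ → ℝ), Good χ → ∀ N : ℕ,
    |∑ p ∈ (Ioc 0 N).filter Nat.Prime, χ p * Real.log p / p| ≤ C := by
  obtain ⟨C, hC⟩ := nonprime_bound
  refine ⟨C + 20, fun χ hχ N => ?_⟩
  have h1 := hC χ hχ.le N
  have h2 := sum_chi_Lam hχ N
  set S := ∑ k ∈ Ioc 0 N, χ k * Λ k / k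
  set T := ∑ p ∈ (Ioc 0 N).filter Nat.Prime, χ p * Real.log p / p
  have h3 := abs_sub_abs_le_abs_sub T S
  rw [abs_sub_comm] at h3
  linarith

end Pool.Agent.Work.MP_2dba45_nt.Mert
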