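import Mathlib
import Pool.Agent.Work.MP_2dba45_nt.Mert

set_option autoImplicit false

namespace Pool.Agent.Work.MP_2dba45_nt.Nu

open Finset Pool.Agent.Work.MP_2dba45_nt.Mert

/-- number of roots of `x^2+d` modulo `p` -/
def nu (d p : ℕ) : ℕ := #((range p).filter (fun x => p ∣ x ^ 2 + d))

theorem nu_eq_card (d p : ℕ) [NeZero p] :
    nu d p = #((univ : Finset (ZMod p)).filter (fun x => x ^ 2 + (d : ZMod p) = 0)) := by
  unfold nu
  refine Finset.card_nbij' (fun x : ℕ => (x : ZMod p)) (fun x : ZMod p => x.val) ?_ ?_ ?_ ?_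
  · intro x hx
    simp only [Finset.coe_filter, Finset.mem_range, Set.mem_ofPred_eq, Finset.mem_univ,
      true_and] at hx ⊢
    have := (ZMod.natCast_eq_zero_iff (x ^ 2 + d) p).2 hx.2
    push_cast at this
    exact this
  · intro x hx
    simp only [Finset.coe_filter, Finset.mem_range, Set.mem_ofPred_eq, Finset.mem_univ,
      true_and] at hx ⊢
    refine ⟨ZMod.val_lt x, ?_⟩
    rw [← ZMod.natCast_eq_zero_iff]
    push_cast
    rw [ZMod.natCast_zmod_val]
    exact hx
  · intro x hx
    simp only [Finset.coe_filter, Finset.mem_range, Set.mem_ofPred_eq] at hx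
    exact ZMod.val_cast_of_lt hx.1
  · intro x _
    exact ZMod.natCast_zmod_val x

theorem nu_le (d p : ℕ) (hp : p.Prime) : nu d p ≤ 2 := by
  haveI : Fact p.Prime := ⟨hp⟩
  rw [nu_eq_card]
  by_contra h
  push Not at h
  obtain ⟨a, ha, b, hb, c, hc, hab, hac, hbc⟩ := Finset.two_lt_card.1 h
  simp only [Finset.mem_filter, Finset.mem_univ, true_and] at ha hb hc
  have h1 : (a - b) * (a + b) = 0 := by linear_combination ha - hb
  have h2 : (a - c) * (a + c) = 0 := by linear_combination ha - hc
  rcases mul_eq_zero.1 h1 with h1 | h1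
  · exact hab (sub_eq_zero.1 h1)
  rcases mul_eq_zero.1 h2 with h2 | h2
  · exact hac (sub_eq_zero.1 h2)
  apply hbc
  linear_combination h1 - h2

noncomputable def chi4 (n : ℕ) : ℝ := if n % 4 = 1 then 1 else if n % 4 = 3 then -1 else 0
noncomputable def chi3 (n : ℕ) : ℝ := if n % 3 = 1 then 1 else if n % 3 = 2 then -1 else 0

theorem good_chi4 : Good chi4 := by
  refine ⟨?_, by simp [chi4], ?_, ?_⟩
  · intro m n
    unfold chi4
    rw [Nat.mul_mod]
    have h1 : m % 4 < 4 := Nat.mod_lt _ (by norm_num)
    have h2 : n % 4 < 4 := Nat.mod_lt _ (by norm_num)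
    interval_cases m % 4 <;> interval_cases n % 4 <;> norm_num
  · intro n
    unfold chi4
    split_ifs <;> norm_num
  · intro a m ham
    have h : ∀ m, ∑ j ∈ range m, chi4 j = if m % 4 = 2 ∨ m % 4 = 3 then 1 else 0 := by
      intro m
      induction m with
      | zero => simp
      | succ m ih =>
        rw [Finset.sum_range_succ, ih, chi4]
        have h1 : m % 4 < 4 := Nat.mod_lt _ (by norm_num)
        rw [Nat.add_mod]
        interval_cases m % 4 <;> norm_num
    rw [Finset.sum_Ico_eq_sub _ ham, h, h]
    split_ifs <;> norm_num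

theorem good_chi3 : Good chi3 := by
  refine ⟨?_, by simp [chi3], ?_, ?_⟩
  · intro m n
    unfold chi3
    rw [Nat.mul_mod]
    have h1 : m % 3 < 3 := Nat.mod_lt _ (by norm_num)
    have h2 : n % 3 < 3 := Nat.mod_lt _ (by norm_num)
    interval_cases m % 3 <;> interval_cases n % 3 <;> norm_num
  · intro n
    unfold chi3
    split_ifs <;> norm_num
  · intro a m ham
    have h : ∀ m, ∑ j ∈ range m, chi3 j = if m % 3 = 2 then 1 else 0 := by
      intro m
      induction m with
      | zero => simp
      | succ m ih =>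
        rw [Finset.sum_range_succ, ih, chi3]
        have h1 : m % 3 < 3 := Nat.mod_lt _ (by norm_num)
        rw [Nat.add_mod]
        interval_cases m % 3 <;> norm_num
    rw [Finset.sum_Ico_eq_sub _ ham, h, h]
    split_ifs <;> norm_num

theorem nu_of_root {d p : ℕ} [Fact p.Prime] (hp2 : p ≠ 2) (hd : (d : ZMod p) ≠ 0)
    {r : ZMod p} (hr : r ^ 2 + (d : ZMod p) = 0) : nu d p = 2 := by
  rw [nu_eq_card]
  have h2 : (2 : ZMod p) ≠ 0 := by
    intro h
    have : (p : ℕ) ∣ 2 := (ZMod.natCast_eq_zero_iff 2 p).1 (by exact_mod_cast h)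
    have := (Nat.prime_dvd_prime_iff_eq (Fact.out : p.Prime) Nat.prime_two).1 this
    exact hp2 this
  have hr0 : r ≠ 0 := by
    rintro rfl
    apply hd
    simpa using hr
  have hne : r ≠ -r := by
    intro h
    have : 2 * r = 0 := by linear_combination h
    rcases mul_eq_zero.1 this with h | h
    · exact h2 h
    · exact hr0 h
  have : (univ : Finset (ZMod p)).filter (fun x => x ^ 2 + (d : ZMod p) = 0) = {r, -r} := by
    ext x
    simp only [Finset.mem_filter, Finset.mem_univ, true_and, Finset.mem_insert,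
      Finset.mem_singleton]
    constructor
    · intro hx
      have : (x - r) * (x + r) = 0 := by linear_combination hx - hr
      rcases mul_eq_zero.1 this with h | h
      · left; exact sub_eq_zero.1 h
      · right; exact eq_neg_of_add_eq_zero_left h
    · rintro (h | h) <;> rw [h]
      · exact hr
      · rw [neg_sq]; exact hr
  rw [this, Finset.card_pair hne]

theorem nu_of_not_root {d p : ℕ} [Fact p.Prime]
    (h : ∀ r : ZMod p, r ^ 2 + (d : ZMod p) ≠ 0) : nu d p = 0 := by
  rw [nu_eq_card, Finset.card_eq_zero, Finset.filter_eq_empty_iff]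
  intro x _
  exact h x

theorem nu_one_eq {p : ℕ} (hp : p.Prime) (h5 : 5 ≤ p) : (nu 1 p : ℝ) = 1 + chi4 p := by
  haveI : Fact p.Prime := ⟨hp⟩
  have hodd : p % 2 = 1 := by
    rcases hp.eq_two_or_odd with h | h
    · omega
    · exact h
  have h4 : p % 4 = 1 ∨ p % 4 = 3 := by omega
  rcases h4 with h | h
  · have hs : IsSquare (-1 : ZMod p) := ZMod.exists_sq_eq_neg_one_iff.2 (by omega)
    obtain ⟨r, hr⟩ := hs
    have := nu_of_root (d := 1) (p := p) (by omega) (by simp) (r := r)
      (by push_cast; linear_combination -hr)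
    rw [this, chi4, if_pos h]
    norm_num
  · have : nu 1 p = 0 := by
      apply nu_of_not_root
      intro r hr
      have hs : IsSquare (-1 : ZMod p) := ⟨r, by push_cast at hr; linear_combination -hr⟩
      have := ZMod.exists_sq_eq_neg_one_iff.1 hs
      omega
    rw [this, chi4, if_neg (by omega), if_pos h]
    norm_num

theorem nu_three_eq {p : ℕ} (hp : p.Prime) (h5 : 5 ≤ p) : (nu 3 p : ℝ) = 1 + chi3 p := by
  haveI : Fact p.Prime := ⟨hp⟩
  have h3 : p % 3 = 1 ∨ p % 3 = 2 := by
    have : p % 3 ≠ 0 := by
      intro h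
      have := (Nat.prime_dvd_prime_iff_eq Nat.prime_three hp).1 (Nat.dvd_of_mod_eq_zero h)
      omega
    omega
  have h30 : (3 : ZMod p) ≠ 0 := by
    intro h
    have : (p : ℕ) ∣ 3 := (ZMod.natCast_eq_zero_iff 3 p).1 (by exact_mod_cast h)
    have := Nat.le_of_dvd (by norm_num) this
    omega
  have h20 : (2 : ZMod p) ≠ 0 := by
    intro h
    have : (p : ℕ) ∣ 2 := (ZMod.natCast_eq_zero_iff 2 p).1 (by exact_mod_cast h)
    have := Nat.le_of_dvd (by norm_num) this
    omega
  rcases h3 with h | h
  · -- there is an element of order 3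
    have hdvd : 3 ∣ Fintype.card (ZMod p)ˣ := by
      rw [ZMod.card_units]
      omega
    haveI : Fact (Nat.Prime 3) := ⟨Nat.prime_three⟩
    obtain ⟨w, hw⟩ := exists_prime_orderOf_dvd_card 3 hdvd
    have hw3 : (w : ZMod p) ^ 3 = 1 := by
      have := pow_orderOf_eq_one w
      rw [hw] at this
      have := congrArg (fun x : (ZMod p)ˣ => (x : ZMod p)) this
      simpa using this
    have hw1 : (w : ZMod p) ≠ 1 := by
      intro h1
      have : w = 1 := Units.ext h1
      rw [this, orderOf_one] at hw
      omega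
    have hq : (w : ZMod p) ^ 2 + w + 1 = 0 := by
      have : ((w : ZMod p) - 1) * ((w : ZMod p) ^ 2 + w + 1) = 0 := by linear_combination hw3
      rcases mul_eq_zero.1 this with h1 | h1
      · exact absurd (sub_eq_zero.1 h1) hw1
      · exact h1
    have := nu_of_root (d := 3) (p := p) (by omega) (by exact_mod_cast h30)
      (r := 2 * (w : ZMod p) + 1) (by push_cast; linear_combination 4 * hq)
    rw [this, chi3, if_pos h]
    norm_num
  · have : nu 3 p = 0 := by
      apply nu_of_not_root
      intro r hr
      push_cast at hr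
      have h2i : (2 : ZMod p) * 2⁻¹ = 1 := mul_inv_cancel₀ h20
      set w : ZMod p := (r - 1) * 2⁻¹ with hw
      have h2w : 2 * w = r - 1 := by rw [hw]; linear_combination (r - 1) * h2i
      have hq : w ^ 2 + w + 1 = 0 := by
        have : 4 * (w ^ 2 + w + 1) = 0 := by
          calc 4 * (w ^ 2 + w + 1) = (2 * w) ^ 2 + 2 * (2 * w) + 4 := by ring
            _ = 0 := by rw [h2w]; linear_combination hr
        rcases mul_eq_zero.1 this with h1 | h1
        · exfalso
          have : (2 : ZMod p) * 2 = 0 := by linear_combination h1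
          rcases mul_eq_zero.1 this with h | h <;> exact h20 h
        · exact h1
      have hw3 : w ^ 3 = 1 := by linear_combination (w - 1) * hq
      have hw0 : w ≠ 0 := by
        intro h0
        rw [h0] at hw3
        simp at hw3
      set u : (ZMod p)ˣ := Units.mk0 w hw0 with hu
      have hu3 : u ^ 3 = 1 := by
        apply Units.ext
        simp [hu, hw3]
      have hu1 : u ≠ 1 := by
        intro h1
        have : w = 1 := by
          have := congrArg (fun x : (ZMod p)ˣ => (x : ZMod p)) h1
          simpa [hu] using this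
        rw [this] at hq
        apply h30
        linear_combination hq
      have hord : orderOf u = 3 := orderOf_eq_prime hu3 hu1
      have hd := orderOf_dvd_card (x := u)
      rw [hord, ZMod.card_units] at hd
      omega
    rw [this, chi3, if_neg (by omega), if_pos h]
    norm_num

/-- Mertens for split primes, both discriminants. -/
theorem mert_nu : ∃ C : ℝ, 0 ≤ C ∧ ∀ d : ℕ, (d = 1 ∨ d = 3) → ∀ N : ℕ, 0 < N →
    |∑ p ∈ (Ioc 0 N).filter Nat.Prime, (nu d p : ℝ) * (Real.log p / p) - Real.log N| ≤ C := by
  obtain ⟨C1, hC1⟩ := mertens_one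
  obtain ⟨C2, hC2⟩ := mertens_chi
  have hC1' : 0 ≤ C1 := (abs_nonneg _).trans (hC1 1 one_pos)
  have hC2' : 0 ≤ C2 := (abs_nonneg _).trans (hC2 _ good_chi3 1)
  refine ⟨C1 + C2 + 20, by linarith, fun d hd N hN => ?_⟩
  obtain ⟨χ, hχ, hν⟩ : ∃ χ : ℕ → ℝ, Good χ ∧ ∀ p : ℕ, p.Prime → 5 ≤ p → (nu d p : ℝ) = 1 + χ p := by
    rcases hd with rfl | rfl
    · exact ⟨chi4, good_chi4, fun p hp h5 => nu_one_eq hp h5⟩
    · exact ⟨chi3, good_chi3, fun p hp h5 => nu_three_eq hp h5⟩
  have h1 := hC1 N hN
  have h2 := hC2 χ hχ N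
  have h3 : |∑ p ∈ (Ioc 0 N).filter Nat.Prime, ((nu d p : ℝ) - (1 + χ p)) * (Real.log p / p)| ≤
      20 := by
    refine (Finset.abs_sum_le_sum_abs _ _).trans ?_
    calc ∑ p ∈ (Ioc 0 N).filter Nat.Prime, |((nu d p : ℝ) - (1 + χ p)) * (Real.log p / p)|
        ≤ ∑ p ∈ (range 5), (4 : ℝ) := by
          rw [← Finset.sum_filter_add_sum_filter_not ((Ioc 0 N).filter Nat.Prime)
            (fun p => p < 5)]
          have e1 : ∑ p ∈ ((Ioc 0 N).filter Nat.Prime).filter (fun p => ¬ p < 5),
              |((nu d p : ℝ) - (1 + χ p)) * (Real.log p / p)| = 0 := by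
            apply Finset.sum_eq_zero
            intro p hp
            simp only [Finset.mem_filter, not_lt] at hp
            rw [hν p hp.1.2 hp.2]
            simp
          rw [e1, add_zero]
          calc _ ≤ ∑ p ∈ ((Ioc 0 N).filter Nat.Prime).filter (fun p => p < 5), (4 : ℝ) := by
                refine Finset.sum_le_sum fun p hp => ?_
                simp only [Finset.mem_filter, Finset.mem_Ioc] at hp
                have hp0 : (0 : ℝ) < p := by exact_mod_cast hp.1.2.pos
                rw [abs_mul]
                have e2 : |(nu d p : ℝ) - (1 + χ p)| ≤ 4 := by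
                  have hn : (nu d p : ℝ) ≤ 2 := by exact_mod_cast nu_le d p hp.1.2
                  have hn0 : (0 : ℝ) ≤ nu d p := by positivity
                  have := abs_le.1 (hχ.le p)
                  rw [abs_le]
                  constructor <;> linarith
                have e3 : |Real.log p / p| ≤ 1 := by
                  have hl : 0 ≤ Real.log p :=
                    Real.log_nonneg (by exact_mod_cast hp.1.2.one_lt.le)
                  rw [abs_of_nonneg (by positivity), div_le_one hp0]
                  have := Real.log_le_sub_one_of_pos hp0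
                  linarith
                calc |(nu d p : ℝ) - (1 + χ p)| * |Real.log p / p| ≤ 4 * 1 := by gcongr
                  _ = 4 := by norm_num
            _ ≤ ∑ p ∈ (range 5), (4 : ℝ) := by
                apply Finset.sum_le_sum_of_subset_of_nonneg
                · intro p hp
                  rw [Finset.mem_range]
                  exact (Finset.mem_filter.1 hp).2
                · intro _ _ _; norm_num
      _ = 20 := by norm_num
  have h4 : ∑ p ∈ (Ioc 0 N).filter Nat.Prime, (nu d p : ℝ) * (Real.log p / p) =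
      ∑ p ∈ (Ioc 0 N).filter Nat.Prime, Real.log p / p +
      ∑ p ∈ (Ioc 0 N).filter Nat.Prime, χ p * Real.log p / p +
      ∑ p ∈ (Ioc 0 N).filter Nat.Prime, ((nu d p : ℝ) - (1 + χ p)) * (Real.log p / p) := by
    rw [← Finset.sum_add_distrib, ← Finset.sum_add_distrib]
    refine Finset.sum_congr rfl fun p _ => ?_
    ring
  rw [h4]
  rw [abs_le] at h1 h2 h3 ⊢
  constructor <;> linarith

end Pool.Agent.Work.MP_2dba45_nt.Nu
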