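import Mathlib
import Pool.Agent.Work.MP_2dba45_nt.Nu

set_option autoImplicit false

namespace Pool.Agent.Work.MP_2dba45_nt.Psum

open Finset Pool.Agent.Work.MP_2dba45_nt.Mert Pool.Agent.Work.MP_2dba45_nt.Nu

theorem step (z : ℕ) (hz : 2 ≤ z) :
    (Real.log (z + 1 : ℕ) - Real.log z) / Real.log (z + 1 : ℕ) ≤
      Real.log (Real.log (z + 1 : ℕ)) - Real.log (Real.log z) ∧
    Real.log (Real.log (z + 1 : ℕ)) - Real.log (Real.log z) ≤
      (Real.log (z + 1 : ℕ) - Real.log z) / Real.log (z + 1 : ℕ) + 3 / (z : ℝ) ^ 2 := by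
  have hz' : (2 : ℝ) ≤ z := by exact_mod_cast hz
  set a := Real.log z with ha
  set b := Real.log (z + 1 : ℕ) with hb
  have ha2 : 0.69 ≤ a := by
    calc (0.69 : ℝ) ≤ Real.log 2 := by linarith [Real.log_two_gt_d9]
      _ ≤ a := Real.log_le_log (by norm_num) hz'
  have hab : a ≤ b := Real.log_le_log (by linarith) (by push_cast; linarith)
  have hb0 : 0 < b := by linarith
  have ha0 : 0 < a := by linarith
  have hba : b - a ≤ 1 / z := by
    rw [ha, hb, ← Real.log_div (by positivity) (by positivity)]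
    refine (Real.log_le_sub_one_of_pos (by positivity)).trans ?_
    push_cast
    have : (z : ℝ) ≠ 0 := by positivity
    field_simp
    linarith
  have e1 : Real.log b - Real.log a = Real.log (b / a) := (Real.log_div hb0.ne' ha0.ne').symm
  constructor
  · rw [e1]
    have := Real.one_sub_inv_le_log_of_pos (x := b / a) (by positivity)
    refine le_trans (le_of_eq ?_) this
    field_simp
  · rw [e1]
    have h1 := Real.log_le_sub_one_of_pos (x := b / a) (by positivity)
    have h2 : b / a - 1 = (b - a) / b + (b - a) ^ 2 / (a * b) := by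
      field_simp
      ring
    rw [h2] at h1
    refine h1.trans ?_
    have h3 : (b - a) * z ≤ 1 := by
      calc (b - a) * z ≤ 1 / z * z := by gcongr
        _ = 1 := by field_simp
    have h4 : 0 ≤ (b - a) * z := by apply mul_nonneg <;> linarith
    have h5 : (b - a) ^ 2 * (z : ℝ) ^ 2 ≤ 1 := by
      rw [← mul_pow]
      exact pow_le_one₀ h4 h3
    have h6 : (b - a) ^ 2 / (a * b) ≤ 3 / (z : ℝ) ^ 2 := by
      rw [div_le_div_iff₀ (by positivity) (by positivity)]
      nlinarith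
    linarith

theorem log_sum (w z : ℕ) (hw : 2 ≤ w) (hwz : w ≤ z) :
    ∑ n ∈ Ico (w + 1) (z + 1), (Real.log n - Real.log ((n - 1 : ℕ) : ℝ)) * (1 / Real.log n) ≤
      Real.log (Real.log z) - Real.log (Real.log w) ∧
    Real.log (Real.log z) - Real.log (Real.log w) - 6 * (1 / (w : ℝ) - 1 / z) ≤
      ∑ n ∈ Ico (w + 1) (z + 1), (Real.log n - Real.log ((n - 1 : ℕ) : ℝ)) * (1 / Real.log n) := by
  induction z, hwz using Nat.le_induction with
  | base => simp
  | succ z hwz ih =>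
    rw [Finset.sum_Ico_succ_top (by omega)]
    have h := step z (by omega)
    have h1 : ((z + 1 - 1 : ℕ) : ℝ) = z := by norm_num
    rw [h1]
    have hz : (2 : ℝ) ≤ z := by exact_mod_cast (by omega : 2 ≤ z)
    have h2 : 3 / (z : ℝ) ^ 2 ≤ 6 * (1 / (z : ℝ) - 1 / ((z + 1 : ℕ) : ℝ)) := by
      push_cast
      have e : 6 * (1 / (z : ℝ) - 1 / ((z : ℝ) + 1)) = 6 / (z * (z + 1)) := by
        field_simp
        ring
      rw [e, div_le_div_iff₀ (by positivity) (by positivity)]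
      nlinarith
    have e3 : (Real.log ((z + 1 : ℕ) : ℝ) - Real.log z) * (1 / Real.log ((z + 1 : ℕ) : ℝ)) =
      (Real.log ((z + 1 : ℕ) : ℝ) - Real.log z) / Real.log ((z + 1 : ℕ) : ℝ) := by ring
    rw [e3]
    constructor
    · linarith [h.1, ih.1]
    · linarith [h.2, ih.2]

/-- partial summation from a Mertens type estimate -/
theorem psum (a : ℕ → ℝ) (C : ℝ) (hC0 : 0 ≤ C)
    (hC : ∀ N : ℕ, 0 < N → |∑ n ∈ Ioc 0 N, a n * (Real.log n / n) - Real.log N| ≤ C)
    (w z : ℕ) (hw : 2 ≤ w) (hwz : w ≤ z) :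
    |∑ n ∈ Ioc w z, a n / n - (Real.log (Real.log z) - Real.log (Real.log w))| ≤ 2 * C + 4 := by
  have hI : ∀ w z : ℕ, Ioc w z = Ico (w + 1) (z + 1) := by
    intro w z; ext x; simp only [Finset.mem_Ioc, Finset.mem_Ico]; omega
  set c : ℕ → ℝ := fun n => (a n * (Real.log n / n) - (Real.log n - Real.log ((n - 1 : ℕ) : ℝ))) /
    (2 * C + 1) with hc
  have hCpos : 0 < 2 * C + 1 := by linarith
  have hS : ∀ m, w + 1 ≤ m → |∑ j ∈ Ico (w + 1) m, c j| ≤ 1 := by
    intro m hm
    obtain ⟨m, rfl⟩ : ∃ k, m = k + 1 := ⟨m - 1, by omega⟩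
    have hm' : w ≤ m := by omega
    have e1 : ∑ j ∈ Ico (w + 1) (m + 1), a j * (Real.log j / j) =
        ∑ n ∈ Ioc 0 m, a n * (Real.log n / n) - ∑ n ∈ Ioc 0 w, a n * (Real.log n / n) := by
      rw [hI 0 m, hI 0 w, ← Finset.sum_Ico_consecutive _ (show 0 + 1 ≤ w + 1 by omega)
        (show w + 1 ≤ m + 1 by omega)]
      ring
    have e2 : ∑ j ∈ Ico (w + 1) (m + 1), (Real.log j - Real.log ((j - 1 : ℕ) : ℝ)) =
        Real.log m - Real.log w := by
      clear hm
      induction m, hm' using Nat.le_induction with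
      | base => simp
      | succ m hm ih =>
        have e1' : ∑ j ∈ Ico (w + 1) (m + 1), a j * (Real.log j / j) =
            ∑ n ∈ Ioc 0 m, a n * (Real.log n / n) - ∑ n ∈ Ioc 0 w, a n * (Real.log n / n) := by
          rw [hI 0 m, hI 0 w, ← Finset.sum_Ico_consecutive _ (show 0 + 1 ≤ w + 1 by omega)
            (show w + 1 ≤ m + 1 by omega)]
          ring
        rw [Finset.sum_Ico_succ_top (by omega), ih e1']
        simp
    have e3 : ∑ j ∈ Ico (w + 1) (m + 1), c j =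
        ((∑ n ∈ Ioc 0 m, a n * (Real.log n / n) - Real.log m) -
          (∑ n ∈ Ioc 0 w, a n * (Real.log n / n) - Real.log w)) / (2 * C + 1) := by
      rw [hc, ← Finset.sum_div, Finset.sum_sub_distrib, e1, e2]
      ring
    rw [e3, abs_div, abs_of_pos hCpos, div_le_one hCpos]
    have h1 := hC m (by omega)
    have h2 := hC w (by omega)
    have := abs_sub (∑ n ∈ Ioc 0 m, a n * (Real.log n / n) - Real.log m)
          (∑ n ∈ Ioc 0 w, a n * (Real.log n / n) - Real.log w)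
    linarith
  have hlog : ∀ n : ℕ, w + 1 ≤ n → 0 < Real.log n := by
    intro n hn
    apply Real.log_pos
    exact_mod_cast (by omega : 1 < n)
  have hab := abel_bound c (fun n => 1 / Real.log n) (w + 1) (z + 1) (by omega) hS
    (fun n hn => by have := hlog n hn; positivity)
    (fun n hn => by
      have := hlog n hn
      apply one_div_le_one_div_of_le this
      apply Real.log_le_log
      · exact_mod_cast (by omega : 0 < n)
      · push_cast; linarith)
  have hf : 1 / Real.log ((w + 1 : ℕ) : ℝ) ≤ 1 := by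
    rw [div_le_one (hlog _ (le_refl _))]
    calc (1 : ℝ) = Real.log (Real.exp 1) := (Real.log_exp 1).symm
      _ ≤ Real.log ((w + 1 : ℕ) : ℝ) := by
        apply Real.log_le_log (Real.exp_pos _)
        have : (3 : ℝ) ≤ ((w + 1 : ℕ) : ℝ) := by exact_mod_cast (by omega : 3 ≤ w + 1)
        linarith [Real.exp_one_lt_d9]
  have hls := log_sum w z hw hwz
  have e4 : ∑ n ∈ Ioc w z, a n / n =
      (2 * C + 1) * ∑ n ∈ Ico (w + 1) (z + 1), c n * (1 / Real.log n) +
      ∑ n ∈ Ico (w + 1) (z + 1),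
        (Real.log n - Real.log ((n - 1 : ℕ) : ℝ)) * (1 / Real.log n) := by
    rw [hI, Finset.mul_sum, ← Finset.sum_add_distrib]
    refine Finset.sum_congr rfl fun n hn => ?_
    rw [Finset.mem_Ico] at hn
    have := (hlog n hn.1).ne'
    have hn0 : (n : ℝ) ≠ 0 := by
      have : 0 < n := by omega
      positivity
    simp only [hc]
    field_simp
    ring
  have h5 : |(2 * C + 1) * ∑ n ∈ Ico (w + 1) (z + 1), c n * (1 / Real.log n)| ≤ 2 * C + 1 := by
    rw [abs_mul, abs_of_pos hCpos]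
    calc (2 * C + 1) * |∑ n ∈ Ico (w + 1) (z + 1), c n * (1 / Real.log n)|
        ≤ (2 * C + 1) * 1 := by
          gcongr
          exact hab.trans hf
      _ = _ := mul_one _
  rw [e4]
  have hw' : 1 / (w : ℝ) ≤ 1 / 2 := by
    apply one_div_le_one_div_of_le (by norm_num)
    exact_mod_cast hw
  have hz' : 0 ≤ 1 / (z : ℝ) := by positivity
  rw [abs_le] at h5 ⊢
  constructor
  · linarith [h5.1, hls.2]
  · linarith [h5.2, hls.1]

theorem psum_prime (a : ℕ → ℝ) (C : ℝ) (hC0 : 0 ≤ C)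
    (hC : ∀ N : ℕ, 0 < N → |∑ p ∈ (Ioc 0 N).filter Nat.Prime, a p * (Real.log p / p) -
      Real.log N| ≤ C)
    (w z : ℕ) (hw : 2 ≤ w) (hwz : w ≤ z) :
    |∑ p ∈ (Ioc w z).filter Nat.Prime, a p / p -
      (Real.log (Real.log z) - Real.log (Real.log w))| ≤ 2 * C + 4 := by
  have := psum (fun n => if n.Prime then a n else 0) C hC0 (fun N hN => ?_) w z hw hwz
  · rw [Finset.sum_filter]
    convert this using 3
    refine Finset.sum_congr rfl fun n _ => ?_
    split_ifs <;> simp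
  · have h := hC N hN
    rw [Finset.sum_filter] at h
    convert h using 3
    refine Finset.sum_congr rfl fun n _ => ?_
    split_ifs <;> simp

theorem psum_one : ∃ C : ℝ, 0 ≤ C ∧ ∀ w z : ℕ, 2 ≤ w → w ≤ z →
    |∑ p ∈ (Ioc w z).filter Nat.Prime, 1 / (p : ℝ) -
      (Real.log (Real.log z) - Real.log (Real.log w))| ≤ C := by
  obtain ⟨C, hC⟩ := mertens_one
  have hC0 : 0 ≤ C := (abs_nonneg _).trans (hC 1 one_pos)
  refine ⟨2 * C + 4, by linarith, fun w z hw hwz => ?_⟩
  exact psum_prime (fun _ => 1) C hC0 (fun N hN => by simpa using hC N hN) w z hw hwz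

theorem psum_nu : ∃ C : ℝ, 0 ≤ C ∧ ∀ d : ℕ, (d = 1 ∨ d = 3) → ∀ w z : ℕ, 2 ≤ w → w ≤ z →
    |∑ p ∈ (Ioc w z).filter Nat.Prime, (nu d p : ℝ) / (p : ℝ) -
      (Real.log (Real.log z) - Real.log (Real.log w))| ≤ C := by
  obtain ⟨C, hC0, hC⟩ := mert_nu
  refine ⟨2 * C + 4, by linarith, fun d hd w z hw hwz => ?_⟩
  exact psum_prime (fun p => nu d p) C hC0 (fun N hN => hC d hd N hN) w z hw hwz

theorem one_sub_ge {x : ℝ} (hx0 : 0 ≤ x) (hx : x ≤ 1 / 2) :
    Real.exp (-(x + 2 * x ^ 2)) ≤ 1 - x := by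
  have h1 : 0 < 1 - x := by linarith
  rw [← Real.exp_log h1]
  apply Real.exp_le_exp.2
  have h := Real.abs_log_sub_add_sum_range_le (x := x) (by rw [abs_of_nonneg hx0]; linarith) 1
  simp only [Finset.sum_range_one, zero_add, pow_one, Nat.cast_zero, div_one] at h
  rw [abs_of_nonneg hx0] at h
  have h2 : x ^ (1 + 1) / (1 - x) ≤ 2 * x ^ 2 := by
    rw [div_le_iff₀ h1]
    have : x ^ (1 + 1) = x ^ 2 := by norm_num
    rw [this]
    nlinarith [mul_nonneg (sq_nonneg x) (by linarith : (0 : ℝ) ≤ 1 / 2 - x)]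
  have h3 := (abs_le.1 h).1
  linarith

theorem sum_inv_sq_le (s : Finset ℕ) (hs : ∀ n ∈ s, 1 ≤ n) : ∑ n ∈ s, 1 / (n : ℝ) ^ 2 ≤ 2 := by
  have h1 : ∀ N : ℕ, 1 ≤ N → ∑ n ∈ Icc 1 N, 1 / (n : ℝ) ^ 2 ≤ 2 - 1 / (N : ℝ) := by
    intro N hN
    induction N, hN using Nat.le_induction with
    | base => norm_num
    | succ N hN ih =>
      rw [Finset.sum_Icc_succ_top (by omega)]
      have hN' : (1 : ℝ) ≤ N := by exact_mod_cast hN
      have : 1 / ((N + 1 : ℕ) : ℝ) ^ 2 ≤ 1 / (N : ℝ) - 1 / ((N + 1 : ℕ) : ℝ) := by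
        push_cast
        have e : 1 / (N : ℝ) - 1 / ((N : ℝ) + 1) = 1 / (N * (N + 1)) := by field_simp; ring
        rw [e]
        apply one_div_le_one_div_of_le (by positivity)
        nlinarith
      linarith
  rcases s.eq_empty_or_nonempty with rfl | hne
  · simp
  · set M := s.max' hne
    have hM : 1 ≤ M := hs M (Finset.max'_mem _ _)
    calc ∑ n ∈ s, 1 / (n : ℝ) ^ 2 ≤ ∑ n ∈ Icc 1 M, 1 / (n : ℝ) ^ 2 := by
          apply Finset.sum_le_sum_of_subset_of_nonneg
          · intro n hn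
            exact Finset.mem_Icc.2 ⟨hs n hn, Finset.le_max' _ _ hn⟩
          · intros; positivity
      _ ≤ 2 - 1 / (M : ℝ) := h1 M hM
      _ ≤ 2 := by
        have : (0 : ℝ) ≤ 1 / (M : ℝ) := by positivity
        linarith

/-- lower bound for products -/
theorem prod_ge (s : Finset ℕ) (hs : ∀ n ∈ s, 1 ≤ n) (g : ℕ → ℝ) (hg0 : ∀ p ∈ s, 0 ≤ g p)
    (hg : ∀ p ∈ s, g p ≤ 1 / 2) (K : ℝ) (hK : 0 ≤ K) (hgK : ∀ p ∈ s, g p ≤ K / p) :
    Real.exp (-(∑ p ∈ s, g p) - 4 * K ^ 2) ≤ ∏ p ∈ s, (1 - g p) := by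
  calc Real.exp (-(∑ p ∈ s, g p) - 4 * K ^ 2)
      ≤ Real.exp (∑ p ∈ s, -(g p + 2 * (g p) ^ 2)) := by
        apply Real.exp_le_exp.2
        rw [Finset.sum_neg_distrib, Finset.sum_add_distrib, ← Finset.mul_sum]
        have h1 : ∑ p ∈ s, g p ^ 2 ≤ K ^ 2 * 2 := by
          calc ∑ p ∈ s, g p ^ 2 ≤ ∑ p ∈ s, K ^ 2 * (1 / (p : ℝ) ^ 2) := by
                refine Finset.sum_le_sum fun p hp => ?_
                calc g p ^ 2 ≤ (K / p) ^ 2 := by
                      have := hg0 p hp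
                      have := hgK p hp
                      gcongr
                  _ = _ := by ring
            _ = K ^ 2 * ∑ p ∈ s, 1 / (p : ℝ) ^ 2 := by rw [Finset.mul_sum]
            _ ≤ K ^ 2 * 2 := by
                have := sum_inv_sq_le s hs
                gcongr
        linarith
    _ = ∏ p ∈ s, Real.exp (-(g p + 2 * (g p) ^ 2)) := Real.exp_sum _ _
    _ ≤ ∏ p ∈ s, (1 - g p) := by
        apply Finset.prod_le_prod
        · intro p _; positivity
        · intro p hp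
          exact one_sub_ge (hg0 p hp) (hg p hp)

theorem prod_le (s : Finset ℕ) (g : ℕ → ℝ) (hg : ∀ p ∈ s, g p ≤ 1) :
    ∏ p ∈ s, (1 - g p) ≤ Real.exp (-(∑ p ∈ s, g p)) := by
  rw [← Finset.sum_neg_distrib, Real.exp_sum]
  apply Finset.prod_le_prod
  · intro p hp; linarith [hg p hp]
  · intro p _
    exact Real.one_sub_le_exp_neg _

end Pool.Agent.Work.MP_2dba45_nt.Psum
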