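import Mathlib
import Pool.Agent.Work.MP_2dba45_nt.Psum

set_option autoImplicit false

namespace Pool.Agent.Work.MP_2dba45_nt.VV

open Finset Pool.Agent.Work.MP_2dba45_nt.Mert Pool.Agent.Work.MP_2dba45_nt.Nu
  Pool.Agent.Work.MP_2dba45_nt.Psum

/-- number of roots of `(x^2+1)(x^2+3)` modulo `p` -/
def om (p : ℕ) : ℕ := #((range p).filter (fun t => p ∣ (t ^ 2 + 1) * (t ^ 2 + 3)))

theorem om_le_nu (p : ℕ) (hp : p.Prime) : om p ≤ nu 1 p + nu 3 p := by
  unfold om nu
  refine le_trans (Finset.card_le_card ?_) (Finset.card_union_le _ _)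
  intro t ht
  rw [Finset.mem_filter] at ht
  rw [Finset.mem_union, Finset.mem_filter, Finset.mem_filter]
  rcases (Nat.Prime.dvd_mul hp).1 ht.2 with h | h
  · exact Or.inl ⟨ht.1, h⟩
  · exact Or.inr ⟨ht.1, h⟩

theorem om_eq_nu (p : ℕ) (hp : p.Prime) (h3 : 3 ≤ p) : om p = nu 1 p + nu 3 p := by
  unfold om nu
  rw [← Finset.card_union_of_disjoint]
  · congr 1
    ext t
    rw [Finset.mem_union, Finset.mem_filter, Finset.mem_filter, Finset.mem_filter,
      Nat.Prime.dvd_mul hp]
    tauto
  · rw [Finset.disjoint_left]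
    intro t h1 h2
    rw [Finset.mem_filter] at h1 h2
    have h4 : p ∣ (t ^ 2 + 3) - (t ^ 2 + 1) := Nat.dvd_sub h2.2 h1.2
    have h5 : (t ^ 2 + 3) - (t ^ 2 + 1) = 2 := by omega
    rw [h5] at h4
    have := Nat.le_of_dvd (by norm_num) h4
    omega

theorem om_le_four (p : ℕ) (hp : p.Prime) : om p ≤ 4 := by
  have h1 := om_le_nu p hp
  have h2 := nu_le 1 p hp
  have h3 := nu_le 3 p hp
  omega

theorem om_two : om 2 = 1 := by decide
theorem om_three : om 3 = 1 := by decide
theorem om_five : om 5 = 2 := by decide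
theorem om_seven : om 7 = 2 := by decide

noncomputable def gom (p : ℕ) : ℝ := (om p : ℝ) / p

theorem gom_nonneg (p : ℕ) : 0 ≤ gom p := by unfold gom; positivity

theorem gom_le_half (p : ℕ) (hp : p.Prime) : gom p ≤ 1 / 2 := by
  unfold gom
  have hp0 : (0 : ℝ) < p := by exact_mod_cast hp.pos
  rcases Nat.lt_or_ge p 8 with h | h
  · interval_cases p
    · exact absurd hp (by decide)
    · exact absurd hp (by decide)
    · rw [om_two]; norm_num
    · rw [om_three]; norm_num
    · exact absurd hp (by decide)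
    · rw [om_five]; norm_num
    · exact absurd hp (by decide)
    · rw [om_seven]; norm_num
  · have h1 : (om p : ℝ) ≤ 4 := by exact_mod_cast om_le_four p hp
    have h2 : (8 : ℝ) ≤ p := by exact_mod_cast h
    rw [div_le_iff₀ hp0]
    linarith

theorem gom_le (p : ℕ) (hp : p.Prime) : gom p ≤ 4 / p := by
  unfold gom
  have h1 : (om p : ℝ) ≤ 4 := by exact_mod_cast om_le_four p hp
  have hp0 : (0 : ℝ) < p := by exact_mod_cast hp.pos
  gcongr

/-- primes below `z` -/
def PP (z : ℕ) : Finset ℕ := (range z).filter Nat.Prime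

theorem mem_PP {z p : ℕ} : p ∈ PP z ↔ p < z ∧ p.Prime := by simp [PP]

noncomputable def V (z : ℕ) : ℝ := ∏ p ∈ PP z, (1 - gom p)

theorem one_sub_gom (p : ℕ) (hp : p.Prime) : 1 / 2 ≤ 1 - gom p := by
  linarith [gom_le_half p hp]

theorem V_pos (z : ℕ) : 0 < V z :=
  Finset.prod_pos fun p hp => by linarith [one_sub_gom p (mem_PP.1 hp).2]

theorem V_le_one (z : ℕ) : V z ≤ 1 :=
  Finset.prod_le_one (fun p hp => by linarith [one_sub_gom p (mem_PP.1 hp).2])
    (fun p _ => by linarith [gom_nonneg p])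

/-- `∏_{q0 ≤ q < z} (1 - gom q) ≤ V z / V q0` -/
theorem V_split (q0 z : ℕ) :
    ∏ q ∈ (PP z).filter (fun q => q0 ≤ q), (1 - gom q) ≤ V z / V q0 := by
  rw [le_div_iff₀ (V_pos q0)]
  have h1 : V z = (∏ q ∈ (PP z).filter (fun q => q0 ≤ q), (1 - gom q)) *
      ∏ q ∈ (PP z).filter (fun q => ¬ q0 ≤ q), (1 - gom q) := by
    rw [V, Finset.prod_filter_mul_prod_filter_not]
  have hpos : 0 < ∏ q ∈ (PP z).filter (fun q => q0 ≤ q), (1 - gom q) :=
    Finset.prod_pos fun p hp => by
      linarith [one_sub_gom p (mem_PP.1 (Finset.mem_filter.1 hp).1).2]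
  rw [h1]
  apply mul_le_mul_of_nonneg_left _ hpos.le
  have hsub : (PP z).filter (fun q => ¬ q0 ≤ q) ⊆ PP q0 := by
    intro q hq
    rw [Finset.mem_filter, mem_PP] at hq
    rw [mem_PP]
    exact ⟨by omega, hq.1.2⟩
  rw [V, ← Finset.prod_sdiff hsub]
  have h2 : ∏ q ∈ PP q0 \ (PP z).filter (fun q => ¬ q0 ≤ q), (1 - gom q) ≤ 1 :=
    Finset.prod_le_one (fun p hp => by
      linarith [one_sub_gom p (mem_PP.1 (Finset.mem_sdiff.1 hp).1).2])
      (fun p _ => by linarith [gom_nonneg p])
  have h3 : 0 ≤ ∏ q ∈ (PP z).filter (fun q => ¬ q0 ≤ q), (1 - gom q) :=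
    Finset.prod_nonneg fun p hp => by
      linarith [one_sub_gom p (mem_PP.1 (Finset.mem_filter.1 hp).1).2]
  nlinarith

/-- `V z ≥ c / (log z)^2` -/
theorem V_ge : ∃ c : ℝ, 0 < c ∧ ∀ z : ℕ, 2 ≤ z → c / (Real.log z) ^ 2 ≤ V z := by
  obtain ⟨C, hC0, hC⟩ := psum_nu
  set L := Real.log (Real.log 2) with hL
  refine ⟨Real.exp (-(65 + 2 * C) + 2 * L), Real.exp_pos _, fun z hz => ?_⟩
  have hlz : Real.log 2 ≤ Real.log z := Real.log_le_log (by norm_num) (by exact_mod_cast hz)
  have hl2 : 0 < Real.log 2 := Real.log_pos (by norm_num)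
  have hlz0 : 0 < Real.log z := by linarith
  have hll : L ≤ Real.log (Real.log z) := Real.log_le_log hl2 hlz
  have hsum : ∑ p ∈ PP z, gom p ≤ 1 + 2 * (Real.log (Real.log z) - L + C) := by
    rcases Nat.lt_or_ge z 3 with h3 | h3
    · have hz2 : z = 2 := by omega
      have : PP z = ∅ := by
        ext p
        rw [mem_PP]
        simp only [Finset.notMem_empty, iff_false]
        rintro ⟨h, hp⟩
        have := hp.two_le
        omega
      rw [this, Finset.sum_empty]
      have : 0 ≤ Real.log (Real.log z) - L := by linarith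
      linarith
    · have h1 := hC 1 (Or.inl rfl) 2 (z - 1) (le_refl _) (by omega)
      have h2 := hC 3 (Or.inr rfl) 2 (z - 1) (le_refl _) (by omega)
      have hlz1 : Real.log (Real.log ((z - 1 : ℕ) : ℝ)) ≤ Real.log (Real.log z) := by
        apply Real.log_le_log
        · apply Real.log_pos
          exact_mod_cast (by omega : 1 < z - 1)
        · apply Real.log_le_log
          · exact_mod_cast (by omega : 0 < z - 1)
          · exact_mod_cast Nat.sub_le z 1
      have e1 : ∑ p ∈ PP z, gom p ≤ 1 / 2 + ∑ p ∈ (Ioc 2 (z - 1)).filter Nat.Prime,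
          ((nu 1 p : ℝ) / p + (nu 3 p : ℝ) / p) := by
        have hsub : PP z ⊆ insert 2 ((Ioc 2 (z - 1)).filter Nat.Prime) := by
          intro p hp
          rw [mem_PP] at hp
          rw [Finset.mem_insert, Finset.mem_filter, Finset.mem_Ioc]
          have := hp.2.two_le
          rcases Nat.eq_or_lt_of_le this with h | h
          · exact Or.inl h.symm
          · exact Or.inr ⟨⟨h, by omega⟩, hp.2⟩
        calc ∑ p ∈ PP z, gom p ≤ ∑ p ∈ insert 2 ((Ioc 2 (z - 1)).filter Nat.Prime), gom p :=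
              Finset.sum_le_sum_of_subset_of_nonneg hsub (fun p _ _ => gom_nonneg p)
          _ = gom 2 + ∑ p ∈ (Ioc 2 (z - 1)).filter Nat.Prime, gom p := by
              rw [Finset.sum_insert (by simp)]
          _ ≤ _ := by
              apply add_le_add
              · exact gom_le_half 2 Nat.prime_two
              · refine Finset.sum_le_sum fun p hp => ?_
                rw [Finset.mem_filter] at hp
                unfold gom
                rw [← add_div]
                have : (om p : ℝ) ≤ nu 1 p + nu 3 p := by exact_mod_cast om_le_nu p hp.2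
                gcongr
      rw [Finset.sum_add_distrib] at e1
      have h1' := (abs_le.1 h1).2
      have h2' := (abs_le.1 h2).2
      push_cast at h1' h2'
      rw [← hL] at h1' h2'
      push_cast at hlz1
      linarith
  have hprod := prod_ge (PP z) (fun n hn => (mem_PP.1 hn).2.one_lt.le) gom
    (fun p _ => gom_nonneg p) (fun p hp => gom_le_half p (mem_PP.1 hp).2) 4 (by norm_num)
    (fun p hp => gom_le p (mem_PP.1 hp).2)
  refine le_trans ?_ hprod
  rw [div_le_iff₀ (by positivity)]
  have e2 : (Real.log z) ^ 2 = Real.exp (2 * Real.log (Real.log z)) := by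
    rw [two_mul, Real.exp_add, Real.exp_log hlz0]; ring
  rw [e2, ← Real.exp_add]
  apply Real.exp_le_exp.2
  linarith

/-- growth of the partial products -/
theorem V_ratio : ∃ C : ℝ, 0 < C ∧ ∀ z : ℕ, ∀ S ⊆ PP z, ∀ p ∈ PP z,
    (∏ q ∈ S.filter (fun q => p ≤ q), (1 - gom q))⁻¹ ≤ C * (Real.log z / Real.log p) ^ 4 := by
  obtain ⟨C, hC0, hC⟩ := psum_one
  refine ⟨Real.exp (66 + 4 * C), Real.exp_pos _, fun z S hS p hp => ?_⟩
  rw [mem_PP] at hp
  have hp2 := hp.2.two_le
  have hlp : 0 < Real.log p := Real.log_pos (by exact_mod_cast hp.2.one_lt)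
  have hpz : (p : ℝ) ≤ z := by exact_mod_cast hp.1.le
  have hlpz : Real.log p ≤ Real.log z := Real.log_le_log (by exact_mod_cast hp.2.pos) hpz
  have hlz : 0 < Real.log z := by linarith
  set S' := S.filter (fun q => p ≤ q) with hS'
  have hS'm : ∀ q ∈ S', q.Prime ∧ p ≤ q ∧ q < z := by
    intro q hq
    rw [hS', Finset.mem_filter] at hq
    have := mem_PP.1 (hS hq.1)
    exact ⟨this.2, hq.2, this.1⟩
  have hprod := prod_ge S' (fun n hn => (hS'm n hn).1.one_lt.le) gom
    (fun p _ => gom_nonneg p) (fun q hq => gom_le_half q (hS'm q hq).1) 4 (by norm_num)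
    (fun q hq => gom_le q (hS'm q hq).1)
  have hsum : ∑ q ∈ S', gom q ≤ 2 + 4 * (Real.log (Real.log z) - Real.log (Real.log p) + C) := by
    have h1 := hC p (z - 1) hp2 (by omega)
    have hlz1 : Real.log (Real.log ((z - 1 : ℕ) : ℝ)) ≤ Real.log (Real.log z) := by
      rcases Nat.lt_or_ge z 3 with h3 | h3
      · have : p = 2 ∧ z = 3 := by omega
        omega
      · apply Real.log_le_log
        · apply Real.log_pos
          exact_mod_cast (by omega : 1 < z - 1)
        · apply Real.log_le_log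
          · exact_mod_cast (by omega : 0 < z - 1)
          · exact_mod_cast Nat.sub_le z 1
    have hsub : S' ⊆ insert p ((Ioc p (z - 1)).filter Nat.Prime) := by
      intro q hq
      obtain ⟨h1, h2, h3⟩ := hS'm q hq
      rw [Finset.mem_insert, Finset.mem_filter, Finset.mem_Ioc]
      rcases Nat.eq_or_lt_of_le h2 with h | h
      · exact Or.inl h.symm
      · exact Or.inr ⟨⟨h, by omega⟩, h1⟩
    calc ∑ q ∈ S', gom q ≤ ∑ q ∈ insert p ((Ioc p (z - 1)).filter Nat.Prime), gom q :=
          Finset.sum_le_sum_of_subset_of_nonneg hsub (fun p _ _ => gom_nonneg p)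
      _ = gom p + ∑ q ∈ (Ioc p (z - 1)).filter Nat.Prime, gom q := by
          rw [Finset.sum_insert (by simp)]
      _ ≤ 1 / 2 + ∑ q ∈ (Ioc p (z - 1)).filter Nat.Prime, 4 * (1 / (q : ℝ)) := by
          apply add_le_add
          · exact gom_le_half p hp.2
          · refine Finset.sum_le_sum fun q hq => ?_
            rw [Finset.mem_filter] at hq
            refine (gom_le q hq.2).trans (le_of_eq (by ring))
      _ ≤ _ := by
          rw [← Finset.mul_sum]
          have h1' := (abs_le.1 h1).2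
          linarith
  have hpos : 0 < ∏ q ∈ S', (1 - gom q) :=
    Finset.prod_pos fun q hq => by linarith [one_sub_gom q (hS'm q hq).1]
  have h2 : (∏ q ∈ S', (1 - gom q))⁻¹ ≤ Real.exp (∑ q ∈ S', gom q + 64) := by
    rw [inv_le_comm₀ hpos (Real.exp_pos _), ← Real.exp_neg]
    refine le_trans (Real.exp_le_exp.2 ?_) hprod
    linarith
  refine h2.trans ?_
  have e3 : (Real.log z / Real.log p) ^ 4 =
      Real.exp (4 * (Real.log (Real.log z) - Real.log (Real.log p))) := by
    rw [← Real.log_div hlz.ne' hlp.ne', mul_comm, Real.exp_mul, Real.exp_log (by positivity)]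
    norm_cast
  rw [e3, ← Real.exp_add]
  apply Real.exp_le_exp.2
  linarith

/-- Chebyshev-Mertens bound for dimension at most `k` -/
theorem sum_log_le : ∃ K : ℝ, 1 ≤ K ∧ ∀ (P : Finset ℕ) (g : ℕ → ℝ), (∀ p ∈ P, p.Prime) →
    (∀ p ∈ P, g p ≤ 6 / p) → ∀ y : ℝ, 1 < y →
    ∑ p ∈ P.filter (fun p : ℕ => (p : ℝ) ≤ y), g p * Real.log p ≤ K * Real.log y := by
  obtain ⟨C, hC⟩ := mertens_one
  have hC0 : 0 ≤ C := (abs_nonneg _).trans (hC 1 one_pos)
  have hl2 : 0 < Real.log 2 := Real.log_pos (by norm_num)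
  refine ⟨6 * (1 + C / Real.log 2), ?_, fun P g hP hg y hy => ?_⟩
  · have : 0 ≤ C / Real.log 2 := by positivity
    linarith
  rcases lt_or_ge y 2 with h2 | h2
  · have : P.filter (fun p : ℕ => (p : ℝ) ≤ y) = ∅ := by
      rw [Finset.filter_eq_empty_iff]
      intro p hp h
      have : (2 : ℝ) ≤ p := by exact_mod_cast (hP p hp).two_le
      linarith
    rw [this, Finset.sum_empty]
    have : 0 < Real.log y := Real.log_pos hy
    positivity
  · have hfl : 0 < ⌊y⌋₊ := Nat.floor_pos.2 (by linarith)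
    have h1 := (abs_le.1 (hC ⌊y⌋₊ hfl)).2
    have hly : Real.log ⌊y⌋₊ ≤ Real.log y :=
      Real.log_le_log (by exact_mod_cast hfl) (Nat.floor_le (by linarith))
    have hly2 : Real.log 2 ≤ Real.log y := Real.log_le_log (by norm_num) h2
    calc ∑ p ∈ P.filter (fun p : ℕ => (p : ℝ) ≤ y), g p * Real.log p
        ≤ ∑ p ∈ P.filter (fun p : ℕ => (p : ℝ) ≤ y), 6 * (Real.log p / p) := by
          refine Finset.sum_le_sum fun p hp => ?_
          rw [Finset.mem_filter] at hp
          have hlp : 0 ≤ Real.log p := Real.log_nonneg (by exact_mod_cast (hP p hp.1).one_lt.le)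
          calc g p * Real.log p ≤ 6 / p * Real.log p := by
                have := hg p hp.1
                gcongr
            _ = 6 * (Real.log p / p) := by ring
      _ ≤ ∑ p ∈ (Ioc 0 ⌊y⌋₊).filter Nat.Prime, 6 * (Real.log p / p) := by
          apply Finset.sum_le_sum_of_subset_of_nonneg
          · intro p hp
            rw [Finset.mem_filter] at hp
            rw [Finset.mem_filter, Finset.mem_Ioc]
            exact ⟨⟨(hP p hp.1).pos, Nat.le_floor hp.2⟩, hP p hp.1⟩
          · intro p hp _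
            rw [Finset.mem_filter] at hp
            have : 0 ≤ Real.log p := Real.log_nonneg (by exact_mod_cast hp.2.one_lt.le)
            positivity
      _ = 6 * ∑ p ∈ (Ioc 0 ⌊y⌋₊).filter Nat.Prime, (Real.log p / p) := by rw [Finset.mul_sum]
      _ ≤ 6 * (Real.log y + C) := by linarith
      _ ≤ 6 * (1 + C / Real.log 2) * Real.log y := by
          have : C ≤ C / Real.log 2 * Real.log y := by
            rw [div_mul_eq_mul_div, le_div_iff₀ hl2]
            gcongr
          nlinarith

end Pool.Agent.Work.MP_2dba45_nt.VV
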