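import Mathlib
import Pool.Agent.Work.MP_2dba45_nt.BilDef

set_option autoImplicit false

namespace Pool.Agent.Work.MP_2dba45_nt.Bil

open Finset Pool.Agent.Work.MP_2dba45_nt.BilDef

/-- `e(x) = exp(2 π i x)` -/
noncomputable def ee (x : ℝ) : ℂ := Complex.exp ((2 * Real.pi * x : ℝ) * Complex.I)

theorem ee_zero : ee 0 = 1 := by simp [ee]

theorem ee_add (x y : ℝ) : ee (x + y) = ee x * ee y := by
  unfold ee
  rw [← Complex.exp_add]
  congr 1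
  push_cast
  ring

theorem norm_ee (x : ℝ) : ‖ee x‖ = 1 := by
  unfold ee
  exact Complex.norm_exp_ofReal_mul_I _

theorem ee_ne_zero (x : ℝ) : ee x ≠ 0 := by
  intro h
  have := norm_ee x
  rw [h] at this
  simp at this

theorem ee_neg (x : ℝ) : ee (-x) = (starRingEnd ℂ) (ee x) := by
  unfold ee
  rw [← Complex.exp_conj]
  congr 1
  rw [map_mul, Complex.conj_I, Complex.conj_ofReal]
  push_cast
  ring

theorem ee_neg_mul (x : ℝ) : ee (-x) * ee x = 1 := by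
  rw [← ee_add]
  simp [ee_zero]

theorem ee_int (k : ℤ) : ee k = 1 := by
  unfold ee
  rw [Complex.exp_eq_one_iff]
  refine ⟨k, ?_⟩
  push_cast
  ring

theorem ee_add_int (x : ℝ) (k : ℤ) : ee (x + k) = ee x := by
  rw [ee_add, ee_int, mul_one]

theorem ee_nat_mul (n : ℕ) (x : ℝ) : ee (n * x) = ee x ^ n := by
  induction n with
  | zero => simp [ee_zero]
  | succ n ih =>
    push_cast
    rw [add_mul, one_mul, ee_add, ih, pow_succ]

theorem ee_congr {x y : ℝ} (k : ℤ) (h : x - y = k) : ee x = ee y := by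
  have : x = y + k := by linarith
  rw [this, ee_add_int]

/-- `ee` at rationals with the same denominator depends only on the numerator mod `n` -/
theorem ee_div_congr {a b : ℤ} {n : ℕ} (hn : 0 < n) (h : a ≡ b [ZMOD n]) :
    ee ((a : ℝ) / n) = ee ((b : ℝ) / n) := by
  obtain ⟨k, hk⟩ := h.symm.dvd
  refine ee_congr k ?_
  have hn' : (n : ℝ) ≠ 0 := by positivity
  have : (a : ℝ) - b = n * k := by exact_mod_cast hk
  field_simp
  linarith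

/-- number of representations `n = N + 1 + i_1 + ... + i_j`, `0 ≤ i_t < K`, over `K ^ (j - 1)` -/
noncomputable def W (j K N n : ℕ) : ℝ :=
  (#{i : Fin j → Fin K | N + 1 + ∑ t, (i t : ℕ) = n} : ℝ) / (K : ℝ) ^ (j - 1)

/-- Fourier transform of the weight -/
noncomputable def What (j K N : ℕ) (θ : ℝ) : ℂ :=
  ∑ n ∈ Ioc N (2 * N), (W j K N n : ℂ) * ee (n * θ)

/-- nonzero frequencies `|h| ≤ H` -/
noncomputable def Hs (H : ℕ) : Finset ℤ := (Icc (-(H : ℤ)) H).erase 0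

theorem mem_Hs {H : ℕ} {h : ℤ} : h ∈ Hs H ↔ h ≠ 0 ∧ |h| ≤ H := by
  unfold Hs
  rw [mem_erase, mem_Icc, abs_le]

/-- the least natural number with the three given residues -/
noncomputable def nuS (m ω q σ r c : ℕ) : ℕ :=
  sInf {n : ℕ | n ≡ ω [MOD m] ∧ n ≡ σ [MOD q] ∧ n ≡ c [MOD r]}

theorem nuS_spec (m ω q σ r c : ℕ) (hmq : m.Coprime q) (hmr : (m * q).Coprime r) :
    nuS m ω q σ r c ≡ ω [MOD m] ∧ nuS m ω q σ r c ≡ σ [MOD q] ∧ nuS m ω q σ r c ≡ c [MOD r] := by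
  have hne : {n : ℕ | n ≡ ω [MOD m] ∧ n ≡ σ [MOD q] ∧ n ≡ c [MOD r]}.Nonempty := by
    have h1 := (Nat.chineseRemainder hmq ω σ).2
    have h2 := (Nat.chineseRemainder hmr (Nat.chineseRemainder hmq ω σ) c).2
    refine ⟨Nat.chineseRemainder hmr (Nat.chineseRemainder hmq ω σ) c, ?_, ?_, h2.2⟩
    · exact (h2.1.of_mul_right q).trans h1.1
    · exact (h2.1.of_mul_left m).trans h1.2
  exact Nat.sInf_mem hne

/-- the term attached to `(m, ω)` and `(q, σ, h)` -/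
noncomputable def X (j K N r c m ω q σ : ℕ) (h : ℤ) : ℂ :=
  1 / ((m : ℂ) * q * r) * What j K N (h / ((m : ℝ) * q * r)) *
    ee (-(h * nuS m ω q σ r c / ((m : ℝ) * q * r)))

/-- the root mod `x ^ 2 + y ^ 2` attached to the pair `(x, y)` -/
noncomputable def om (x y : ℕ) : ℕ := sInf {ν : ℕ | (x ^ 2 + y ^ 2) ∣ x + y * ν}

/-- the quotient `(x + y ν) / (x ^ 2 + y ^ 2)` -/
noncomputable def aa (x y q σ r c : ℕ) : ℕ :=
  (x + y * nuS (x ^ 2 + y ^ 2) (om x y) q σ r c) / (x ^ 2 + y ^ 2)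

/-- index set of the triples `(q, σ, h)` -/
noncomputable def TT (Q r H : ℕ) : Finset (ℕ × ℕ × ℤ) :=
  (Ico Q (2 * Q) ×ˢ range (2 * Q) ×ˢ Hs H).filter
    (fun t => Squarefree t.1 ∧ t.1.Coprime (2 * r) ∧ t.2.1 ∈ Rt t.1)

/-- the good primes -/
def P0 (y q₁ q₂ r : ℕ) (k : ℤ) : Finset ℕ :=
  (y * q₁ * q₂).primeFactors.filter
    (fun p => (y * q₁ * q₂).factorization p = 1 ∧ ¬ (p : ℤ) ∣ 2 * r * k)

/-- their product -/
def Q0 (y q₁ q₂ r : ℕ) (k : ℤ) : ℕ := ∏ p ∈ P0 y q₁ q₂ r k, p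

/-- the bad part of the modulus `lcm q₁ q₂ * y * r` -/
def RR (y q₁ q₂ r : ℕ) (k : ℤ) : ℕ := Nat.lcm q₁ q₂ * y * r / Q0 y q₁ q₂ r k

/-- local factor at `p` -/
noncomputable def loc (p : ℕ) (κ s : ℤ) (x : ℕ) : ℂ :=
  if (p : ℤ) ∣ ((x : ℤ) - s) * ((x : ℤ) + s) then 0
  else ee ((κ * ((((x : ℤ) - s : ℤ) : ZMod p)⁻¹.val : ℤ) : ℤ) / p)

/-- the arithmetic phase for fixed `y` -/
noncomputable def Phi (y q₁ σ₁ q₂ σ₂ r c : ℕ) (h₁ h₂ : ℤ) (x : ℕ) : ℂ :=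
  open Classical in
  if x.Coprime y ∧ (x ^ 2 + y ^ 2).Coprime (q₁ * q₂ * r) then
    ee (-(h₁ * aa x y q₁ σ₁ r c / ((q₁ : ℝ) * y * r)) + h₂ * aa x y q₂ σ₂ r c / ((q₂ : ℝ) * y * r))
  else 0

/-- the smooth factor for fixed `y` -/
noncomputable def FF (j K N y q₁ q₂ r : ℕ) (h₁ h₂ : ℤ) (x : ℕ) : ℂ :=
  1 / (((x : ℂ) ^ 2 + (y : ℂ) ^ 2) * q₁ * r) * What j K N (h₁ / (((x : ℝ) ^ 2 + (y : ℝ) ^ 2) * q₁ * r)) *
  (starRingEnd ℂ) (1 / (((x : ℂ) ^ 2 + (y : ℂ) ^ 2) * q₂ * r) *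
    What j K N (h₂ / (((x : ℝ) ^ 2 + (y : ℝ) ^ 2) * q₂ * r))) *
  ee (((h₁ : ℝ) / q₁ - h₂ / q₂) * x / (y * r * ((x : ℝ) ^ 2 + (y : ℝ) ^ 2)))

/-- variation norm on `[u, v]` -/
noncomputable def bv (F : ℕ → ℂ) (u v : ℕ) : ℝ := ‖F u‖ + ∑ x ∈ Ico u v, ‖F (x + 1) - F x‖

/-- the part of `y` made of the primes dividing `L` and of the primes with square dividing `y` -/
def y1 (L y : ℕ) : ℕ := ∏ p ∈ y.primeFactors.filter (fun p => p ∣ L ∨ p ^ 2 ∣ y), p ^ y.factorization p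

/-- Weil's bound for Kloosterman sums modulo primes -/
def WeilBound : Prop := ∀ p : ℕ, ∀ _ : Fact p.Prime, ∀ a b : ZMod p, b ≠ 0 →
  ‖∑ x ∈ (Finset.univ : Finset (ZMod p)).erase 0, (ZMod.stdAddChar (a * x + b * x⁻¹) : ℂ)‖
    ≤ 2 * Real.sqrt p

end Pool.Agent.Work.MP_2dba45_nt.Bil
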