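import Mathlib
import Pool.Agent.Work.MP_2dba45_nt.BilBase

/-!
MODULE W (weight). `W j K N n` = (number of `i ∈ [0,K)^j` with `N+1+Σ i = n`) / `K^(j-1)`.
-/

set_option autoImplicit false

namespace Pool.Agent.Work.MP_2dba45_nt.Bil

open Finset

theorem W_nonneg (j K N n : ℕ) : 0 ≤ W j K N n := by
  unfold W
  positivity

theorem W_le_one (j K N n : ℕ) (hj : 1 ≤ j) (hK : 1 ≤ K) : W j K N n ≤ 1 := by
  obtain ⟨j, rfl⟩ : ∃ k, j = k + 1 := ⟨j - 1, by omega⟩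
  have hK' : (0 : ℝ) < K := by exact_mod_cast hK
  unfold W
  rw [Nat.add_sub_cancel, div_le_one (by positivity)]
  have h1 : #{i : Fin (j + 1) → Fin K | N + 1 + ∑ t, (i t : ℕ) = n} ≤
      #(univ : Finset (Fin j → Fin K)) := by
    apply card_le_card_of_injOn (fun i => Fin.tail i) (fun _ _ => mem_coe.2 (mem_univ _))
    intro i hi i' hi' h
    rw [mem_coe, mem_filter] at hi hi'
    have h2 := hi.2
    have h3 := hi'.2
    rw [Fin.sum_univ_succ] at h2 h3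
    have h4 : ∑ t : Fin j, (i t.succ : ℕ) = ∑ t : Fin j, (i' t.succ : ℕ) :=
      sum_congr rfl fun t _ => by
        have := congrFun h t
        simp only [Fin.tail] at this
        rw [this]
    have h5 : i 0 = i' 0 := Fin.ext (by omega)
    rw [← Fin.cons_self_tail i, ← Fin.cons_self_tail i', h5]
    exact congrArg _ h
  have h2 : #(univ : Finset (Fin j → Fin K)) = K ^ j := by
    rw [card_univ, Fintype.card_fun, Fintype.card_fin, Fintype.card_fin]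
  rw [h2] at h1
  exact_mod_cast h1

theorem sum_lt_bound {j K N : ℕ} (hj : 1 ≤ j) (hjK : j * K ≤ N) (i : Fin j → Fin K) :
    N + 1 + ∑ t, (i t : ℕ) ≤ 2 * N := by
  have h1 : ∑ t, ((i t : ℕ) + 1) ≤ ∑ _t : Fin j, K := sum_le_sum fun t _ => (i t).2
  rw [sum_add_distrib, sum_const, sum_const, card_univ, Fintype.card_fin, smul_eq_mul, smul_eq_mul,
    mul_one] at h1
  omega

theorem W_support (j K N n : ℕ) (hj : 1 ≤ j) (hK : 1 ≤ K) (hjK : j * K ≤ N)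
    (hn : n ≤ N ∨ 2 * N < n) : W j K N n = 0 := by
  unfold W
  have h1 : (univ.filter fun i : Fin j → Fin K => N + 1 + ∑ t, (i t : ℕ) = n) = ∅ := by
    rw [filter_eq_empty_iff]
    intro i _ hi
    have := sum_lt_bound hj hjK i
    omega
  rw [h1]
  simp

theorem sum_fiber {j K N : ℕ} (hj : 1 ≤ j) (hjK : j * K ≤ N) {β : Type*} [AddCommMonoid β]
    (f : ℕ → β) :
    ∑ n ∈ Ioc N (2 * N), #{i : Fin j → Fin K | N + 1 + ∑ t, (i t : ℕ) = n} • f n =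
      ∑ i : Fin j → Fin K, f (N + 1 + ∑ t, (i t : ℕ)) := by
  have h1 : ∀ i ∈ (univ : Finset (Fin j → Fin K)), N + 1 + ∑ t, (i t : ℕ) ∈ Ioc N (2 * N) := by
    intro i _
    rw [mem_Ioc]
    have := sum_lt_bound hj hjK i
    omega
  rw [← sum_fiberwise_of_maps_to h1]
  refine sum_congr rfl fun n _ => ?_
  rw [← sum_const]
  refine sum_congr rfl fun i hi => ?_
  rw [(mem_filter.1 hi).2]

theorem sum_W (j K N : ℕ) (hj : 1 ≤ j) (hK : 1 ≤ K) (hjK : j * K ≤ N) :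
    ∑ n ∈ Ioc N (2 * N), W j K N n = K := by
  have h1 := sum_fiber (β := ℝ) hj hjK (fun _ => 1 / (K : ℝ) ^ (j - 1))
  have hK' : (0 : ℝ) < K := by exact_mod_cast hK
  have h2 : ∀ n ∈ Ioc N (2 * N), W j K N n =
      #{i : Fin j → Fin K | N + 1 + ∑ t, (i t : ℕ) = n} • (1 / (K : ℝ) ^ (j - 1)) := by
    intro n _
    unfold W
    rw [nsmul_eq_mul]
    ring
  rw [sum_congr rfl h2, h1, sum_const, card_univ, Fintype.card_fun, Fintype.card_fin,
    Fintype.card_fin, nsmul_eq_mul]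
  push_cast
  obtain ⟨j, rfl⟩ : ∃ k, j = k + 1 := ⟨j - 1, by omega⟩
  rw [Nat.add_sub_cancel, pow_succ]
  field_simp

theorem What_eq (j K N : ℕ) (hj : 1 ≤ j) (hK : 1 ≤ K) (hjK : j * K ≤ N) (θ : ℝ) :
    What j K N θ = ee ((N + 1) * θ) * (∑ i ∈ range K, ee (i * θ)) ^ j / (K : ℂ) ^ (j - 1) := by
  have h1 := sum_fiber (β := ℂ) hj hjK (fun n => 1 / (K : ℂ) ^ (j - 1) * ee (n * θ))
  have h2 : What j K N θ = ∑ n ∈ Ioc N (2 * N),
      #{i : Fin j → Fin K | N + 1 + ∑ t, (i t : ℕ) = n} • (1 / (K : ℂ) ^ (j - 1) * ee (n * θ)) := by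
    unfold What
    refine sum_congr rfl fun n _ => ?_
    unfold W
    rw [nsmul_eq_mul]
    push_cast
    ring
  rw [h2, h1]
  have h3 : (∑ i ∈ range K, ee (i * θ)) ^ j = ∑ i : Fin j → Fin K, ∏ t, ee ((i t : ℕ) * θ) := by
    rw [← Fin.sum_univ_eq_sum_range (fun i => ee (i * θ)) K]
    exact Fintype.sum_pow _ _
  rw [h3, mul_sum, sum_div]
  refine sum_congr rfl fun i _ => ?_
  have h4 : ee (((N + 1 + ∑ t, (i t : ℕ) : ℕ) : ℝ) * θ) =
      ee ((N + 1) * θ) * ∏ t, ee ((i t : ℕ) * θ) := by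
    push_cast
    rw [add_mul, ee_add]
    congr 1
    have h5 : ∀ s : Finset (Fin j), ee ((∑ t ∈ s, ((i t : ℕ) : ℝ)) * θ) =
        ∏ t ∈ s, ee ((i t : ℕ) * θ) := by
      intro s
      induction s using Finset.induction_on with
      | empty => simp [ee_zero]
      | insert a s ha ih => rw [sum_insert ha, prod_insert ha, add_mul, ee_add, ih]
    exact h5 univ
  rw [h4]
  ring

theorem norm_What_of_norm_sum {j K N : ℕ} (hj : 1 ≤ j) (hK : 1 ≤ K) (hjK : j * K ≤ N) {θ B : ℝ}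
    (hB : ‖∑ i ∈ range K, ee (i * θ)‖ ≤ B) : ‖What j K N θ‖ ≤ B ^ j / (K : ℝ) ^ (j - 1) := by
  rw [What_eq j K N hj hK hjK, norm_div, norm_mul, norm_ee, one_mul, norm_pow, norm_pow,
    Complex.norm_natCast]
  have hK' : (0 : ℝ) < K := by exact_mod_cast hK
  gcongr

theorem norm_What_le (j K N : ℕ) (hj : 1 ≤ j) (hK : 1 ≤ K) (hjK : j * K ≤ N) (θ : ℝ) :
    ‖What j K N θ‖ ≤ K := by
  have h1 : ‖∑ i ∈ range K, ee (i * θ)‖ ≤ K := by
    calc ‖∑ i ∈ range K, ee (i * θ)‖ ≤ ∑ i ∈ range K, ‖ee (i * θ)‖ := norm_sum_le _ _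
      _ = K := by simp [norm_ee]
  have h2 := norm_What_of_norm_sum hj hK hjK h1
  have hK' : (0 : ℝ) < K := by exact_mod_cast hK
  refine h2.trans (le_of_eq ?_)
  obtain ⟨j, rfl⟩ : ∃ k, j = k + 1 := ⟨j - 1, by omega⟩
  rw [Nat.add_sub_cancel, pow_succ]
  field_simp

theorem norm_ee_sub_one (θ : ℝ) : ‖ee θ - 1‖ = 2 * |Real.sin (Real.pi * θ)| := by
  have h := Complex.norm_exp_I_mul_ofReal_sub_one (2 * Real.pi * θ)
  have h1 : ee θ = Complex.exp (Complex.I * ((2 * Real.pi * θ : ℝ) : ℂ)) := by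
    unfold ee
    rw [mul_comm]
  rw [h1, h, Real.norm_eq_abs, abs_mul, abs_two]
  congr 3
  ring

theorem four_mul_le_norm {θ : ℝ} (h : |θ| ≤ 1 / 2) : 4 * |θ| ≤ ‖ee θ - 1‖ := by
  rw [norm_ee_sub_one]
  have hpi := Real.pi_pos
  have h1 : |Real.sin (Real.pi * θ)| = Real.sin (Real.pi * |θ|) := by
    rcases le_or_gt 0 θ with h0 | h0
    · rw [abs_of_nonneg h0] at h ⊢
      exact abs_of_nonneg (Real.sin_nonneg_of_nonneg_of_le_pi (by positivity) (by nlinarith))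
    · rw [abs_of_neg h0] at h ⊢
      have h2 : 0 ≤ Real.sin (Real.pi * -θ) :=
        Real.sin_nonneg_of_nonneg_of_le_pi (mul_nonneg hpi.le (by linarith)) (by nlinarith)
      rw [← abs_of_nonneg h2, mul_neg, Real.sin_neg, abs_neg]
  rw [h1]
  have h2 := Real.mul_le_sin (x := Real.pi * |θ|) (by positivity) (by nlinarith [abs_nonneg θ])
  have h3 : 2 / Real.pi * (Real.pi * |θ|) = 2 * |θ| := by field_simp
  rw [h3] at h2
  linarith

theorem norm_geom_le {K : ℕ} {θ : ℝ} (h0 : θ ≠ 0) (h : |θ| ≤ 1 / 2) :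
    ‖∑ i ∈ range K, ee (i * θ)‖ ≤ 1 / (2 * |θ|) := by
  have h1 := four_mul_le_norm h
  have hpos : 0 < |θ| := abs_pos.2 h0
  have hne : ee θ ≠ 1 := by
    intro hc
    rw [hc, sub_self, norm_zero] at h1
    linarith
  have h2 : ∑ i ∈ range K, ee (i * θ) = (ee θ ^ K - 1) / (ee θ - 1) := by
    simp_rw [ee_nat_mul]
    exact geom_sum_eq hne K
  rw [h2, norm_div, div_le_div_iff₀ (by linarith) (by positivity)]
  have h3 : ‖ee θ ^ K - 1‖ ≤ 2 := by
    calc ‖ee θ ^ K - 1‖ ≤ ‖ee θ ^ K‖ + ‖(1 : ℂ)‖ := norm_sub_le _ _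
      _ = 2 := by rw [norm_pow, norm_ee, one_pow, norm_one]; norm_num
  nlinarith

theorem norm_What_le_pow (j K N : ℕ) (hj : 1 ≤ j) (hK : 1 ≤ K) (hjK : j * K ≤ N) (D : ℕ)
    (hD : 0 < D) (h : ℤ) (h0 : h ≠ 0) (h2 : 2 * |h| ≤ D) :
    ‖What j K N ((h : ℝ) / D)‖ ≤ K * ((D : ℝ) / (2 * K * |(h : ℝ)|)) ^ j := by
  have hK' : (0 : ℝ) < K := by exact_mod_cast hK
  have hD' : (0 : ℝ) < D := by exact_mod_cast hD
  have hh : (0 : ℝ) < |(h : ℝ)| := abs_pos.2 (by exact_mod_cast h0)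
  have h2' : 2 * |(h : ℝ)| ≤ D := by exact_mod_cast h2
  have habs : |(h : ℝ) / D| = |(h : ℝ)| / D := by rw [abs_div, abs_of_pos hD']
  have h3 : ‖∑ i ∈ range K, ee (i * ((h : ℝ) / D))‖ ≤ 1 / (2 * |(h : ℝ) / D|) := by
    apply norm_geom_le
    · exact div_ne_zero (by exact_mod_cast h0) hD'.ne'
    · rw [habs, div_le_div_iff₀ hD' (by norm_num)]
      linarith
  have h4 := norm_What_of_norm_sum hj hK hjK h3
  refine h4.trans (le_of_eq ?_)
  rw [habs]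
  obtain ⟨j, rfl⟩ : ∃ k, j = k + 1 := ⟨j - 1, by omega⟩
  rw [Nat.add_sub_cancel]
  have h5 : 1 / (2 * (|(h : ℝ)| / D)) = (D : ℝ) / (2 * |(h : ℝ)|) := by field_simp
  have h6 : (D : ℝ) / (2 * K * |(h : ℝ)|) = (D : ℝ) / (2 * |(h : ℝ)|) / K := by
    field_simp
  rw [h5, h6, div_pow _ (K : ℝ), pow_succ (K : ℝ)]
  field_simp

end Pool.Agent.Work.MP_2dba45_nt.Bil
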