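import Mathlib
import Pool.Agent.Work.MP_2dba45_nt.BilW

/-!
MODULE F (Fourier inversion on residue classes, truncation).
-/

set_option autoImplicit false

namespace Pool.Agent.Work.MP_2dba45_nt.Bil

open Finset

/-- orthogonality on `D` consecutive integers -/
theorem orth_F (D : ℕ) (hD : 0 < D) (u x : ℤ) :
    ∑ h ∈ Ico u (u + D), ee ((h : ℝ) * ((x : ℝ) / D)) = if (D : ℤ) ∣ x then (D : ℂ) else 0 := by
  have hD' : (D : ℝ) ≠ 0 := by positivity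
  have h1 : ∑ h ∈ Ico u (u + D), ee ((h : ℝ) * ((x : ℝ) / D)) =
      ∑ i ∈ range D, ee ((u : ℝ) * ((x : ℝ) / D)) * ee ((x : ℝ) / D) ^ i := by
    have h2 : Ico u (u + D) = (range D).image (fun i : ℕ => u + i) := by
      ext h
      rw [mem_Ico, mem_image]
      constructor
      · intro hh
        refine ⟨(h - u).toNat, ?_, ?_⟩
        · rw [mem_range]; omega
        · omega
      · rintro ⟨i, hi, rfl⟩
        rw [mem_range] at hi
        omega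
    rw [h2, sum_image (fun a _ b _ hab => by simpa using hab)]
    refine sum_congr rfl fun i _ => ?_
    rw [← ee_nat_mul, ← ee_add]
    congr 1
    push_cast
    ring
  rw [h1, ← mul_sum]
  split_ifs with h
  · obtain ⟨k, rfl⟩ := h
    have h3 : (((D : ℤ) * k : ℤ) : ℝ) / D = (k : ℝ) := by
      push_cast
      field_simp
    rw [h3, ee_int]
    have h4 : ee ((u : ℝ) * (k : ℝ)) = 1 := by
      rw [← ee_int (u * k)]
      push_cast
      rfl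
    rw [h4]
    simp
  · have h3 : ee ((x : ℝ) / D) ≠ 1 := by
      intro hc
      unfold ee at hc
      rw [Complex.exp_eq_one_iff] at hc
      obtain ⟨k, hk⟩ := hc
      apply h
      refine ⟨k, ?_⟩
      have h4 : (2 * Real.pi * ((x : ℝ) / D) : ℝ) = (k : ℝ) * (2 * Real.pi) := by
        have h5 := congrArg Complex.im hk
        simpa using h5
      have h6 : (x : ℝ) / D = k := by
        have hpi := Real.pi_ne_zero
        field_simp at h4 ⊢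
        linarith
      rw [div_eq_iff hD'] at h6
      have h7 : (x : ℝ) = ((D : ℤ) * k : ℤ) := by
        rw [h6]; push_cast; ring
      exact_mod_cast h7
    have h4 : ee ((x : ℝ) / D) ^ D = 1 := by
      rw [← ee_nat_mul, ← ee_int x]
      congr 1
      field_simp
    rw [geom_sum_eq h3, h4, sub_self, zero_div, mul_zero]

theorem fourier_class (j K N D a : ℕ) (hD : 0 < D) :
    ((∑ n ∈ (Ioc N (2 * N)).filter (fun n => n ≡ a [MOD D]), W j K N n : ℝ) : ℂ) =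
      1 / (D : ℂ) * ∑ h ∈ Ico (-((D : ℤ) / 2)) ((D : ℤ) - (D : ℤ) / 2),
        What j K N ((h : ℝ) / D) * ee (-(h * a / (D : ℝ))) := by
  have hD' : (D : ℂ) ≠ 0 := by exact_mod_cast hD.ne'
  have h0 : (D : ℤ) - (D : ℤ) / 2 = -((D : ℤ) / 2) + D := by ring
  rw [h0]
  have h1 : ∀ h : ℤ, What j K N ((h : ℝ) / D) * ee (-(h * a / (D : ℝ))) =
      ∑ n ∈ Ioc N (2 * N), (W j K N n : ℂ) * ee ((h : ℝ) * (((n : ℤ) - (a : ℤ) : ℤ) / (D : ℝ))) := by
    intro h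
    unfold What
    rw [sum_mul]
    refine sum_congr rfl fun n _ => ?_
    rw [mul_assoc, ← ee_add]
    congr 2
    push_cast
    ring
  simp_rw [h1]
  rw [sum_comm]
  simp_rw [← mul_sum]
  rw [mul_sum, sum_filter]
  push_cast
  refine sum_congr rfl fun n _ => ?_
  have h2 := orth_F D hD (-((D : ℤ) / 2)) ((n : ℤ) - (a : ℤ))
  push_cast at h2 ⊢
  rw [h2]
  have h3 : n ≡ a [MOD D] ↔ (D : ℤ) ∣ (n : ℤ) - (a : ℤ) := by
    rw [← Int.natCast_modEq_iff, Int.modEq_comm, Int.modEq_iff_dvd]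
  by_cases h : (D : ℤ) ∣ (n : ℤ) - (a : ℤ)
  · rw [if_pos h, if_pos (h3.2 h)]
    field_simp
  · rw [if_neg h, if_neg (fun hc => h (h3.1 hc))]
    simp

theorem term_bound_F {j K N D : ℕ} (hj : 1 ≤ j) (hK : 1 ≤ K) (hjK : j * K ≤ N) (hD : 0 < D)
    {h : ℤ} (h0 : h ≠ 0) (hh : h ∈ Ico (-((D : ℤ) / 2)) ((D : ℤ) - (D : ℤ) / 2)) (a : ℕ) :
    ‖What j K N ((h : ℝ) / D) * ee (-(h * a / (D : ℝ)))‖ ≤
      K * ((D : ℝ) / (2 * K)) ^ j * (1 / |(h : ℝ)| ^ j) := by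
  rw [norm_mul, norm_ee, mul_one]
  rw [mem_Ico] at hh
  have h2 : 2 * |h| ≤ D := by
    rcases abs_cases h with ⟨h1, -⟩ | ⟨h1, -⟩ <;> rw [h1] <;> omega
  refine (norm_What_le_pow j K N hj hK hjK D hD h h0 h2).trans (le_of_eq ?_)
  rw [← div_div, div_pow _ (|(h : ℝ)|)]
  ring

theorem inv_pow_sum_F (j : ℕ) (hj : 2 ≤ j) (H B : ℕ) (hH : 1 ≤ H) :
    ∑ h ∈ Ioc H B, (1 : ℝ) / (h : ℝ) ^ j ≤ 1 / (H : ℝ) ^ (j - 1) := by
  have hstep : ∀ h : ℕ, 1 ≤ h → (1 : ℝ) / ((h + 1 : ℕ) : ℝ) ^ j ≤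
      1 / (h : ℝ) ^ (j - 1) - 1 / ((h + 1 : ℕ) : ℝ) ^ (j - 1) := by
    intro h hh
    obtain ⟨k, rfl⟩ : ∃ k, j = k + 2 := ⟨j - 2, by omega⟩
    have e : k + 2 - 1 = k + 1 := by omega
    rw [e]
    have hp : (0 : ℝ) < h := by exact_mod_cast hh
    have hp1 : (0 : ℝ) < ((h + 1 : ℕ) : ℝ) := by positivity
    have h1 : (h : ℝ) ^ (k + 1) * (((h + 1 : ℕ) : ℝ) + 1) ≤ ((h + 1 : ℕ) : ℝ) ^ (k + 2) := by
      have h2 : (h : ℝ) ^ k ≤ ((h + 1 : ℕ) : ℝ) ^ k := by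
        apply pow_le_pow_left₀ hp.le
        push_cast; linarith
      have h3 : (h : ℝ) * (((h + 1 : ℕ) : ℝ) + 1) ≤ ((h + 1 : ℕ) : ℝ) ^ 2 := by
        push_cast; nlinarith
      calc (h : ℝ) ^ (k + 1) * (((h + 1 : ℕ) : ℝ) + 1)
          = (h : ℝ) ^ k * ((h : ℝ) * (((h + 1 : ℕ) : ℝ) + 1)) := by ring
        _ ≤ ((h + 1 : ℕ) : ℝ) ^ k * ((h + 1 : ℕ) : ℝ) ^ 2 := by gcongr
        _ = ((h + 1 : ℕ) : ℝ) ^ (k + 2) := by ring
    rw [le_sub_iff_add_le, div_add_div _ _ (by positivity) (by positivity),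
      div_le_div_iff₀ (by positivity) (by positivity)]
    calc (1 * ((h + 1 : ℕ) : ℝ) ^ (k + 1) + ((h + 1 : ℕ) : ℝ) ^ (k + 2) * 1) * (h : ℝ) ^ (k + 1)
        = ((h + 1 : ℕ) : ℝ) ^ (k + 1) * ((h : ℝ) ^ (k + 1) * (((h + 1 : ℕ) : ℝ) + 1)) := by ring
      _ ≤ ((h + 1 : ℕ) : ℝ) ^ (k + 1) * ((h + 1 : ℕ) : ℝ) ^ (k + 2) := by gcongr
      _ = 1 * (((h + 1 : ℕ) : ℝ) ^ (k + 2) * ((h + 1 : ℕ) : ℝ) ^ (k + 1)) := by ring
  rcases Nat.lt_or_ge H B with h | h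
  · have key : ∀ B, H ≤ B → ∑ h ∈ Ioc H B, (1 : ℝ) / (h : ℝ) ^ j ≤
        1 / (H : ℝ) ^ (j - 1) - 1 / (B : ℝ) ^ (j - 1) := by
      intro B hB
      induction B, hB using Nat.le_induction with
      | base => simp
      | succ B hB ih =>
        rw [sum_Ioc_succ_top hB]
        have := hstep B (by omega)
        linarith
    have h1 := key B h.le
    have h2 : (0 : ℝ) ≤ 1 / (B : ℝ) ^ (j - 1) := by positivity
    linarith
  · rw [Ioc_eq_empty (by omega), sum_empty]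
    positivity

/-- sums over integers `|h| > H` of a function of `|h|` -/
theorem tail_F (j : ℕ) (hj : 2 ≤ j) (H : ℕ) (hH : 1 ≤ H) (s : Finset ℤ)
    (hs : ∀ h ∈ s, (H : ℤ) < |h|) :
    ∑ h ∈ s, (1 : ℝ) / |(h : ℝ)| ^ j ≤ 2 * (1 / (H : ℝ) ^ (j - 1)) := by
  obtain ⟨B, hB⟩ : ∃ B : ℕ, ∀ h ∈ s, |h| ≤ B := by
    refine ⟨∑ h ∈ s, h.natAbs, fun h hh => ?_⟩
    have h1 : h.natAbs ≤ ∑ h ∈ s, h.natAbs :=
      single_le_sum (f := fun h : ℤ => h.natAbs) (fun _ _ => Nat.zero_le _) hh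
    rw [Int.abs_eq_natAbs]
    exact_mod_cast h1
  have h1 : s ⊆ (Ioc H B).image (fun n : ℕ => (n : ℤ)) ∪ (Ioc H B).image (fun n : ℕ => -(n : ℤ)) := by
    intro h hh
    have h2 := hs h hh
    have h3 := hB h hh
    rw [mem_union, mem_image, mem_image]
    rcases le_or_gt 0 h with h4 | h4
    · left
      rw [abs_of_nonneg h4] at h2 h3
      exact ⟨h.toNat, by rw [mem_Ioc]; omega, by omega⟩
    · right
      rw [abs_of_neg h4] at h2 h3
      exact ⟨(-h).toNat, by rw [mem_Ioc]; omega, by omega⟩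
  have h5 := inv_pow_sum_F j hj H B hH
  calc ∑ h ∈ s, (1 : ℝ) / |(h : ℝ)| ^ j
      ≤ ∑ h ∈ (Ioc H B).image (fun n : ℕ => (n : ℤ)) ∪ (Ioc H B).image (fun n : ℕ => -(n : ℤ)),
        (1 : ℝ) / |(h : ℝ)| ^ j := sum_le_sum_of_subset_of_nonneg h1 fun _ _ _ => by positivity
    _ ≤ ∑ h ∈ (Ioc H B).image (fun n : ℕ => (n : ℤ)), (1 : ℝ) / |(h : ℝ)| ^ j +
        ∑ h ∈ (Ioc H B).image (fun n : ℕ => -(n : ℤ)), (1 : ℝ) / |(h : ℝ)| ^ j := by
        rw [← sum_union_inter]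
        have : (0 : ℝ) ≤ ∑ h ∈ (Ioc H B).image (fun n : ℕ => (n : ℤ)) ∩
            (Ioc H B).image (fun n : ℕ => -(n : ℤ)), (1 : ℝ) / |(h : ℝ)| ^ j :=
          sum_nonneg fun _ _ => by positivity
        linarith
    _ = ∑ n ∈ Ioc H B, (1 : ℝ) / (n : ℝ) ^ j + ∑ n ∈ Ioc H B, (1 : ℝ) / (n : ℝ) ^ j := by
        rw [sum_image (fun a _ b _ hab => by simpa using hab),
          sum_image (fun a _ b _ hab => by simpa using hab)]
        congr 1 <;> refine sum_congr rfl fun n _ => ?_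
        · simp
        · simp
    _ ≤ _ := by linarith

theorem all_F (j : ℕ) (hj : 2 ≤ j) (s : Finset ℤ) (hs : ∀ h ∈ s, h ≠ 0) :
    ∑ h ∈ s, (1 : ℝ) / |(h : ℝ)| ^ j ≤ 4 := by
  rw [← sum_filter_add_sum_filter_not s (fun h => (1 : ℤ) < |h|)]
  have h1 : ∑ h ∈ s.filter (fun h => (1 : ℤ) < |h|), (1 : ℝ) / |(h : ℝ)| ^ j ≤ 2 :=
    (tail_F j hj 1 le_rfl (s.filter fun h => (1 : ℤ) < |h|)
      (fun h hh => by simpa using (mem_filter.1 hh).2)).trans (by norm_num)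
  have h2 : ∑ h ∈ s.filter (fun h => ¬ (1 : ℤ) < |h|), (1 : ℝ) / |(h : ℝ)| ^ j ≤ 2 := by
    have h3 : s.filter (fun h => ¬ (1 : ℤ) < |h|) ⊆ ({1, -1} : Finset ℤ) := by
      intro h hh
      rw [mem_filter] at hh
      have h4 := hs h hh.1
      have h5 := hh.2
      rw [mem_insert, mem_singleton]
      rcases abs_cases h with ⟨h6, h7⟩ | ⟨h6, h7⟩ <;> rw [h6] at h5 <;> omega
    calc ∑ h ∈ s.filter (fun h => ¬ (1 : ℤ) < |h|), (1 : ℝ) / |(h : ℝ)| ^ j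
        ≤ ∑ h ∈ ({1, -1} : Finset ℤ), (1 : ℝ) / |(h : ℝ)| ^ j :=
          sum_le_sum_of_subset_of_nonneg h3 fun _ _ _ => by positivity
      _ = 2 := by
          rw [sum_insert (by decide), sum_singleton]
          norm_num
  linarith

theorem What_zero_F (j K N : ℕ) (hj : 1 ≤ j) (hK : 1 ≤ K) (hjK : j * K ≤ N) :
    What j K N 0 = K := by
  unfold What
  have h1 : ∀ n ∈ Ioc N (2 * N), (W j K N n : ℂ) * ee (n * 0) = ((W j K N n : ℝ) : ℂ) := by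
    intro n _
    rw [mul_zero, ee_zero, mul_one]
  rw [sum_congr rfl h1, ← Complex.ofReal_sum, sum_W j K N hj hK hjK]
  simp

theorem trunc (j K N D a H : ℕ) (hj : 2 ≤ j) (hK : 1 ≤ K) (hjK : j * K ≤ N) (hD : 0 < D)
    (hH : 1 ≤ H) (h2 : 2 * H < D) :
    ‖((∑ n ∈ (Ioc N (2 * N)).filter (fun n => n ≡ a [MOD D]), W j K N n : ℝ) : ℂ) - K / D
      - 1 / (D : ℂ) * ∑ h ∈ Hs H, What j K N ((h : ℝ) / D) * ee (-(h * a / (D : ℝ)))‖
      ≤ ((D : ℝ) / (2 * K * H)) ^ (j - 1) := by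
  classical
  have hK' : (0 : ℝ) < K := by exact_mod_cast hK
  have hD' : (0 : ℝ) < D := by exact_mod_cast hD
  have hH' : (0 : ℝ) < H := by exact_mod_cast hH
  set I : Finset ℤ := Ico (-((D : ℤ) / 2)) ((D : ℤ) - (D : ℤ) / 2) with hI
  set f : ℤ → ℂ := fun h => What j K N ((h : ℝ) / D) * ee (-(h * a / (D : ℝ))) with hf
  have hsub : insert 0 (Hs H) ⊆ I := by
    intro h hh
    rw [mem_insert, mem_Hs] at hh
    rw [hI, mem_Ico]
    rcases hh with rfl | ⟨-, hh⟩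
    · constructor <;> omega
    · rw [abs_le] at hh
      constructor <;> omega
  have hsum : ∑ h ∈ I, f h = f 0 + ∑ h ∈ Hs H, f h + ∑ h ∈ I \ insert 0 (Hs H), f h := by
    rw [← sum_sdiff hsub, sum_insert (by rw [mem_Hs]; tauto)]
    ring
  have hf0 : f 0 = K := by
    simp only [hf]
    simp [What_zero_F j K N (by omega) hK hjK, ee_zero]
  have hDc : (D : ℂ) ≠ 0 := by exact_mod_cast hD.ne'
  rw [fourier_class j K N D a hD, ← hI]
  have hrest : 1 / (D : ℂ) * ∑ h ∈ I, f h - K / D - 1 / (D : ℂ) * ∑ h ∈ Hs H, f h =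
      1 / (D : ℂ) * ∑ h ∈ I \ insert 0 (Hs H), f h := by
    rw [hsum, hf0]
    ring
  show ‖1 / (D : ℂ) * ∑ h ∈ I, f h - K / D - 1 / (D : ℂ) * ∑ h ∈ Hs H, f h‖ ≤ _
  rw [hrest, norm_mul, norm_div, norm_one, Complex.norm_natCast]
  have hb : ‖∑ h ∈ I \ insert 0 (Hs H), f h‖ ≤
      K * ((D : ℝ) / (2 * K)) ^ j * (2 * (1 / (H : ℝ) ^ (j - 1))) := by
    calc ‖∑ h ∈ I \ insert 0 (Hs H), f h‖ ≤ ∑ h ∈ I \ insert 0 (Hs H), ‖f h‖ := norm_sum_le _ _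
      _ ≤ ∑ h ∈ I \ insert 0 (Hs H), K * ((D : ℝ) / (2 * K)) ^ j * (1 / |(h : ℝ)| ^ j) := by
          refine sum_le_sum fun h hh => ?_
          rw [mem_sdiff, mem_insert] at hh
          exact term_bound_F (by omega) hK hjK hD (fun hc => hh.2 (Or.inl hc)) hh.1 a
      _ = K * ((D : ℝ) / (2 * K)) ^ j * ∑ h ∈ I \ insert 0 (Hs H), (1 / |(h : ℝ)| ^ j) := by
          rw [mul_sum]
      _ ≤ _ := by
          apply mul_le_mul_of_nonneg_left _ (by positivity)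
          apply tail_F j hj H hH
          intro h hh
          rw [mem_sdiff, mem_insert, mem_Hs] at hh
          by_contra hc
          apply hh.2
          by_cases h0 : h = 0
          · exact Or.inl h0
          · exact Or.inr ⟨h0, not_lt.1 hc⟩
  calc 1 / (D : ℝ) * ‖∑ h ∈ I \ insert 0 (Hs H), f h‖
      ≤ 1 / (D : ℝ) * (K * ((D : ℝ) / (2 * K)) ^ j * (2 * (1 / (H : ℝ) ^ (j - 1)))) := by gcongr
    _ = ((D : ℝ) / (2 * K * H)) ^ (j - 1) := by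
        obtain ⟨k, rfl⟩ : ∃ k, j = k + 1 := ⟨j - 1, by omega⟩
        rw [Nat.add_sub_cancel, ← div_div (D : ℝ) (2 * K) H, div_pow _ (H : ℝ), pow_succ]
        field_simp

theorem trunc_zero (j K N D a : ℕ) (hj : 2 ≤ j) (hK : 1 ≤ K) (hjK : j * K ≤ N) (hD : 0 < D) :
    |(∑ n ∈ (Ioc N (2 * N)).filter (fun n => n ≡ a [MOD D]), W j K N n) - K / D|
      ≤ 2 * ((D : ℝ) / (2 * K)) ^ (j - 1) := by
  classical
  have hK' : (0 : ℝ) < K := by exact_mod_cast hK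
  have hD' : (0 : ℝ) < D := by exact_mod_cast hD
  set I : Finset ℤ := Ico (-((D : ℤ) / 2)) ((D : ℤ) - (D : ℤ) / 2) with hI
  set f : ℤ → ℂ := fun h => What j K N ((h : ℝ) / D) * ee (-(h * a / (D : ℝ))) with hf
  have h0I : (0 : ℤ) ∈ I := by
    rw [hI, mem_Ico]
    constructor <;> omega
  have hsum : ∑ h ∈ I, f h = f 0 + ∑ h ∈ I.erase 0, f h := by
    rw [add_sum_erase _ _ h0I]
  have hf0 : f 0 = K := by
    simp only [hf]
    simp [What_zero_F j K N (by omega) hK hjK, ee_zero]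
  have hDc : (D : ℂ) ≠ 0 := by exact_mod_cast hD.ne'
  have hrw : |(∑ n ∈ (Ioc N (2 * N)).filter (fun n => n ≡ a [MOD D]), W j K N n) - K / D| =
      ‖1 / (D : ℂ) * ∑ h ∈ I, f h - K / D‖ := by
    rw [← fourier_class j K N D a hD, ← Real.norm_eq_abs, ← Complex.norm_real]
    congr 1
    push_cast
    rfl
  have hrest : 1 / (D : ℂ) * ∑ h ∈ I, f h - K / D = 1 / (D : ℂ) * ∑ h ∈ I.erase 0, f h := by
    rw [hsum, hf0]
    ring
  rw [hrw, hrest, norm_mul, norm_div, norm_one, Complex.norm_natCast]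
  have hb : ‖∑ h ∈ I.erase 0, f h‖ ≤ K * ((D : ℝ) / (2 * K)) ^ j * 4 := by
    calc ‖∑ h ∈ I.erase 0, f h‖ ≤ ∑ h ∈ I.erase 0, ‖f h‖ := norm_sum_le _ _
      _ ≤ ∑ h ∈ I.erase 0, K * ((D : ℝ) / (2 * K)) ^ j * (1 / |(h : ℝ)| ^ j) := by
          refine sum_le_sum fun h hh => ?_
          rw [mem_erase] at hh
          exact term_bound_F (by omega) hK hjK hD hh.1 hh.2 a
      _ = K * ((D : ℝ) / (2 * K)) ^ j * ∑ h ∈ I.erase 0, (1 / |(h : ℝ)| ^ j) := by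
          rw [mul_sum]
      _ ≤ _ := by
          apply mul_le_mul_of_nonneg_left _ (by positivity)
          exact all_F j hj _ fun h hh => (mem_erase.1 hh).1
  calc 1 / (D : ℝ) * ‖∑ h ∈ I.erase 0, f h‖
      ≤ 1 / (D : ℝ) * (K * ((D : ℝ) / (2 * K)) ^ j * 4) := by gcongr
    _ = 2 * ((D : ℝ) / (2 * K)) ^ (j - 1) := by
        obtain ⟨k, rfl⟩ : ∃ k, j = k + 1 := ⟨j - 1, by omega⟩
        rw [Nat.add_sub_cancel, pow_succ]
        field_simp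
        ring

end Pool.Agent.Work.MP_2dba45_nt.Bil
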