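import Mathlib
import Pool.Agent.Work.MP_2dba45_nt.BilF

/-!
MODULE REM. `Rem` splits over the roots. `{n : n ≡ c (r), mq ∣ n²+1}` is the disjoint union over
`ω ∈ Rt m`, `σ ∈ Rt q` of the classes `n ≡ nuS m ω q σ r c (mod mqr)` (`ω = n % m`, `σ = n % q`;
`nuS_spec`; for coprime `m, q`: `mq ∣ n²+1 ↔ m ∣ n²+1 ∧ q ∣ n²+1`), and
`#(Rt (mq)) = #(Rt m) #(Rt q)`. Then apply `trunc`, `trunc_zero` with `D = m q r`
(note `m*q*r` casts; `X` is exactly `1/(mqr) What(h/(mqr)) ee(-h nuS/(mqr))`).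
-/

set_option autoImplicit false

namespace Pool.Agent.Work.MP_2dba45_nt.Bil

open Finset Pool.Agent.Work.MP_2dba45_nt.BilDef

namespace RemAux

theorem dvd_congr {m a b : ℕ} (h : a ≡ b [MOD m]) : m ∣ a ^ 2 + 1 ↔ m ∣ b ^ 2 + 1 := by
  have h1 : a ^ 2 + 1 ≡ b ^ 2 + 1 [MOD m] := Nat.ModEq.add_right 1 (h.pow 2)
  exact h1.dvd_iff (dvd_refl m)

theorem mod_mem_Rt {m n : ℕ} (hm : 1 ≤ m) (h : m ∣ n ^ 2 + 1) : n % m ∈ Rt m := by
  unfold Rt
  rw [mem_filter, mem_range]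
  exact ⟨Nat.mod_lt _ hm, (dvd_congr (Nat.mod_modEq n m)).2 h⟩

theorem mem_Rt {m ν : ℕ} : ν ∈ Rt m ↔ ν < m ∧ m ∣ ν ^ 2 + 1 := by
  unfold Rt
  rw [mem_filter, mem_range]

theorem card_Rt_mul (m q : ℕ) (hm : 1 ≤ m) (hq : 1 ≤ q) (hmq : m.Coprime q) :
    #(Rt (m * q)) = #(Rt m) * #(Rt q) := by
  rw [← card_product]
  refine card_bij (fun n _ => (n % m, n % q)) ?_ ?_ ?_
  · intro n hn
    rw [mem_Rt] at hn
    rw [mem_product]
    exact ⟨mod_mem_Rt hm ((dvd_mul_right m q).trans hn.2),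
      mod_mem_Rt hq ((dvd_mul_left q m).trans hn.2)⟩
  · intro a ha b hb hab
    rw [mem_Rt] at ha hb
    rw [Prod.mk.injEq] at hab
    have h1 : a ≡ b [MOD m * q] := (Nat.modEq_and_modEq_iff_modEq_mul hmq).1 hab
    exact h1.eq_of_lt_of_lt ha.1 hb.1
  · rintro ⟨ω, σ⟩ h
    rw [mem_product] at h
    obtain ⟨hω, hσ⟩ := h
    simp only at hω hσ
    rw [mem_Rt] at hω hσ
    have hc := (Nat.chineseRemainder hmq ω σ).2
    refine ⟨Nat.chineseRemainder hmq ω σ, ?_, ?_⟩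
    · rw [mem_Rt]
      refine ⟨Nat.chineseRemainder_lt_mul hmq ω σ (by omega) (by omega), ?_⟩
      exact hmq.mul_dvd_of_dvd_of_dvd ((dvd_congr hc.1).2 hω.2) ((dvd_congr hc.2).2 hσ.2)
    · ext
      · change (Nat.chineseRemainder hmq ω σ : ℕ) % m = ω
        rw [hc.1, Nat.mod_eq_of_lt hω.1]
      · change (Nat.chineseRemainder hmq ω σ : ℕ) % q = σ
        rw [hc.2, Nat.mod_eq_of_lt hσ.1]

theorem modEq_nuS_iff (m ω q σ r c n : ℕ) (hmq : m.Coprime q) (hmr : (m * q).Coprime r) :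
    n ≡ nuS m ω q σ r c [MOD m * q * r] ↔ n ≡ ω [MOD m] ∧ n ≡ σ [MOD q] ∧ n ≡ c [MOD r] := by
  obtain ⟨h1, h2, h3⟩ := nuS_spec m ω q σ r c hmq hmr
  rw [← Nat.modEq_and_modEq_iff_modEq_mul hmr, ← Nat.modEq_and_modEq_iff_modEq_mul hmq]
  constructor
  · rintro ⟨⟨a, b⟩, d⟩
    exact ⟨a.trans h1, b.trans h2, d.trans h3⟩
  · rintro ⟨a, b, d⟩
    exact ⟨⟨a.trans h1.symm, b.trans h2.symm⟩, d.trans h3.symm⟩

theorem sum_Rt (m n : ℕ) (hm : 1 ≤ m) (z : ℝ) :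
    ∑ ω ∈ Rt m, (if n ≡ ω [MOD m] then z else 0) = if m ∣ n ^ 2 + 1 then z else 0 := by
  by_cases h : m ∣ n ^ 2 + 1
  · rw [if_pos h]
    rw [sum_eq_single (n % m)]
    · rw [if_pos (Nat.mod_modEq n m).symm]
    · intro b hb hne
      rw [if_neg]
      intro hc
      apply hne
      rw [mem_Rt] at hb
      rw [hc, Nat.mod_eq_of_lt hb.1]
    · intro hc
      exact absurd (mod_mem_Rt hm h) hc
  · rw [if_neg h]
    refine sum_eq_zero fun ω hω => ?_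
    rw [if_neg]
    intro hc
    rw [mem_Rt] at hω
    exact h ((dvd_congr hc).2 hω.2)

end RemAux

theorem rem_eq (j K N m q r c : ℕ) (hj : 2 ≤ j) (hK : 1 ≤ K) (hjK : j * K ≤ N) (hm : 1 ≤ m)
    (hq : 1 ≤ q) (hr : 1 ≤ r) (hmq : m.Coprime q) (hmr : (m * q).Coprime r) :
    Rem (W j K N) N (m * q) r c = ∑ ω ∈ Rt m, ∑ σ ∈ Rt q,
      ((∑ n ∈ (Ioc N (2 * N)).filter (fun n => n ≡ nuS m ω q σ r c [MOD m * q * r]), W j K N n)
        - K / ((m : ℝ) * q * r)) := by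
  unfold Rem
  rw [sum_W j K N (by omega) hK hjK, RemAux.card_Rt_mul m q hm hq hmq]
  have h1 : ∑ ω ∈ Rt m, ∑ σ ∈ Rt q, ((∑ n ∈ (Ioc N (2 * N)).filter
      (fun n => n ≡ nuS m ω q σ r c [MOD m * q * r]), W j K N n) - K / ((m : ℝ) * q * r)) =
      (∑ ω ∈ Rt m, ∑ σ ∈ Rt q, (∑ n ∈ (Ioc N (2 * N)).filter
      (fun n => n ≡ nuS m ω q σ r c [MOD m * q * r]), W j K N n)) -
      (#(Rt m) : ℝ) * #(Rt q) * (K / ((m : ℝ) * q * r)) := by
    simp only [sum_sub_distrib, sum_const, nsmul_eq_mul]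
    ring
  rw [h1]
  have h2 : ∑ ω ∈ Rt m, ∑ σ ∈ Rt q, (∑ n ∈ (Ioc N (2 * N)).filter
      (fun n => n ≡ nuS m ω q σ r c [MOD m * q * r]), W j K N n) =
      ∑ n ∈ (Ioc N (2 * N)).filter (fun n => n ≡ c [MOD r] ∧ m * q ∣ n ^ 2 + 1), W j K N n := by
    simp only [sum_filter]
    have h3 : ∀ ω ∈ Rt m, ∑ σ ∈ Rt q, ∑ n ∈ Ioc N (2 * N),
        (if n ≡ nuS m ω q σ r c [MOD m * q * r] then W j K N n else 0) =
        ∑ n ∈ Ioc N (2 * N), if n ≡ ω [MOD m] then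
          (if q ∣ n ^ 2 + 1 then (if n ≡ c [MOD r] then W j K N n else 0) else 0) else 0 := by
      intro ω _
      rw [sum_comm]
      refine sum_congr rfl fun n _ => ?_
      rw [← RemAux.sum_Rt q n hq]
      by_cases hω : n ≡ ω [MOD m]
      · rw [if_pos hω]
        refine sum_congr rfl fun σ _ => ?_
        by_cases hσ : n ≡ σ [MOD q]
        · rw [if_pos hσ]
          by_cases hc : n ≡ c [MOD r]
          · rw [if_pos hc, if_pos ((RemAux.modEq_nuS_iff m ω q σ r c n hmq hmr).2 ⟨hω, hσ, hc⟩)]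
          · rw [if_neg hc, if_neg]
            exact fun h => hc ((RemAux.modEq_nuS_iff m ω q σ r c n hmq hmr).1 h).2.2
        · rw [if_neg hσ, if_neg]
          exact fun h => hσ ((RemAux.modEq_nuS_iff m ω q σ r c n hmq hmr).1 h).2.1
      · rw [if_neg hω]
        refine sum_eq_zero fun σ _ => ?_
        rw [if_neg]
        exact fun h => hω ((RemAux.modEq_nuS_iff m ω q σ r c n hmq hmr).1 h).1
    rw [sum_congr rfl h3, sum_comm]
    refine sum_congr rfl fun n _ => ?_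
    rw [RemAux.sum_Rt m n hm]
    by_cases hmn : m ∣ n ^ 2 + 1
    · by_cases hqn : q ∣ n ^ 2 + 1
      · have : m * q ∣ n ^ 2 + 1 := hmq.mul_dvd_of_dvd_of_dvd hmn hqn
        by_cases hc : n ≡ c [MOD r]
        · rw [if_pos hmn, if_pos hqn, if_pos hc, if_pos ⟨hc, this⟩]
        · rw [if_pos hmn, if_pos hqn, if_neg hc, if_neg]
          exact fun h => hc h.1
      · rw [if_pos hmn, if_neg hqn, if_neg]
        exact fun h => hqn ((dvd_mul_left q m).trans h.2)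
    · rw [if_neg hmn, if_neg]
      exact fun h => hmn ((dvd_mul_right m q).trans h.2)
  rw [h2]
  push_cast
  ring

theorem rem_trunc (j K N m q r c H : ℕ) (hj : 2 ≤ j) (hK : 1 ≤ K) (hjK : j * K ≤ N)
    (hm : 1 ≤ m) (hq : 1 ≤ q) (hr : 1 ≤ r) (hmq : m.Coprime q) (hmr : (m * q).Coprime r)
    (hH : 1 ≤ H) (h2 : 2 * H < m * q * r) :
    ‖(Rem (W j K N) N (m * q) r c : ℂ)
      - ∑ ω ∈ Rt m, ∑ σ ∈ Rt q, ∑ h ∈ Hs H, X j K N r c m ω q σ h‖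
      ≤ (#(Rt m) : ℝ) * #(Rt q) * ((m : ℝ) * q * r / (2 * K * H)) ^ (j - 1) := by
  rw [rem_eq j K N m q r c hj hK hjK hm hq hr hmq hmr]
  push_cast
  rw [← sum_sub_distrib]
  simp only [← sum_sub_distrib]
  have hterm : ∀ ω ∈ Rt m, ∀ σ ∈ Rt q,
      ‖((∑ n ∈ (Ioc N (2 * N)).filter (fun n => n ≡ nuS m ω q σ r c [MOD m * q * r]),
        (W j K N n : ℂ)) - (K : ℂ) / ((m : ℂ) * q * r)) -
        ∑ h ∈ Hs H, X j K N r c m ω q σ h‖ ≤ ((m : ℝ) * q * r / (2 * K * H)) ^ (j - 1) := by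
    intro ω _ σ _
    have h1 := trunc j K N (m * q * r) (nuS m ω q σ r c) H hj hK hjK
      (by positivity) hH h2
    push_cast at h1
    have h3 : ∑ h ∈ Hs H, X j K N r c m ω q σ h = 1 / ((m : ℂ) * q * r) * ∑ h ∈ Hs H,
        What j K N ((h : ℝ) / ((m : ℝ) * q * r)) *
          ee (-(h * (nuS m ω q σ r c : ℝ) / ((m : ℝ) * q * r))) := by
      rw [mul_sum]
      refine sum_congr rfl fun h _ => ?_
      unfold X
      ring
    rw [h3]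
    exact h1
  calc ‖∑ ω ∈ Rt m, ∑ σ ∈ Rt q, (((∑ n ∈ (Ioc N (2 * N)).filter
        (fun n => n ≡ nuS m ω q σ r c [MOD m * q * r]),
        (W j K N n : ℂ)) - (K : ℂ) / ((m : ℂ) * q * r)) -
        ∑ h ∈ Hs H, X j K N r c m ω q σ h)‖
      ≤ ∑ ω ∈ Rt m, ∑ σ ∈ Rt q, ((m : ℝ) * q * r / (2 * K * H)) ^ (j - 1) := by
        refine (norm_sum_le _ _).trans (sum_le_sum fun ω hω => ?_)
        exact (norm_sum_le _ _).trans (sum_le_sum fun σ hσ => hterm ω hω σ hσ)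
    _ = (#(Rt m) : ℝ) * #(Rt q) * ((m : ℝ) * q * r / (2 * K * H)) ^ (j - 1) := by
        simp only [sum_const, nsmul_eq_mul]
        ring

theorem rem_small (j K N m q r c : ℕ) (hj : 2 ≤ j) (hK : 1 ≤ K) (hjK : j * K ≤ N) (hm : 1 ≤ m)
    (hq : 1 ≤ q) (hr : 1 ≤ r) (hmq : m.Coprime q) (hmr : (m * q).Coprime r) :
    |Rem (W j K N) N (m * q) r c|
      ≤ (#(Rt m) : ℝ) * #(Rt q) * (2 * ((m : ℝ) * q * r / (2 * K)) ^ (j - 1)) := by
  rw [rem_eq j K N m q r c hj hK hjK hm hq hr hmq hmr]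
  have hterm : ∀ ω ∈ Rt m, ∀ σ ∈ Rt q,
      |(∑ n ∈ (Ioc N (2 * N)).filter (fun n => n ≡ nuS m ω q σ r c [MOD m * q * r]), W j K N n)
        - K / ((m : ℝ) * q * r)| ≤ 2 * ((m : ℝ) * q * r / (2 * K)) ^ (j - 1) := by
    intro ω _ σ _
    have h1 := trunc_zero j K N (m * q * r) (nuS m ω q σ r c) hj hK hjK (by positivity)
    push_cast at h1
    exact h1
  calc |∑ ω ∈ Rt m, ∑ σ ∈ Rt q,
      ((∑ n ∈ (Ioc N (2 * N)).filter (fun n => n ≡ nuS m ω q σ r c [MOD m * q * r]), W j K N n)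
        - K / ((m : ℝ) * q * r))|
      ≤ ∑ ω ∈ Rt m, ∑ σ ∈ Rt q, (2 * ((m : ℝ) * q * r / (2 * K)) ^ (j - 1)) := by
        refine (abs_sum_le_sum_abs _ _).trans (sum_le_sum fun ω hω => ?_)
        exact (abs_sum_le_sum_abs _ _).trans (sum_le_sum fun σ hσ => hterm ω hω σ hσ)
    _ = (#(Rt m) : ℝ) * #(Rt q) * (2 * ((m : ℝ) * q * r / (2 * K)) ^ (j - 1)) := by
        simp only [sum_const, nsmul_eq_mul]
        ring

end Pool.Agent.Work.MP_2dba45_nt.Bil
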