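import Mathlib

/-!
MODULE CS (abstract Cauchy-Schwarz and expansion of the square).
-/

set_option autoImplicit false

namespace Pool.Agent.Work.MP_2dba45_nt.Bil

open Finset

theorem cs_expand {ι κ τ : Type*} (S : Finset ι) (Ω : ι → Finset κ) (T : Finset τ)
    (P : ι → τ → Prop) [∀ m, DecidablePred (P m)] (b : τ → ℂ) (hb : ∀ t, ‖b t‖ ≤ 1)
    (X : ι → κ → τ → ℂ) :
    (∑ m ∈ S, ‖∑ t ∈ T.filter (P m), b t * ∑ ω ∈ Ω m, X m ω t‖) ^ 2 ≤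
      (∑ m ∈ S, (#(Ω m) : ℝ)) * ∑ t₁ ∈ T, ∑ t₂ ∈ T,
        ‖∑ m ∈ S.filter (fun m => P m t₁ ∧ P m t₂), ∑ ω ∈ Ω m,
          X m ω t₁ * (starRingEnd ℂ) (X m ω t₂)‖ := by
  classical
  let z : ι → κ → ℂ := fun m ω => ∑ t ∈ T, if P m t then b t * X m ω t else 0
  have h1 : ∑ m ∈ S, ‖∑ t ∈ T.filter (P m), b t * ∑ ω ∈ Ω m, X m ω t‖ ≤
      ∑ p ∈ S.sigma Ω, 1 * ‖z p.1 p.2‖ := by
    rw [sum_sigma]
    refine sum_le_sum fun m _ => ?_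
    have h2 : ∑ t ∈ T.filter (P m), b t * ∑ ω ∈ Ω m, X m ω t = ∑ ω ∈ Ω m, z m ω := by
      simp only [z]
      rw [sum_comm, sum_filter]
      refine sum_congr rfl fun t _ => ?_
      split_ifs with h
      · rw [mul_sum]
      · rw [sum_const_zero]
    rw [h2]
    simp only [one_mul]
    exact norm_sum_le _ _
  have h0 : 0 ≤ ∑ m ∈ S, ‖∑ t ∈ T.filter (P m), b t * ∑ ω ∈ Ω m, X m ω t‖ :=
    sum_nonneg fun _ _ => norm_nonneg _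
  have hcs := sum_mul_sq_le_sq_mul_sq (S.sigma Ω) (fun _ => (1 : ℝ)) (fun p => ‖z p.1 p.2‖)
  have hcard : ∑ p ∈ S.sigma Ω, (1 : ℝ) ^ 2 = ∑ m ∈ S, (#(Ω m) : ℝ) := by
    rw [sum_sigma]
    refine sum_congr rfl fun m _ => ?_
    simp
  have hexp : ((∑ p ∈ S.sigma Ω, ‖z p.1 p.2‖ ^ 2 : ℝ) : ℂ) = ∑ t₁ ∈ T, ∑ t₂ ∈ T,
      (b t₁ * (starRingEnd ℂ) (b t₂)) * ∑ m ∈ S.filter (fun m => P m t₁ ∧ P m t₂), ∑ ω ∈ Ω m,
          X m ω t₁ * (starRingEnd ℂ) (X m ω t₂) := by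
    push_cast
    have h3 : ∀ p ∈ S.sigma Ω, ((‖z p.1 p.2‖ : ℂ)) ^ 2 = ∑ t₁ ∈ T, ∑ t₂ ∈ T,
        (if P p.1 t₁ ∧ P p.1 t₂ then (b t₁ * (starRingEnd ℂ) (b t₂)) *
          (X p.1 p.2 t₁ * (starRingEnd ℂ) (X p.1 p.2 t₂)) else 0) := by
      intro p _
      rw [← Complex.mul_conj']
      simp only [z]
      rw [map_sum, sum_mul_sum]
      refine sum_congr rfl fun t₁ _ => sum_congr rfl fun t₂ _ => ?_
      by_cases h4 : P p.1 t₁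
      · by_cases h5 : P p.1 t₂
        · simp only [h4, h5, if_true, and_self, map_mul]
          ring
        · simp [h5]
      · simp [h4]
    rw [sum_congr rfl h3, sum_comm]
    refine sum_congr rfl fun t₁ _ => ?_
    rw [sum_comm]
    refine sum_congr rfl fun t₂ _ => ?_
    rw [sum_sigma, sum_filter, mul_sum]
    refine sum_congr rfl fun m _ => ?_
    by_cases h : P m t₁ ∧ P m t₂
    · simp only [h, and_self, if_true, mul_sum]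
    · simp only [h, if_false, sum_const_zero, mul_zero]
  have hle : ∑ p ∈ S.sigma Ω, ‖z p.1 p.2‖ ^ 2 ≤ ∑ t₁ ∈ T, ∑ t₂ ∈ T,
        ‖∑ m ∈ S.filter (fun m => P m t₁ ∧ P m t₂), ∑ ω ∈ Ω m,
          X m ω t₁ * (starRingEnd ℂ) (X m ω t₂)‖ := by
    have h4 : ∑ p ∈ S.sigma Ω, ‖z p.1 p.2‖ ^ 2 =
        ‖((∑ p ∈ S.sigma Ω, ‖z p.1 p.2‖ ^ 2 : ℝ) : ℂ)‖ := by
      rw [Complex.norm_real, Real.norm_of_nonneg (sum_nonneg fun _ _ => by positivity)]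
    rw [h4, hexp]
    refine (norm_sum_le _ _).trans (sum_le_sum fun t₁ _ => ?_)
    refine (norm_sum_le _ _).trans (sum_le_sum fun t₂ _ => ?_)
    rw [norm_mul, norm_mul, RCLike.norm_conj]
    have h5 : ‖b t₁‖ * ‖b t₂‖ ≤ 1 := mul_le_one₀ (hb t₁) (norm_nonneg _) (hb t₂)
    exact mul_le_of_le_one_left (norm_nonneg _) h5
  calc (∑ m ∈ S, ‖∑ t ∈ T.filter (P m), b t * ∑ ω ∈ Ω m, X m ω t‖) ^ 2
      ≤ (∑ p ∈ S.sigma Ω, 1 * ‖z p.1 p.2‖) ^ 2 := pow_le_pow_left₀ h0 h1 2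
    _ ≤ (∑ p ∈ S.sigma Ω, (1 : ℝ) ^ 2) * ∑ p ∈ S.sigma Ω, ‖z p.1 p.2‖ ^ 2 := hcs
    _ ≤ _ := by
        rw [hcard]
        exact mul_le_mul_of_nonneg_left hle (sum_nonneg fun _ _ => Nat.cast_nonneg _)

end Pool.Agent.Work.MP_2dba45_nt.Bil
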