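import Mathlib

/-!
MODULE BETA (integers composed of primes dividing `L`). Rankin: `1 ≤ (Y/t)^δ`, so the number is
`≤ Y^δ ∑_{t} t^{-δ} ≤ Y^δ ∏_{p ∣ L} (1 - p^{-δ})⁻¹`; `(1 - p^{-δ})⁻¹ ≤ 2 ≤ p^δ` if `p^δ ≥ 2`, the other
primes are `< 2^{1/δ}`: constant. The Euler product over a finite set of primes:
`EulerProduct`/`Nat.factoredNumbers`, or induct on the set of primes
(`t = p^a t'`). Any proof is fine.
-/

set_option autoImplicit false

namespace Pool.Agent.Work.MP_2dba45_nt.Bil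

open Finset

private noncomputable def betaF (δ : ℝ) : ℕ →* ℝ where
  toFun n := (n : ℝ) ^ (-δ)
  map_one' := by simp
  map_mul' m n := by
    push_cast
    exact Real.mul_rpow (Nat.cast_nonneg _) (Nat.cast_nonneg _)

private theorem betaF_apply (δ : ℝ) (n : ℕ) : betaF δ n = (n : ℝ) ^ (-δ) := rfl

private theorem beta_prime (δ : ℝ) (hδ : 0 < δ) (p : ℕ) (hp : p.Prime) :
    0 < (p : ℝ) ^ (-δ) ∧ (p : ℝ) ^ (-δ) < 1 := by
  have h2 : (1 : ℝ) < p := by exact_mod_cast hp.one_lt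
  exact ⟨Real.rpow_pos_of_pos (by linarith) _,
    Real.rpow_lt_one_of_one_lt_of_neg h2 (by linarith)⟩

/-- Rankin -/
private theorem beta_rankin (δ : ℝ) (hδ : 0 < δ) (Y L : ℕ) (hY : 1 ≤ Y) :
    (#((Icc 1 Y).filter (fun t => t.primeFactors ⊆ L.primeFactors)) : ℝ) ≤
      (Y : ℝ) ^ δ * ∏ p ∈ L.primeFactors, (1 - (p : ℝ) ^ (-δ))⁻¹ := by
  have hY0 : (0 : ℝ) < Y := by exact_mod_cast hY
  obtain ⟨h1, h2⟩ := EulerProduct.summable_and_hasSum_factoredNumbers_prod_filter_prime_geometric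
    (f := betaF δ) (fun {p} hp => by
      rw [betaF_apply, Real.norm_eq_abs, abs_of_pos (beta_prime δ hδ p hp).1]
      exact (beta_prime δ hδ p hp).2) L.primeFactors
  set S := (Icc 1 Y).filter (fun t => t.primeFactors ⊆ L.primeFactors) with hS
  have hfilt : (L.primeFactors.filter fun p => p.Prime) = L.primeFactors := by
    apply Finset.filter_true_of_mem
    intro p hp
    exact Nat.prime_of_mem_primeFactors hp
  have hmem : ∀ t ∈ S, t ∈ Nat.factoredNumbers L.primeFactors := by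
    intro t ht
    rw [hS, mem_filter, mem_Icc] at ht
    refine Nat.mem_factoredNumbers.2 ⟨by omega, fun p hp => ht.2 ?_⟩
    exact List.mem_toFinset.2 hp
  have h3 : ∑ t ∈ S, (t : ℝ) ^ (-δ) ≤ ∏ p ∈ L.primeFactors, (1 - (p : ℝ) ^ (-δ))⁻¹ := by
    rw [← Finset.sum_attach S]
    have h4 := sum_le_hasSum (S.attach.map ⟨fun t : S => (⟨t.1, hmem t.1 t.2⟩ :
        Nat.factoredNumbers L.primeFactors), fun a b hab => by
          apply Subtype.ext
          simpa using hab⟩) (fun m _ => by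
        rw [betaF_apply]
        positivity) h2
    rw [Finset.sum_map] at h4
    simp only [Function.Embedding.coeFn_mk, betaF_apply, hfilt] at h4
    exact h4
  have h5 : ∀ t ∈ S, (1 : ℝ) ≤ (Y : ℝ) ^ δ * (t : ℝ) ^ (-δ) := by
    intro t ht
    rw [hS, mem_filter, mem_Icc] at ht
    have ht0 : (0 : ℝ) < t := by exact_mod_cast (by omega : 0 < t)
    have htY : (t : ℝ) ≤ Y := by exact_mod_cast ht.1.2
    rw [Real.rpow_neg ht0.le, ← div_eq_mul_inv, one_le_div (Real.rpow_pos_of_pos ht0 _)]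
    exact Real.rpow_le_rpow ht0.le htY hδ.le
  calc (#S : ℝ) = ∑ t ∈ S, (1 : ℝ) := by simp
    _ ≤ ∑ t ∈ S, (Y : ℝ) ^ δ * (t : ℝ) ^ (-δ) := Finset.sum_le_sum h5
    _ = (Y : ℝ) ^ δ * ∑ t ∈ S, (t : ℝ) ^ (-δ) := by rw [Finset.mul_sum]
    _ ≤ _ := mul_le_mul_of_nonneg_left h3 (Real.rpow_nonneg hY0.le _)

theorem card_factored_le (δ : ℝ) (hδ : 0 < δ) : ∃ C : ℝ, 1 ≤ C ∧ ∀ Y L : ℕ, 1 ≤ Y → 1 ≤ L →
    (#((Icc 1 Y).filter (fun t => t.primeFactors ⊆ L.primeFactors)) : ℝ) ≤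
      C * ((Y : ℝ) * L) ^ δ := by
  set B : ℝ := (2 : ℝ) ^ (1 / δ) with hB
  set G : ℝ := (1 - (2 : ℝ) ^ (-δ))⁻¹ with hG
  have h2δ : (0 : ℝ) < (2 : ℝ) ^ (-δ) ∧ (2 : ℝ) ^ (-δ) < 1 := by
    have := beta_prime δ hδ 2 Nat.prime_two
    simpa using this
  have hG1 : 1 ≤ G := by
    rw [hG]
    exact one_le_inv_iff₀.2 ⟨by linarith, by linarith⟩
  refine ⟨G ^ ⌈B⌉₊, one_le_pow₀ hG1, fun Y L hY hL => ?_⟩
  have hY0 : (0 : ℝ) < Y := by exact_mod_cast hY
  have hL0 : (0 : ℝ) < L := by exact_mod_cast hL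
  refine (beta_rankin δ hδ Y L hY).trans ?_
  rw [Real.mul_rpow hY0.le hL0.le, mul_left_comm]
  refine mul_le_mul_of_nonneg_left ?_ (Real.rpow_nonneg hY0.le _)
  have key : ∀ p ∈ L.primeFactors, (1 - (p : ℝ) ^ (-δ))⁻¹ ≤
      (if (p : ℝ) < B then G else 1) * (p : ℝ) ^ δ := by
    intro p hp
    have hpp := Nat.prime_of_mem_primeFactors hp
    have hp2 : (2 : ℝ) ≤ p := by exact_mod_cast hpp.two_le
    have hp0 : (0 : ℝ) < p := by linarith
    have hpδ : 1 ≤ (p : ℝ) ^ δ := Real.one_le_rpow (by linarith) hδ.le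
    obtain ⟨ha, hb⟩ := beta_prime δ hδ p hpp
    split_ifs with h
    · have h1 : (p : ℝ) ^ (-δ) ≤ (2 : ℝ) ^ (-δ) :=
        Real.rpow_le_rpow_of_nonpos (by norm_num) hp2 (by linarith)
      have h3 : (1 - (p : ℝ) ^ (-δ))⁻¹ ≤ G := by
        rw [hG]
        exact inv_anti₀ (by linarith [h2δ.2]) (by linarith)
      calc (1 - (p : ℝ) ^ (-δ))⁻¹ ≤ G * 1 := by rw [mul_one]; exact h3
        _ ≤ G * (p : ℝ) ^ δ := mul_le_mul_of_nonneg_left hpδ (by linarith)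
    · rw [not_lt] at h
      have h3 : (2 : ℝ) ≤ (p : ℝ) ^ δ := by
        have h4 := Real.rpow_le_rpow (by positivity) h hδ.le
        rw [hB, ← Real.rpow_mul (by norm_num), one_div, inv_mul_cancel₀ hδ.ne', Real.rpow_one] at h4
        exact h4
      have h5 : (p : ℝ) ^ (-δ) ≤ 1 / 2 := by
        rw [Real.rpow_neg hp0.le, one_div]
        exact inv_anti₀ (by norm_num) h3
      have h6 : (1 - (p : ℝ) ^ (-δ))⁻¹ ≤ 2 := by
        have : (1 / 2 : ℝ) ≤ 1 - (p : ℝ) ^ (-δ) := by linarith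
        calc (1 - (p : ℝ) ^ (-δ))⁻¹ ≤ (1 / 2 : ℝ)⁻¹ := inv_anti₀ (by norm_num) this
          _ = 2 := by norm_num
      linarith
  have hpos : ∀ p ∈ L.primeFactors, 0 ≤ (1 - (p : ℝ) ^ (-δ))⁻¹ := by
    intro p hp
    have hpp := Nat.prime_of_mem_primeFactors hp
    obtain ⟨ha, hb⟩ := beta_prime δ hδ p hpp
    exact inv_nonneg.2 (by linarith)
  refine (Finset.prod_le_prod hpos key).trans ?_
  rw [Finset.prod_mul_distrib]
  refine mul_le_mul ?_ ?_ (Finset.prod_nonneg fun p _ => Real.rpow_nonneg (Nat.cast_nonneg _) _)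
    (by positivity)
  · rw [Finset.prod_ite, Finset.prod_const, Finset.prod_const_one, mul_one]
    refine pow_le_pow_right₀ hG1 ?_
    have hsub : (L.primeFactors.filter fun p : ℕ => (p : ℝ) < B) ⊆ Finset.range ⌈B⌉₊ := by
      intro p hp
      rw [mem_filter] at hp
      rw [Finset.mem_range]
      exact Nat.lt_ceil.2 hp.2
    exact (Finset.card_le_card hsub).trans (by rw [Finset.card_range])
  · have e : ∏ p ∈ L.primeFactors, ((p : ℕ) : ℝ) ^ δ = (((∏ p ∈ L.primeFactors, p : ℕ)) : ℝ) ^ δ := by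
      push_cast
      exact Real.finsetProd_rpow _ _ (fun p _ => Nat.cast_nonneg _) _
    rw [e]
    refine Real.rpow_le_rpow (Nat.cast_nonneg _) ?_ hδ.le
    exact_mod_cast Nat.le_of_dvd hL (Nat.prod_primeFactors_dvd L)

end Pool.Agent.Work.MP_2dba45_nt.Bil
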