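import Mathlib

/-!
MODULE BETB (squarefull integers). Every squarefull `s` is `a² b³` (`b` = product of the primes with
odd exponent); `∑ 1/√s ≤ ∑_{a,b ≤ Y} 1/(a b^{3/2}) ≤ (1 + log Y) · 3` (`∑_b b^{-3/2} ≤ 3`, e.g.
telescoping `b^{-3/2} ≤ 2/√(b-1) - 2/√b` for `b ≥ 2`).
-/

set_option autoImplicit false

namespace Pool.Agent.Work.MP_2dba45_nt.Bil

open Finset

private theorem betb_decomp (s : ℕ) (hs : 1 ≤ s) (h : ∀ p ∈ s.primeFactors, p ^ 2 ∣ s) :
    ∃ c a : ℕ, s = c ^ 2 * a ^ 3 ∧ 1 ≤ c ∧ 1 ≤ a := by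
  obtain ⟨a, b, hab, hsq⟩ := Nat.sq_mul_squarefree s
  have ha0 : a ≠ 0 := hsq.ne_zero
  have hb0 : b ≠ 0 := by
    rintro rfl
    simp at hab
    omega
  have hdvd : a ∣ b := by
    -- every prime factor of `a` divides `b`
    have hrad : ∀ p : ℕ, p.Prime → p ∣ a → p ∣ b := by
      intro p hp hpa
      have hps : p ∈ s.primeFactors := by
        rw [Nat.mem_primeFactors]
        exact ⟨hp, by rw [← hab]; exact hpa.mul_left _, by omega⟩
      have h2 := h p hps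
      by_contra hpb
      rw [← hab] at h2
      have hco : Nat.Coprime (p ^ 2) (b ^ 2) :=
        Nat.Coprime.pow _ _ ((Nat.Prime.coprime_iff_not_dvd hp).2 hpb)
      have h3 : p ^ 2 ∣ a := hco.dvd_of_dvd_mul_left h2
      have h4 := hsq p (by rwa [← sq])
      exact hp.one_lt.ne' (Nat.isUnit_iff.1 h4)
    rw [← Nat.prod_primeFactors_of_squarefree hsq]
    apply Finset.prod_primes_dvd
    · intro p hp
      exact (Nat.prime_of_mem_primeFactors hp).prime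
    · intro p hp
      exact hrad p (Nat.prime_of_mem_primeFactors hp) (Nat.dvd_of_mem_primeFactors hp)
  obtain ⟨c, rfl⟩ := hdvd
  refine ⟨c, a, ?_, ?_, by omega⟩
  · rw [← hab]
    ring
  · rcases Nat.eq_zero_or_pos c with rfl | h
    · simp at hb0
    · exact h

private theorem betb_cube (Y : ℕ) (hY : 1 ≤ Y) :
    ∑ b ∈ Icc 1 Y, 1 / ((b : ℝ) * Real.sqrt b) ≤ 3 - 2 / Real.sqrt Y := by
  induction Y, hY using Nat.le_induction with
  | base => simp; norm_num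
  | succ Y hY ih =>
    rw [Finset.sum_Icc_succ_top (by omega)]
    have hY0 : (0 : ℝ) < Y := by exact_mod_cast hY
    set u := Real.sqrt Y with hu
    set v := Real.sqrt ((Y + 1 : ℕ) : ℝ) with hv
    have hu0 : 0 < u := Real.sqrt_pos.2 hY0
    have hv0 : 0 < v := Real.sqrt_pos.2 (by positivity)
    have hu2 : u ^ 2 = Y := Real.sq_sqrt hY0.le
    have hv2 : v ^ 2 = ((Y + 1 : ℕ) : ℝ) := Real.sq_sqrt (by positivity)
    have huv : u ≤ v := Real.sqrt_le_sqrt (by push_cast; linarith)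
    have h1 : v ^ 2 - u ^ 2 = 1 := by rw [hu2, hv2]; push_cast; ring
    have key : 1 / (((Y + 1 : ℕ) : ℝ) * v) ≤ 2 / u - 2 / v := by
      rw [← hv2]
      have e : 2 / u - 2 / v = 2 / (u * v * (u + v)) := by
        have : v - u = 1 / (u + v) := by
          rw [eq_div_iff (by positivity)]
          nlinarith
        rw [div_sub_div _ _ hu0.ne' hv0.ne']
        rw [show 2 * v - u * 2 = 2 * (v - u) by ring, this]
        field_simp
      rw [e, div_le_div_iff₀ (by positivity) (by positivity)]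
      nlinarith [mul_nonneg hv0.le (sub_nonneg.2 huv), mul_pos hu0 hv0,
        mul_nonneg (mul_nonneg hv0.le hv0.le) (sub_nonneg.2 huv),
        mul_nonneg (mul_nonneg hu0.le hv0.le) (sub_nonneg.2 huv)]
    linarith

private theorem betb_harm (Y : ℕ) : ∑ a ∈ Icc 1 Y, 1 / (a : ℝ) ≤ 1 + Real.log Y := by
  have h := harmonic_le_one_add_log Y
  rw [harmonic_eq_sum_Icc] at h
  push_cast at h
  simpa [one_div] using h

theorem sum_squarefull_le (Y : ℕ) (hY : 1 ≤ Y) :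
    ∑ s ∈ (Icc 1 Y).filter (fun s => ∀ p ∈ s.primeFactors, p ^ 2 ∣ s), 1 / Real.sqrt s ≤
      3 * (1 + Real.log Y) := by
  set S := (Icc 1 Y).filter (fun s => ∀ p ∈ s.primeFactors, p ^ 2 ∣ s) with hS
  have hdec : ∀ s : ℕ, ∃ ca : ℕ × ℕ, s ∈ S → s = ca.1 ^ 2 * ca.2 ^ 3 ∧ 1 ≤ ca.1 ∧ 1 ≤ ca.2 := by
    intro s
    by_cases hs : s ∈ S
    · have hs' := hs
      rw [hS, mem_filter, mem_Icc] at hs'
      obtain ⟨c, a, h1, h2, h3⟩ := betb_decomp s hs'.1.1 hs'.2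
      exact ⟨(c, a), fun _ => ⟨h1, h2, h3⟩⟩
    · exact ⟨(0, 0), fun h => absurd h hs⟩
  choose φ hφ using hdec
  have hinj : Set.InjOn φ S := by
    intro s hs t ht hst
    have h1 := (hφ s hs).1
    have h2 := (hφ t ht).1
    rw [h1, h2, hst]
  have hsub : S.image φ ⊆ Icc 1 Y ×ˢ Icc 1 Y := by
    intro x hx
    rw [mem_image] at hx
    obtain ⟨s, hs, rfl⟩ := hx
    obtain ⟨h1, h2, h3⟩ := hφ s hs
    have hs' := hs
    rw [hS, mem_filter, mem_Icc] at hs'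
    rw [mem_product, mem_Icc, mem_Icc]
    have hc : (φ s).1 ≤ (φ s).1 ^ 2 * (φ s).2 ^ 3 := by
      calc (φ s).1 ≤ (φ s).1 ^ 2 := Nat.le_self_pow (by norm_num) _
        _ ≤ (φ s).1 ^ 2 * (φ s).2 ^ 3 := Nat.le_mul_of_pos_right _ (by positivity)
    have ha : (φ s).2 ≤ (φ s).1 ^ 2 * (φ s).2 ^ 3 := by
      calc (φ s).2 ≤ (φ s).2 ^ 3 := Nat.le_self_pow (by norm_num) _
        _ ≤ (φ s).1 ^ 2 * (φ s).2 ^ 3 := Nat.le_mul_of_pos_left _ (by positivity)
    omega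
  have hval : ∀ s ∈ S, 1 / Real.sqrt s =
      (fun x : ℕ × ℕ => 1 / (x.1 : ℝ) * (1 / ((x.2 : ℝ) * Real.sqrt x.2))) (φ s) := by
    intro s hs
    obtain ⟨h1, h2, h3⟩ := hφ s hs
    have hc0 : (0 : ℝ) ≤ (φ s).1 := Nat.cast_nonneg _
    have ha0 : (0 : ℝ) ≤ (φ s).2 := Nat.cast_nonneg _
    have e : Real.sqrt s = (φ s).1 * ((φ s).2 * Real.sqrt (φ s).2) := by
      conv_lhs => rw [h1]
      push_cast
      rw [Real.sqrt_mul (by positivity), Real.sqrt_sq hc0,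
        show ((φ s).2 : ℝ) ^ 3 = ((φ s).2 : ℝ) ^ 2 * (φ s).2 by ring, Real.sqrt_mul (by positivity),
        Real.sqrt_sq ha0]
    simp only
    rw [e, one_div_mul_one_div]
  rw [Finset.sum_congr rfl hval, ← Finset.sum_image (f := fun x : ℕ × ℕ =>
    1 / (x.1 : ℝ) * (1 / ((x.2 : ℝ) * Real.sqrt x.2))) hinj]
  refine (Finset.sum_le_sum_of_subset_of_nonneg hsub (fun x _ _ => by positivity)).trans ?_
  rw [Finset.sum_product]
  simp only
  simp_rw [← Finset.mul_sum]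
  rw [← Finset.sum_mul]
  have h1 := betb_harm Y
  have h2 := betb_cube Y hY
  have h3 : 0 ≤ 2 / Real.sqrt Y := by positivity
  have h4 : 0 ≤ ∑ b ∈ Icc 1 Y, 1 / ((b : ℝ) * Real.sqrt b) :=
    Finset.sum_nonneg fun b _ => by positivity
  have h5 : 0 ≤ 1 + Real.log Y := by
    have : 0 ≤ Real.log Y := Real.log_nonneg (by exact_mod_cast hY)
    linarith
  calc (∑ a ∈ Icc 1 Y, 1 / (a : ℝ)) * ∑ b ∈ Icc 1 Y, 1 / ((b : ℝ) * Real.sqrt b)
      ≤ (1 + Real.log Y) * 3 := mul_le_mul h1 (by linarith) h4 h5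
    _ = _ := by ring

end Pool.Agent.Work.MP_2dba45_nt.Bil
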