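import Mathlib
import Pool.Agent.Work.MP_2dba45_nt.BilBase
import Pool.Agent.Work.MP_2dba45_nt.BilBetA
import Pool.Agent.Work.MP_2dba45_nt.BilBetB

/-!
MODULE BET (sum over `y`).
-/

set_option autoImplicit false

namespace Pool.Agent.Work.MP_2dba45_nt.Bil

open Finset

/-- part of `y` made of the primes dividing `L` -/
private def bet_t (L y : ℕ) : ℕ := ∏ p ∈ y.primeFactors.filter (fun p => p ∣ L), p ^ y.factorization p

/-- squarefull part of `y` made of the primes not dividing `L` -/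
private def bet_s (L y : ℕ) : ℕ :=
  ∏ p ∈ y.primeFactors.filter (fun p => ¬ p ∣ L ∧ p ^ 2 ∣ y), p ^ y.factorization p

private theorem bet_mul (L y : ℕ) : y1 L y = bet_t L y * bet_s L y := by
  unfold y1 bet_t bet_s
  rw [← Finset.prod_union]
  · congr 1
    ext p
    simp only [mem_filter, mem_union]
    tauto
  · rw [Finset.disjoint_left]
    intro p h1 h2
    simp only [mem_filter] at h1 h2
    tauto

private theorem bet_dvd {L y : ℕ} (hy : y ≠ 0) : bet_t L y * bet_s L y ∣ y := by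
  rw [← bet_mul]
  conv_rhs => rw [← Nat.prod_factorization_pow_eq_self hy]
  unfold y1
  exact Finset.prod_dvd_prod_of_subset _ _ _ (filter_subset _ _)

private theorem bet_prod_ne {y : ℕ} (P : ℕ → Prop) [DecidablePred P] :
    ∏ p ∈ y.primeFactors.filter P, p ^ y.factorization p ≠ 0 := by
  rw [Finset.prod_ne_zero_iff]
  intro p hp
  exact pow_ne_zero _ (Nat.prime_of_mem_primeFactors (mem_filter.1 hp).1).ne_zero

private theorem bet_prime_dvd {y : ℕ} (P : ℕ → Prop) [DecidablePred P] {p : ℕ} (hp : p.Prime)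
    (h : p ∣ ∏ p ∈ y.primeFactors.filter P, p ^ y.factorization p) :
    p ∈ y.primeFactors.filter P := by
  obtain ⟨q, hq, hpq⟩ := (hp.prime.dvd_finsetProd_iff _).1 h
  have hqp := Nat.prime_of_mem_primeFactors (mem_filter.1 hq).1
  have := (Nat.prime_dvd_prime_iff_eq hp hqp).1 (hp.dvd_of_dvd_pow hpq)
  rwa [this]

private theorem bet_t_mem {L y Y : ℕ} (hL : 1 ≤ L) (hy : y ∈ Icc 1 Y) :
    bet_t L y ∈ (Icc 1 Y).filter (fun t => t.primeFactors ⊆ L.primeFactors) := by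
  rw [mem_Icc] at hy
  have hy0 : y ≠ 0 := by omega
  have hne : bet_t L y ≠ 0 := bet_prod_ne _
  refine mem_filter.2 ⟨mem_Icc.2 ⟨by omega, ?_⟩, ?_⟩
  · exact (Nat.le_of_dvd (by omega) ((Dvd.intro _ rfl).trans (bet_dvd (L := L) hy0))).trans hy.2
  · intro p hp
    rw [Nat.mem_primeFactors] at hp ⊢
    have := bet_prime_dvd _ hp.1 hp.2.1
    exact ⟨hp.1, (mem_filter.1 this).2, by omega⟩

private theorem bet_s_mem {L y Y : ℕ} (hy : y ∈ Icc 1 Y) :
    bet_s L y ∈ (Icc 1 Y).filter (fun s => ∀ p ∈ s.primeFactors, p ^ 2 ∣ s) := by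
  rw [mem_Icc] at hy
  have hy0 : y ≠ 0 := by omega
  have hne : bet_s L y ≠ 0 := bet_prod_ne _
  refine mem_filter.2 ⟨mem_Icc.2 ⟨by omega, ?_⟩, ?_⟩
  · exact (Nat.le_of_dvd (by omega) ((Dvd.intro_left _ rfl).trans (bet_dvd (L := L) hy0))).trans hy.2
  · intro p hp
    rw [Nat.mem_primeFactors] at hp
    have h1 := bet_prime_dvd _ hp.1 hp.2.1
    have h2 : p ^ 2 ∣ y := (mem_filter.1 h1).2.2
    have h3 : 2 ≤ y.factorization p := (hp.1.pow_dvd_iff_le_factorization hy0).1 h2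
    exact (pow_dvd_pow p h3).trans
      (Finset.dvd_prod_of_mem (fun p => p ^ y.factorization p) h1)

private theorem bet_gcd {L y q : ℕ} (hy : y ≠ 0) (hq : q ∣ L) : Nat.gcd q y ≤ bet_t L y := by
  have hne : bet_t L y ≠ 0 := bet_prod_ne _
  apply Nat.le_of_dvd (by omega)
  rw [← Nat.factorization_prime_le_iff_dvd (Nat.gcd_ne_zero_right hy) hne]
  intro p hp
  by_cases h : p ∣ Nat.gcd q y
  · have h1 : p ∣ L := (h.trans (Nat.gcd_dvd_left _ _)).trans hq
    have h2 : p ∣ y := h.trans (Nat.gcd_dvd_right _ _)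
    have h3 : p ^ y.factorization p ∣ bet_t L y :=
      Finset.dvd_prod_of_mem (fun p => p ^ y.factorization p)
        (mem_filter.2 ⟨Nat.mem_primeFactors.2 ⟨hp, h2, hy⟩, h1⟩)
    have h4 := (hp.pow_dvd_iff_le_factorization hne).1 h3
    have h5 : (Nat.gcd q y).factorization p ≤ y.factorization p :=
      (Nat.factorization_le_iff_dvd (Nat.gcd_ne_zero_right hy) hy).2 (Nat.gcd_dvd_right _ _) p
    omega
  · rw [Nat.factorization_eq_zero_of_not_dvd h]
    exact Nat.zero_le _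

private theorem bet_sum_inv_sqrt (K : ℕ) : ∑ k ∈ Icc 1 K, 1 / Real.sqrt k ≤ 2 * Real.sqrt K := by
  induction K with
  | zero => simp
  | succ K ih =>
    rw [Finset.sum_Icc_succ_top (by omega)]
    have h1 : 0 < Real.sqrt ((K : ℝ) + 1) := Real.sqrt_pos.2 (by positivity)
    have h2 : Real.sqrt K ≤ Real.sqrt ((K : ℝ) + 1) := Real.sqrt_le_sqrt (by linarith)
    have h3 : Real.sqrt ((K : ℝ) + 1) ^ 2 = K + 1 := Real.sq_sqrt (by positivity)
    have h4 : Real.sqrt (K : ℝ) ^ 2 = K := Real.sq_sqrt (by positivity)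
    have h5 : 1 / Real.sqrt ((K : ℝ) + 1) ≤ 2 * Real.sqrt ((K : ℝ) + 1) - 2 * Real.sqrt K := by
      rw [div_le_iff₀ h1]
      nlinarith [sq_nonneg (Real.sqrt ((K : ℝ) + 1) - Real.sqrt K)]
    push_cast
    linarith

private theorem bet_inner (Y t s : ℕ) (ht : 1 ≤ t) (hs : 1 ≤ s) :
    ∑ y ∈ (Icc 1 Y).filter (fun y => t * s ∣ y), Real.sqrt ((t : ℝ) * s * t / y) ≤
      2 * Real.sqrt Y * (1 / Real.sqrt s) := by
  have hd : 0 < t * s := by positivity
  have e1 : ∑ y ∈ (Icc 1 Y).filter (fun y => t * s ∣ y), Real.sqrt ((t : ℝ) * s * t / y) =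
      ∑ k ∈ Icc 1 (Y / (t * s)), Real.sqrt t * (1 / Real.sqrt k) := by
    refine Finset.sum_nbij' (fun y => y / (t * s)) (fun k => t * s * k) ?_ ?_ ?_ ?_ ?_
    · intro y hy
      simp only [mem_filter, mem_Icc] at hy ⊢
      obtain ⟨⟨h1, h2⟩, h3⟩ := hy
      exact ⟨Nat.div_pos (Nat.le_of_dvd (by omega) h3) hd, Nat.div_le_div_right h2⟩
    · intro k hk
      simp only [mem_filter, mem_Icc] at hk ⊢
      refine ⟨⟨Nat.mul_pos hd hk.1, ?_⟩, Dvd.intro _ rfl⟩
      calc t * s * k ≤ t * s * (Y / (t * s)) := Nat.mul_le_mul_left _ hk.2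
        _ ≤ Y := Nat.mul_div_le _ _
    · intro y hy
      simp only [mem_filter] at hy
      exact Nat.mul_div_cancel' hy.2
    · intro k _
      exact Nat.mul_div_cancel_left _ hd
    · intro y hy
      simp only [mem_filter, mem_Icc] at hy
      obtain ⟨⟨h1, h2⟩, h3⟩ := hy
      obtain ⟨k, rfl⟩ := h3
      rw [Nat.mul_div_cancel_left _ hd]
      have hk : (0 : ℝ) < k := by
        have : k ≠ 0 := by rintro rfl; simp at h1
        positivity
      have ht' : (0 : ℝ) < t := by positivity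
      have hs' : (0 : ℝ) < s := by positivity
      have e2 : (t : ℝ) * s * t / ((t * s * k : ℕ) : ℝ) = t / k := by
        push_cast
        field_simp
      rw [e2, Real.sqrt_div ht'.le]
      ring
  rw [e1, ← Finset.mul_sum]
  have h1 := bet_sum_inv_sqrt (Y / (t * s))
  have hs' : (0 : ℝ) < s := by positivity
  have ht' : (0 : ℝ) < t := by positivity
  have h2 : Real.sqrt ((Y / (t * s) : ℕ) : ℝ) ≤ Real.sqrt Y / (Real.sqrt t * Real.sqrt s) := by
    rw [← Real.sqrt_mul ht'.le, ← Real.sqrt_div (by positivity)]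
    apply Real.sqrt_le_sqrt
    have := @Nat.cast_div_le ℝ _ _ _ Y (t * s)
    push_cast at this
    exact this
  have h3 : 0 < Real.sqrt t := Real.sqrt_pos.2 ht'
  have h4 : 0 < Real.sqrt s := Real.sqrt_pos.2 hs'
  calc Real.sqrt t * ∑ k ∈ Icc 1 (Y / (t * s)), 1 / Real.sqrt k
      ≤ Real.sqrt t * (2 * (Real.sqrt Y / (Real.sqrt t * Real.sqrt s))) := by
        apply mul_le_mul_of_nonneg_left _ h3.le
        linarith
    _ = 2 * Real.sqrt Y * (1 / Real.sqrt s) := by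
        field_simp

theorem bet (δ : ℝ) (hδ : 0 < δ) : ∃ C : ℝ, 1 ≤ C ∧ ∀ Y L q : ℕ, 1 ≤ Y → 1 ≤ L → q ∣ L →
    ∑ y ∈ Icc 1 Y, Real.sqrt ((y1 L y : ℝ) * Nat.gcd q y / y) ≤
      C * ((Y : ℝ) * L) ^ δ * Real.sqrt Y := by
  obtain ⟨C₁, hC₁, hA⟩ := card_factored_le (δ / 2) (by positivity)
  refine ⟨6 * C₁ * (1 + 2 / δ), ?_, ?_⟩
  · have h1 : 0 < 2 / δ := by positivity
    nlinarith
  intro Y L q hY hL hq
  set A := (Icc 1 Y).filter (fun t => t.primeFactors ⊆ L.primeFactors) with hAdef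
  set S := (Icc 1 Y).filter (fun s => ∀ p ∈ s.primeFactors, p ^ 2 ∣ s) with hSdef
  have step1 : ∀ y ∈ Icc 1 Y, Real.sqrt ((y1 L y : ℝ) * Nat.gcd q y / y) ≤
      ∑ t ∈ A, ∑ s ∈ S, if t * s ∣ y then Real.sqrt ((t : ℝ) * s * t / y) else 0 := by
    intro y hy
    have hy0 : y ≠ 0 := by
      rw [mem_Icc] at hy
      omega
    have ht := bet_t_mem (L := L) hL hy
    have hs := bet_s_mem (L := L) hy
    have hnn : ∀ t ∈ A, 0 ≤ ∑ s ∈ S,
        if t * s ∣ y then Real.sqrt ((t : ℝ) * s * t / y) else 0 := by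
      intro t _
      apply Finset.sum_nonneg
      intro s _
      split_ifs
      · exact Real.sqrt_nonneg _
      · exact le_rfl
    refine le_trans ?_ (Finset.single_le_sum hnn ht)
    have hnn2 : ∀ s ∈ S, (0 : ℝ) ≤
        if bet_t L y * s ∣ y then Real.sqrt ((bet_t L y : ℝ) * s * bet_t L y / y) else 0 := by
      intro s _
      split_ifs
      · exact Real.sqrt_nonneg _
      · exact le_rfl
    refine le_trans ?_ (Finset.single_le_sum hnn2 hs)
    rw [if_pos (bet_dvd hy0)]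
    apply Real.sqrt_le_sqrt
    have h1 : (Nat.gcd q y : ℝ) ≤ bet_t L y := by exact_mod_cast bet_gcd hy0 hq
    rw [bet_mul]
    push_cast
    gcongr
  have step2 : ∑ y ∈ Icc 1 Y, Real.sqrt ((y1 L y : ℝ) * Nat.gcd q y / y) ≤
      ∑ t ∈ A, ∑ s ∈ S, 2 * Real.sqrt Y * (1 / Real.sqrt s) := by
    calc ∑ y ∈ Icc 1 Y, Real.sqrt ((y1 L y : ℝ) * Nat.gcd q y / y)
        ≤ ∑ y ∈ Icc 1 Y, ∑ t ∈ A, ∑ s ∈ S,
            if t * s ∣ y then Real.sqrt ((t : ℝ) * s * t / y) else 0 := Finset.sum_le_sum step1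
      _ = ∑ t ∈ A, ∑ y ∈ Icc 1 Y, ∑ s ∈ S,
            (if t * s ∣ y then Real.sqrt ((t : ℝ) * s * t / y) else 0) := Finset.sum_comm
      _ = ∑ t ∈ A, ∑ s ∈ S, ∑ y ∈ Icc 1 Y,
            (if t * s ∣ y then Real.sqrt ((t : ℝ) * s * t / y) else 0) := by
          apply Finset.sum_congr rfl
          intro t _
          exact Finset.sum_comm
      _ ≤ ∑ t ∈ A, ∑ s ∈ S, 2 * Real.sqrt Y * (1 / Real.sqrt s) := by
          apply Finset.sum_le_sum
          intro t ht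
          apply Finset.sum_le_sum
          intro s hs
          rw [← Finset.sum_filter]
          exact bet_inner Y t s (mem_Icc.1 (mem_filter.1 ht).1).1 (mem_Icc.1 (mem_filter.1 hs).1).1
  have hYr : (1 : ℝ) ≤ Y := by exact_mod_cast hY
  have hLr : (1 : ℝ) ≤ L := by exact_mod_cast hL
  have step3 : ∑ t ∈ A, ∑ s ∈ S, 2 * Real.sqrt Y * (1 / Real.sqrt s) ≤
      (#A : ℝ) * (2 * Real.sqrt Y * (3 * (1 + Real.log Y))) := by
    rw [Finset.sum_const, nsmul_eq_mul]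
    apply mul_le_mul_of_nonneg_left _ (Nat.cast_nonneg _)
    rw [← Finset.mul_sum]
    exact mul_le_mul_of_nonneg_left (sum_squarefull_le Y hY) (by positivity)
  have hcard := hA Y L hY hL
  have hP : (Y : ℝ) ≤ Y * L := by nlinarith
  have hlog : 1 + Real.log Y ≤ (1 + 2 / δ) * ((Y : ℝ) * L) ^ (δ / 2) := by
    have h1 : Real.log Y ≤ (Y : ℝ) ^ (δ / 2) / (δ / 2) :=
      Real.log_le_rpow_div (by positivity) (by positivity)
    have h2 : (1 : ℝ) ≤ (Y : ℝ) ^ (δ / 2) := Real.one_le_rpow hYr (by positivity)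
    have h3 : (Y : ℝ) ^ (δ / 2) ≤ ((Y : ℝ) * L) ^ (δ / 2) :=
      Real.rpow_le_rpow (by positivity) hP (by positivity)
    have h4 : (Y : ℝ) ^ (δ / 2) / (δ / 2) = 2 / δ * (Y : ℝ) ^ (δ / 2) := by
      field_simp
    rw [h4] at h1
    have h5 : 0 < 2 / δ := by positivity
    nlinarith
  have hlog0 : 0 ≤ 1 + Real.log Y := by
    have := Real.log_nonneg hYr
    linarith
  have hpow : ((Y : ℝ) * L) ^ (δ / 2) * ((Y : ℝ) * L) ^ (δ / 2) = ((Y : ℝ) * L) ^ δ := by
    rw [← Real.rpow_add (by positivity)]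
    congr 1
    ring
  have hX : 0 ≤ ((Y : ℝ) * L) ^ (δ / 2) := by positivity
  calc ∑ y ∈ Icc 1 Y, Real.sqrt ((y1 L y : ℝ) * Nat.gcd q y / y)
      ≤ (#A : ℝ) * (2 * Real.sqrt Y * (3 * (1 + Real.log Y))) := step2.trans step3
    _ ≤ (C₁ * ((Y : ℝ) * L) ^ (δ / 2)) *
        (2 * Real.sqrt Y * (3 * ((1 + 2 / δ) * ((Y : ℝ) * L) ^ (δ / 2)))) := by
        apply mul_le_mul hcard _ (by positivity) (by positivity)
        apply mul_le_mul_of_nonneg_left _ (by positivity)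
        linarith
    _ = 6 * C₁ * (1 + 2 / δ) * (((Y : ℝ) * L) ^ (δ / 2) * ((Y : ℝ) * L) ^ (δ / 2)) *
        Real.sqrt Y := by ring
    _ = 6 * C₁ * (1 + 2 / δ) * ((Y : ℝ) * L) ^ δ * Real.sqrt Y := by rw [hpow]

end Pool.Agent.Work.MP_2dba45_nt.Bil
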