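import Mathlib
import Pool.Agent.Work.MP_2dba45_nt.BilBase

/-!
MODULE G (Gauss: roots of `ν² ≡ -1 (mod m)` and representations `m = x² + y²`).
`om x y` is the least `ν` with `m ∣ x + y ν`, `m = x²+y²`.
`om_spec`: `gcd(y, m) = 1`, so the congruence is solvable and the least solution is `< m`; then
`y²(ν²+1) ≡ x² + y² ≡ 0`.
`gauss_bij`: for `m ≥ 2`, `(x, y) ↦ om x y` is a bijection from the coprime pairs `x, y ≥ 1` with
`x²+y² = m` onto `Rt m`. Injective: `x ≡ -yν`, `x' ≡ -y'ν` give `x y' ≡ x' y (mod m)`, and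
`0 < x y', x' y < m`, so `x y' = x' y`, coprimality gives equality. Surjective: Thue (pigeonhole,
see `thue` in Rep.lean for the prime case): `0 < |u|, |v| ≤ √m` not both zero with
`m ∣ u + vν`; then `m ∣ u²+v²`, `0 < u²+v² ≤ 2m`; `= 2m` only if `u² = v² = m`, then
`u(1 ± ν) ≡ 0 (mod u²)` gives `ν ≡ ∓1 (mod u)`, `u ∣ 2`, `m ∈ {1, 4}`, impossible for `m ≥ 2`
(4 has no root). So `u²+v² = m`; if `d = gcd(u,v)`, `u = d u'`, `v = d v'`, `n' = u'²+v'²`,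
`m = d² n'`, `u' + v'ν ≡ 0 (mod d n')`, so `n' ≡ u'² + v'² ≡ 0` hmm: `u'² ≡ v'²ν² ≡ -v'²
(mod d n')`, so `d n' ∣ n'`, `d = 1`. Signs: `v > 0` after multiplication by -1; if `u > 0` take
`(x, y) = (u, v)`; if `u < 0` multiply by `ν`: `v - uν ≡ 0`, take `(x, y) = (v, -u)`
(`u, v ≠ 0` because `m ≥ 2`).
`gauss_sum` is the resulting change of variables.
-/

set_option autoImplicit false

namespace Pool.Agent.Work.MP_2dba45_nt.Bil

open Finset Pool.Agent.Work.MP_2dba45_nt.BilDef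

theorem g_coprime (x y : ℕ) (h : x.Coprime y) : y.Coprime (x ^ 2 + y ^ 2) := by
  rw [sq y, Nat.coprime_add_mul_left_right]
  exact (Nat.Coprime.pow_right 2 h.symm)

theorem g_exists (x y : ℕ) (hx : 1 ≤ x) (h : x.Coprime y) :
    ∃ ν : ℕ, (x ^ 2 + y ^ 2) ∣ x + y * ν := by
  have hm : 0 < x ^ 2 + y ^ 2 := by positivity
  have hc := (Nat.isCoprime_iff_coprime).2 (g_coprime x y h)
  obtain ⟨u, v, huv⟩ := hc
  refine ⟨((-(u * x)) % ((x ^ 2 + y ^ 2 : ℕ) : ℤ)).toNat, ?_⟩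
  have hpos : (0 : ℤ) < ((x ^ 2 + y ^ 2 : ℕ) : ℤ) := by exact_mod_cast hm
  rw [← Int.natCast_dvd_natCast]
  push_cast
  rw [Int.toNat_of_nonneg (Int.emod_nonneg _ (by exact_mod_cast hm.ne'))]
  push_cast at huv hpos ⊢
  have h1 := Int.emod_add_mul_ediv (-(u * x)) ((x : ℤ) ^ 2 + (y : ℤ) ^ 2)
  refine ⟨v * x - y * ((-(u * x)) / ((x : ℤ) ^ 2 + (y : ℤ) ^ 2)), ?_⟩
  linear_combination (y : ℤ) * h1 + (-x : ℤ) * huv

theorem g_set (x y : ℕ) (hx : 1 ≤ x) (h : x.Coprime y) :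
    (x ^ 2 + y ^ 2) ∣ x + y * om x y ∧ om x y < x ^ 2 + y ^ 2 := by
  have hne : {ν : ℕ | (x ^ 2 + y ^ 2) ∣ x + y * ν}.Nonempty := g_exists x y hx h
  have h1 : (x ^ 2 + y ^ 2) ∣ x + y * om x y := Nat.sInf_mem hne
  refine ⟨h1, ?_⟩
  have hm : 0 < x ^ 2 + y ^ 2 := by positivity
  have h2 : (x ^ 2 + y ^ 2) ∣ x + y * (om x y % (x ^ 2 + y ^ 2)) := by
    have h3 := Nat.mod_add_div (om x y) (x ^ 2 + y ^ 2)
    have h4 : x + y * om x y = x + y * (om x y % (x ^ 2 + y ^ 2)) +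
        (x ^ 2 + y ^ 2) * (y * (om x y / (x ^ 2 + y ^ 2))) := by
      conv_lhs => rw [← h3]
      ring
    rw [h4] at h1
    exact (Nat.dvd_add_left (dvd_mul_right _ _)).1 h1
  have h3 : om x y ≤ om x y % (x ^ 2 + y ^ 2) := Nat.sInf_le h2
  exact lt_of_le_of_lt h3 (Nat.mod_lt _ hm)

theorem om_unique (x y ν : ℕ) (hx : 1 ≤ x) (h : x.Coprime y) (hν : ν < x ^ 2 + y ^ 2)
    (hd : (x ^ 2 + y ^ 2) ∣ x + y * ν) : om x y = ν := by
  obtain ⟨h1, h2⟩ := g_set x y hx h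
  have hc := (Nat.isCoprime_iff_coprime).2 (g_coprime x y h)
  have h3 : ((x ^ 2 + y ^ 2 : ℕ) : ℤ) ∣ (y : ℤ) * ((om x y : ℤ) - ν) := by
    have a1 : ((x ^ 2 + y ^ 2 : ℕ) : ℤ) ∣ ((x + y * om x y : ℕ) : ℤ) := by exact_mod_cast h1
    have a2 : ((x ^ 2 + y ^ 2 : ℕ) : ℤ) ∣ ((x + y * ν : ℕ) : ℤ) := by exact_mod_cast hd
    have := dvd_sub a1 a2
    push_cast at this ⊢
    have e : (x : ℤ) + y * om x y - (x + y * ν) = y * ((om x y : ℤ) - ν) := by ring
    rwa [e] at this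
  have h4 := hc.symm.dvd_of_dvd_mul_left h3
  obtain ⟨k, hk⟩ := h4
  have hm : (0 : ℤ) < ((x ^ 2 + y ^ 2 : ℕ) : ℤ) := by
    have : 0 < x ^ 2 + y ^ 2 := by positivity
    exact_mod_cast this
  have b1 : (om x y : ℤ) < ((x ^ 2 + y ^ 2 : ℕ) : ℤ) := by exact_mod_cast h2
  have b2 : (ν : ℤ) < ((x ^ 2 + y ^ 2 : ℕ) : ℤ) := by exact_mod_cast hν
  have hk0 : k = 0 := by
    by_contra hk0
    rcases lt_or_gt_of_ne hk0 with h5 | h5
    · have : ((x ^ 2 + y ^ 2 : ℕ) : ℤ) * k ≤ - ((x ^ 2 + y ^ 2 : ℕ) : ℤ) := by nlinarith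
      have h6 : (0 : ℤ) ≤ om x y := by positivity
      omega
    · have : ((x ^ 2 + y ^ 2 : ℕ) : ℤ) ≤ ((x ^ 2 + y ^ 2 : ℕ) : ℤ) * k := by nlinarith
      have h6 : (0 : ℤ) ≤ ν := by positivity
      omega
  rw [hk0, mul_zero] at hk
  have : (om x y : ℤ) = ν := by omega
  exact_mod_cast this

theorem om_spec (x y : ℕ) (hx : 1 ≤ x) (hy : 1 ≤ y) (h : x.Coprime y) :
    om x y ∈ Rt (x ^ 2 + y ^ 2) ∧ (x ^ 2 + y ^ 2) ∣ x + y * om x y := by
  obtain ⟨h1, h2⟩ := g_set x y hx h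
  refine ⟨?_, h1⟩
  unfold Rt
  rw [mem_filter, mem_range]
  refine ⟨h2, ?_⟩
  have hc : (x ^ 2 + y ^ 2).Coprime (y ^ 2) := (Nat.Coprime.pow_left 2 (g_coprime x y h)).symm
  have h3 : (x ^ 2 + y ^ 2) ∣ y ^ 2 * (om x y ^ 2 + 1) := by
    rw [← Int.natCast_dvd_natCast] at h1 ⊢
    obtain ⟨k, hk⟩ := h1
    push_cast at hk ⊢
    refine ⟨((y : ℤ) * om x y - x) * k + 1, ?_⟩
    linear_combination ((y : ℤ) * om x y - x) * hk
  exact hc.dvd_of_dvd_mul_left h3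

theorem gauss_inj (m x y x' y' : ℕ) (hx : 1 ≤ x) (hy : 1 ≤ y) (hx' : 1 ≤ x') (hy' : 1 ≤ y')
    (h : x.Coprime y) (h' : x'.Coprime y') (hm : x ^ 2 + y ^ 2 = m) (hm' : x' ^ 2 + y' ^ 2 = m)
    (he : om x y = om x' y') : x = x' ∧ y = y' := by
  have h1 := (g_set x y hx h).1
  have h1' := (g_set x' y' hx' h').1
  rw [hm] at h1
  rw [hm', ← he] at h1'
  have h3 : (m : ℤ) ∣ (x : ℤ) * y' - x' * y := by
    have a1 : (m : ℤ) ∣ ((x + y * om x y : ℕ) : ℤ) := by exact_mod_cast h1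
    have a2 : (m : ℤ) ∣ ((x' + y' * om x y : ℕ) : ℤ) := by exact_mod_cast h1'
    have := dvd_sub (Dvd.dvd.mul_left a1 (y' : ℤ)) (Dvd.dvd.mul_left a2 (y : ℤ))
    push_cast at this
    have e : (y' : ℤ) * (x + y * om x y) - y * (x' + y' * om x y) = x * y' - x' * y := by ring
    rwa [e] at this
  have c1 : x * y' < m := by
    have e1 : x * x + 1 ≤ m := by nlinarith
    have e2 : y' * y' + 1 ≤ m := by nlinarith
    rcases le_total x y' with h0 | h0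
    · have := Nat.mul_le_mul_right y' h0
      omega
    · have := Nat.mul_le_mul_left x h0
      omega
  have c2 : x' * y < m := by
    have e1 : x' * x' + 1 ≤ m := by nlinarith
    have e2 : y * y + 1 ≤ m := by nlinarith
    rcases le_total x' y with h0 | h0
    · have := Nat.mul_le_mul_right y h0
      omega
    · have := Nat.mul_le_mul_left x' h0
      omega
  have h4 : x * y' = x' * y := by
    obtain ⟨k, hk⟩ := h3
    have b1 : ((x * y' : ℕ) : ℤ) < m := by exact_mod_cast c1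
    have b2 : ((x' * y : ℕ) : ℤ) < m := by exact_mod_cast c2
    push_cast at b1 b2
    have b3 : (0 : ℤ) ≤ (x : ℤ) * y' := by positivity
    have b4 : (0 : ℤ) ≤ (x' : ℤ) * y := by positivity
    have hk0 : k = 0 := by
      by_contra hk0
      have hmpos : (0 : ℤ) < m := by linarith
      rcases lt_or_gt_of_ne hk0 with h5 | h5
      · have : (m : ℤ) * k ≤ - m := by nlinarith
        linarith
      · have : (m : ℤ) ≤ m * k := by nlinarith
        linarith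
    rw [hk0, mul_zero] at hk
    have : (x : ℤ) * y' = x' * y := by linarith
    exact_mod_cast this
  have h5 : x = x' := by
    apply Nat.dvd_antisymm
    · exact h.dvd_of_dvd_mul_right (h4 ▸ dvd_mul_right x y')
    · exact h'.dvd_of_dvd_mul_right (h4.symm ▸ dvd_mul_right x' y)
  refine ⟨h5, ?_⟩
  subst h5
  exact (Nat.eq_of_mul_eq_mul_left (by omega) h4).symm

/-- Thue's lemma for a general modulus -/
theorem g_thue (m : ℕ) (hm : 1 ≤ m) (ν : ℤ) :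
    ∃ u v : ℤ, (u, v) ≠ (0, 0) ∧ u ^ 2 ≤ m ∧ v ^ 2 ≤ m ∧ (m : ℤ) ∣ u + v * ν := by
  have : NeZero m := ⟨by omega⟩
  set s := Nat.sqrt m with hs
  have hs1 : s * s ≤ m := Nat.sqrt_le m
  have hs2 : m < (s + 1) * (s + 1) := Nat.lt_succ_sqrt m
  have hcard : #(univ : Finset (ZMod m)) < #(range (s + 1) ×ˢ range (s + 1)) := by
    rw [Finset.card_product, Finset.card_range, Finset.card_univ, ZMod.card]
    exact hs2
  obtain ⟨⟨u, v⟩, hx, ⟨u', v'⟩, hy, hne, heq⟩ :=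
    Finset.exists_ne_map_eq_of_card_lt_of_maps_to hcard
      (f := fun x : ℕ × ℕ => (x.1 : ZMod m) + (x.2 : ZMod m) * ν) (fun _ _ => Finset.mem_univ _)
  simp only [Finset.mem_product, Finset.mem_range] at hx hy
  simp only at heq
  have bound : ∀ a b : ℕ, a < s + 1 → b < s + 1 → ((a : ℤ) - b) ^ 2 ≤ m := by
    intro a b ha hb
    have h1 : |(a : ℤ) - b| ≤ s := by
      rw [abs_le]
      constructor <;> omega
    calc ((a : ℤ) - b) ^ 2 = |(a : ℤ) - b| ^ 2 := (sq_abs _).symm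
      _ ≤ (s : ℤ) ^ 2 := by gcongr
      _ ≤ m := by rw [sq]; exact_mod_cast hs1
  refine ⟨(u : ℤ) - u', (v : ℤ) - v', ?_, bound _ _ hx.1 hy.1, bound _ _ hx.2 hy.2, ?_⟩
  · intro h
    simp only [Prod.mk.injEq] at h
    apply hne
    rw [Prod.mk.injEq]
    constructor <;> omega
  · rw [← ZMod.intCast_zmod_eq_zero_iff_dvd]
    push_cast
    linear_combination heq

theorem g_four (ν : ℤ) : ¬ (4 : ℤ) ∣ ν ^ 2 + 1 := by
  intro h5
  rcases Int.even_or_odd ν with ⟨t, ht⟩ | ⟨t, ht⟩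
  · rw [ht] at h5
    have h6 : (t + t) ^ 2 + 1 = 4 * t ^ 2 + 1 := by ring
    rw [h6] at h5
    omega
  · rw [ht] at h5
    have h6 : (2 * t + 1) ^ 2 + 1 = 4 * (t ^ 2 + t) + 2 := by ring
    rw [h6] at h5
    omega

/-- signed representation -/
theorem g_rep (m : ℕ) (hm : 2 ≤ m) (ν : ℤ) (hν : (m : ℤ) ∣ ν ^ 2 + 1) :
    ∃ u v : ℤ, u ^ 2 + v ^ 2 = m ∧ (m : ℤ) ∣ u + v * ν := by
  obtain ⟨u, v, hne, hu, hv, hd⟩ := g_thue m (by omega) ν
  have hmpos : (0 : ℤ) < m := by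
    have : 0 < m := by omega
    exact_mod_cast this
  have hk : (m : ℤ) ∣ u ^ 2 + v ^ 2 := by
    have : u ^ 2 + v ^ 2 = (u + v * ν) * (u - v * ν) + (ν ^ 2 + 1) * v ^ 2 := by ring
    rw [this]
    exact dvd_add (Dvd.dvd.mul_right hd _) (Dvd.dvd.mul_right hν _)
  obtain ⟨k, hk⟩ := hk
  have hpos : 0 < u ^ 2 + v ^ 2 := by
    by_cases hu0 : u = 0
    · have hv0 : v ≠ 0 := by
        rintro rfl
        exact hne (by rw [hu0])
      have : 0 < v ^ 2 := by positivity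
      nlinarith [sq_nonneg u]
    · have : 0 < u ^ 2 := by positivity
      nlinarith [sq_nonneg v]
  have hk1 : 0 < k := by
    by_contra h
    push Not at h
    nlinarith
  have hk2 : k ≤ 2 := by
    by_contra h
    push Not at h
    nlinarith
  have hk3 : k = 1 ∨ k = 2 := by omega
  rcases hk3 with rfl | rfl
  · exact ⟨u, v, by rw [hk, mul_one], hd⟩
  · exfalso
    have hu2 : u ^ 2 = m := by linarith
    have hv2 : v ^ 2 = m := by linarith
    have hu0 : u ≠ 0 := by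
      rintro rfl
      norm_num at hu2
      omega
    have huv : v = u ∨ v = -u := by
      have : (v - u) * (v + u) = 0 := by linear_combination hv2 - hu2
      rcases mul_eq_zero.1 this with h | h
      · left; linarith
      · right; linarith
    -- `u` divides two
    have hud : u ∣ 2 := by
      have h1 : u * u ∣ u * (1 + ν) ∨ u * u ∣ u * (1 - ν) := by
        rcases huv with h | h
        · left
          rw [h] at hd
          rw [← hu2, sq] at hd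
          have e : u + u * ν = u * (1 + ν) := by ring
          rwa [e] at hd
        · right
          rw [h] at hd
          rw [← hu2, sq] at hd
          have e : u + -u * ν = u * (1 - ν) := by ring
          rwa [e] at hd
      have hm1 : u ∣ ν ^ 2 + 1 := by
        refine Dvd.dvd.trans ?_ hν
        rw [← hu2, sq]
        exact dvd_mul_right _ _
      rcases h1 with h1 | h1
      · have h2 : u ∣ 1 + ν := Int.dvd_of_mul_dvd_mul_left hu0 h1
        have h3 := dvd_sub hm1 (Dvd.dvd.mul_right h2 (ν - 1))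
        have e : ν ^ 2 + 1 - (1 + ν) * (ν - 1) = 2 := by ring
        rwa [e] at h3
      · have h2 : u ∣ 1 - ν := Int.dvd_of_mul_dvd_mul_left hu0 h1
        have h3 := dvd_add hm1 (Dvd.dvd.mul_right h2 (ν + 1))
        have e : ν ^ 2 + 1 + (1 - ν) * (ν + 1) = 2 := by ring
        rwa [e] at h3
    have hub : |u| ≤ 2 := by
      have := Int.le_of_dvd (by norm_num) ((abs_dvd u 2).2 hud)
      exact this
    have hub' := abs_le.1 hub
    have hcase : u = -2 ∨ u = -1 ∨ u = 1 ∨ u = 2 := by omega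
    rcases hcase with h | h | h | h <;> rw [h] at hu2 <;> norm_num at hu2
    · rw [← hu2] at hν
      exact g_four ν hν
    · omega
    · omega
    · rw [← hu2] at hν
      exact g_four ν hν

theorem gauss_surj (m ν : ℕ) (hm : 2 ≤ m) (hν : ν ∈ Rt m) :
    ∃ x y : ℕ, 1 ≤ x ∧ 1 ≤ y ∧ x.Coprime y ∧ x ^ 2 + y ^ 2 = m ∧ om x y = ν := by
  unfold Rt at hν
  rw [mem_filter, mem_range] at hν
  obtain ⟨hlt, hdvd⟩ := hν
  have hd : (m : ℤ) ∣ (ν : ℤ) ^ 2 + 1 := by exact_mod_cast hdvd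
  obtain ⟨u, v, huv, hd2⟩ := g_rep m hm ν hd
  -- Bezout
  have hcop : IsCoprime u v := by
    obtain ⟨t, ht⟩ := hd
    obtain ⟨w, hw⟩ := hd2
    have hm0 : (m : ℤ) ≠ 0 := by
      have : (m : ℕ) ≠ 0 := by omega
      exact_mod_cast this
    refine ⟨2 * w - u * w ^ 2, v * (t - w ^ 2), ?_⟩
    apply mul_left_cancel₀ hm0
    have e1 : (m : ℤ) * t = (ν : ℤ) ^ 2 + 1 := ht.symm
    have e2 : (m : ℤ) * w = u + v * ν := hw.symm
    have : (m : ℤ) * ((2 * w - u * w ^ 2) * u + v * (t - w ^ 2) * v) =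
        2 * ((m : ℤ) * w) * u + v ^ 2 * ((m : ℤ) * t) - (u ^ 2 + v ^ 2) * ((m : ℤ) * w) * w := by
      ring
    rw [this, huv, e1]
    have : (m : ℤ) * ((m : ℤ) * w) * w = ((m : ℤ) * w) * ((m : ℤ) * w) := by ring
    rw [this, e2, mul_one, ← huv]
    ring
  have hcopN : (u.natAbs).Coprime v.natAbs := Int.isCoprime_iff_gcd_eq_one.1 hcop
  have hu0 : u ≠ 0 := by
    rintro rfl
    have h1 : IsUnit v := isCoprime_zero_left.1 hcop
    rcases Int.isUnit_iff.1 h1 with rfl | rfl <;> norm_num at huv <;> omega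
  have hv0 : v ≠ 0 := by
    rintro rfl
    have h1 : IsUnit u := isCoprime_zero_right.1 hcop
    rcases Int.isUnit_iff.1 h1 with rfl | rfl <;> norm_num at huv <;> omega
  have hsq : u.natAbs ^ 2 + v.natAbs ^ 2 = m := by
    have : ((u.natAbs ^ 2 + v.natAbs ^ 2 : ℕ) : ℤ) = m := by
      push_cast
      rw [sq_abs, sq_abs]
      exact huv
    exact_mod_cast this
  have hsame : ∀ (a b : ℤ), (m : ℤ) ∣ a + b * ν → 0 < a → 0 < b → (a.natAbs).Coprime b.natAbs →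
      a.natAbs ^ 2 + b.natAbs ^ 2 = m →
      ∃ x y : ℕ, 1 ≤ x ∧ 1 ≤ y ∧ x.Coprime y ∧ x ^ 2 + y ^ 2 = m ∧ om x y = ν := by
    intro a b hab ha hb hc hs
    refine ⟨a.natAbs, b.natAbs, by omega, by omega, hc, hs, ?_⟩
    apply om_unique _ _ _ (by omega) hc
    · rw [hs]
      exact hlt
    · rw [hs, ← Int.natCast_dvd_natCast]
      push_cast
      rw [abs_of_pos ha, abs_of_pos hb]
      exact hab
  rcases lt_or_gt_of_ne hu0 with h1 | h1 <;> rcases lt_or_gt_of_ne hv0 with h2 | h2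
  · refine hsame (-u) (-v) ?_ (by omega) (by omega) ?_ ?_
    · have := (dvd_neg).2 hd2
      have e : -(u + v * ν) = -u + -v * ν := by ring
      rwa [e] at this
    · rwa [Int.natAbs_neg, Int.natAbs_neg]
    · rwa [Int.natAbs_neg, Int.natAbs_neg]
  · -- u < 0 < v : take (v, -u)
    refine hsame v (-u) ?_ (by omega) (by omega) ?_ ?_
    · have e : v + -u * ν = ((ν : ℤ) ^ 2 + 1) * v - (u + v * ν) * ν := by ring
      rw [e]
      exact dvd_sub (Dvd.dvd.mul_right hd _) (Dvd.dvd.mul_right hd2 _)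
    · rw [Int.natAbs_neg]
      exact hcopN.symm
    · rw [Int.natAbs_neg, add_comm]
      exact hsq
  · -- v < 0 < u : take (-v, u)
    refine hsame (-v) u ?_ (by omega) (by omega) ?_ ?_
    · have e : -v + u * ν = (u + v * ν) * ν - ((ν : ℤ) ^ 2 + 1) * v := by ring
      rw [e]
      exact dvd_sub (Dvd.dvd.mul_right hd2 _) (Dvd.dvd.mul_right hd _)
    · rw [Int.natAbs_neg]
      exact hcopN.symm
    · rw [Int.natAbs_neg, add_comm]
      exact hsq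
  · exact hsame u v hd2 h1 h2 hcopN hsq

theorem gauss_sum (M L : ℕ) (hM : 2 ≤ M) (F : ℕ → ℕ → ℂ) :
    ∑ m ∈ (Ico M (2 * M)).filter (fun m => m.Coprime L), ∑ ω ∈ Rt m, F m ω =
      ∑ y ∈ Icc 1 (Nat.sqrt (2 * M)), ∑ x ∈ (Icc 1 (Nat.sqrt (2 * M))).filter
        (fun x => (M ≤ x ^ 2 + y ^ 2 ∧ x ^ 2 + y ^ 2 < 2 * M) ∧ x.Coprime y ∧
          (x ^ 2 + y ^ 2).Coprime L), F (x ^ 2 + y ^ 2) (om x y) := by
  rw [Finset.sum_sigma', Finset.sum_sigma']
  symm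
  refine Finset.sum_bij (fun p _ => ⟨p.2 ^ 2 + p.1 ^ 2, om p.2 p.1⟩) ?_ ?_ ?_ ?_
  · rintro ⟨y, x⟩ hp
    simp only [Finset.mem_sigma, Finset.mem_filter, Finset.mem_Icc, Finset.mem_Ico] at hp ⊢
    obtain ⟨⟨hy1, _⟩, ⟨hx1, _⟩, ⟨h1, h2⟩, h3, h4⟩ := hp
    exact ⟨⟨⟨h1, h2⟩, h4⟩, (om_spec x y hx1 hy1 h3).1⟩
  · rintro ⟨y, x⟩ hp ⟨y', x'⟩ hp' h
    simp only [Finset.mem_sigma, Finset.mem_filter, Finset.mem_Icc] at hp hp'
    obtain ⟨⟨hy1, _⟩, ⟨hx1, _⟩, ⟨h1, h2⟩, h3, h4⟩ := hp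
    obtain ⟨⟨hy1', _⟩, ⟨hx1', _⟩, ⟨h1', h2'⟩, h3', h4'⟩ := hp'
    simp only [Sigma.mk.injEq, heq_eq_eq] at h
    obtain ⟨g1, g2⟩ := gauss_inj (x ^ 2 + y ^ 2) x y x' y' hx1 hy1 hx1' hy1' h3 h3' rfl h.1.symm h.2
    subst g1 g2
    rfl
  · rintro ⟨m, ω⟩ hp
    simp only [Finset.mem_sigma, Finset.mem_filter, Finset.mem_Ico] at hp
    obtain ⟨⟨⟨h1, h2⟩, h3⟩, h4⟩ := hp
    obtain ⟨x, y, hx, hy, hc, hs, ho⟩ := gauss_surj m ω (by omega) h4
    refine ⟨⟨y, x⟩, ?_, ?_⟩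
    · simp only [Finset.mem_sigma, Finset.mem_filter, Finset.mem_Icc]
      rw [Nat.le_sqrt, Nat.le_sqrt]
      refine ⟨⟨hy, by nlinarith⟩, ⟨hx, by nlinarith⟩, ⟨by omega, by omega⟩, hc, by rw [hs]; exact h3⟩
    · simp only [hs, ho]
  · rintro ⟨y, x⟩ _
    rfl

end Pool.Agent.Work.MP_2dba45_nt.Bil
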