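import Mathlib
import Pool.Agent.Work.MP_2dba45_nt.BilBase

/-!
MODULE RHO. `#(Rt m) ≤ τ(m)`. Proof: if `4 ∣ m` there is no root. Fix one root `ν₀`. Map a root
`ν` to `d = gcd(ν - ν₀, m)` (integers). `m ∣ ν² - ν₀² = (ν-ν₀)(ν+ν₀)`. If `p` odd, `p ∣ m`, then
`p` cannot divide both `ν-ν₀` and `ν+ν₀` (else `p ∣ 2ν₀`, `p ∣ ν₀`, but `p ∣ ν₀²+1`); the prime 2
divides `m` at most once and all roots of an even `m` are odd. So `d` determines `ν`: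
`m/d ∣ ν + ν₀` up to the prime 2; if `d(ν) = d(ν')` then `ν ≡ ν'` modulo `d` and modulo
`m/d`, with gcd(d, m/d) = 1 -> modulo m. Alternative: induction with `Nat.recOnPosPrimePosCoprime`,
multiplicativity and Hensel. Any proof is fine.
-/

set_option autoImplicit false

namespace Pool.Agent.Work.MP_2dba45_nt.Bil

open Finset Pool.Agent.Work.MP_2dba45_nt.BilDef

theorem rho_split (m : ℕ) (hm : 1 ≤ m) (ν ν₀ : ℤ) (h : (m : ℤ) ∣ ν ^ 2 + 1)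
    (h₀ : (m : ℤ) ∣ ν₀ ^ 2 + 1) :
    ∃ m' : ℤ, (m : ℤ) = m' * (Int.gcd (ν - ν₀) m : ℤ) ∧ m' ∣ ν + ν₀ ∧
      IsCoprime ((Int.gcd (ν - ν₀) m : ℕ) : ℤ) m' := by
  have hm0 : (m : ℤ) ≠ 0 := by
    have : (0 : ℤ) < m := by exact_mod_cast hm
    omega
  have hg : 0 < Int.gcd (ν - ν₀) m := Int.gcd_pos_of_ne_zero_right _ hm0
  obtain ⟨a', m', hc, ha, hm'⟩ := Int.exists_gcd_one hg
  have hg0 : ((Int.gcd (ν - ν₀) m : ℕ) : ℤ) ≠ 0 := by exact_mod_cast hg.ne'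
  have hdvd : (m : ℤ) ∣ (ν - ν₀) * (ν + ν₀) := by
    have : (ν - ν₀) * (ν + ν₀) = (ν ^ 2 + 1) - (ν₀ ^ 2 + 1) := by ring
    rw [this]
    exact dvd_sub h h₀
  have hb : m' ∣ ν + ν₀ := by
    have h1 : m' * ((Int.gcd (ν - ν₀) m : ℕ) : ℤ) ∣
        (a' * (ν + ν₀)) * ((Int.gcd (ν - ν₀) m : ℕ) : ℤ) := by
      rw [← hm']
      have h2 : (a' * (ν + ν₀)) * ((Int.gcd (ν - ν₀) m : ℕ) : ℤ) = (ν - ν₀) * (ν + ν₀) := by
        calc (a' * (ν + ν₀)) * ((Int.gcd (ν - ν₀) m : ℕ) : ℤ)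
            = (a' * ((Int.gcd (ν - ν₀) m : ℕ) : ℤ)) * (ν + ν₀) := by ring
          _ = (ν - ν₀) * (ν + ν₀) := by rw [← ha]
      rw [h2]
      exact hdvd
    have h3 : m' ∣ a' * (ν + ν₀) := Int.dvd_of_mul_dvd_mul_right hg0 h1
    have hc' : IsCoprime m' a' := by
      rw [Int.isCoprime_iff_gcd_eq_one, Int.gcd_comm]
      exact hc
    exact hc'.dvd_of_dvd_mul_left h3
  refine ⟨m', hm', hb, ?_⟩
  rw [Int.isCoprime_iff_gcd_eq_one]
  by_contra hne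
  obtain ⟨p, hp, hpd⟩ := Nat.exists_prime_and_dvd hne
  have hp1 : (p : ℤ) ∣ ((Int.gcd (ν - ν₀) m : ℕ) : ℤ) :=
    (Int.natCast_dvd_natCast.2 hpd).trans (Int.gcd_dvd_left _ _)
  have hp2 : (p : ℤ) ∣ m' := (Int.natCast_dvd_natCast.2 hpd).trans (Int.gcd_dvd_right _ _)
  have hpa : (p : ℤ) ∣ ν - ν₀ := hp1.trans (Int.gcd_dvd_left _ _)
  have hpb : (p : ℤ) ∣ ν + ν₀ := hp2.trans hb
  have hpm : (p : ℤ) ∣ m := by
    rw [hm']
    exact Dvd.dvd.mul_right hp2 _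
  have hpp : Prime (p : ℤ) := Nat.prime_iff_prime_int.1 hp
  have hnot : ¬ (p : ℤ) ∣ ν₀ := by
    intro h1
    have h2 : (p : ℤ) ∣ ν₀ ^ 2 := Dvd.dvd.pow h1 (by norm_num)
    have h3 : (p : ℤ) ∣ 1 := by
      have := dvd_sub (hpm.trans h₀) h2
      simpa using this
    exact hpp.not_isUnit (isUnit_of_dvd_one h3)
  have h2ν : (p : ℤ) ∣ 2 * ν₀ := by
    have := dvd_sub hpb hpa
    have h3 : ν + ν₀ - (ν - ν₀) = 2 * ν₀ := by ring
    rwa [h3] at this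
  rcases hpp.dvd_or_dvd h2ν with h2 | h2
  · have hp2' : p = 2 := by
      have h3 : p ∣ 2 := by exact_mod_cast h2
      exact (Nat.prime_dvd_prime_iff_eq hp Nat.prime_two).1 h3
    subst hp2'
    have h4 : (4 : ℤ) ∣ m := by
      rw [hm']
      have := mul_dvd_mul hp2 hp1
      norm_num at this
      exact this
    have h5 : (4 : ℤ) ∣ ν₀ ^ 2 + 1 := h4.trans h₀
    rcases Int.even_or_odd ν₀ with ⟨t, ht⟩ | ⟨t, ht⟩
    · rw [ht] at h5
      have h6 : (t + t) ^ 2 + 1 = 4 * t ^ 2 + 1 := by ring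
      rw [h6] at h5
      omega
    · rw [ht] at h5
      have h6 : (2 * t + 1) ^ 2 + 1 = 4 * (t ^ 2 + t) + 2 := by ring
      rw [h6] at h5
      omega
  · exact hnot h2

theorem card_Rt_le (m : ℕ) (hm : 1 ≤ m) : #(Rt m) ≤ #(Nat.divisors m) := by
  rcases (Rt m).eq_empty_or_nonempty with h | ⟨ν₀, hν₀⟩
  · rw [h]
    simp
  have hroot : ∀ ν ∈ Rt m, ν < m ∧ (m : ℤ) ∣ (ν : ℤ) ^ 2 + 1 := by
    intro ν hν
    unfold Rt at hν
    rw [mem_filter, mem_range] at hν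
    exact ⟨hν.1, by exact_mod_cast hν.2⟩
  refine card_le_card_of_injOn (fun ν => Int.gcd ((ν : ℤ) - ν₀) m) ?_ ?_
  · intro ν _
    refine Finset.mem_coe.2 (Nat.mem_divisors.2 ⟨?_, by omega⟩)
    have := Int.gcd_dvd_right ((ν : ℤ) - ν₀) (m : ℤ)
    exact_mod_cast this
  · intro ν hν ν' hν' heq
    simp only at heq
    obtain ⟨h1, h2⟩ := hroot ν hν
    obtain ⟨h1', h2'⟩ := hroot ν' hν'
    obtain ⟨_, h20⟩ := hroot ν₀ hν₀
    obtain ⟨m', g1, g2, g3⟩ := rho_split m hm ν ν₀ h2 h20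
    obtain ⟨m'', g1', g2', g3'⟩ := rho_split m hm ν' ν₀ h2' h20
    have hm0 : (m : ℤ) ≠ 0 := by
      have : (0 : ℤ) < m := by exact_mod_cast hm
      omega
    have hg : 0 < Int.gcd ((ν : ℤ) - ν₀) m := Int.gcd_pos_of_ne_zero_right _ hm0
    have hg0 : ((Int.gcd ((ν : ℤ) - ν₀) m : ℕ) : ℤ) ≠ 0 := by exact_mod_cast hg.ne'
    have hmm : m' = m'' := by
      rw [← heq] at g1'
      have := g1.symm.trans g1'
      exact mul_right_cancel₀ hg0 this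
    subst hmm
    have ha : m' ∣ (ν : ℤ) - ν' := by
      have := dvd_sub g2 g2'
      have h3 : (ν : ℤ) + ν₀ - (ν' + ν₀) = ν - ν' := by ring
      rwa [h3] at this
    have hb : ((Int.gcd ((ν : ℤ) - ν₀) m : ℕ) : ℤ) ∣ (ν : ℤ) - ν' := by
      have e1 : ((Int.gcd ((ν : ℤ) - ν₀) m : ℕ) : ℤ) ∣ (ν : ℤ) - ν₀ := Int.gcd_dvd_left _ _
      have e2 : ((Int.gcd ((ν : ℤ) - ν₀) m : ℕ) : ℤ) ∣ (ν' : ℤ) - ν₀ := by
        rw [heq]
        exact Int.gcd_dvd_left _ _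
      have := dvd_sub e1 e2
      have h3 : (ν : ℤ) - ν₀ - (ν' - ν₀) = ν - ν' := by ring
      rwa [h3] at this
    have hmd : (m : ℤ) ∣ (ν : ℤ) - ν' := by
      rw [g1]
      exact g3.symm.mul_dvd ha hb
    obtain ⟨k, hk⟩ := hmd
    have hk0 : k = 0 := by
      have hmpos : (0 : ℤ) < m := by exact_mod_cast hm
      by_contra hk0
      rcases lt_or_gt_of_ne hk0 with h | h
      · have : (m : ℤ) * k ≤ - m := by nlinarith
        have h5 : (0 : ℤ) ≤ ν := by positivity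
        have h6 : (ν' : ℤ) < m := by exact_mod_cast h1'
        omega
      · have : (m : ℤ) ≤ m * k := by nlinarith
        have h5 : (0 : ℤ) ≤ ν' := by positivity
        have h6 : (ν : ℤ) < m := by exact_mod_cast h1
        omega
    rw [hk0, mul_zero] at hk
    have : (ν : ℤ) = ν' := by omega
    exact_mod_cast this

end Pool.Agent.Work.MP_2dba45_nt.Bil
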