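import Mathlib

set_option autoImplicit false

namespace Pool.Agent.Work.MP_2dba45_nt.DivB

open Finset

theorem pow_le_two_pow (k : ℕ) : ∃ c : ℕ, 1 ≤ c ∧ ∀ a : ℕ, (a + 1) ^ k ≤ c * 2 ^ a := by
  induction k with
  | zero => exact ⟨1, le_refl _, fun a => by simpa using Nat.one_le_two_pow⟩
  | succ k ih =>
    -- use that (a+1)^(k+1) / 2^a tends to 0; bounded
    have h : Filter.Tendsto (fun a : ℕ => ((a : ℝ)) ^ (k + 1) / 2 ^ a) Filter.atTop (nhds 0) :=
      tendsto_pow_const_div_const_pow_of_one_lt (k + 1) (by norm_num)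
    have h2 := h.comp (Filter.tendsto_add_atTop_nat 1)
    obtain ⟨B, hB⟩ := (h2.isBoundedUnder_le.bddAbove_range)
    refine ⟨max 1 ⌈2 * B⌉₊, le_max_left _ _, fun a => ?_⟩
    have h3 := hB ⟨a, rfl⟩
    simp only [Function.comp] at h3
    rw [div_le_iff₀ (by positivity)] at h3
    have h4 : ((a + 1 : ℕ) : ℝ) ^ (k + 1) ≤ (max 1 ⌈2 * B⌉₊ : ℕ) * 2 ^ a := by
      calc ((a + 1 : ℕ) : ℝ) ^ (k + 1) ≤ B * 2 ^ (a + 1) := h3
        _ = (2 * B) * 2 ^ a := by ring
        _ ≤ (max 1 ⌈2 * B⌉₊ : ℕ) * 2 ^ a := by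
          gcongr
          calc 2 * B ≤ (⌈2 * B⌉₊ : ℝ) := Nat.le_ceil _
            _ ≤ ((max 1 ⌈2 * B⌉₊ : ℕ) : ℝ) := by exact_mod_cast le_max_right _ _
    exact_mod_cast h4

theorem card_divisors_pow_le (k : ℕ) : ∃ C : ℕ, 1 ≤ C ∧ ∀ n : ℕ, 0 < n →
    (#(n.divisors)) ^ k ≤ C * n := by
  obtain ⟨c, hc1, hc⟩ := pow_le_two_pow k
  refine ⟨c ^ (2 ^ k), Nat.one_le_pow _ _ hc1, fun n hn => ?_⟩
  have h1 : #(n.divisors) = ∏ p ∈ n.primeFactors, (n.factorization p + 1) :=
    Nat.card_divisors hn.ne'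
  have h2 : n = ∏ p ∈ n.primeFactors, p ^ n.factorization p :=
    (Nat.prod_factorization_pow_eq_self hn.ne').symm
  rw [h1, ← Finset.prod_pow]
  have h3 : ∀ p ∈ n.primeFactors, (n.factorization p + 1) ^ k ≤
      (if p < 2 ^ k then c else 1) * p ^ n.factorization p := by
    intro p hp
    have hpp := Nat.prime_of_mem_primeFactors hp
    by_cases h : p < 2 ^ k
    · rw [if_pos h]
      exact (hc _).trans (Nat.mul_le_mul_left _ (Nat.pow_le_pow_left hpp.two_le _))
    · rw [if_neg h, one_mul]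
      push Not at h
      calc (n.factorization p + 1) ^ k ≤ (2 ^ n.factorization p) ^ k := by
            gcongr
            exact Nat.lt_two_pow_self
        _ = (2 ^ k) ^ n.factorization p := by rw [← pow_mul, ← pow_mul, mul_comm]
        _ ≤ p ^ n.factorization p := by gcongr
  calc ∏ p ∈ n.primeFactors, (n.factorization p + 1) ^ k
      ≤ ∏ p ∈ n.primeFactors, ((if p < 2 ^ k then c else 1) * p ^ n.factorization p) :=
        Finset.prod_le_prod' h3
    _ = (∏ p ∈ n.primeFactors, (if p < 2 ^ k then c else 1)) * n := by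
        rw [Finset.prod_mul_distrib, ← h2]
    _ ≤ c ^ (2 ^ k) * n := by
        gcongr
        calc ∏ p ∈ n.primeFactors, (if p < 2 ^ k then c else 1)
            = ∏ p ∈ n.primeFactors.filter (fun p => p < 2 ^ k), c := by
              rw [Finset.prod_filter]
          _ = c ^ #(n.primeFactors.filter (fun p => p < 2 ^ k)) := by rw [Finset.prod_const]
          _ ≤ c ^ (2 ^ k) := by
              apply Nat.pow_le_pow_right hc1
              calc #(n.primeFactors.filter (fun p => p < 2 ^ k)) ≤ #(Finset.range (2 ^ k)) := by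
                    apply Finset.card_le_card
                    intro p hp
                    rw [Finset.mem_range]
                    exact (Finset.mem_filter.1 hp).2
                _ = 2 ^ k := Finset.card_range _

/-- The divisor function is smaller than any power. -/
theorem card_divisors_le (k : ℕ) (hk : 0 < k) : ∃ C : ℝ, 1 ≤ C ∧ ∀ n : ℕ, 0 < n →
    (#(n.divisors) : ℝ) ≤ C * (n : ℝ) ^ ((1 : ℝ) / k) := by
  obtain ⟨C, hC1, hC⟩ := card_divisors_pow_le k
  have hC1' : (1 : ℝ) ≤ C := by exact_mod_cast hC1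
  refine ⟨(C : ℝ) ^ ((1 : ℝ) / k), Real.one_le_rpow hC1' (by positivity), fun n hn => ?_⟩
  have h := hC n hn
  have h' : ((#(n.divisors) : ℝ)) ^ k ≤ C * n := by exact_mod_cast h
  rw [← Real.mul_rpow (by positivity) (by positivity)]
  rw [one_div]
  rw [Real.le_rpow_inv_iff_of_pos (by positivity) (by positivity) (by positivity)]
  rw [Real.rpow_natCast]
  exact h'

end Pool.Agent.Work.MP_2dba45_nt.DivB
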