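import Mathlib
import Pool.Agent.Work.MP_2dba45_nt.BilRho
import Pool.Agent.Work.MP_2dba45_nt.DivB

/-!
MODULE GCD (sums over the index set `TT`). `card_divisors_le` (DivB.lean) gives `τ(n) ≤ C n^{1/k}`.
`sum_gcd`: `√gcd(q,|h|) ≤ ∑_{f ∣ q, f ∣ h} √f`, `#{0<|h|≤H : f ∣ h} ≤ 2H/f`. `sum_gcd'` same with `f`.
`sum_TT`: for fixed `q` the number of `σ` is `#(Rt q) ≤ τ(q)` (BilRho).
`diag_card`: for given `(q₁, h₁)`, `g = gcd(q₁,|h₁|)`, `h₁q₂ = h₂q₁` forces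
`(q₂,h₂) = t (q₁/g, h₁/g)`, `1 ≤ t`, `t q₁/g = q₂ < 2Q ≤ 2q₁`, so at most `2g` pairs; sum over `h₁`
with `sum_gcd'`; the `σ`'s cost `τ(q₁) τ(q₂)`.
-/

set_option autoImplicit false

namespace Pool.Agent.Work.MP_2dba45_nt.Bil

open Finset Pool.Agent.Work.MP_2dba45_nt.BilDef

namespace GcdAux

theorem card_Hs (H : ℕ) : #(Hs H) = 2 * H := by
  unfold Hs
  rw [card_erase_of_mem (by rw [mem_Icc]; constructor <;> omega), Int.card_Icc]
  omega

/-- number of nonzero multiples of `f` -/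
theorem card_mult (H f : ℕ) (hf : 1 ≤ f) :
    (#((Hs H).filter (fun h => (f : ℤ) ∣ h)) : ℝ) ≤ 2 * H / f := by
  have h1 : #((Hs H).filter (fun h => (f : ℤ) ∣ h)) ≤ #(Hs (H / f)) := by
    refine card_le_card_of_injOn (fun h => h / f) ?_ ?_
    · intro h hh
      rw [mem_coe, mem_filter, mem_Hs] at hh
      obtain ⟨⟨h0, hH⟩, ⟨g, rfl⟩⟩ := hh
      rw [mem_coe, mem_Hs]
      have hf0 : (f : ℤ) ≠ 0 := by positivity
      simp only
      rw [Int.mul_ediv_cancel_left _ hf0]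
      refine ⟨fun hg => h0 (by rw [hg, mul_zero]), ?_⟩
      rw [abs_mul, Nat.abs_cast] at hH
      have : |g| ≤ (H : ℤ) / f := by
        rw [Int.le_ediv_iff_mul_le (by positivity)]
        linarith [mul_comm |g| (f : ℤ)]
      exact_mod_cast this
    · intro a ha b hb hab
      rw [mem_coe, mem_filter] at ha hb
      obtain ⟨a', rfl⟩ := ha.2
      obtain ⟨b', rfl⟩ := hb.2
      have hf0 : (f : ℤ) ≠ 0 := by positivity
      simp only [Int.mul_ediv_cancel_left _ hf0] at hab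
      rw [hab]
  rw [card_Hs] at h1
  have h2 : ((H / f : ℕ) : ℝ) ≤ H / f := Nat.cast_div_le
  calc (#((Hs H).filter (fun h => (f : ℤ) ∣ h)) : ℝ) ≤ ((2 * (H / f) : ℕ) : ℝ) := by
        exact_mod_cast h1
    _ = 2 * ((H / f : ℕ) : ℝ) := by push_cast; ring
    _ ≤ 2 * (H / f) := by linarith
    _ = 2 * H / f := by ring

/-- `τ(n) ^ k ≤ C n ^ δ` on `n < 2 Q` -/
theorem tau_bound (δ : ℝ) (hδ : 0 < δ) (k : ℕ) : ∃ C : ℝ, 1 ≤ C ∧ ∀ Q n : ℕ, 1 ≤ n → n < 2 * Q →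
    (#(Nat.divisors n) : ℝ) ^ k ≤ C * (Q : ℝ) ^ δ := by
  set l : ℕ := ⌈(k : ℝ) / δ⌉₊ + 1 with hl
  obtain ⟨C, hC1, hC⟩ := DivB.card_divisors_le l (by omega)
  refine ⟨C ^ k * 2 ^ k, one_le_mul_of_one_le_of_one_le (one_le_pow₀ hC1) (one_le_pow₀ (by norm_num)),
    fun Q n hn hnQ => ?_⟩
  have hQ : 1 ≤ Q := by omega
  have hQ' : (1 : ℝ) ≤ Q := by exact_mod_cast hQ
  have h1 := hC n (by omega)
  have hl0 : (0 : ℝ) < l := by positivity
  have h2 : (n : ℝ) ^ ((1 : ℝ) / l) ≤ 2 * (Q : ℝ) ^ ((1 : ℝ) / l) := by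
    calc (n : ℝ) ^ ((1 : ℝ) / l) ≤ (2 * Q : ℝ) ^ ((1 : ℝ) / l) := by
          refine Real.rpow_le_rpow (by positivity) ?_ (by positivity)
          exact_mod_cast hnQ.le
      _ = 2 ^ ((1 : ℝ) / l) * (Q : ℝ) ^ ((1 : ℝ) / l) := Real.mul_rpow (by norm_num) (by positivity)
      _ ≤ 2 * (Q : ℝ) ^ ((1 : ℝ) / l) := by
          refine mul_le_mul_of_nonneg_right ?_ (by positivity)
          calc (2 : ℝ) ^ ((1 : ℝ) / l) ≤ 2 ^ (1 : ℝ) := by
                refine Real.rpow_le_rpow_of_exponent_le (by norm_num) ?_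
                rw [div_le_one hl0]
                have : 1 ≤ l := by omega
                exact_mod_cast this
            _ = 2 := Real.rpow_one 2
  calc (#(Nat.divisors n) : ℝ) ^ k ≤ (C * (2 * (Q : ℝ) ^ ((1 : ℝ) / l))) ^ k := by
        refine pow_le_pow_left₀ (by positivity) (h1.trans ?_) k
        exact mul_le_mul_of_nonneg_left h2 (by linarith)
    _ = C ^ k * 2 ^ k * ((Q : ℝ) ^ ((1 : ℝ) / l)) ^ k := by rw [mul_pow, mul_pow]; ring
    _ ≤ C ^ k * 2 ^ k * (Q : ℝ) ^ δ := by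
        refine mul_le_mul_of_nonneg_left ?_ (by positivity)
        rw [← Real.rpow_natCast, ← Real.rpow_mul (by positivity)]
        refine Real.rpow_le_rpow_of_exponent_le hQ' ?_
        rw [div_mul_eq_mul_div, one_mul, div_le_iff₀ hl0]
        have h3 : (k : ℝ) / δ ≤ l := by
          have := Nat.le_ceil ((k : ℝ) / δ)
          rw [hl]
          push_cast
          linarith
        rw [div_le_iff₀ hδ] at h3
        linarith

end GcdAux

theorem sum_gcd' (q H : ℕ) (hq : 1 ≤ q) :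
    ∑ h ∈ Hs H, (Nat.gcd q h.natAbs : ℝ) ≤ 2 * H * (#(Nat.divisors q) : ℝ) := by
  have h1 : ∀ h ∈ Hs H, (Nat.gcd q h.natAbs : ℝ) ≤
      ∑ f ∈ q.divisors, if (f : ℤ) ∣ h then (f : ℝ) else 0 := by
    intro h _
    have hmem : Nat.gcd q h.natAbs ∈ q.divisors :=
      Nat.mem_divisors.2 ⟨Nat.gcd_dvd_left _ _, by omega⟩
    have hdvd : ((Nat.gcd q h.natAbs : ℕ) : ℤ) ∣ h :=
      Int.natCast_dvd.2 (Nat.gcd_dvd_right _ _)
    calc (Nat.gcd q h.natAbs : ℝ) = if ((Nat.gcd q h.natAbs : ℕ) : ℤ) ∣ h then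
          ((Nat.gcd q h.natAbs : ℕ) : ℝ) else 0 := by rw [if_pos hdvd]
      _ ≤ ∑ f ∈ q.divisors, if (f : ℤ) ∣ h then (f : ℝ) else 0 :=
          single_le_sum (f := fun f : ℕ => if (f : ℤ) ∣ h then (f : ℝ) else 0)
            (fun f _ => by split_ifs <;> positivity) hmem
  calc ∑ h ∈ Hs H, (Nat.gcd q h.natAbs : ℝ)
      ≤ ∑ h ∈ Hs H, ∑ f ∈ q.divisors, (if (f : ℤ) ∣ h then (f : ℝ) else 0) := sum_le_sum h1
    _ = ∑ f ∈ q.divisors, ∑ h ∈ Hs H, (if (f : ℤ) ∣ h then (f : ℝ) else 0) := sum_comm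
    _ ≤ ∑ f ∈ q.divisors, (2 * H : ℝ) := by
        refine sum_le_sum fun f hf => ?_
        have hf1 : 1 ≤ f := Nat.pos_of_mem_divisors hf
        have hf1' : (0 : ℝ) < f := by positivity
        rw [← sum_filter, sum_const, nsmul_eq_mul]
        calc (#((Hs H).filter (fun h => (f : ℤ) ∣ h)) : ℝ) * f ≤ 2 * H / f * f :=
              mul_le_mul_of_nonneg_right (GcdAux.card_mult H f hf1) hf1'.le
          _ = 2 * H := by field_simp
    _ = 2 * H * (#(Nat.divisors q) : ℝ) := by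
        rw [sum_const, nsmul_eq_mul]
        ring

theorem sum_gcd (q H : ℕ) (hq : 1 ≤ q) :
    ∑ h ∈ Hs H, Real.sqrt ((Nat.gcd q h.natAbs : ℕ) : ℝ) ≤ 2 * H * (#(Nat.divisors q) : ℝ) := by
  refine (sum_le_sum fun h _ => ?_).trans (sum_gcd' q H hq)
  have h1 : (1 : ℝ) ≤ ((Nat.gcd q h.natAbs : ℕ) : ℝ) := by
    have : 1 ≤ Nat.gcd q h.natAbs := Nat.gcd_pos_of_pos_left _ hq
    exact_mod_cast this
  rw [Real.sqrt_le_left (by positivity)]
  nlinarith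

theorem sum_TT (δ : ℝ) (hδ : 0 < δ) : ∃ C : ℝ, 1 ≤ C ∧ ∀ Q r H : ℕ, 1 ≤ Q → 1 ≤ r →
    ∑ t ∈ TT Q r H, Real.sqrt ((Nat.gcd t.1 t.2.2.natAbs : ℕ) : ℝ) ≤ C * (Q : ℝ) ^ (1 + δ) * H := by
  obtain ⟨C, hC1, hC⟩ := GcdAux.tau_bound δ hδ 2
  refine ⟨2 * C, by linarith, fun Q r H hQ hr => ?_⟩
  have hQ' : (0 : ℝ) < Q := by positivity
  have h1 : TT Q r H ⊆ (Ico Q (2 * Q)).biUnion (fun q => {q} ×ˢ (Rt q ×ˢ Hs H)) := by
    intro t ht
    unfold TT at ht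
    rw [mem_filter, mem_product, mem_product] at ht
    rw [mem_biUnion]
    exact ⟨t.1, ht.1.1, mem_product.2 ⟨mem_singleton_self _, mem_product.2 ⟨ht.2.2.2, ht.1.2.2⟩⟩⟩
  calc ∑ t ∈ TT Q r H, Real.sqrt ((Nat.gcd t.1 t.2.2.natAbs : ℕ) : ℝ)
      ≤ ∑ t ∈ (Ico Q (2 * Q)).biUnion (fun q => {q} ×ˢ (Rt q ×ˢ Hs H)),
          Real.sqrt ((Nat.gcd t.1 t.2.2.natAbs : ℕ) : ℝ) :=
        sum_le_sum_of_subset_of_nonneg h1 fun _ _ _ => Real.sqrt_nonneg _
    _ ≤ ∑ q ∈ Ico Q (2 * Q), ∑ t ∈ {q} ×ˢ (Rt q ×ˢ Hs H),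
          Real.sqrt ((Nat.gcd t.1 t.2.2.natAbs : ℕ) : ℝ) :=
        le_of_eq (sum_biUnion (by
          intro a _ b _ hab
          rw [Function.onFun, disjoint_left]
          rintro t ht ht'
          rw [mem_product, mem_singleton] at ht ht'
          exact hab (ht.1.symm.trans ht'.1)))
    _ ≤ ∑ q ∈ Ico Q (2 * Q), 2 * H * (C * (Q : ℝ) ^ δ) := by
        refine sum_le_sum fun q hq => ?_
        rw [mem_Ico] at hq
        have hq1 : 1 ≤ q := by omega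
        rw [sum_product, sum_singleton, sum_product]
        simp only
        rw [sum_const, nsmul_eq_mul]
        have h2 : (#(Rt q) : ℝ) ≤ #(Nat.divisors q) := by exact_mod_cast card_Rt_le q hq1
        calc (#(Rt q) : ℝ) * ∑ h ∈ Hs H, Real.sqrt ((Nat.gcd q h.natAbs : ℕ) : ℝ)
            ≤ #(Nat.divisors q) * (2 * H * (#(Nat.divisors q) : ℝ)) := by
              refine mul_le_mul h2 (sum_gcd q H hq1) (sum_nonneg fun _ _ => Real.sqrt_nonneg _)
                (by positivity)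
          _ = 2 * H * (#(Nat.divisors q) : ℝ) ^ 2 := by ring
          _ ≤ 2 * H * (C * (Q : ℝ) ^ δ) :=
              mul_le_mul_of_nonneg_left (hC Q q hq1 hq.2) (by positivity)
    _ = 2 * C * (Q : ℝ) ^ (1 + δ) * H := by
        rw [sum_const, nsmul_eq_mul, Nat.card_Ico, Real.rpow_add hQ', Real.rpow_one,
          show 2 * Q - Q = Q by omega]
        ring

theorem diag_card (δ : ℝ) (hδ : 0 < δ) : ∃ C : ℝ, 1 ≤ C ∧ ∀ Q r H : ℕ, 1 ≤ Q → 1 ≤ r →
    (#((TT Q r H ×ˢ TT Q r H).filter (fun t => t.1.2.2 * (t.2.1 : ℤ) = t.2.2.2 * (t.1.1 : ℤ))) : ℝ) ≤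
      C * (Q : ℝ) ^ (1 + δ) * H := by
  obtain ⟨C, hC1, hC⟩ := GcdAux.tau_bound (δ / 3) (by positivity) 1
  refine ⟨4 * C ^ 3, by nlinarith [one_le_pow₀ (n := 3) hC1], fun Q r H hQ hr => ?_⟩
  have hQ' : (0 : ℝ) < Q := by positivity
  have htau : ∀ q, 1 ≤ q → q < 2 * Q → (#(Nat.divisors q) : ℝ) ≤ C * (Q : ℝ) ^ (δ / 3) := by
    intro q h1 h2
    simpa using hC Q q h1 h2
  have hRt : ∀ q, 1 ≤ q → q < 2 * Q → (#(Rt q) : ℝ) ≤ C * (Q : ℝ) ^ (δ / 3) := by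
    intro q h1 h2
    have : (#(Rt q) : ℝ) ≤ #(Nat.divisors q) := by exact_mod_cast card_Rt_le q h1
    exact this.trans (htau q h1 h2)
  set D : ℝ := C * (Q : ℝ) ^ (δ / 3) with hD
  have hD0 : 0 ≤ D := by positivity
  -- for fixed `q₁, h₁`
  have hfix : ∀ t₁ ∈ TT Q r H,
      (#((TT Q r H).filter (fun t₂ => t₁.2.2 * (t₂.1 : ℤ) = t₂.2.2 * (t₁.1 : ℤ))) : ℝ) ≤
        2 * (Nat.gcd t₁.1 t₁.2.2.natAbs : ℝ) * D := by
    rintro ⟨q₁, σ₁, h₁⟩ ht₁
    unfold TT at ht₁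
    simp only [mem_filter, mem_product, mem_Ico, mem_range] at ht₁
    obtain ⟨⟨⟨hq1, hq1'⟩, hσ1, hh1⟩, -, -, -⟩ := ht₁
    have hq1pos : 1 ≤ q₁ := by omega
    set g := Nat.gcd q₁ h₁.natAbs with hg
    have hgpos : 0 < g := Nat.gcd_pos_of_pos_left _ hq1pos
    simp only
    -- the multiples
    have hsub : (TT Q r H).filter (fun t₂ => h₁ * (t₂.1 : ℤ) = t₂.2.2 * (q₁ : ℤ)) ⊆
        (range (2 * g)).biUnion (fun t => ({t * (q₁ / g)} : Finset ℕ) ×ˢ
          (((Rt (t * (q₁ / g))).filter (fun _ => 1 ≤ t * (q₁ / g) ∧ t * (q₁ / g) < 2 * Q)) ×ˢ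
            ({h₁ * ((t * (q₁ / g) : ℕ) : ℤ) / q₁} : Finset ℤ))) := by
      rintro ⟨q₂, σ₂, h₂⟩ ht₂
      unfold TT at ht₂
      simp only [mem_filter, mem_product, mem_Ico, mem_range] at ht₂
      obtain ⟨⟨⟨⟨hq2, hq2'⟩, hσ2, hh2⟩, -, -, hRt2⟩, heq⟩ := ht₂
      have hdvd : q₁ / g ∣ q₂ := by
        have h1 : (q₁ : ℤ) ∣ h₁ * q₂ := ⟨h₂, by rw [heq]; ring⟩
        have h2 : q₁ ∣ h₁.natAbs * q₂ := by
          have := Int.natAbs_dvd_natAbs.2 h1
          rwa [Int.natAbs_natCast, Int.natAbs_mul, Int.natAbs_natCast] at this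
        have h3 : q₁ / g ∣ h₁.natAbs / g * q₂ := by
          obtain ⟨c, hc⟩ := h2
          refine ⟨c, ?_⟩
          have e1 : g * (h₁.natAbs / g) = h₁.natAbs := Nat.mul_div_cancel' (Nat.gcd_dvd_right _ _)
          have e2 : g * (q₁ / g) = q₁ := Nat.mul_div_cancel' (Nat.gcd_dvd_left _ _)
          have : g * (h₁.natAbs / g * q₂) = g * (q₁ / g * c) := by
            rw [← mul_assoc, e1, ← mul_assoc, e2, hc]
          exact Nat.eq_of_mul_eq_mul_left hgpos this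
        exact (Nat.coprime_div_gcd_div_gcd hgpos).dvd_of_dvd_mul_left h3
      obtain ⟨t, ht⟩ := hdvd
      have e2 : g * (q₁ / g) = q₁ := Nat.mul_div_cancel' (Nat.gcd_dvd_left _ _)
      have ht2 : q₂ = t * (q₁ / g) := by rw [ht, mul_comm]
      rw [mem_biUnion]
      refine ⟨t, ?_, ?_⟩
      · rw [mem_range]
        by_contra hcon
        push Not at hcon
        have : 2 * g * (q₁ / g) ≤ t * (q₁ / g) := Nat.mul_le_mul_right _ hcon
        rw [mul_assoc, e2, ← ht2] at this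
        omega
      · rw [mem_product, mem_product, mem_singleton, mem_filter, mem_singleton]
        simp only
        rw [← ht2]
        refine ⟨rfl, ⟨hRt2, by omega, hq2'⟩, ?_⟩
        rw [heq, Int.mul_ediv_cancel _ (by positivity)]
    calc (#((TT Q r H).filter (fun t₂ => h₁ * (t₂.1 : ℤ) = t₂.2.2 * (q₁ : ℤ))) : ℝ)
        ≤ ∑ t ∈ range (2 * g), (#(({t * (q₁ / g)} : Finset ℕ) ×ˢ
          (((Rt (t * (q₁ / g))).filter (fun _ => 1 ≤ t * (q₁ / g) ∧ t * (q₁ / g) < 2 * Q)) ×ˢ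
            ({h₁ * ((t * (q₁ / g) : ℕ) : ℤ) / q₁} : Finset ℤ))) : ℝ) := by
          exact_mod_cast (card_le_card hsub).trans card_biUnion_le
      _ ≤ ∑ t ∈ range (2 * g), D := by
          refine sum_le_sum fun t _ => ?_
          rw [card_product, card_product, card_singleton, card_singleton, one_mul, mul_one]
          by_cases hc : 1 ≤ t * (q₁ / g) ∧ t * (q₁ / g) < 2 * Q
          · refine le_trans ?_ (hRt _ hc.1 hc.2)
            exact_mod_cast card_filter_le _ _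
          · rw [filter_false_of_mem (fun _ _ => hc), card_empty]
            simpa using hD0
      _ = 2 * (g : ℝ) * D := by
          rw [sum_const, nsmul_eq_mul, card_range]
          push_cast
          ring
  have hcard : (#((TT Q r H ×ˢ TT Q r H).filter
      (fun t => t.1.2.2 * (t.2.1 : ℤ) = t.2.2.2 * (t.1.1 : ℤ))) : ℝ) =
      ∑ t₁ ∈ TT Q r H,
        (#((TT Q r H).filter (fun t₂ => t₁.2.2 * (t₂.1 : ℤ) = t₂.2.2 * (t₁.1 : ℤ))) : ℝ) := by
    rw [card_filter, sum_product]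
    push_cast
    refine sum_congr rfl fun t₁ _ => ?_
    rw [card_filter]
    push_cast
    rfl
  rw [hcard]
  have h1 : TT Q r H ⊆ (Ico Q (2 * Q)).biUnion (fun q => {q} ×ˢ (Rt q ×ˢ Hs H)) := by
    intro t ht
    unfold TT at ht
    rw [mem_filter, mem_product, mem_product] at ht
    rw [mem_biUnion]
    exact ⟨t.1, ht.1.1, mem_product.2 ⟨mem_singleton_self _, mem_product.2 ⟨ht.2.2.2, ht.1.2.2⟩⟩⟩
  calc ∑ t₁ ∈ TT Q r H,
        (#((TT Q r H).filter (fun t₂ => t₁.2.2 * (t₂.1 : ℤ) = t₂.2.2 * (t₁.1 : ℤ))) : ℝ)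
      ≤ ∑ t₁ ∈ TT Q r H, 2 * (Nat.gcd t₁.1 t₁.2.2.natAbs : ℝ) * D := sum_le_sum hfix
    _ ≤ ∑ t ∈ (Ico Q (2 * Q)).biUnion (fun q => {q} ×ˢ (Rt q ×ˢ Hs H)),
          2 * (Nat.gcd t.1 t.2.2.natAbs : ℝ) * D :=
        sum_le_sum_of_subset_of_nonneg h1 fun _ _ _ => by positivity
    _ = ∑ q ∈ Ico Q (2 * Q), ∑ t ∈ {q} ×ˢ (Rt q ×ˢ Hs H),
          2 * (Nat.gcd t.1 t.2.2.natAbs : ℝ) * D :=
        (sum_biUnion (by
          intro a _ b _ hab
          rw [Function.onFun, disjoint_left]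
          rintro t ht ht'
          rw [mem_product, mem_singleton] at ht ht'
          exact hab (ht.1.symm.trans ht'.1)))
    _ ≤ ∑ q ∈ Ico Q (2 * Q), 4 * H * D ^ 3 := by
        refine sum_le_sum fun q hq => ?_
        rw [mem_Ico] at hq
        have hq1 : 1 ≤ q := by omega
        rw [sum_product, sum_singleton, sum_product]
        simp only
        rw [sum_const, nsmul_eq_mul, ← sum_mul, ← mul_sum]
        have h2 := sum_gcd' q H hq1
        have h3 := htau q hq1 hq.2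
        have h4 := hRt q hq1 hq.2
        calc (#(Rt q) : ℝ) * ((2 * ∑ h ∈ Hs H, (Nat.gcd q h.natAbs : ℝ)) * D)
            = (#(Rt q) : ℝ) * (2 * D) * ∑ h ∈ Hs H, (Nat.gcd q h.natAbs : ℝ) := by ring
          _ ≤ D * (2 * D) * (2 * H * D) := by
              refine mul_le_mul (mul_le_mul_of_nonneg_right h4 (by positivity)) ?_
                (sum_nonneg fun _ _ => by positivity) (by positivity)
              exact h2.trans (mul_le_mul_of_nonneg_left h3 (by positivity))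
          _ = 4 * H * D ^ 3 := by ring
    _ = 4 * C ^ 3 * (Q : ℝ) ^ (1 + δ) * H := by
        rw [sum_const, nsmul_eq_mul, Nat.card_Ico, Real.rpow_add hQ', Real.rpow_one,
          show 2 * Q - Q = Q by omega, hD, mul_pow, ← Real.rpow_natCast ((Q : ℝ) ^ (δ / 3)) 3,
          ← Real.rpow_mul hQ'.le]
        rw [show δ / 3 * ((3 : ℕ) : ℝ) = δ by push_cast; ring]
        ring

end Pool.Agent.Work.MP_2dba45_nt.Bil
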