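import Mathlib
import Pool.Agent.Work.MP_2dba45_nt.BilBase

/-!
MODULE QB (the bad part is small).
-/

set_option autoImplicit false

namespace Pool.Agent.Work.MP_2dba45_nt.Bil

open Finset

private theorem qb_y1_ne_zero (L y : ℕ) : y1 L y ≠ 0 := by
  unfold y1
  rw [Finset.prod_ne_zero_iff]
  intro p hp
  exact pow_ne_zero _ (Nat.prime_of_mem_primeFactors (mem_filter.1 hp).1).ne_zero

private theorem qb_y1_fac {L y p : ℕ} (hp : p.Prime) (hy : y ≠ 0) (h : p ∣ L ∨ p ^ 2 ∣ y) :
    y.factorization p ≤ (y1 L y).factorization p := by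
  by_cases hpy : p ∣ y
  · rw [← hp.pow_dvd_iff_le_factorization (qb_y1_ne_zero L y)]
    unfold y1
    exact Finset.dvd_prod_of_mem (fun p => p ^ y.factorization p)
      (mem_filter.2 ⟨Nat.mem_primeFactors.2 ⟨hp, hpy, hy⟩, h⟩)
  · rw [Nat.factorization_eq_zero_of_not_dvd hpy]
    exact Nat.zero_le _

private theorem qb_Q0_ne_zero (y q₁ q₂ r : ℕ) (k : ℤ) : Q0 y q₁ q₂ r k ≠ 0 := by
  unfold Q0
  rw [Finset.prod_ne_zero_iff]
  intro p hp
  exact (Nat.prime_of_mem_primeFactors (mem_filter.1 hp).1).ne_zero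

private theorem qb_one_le {p n : ℕ} (hp : p.Prime) (hn : n ≠ 0) (h : p ∣ n) :
    1 ≤ n.factorization p :=
  (hp.dvd_iff_one_le_factorization hn).1 h

theorem qb (y q₁ q₂ r : ℕ) (h₁ h₂ : ℤ) (hy : 1 ≤ y) (hr : 1 ≤ r) (hq₁ : Squarefree q₁)
    (hq₂ : Squarefree q₂) (ho₁ : q₁.Coprime (2 * r)) (ho₂ : q₂.Coprime (2 * r))
    (hh₁ : h₁ ≠ 0) (hh₂ : h₂ ≠ 0) (hk : h₂ * q₁ - h₁ * q₂ ≠ 0) :
    q₁ * q₂ * y ≤ Q0 y q₁ q₂ r (h₂ * q₁ - h₁ * q₂) * (Nat.gcd q₁ q₂) ^ 2 *
      y1 (2 * r * q₁ * q₂ * (h₂ * q₁ - h₁ * q₂).natAbs) y *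
      Nat.gcd (Nat.lcm q₁ q₂) y * Nat.gcd q₁ h₁.natAbs * Nat.gcd q₂ h₂.natAbs := by
  set k : ℤ := h₂ * q₁ - h₁ * q₂ with hkdef
  set L : ℕ := 2 * r * q₁ * q₂ * k.natAbs with hL
  have n1 : q₁ ≠ 0 := hq₁.ne_zero
  have n2 : q₂ ≠ 0 := hq₂.ne_zero
  have ny : y ≠ 0 := by omega
  have nr : r ≠ 0 := by omega
  have nk : k.natAbs ≠ 0 := Int.natAbs_ne_zero.2 hk
  have nQ : Q0 y q₁ q₂ r k ≠ 0 := qb_Q0_ne_zero _ _ _ _ _
  have nY : y1 L y ≠ 0 := qb_y1_ne_zero _ _
  have ng : Nat.gcd q₁ q₂ ≠ 0 := Nat.gcd_ne_zero_left n1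
  have nl : Nat.gcd (Nat.lcm q₁ q₂) y ≠ 0 := Nat.gcd_ne_zero_right ny
  have n3 : Nat.gcd q₁ h₁.natAbs ≠ 0 := Nat.gcd_ne_zero_left n1
  have n4 : Nat.gcd q₂ h₂.natAbs ≠ 0 := Nat.gcd_ne_zero_left n2
  have nT : y * q₁ * q₂ ≠ 0 := by positivity
  apply Nat.le_of_dvd (by positivity)
  rw [← Nat.factorization_prime_le_iff_dvd (by positivity) (by positivity)]
  intro p hp
  have e1 : (q₁ * q₂ * y).factorization p =
      q₁.factorization p + q₂.factorization p + y.factorization p := by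
    rw [Nat.factorization_mul (by positivity) ny, Nat.factorization_mul n1 n2]
    rfl
  have e2 : (Q0 y q₁ q₂ r k * (Nat.gcd q₁ q₂) ^ 2 * y1 L y * Nat.gcd (Nat.lcm q₁ q₂) y *
      Nat.gcd q₁ h₁.natAbs * Nat.gcd q₂ h₂.natAbs).factorization p =
      (Q0 y q₁ q₂ r k).factorization p + 2 * (Nat.gcd q₁ q₂).factorization p +
      (y1 L y).factorization p + (Nat.gcd (Nat.lcm q₁ q₂) y).factorization p +
      (Nat.gcd q₁ h₁.natAbs).factorization p + (Nat.gcd q₂ h₂.natAbs).factorization p := by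
    rw [Nat.factorization_mul (by positivity) n4, Nat.factorization_mul (by positivity) n3,
      Nat.factorization_mul (by positivity) nl, Nat.factorization_mul (by positivity) nY,
      Nat.factorization_mul nQ (by positivity), Nat.factorization_pow]
    rfl
  have e3 : (y * q₁ * q₂).factorization p =
      y.factorization p + q₁.factorization p + q₂.factorization p := by
    rw [Nat.factorization_mul (by positivity) n2, Nat.factorization_mul ny n1]
    rfl
  rw [e1, e2]
  have a1 : q₁.factorization p ≤ 1 := hq₁.natFactorization_le_one p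
  have a2 : q₂.factorization p ≤ 1 := hq₂.natFactorization_le_one p
  -- the basic alternatives
  by_cases hP0 : p ∈ P0 y q₁ q₂ r k
  · have h1 : (y * q₁ * q₂).factorization p = 1 := (mem_filter.1 hP0).2.1
    have h2 : 1 ≤ (Q0 y q₁ q₂ r k).factorization p := by
      apply qb_one_le hp nQ
      unfold Q0
      exact Finset.dvd_prod_of_mem (fun p => p) hP0
    omega
  have key : (y * q₁ * q₂).factorization p = 1 → p ∣ 2 * r * k.natAbs := by
    intro h1
    by_contra h2
    apply hP0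
    refine mem_filter.2 ⟨Nat.mem_primeFactors.2 ⟨hp, ?_, nT⟩, h1, ?_⟩
    · exact (hp.dvd_iff_one_le_factorization nT).2 h1.ge
    · intro h3
      apply h2
      have h4 := Int.natCast_dvd.1 h3
      simpa [Int.natAbs_mul] using h4
  have hLk : p ∣ 2 * r * k.natAbs → p ∣ L := by
    intro h
    have : L = 2 * r * k.natAbs * (q₁ * q₂) := by rw [hL]; ring
    rw [this]
    exact h.mul_right _
  by_cases hp1 : p ∣ q₁
  · have b1 := qb_one_le hp n1 hp1
    have hpL : p ∣ L := by
      have : L = q₁ * (2 * r * q₂ * k.natAbs) := by rw [hL]; ring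
      rw [this]
      exact hp1.mul_right _
    have hY := qb_y1_fac hp ny (Or.inl hpL)
    by_cases hp2 : p ∣ q₂
    · have hg := qb_one_le hp ng (Nat.dvd_gcd hp1 hp2)
      omega
    · have b2 : q₂.factorization p = 0 := Nat.factorization_eq_zero_of_not_dvd hp2
      by_cases hpy : p ∣ y
      · have hl := qb_one_le hp nl (Nat.dvd_gcd (hp1.trans (Nat.dvd_lcm_left _ _)) hpy)
        omega
      · have by0 : y.factorization p = 0 := Nat.factorization_eq_zero_of_not_dvd hpy
        have h1 : p ∣ 2 * r * k.natAbs := key (by omega)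
        have h2 : ¬ p ∣ 2 * r := fun h =>
          hp.one_lt.ne' (Nat.dvd_one.1 (ho₁ ▸ Nat.dvd_gcd hp1 h))
        have h3 : p ∣ k.natAbs := (hp.dvd_mul.1 h1).resolve_left h2
        have h4 : (p : ℤ) ∣ k := Int.natCast_dvd.2 h3
        have h5 : (p : ℤ) ∣ h₁ * q₂ := by
          have h6 : (p : ℤ) ∣ h₂ * q₁ := (Int.natCast_dvd_natCast.2 hp1).mul_left _
          have h7 := dvd_sub h6 h4
          have h8 : h₂ * q₁ - k = h₁ * q₂ := by rw [hkdef]; ring
          rwa [h8] at h7
        have h6 : p ∣ h₁.natAbs := by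
          rcases Int.Prime.dvd_mul' hp h5 with h | h
          · exact Int.natCast_dvd.1 h
          · exact absurd (Int.natCast_dvd_natCast.1 h) hp2
        have h7 := qb_one_le hp n3 (Nat.dvd_gcd hp1 h6)
        omega
  · have b1 : q₁.factorization p = 0 := Nat.factorization_eq_zero_of_not_dvd hp1
    by_cases hp2 : p ∣ q₂
    · have b2 := qb_one_le hp n2 hp2
      have hpL : p ∣ L := by
        have : L = q₂ * (2 * r * q₁ * k.natAbs) := by rw [hL]; ring
        rw [this]
        exact hp2.mul_right _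
      have hY := qb_y1_fac hp ny (Or.inl hpL)
      by_cases hpy : p ∣ y
      · have hl := qb_one_le hp nl (Nat.dvd_gcd (hp2.trans (Nat.dvd_lcm_right _ _)) hpy)
        omega
      · have by0 : y.factorization p = 0 := Nat.factorization_eq_zero_of_not_dvd hpy
        have h1 : p ∣ 2 * r * k.natAbs := key (by omega)
        have h2 : ¬ p ∣ 2 * r := fun h =>
          hp.one_lt.ne' (Nat.dvd_one.1 (ho₂ ▸ Nat.dvd_gcd hp2 h))
        have h3 : p ∣ k.natAbs := (hp.dvd_mul.1 h1).resolve_left h2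
        have h4 : (p : ℤ) ∣ k := Int.natCast_dvd.2 h3
        have h5 : (p : ℤ) ∣ h₂ * q₁ := by
          have h6 : (p : ℤ) ∣ h₁ * q₂ := (Int.natCast_dvd_natCast.2 hp2).mul_left _
          have h7 := dvd_add h4 h6
          have h8 : k + h₁ * q₂ = h₂ * q₁ := by rw [hkdef]; ring
          rwa [h8] at h7
        have h6 : p ∣ h₂.natAbs := by
          rcases Int.Prime.dvd_mul' hp h5 with h | h
          · exact Int.natCast_dvd.1 h
          · exact absurd (Int.natCast_dvd_natCast.1 h) hp1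
        have h7 := qb_one_le hp n4 (Nat.dvd_gcd hp2 h6)
        omega
    · have b2 : q₂.factorization p = 0 := Nat.factorization_eq_zero_of_not_dvd hp2
      by_cases hpy : p ∣ y
      · have b3 := qb_one_le hp ny hpy
        have hor : p ∣ L ∨ p ^ 2 ∣ y := by
          by_cases h2 : 2 ≤ y.factorization p
          · exact Or.inr ((hp.pow_dvd_iff_le_factorization ny).2 h2)
          · exact Or.inl (hLk (key (by omega)))
        have hY := qb_y1_fac hp ny hor
        omega
      · have b3 : y.factorization p = 0 := Nat.factorization_eq_zero_of_not_dvd hpy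
        omega

end Pool.Agent.Work.MP_2dba45_nt.Bil
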