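import Mathlib

/-!
MODULE BEZ (partial fractions). `P` a set of primes each dividing `n` exactly once,
`R = n / ∏ P`. The integers `∏ P = n/R` and `n/p` (`p ∈ P`) have gcd 1 (a prime dividing `∏ P` is
some `p ∈ P` and does not divide `n/p`), so `1 = cR (∏ P) + Σ cp (n/p)`; divide by `n`; modulo `p`
all terms except `cp p * (n/p)` vanish. Or: induction on `P` with `Int.gcd_eq_gcd_ab`.
-/

set_option autoImplicit false

namespace Pool.Agent.Work.MP_2dba45_nt.Bil

open Finset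

theorem bez_coprime (n p : ℕ) (hp : p.Prime) (h : n.factorization p = 1) :
    IsCoprime (p : ℤ) ((n / p : ℕ) : ℤ) := by
  rw [Nat.isCoprime_iff_coprime]
  rw [Nat.Prime.coprime_iff_not_dvd hp]
  intro hd
  have hn : n ≠ 0 := by
    rintro rfl
    simp at h
  have hpn : p ∣ n := Nat.dvd_of_factorization_pos (by omega)
  obtain ⟨k, hk⟩ := hd
  have h1 : n = p ^ 2 * k := by
    have := Nat.div_mul_cancel hpn
    rw [← this, hk]
    ring
  have h2 : p ^ 2 ∣ n := ⟨k, h1⟩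
  have h3 := (hp.pow_dvd_iff_le_factorization hn).1 h2
  omega

theorem bez_int (n : ℕ) (P : Finset ℕ) (hP : ∀ p ∈ P, p.Prime ∧ n.factorization p = 1) :
    ∃ (cR : ℤ) (cp : ℕ → ℤ),
      (1 : ℤ) = cR * ((∏ p ∈ P, p : ℕ) : ℤ) + ∑ p ∈ P, cp p * ((n / p : ℕ) : ℤ) := by
  classical
  induction P using Finset.induction_on with
  | empty => exact ⟨1, fun _ => 0, by simp⟩
  | insert p P hp ih =>
    obtain ⟨cR, cp, h⟩ := ih (fun q hq => hP q (Finset.mem_insert_of_mem hq))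
    obtain ⟨hpp, hpn⟩ := hP p (Finset.mem_insert_self p P)
    obtain ⟨u, v, huv⟩ := bez_coprime n p hpp hpn
    refine ⟨cR * u, fun q => if q = p then cR * v * ((∏ p ∈ P, p : ℕ) : ℤ) else cp q, ?_⟩
    rw [Finset.prod_insert hp, Finset.sum_insert hp]
    simp only [if_true]
    have h2 : ∑ q ∈ P, (if q = p then cR * v * ((∏ p ∈ P, p : ℕ) : ℤ) else cp q) *
        ((n / q : ℕ) : ℤ) = ∑ q ∈ P, cp q * ((n / q : ℕ) : ℤ) := by
      refine Finset.sum_congr rfl fun q hq => ?_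
      rw [if_neg]
      rintro rfl
      exact hp hq
    rw [h2]
    rw [Nat.cast_mul]
    linear_combination h - cR * ((∏ p ∈ P, p : ℕ) : ℤ) * huv

theorem bez (n : ℕ) (hn : 0 < n) (P : Finset ℕ)
    (hP : ∀ p ∈ P, p.Prime ∧ n.factorization p = 1) :
    ∃ (cR : ℤ) (cp : ℕ → ℤ), (∀ p ∈ P, cp p * ((n / p : ℕ) : ℤ) ≡ 1 [ZMOD p]) ∧
      (1 : ℝ) / n = cR / ((n / ∏ p ∈ P, p : ℕ) : ℝ) + ∑ p ∈ P, (cp p : ℝ) / p := by
  classical
  obtain ⟨cR, cp, h⟩ := bez_int n P hP
  have hdvd : ∀ p ∈ P, p ∣ n := fun p hp =>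
    Nat.dvd_of_factorization_pos (by rw [(hP p hp).2]; norm_num)
  have hprod : ∏ p ∈ P, p ∣ n :=
    Finset.prod_primes_dvd n (fun p hp => (hP p hp).1.prime) hdvd
  refine ⟨cR, cp, ?_, ?_⟩
  · intro p hp
    have hpp := (hP p hp).1
    have h1 : ∀ q ∈ P.erase p, (p : ℤ) ∣ cp q * ((n / q : ℕ) : ℤ) := by
      intro q hq
      rw [Finset.mem_erase] at hq
      refine Dvd.dvd.mul_left ?_ _
      have h2 : p ∣ n / q := by
        have h3 : p ∣ q * (n / q) := by
          rw [Nat.mul_div_cancel' (hdvd q hq.2)]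
          exact hdvd p hp
        rcases hpp.dvd_mul.1 h3 with h4 | h4
        · exact absurd ((Nat.prime_dvd_prime_iff_eq hpp (hP q hq.2).1).1 h4).symm hq.1
        · exact h4
      exact_mod_cast h2
    have h2 : (p : ℤ) ∣ ((∏ p ∈ P, p : ℕ) : ℤ) := by
      exact_mod_cast Finset.dvd_prod_of_mem _ hp
    rw [← Finset.add_sum_erase P _ hp] at h
    have h3 := Finset.dvd_sum h1
    rw [Int.modEq_iff_dvd]
    have h4 : (1 : ℤ) - cp p * ((n / p : ℕ) : ℤ) =
        cR * ((∏ p ∈ P, p : ℕ) : ℤ) + ∑ q ∈ P.erase p, cp q * ((n / q : ℕ) : ℤ) := by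
      linear_combination h
    rw [h4]
    exact dvd_add (Dvd.dvd.mul_left h2 _) h3
  · have hn' : (n : ℝ) ≠ 0 := by positivity
    have hprod0 : ((∏ p ∈ P, p : ℕ) : ℝ) ≠ 0 := by
      intro h0
      have h1 : (∏ p ∈ P, p : ℕ) = 0 := by exact_mod_cast h0
      rw [h1] at hprod
      have := Nat.eq_zero_of_zero_dvd hprod
      omega
    have h1 : (1 : ℝ) = cR * ((∏ p ∈ P, p : ℕ) : ℝ) + ∑ p ∈ P, cp p * ((n / p : ℕ) : ℝ) := by
      have h2 := congrArg (fun z : ℤ => (z : ℝ)) h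
      simp only [Int.cast_one, Int.cast_add, Int.cast_mul, Int.cast_natCast, Int.cast_sum] at h2
      exact h2
    rw [Nat.cast_div hprod hprod0]
    have h2 : ∀ p ∈ P, (cp p : ℝ) / p = (cp p * ((n / p : ℕ) : ℝ)) / n := by
      intro p hp
      have hp0 : (p : ℝ) ≠ 0 := by
        have := (hP p hp).1.pos
        positivity
      rw [Nat.cast_div (hdvd p hp) hp0]
      field_simp
    rw [Finset.sum_congr rfl h2, ← Finset.sum_div]
    field_simp
    linear_combination h1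

end Pool.Agent.Work.MP_2dba45_nt.Bil
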