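import Mathlib
import Pool.Agent.Work.MP_2dba45_nt.BilG

/-!
MODULE PAR (the parametrization). `m = x²+y²`, `ν = nuS m (om x y) q σ r c` (so `ν ≡ om x y (m)`,
`ν ≡ σ (q)`, `ν ≡ c (r)`, by `nuS_spec`), `a = aa x y q σ r c = (x + yν)/m`.
`aa_dvd`: `x + yν ≡ x + y om ≡ 0 (mod m)`.
`aa_mod2`: `m a = x + yν`, `yν ≡ yc (mod ry)`.
`aa_mod1`: `m a (x - σy) = (x + yν)(x - σy)`; with `ν = σ + q t` this is
`x² - σ²y² + q y t (x - σy) ≡ x² + y² = m (mod qy)` because `q ∣ σ²+1`; and `gcd(m, qy) = 1`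
(`gcd(m,y) = gcd(x²,y) = 1`), cancel `m`.
`aa_phase`: identity of reals: `ν/(mqr) = a/(qyr) - x/(qyrm)` since `y ν = m a - x`.
-/

set_option autoImplicit false

namespace Pool.Agent.Work.MP_2dba45_nt.Bil

open Finset Pool.Agent.Work.MP_2dba45_nt.BilDef

section
variable (x y q σ r c : ℕ) (hx : 1 ≤ x) (hy : 1 ≤ y) (hxy : x.Coprime y) (hq : 1 ≤ q)
  (hσ : q ∣ σ ^ 2 + 1) (hr : 1 ≤ r) (hqr : q.Coprime r) (hm : (x ^ 2 + y ^ 2).Coprime (q * r))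
include hx hy hxy hq hσ hr hqr hm

theorem aa_nuS : nuS (x ^ 2 + y ^ 2) (om x y) q σ r c ≡ om x y [MOD (x ^ 2 + y ^ 2)] ∧
    nuS (x ^ 2 + y ^ 2) (om x y) q σ r c ≡ σ [MOD q] ∧
    nuS (x ^ 2 + y ^ 2) (om x y) q σ r c ≡ c [MOD r] := by
  have h1 : (x ^ 2 + y ^ 2).Coprime q := Nat.Coprime.coprime_mul_right_right hm
  have h2 : (x ^ 2 + y ^ 2).Coprime r := Nat.Coprime.coprime_mul_left_right hm
  exact nuS_spec _ _ _ _ _ _ h1 (Nat.Coprime.mul_left h2 hqr)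

theorem aa_dvd : (x ^ 2 + y ^ 2) ∣ x + y * nuS (x ^ 2 + y ^ 2) (om x y) q σ r c := by
  obtain ⟨h1, _, _⟩ := aa_nuS x y q σ r c hx hy hxy hq hσ hr hqr hm
  have h2 := (om_spec x y hx hy hxy).2
  have h3 : x + y * nuS (x ^ 2 + y ^ 2) (om x y) q σ r c ≡ x + y * om x y [MOD (x ^ 2 + y ^ 2)] :=
    Nat.ModEq.add_left _ (Nat.ModEq.mul_left _ h1)
  exact (h3.dvd_iff dvd_rfl).2 h2

theorem aa_mul : (x ^ 2 + y ^ 2) * aa x y q σ r c =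
    x + y * nuS (x ^ 2 + y ^ 2) (om x y) q σ r c := by
  unfold aa
  exact Nat.mul_div_cancel' (aa_dvd x y q σ r c hx hy hxy hq hσ hr hqr hm)

theorem aa_mod1 : (aa x y q σ r c : ℤ) * ((x : ℤ) - σ * y) ≡ 1 [ZMOD ((q * y : ℕ) : ℤ)] := by
  obtain ⟨_, h2, _⟩ := aa_nuS x y q σ r c hx hy hxy hq hσ hr hqr hm
  have h3 := aa_mul x y q σ r c hx hy hxy hq hσ hr hqr hm
  set ν := nuS (x ^ 2 + y ^ 2) (om x y) q σ r c with hν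
  set a := aa x y q σ r c with ha
  have h4 : ((x : ℤ) ^ 2 + (y : ℤ) ^ 2) * a = x + y * ν := by exact_mod_cast h3
  obtain ⟨t, ht⟩ := (Nat.modEq_iff_dvd.1 h2.symm)
  obtain ⟨w, hw⟩ : (q : ℤ) ∣ (σ : ℤ) ^ 2 + 1 := by exact_mod_cast hσ
  have hc : IsCoprime (((q * y : ℕ) : ℤ)) ((x : ℤ) ^ 2 + (y : ℤ) ^ 2) := by
    have h5 : (q * y).Coprime (x ^ 2 + y ^ 2) := by
      refine Nat.Coprime.mul_left ?_ (g_coprime x y hxy)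
      exact (Nat.Coprime.coprime_mul_right_right hm).symm
    have := Nat.isCoprime_iff_coprime.2 h5
    push_cast at this ⊢
    exact this
  rw [Int.modEq_iff_dvd]
  apply hc.dvd_of_dvd_mul_left
  push_cast
  refine ⟨w * y - t * (x - σ * y), ?_⟩
  linear_combination (-(x : ℤ) + σ * y) * h4 + (y : ℤ) ^ 2 * hw - (y : ℤ) * (x - σ * y) * ht

theorem aa_mod2 : (x ^ 2 + y ^ 2) * aa x y q σ r c ≡ x + c * y [MOD r * y] := by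
  obtain ⟨_, _, h2⟩ := aa_nuS x y q σ r c hx hy hxy hq hσ hr hqr hm
  rw [aa_mul x y q σ r c hx hy hxy hq hσ hr hqr hm]
  refine Nat.ModEq.add_left _ ?_
  rw [mul_comm y]
  exact Nat.ModEq.mul_right' y h2

theorem aa_phase (h : ℤ) :
    -(h * nuS (x ^ 2 + y ^ 2) (om x y) q σ r c / ((((x ^ 2 + y ^ 2 : ℕ) : ℝ)) * q * r)) =
      -(h * aa x y q σ r c / ((q : ℝ) * y * r)) +
        h / q * x / (y * r * ((x : ℝ) ^ 2 + (y : ℝ) ^ 2)) := by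
  have h3 := aa_mul x y q σ r c hx hy hxy hq hσ hr hqr hm
  set ν := nuS (x ^ 2 + y ^ 2) (om x y) q σ r c with hν
  set a := aa x y q σ r c with ha
  have h4 : ((x : ℝ) ^ 2 + (y : ℝ) ^ 2) * a = x + y * ν := by exact_mod_cast h3
  have hx0 : (0 : ℝ) < x := by exact_mod_cast hx
  have hy0 : (0 : ℝ) < y := by exact_mod_cast hy
  have hq0 : (0 : ℝ) < q := by exact_mod_cast hq
  have hr0 : (0 : ℝ) < r := by exact_mod_cast hr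
  have hm0 : (0 : ℝ) < (x : ℝ) ^ 2 + (y : ℝ) ^ 2 := by positivity
  push_cast
  have hν' : (ν : ℝ) = (((x : ℝ) ^ 2 + (y : ℝ) ^ 2) * a - x) / y := by
    field_simp
    linear_combination -h4
  rw [hν']
  field_simp
  ring

end

/-- `X₁ conj X₂` in terms of `FF` and `Phi` -/
theorem X_mul_conj (j K N r c x y q₁ σ₁ q₂ σ₂ : ℕ) (h₁ h₂ : ℤ) (hx : 1 ≤ x) (hy : 1 ≤ y)
    (hxy : x.Coprime y) (hq₁ : 1 ≤ q₁) (hq₂ : 1 ≤ q₂) (hσ₁ : q₁ ∣ σ₁ ^ 2 + 1)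
    (hσ₂ : q₂ ∣ σ₂ ^ 2 + 1) (hr : 1 ≤ r) (hqr₁ : q₁.Coprime r) (hqr₂ : q₂.Coprime r)
    (hm : (x ^ 2 + y ^ 2).Coprime (q₁ * q₂ * r)) :
    X j K N r c (x ^ 2 + y ^ 2) (om x y) q₁ σ₁ h₁ *
      (starRingEnd ℂ) (X j K N r c (x ^ 2 + y ^ 2) (om x y) q₂ σ₂ h₂) =
      FF j K N y q₁ q₂ r h₁ h₂ x * Phi y q₁ σ₁ q₂ σ₂ r c h₁ h₂ x := by
  have hm12 := Nat.Coprime.coprime_mul_right_right hm
  have hmr := Nat.Coprime.coprime_mul_left_right hm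
  have hm1 : (x ^ 2 + y ^ 2).Coprime (q₁ * r) :=
    Nat.Coprime.mul_right (Nat.Coprime.coprime_mul_right_right hm12) hmr
  have hm2 : (x ^ 2 + y ^ 2).Coprime (q₂ * r) :=
    Nat.Coprime.mul_right (Nat.Coprime.coprime_mul_left_right hm12) hmr
  have p1 := aa_phase x y q₁ σ₁ r c hx hy hxy hq₁ hσ₁ hr hqr₁ hm1 h₁
  have p2 := aa_phase x y q₂ σ₂ r c hx hy hxy hq₂ hσ₂ hr hqr₂ hm2 h₂
  unfold X FF Phi
  rw [if_pos ⟨hxy, hm⟩, p1, p2]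
  rw [map_mul, ← ee_neg]
  push_cast
  have e1 : ee (-(h₁ * (aa x y q₁ σ₁ r c : ℝ) / ((q₁ : ℝ) * y * r)) +
        h₁ / q₁ * x / (y * r * ((x : ℝ) ^ 2 + (y : ℝ) ^ 2))) *
      ee (-(-(h₂ * (aa x y q₂ σ₂ r c : ℝ) / ((q₂ : ℝ) * y * r)) +
        h₂ / q₂ * x / (y * r * ((x : ℝ) ^ 2 + (y : ℝ) ^ 2)))) =
      ee (((h₁ : ℝ) / q₁ - h₂ / q₂) * x / (y * r * ((x : ℝ) ^ 2 + (y : ℝ) ^ 2))) *
      ee (-(h₁ * (aa x y q₁ σ₁ r c : ℝ) / ((q₁ : ℝ) * y * r)) +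
        h₂ * (aa x y q₂ σ₂ r c : ℝ) / ((q₂ : ℝ) * y * r)) := by
    rw [← ee_add, ← ee_add]
    congr 1
    ring
  linear_combination (1 / (((x : ℂ) ^ 2 + (y : ℂ) ^ 2) * q₁ * r) *
    What j K N (h₁ / (((x : ℝ) ^ 2 + (y : ℝ) ^ 2) * q₁ * r)) *
    (starRingEnd ℂ) (1 / (((x : ℂ) ^ 2 + (y : ℂ) ^ 2) * q₂ * r) *
      What j K N (h₂ / (((x : ℝ) ^ 2 + (y : ℝ) ^ 2) * q₂ * r)))) * e1

end Pool.Agent.Work.MP_2dba45_nt.Bil
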