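import Mathlib
import Pool.Agent.Work.MP_2dba45_nt.BilPar
import Pool.Agent.Work.MP_2dba45_nt.BilBez

/-!
MODULE FAC (the phase `Phi` is a periodic function mod `RR` times local factors). Uses BilPar, BilBez.
Notation: `k = h₂q₁ - h₁q₂ ≠ 0`, `q = lcm q₁ q₂`, `𝓜 = q y r = RR * Q0`, `P0` = primes `p` with
`v_p(y q₁ q₂) = 1`, `p ∤ 2 r k`. Let `P_i = {p ∈ P0 : p ∣ q_i y}`, `R_i = q_i y r / ∏ P_i`
(each `p ∈ P_i` divides `q_i y r` exactly once). `BilBez` for `n_i = q_i y r`, `P_i`: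
`1/n_i = cR_i/R_i + Σ_{p ∈ P_i} c_i(p)/p`, `c_i(p) (n_i/p) ≡ 1 (mod p)`.
For `x` satisfying the condition `C(x)`: `x.Coprime y ∧ (x²+y²).Coprime (q₁q₂r)`, `a_i = aa x y q_i σ_i r c`:
`ee(∓h_i a_i/n_i) = ee(∓h_i a_i cR_i/R_i) ∏_{p ∈ P_i} ee(∓h_i c_i(p) a_i/p)` and for `p ∈ P_i`
`a_i ≡ (x - σ_i y)⁻¹ (mod p)` (`aa_mod1`).
Put `κ p = -[p ∣ q₁y] h₁ c₁(p) + [p ∣ q₂y] h₂ c₂(p)`, `s p = σ₁ y` if `p ∣ q₁`, else `σ₂ y`
(if `p ∣ y` then `s p ≡ 0`). Condition at `p ∈ P0`: if `p ∣ y`: `p ∤ x`, i.e. `p ∤ (x-s)(x+s)`; if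
`p ∣ q_i`: `x²+y² ≡ x² - σ_i²y² = (x-s)(x+s)`, so `p ∤ x²+y²` iff `p ∤ (x-s)(x+s)`.
`p ∤ κ p`: if `p ∣ y` (then `p ∤ q₁q₂`): `(yr/p) q₁ q₂ κ ≡ -h₁ q₂ + h₂ q₁ = k`; if `p ∣ q₁` (then
`p ∤ q₂ y`): `κ = -h₁c₁(p)` and `k ≡ -h₁q₂`; similarly `p ∣ q₂`.
`RR`-part: `R_i ∣ RR`; if `x ≡ x' (mod RR)` and both satisfy `C`, then `a_i(x) ≡ a_i(x') (mod R_i)`:
`R_i ∣ n_i = lcm(q_i y, r y)`, modulo `gcd(R_i, q_i y)` use `aa_mod1` (x - σ_i y is a unit), modulo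
`gcd(R_i, r y)` use `aa_mod2` (x²+y² is a unit). `C(x) ↔ C_R(x) ∧ ∀ p ∈ P0, C_p(x)` where `C_R` is the
condition at the primes dividing `RR` and depends only on `x mod RR`. Define `ΦR x` by choice:
if there is `x' ≥ 1`, `x' ≡ x (mod RR)`, `C(x')`, take `ee(-h₁a₁(x')cR₁/R₁ + h₂a₂(x')cR₂/R₂)`, else 0.
-/

set_option autoImplicit false

namespace Pool.Agent.Work.MP_2dba45_nt.Bil

open Finset Pool.Agent.Work.MP_2dba45_nt.BilDef

theorem fac_mem {y q₁ q₂ r : ℕ} {k : ℤ} {p : ℕ} (hp : p ∈ P0 y q₁ q₂ r k) :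
    p.Prime ∧ ¬ p ^ 2 ∣ y * q₁ * q₂ ∧ p ∣ y * q₁ * q₂ ∧ ¬ p ∣ r ∧ ¬ (p : ℤ) ∣ k := by
  unfold P0 at hp
  rw [mem_filter, Nat.mem_primeFactors] at hp
  obtain ⟨⟨hpp, hd, hne⟩, h1, h2⟩ := hp
  refine ⟨hpp, ?_, hd, ?_, ?_⟩
  · intro h
    have := (hpp.pow_dvd_iff_le_factorization hne).1 h
    omega
  · intro h
    apply h2
    have h3 : (p : ℤ) ∣ (r : ℤ) := by exact_mod_cast h
    exact Dvd.dvd.mul_right (Dvd.dvd.mul_left h3 2) k
  · intro h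
    exact h2 (Dvd.dvd.mul_left h _)

/-- each good prime divides exactly one of the three factors -/
theorem fac_tri {y q₁ q₂ r : ℕ} {k : ℤ} {p : ℕ} (hp : p ∈ P0 y q₁ q₂ r k) :
    (p ∣ y ∧ ¬ p ∣ q₁ ∧ ¬ p ∣ q₂) ∨ (¬ p ∣ y ∧ p ∣ q₁ ∧ ¬ p ∣ q₂) ∨
      (¬ p ∣ y ∧ ¬ p ∣ q₁ ∧ p ∣ q₂) := by
  obtain ⟨hpp, hsq, hd, _, _⟩ := fac_mem hp
  have h12 : ¬ (p ∣ y ∧ p ∣ q₁) := by
    rintro ⟨h1, h2⟩
    apply hsq
    rw [sq]
    exact (mul_dvd_mul h1 h2).mul_right _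
  have h13 : ¬ (p ∣ y ∧ p ∣ q₂) := by
    rintro ⟨h1, h2⟩
    apply hsq
    rw [sq]
    exact mul_dvd_mul (h1.mul_right _) h2
  have h23 : ¬ (p ∣ q₁ ∧ p ∣ q₂) := by
    rintro ⟨h1, h2⟩
    apply hsq
    rw [sq]
    exact mul_dvd_mul (h1.mul_left _) h2
  rcases hpp.dvd_mul.1 hd with h | h
  · rcases hpp.dvd_mul.1 h with h | h
    · tauto
    · tauto
  · tauto

theorem fac_Q0_dvd (y q₁ q₂ r : ℕ) (k : ℤ) : Q0 y q₁ q₂ r k ∣ Nat.lcm q₁ q₂ * y * r := by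
  unfold Q0
  refine Finset.prod_primes_dvd _ (fun p hp => (fac_mem hp).1.prime) ?_
  intro p hp
  rcases fac_tri hp with ⟨h, _, _⟩ | ⟨_, h, _⟩ | ⟨_, _, h⟩
  · exact (h.mul_left _).mul_right _
  · exact ((h.trans (Nat.dvd_lcm_left _ _)).mul_right _).mul_right _
  · exact ((h.trans (Nat.dvd_lcm_right _ _)).mul_right _).mul_right _

section
variable (y q₁ q₂ r : ℕ) (k : ℤ) (hy : 1 ≤ y) (hr : 1 ≤ r) (hq₁ : Squarefree q₁)
  (hq₂ : Squarefree q₂)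
include hy hr hq₁ hq₂

theorem RR_mul_Q0 : RR y q₁ q₂ r k * Q0 y q₁ q₂ r k = Nat.lcm q₁ q₂ * y * r := by
  unfold RR
  exact Nat.div_mul_cancel (fac_Q0_dvd y q₁ q₂ r k)

theorem RR_pos : 1 ≤ RR y q₁ q₂ r k := by
  have h := RR_mul_Q0 y q₁ q₂ r k hy hr hq₁ hq₂
  have h1 : 0 < Nat.lcm q₁ q₂ :=
    Nat.lcm_pos (Nat.pos_of_ne_zero hq₁.ne_zero) (Nat.pos_of_ne_zero hq₂.ne_zero)
  have h2 : 0 < Nat.lcm q₁ q₂ * y * r := by positivity
  rw [← h] at h2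
  exact Nat.pos_of_ne_zero (fun h0 => by rw [h0, zero_mul] at h2; omega)

theorem RR_coprime : ∀ p ∈ P0 y q₁ q₂ r k, (RR y q₁ q₂ r k).Coprime p := by
  intro p hp
  obtain ⟨hpp, hsq, hd, hpr, _⟩ := fac_mem hp
  rw [Nat.coprime_comm, hpp.coprime_iff_not_dvd]
  intro h
  have hQ : p ∣ Q0 y q₁ q₂ r k := Finset.dvd_prod_of_mem _ hp
  have h1 := mul_dvd_mul h hQ
  rw [RR_mul_Q0 y q₁ q₂ r k hy hr hq₁ hq₂, ← sq] at h1
  have hc : (p ^ 2).Coprime r := Nat.Coprime.pow_left 2 ((hpp.coprime_iff_not_dvd).2 hpr)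
  have h2 : p ^ 2 ∣ Nat.lcm q₁ q₂ * y := hc.dvd_of_dvd_mul_right h1
  apply hsq
  refine h2.trans ?_
  have h3 : Nat.lcm q₁ q₂ ∣ q₁ * q₂ := Nat.lcm_dvd (dvd_mul_right _ _) (dvd_mul_left _ _)
  have h4 := Nat.mul_dvd_mul_right h3 y
  have e : q₁ * q₂ * y = y * q₁ * q₂ := by ring
  rwa [e] at h4

end

theorem ee_sum' {ι : Type*} (S : Finset ι) (f : ι → ℝ) : ee (∑ i ∈ S, f i) = ∏ i ∈ S, ee (f i) := by
  classical
  induction S using Finset.induction_on with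
  | empty => simp [ee_zero]
  | insert a S ha ih => rw [Finset.sum_insert ha, Finset.prod_insert ha, ee_add, ih]

/-- partial fractions for one side -/
theorem fac_side (y q r : ℕ) (S : Finset ℕ) (hy : 1 ≤ y) (hq : 1 ≤ q) (hr : 1 ≤ r)
    (hS : ∀ p ∈ S, p.Prime ∧ ¬ p ∣ r ∧ ¬ p ^ 2 ∣ q * y) :
    ∃ (R : ℕ) (cR : ℤ) (cp : ℕ → ℤ), 0 < R ∧ R ∣ q * y * r ∧ (∀ p ∈ S, R.Coprime p) ∧
      (∀ p ∈ S, p ∣ q * y → cp p * ((q * y * r / p : ℕ) : ℤ) ≡ 1 [ZMOD p]) ∧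
      (∀ p ∈ S, ¬ p ∣ q * y → cp p = 0) ∧
      (1 : ℝ) / ((q * y * r : ℕ) : ℝ) = cR / (R : ℝ) + ∑ p ∈ S, (cp p : ℝ) / p := by
  classical
  have hn : 0 < q * y * r := by positivity
  have hfac : ∀ p ∈ S.filter (fun p => p ∣ q * y), p.Prime ∧ (q * y * r).factorization p = 1 := by
    intro p hp
    rw [mem_filter] at hp
    obtain ⟨hpp, hpr, hsq⟩ := hS p hp.1
    refine ⟨hpp, ?_⟩
    have h1 : ¬ p ^ 2 ∣ q * y * r := by
      intro h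
      have hc : (p ^ 2).Coprime r := Nat.Coprime.pow_left 2 ((hpp.coprime_iff_not_dvd).2 hpr)
      exact hsq (hc.dvd_of_dvd_mul_right h)
    rw [hpp.pow_dvd_iff_le_factorization hn.ne'] at h1
    have h2 : p ^ 1 ∣ q * y * r := by
      rw [pow_one]
      exact hp.2.mul_right _
    rw [hpp.pow_dvd_iff_le_factorization hn.ne'] at h2
    omega
  obtain ⟨cR, cp, hc, hsum⟩ := bez (q * y * r) hn (S.filter (fun p => p ∣ q * y)) hfac
  have hprod : ∏ p ∈ S.filter (fun p => p ∣ q * y), p ∣ q * y * r := by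
    refine Finset.prod_primes_dvd _ (fun p hp => (hfac p hp).1.prime) ?_
    intro p hp
    rw [mem_filter] at hp
    exact hp.2.mul_right _
  refine ⟨q * y * r / ∏ p ∈ S.filter (fun p => p ∣ q * y), p, cR,
    fun p => if p ∣ q * y then cp p else 0, ?_, Nat.div_dvd_of_dvd hprod, ?_, ?_, ?_, ?_⟩
  · exact Nat.div_pos (Nat.le_of_dvd hn hprod) (Nat.pos_of_dvd_of_pos hprod hn)
  · intro p hp
    obtain ⟨hpp, hpr, hsq⟩ := hS p hp
    rw [Nat.coprime_comm, hpp.coprime_iff_not_dvd]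
    intro h
    by_cases hpd : p ∣ q * y
    · have h1 : p ∣ ∏ p ∈ S.filter (fun p => p ∣ q * y), p :=
        Finset.dvd_prod_of_mem (fun p => p) (mem_filter.2 ⟨hp, hpd⟩)
      have h2 := mul_dvd_mul h h1
      rw [Nat.div_mul_cancel hprod, ← sq] at h2
      have hc : (p ^ 2).Coprime r := Nat.Coprime.pow_left 2 ((hpp.coprime_iff_not_dvd).2 hpr)
      exact hsq (hc.dvd_of_dvd_mul_right h2)
    · have h1 := h.trans (Nat.div_dvd_of_dvd hprod)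
      rcases hpp.dvd_mul.1 h1 with h2 | h2
      · exact hpd h2
      · exact hpr h2
  · intro p hp hpd
    simp only [if_pos hpd]
    exact hc p (mem_filter.2 ⟨hp, hpd⟩)
  · intro p _ hpd
    simp only [if_neg hpd]
  · rw [hsum]
    congr 1
    rw [Finset.sum_filter]
    refine Finset.sum_congr rfl fun p _ => ?_
    by_cases hpd : p ∣ q * y
    · simp only [if_pos hpd]
    · simp only [if_neg hpd]
      simp

/-- splitting of the phase -/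
theorem fac_split (n R : ℕ) (S : Finset ℕ) (cR : ℤ) (cp : ℕ → ℤ)
    (h : (1 : ℝ) / (n : ℝ) = cR / (R : ℝ) + ∑ p ∈ S, (cp p : ℝ) / p) (t : ℤ) :
    ee ((t : ℝ) / n) = ee (((t * cR : ℤ) : ℝ) / R) * ∏ p ∈ S, ee (((t * cp p : ℤ) : ℝ) / p) := by
  have h1 : (t : ℝ) / n = ((t * cR : ℤ) : ℝ) / R + ∑ p ∈ S, ((t * cp p : ℤ) : ℝ) / p := by
    rw [div_eq_mul_one_div, h, mul_add, Finset.mul_sum]
    push_cast
    congr 1
    · ring
    · refine Finset.sum_congr rfl fun p _ => ?_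
      ring
  rw [h1, ee_add, ee_sum']

/-- the quotient depends only on `x` modulo divisors of `q y r` -/
theorem aa_per (x x' y q σ r c R : ℕ) (hx : 1 ≤ x) (hx' : 1 ≤ x') (hy : 1 ≤ y)
    (hxy : x.Coprime y) (hxy' : x'.Coprime y) (hq : 1 ≤ q)
    (hσ : q ∣ σ ^ 2 + 1) (hr : 1 ≤ r) (hqr : q.Coprime r) (hm : (x ^ 2 + y ^ 2).Coprime (q * r))
    (hm' : (x' ^ 2 + y ^ 2).Coprime (q * r)) (hR : R ∣ q * y * r) (hR0 : 0 < R)
    (hxx : (x : ℤ) ≡ x' [ZMOD R]) :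
    (aa x y q σ r c : ℤ) ≡ aa x' y q σ r c [ZMOD R] := by
  have a1 := aa_mod1 x y q σ r c hx hy hxy hq hσ hr hqr hm
  have a1' := aa_mod1 x' y q σ r c hx' hy hxy' hq hσ hr hqr hm'
  have a2 := aa_mod2 x y q σ r c hx hy hxy hq hσ hr hqr hm
  have a2' := aa_mod2 x' y q σ r c hx' hy hxy' hq hσ hr hqr hm'
  set a := aa x y q σ r c with ha
  set a' := aa x' y q σ r c with ha'
  rw [Int.modEq_iff_dvd] at hxx ⊢
  -- reduce to prime powers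
  have key : ∀ (p k : ℕ), p.Prime → p ^ k ∣ R → ((p ^ k : ℕ) : ℤ) ∣ (a' : ℤ) - a := by
    intro p k hp hk
    have hkx : ((p ^ k : ℕ) : ℤ) ∣ (x' : ℤ) - x := (Int.natCast_dvd_natCast.2 hk).trans hxx
    have hkn : p ^ k ∣ q * y * r := hk.trans hR
    by_cases hpr : p ∣ r
    · have hpq : ¬ p ∣ q := by
        intro h
        exact Nat.not_coprime_of_dvd_of_dvd hp.one_lt h hpr hqr
      have h1 : p ^ k ∣ r * y := by
        have hc : (p ^ k).Coprime q := Nat.Coprime.pow_left k ((hp.coprime_iff_not_dvd).2 hpq)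
        apply hc.dvd_of_dvd_mul_left
        have e : q * (r * y) = q * y * r := by ring
        rw [e]
        exact hkn
      have h1' : ((p ^ k : ℕ) : ℤ) ∣ ((r * y : ℕ) : ℤ) := Int.natCast_dvd_natCast.2 h1
      have b1 : ((p ^ k : ℕ) : ℤ) ∣ ((x : ℤ) + c * y) - ((x : ℤ) ^ 2 + (y : ℤ) ^ 2) * a := by
        have := h1'.trans (Nat.modEq_iff_dvd.1 a2)
        push_cast at this ⊢
        exact this
      have b2 : ((p ^ k : ℕ) : ℤ) ∣ ((x' : ℤ) + c * y) - ((x' : ℤ) ^ 2 + (y : ℤ) ^ 2) * a' := by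
        have := h1'.trans (Nat.modEq_iff_dvd.1 a2')
        push_cast at this ⊢
        exact this
      have b3 : ((p ^ k : ℕ) : ℤ) ∣ ((x : ℤ) ^ 2 + (y : ℤ) ^ 2) * ((a' : ℤ) - a) := by
        have e : ((x : ℤ) ^ 2 + (y : ℤ) ^ 2) * ((a' : ℤ) - a) =
            (((x : ℤ) + c * y) - ((x : ℤ) ^ 2 + (y : ℤ) ^ 2) * a) -
            (((x' : ℤ) + c * y) - ((x' : ℤ) ^ 2 + (y : ℤ) ^ 2) * a') +
            ((x' : ℤ) - x) * (1 - (x' + x) * a') := by ring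
        rw [e]
        exact dvd_add (dvd_sub b1 b2) (Dvd.dvd.mul_right hkx _)
      have hc : IsCoprime ((p ^ k : ℕ) : ℤ) ((x : ℤ) ^ 2 + (y : ℤ) ^ 2) := by
        have h5 : (p ^ k).Coprime (x ^ 2 + y ^ 2) := by
          refine Nat.Coprime.pow_left k ?_
          rw [hp.coprime_iff_not_dvd]
          intro h6
          exact Nat.not_coprime_of_dvd_of_dvd hp.one_lt h6 (hpr.mul_left q) hm
        have := Nat.isCoprime_iff_coprime.2 h5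
        push_cast at this ⊢
        exact this
      exact hc.dvd_of_dvd_mul_left b3
    · have h1 : p ^ k ∣ q * y := by
        have hc : (p ^ k).Coprime r := Nat.Coprime.pow_left k ((hp.coprime_iff_not_dvd).2 hpr)
        exact hc.dvd_of_dvd_mul_right hkn
      have h1' : ((p ^ k : ℕ) : ℤ) ∣ ((q * y : ℕ) : ℤ) := Int.natCast_dvd_natCast.2 h1
      have b1 : ((p ^ k : ℕ) : ℤ) ∣ 1 - (a : ℤ) * ((x : ℤ) - σ * y) :=
        h1'.trans (Int.modEq_iff_dvd.1 a1)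
      have b2 : ((p ^ k : ℕ) : ℤ) ∣ 1 - (a' : ℤ) * ((x' : ℤ) - σ * y) :=
        h1'.trans (Int.modEq_iff_dvd.1 a1')
      have e : (a' : ℤ) - a = (1 - (a : ℤ) * ((x : ℤ) - σ * y)) * a' -
          (1 - (a' : ℤ) * ((x' : ℤ) - σ * y)) * a - ((x' : ℤ) - x) * (a * a') := by ring
      rw [e]
      exact dvd_sub (dvd_sub (Dvd.dvd.mul_right b1 _) (Dvd.dvd.mul_right b2 _))
        (Dvd.dvd.mul_right hkx _)
  rw [← Int.dvd_natAbs, Int.natCast_dvd_natCast, Nat.dvd_iff_prime_pow_dvd_dvd]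
  intro p k hp hk
  rw [← Int.natCast_dvd_natCast, Int.dvd_natAbs]
  exact key p k hp hk

/-- the local condition -/
def Dp (y q₁ q₂ r p x : ℕ) : Prop :=
  (p ∣ y → ¬ p ∣ x) ∧ (p ∣ q₁ * q₂ * r → ¬ p ∣ x ^ 2 + y ^ 2)

theorem cond_iff (y q₁ q₂ r x : ℕ) (k : ℤ) (hy : 1 ≤ y) (hr : 1 ≤ r) (hq₁ : Squarefree q₁)
    (hq₂ : Squarefree q₂) :
    (x.Coprime y ∧ (x ^ 2 + y ^ 2).Coprime (q₁ * q₂ * r)) ↔
      (∀ p : ℕ, p.Prime → p ∣ RR y q₁ q₂ r k → Dp y q₁ q₂ r p x) ∧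
        (∀ p ∈ P0 y q₁ q₂ r k, Dp y q₁ q₂ r p x) := by
  constructor
  · rintro ⟨h1, h2⟩
    have h : ∀ p : ℕ, p.Prime → Dp y q₁ q₂ r p x := by
      intro p hp
      refine ⟨fun hy hx => Nat.not_coprime_of_dvd_of_dvd hp.one_lt hx hy h1,
        fun hq hx => Nat.not_coprime_of_dvd_of_dvd hp.one_lt hx hq h2⟩
    exact ⟨fun p hp _ => h p hp, fun p hp => h p (fac_mem hp).1⟩
  · rintro ⟨h1, h2⟩
    have h : ∀ p : ℕ, p.Prime → p ∣ Nat.lcm q₁ q₂ * y * r → Dp y q₁ q₂ r p x := by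
      intro p hp hd
      rw [← RR_mul_Q0 y q₁ q₂ r k hy hr hq₁ hq₂] at hd
      rcases hp.dvd_mul.1 hd with h3 | h3
      · exact h1 p hp h3
      · unfold Q0 at h3
        obtain ⟨q, hq, hpq⟩ := (hp.prime.dvd_finsetProd_iff _).1 h3
        have : p = q := (Nat.prime_dvd_prime_iff_eq hp (fac_mem hq).1).1 hpq
        rw [this]
        exact h2 q hq
    constructor
    · by_contra hcon
      obtain ⟨p, hp, hpx, hpy⟩ := Nat.Prime.not_coprime_iff_dvd.1 hcon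
      exact (h p hp ((hpy.mul_left _).mul_right _)).1 hpy hpx
    · by_contra hcon
      obtain ⟨p, hp, hpx, hpy⟩ := Nat.Prime.not_coprime_iff_dvd.1 hcon
      refine (h p hp ?_).2 hpy hpx
      rcases hp.dvd_mul.1 hpy with h3 | h3
      · rcases hp.dvd_mul.1 h3 with h4 | h4
        · exact ((h4.trans (Nat.dvd_lcm_left _ _)).mul_right _).mul_right _
        · exact ((h4.trans (Nat.dvd_lcm_right _ _)).mul_right _).mul_right _
      · exact h3.mul_left _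

/-- the centre of the local factor -/
def sp (y q₁ σ₁ σ₂ p : ℕ) : ℤ := if p ∣ q₁ then (σ₁ : ℤ) * y else (σ₂ : ℤ) * y

theorem Dp_iff (y q₁ σ₁ q₂ σ₂ r x : ℕ) (k : ℤ) (p : ℕ) (hp : p ∈ P0 y q₁ q₂ r k)
    (hσ₁ : q₁ ∣ σ₁ ^ 2 + 1) (hσ₂ : q₂ ∣ σ₂ ^ 2 + 1) :
    Dp y q₁ q₂ r p x ↔
      ¬ (p : ℤ) ∣ ((x : ℤ) - sp y q₁ σ₁ σ₂ p) * ((x : ℤ) + sp y q₁ σ₁ σ₂ p) := by
  obtain ⟨hpp, _, _, hpr, _⟩ := fac_mem hp
  have hppi : Prime (p : ℤ) := Nat.prime_iff_prime_int.1 hpp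
  have hsec : ∀ (σ : ℕ), p ∣ σ ^ 2 + 1 →
      ((p : ℤ) ∣ ((x : ℤ) - σ * y) * ((x : ℤ) + σ * y) ↔ p ∣ x ^ 2 + y ^ 2) := by
    intro σ hσ
    have h1 : (p : ℤ) ∣ ((σ : ℤ) ^ 2 + 1) := by exact_mod_cast hσ
    have e : ((x : ℤ) - σ * y) * ((x : ℤ) + σ * y) =
        ((x : ℤ) ^ 2 + (y : ℤ) ^ 2) - ((σ : ℤ) ^ 2 + 1) * y ^ 2 := by ring
    rw [e, dvd_sub_left (Dvd.dvd.mul_right h1 _)]
    constructor
    · intro h; exact_mod_cast h
    · intro h; exact_mod_cast h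
  rcases fac_tri hp with ⟨h1, h2, h3⟩ | ⟨h1, h2, h3⟩ | ⟨h1, h2, h3⟩
  · have hn : ¬ p ∣ q₁ * q₂ * r := by
      intro h
      rcases hpp.dvd_mul.1 h with h | h
      · rcases hpp.dvd_mul.1 h with h | h
        · exact h2 h
        · exact h3 h
      · exact hpr h
    have hs : (p : ℤ) ∣ sp y q₁ σ₁ σ₂ p := by
      unfold sp
      rw [if_neg h2]
      exact Dvd.dvd.mul_left (Int.natCast_dvd_natCast.2 h1) _
    unfold Dp
    constructor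
    · rintro ⟨g1, _⟩ hd
      apply g1 h1
      rcases hppi.dvd_or_dvd hd with h | h
      · have := dvd_add h hs
        rw [sub_add_cancel] at this
        exact_mod_cast this
      · have := dvd_sub h hs
        rw [add_sub_cancel_right] at this
        exact_mod_cast this
    · intro hd
      refine ⟨fun _ hx => hd ?_, fun h => absurd h hn⟩
      have hx' : (p : ℤ) ∣ (x : ℤ) := by exact_mod_cast hx
      exact Dvd.dvd.mul_right (dvd_sub hx' hs) _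
  · have hn : p ∣ q₁ * q₂ * r := (h2.mul_right _).mul_right _
    unfold Dp sp
    rw [if_pos h2, hsec σ₁ (h2.trans hσ₁)]
    constructor
    · rintro ⟨_, g⟩
      exact g hn
    · intro g
      exact ⟨fun h => absurd h h1, fun _ => g⟩
  · have hn : p ∣ q₁ * q₂ * r := (h3.mul_left _).mul_right _
    unfold Dp sp
    rw [if_neg h2, hsec σ₂ (h3.trans hσ₂)]
    constructor
    · rintro ⟨_, g⟩
      exact g hn
    · intro g
      exact ⟨fun h => absurd h h1, fun _ => g⟩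

theorem Dp_congr (y q₁ q₂ r p x x' : ℕ) (h : x ≡ x' [MOD p]) :
    Dp y q₁ q₂ r p x ↔ Dp y q₁ q₂ r p x' := by
  unfold Dp
  have h1 : p ∣ x ↔ p ∣ x' := h.dvd_iff dvd_rfl
  have h2 : p ∣ x ^ 2 + y ^ 2 ↔ p ∣ x' ^ 2 + y ^ 2 :=
    (Nat.ModEq.add_right _ (h.pow 2)).dvd_iff dvd_rfl
  rw [h1, h2]

/-- the inverse of the local parameter -/
theorem fac_inv (x y q σ r c p : ℕ) (s : ℤ) (hp : p.Prime) (hx : 1 ≤ x) (hy : 1 ≤ y)
    (hxy : x.Coprime y) (hq : 1 ≤ q) (hσ : q ∣ σ ^ 2 + 1) (hr : 1 ≤ r) (hqr : q.Coprime r)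
    (hm : (x ^ 2 + y ^ 2).Coprime (q * r)) (hpq : p ∣ q * y)
    (hs : (p : ℤ) ∣ s - σ * y) :
    (aa x y q σ r c : ℤ) ≡ ((((x : ℤ) - s : ℤ) : ZMod p)⁻¹.val : ℤ) [ZMOD p] := by
  have : Fact p.Prime := ⟨hp⟩
  have a1 := aa_mod1 x y q σ r c hx hy hxy hq hσ hr hqr hm
  set a := aa x y q σ r c with ha
  rw [Int.modEq_iff_dvd] at a1
  have a2 : (p : ℤ) ∣ 1 - (a : ℤ) * ((x : ℤ) - σ * y) :=
    (Int.natCast_dvd_natCast.2 hpq).trans a1
  have a3 : (p : ℤ) ∣ 1 - (a : ℤ) * ((x : ℤ) - s) := by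
    have e : 1 - (a : ℤ) * ((x : ℤ) - s) = (1 - (a : ℤ) * ((x : ℤ) - σ * y)) +
        (s - σ * y) * a := by ring
    rw [e]
    exact dvd_add a2 (Dvd.dvd.mul_right hs _)
  rw [← ZMod.intCast_eq_intCast_iff]
  rw [← ZMod.intCast_zmod_eq_zero_iff_dvd] at a3
  have h1 : ((a : ℤ) : ZMod p) * (((x : ℤ) - s : ℤ) : ZMod p) = 1 := by
    push_cast at a3 ⊢
    linear_combination -a3
  have h2 : ((a : ℤ) : ZMod p) = ((((x : ℤ) - s : ℤ) : ZMod p))⁻¹ := eq_inv_of_mul_eq_one_left h1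
  rw [h2]
  simp

theorem fac (y q₁ σ₁ q₂ σ₂ r c : ℕ) (h₁ h₂ : ℤ) (hy : 1 ≤ y) (hr : 1 ≤ r)
    (hq₁ : Squarefree q₁) (hq₂ : Squarefree q₂) (ho₁ : q₁.Coprime (2 * r))
    (ho₂ : q₂.Coprime (2 * r)) (hσ₁ : q₁ ∣ σ₁ ^ 2 + 1) (hσ₂ : q₂ ∣ σ₂ ^ 2 + 1)
    (hk : h₂ * q₁ - h₁ * q₂ ≠ 0) :
    ∃ (ΦR : ℕ → ℂ) (κ s : ℕ → ℤ),
      (∀ x, ΦR (x + RR y q₁ q₂ r (h₂ * q₁ - h₁ * q₂)) = ΦR x) ∧ (∀ x, ‖ΦR x‖ ≤ 1) ∧
      (∀ p ∈ P0 y q₁ q₂ r (h₂ * q₁ - h₁ * q₂), ¬ (p : ℤ) ∣ κ p) ∧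
      ∀ x, 1 ≤ x → Phi y q₁ σ₁ q₂ σ₂ r c h₁ h₂ x =
        ΦR x * ∏ p ∈ P0 y q₁ q₂ r (h₂ * q₁ - h₁ * q₂), loc p (κ p) (s p) x := by
  classical
  set k : ℤ := h₂ * q₁ - h₁ * q₂ with hkdef
  have hq₁0 : 1 ≤ q₁ := Nat.pos_of_ne_zero hq₁.ne_zero
  have hq₂0 : 1 ≤ q₂ := Nat.pos_of_ne_zero hq₂.ne_zero
  have hqr₁ : q₁.Coprime r := Nat.Coprime.coprime_mul_left_right ho₁
  have hqr₂ : q₂.Coprime r := Nat.Coprime.coprime_mul_left_right ho₂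
  have hS₁ : ∀ p ∈ P0 y q₁ q₂ r k, p.Prime ∧ ¬ p ∣ r ∧ ¬ p ^ 2 ∣ q₁ * y := by
    intro p hp
    obtain ⟨h1, h2, _, h4, _⟩ := fac_mem hp
    refine ⟨h1, h4, fun h => h2 ?_⟩
    rw [mul_comm y q₁]
    exact h.mul_right _
  have hS₂ : ∀ p ∈ P0 y q₁ q₂ r k, p.Prime ∧ ¬ p ∣ r ∧ ¬ p ^ 2 ∣ q₂ * y := by
    intro p hp
    obtain ⟨h1, h2, _, h4, _⟩ := fac_mem hp
    refine ⟨h1, h4, fun h => h2 ?_⟩
    have e : y * q₁ * q₂ = q₁ * (q₂ * y) := by ring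
    rw [e]
    exact h.mul_left _
  obtain ⟨R₁, cR₁, c₁, hR₁0, hR₁d, hR₁c, hc₁, hc₁0, hs₁⟩ :=
    fac_side y q₁ r (P0 y q₁ q₂ r k) hy hq₁0 hr hS₁
  obtain ⟨R₂, cR₂, c₂, hR₂0, hR₂d, hR₂c, hc₂, hc₂0, hs₂⟩ :=
    fac_side y q₂ r (P0 y q₁ q₂ r k) hy hq₂0 hr hS₂
  have hRR₁ : R₁ ∣ RR y q₁ q₂ r k := by
    have h1 : R₁ ∣ RR y q₁ q₂ r k * Q0 y q₁ q₂ r k := by
      rw [RR_mul_Q0 y q₁ q₂ r k hy hr hq₁ hq₂]
      exact hR₁d.trans (Nat.mul_dvd_mul_right (Nat.mul_dvd_mul_right (Nat.dvd_lcm_left _ _) y) r)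
    have h2 : R₁.Coprime (Q0 y q₁ q₂ r k) := Nat.Coprime.prod_right hR₁c
    exact h2.dvd_of_dvd_mul_right h1
  have hRR₂ : R₂ ∣ RR y q₁ q₂ r k := by
    have h1 : R₂ ∣ RR y q₁ q₂ r k * Q0 y q₁ q₂ r k := by
      rw [RR_mul_Q0 y q₁ q₂ r k hy hr hq₁ hq₂]
      exact hR₂d.trans (Nat.mul_dvd_mul_right (Nat.mul_dvd_mul_right (Nat.dvd_lcm_right _ _) y) r)
    have h2 : R₂.Coprime (Q0 y q₁ q₂ r k) := Nat.Coprime.prod_right hR₂c
    exact h2.dvd_of_dvd_mul_right h1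
  let C : ℕ → Prop := fun x => x.Coprime y ∧ (x ^ 2 + y ^ 2).Coprime (q₁ * q₂ * r)
  let g : ℕ → ℂ := fun x => ee (((-h₁ * aa x y q₁ σ₁ r c * cR₁ : ℤ) : ℝ) / R₁) *
    ee (((h₂ * aa x y q₂ σ₂ r c * cR₂ : ℤ) : ℝ) / R₂)
  let pr : ℕ → ℕ → Prop := fun x x' => 1 ≤ x' ∧ x' ≡ x [MOD RR y q₁ q₂ r k] ∧ C x'
  let G : (ℕ → Prop) → ℂ := fun S => if h : ∃ x', S x' then g h.choose else 0
  refine ⟨fun x => G (pr x), fun p => -h₁ * c₁ p + h₂ * c₂ p, sp y q₁ σ₁ σ₂, ?_, ?_, ?_, ?_⟩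
  · intro x
    have : pr (x + RR y q₁ q₂ r k) = pr x := by
      funext x'
      have h1 : (x' ≡ x + RR y q₁ q₂ r k [MOD RR y q₁ q₂ r k]) ↔
          (x' ≡ x [MOD RR y q₁ q₂ r k]) := by
        unfold Nat.ModEq
        rw [Nat.add_mod_right]
      simp only [pr, h1]
    simp only [this]
  · intro x
    simp only [G]
    split_ifs with h
    · simp only [g]
      rw [norm_mul, norm_ee, norm_ee, mul_one]
    · simp
  · -- `κ`
    intro p hp hd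
    obtain ⟨hpp, _, _, hpr, hpk⟩ := fac_mem hp
    have hppi : Prime (p : ℤ) := Nat.prime_iff_prime_int.1 hpp
    have hp1 : ¬ (p : ℤ) ∣ 1 := fun h => hppi.not_isUnit (isUnit_of_dvd_one h)
    rcases fac_tri hp with ⟨g1, g2, g3⟩ | ⟨g1, g2, g3⟩ | ⟨g1, g2, g3⟩
    · obtain ⟨y', hy'⟩ := g1
      have e1 := hc₁ p hp (Dvd.dvd.mul_left ⟨y', hy'⟩ _)
      have e2 := hc₂ p hp (Dvd.dvd.mul_left ⟨y', hy'⟩ _)
      have d1 : q₁ * y * r / p = q₁ * y' * r :=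
        Nat.div_eq_of_eq_mul_right hpp.pos (by rw [hy']; ring)
      have d2 : q₂ * y * r / p = q₂ * y' * r :=
        Nat.div_eq_of_eq_mul_right hpp.pos (by rw [hy']; ring)
      rw [d1, Int.modEq_iff_dvd] at e1
      rw [d2, Int.modEq_iff_dvd] at e2
      apply hpk
      have e : k = (-h₁ * c₁ p + h₂ * c₂ p) * (q₁ * q₂ * y' * r) -
          (1 - c₁ p * ((q₁ * y' * r : ℕ) : ℤ)) * (h₁ * q₂) +
          (1 - c₂ p * ((q₂ * y' * r : ℕ) : ℤ)) * (h₂ * q₁) := by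
        rw [hkdef]
        push_cast
        ring
      rw [e]
      exact dvd_add (dvd_sub (Dvd.dvd.mul_right hd _) (Dvd.dvd.mul_right e1 _))
        (Dvd.dvd.mul_right e2 _)
    · have z2 := hc₂0 p hp (fun h => by
        rcases hpp.dvd_mul.1 h with h | h
        · exact g3 h
        · exact g1 h)
      have e1 := hc₁ p hp (Dvd.dvd.mul_right g2 _)
      rw [Int.modEq_iff_dvd] at e1
      simp only [z2, mul_zero, add_zero] at hd
      rcases hppi.dvd_or_dvd hd with h | h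
      · apply hpk
        rw [hkdef]
        have g2' : (p : ℤ) ∣ q₁ := by exact_mod_cast g2
        exact dvd_sub (Dvd.dvd.mul_left g2' _) (Dvd.dvd.mul_right ((dvd_neg).1 h) _)
      · apply hp1
        have := dvd_add e1 (Dvd.dvd.mul_right h ((q₁ * y * r / p : ℕ) : ℤ))
        rwa [sub_add_cancel] at this
    · have z1 := hc₁0 p hp (fun h => by
        rcases hpp.dvd_mul.1 h with h | h
        · exact g2 h
        · exact g1 h)
      have e2 := hc₂ p hp (Dvd.dvd.mul_right g3 _)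
      rw [Int.modEq_iff_dvd] at e2
      simp only [z1, mul_zero, zero_add] at hd
      rcases hppi.dvd_or_dvd hd with h | h
      · apply hpk
        rw [hkdef]
        have g3' : (p : ℤ) ∣ q₂ := by exact_mod_cast g3
        exact dvd_sub (Dvd.dvd.mul_right h _) (Dvd.dvd.mul_left g3' _)
      · apply hp1
        have := dvd_add e2 (Dvd.dvd.mul_right h ((q₂ * y * r / p : ℕ) : ℤ))
        rwa [sub_add_cancel] at this
  · intro x hx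
    simp only
    by_cases hCx : C x
    · -- the main case
      have hex : ∃ x', pr x x' := ⟨x, hx, Nat.ModEq.refl _, hCx⟩
      obtain ⟨hx'1, hx'2, hx'3⟩ := hex.choose_spec
      set x' := hex.choose with hx'def
      have hm₁ : ∀ z, C z → (z ^ 2 + y ^ 2).Coprime (q₁ * r) := fun z hz =>
        Nat.Coprime.mul_right (Nat.Coprime.coprime_mul_right_right
          (Nat.Coprime.coprime_mul_right_right hz.2)) (Nat.Coprime.coprime_mul_left_right hz.2)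
      have hm₂ : ∀ z, C z → (z ^ 2 + y ^ 2).Coprime (q₂ * r) := fun z hz =>
        Nat.Coprime.mul_right (Nat.Coprime.coprime_mul_left_right
          (Nat.Coprime.coprime_mul_right_right hz.2)) (Nat.Coprime.coprime_mul_left_right hz.2)
      have hxx₁ : (x' : ℤ) ≡ x [ZMOD R₁] := Int.natCast_modEq_iff.2 (hx'2.of_dvd hRR₁)
      have hxx₂ : (x' : ℤ) ≡ x [ZMOD R₂] := Int.natCast_modEq_iff.2 (hx'2.of_dvd hRR₂)
      have hG : G (pr x) = g x := by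
        simp only [G]
        rw [dif_pos hex]
        simp only [g]
        rw [ee_div_congr hR₁0 (b := -h₁ * aa x y q₁ σ₁ r c * cR₁),
          ee_div_congr hR₂0 (b := h₂ * aa x y q₂ σ₂ r c * cR₂)]
        · refine Int.ModEq.mul_right _ (Int.ModEq.mul_left _ ?_)
          exact aa_per x' x y q₂ σ₂ r c R₂ hx'1 hx hy hx'3.1 hCx.1 hq₂0 hσ₂ hr hqr₂
            (hm₂ _ hx'3) (hm₂ _ hCx) hR₂d hR₂0 hxx₂
        · refine Int.ModEq.mul_right _ (Int.ModEq.mul_left _ ?_)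
          exact aa_per x' x y q₁ σ₁ r c R₁ hx'1 hx hy hx'3.1 hCx.1 hq₁0 hσ₁ hr hqr₁
            (hm₁ _ hx'3) (hm₁ _ hCx) hR₁d hR₁0 hxx₁
      rw [hG]
      unfold Phi
      rw [if_pos hCx]
      have e : ee (-(h₁ * (aa x y q₁ σ₁ r c : ℝ) / ((q₁ : ℝ) * y * r)) +
          h₂ * (aa x y q₂ σ₂ r c : ℝ) / ((q₂ : ℝ) * y * r)) =
          ee (((-h₁ * aa x y q₁ σ₁ r c : ℤ) : ℝ) / ((q₁ * y * r : ℕ) : ℝ)) *
          ee (((h₂ * aa x y q₂ σ₂ r c : ℤ) : ℝ) / ((q₂ * y * r : ℕ) : ℝ)) := by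
        rw [← ee_add]
        congr 1
        push_cast
        ring
      rw [e, fac_split _ R₁ _ cR₁ c₁ hs₁, fac_split _ R₂ _ cR₂ c₂ hs₂]
      simp only [g]
      have e2 : ∀ a b u v : ℂ, (a * u) * (b * v) = (a * b) * (u * v) := fun a b u v => by ring
      rw [e2, ← Finset.prod_mul_distrib]
      congr 1
      refine Finset.prod_congr rfl fun p hp => ?_
      obtain ⟨hpp, _, _, hpr, hpk⟩ := fac_mem hp
      have hDp : Dp y q₁ q₂ r p x :=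
        ((cond_iff y q₁ q₂ r x k hy hr hq₁ hq₂).1 hCx).2 p hp
      unfold loc
      rw [if_neg ((Dp_iff y q₁ σ₁ q₂ σ₂ r x k p hp hσ₁ hσ₂).1 hDp)]
      rw [← ee_add, ← add_div, ← Int.cast_add]
      refine ee_div_congr hpp.pos ?_
      -- congruences
      have hsp1 : p ∣ q₁ * y → (p : ℤ) ∣ sp y q₁ σ₁ σ₂ p - σ₁ * y := by
        intro h
        unfold sp
        split_ifs with h1
        · rw [sub_self]
          exact dvd_zero _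
        · have h2 : p ∣ y := by
            rcases hpp.dvd_mul.1 h with h | h
            · exact absurd h h1
            · exact h
          have h2' : (p : ℤ) ∣ y := by exact_mod_cast h2
          exact dvd_sub (Dvd.dvd.mul_left h2' _) (Dvd.dvd.mul_left h2' _)
      have hsp2 : p ∣ q₂ * y → (p : ℤ) ∣ sp y q₁ σ₁ σ₂ p - σ₂ * y := by
        intro h
        unfold sp
        split_ifs with h1
        · have h2 : p ∣ y := by
            rcases fac_tri hp with ⟨g1, g2, g3⟩ | ⟨g1, g2, g3⟩ | ⟨g1, g2, g3⟩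
            · exact g1
            · rcases hpp.dvd_mul.1 h with h | h
              · exact absurd h g3
              · exact h
            · exact absurd h1 g2
          have h2' : (p : ℤ) ∣ y := by exact_mod_cast h2
          exact dvd_sub (Dvd.dvd.mul_left h2' _) (Dvd.dvd.mul_left h2' _)
        · rw [sub_self]
          exact dvd_zero _
      set iv : ℤ := ((((x : ℤ) - sp y q₁ σ₁ σ₂ p : ℤ) : ZMod p)⁻¹.val : ℤ) with hiv
      have b1 : c₁ p * (aa x y q₁ σ₁ r c : ℤ) ≡ c₁ p * iv [ZMOD p] := by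
        by_cases h : p ∣ q₁ * y
        · exact Int.ModEq.mul_left _ (fac_inv x y q₁ σ₁ r c p _ hpp hx hy hCx.1 hq₁0 hσ₁ hr hqr₁
            (hm₁ _ hCx) h (hsp1 h))
        · rw [hc₁0 p hp h, zero_mul, zero_mul]
      have b2 : c₂ p * (aa x y q₂ σ₂ r c : ℤ) ≡ c₂ p * iv [ZMOD p] := by
        by_cases h : p ∣ q₂ * y
        · exact Int.ModEq.mul_left _ (fac_inv x y q₂ σ₂ r c p _ hpp hx hy hCx.1 hq₂0 hσ₂ hr hqr₂
            (hm₂ _ hCx) h (hsp2 h))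
        · rw [hc₂0 p hp h, zero_mul, zero_mul]
      have b3 := (Int.ModEq.mul_left (-h₁) b1).add (Int.ModEq.mul_left h₂ b2)
      have e3 : -h₁ * (aa x y q₁ σ₁ r c : ℤ) * c₁ p + h₂ * (aa x y q₂ σ₂ r c : ℤ) * c₂ p =
          -h₁ * (c₁ p * (aa x y q₁ σ₁ r c : ℤ)) + h₂ * (c₂ p * (aa x y q₂ σ₂ r c : ℤ)) := by ring
      have e4 : (-h₁ * c₁ p + h₂ * c₂ p) * iv = -h₁ * (c₁ p * iv) + h₂ * (c₂ p * iv) := by ring
      rw [e3, e4]
      exact b3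
    · unfold Phi
      rw [if_neg hCx]
      symm
      by_cases hB : ∀ p ∈ P0 y q₁ q₂ r k, Dp y q₁ q₂ r p x
      · have hA : ¬ ∃ x', pr x x' := by
          rintro ⟨x', h1, h2, h3⟩
          apply hCx
          refine (cond_iff y q₁ q₂ r x k hy hr hq₁ hq₂).2 ⟨fun p hp hpd => ?_, hB⟩
          have h4 := ((cond_iff y q₁ q₂ r x' k hy hr hq₁ hq₂).1 h3).1 p hp hpd
          exact (Dp_congr y q₁ q₂ r p x' x (h2.of_dvd hpd)).1 h4
        have hG : G (pr x) = 0 := by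
          simp only [G]
          rw [dif_neg hA]
        rw [hG, zero_mul]
      · push Not at hB
        obtain ⟨p, hp, hnot⟩ := hB
        have h0 : loc p (-h₁ * c₁ p + h₂ * c₂ p) (sp y q₁ σ₁ σ₂ p) x = 0 := by
          unfold loc
          rw [if_pos]
          by_contra hcon
          exact hnot ((Dp_iff y q₁ σ₁ q₂ σ₂ r x k p hp hσ₁ hσ₂).2 hcon)
        rw [Finset.prod_eq_zero hp h0, mul_zero]

end Pool.Agent.Work.MP_2dba45_nt.Bil
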