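import Mathlib
import Pool.Agent.Work.MP_2dba45_nt.BilBase

/-!
MODULE INC (incomplete sums of products of local functions).
Step 1 (two coprime moduli `A, B`, `u B + v A = 1`): if `F x = FA x * FB x` with `FA` `A`-periodic
and `FB` `B`-periodic then
`∑_{x < AB} F x ee(l x/(AB)) = (∑_{x<A} FA x ee(l u x/A)) (∑_{x<B} FB x ee(l v x/B))` (CRT).
Step 2 (induction on `P`): for `𝓜 = R ∏ P` and all integers `l`,
`‖∑_{x<𝓜} F x ee(l x/𝓜)‖ ≤ R ∏_{p∈P} (C √p)`.
Step 3 (completion): `∑_{u ≤ x < v} F x = (1/𝓜) ∑_{l<𝓜} F̂(l) ∑_{u≤x<v} ee(-l x/𝓜)`, and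
`‖∑_{u≤x<v} ee(-l x/𝓜)‖ ≤ min(v - u, 1/(2‖l/𝓜‖))`, whose sum over `l` is
`≤ (v-u) + 𝓜 (1 + log 𝓜)`. (Compl.lean has similar lemmas: `geom_bound`, `sum_norm_hat`.)
-/

set_option autoImplicit false

namespace Pool.Agent.Work.MP_2dba45_nt.Bil

open Finset

private theorem per_mul_inc {A : ℕ} {F : ℕ → ℂ} (hF : ∀ x, F (x + A) = F x) (k x : ℕ) :
    F (x + A * k) = F x := by
  induction k with
  | zero => simp
  | succ k ih => rw [mul_add, mul_one, ← add_assoc, hF, ih]

private theorem per_mod_inc {A : ℕ} {F : ℕ → ℂ} (hF : ∀ x, F (x + A) = F x) (x : ℕ) :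
    F (x % A) = F x := by
  have := per_mul_inc hF (x / A) (x % A)
  rw [Nat.mod_add_div] at this
  exact this.symm

private theorem ee_mod_inc {A : ℕ} (hA : 0 < A) (l : ℤ) (x : ℕ) :
    ee (l * ((x % A : ℕ) : ℝ) / (A : ℝ)) = ee (l * (x : ℝ) / (A : ℝ)) := by
  have h := ee_div_congr (a := l * ((x % A : ℕ) : ℤ)) (b := l * (x : ℤ)) hA (by
    apply Int.ModEq.mul_left
    rw [Int.natCast_mod]
    exact Int.mod_modEq _ _)
  push_cast at h ⊢
  exact h

private theorem crt_sum_inc (A B : ℕ) (hA : 0 < A) (hB : 0 < B) (hAB : A.Coprime B)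
    (FA FB : ℕ → ℂ) (hFA : ∀ x, FA (x + A) = FA x) (hFB : ∀ x, FB (x + B) = FB x) (l : ℤ) :
    ∃ l1 l2 : ℤ, ∑ x ∈ range (A * B), FA x * FB x * ee (l * x / ((A * B : ℕ) : ℝ)) =
      (∑ x ∈ range A, FA x * ee (l1 * x / (A : ℝ))) *
        (∑ x ∈ range B, FB x * ee (l2 * x / (B : ℝ))) := by
  obtain ⟨a, b, hab⟩ := Nat.isCoprime_iff_coprime.2 hAB
  refine ⟨l * b, l * a, ?_⟩
  rw [Finset.sum_mul_sum, ← Finset.sum_product']
  have hA' : (A : ℝ) ≠ 0 := by positivity
  have hB' : (B : ℝ) ≠ 0 := by positivity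
  have hab' : (a : ℝ) * A + b * B = 1 := by exact_mod_cast hab
  refine Finset.sum_nbij' (fun x => (x % A, x % B))
    (fun p => (Nat.chineseRemainder hAB p.1 p.2 : ℕ)) ?_ ?_ ?_ ?_ ?_
  · intro x _
    simp only [Finset.mem_product, Finset.mem_range]
    exact ⟨Nat.mod_lt _ hA, Nat.mod_lt _ hB⟩
  · intro p _
    rw [Finset.mem_range]
    exact Nat.chineseRemainder_lt_mul hAB _ _ hA.ne' hB.ne'
  · intro x hx
    rw [Finset.mem_range] at hx
    have h1 : x ≡ Nat.chineseRemainder hAB (x % A) (x % B) [MOD A * B] :=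
      Nat.chineseRemainder_modEq_unique hAB (Nat.mod_modEq x A).symm (Nat.mod_modEq x B).symm
    exact (Nat.ModEq.eq_of_lt_of_lt h1 hx
      (Nat.chineseRemainder_lt_mul hAB _ _ hA.ne' hB.ne')).symm
  · rintro ⟨p, q⟩ hp
    simp only [Finset.mem_product, Finset.mem_range] at hp
    have h2 := (Nat.chineseRemainder hAB p q).2
    ext
    · show (Nat.chineseRemainder hAB p q : ℕ) % A = p
      have := h2.1
      rw [Nat.ModEq, Nat.mod_eq_of_lt hp.1] at this
      exact this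
    · show (Nat.chineseRemainder hAB p q : ℕ) % B = q
      have := h2.2
      rw [Nat.ModEq, Nat.mod_eq_of_lt hp.2] at this
      exact this
  · intro x _
    simp only
    rw [per_mod_inc hFA, per_mod_inc hFB, ee_mod_inc hA, ee_mod_inc hB]
    have h3 : (l : ℝ) * x / ((A * B : ℕ) : ℝ) =
        ((l * b : ℤ) : ℝ) * x / (A : ℝ) + ((l * a : ℤ) : ℝ) * x / (B : ℝ) := by
      push_cast
      field_simp
      linear_combination (-(l : ℝ) * x) * hab'
    rw [h3, ee_add]
    ring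

private theorem per_prod_inc (P : Finset ℕ) (R : ℕ) (Φ : ℕ → ℂ) (hΦ : ∀ x, Φ (x + R) = Φ x)
    (f : ℕ → ℕ → ℂ) (hf : ∀ p ∈ P, ∀ x, f p (x + p) = f p x) (x : ℕ) :
    Φ (x + R * ∏ p ∈ P, p) * ∏ p ∈ P, f p (x + R * ∏ p ∈ P, p) = Φ x * ∏ p ∈ P, f p x := by
  rw [per_mul_inc hΦ]
  congr 1
  refine Finset.prod_congr rfl fun p hp => ?_
  obtain ⟨k, hk⟩ : p ∣ R * ∏ p ∈ P, p := Dvd.dvd.mul_left (Finset.dvd_prod_of_mem _ hp) R
  rw [hk]
  exact per_mul_inc (hf p hp) k x

private theorem hat_bound_inc (R : ℕ) (hR : 1 ≤ R) (Φ : ℕ → ℂ) (hΦ : ∀ x, Φ (x + R) = Φ x)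
    (hΦ1 : ∀ x, ‖Φ x‖ ≤ 1) (f : ℕ → ℕ → ℂ) (C : ℝ) (P : Finset ℕ) :
    ∀ (_ : ∀ p ∈ P, p.Prime) (_ : ∀ p ∈ P, R.Coprime p)
    (_ : ∀ p ∈ P, ∀ x, f p (x + p) = f p x)
    (_ : ∀ p ∈ P, ∀ l : ℤ, ‖∑ x ∈ range p, f p x * ee (l * x / (p : ℝ))‖ ≤ C * Real.sqrt p)
    (l : ℤ), ‖∑ x ∈ range (R * ∏ p ∈ P, p), (Φ x * ∏ p ∈ P, f p x) *
      ee (l * x / ((R * ∏ p ∈ P, p : ℕ) : ℝ))‖ ≤ R * ∏ p ∈ P, (C * Real.sqrt p) := by
  induction P using Finset.induction_on with
  | empty =>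
    intro _ _ _ _ l
    simp only [Finset.prod_empty, mul_one]
    calc ‖∑ x ∈ range R, Φ x * ee (l * x / (R : ℝ))‖ ≤ ∑ x ∈ range R, (1 : ℝ) := by
          refine norm_sum_le_of_le _ fun x _ => ?_
          rw [norm_mul, norm_ee, mul_one]
          exact hΦ1 x
      _ = R := by simp
  | insert p P hpP ih =>
    intro hP hcop hf hfb l
    have ih' := ih (fun q hq => hP q (Finset.mem_insert_of_mem hq))
      (fun q hq => hcop q (Finset.mem_insert_of_mem hq))
      (fun q hq => hf q (Finset.mem_insert_of_mem hq))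
      (fun q hq => hfb q (Finset.mem_insert_of_mem hq))
    have hpp := hP p (Finset.mem_insert_self _ _)
    have hprod0 : 0 < ∏ q ∈ P, q :=
      Finset.prod_pos fun q hq => (hP q (Finset.mem_insert_of_mem hq)).pos
    have hA : 0 < R * ∏ q ∈ P, q := Nat.mul_pos hR hprod0
    have hAp : (R * ∏ q ∈ P, q).Coprime p := by
      apply Nat.Coprime.mul_left (hcop p (Finset.mem_insert_self _ _))
      apply Nat.Coprime.prod_left
      intro q hq
      rw [Nat.coprime_primes (hP q (Finset.mem_insert_of_mem hq)) hpp]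
      rintro rfl
      exact hpP hq
    obtain ⟨l1, l2, h12⟩ := crt_sum_inc (R * ∏ q ∈ P, q) p hA hpp.pos hAp
      (fun x => Φ x * ∏ q ∈ P, f q x) (f p)
      (per_prod_inc P R Φ hΦ f (fun q hq => hf q (Finset.mem_insert_of_mem hq)))
      (hf p (Finset.mem_insert_self _ _)) l
    have e1 : R * ∏ q ∈ insert p P, q = (R * ∏ q ∈ P, q) * p := by
      rw [Finset.prod_insert hpP]; ring
    rw [e1]
    have e2 : ∀ x, Φ x * ∏ q ∈ insert p P, f q x = (Φ x * ∏ q ∈ P, f q x) * f p x := by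
      intro x
      rw [Finset.prod_insert hpP]; ring
    simp_rw [e2]
    rw [h12, norm_mul, Finset.prod_insert hpP]
    have h3 := ih' l1
    have h4 := hfb p (Finset.mem_insert_self _ _) l2
    have h5 : 0 ≤ R * ∏ p ∈ P, (C * Real.sqrt p) := (norm_nonneg _).trans h3
    calc _ ≤ (R * ∏ p ∈ P, (C * Real.sqrt p)) * (C * Real.sqrt p) :=
          mul_le_mul h3 h4 (norm_nonneg _) h5
      _ = _ := by ring

private theorem sin_lower_inc {t : ℝ} (h0 : 0 < t) (h1 : t < 1) :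
    2 * min t (1 - t) ≤ Real.sin (Real.pi * t) := by
  rcases le_total t (1 / 2) with h | h
  · have := Real.mul_le_sin (x := Real.pi * t) (by positivity)
      (by nlinarith [Real.pi_pos])
    have e : 2 / Real.pi * (Real.pi * t) = 2 * t := by
      field_simp
    rw [e] at this
    have hm : min t (1 - t) ≤ t := min_le_left _ _
    linarith
  · have := Real.mul_le_sin (x := Real.pi * (1 - t)) (by nlinarith [Real.pi_pos])
      (by nlinarith [Real.pi_pos])
    have e : 2 / Real.pi * (Real.pi * (1 - t)) = 2 * (1 - t) := by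
      field_simp
    rw [e] at this
    have e2 : Real.sin (Real.pi * (1 - t)) = Real.sin (Real.pi * t) := by
      rw [mul_sub, mul_one, Real.sin_pi_sub]
    rw [e2] at this
    have hm : min t (1 - t) ≤ 1 - t := min_le_right _ _
    linarith

private theorem norm_ee_sub_one_inc {t : ℝ} (h0 : 0 < t) (h1 : t < 1) :
    4 * min t (1 - t) ≤ ‖ee t - 1‖ := by
  have e : ee t = Complex.exp (Complex.I * ((2 * Real.pi * t : ℝ) : ℂ)) := by
    unfold ee
    rw [mul_comm]
  rw [e, Complex.norm_exp_I_mul_ofReal_sub_one]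
  have h2 : 2 * Real.pi * t / 2 = Real.pi * t := by ring
  rw [h2, Real.norm_eq_abs]
  have h3 := sin_lower_inc h0 h1
  refine le_trans ?_ (le_abs_self _)
  linarith

private theorem geom_inc {M : ℕ} {l : ℕ} (h0 : 0 < l) (h1 : l < M) (u v : ℕ) (huv : u ≤ v) :
    ‖∑ x ∈ Ico u v, ee (-(l * x / (M : ℝ)))‖ ≤ (M : ℝ) / 2 * (1 / (l : ℝ) + 1 / ((M : ℝ) - l)) := by
  have hM : (0 : ℝ) < M := by exact_mod_cast (h0.trans h1)
  have hl : (0 : ℝ) < l := by exact_mod_cast h0
  have hlM : (l : ℝ) < M := by exact_mod_cast h1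
  set t : ℝ := (l : ℝ) / M with ht
  have ht0 : 0 < t := by positivity
  have ht1 : t < 1 := by rw [ht, div_lt_one hM]; exact hlM
  have hlow := norm_ee_sub_one_inc ht0 ht1
  have hmin : 0 < min t (1 - t) := lt_min ht0 (by linarith)
  have hz : ‖ee (-t) - 1‖ = ‖ee t - 1‖ := by
    rw [ee_neg]
    have : (starRingEnd ℂ) (ee t) - 1 = (starRingEnd ℂ) (ee t - 1) := by simp
    rw [this]
    exact RCLike.norm_conj _
  rw [← hz] at hlow
  have hne : ee (-t) ≠ 1 := by
    intro h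
    rw [h, sub_self, norm_zero] at hlow
    linarith
  have h2 : ∑ x ∈ Ico u v, ee (-(l * x / (M : ℝ))) =
      (ee (-t) ^ v - ee (-t) ^ u) / (ee (-t) - 1) := by
    rw [← geom_sum_Ico hne huv]
    refine Finset.sum_congr rfl fun x _ => ?_
    rw [← ee_nat_mul]
    congr 1
    rw [ht]
    ring
  rw [h2, norm_div]
  have h3 : ‖ee (-t) ^ v - ee (-t) ^ u‖ ≤ 2 := by
    calc ‖ee (-t) ^ v - ee (-t) ^ u‖ ≤ ‖ee (-t) ^ v‖ + ‖ee (-t) ^ u‖ := norm_sub_le _ _
      _ = 2 := by rw [norm_pow, norm_pow, norm_ee, one_pow, one_pow]; norm_num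
  calc ‖ee (-t) ^ v - ee (-t) ^ u‖ / ‖ee (-t) - 1‖
      ≤ 2 / (4 * min t (1 - t)) := by gcongr
    _ = (1 / 2) * (1 / min t (1 - t)) := by field_simp; ring
    _ ≤ (1 / 2) * (1 / t + 1 / (1 - t)) := by
        have p1 : 0 < 1 / t := by positivity
        have p2 : 0 < 1 / (1 - t) := by
          have : 0 < 1 - t := by linarith
          positivity
        rcases min_choice t (1 - t) with h | h <;> rw [h] <;> nlinarith
    _ = (M : ℝ) / 2 * (1 / (l : ℝ) + 1 / ((M : ℝ) - l)) := by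
        rw [ht]
        have : (M : ℝ) - l ≠ 0 := by linarith
        have h5 : 1 - (l : ℝ) / M = ((M : ℝ) - l) / M := by field_simp
        rw [h5]
        field_simp

private theorem sum_wt_inc (M : ℕ) (hM : 0 < M) :
    ∑ l ∈ (range M).filter (fun l => l ≠ 0), (M : ℝ) / 2 * (1 / (l : ℝ) + 1 / ((M : ℝ) - l)) ≤
      M * (1 + Real.log M) := by
  have h1 : ∑ l ∈ (range M).filter (fun l => l ≠ 0), (1 / (l : ℝ)) ≤ 1 + Real.log M := by
    calc ∑ l ∈ (range M).filter (fun l => l ≠ 0), (1 / (l : ℝ))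
        = ∑ i ∈ range (M - 1), ((i + 1 : ℕ) : ℝ)⁻¹ := by
          refine Finset.sum_nbij' (fun j => j - 1) (fun i => i + 1) ?_ ?_ ?_ ?_ ?_
          · intro j hj
            simp only [Finset.mem_filter, Finset.mem_range] at hj ⊢
            omega
          · intro j hj
            simp only [Finset.mem_filter, Finset.mem_range] at hj ⊢
            omega
          · intro j hj
            simp only [Finset.mem_filter, Finset.mem_range] at hj ⊢
            omega
          · intro j hj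
            simp
          · intro j hj
            simp only [Finset.mem_filter, Finset.mem_range] at hj
            rw [Nat.sub_add_cancel (Nat.pos_of_ne_zero hj.2), one_div]
      _ ≤ ∑ i ∈ range M, ((i + 1 : ℕ) : ℝ)⁻¹ := by
          apply Finset.sum_le_sum_of_subset_of_nonneg
          · intro i hi
            rw [Finset.mem_range] at hi ⊢
            omega
          · intro i _ _
            positivity
      _ = ((harmonic M : ℚ) : ℝ) := by
          rw [harmonic]; push_cast; rfl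
      _ ≤ 1 + Real.log M := harmonic_le_one_add_log M
  have h2 : ∑ l ∈ (range M).filter (fun l => l ≠ 0), (1 / ((M : ℝ) - l)) =
      ∑ l ∈ (range M).filter (fun l => l ≠ 0), (1 / (l : ℝ)) := by
    refine Finset.sum_nbij' (fun j => M - j) (fun j => M - j) ?_ ?_ ?_ ?_ ?_
    · intro j hj
      simp only [Finset.mem_filter, Finset.mem_range] at hj ⊢
      omega
    · intro j hj
      simp only [Finset.mem_filter, Finset.mem_range] at hj ⊢
      omega
    · intro j hj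
      simp only [Finset.mem_filter, Finset.mem_range] at hj ⊢
      omega
    · intro j hj
      simp only [Finset.mem_filter, Finset.mem_range] at hj ⊢
      omega
    · intro j hj
      simp only [Finset.mem_filter, Finset.mem_range] at hj
      rw [Nat.cast_sub hj.1.le]
  rw [← Finset.mul_sum, Finset.sum_add_distrib, h2]
  have hM' : (0 : ℝ) < M := by exact_mod_cast hM
  nlinarith

private theorem orth_inc (M : ℕ) (hM : 0 < M) (y x : ℕ) :
    ∑ l ∈ range M, ee (l * y / (M : ℝ)) * ee (-(l * x / (M : ℝ))) =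
      if y ≡ x [MOD M] then (M : ℂ) else 0 := by
  have hM' : (M : ℝ) ≠ 0 := by positivity
  have h1 : ∀ l : ℕ, ee (l * y / (M : ℝ)) * ee (-(l * x / (M : ℝ))) =
      ee (((y : ℝ) - x) / M) ^ l := by
    intro l
    rw [← ee_add, ← ee_nat_mul]
    congr 1
    ring
  simp_rw [h1]
  split_ifs with h
  · have h2 : ee (((y : ℝ) - x) / M) = 1 := by
      have h3 : (M : ℤ) ∣ (y : ℤ) - x := (Nat.modEq_iff_dvd.1 h.symm)
      obtain ⟨k, hk⟩ := h3
      have h4 : ((y : ℝ) - x) / M = (k : ℤ) := by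
        have : (y : ℝ) - x = M * k := by exact_mod_cast hk
        rw [this]
        field_simp
      rw [h4, ee_int]
    rw [h2]
    simp
  · have hne : ee (((y : ℝ) - x) / M) ≠ 1 := by
      intro h2
      apply h
      unfold ee at h2
      rw [Complex.exp_eq_one_iff] at h2
      obtain ⟨k, hk⟩ := h2
      have hpi : (2 * (Real.pi : ℂ) * Complex.I) ≠ 0 := Complex.two_pi_I_ne_zero
      have h3 : ((((y : ℝ) - x) / M : ℝ) : ℂ) = (k : ℂ) := by
        have : (2 * (Real.pi : ℂ) * Complex.I) * ((((y : ℝ) - x) / M : ℝ) : ℂ) =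
            (2 * (Real.pi : ℂ) * Complex.I) * k := by
          rw [mul_comm _ (k : ℂ), ← hk]
          push_cast
          ring
        exact mul_left_cancel₀ hpi this
      have h4 : ((y : ℝ) - x) / M = k := by exact_mod_cast h3
      have h5 : (y : ℝ) - x = M * k := by
        rw [← h4]; field_simp
      have h6 : (y : ℤ) - x = M * k := by exact_mod_cast h5
      exact (Nat.modEq_iff_dvd.2 ⟨k, h6⟩).symm
    rw [geom_sum_eq hne, ← ee_nat_mul]
    have : (M : ℝ) * (((y : ℝ) - x) / M) = ((y - x : ℤ) : ℝ) := by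
      push_cast
      field_simp
    rw [this, ee_int, sub_self, zero_div]

private theorem compl_inc (M : ℕ) (hM : 0 < M) (F : ℕ → ℂ) (hF : ∀ x, F (x + M) = F x)
    (B : ℝ) (hB : ∀ l : ℤ, ‖∑ x ∈ range M, F x * ee (l * x / (M : ℝ))‖ ≤ B) (u v : ℕ)
    (huv : u ≤ v) :
    ‖∑ x ∈ Ico u v, F x‖ ≤ B * (((v : ℝ) - u) / M + 1 + Real.log M) := by
  have hM' : (0 : ℝ) < M := by exact_mod_cast hM
  have hB0 : 0 ≤ B := (norm_nonneg _).trans (hB 0)
  have h1 : (M : ℂ) * ∑ x ∈ Ico u v, F x =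
      ∑ l ∈ range M, (∑ y ∈ range M, F y * ee (((l : ℤ) : ℝ) * y / (M : ℝ))) *
        ∑ x ∈ Ico u v, ee (-(l * x / (M : ℝ))) := by
    have h2 : ∀ l ∈ range M, (∑ y ∈ range M, F y * ee (((l : ℤ) : ℝ) * y / (M : ℝ))) *
        ∑ x ∈ Ico u v, ee (-(l * x / (M : ℝ))) =
        ∑ x ∈ Ico u v, ∑ y ∈ range M, F y * (ee (l * y / (M : ℝ)) * ee (-(l * x / (M : ℝ)))) := by
      intro l _
      rw [Finset.sum_mul_sum, Finset.sum_comm]
      refine Finset.sum_congr rfl fun x _ => Finset.sum_congr rfl fun y _ => ?_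
      push_cast
      ring
    rw [Finset.sum_congr rfl h2, Finset.sum_comm, Finset.mul_sum]
    refine Finset.sum_congr rfl fun x _ => ?_
    rw [Finset.sum_comm]
    simp_rw [← Finset.mul_sum, orth_inc M hM]
    rw [Finset.sum_eq_single (x % M)]
    · rw [if_pos (Nat.mod_modEq x M), per_mod_inc hF]
      ring
    · intro y hy hne
      rw [if_neg, mul_zero]
      intro h
      apply hne
      rw [Nat.ModEq, Nat.mod_eq_of_lt (Finset.mem_range.1 hy)] at h
      exact h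
    · intro h
      exact absurd (Finset.mem_range.2 (Nat.mod_lt _ hM)) h
  have h3 : (M : ℝ) * ‖∑ x ∈ Ico u v, F x‖ ≤ B * (((v : ℝ) - u) + M * (1 + Real.log M)) := by
    have h4 : (M : ℝ) * ‖∑ x ∈ Ico u v, F x‖ = ‖(M : ℂ) * ∑ x ∈ Ico u v, F x‖ := by
      rw [norm_mul, Complex.norm_natCast]
    rw [h4, h1]
    calc ‖∑ l ∈ range M, (∑ y ∈ range M, F y * ee (((l : ℤ) : ℝ) * y / (M : ℝ))) *
          ∑ x ∈ Ico u v, ee (-(l * x / (M : ℝ)))‖
        ≤ ∑ l ∈ range M, B * ‖∑ x ∈ Ico u v, ee (-(l * x / (M : ℝ)))‖ := by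
          refine norm_sum_le_of_le _ fun l _ => ?_
          rw [norm_mul]
          gcongr
          exact hB l
      _ = B * ∑ l ∈ range M, ‖∑ x ∈ Ico u v, ee (-(l * x / (M : ℝ)))‖ := by
          rw [Finset.mul_sum]
      _ ≤ B * (((v : ℝ) - u) + M * (1 + Real.log M)) := by
          gcongr
          rw [← Finset.sum_filter_add_sum_filter_not (range M) (fun l => l = 0)]
          apply add_le_add
          · rw [Finset.filter_eq' (range M) 0, if_pos (Finset.mem_range.2 hM),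
              Finset.sum_singleton]
            calc ‖∑ x ∈ Ico u v, ee (-(((0 : ℕ) : ℝ) * x / (M : ℝ)))‖
                ≤ ∑ x ∈ Ico u v, (1 : ℝ) := by
                  refine norm_sum_le_of_le _ fun x _ => ?_
                  rw [norm_ee]
              _ = (v : ℝ) - u := by
                  rw [Finset.sum_const, Nat.card_Ico, nsmul_eq_mul, mul_one, Nat.cast_sub huv]
          · refine le_trans ?_ (sum_wt_inc M hM)
            refine Finset.sum_le_sum fun l hl => ?_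
            simp only [Finset.mem_filter, Finset.mem_range] at hl
            exact geom_inc (Nat.pos_of_ne_zero hl.2) hl.1 u v huv
  have h5 : B * (((v : ℝ) - u) / M + 1 + Real.log M) =
      (B * (((v : ℝ) - u) + M * (1 + Real.log M))) / M := by
    field_simp
    ring
  rw [h5, le_div_iff₀ hM']
  linarith

theorem inc (P : Finset ℕ) (hP : ∀ p ∈ P, p.Prime) (R : ℕ) (hR : 1 ≤ R)
    (hcop : ∀ p ∈ P, R.Coprime p) (Φ : ℕ → ℂ) (hΦ : ∀ x, Φ (x + R) = Φ x) (hΦ1 : ∀ x, ‖Φ x‖ ≤ 1)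
    (f : ℕ → ℕ → ℂ) (hf : ∀ p ∈ P, ∀ x, f p (x + p) = f p x) (C : ℝ) (hC : 1 ≤ C)
    (hfb : ∀ p ∈ P, ∀ l : ℤ, ‖∑ x ∈ range p, f p x * ee (l * x / (p : ℝ))‖ ≤ C * Real.sqrt p)
    (u v : ℕ) (huv : u ≤ v) :
    ‖∑ x ∈ Ico u v, Φ x * ∏ p ∈ P, f p x‖ ≤
      R * C ^ #P * Real.sqrt (∏ p ∈ P, (p : ℝ)) *
        (((v : ℝ) - u) / (R * ∏ p ∈ P, (p : ℝ)) + 2 + Real.log (R * ∏ p ∈ P, (p : ℝ))) := by
  have hprod0 : 0 < ∏ q ∈ P, q := Finset.prod_pos fun q hq => (hP q hq).pos
  have hM : 0 < R * ∏ q ∈ P, q := Nat.mul_pos hR hprod0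
  have hB := hat_bound_inc R hR Φ hΦ hΦ1 f C P hP hcop hf hfb
  have h1 := compl_inc (R * ∏ q ∈ P, q) hM (fun x => Φ x * ∏ p ∈ P, f p x)
    (per_prod_inc P R Φ hΦ f hf) (R * ∏ p ∈ P, (C * Real.sqrt p)) hB u v huv
  have e1 : (R : ℝ) * ∏ p ∈ P, (C * Real.sqrt p) =
      R * C ^ #P * Real.sqrt (∏ p ∈ P, (p : ℝ)) := by
    rw [Finset.prod_mul_distrib, Finset.prod_const, Real.sqrt_prod (s := P) (fun p _ => Nat.cast_nonneg p)]
    ring
  rw [e1] at h1
  refine h1.trans ?_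
  have hB0 : 0 ≤ (R : ℝ) * C ^ #P * Real.sqrt (∏ p ∈ P, (p : ℝ)) := by positivity
  refine mul_le_mul_of_nonneg_left ?_ hB0
  push_cast
  linarith

end Pool.Agent.Work.MP_2dba45_nt.Bil
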