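import Mathlib
import Pool.Agent.Work.MP_2dba45_nt.BilBase

/-!
MODULE LOC (local factor and its Fourier transform, from Weil's bound).
`loc p κ s x` depends only on `x mod p`. For a prime `p ∤ κ`: the sum over `x mod p` is over
`x ≢ ± s`; with `u = x - s` it equals `ee(l s/p) ∑_{u ≠ 0} ee((κ u⁻¹ + l u)/p)` minus the term
`u = -2s` (if `p ∤ 2s`), of norm 1. `ZMod.stdAddChar` on `ZMod p`: `ZMod.stdAddChar_apply` /
`ZMod.stdAddChar_coe : stdAddChar (j : ZMod N) = exp (2 π i j / N)`. So `≤ 2√p + 1 ≤ 3√p`.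
-/

set_option autoImplicit false

namespace Pool.Agent.Work.MP_2dba45_nt.Bil

open Finset

theorem loc_periodic (p : ℕ) (κ s : ℤ) (x : ℕ) : loc p κ s (x + p) = loc p κ s x := by
  unfold loc
  have h1 : (p : ℤ) ∣ (((x + p : ℕ) : ℤ) - s) * (((x + p : ℕ) : ℤ) + s) ↔
      (p : ℤ) ∣ ((x : ℤ) - s) * ((x : ℤ) + s) := by
    have e : (((x + p : ℕ) : ℤ) - s) * (((x + p : ℕ) : ℤ) + s) =
        ((x : ℤ) - s) * ((x : ℤ) + s) + (p : ℤ) * (2 * x + p) := by
      push_cast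
      ring
    rw [e]
    exact dvd_add_left (dvd_mul_right _ _)
  have h2 : ((((x + p : ℕ) : ℤ) - s : ℤ) : ZMod p) = (((x : ℤ) - s : ℤ) : ZMod p) := by
    push_cast
    rw [ZMod.natCast_self, add_zero]
  rw [h2]
  by_cases h : (p : ℤ) ∣ ((x : ℤ) - s) * ((x : ℤ) + s)
  · rw [if_pos h, if_pos (h1.2 h)]
  · rw [if_neg h, if_neg (fun h' => h (h1.1 h'))]

theorem norm_loc_le (p : ℕ) (κ s : ℤ) (x : ℕ) : ‖loc p κ s x‖ ≤ 1 := by
  unfold loc
  split_ifs
  · simp
  · rw [norm_ee]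

private theorem loc_ee (p : ℕ) [NeZero p] (j : ℤ) :
    ee ((j : ℝ) / p) = (ZMod.stdAddChar (j : ZMod p) : ℂ) := by
  rw [ZMod.stdAddChar_coe]
  unfold ee
  congr 1
  push_cast
  ring

private theorem loc_chi_norm (p : ℕ) [NeZero p] (a : ZMod p) :
    ‖(ZMod.stdAddChar a : ℂ)‖ = 1 := by
  have h : a = (((a.val : ℕ) : ℤ) : ZMod p) := by
    simp
  rw [h, ← loc_ee, norm_ee]

theorem loc_bound (hW : WeilBound) (p : ℕ) (hp : p.Prime) (κ s l : ℤ) (hκ : ¬ (p : ℤ) ∣ κ) :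
    ‖∑ x ∈ range p, loc p κ s x * ee (l * x / (p : ℝ))‖ ≤ 3 * Real.sqrt p := by
  haveI hF : Fact p.Prime := ⟨hp⟩
  classical
  set S : ZMod p := (s : ZMod p) with hS
  set K : ZMod p := (κ : ZMod p) with hK
  set Lz : ZMod p := (l : ZMod p) with hL
  have hK0 : K ≠ 0 := by
    intro h
    exact hκ ((ZMod.intCast_zmod_eq_zero_iff_dvd _ _).1 h)
  let χ : ZMod p → ℂ := fun a => (ZMod.stdAddChar a : ℂ)
  have hχadd : ∀ a b, χ (a + b) = χ a * χ b := fun a b => AddChar.map_add_eq_mul _ a b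
  have hχn : ∀ a, ‖χ a‖ = 1 := fun a => loc_chi_norm p a
  let G : ZMod p → ℂ := fun z => χ (K * (z - S)⁻¹ + Lz * z)
  let F : ZMod p → ℂ := fun z => if z = S ∨ z = -S then 0 else G z
  have h1 : ∑ x ∈ range p, loc p κ s x * ee (l * x / (p : ℝ)) = ∑ z : ZMod p, F z := by
    refine Finset.sum_nbij' (fun x : ℕ => (x : ZMod p)) (fun z : ZMod p => z.val)
      (fun _ _ => mem_univ _) (fun z _ => mem_range.2 (ZMod.val_lt z))
      (fun x hx => ZMod.val_cast_of_lt (mem_range.1 hx)) (fun z _ => ZMod.natCast_zmod_val z) ?_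
    intro x _
    have hcond : (p : ℤ) ∣ ((x : ℤ) - s) * ((x : ℤ) + s) ↔
        ((x : ZMod p) = S ∨ (x : ZMod p) = -S) := by
      rw [← ZMod.intCast_zmod_eq_zero_iff_dvd]
      push_cast
      rw [mul_eq_zero, sub_eq_zero, add_eq_zero_iff_eq_neg]
    show loc p κ s x * ee (l * x / (p : ℝ)) =
      if (x : ZMod p) = S ∨ (x : ZMod p) = -S then 0 else G x
    unfold loc
    by_cases h : (p : ℤ) ∣ ((x : ℤ) - s) * ((x : ℤ) + s)
    · rw [if_pos h, if_pos (hcond.1 h), zero_mul]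
    · rw [if_neg h, if_neg (fun h' => h (hcond.2 h'))]
      have e1 : ee ((l : ℝ) * x / (p : ℝ)) = χ (Lz * x) := by
        have := loc_ee p (l * (x : ℤ))
        push_cast at this
        exact this
      have e2 := loc_ee p (κ * ((((x : ℤ) - s : ℤ) : ZMod p)⁻¹.val : ℤ))
      rw [e1, e2]
      show χ _ * χ _ = χ (K * ((x : ZMod p) - S)⁻¹ + Lz * x)
      rw [hχadd]
      congr 2
      push_cast
      rw [ZMod.natCast_zmod_val]
  have h2 : ∑ z : ZMod p, F z = ∑ z ∈ univ.erase S, G z -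
      ∑ z ∈ univ.erase S, (if z = -S then G z else 0) := by
    rw [← Finset.add_sum_erase univ F (mem_univ S)]
    have hFS : F S = 0 := by simp [F]
    rw [hFS, zero_add, ← Finset.sum_sub_distrib]
    refine Finset.sum_congr rfl fun z hz => ?_
    have hzS : z ≠ S := (Finset.mem_erase.1 hz).1
    show (if z = S ∨ z = -S then 0 else G z) = _
    by_cases h : z = -S
    · simp [h]
    · simp [h, hzS]
  have h3 : ‖∑ z ∈ univ.erase S, (if z = -S then G z else 0)‖ ≤ 1 := by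
    rw [Finset.sum_ite_eq']
    split_ifs
    · exact (hχn _).le
    · simp
  have h4 : ∑ z ∈ univ.erase S, G z =
      χ (Lz * S) * ∑ u ∈ (univ : Finset (ZMod p)).erase 0, (ZMod.stdAddChar (Lz * u + K * u⁻¹) : ℂ) := by
    rw [Finset.mul_sum]
    refine Finset.sum_nbij' (fun z => z - S) (fun u => u + S) ?_ ?_ ?_ ?_ ?_
    · intro z hz
      rw [Finset.mem_erase] at hz ⊢
      exact ⟨sub_ne_zero.2 hz.1, mem_univ _⟩
    · intro u hu
      rw [Finset.mem_erase] at hu ⊢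
      exact ⟨fun h => hu.1 (by simpa using h), mem_univ _⟩
    · intro z _
      simp
    · intro u _
      simp
    · intro z _
      show χ (K * (z - S)⁻¹ + Lz * z) = χ (Lz * S) * χ (Lz * (z - S) + K * (z - S)⁻¹)
      rw [← hχadd]
      congr 1
      ring
  have h5 := hW p hF Lz K hK0
  have hp1 : 1 ≤ Real.sqrt p := by
    rw [Real.one_le_sqrt]
    exact_mod_cast hp.one_lt.le
  rw [h1, h2, h4]
  refine (norm_sub_le _ _).trans ?_
  rw [norm_mul, hχn, one_mul]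
  linarith

end Pool.Agent.Work.MP_2dba45_nt.Bil
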