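import Mathlib
import Pool.Agent.Work.MP_2dba45_nt.BilBase

/-!
MODULE BV (Abel summation and calculus of the variation norm `bv F u v = ‖F u‖ + Σ_{u≤x<v} ‖F(x+1)-F x‖`).
`norm_le_bv`: telescoping. `abel`: `∑_{u≤x<v} F x f x = F(v-1) S_v - ∑_{u≤x<v-1} (F(x+1)-F x) S_{x+1}`,
`S_w = ∑_{u≤x<w} f x`. `bv_mul`: `F'G' - FG = (F'-F)G' + F(G'-G)`, sup ≤ bv. `bv_ee`: `‖ee a - ee b‖ ≤ 2π|a-b|`.
-/

set_option autoImplicit false

namespace Pool.Agent.Work.MP_2dba45_nt.Bil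

open Finset

theorem bv_nonneg (F : ℕ → ℂ) (u v : ℕ) : 0 ≤ bv F u v := by
  unfold bv
  positivity

private theorem norm_le_aux (F : ℕ → ℂ) (u : ℕ) : ∀ d : ℕ,
    ‖F (u + d)‖ ≤ ‖F u‖ + ∑ x ∈ Ico u (u + d), ‖F (x + 1) - F x‖ := by
  intro d
  induction d with
  | zero => simp
  | succ d ih =>
    rw [show u + (d + 1) = (u + d) + 1 by ring, Finset.sum_Ico_succ_top (by omega)]
    have : ‖F (u + d + 1)‖ ≤ ‖F (u + d)‖ + ‖F (u + d + 1) - F (u + d)‖ := by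
      calc ‖F (u + d + 1)‖ = ‖F (u + d) + (F (u + d + 1) - F (u + d))‖ := by congr 1; ring
        _ ≤ _ := norm_add_le _ _
    linarith

theorem norm_le_bv (F : ℕ → ℂ) (u v x : ℕ) (hu : u ≤ x) (hv : x ≤ v) : ‖F x‖ ≤ bv F u v := by
  obtain ⟨d, rfl⟩ := Nat.exists_eq_add_of_le hu
  refine (norm_le_aux F u d).trans ?_
  unfold bv
  gcongr

private theorem abel_id (f F : ℕ → ℂ) (u : ℕ) : ∀ d : ℕ,
    ∑ x ∈ Ico u (u + d + 1), F x * f x = F (u + d) * ∑ x ∈ Ico u (u + d + 1), f x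
      - ∑ x ∈ Ico u (u + d), (F (x + 1) - F x) * ∑ z ∈ Ico u (x + 1), f z := by
  intro d
  induction d with
  | zero => simp
  | succ d ih =>
    have h1 : ∑ x ∈ Ico u (u + d + 1 + 1), F x * f x =
        ∑ x ∈ Ico u (u + d + 1), F x * f x + F (u + d + 1) * f (u + d + 1) :=
      Finset.sum_Ico_succ_top (by omega) _
    have h2 : ∑ x ∈ Ico u (u + d + 1 + 1), f x =
        ∑ x ∈ Ico u (u + d + 1), f x + f (u + d + 1) :=
      Finset.sum_Ico_succ_top (by omega) _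
    have h3 : ∑ x ∈ Ico u (u + d + 1), (F (x + 1) - F x) * ∑ z ∈ Ico u (x + 1), f z =
        ∑ x ∈ Ico u (u + d), (F (x + 1) - F x) * ∑ z ∈ Ico u (x + 1), f z
          + (F (u + d + 1) - F (u + d)) * ∑ z ∈ Ico u (u + d + 1), f z :=
      Finset.sum_Ico_succ_top (by omega) _
    rw [show u + (d + 1) = (u + d) + 1 by ring, h1, h2, h3, ih]
    ring

theorem abel (f F : ℕ → ℂ) (u v : ℕ) (huv : u < v) (S : ℝ)
    (hS : ∀ w, u ≤ w → w ≤ v → ‖∑ x ∈ Ico u w, f x‖ ≤ S) :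
    ‖∑ x ∈ Ico u v, F x * f x‖ ≤ 2 * S * bv F u (v - 1) := by
  obtain ⟨d, rfl⟩ := Nat.exists_eq_add_of_lt huv
  have hS0 : 0 ≤ S := by
    have := hS u le_rfl huv.le
    simp at this
    exact this
  rw [abel_id]
  have e : u + d + 1 - 1 = u + d := by omega
  rw [e]
  have h1 : ‖F (u + d) * ∑ x ∈ Ico u (u + d + 1), f x‖ ≤ bv F u (u + d) * S := by
    rw [norm_mul]
    exact mul_le_mul (norm_le_bv F u (u + d) (u + d) (by omega) le_rfl) (hS _ (by omega) le_rfl)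
      (norm_nonneg _) (bv_nonneg _ _ _)
  have h2 : ‖∑ x ∈ Ico u (u + d), (F (x + 1) - F x) * ∑ z ∈ Ico u (x + 1), f z‖ ≤
      bv F u (u + d) * S := by
    calc ‖∑ x ∈ Ico u (u + d), (F (x + 1) - F x) * ∑ z ∈ Ico u (x + 1), f z‖
        ≤ ∑ x ∈ Ico u (u + d), ‖(F (x + 1) - F x) * ∑ z ∈ Ico u (x + 1), f z‖ := norm_sum_le _ _
      _ ≤ ∑ x ∈ Ico u (u + d), ‖F (x + 1) - F x‖ * S := by
          refine Finset.sum_le_sum fun x hx => ?_
          rw [mem_Ico] at hx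
          rw [norm_mul]
          exact mul_le_mul_of_nonneg_left (hS _ (by omega) (by omega)) (norm_nonneg _)
      _ = (∑ x ∈ Ico u (u + d), ‖F (x + 1) - F x‖) * S := by rw [Finset.sum_mul]
      _ ≤ bv F u (u + d) * S := by
          apply mul_le_mul_of_nonneg_right _ hS0
          unfold bv
          linarith [norm_nonneg (F u)]
  calc _ ≤ ‖F (u + d) * ∑ x ∈ Ico u (u + d + 1), f x‖ +
        ‖∑ x ∈ Ico u (u + d), (F (x + 1) - F x) * ∑ z ∈ Ico u (x + 1), f z‖ := norm_sub_le _ _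
    _ ≤ bv F u (u + d) * S + bv F u (u + d) * S := add_le_add h1 h2
    _ = _ := by ring

theorem bv_mul (F G : ℕ → ℂ) (u v : ℕ) (huv : u ≤ v) :
    bv (fun x => F x * G x) u v ≤ 2 * bv F u v * bv G u v := by
  have hF := bv_nonneg F u v
  have hG := bv_nonneg G u v
  have key : ∑ x ∈ Ico u v, ‖F (x + 1) * G (x + 1) - F x * G x‖ ≤
      (∑ x ∈ Ico u v, ‖F (x + 1) - F x‖) * bv G u v
        + bv F u v * ∑ x ∈ Ico u v, ‖G (x + 1) - G x‖ := by
    rw [Finset.sum_mul, Finset.mul_sum, ← Finset.sum_add_distrib]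
    refine Finset.sum_le_sum fun x hx => ?_
    rw [mem_Ico] at hx
    have e : F (x + 1) * G (x + 1) - F x * G x =
        (F (x + 1) - F x) * G (x + 1) + F x * (G (x + 1) - G x) := by ring
    rw [e]
    refine (norm_add_le _ _).trans ?_
    rw [norm_mul, norm_mul]
    exact add_le_add
      (mul_le_mul_of_nonneg_left (norm_le_bv G u v (x + 1) (by omega) (by omega)) (norm_nonneg _))
      (mul_le_mul_of_nonneg_right (norm_le_bv F u v x hx.1 hx.2.le) (norm_nonneg _))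
  have h0 : ‖F u * G u‖ ≤ ‖F u‖ * bv G u v := by
    rw [norm_mul]
    exact mul_le_mul_of_nonneg_left (norm_le_bv G u v u le_rfl huv) (norm_nonneg _)
  have hGs : ∑ x ∈ Ico u v, ‖G (x + 1) - G x‖ ≤ bv G u v := by
    unfold bv
    linarith [norm_nonneg (G u)]
  have e1 : bv (fun x => F x * G x) u v =
      ‖F u * G u‖ + ∑ x ∈ Ico u v, ‖F (x + 1) * G (x + 1) - F x * G x‖ := rfl
  have e2 : bv F u v = ‖F u‖ + ∑ x ∈ Ico u v, ‖F (x + 1) - F x‖ := rfl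
  have h3 : bv F u v * ∑ x ∈ Ico u v, ‖G (x + 1) - G x‖ ≤ bv F u v * bv G u v :=
    mul_le_mul_of_nonneg_left hGs hF
  have h4 : ‖F u‖ * bv G u v + (∑ x ∈ Ico u v, ‖F (x + 1) - F x‖) * bv G u v =
      bv F u v * bv G u v := by rw [e2]; ring
  rw [e1]
  linarith

theorem bv_conj (F : ℕ → ℂ) (u v : ℕ) : bv (fun x => (starRingEnd ℂ) (F x)) u v = bv F u v := by
  unfold bv
  congr 1
  · exact RCLike.norm_conj _
  · refine Finset.sum_congr rfl fun x _ => ?_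
    rw [← map_sub]
    exact RCLike.norm_conj _

theorem bv_sum {ι : Type*} (s : Finset ι) (F : ι → ℕ → ℂ) (u v : ℕ) :
    bv (fun x => ∑ i ∈ s, F i x) u v ≤ ∑ i ∈ s, bv (F i) u v := by
  unfold bv
  rw [Finset.sum_add_distrib, Finset.sum_comm]
  refine add_le_add (norm_sum_le _ _) (Finset.sum_le_sum fun x _ => ?_)
  rw [← Finset.sum_sub_distrib]
  exact norm_sum_le _ _

theorem bv_const_mul (a : ℂ) (F : ℕ → ℂ) (u v : ℕ) :
    bv (fun x => a * F x) u v = ‖a‖ * bv F u v := by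
  unfold bv
  rw [mul_add, Finset.mul_sum, norm_mul]
  congr 1
  refine Finset.sum_congr rfl fun x _ => ?_
  rw [← mul_sub, norm_mul]

/-- nonnegative nonincreasing real function -/
theorem bv_antitone (g : ℕ → ℝ) (u v : ℕ) (huv : u ≤ v) (h0 : ∀ x, u ≤ x → x ≤ v → 0 ≤ g x)
    (hg : ∀ x, u ≤ x → x < v → g (x + 1) ≤ g x) :
    bv (fun x => (g x : ℂ)) u v ≤ 2 * g u := by
  have e : ∑ x ∈ Ico u v, ‖((g (x + 1) : ℝ) : ℂ) - ((g x : ℝ) : ℂ)‖ = g u - g v := by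
    have e1 : ∀ x ∈ Ico u v, ‖((g (x + 1) : ℝ) : ℂ) - ((g x : ℝ) : ℂ)‖ = - (g (x + 1) - g x) := by
      intro x hx
      rw [mem_Ico] at hx
      rw [← Complex.ofReal_sub, Complex.norm_real, Real.norm_eq_abs, abs_of_nonpos]
      linarith [hg x hx.1 hx.2]
    rw [Finset.sum_congr rfl e1, Finset.sum_neg_distrib, Finset.sum_Ico_eq_sub _ huv,
      Finset.sum_range_sub, Finset.sum_range_sub]
    ring
  have e2 : bv (fun x => (g x : ℂ)) u v =
      ‖((g u : ℝ) : ℂ)‖ + ∑ x ∈ Ico u v, ‖((g (x + 1) : ℝ) : ℂ) - ((g x : ℝ) : ℂ)‖ := rfl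
  rw [e2, e, Complex.norm_real, Real.norm_eq_abs, abs_of_nonneg (h0 u le_rfl huv)]
  linarith [h0 v huv le_rfl]

private theorem norm_ee_sub (a b : ℝ) : ‖ee a - ee b‖ ≤ 2 * Real.pi * |a - b| := by
  have e : ee a - ee b = ee b * (ee (a - b) - 1) := by
    rw [mul_sub, ← ee_add, mul_one]
    congr 2
    ring
  rw [e, norm_mul, norm_ee, one_mul]
  unfold ee
  have h := Real.norm_exp_I_mul_ofReal_sub_one_le (x := 2 * Real.pi * (a - b))
  rw [mul_comm Complex.I] at h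
  refine h.trans ?_
  rw [Real.norm_eq_abs, abs_mul, abs_of_pos (by positivity)]

theorem bv_ee (g : ℕ → ℝ) (u v : ℕ) :
    bv (fun x => ee (g x)) u v ≤ 1 + 2 * Real.pi * ∑ x ∈ Ico u v, |g (x + 1) - g x| := by
  unfold bv
  rw [norm_ee, Finset.mul_sum]
  gcongr with x _
  exact norm_ee_sub _ _

end Pool.Agent.Work.MP_2dba45_nt.Bil
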