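import Mathlib
import Pool.Agent.Work.MP_2dba45_nt.BilBV
import Pool.Agent.Work.MP_2dba45_nt.BilW

/-!
MODULE VAR (variation of `FF`). Uses BilBV, BilW. Write `m(x) = x²+y²`.
`FF` is a product of five functions of `x`: `1/(m q₁ r)`, `What(h₁/(m q₁ r))`, `1/(m q₂ r)`, the
conjugate of `What(h₂/(m q₂ r))`, `ee((h₁/q₁ - h₂/q₂) x/(y r m))`; `bv_mul` four times gives a factor 16.
`bv(1/(m q r)) ≤ 2/(M Q r)` (`bv_antitone`, `m(u) ≥ M`).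
`What(h/(mqr)) = Σ_n W n ee(n h/(mqr))`: `bv ≤ Σ W n (1 + 2π n |h| /(M q r)) ≤ K (1 + 4π N H/(M Q r))`
(`x ↦ 1/m(x)` is monotone so its variation is `≤ 1/M`; `Σ W = K`, `n ≤ 2N`).
Last factor: each step of `x/m(x)` is `|y² - x² - x|/(m(x) m(x+1)) ≤ 1/m(x) ≤ 1/M`, at most
`v - u ≤ √(2M)` steps, `|h₁/q₁ - h₂/q₂| ≤ 2H/Q`: `bv ≤ 1 + 2π (2H/Q) √(2M)/M ≤ 1 + 18 H/(Q√M)`.
-/

set_option autoImplicit false

namespace Pool.Agent.Work.MP_2dba45_nt.Bil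

open Finset

private theorem inv_anti (y q r : ℕ) (hy : 1 ≤ y) (hq : 1 ≤ q) (hr : 1 ≤ r) (x : ℕ) :
    1 / ((((x + 1 : ℕ) : ℝ) ^ 2 + (y : ℝ) ^ 2) * q * r) ≤
      1 / (((x : ℝ) ^ 2 + (y : ℝ) ^ 2) * q * r) := by
  have hy' : (0 : ℝ) < y := by exact_mod_cast hy
  have hq' : (0 : ℝ) < q := by exact_mod_cast hq
  have hr' : (0 : ℝ) < r := by exact_mod_cast hr
  have hx : (0 : ℝ) ≤ x := Nat.cast_nonneg x
  apply one_div_le_one_div_of_le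
  · positivity
  · push_cast
    gcongr
    linarith

private theorem mu_le (y q r M Q u : ℕ) (hr : 1 ≤ r) (hM : 1 ≤ M)
    (hQ : 1 ≤ Q) (hq : Q ≤ q) (hlo : M ≤ u ^ 2 + y ^ 2) :
    1 / (((u : ℝ) ^ 2 + (y : ℝ) ^ 2) * q * r) ≤ 1 / ((M : ℝ) * Q * r) := by
  have hM' : (0 : ℝ) < M := by exact_mod_cast hM
  have hQ' : (0 : ℝ) < Q := by exact_mod_cast hQ
  have hr' : (0 : ℝ) < r := by exact_mod_cast hr
  have hq' : (Q : ℝ) ≤ q := by exact_mod_cast hq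
  have hlo' : (M : ℝ) ≤ (u : ℝ) ^ 2 + (y : ℝ) ^ 2 := by exact_mod_cast hlo
  apply one_div_le_one_div_of_le
  · positivity
  · gcongr

private theorem bv_A (y q r M Q : ℕ) (hy : 1 ≤ y) (hr : 1 ≤ r) (hM : 1 ≤ M)
    (hQ : 1 ≤ Q) (hq : Q ≤ q) (u v : ℕ) (huv : u ≤ v) (hlo : M ≤ u ^ 2 + y ^ 2) :
    bv (fun x => 1 / (((x : ℂ) ^ 2 + (y : ℂ) ^ 2) * q * r)) u v ≤ 2 * (1 / ((M : ℝ) * Q * r)) := by
  have e : (fun x : ℕ => 1 / (((x : ℂ) ^ 2 + (y : ℂ) ^ 2) * q * r)) =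
      fun x : ℕ => ((1 / (((x : ℝ) ^ 2 + (y : ℝ) ^ 2) * q * r) : ℝ) : ℂ) := by
    funext x
    push_cast
    rfl
  rw [e]
  refine (bv_antitone (fun x : ℕ => 1 / (((x : ℝ) ^ 2 + (y : ℝ) ^ 2) * q * r)) u v huv
    (fun x _ _ => by positivity)
    (fun x _ _ => inv_anti y q r hy (hQ.trans hq) hr x)).trans ?_
  have := mu_le y q r M Q u hr hM hQ hq hlo
  linarith

private theorem sum_step (y q r M Q : ℕ) (hy : 1 ≤ y) (hr : 1 ≤ r) (hM : 1 ≤ M)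
    (hQ : 1 ≤ Q) (hq : Q ≤ q) (u v : ℕ) (huv : u ≤ v) (hlo : M ≤ u ^ 2 + y ^ 2) :
    ∑ x ∈ Ico u v, |1 / ((((x + 1 : ℕ) : ℝ) ^ 2 + (y : ℝ) ^ 2) * q * r) -
      1 / (((x : ℝ) ^ 2 + (y : ℝ) ^ 2) * q * r)| ≤ 1 / ((M : ℝ) * Q * r) := by
  have e1 : ∀ x ∈ Ico u v, |1 / ((((x + 1 : ℕ) : ℝ) ^ 2 + (y : ℝ) ^ 2) * q * r) -
      1 / (((x : ℝ) ^ 2 + (y : ℝ) ^ 2) * q * r)| =
      - (1 / ((((x + 1 : ℕ) : ℝ) ^ 2 + (y : ℝ) ^ 2) * q * r) -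
      1 / (((x : ℝ) ^ 2 + (y : ℝ) ^ 2) * q * r)) := by
    intro x _
    rw [abs_of_nonpos]
    linarith [inv_anti y q r hy (hQ.trans hq) hr x]
  rw [Finset.sum_congr rfl e1, Finset.sum_neg_distrib, Finset.sum_Ico_eq_sub _ huv,
    Finset.sum_range_sub (fun x : ℕ => 1 / (((x : ℝ) ^ 2 + (y : ℝ) ^ 2) * q * r)),
    Finset.sum_range_sub (fun x : ℕ => 1 / (((x : ℝ) ^ 2 + (y : ℝ) ^ 2) * q * r))]
  have h1 := mu_le y q r M Q u hr hM hQ hq hlo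
  have h2 : 0 ≤ 1 / (((v : ℝ) ^ 2 + (y : ℝ) ^ 2) * q * r) := by positivity
  linarith

private theorem bv_B (j K N y q r M Q H : ℕ) (h : ℤ) (hj : 1 ≤ j) (hK : 1 ≤ K)
    (hjK : j * K ≤ N) (hy : 1 ≤ y) (hr : 1 ≤ r) (hM : 1 ≤ M) (hQ : 1 ≤ Q) (hq : Q ≤ q)
    (hh : |h| ≤ H) (u v : ℕ) (huv : u ≤ v) (hlo : M ≤ u ^ 2 + y ^ 2) :
    bv (fun x => What j K N (h / (((x : ℝ) ^ 2 + (y : ℝ) ^ 2) * q * r))) u v ≤
      K * (1 + 4 * Real.pi * N * H / ((M : ℝ) * Q * r)) := by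
  unfold What
  refine (bv_sum _ (fun n x => (W j K N n : ℂ) *
    ee (n * (h / (((x : ℝ) ^ 2 + (y : ℝ) ^ 2) * q * r)))) u v).trans ?_
  rw [← sum_W j K N hj hK hjK, Finset.sum_mul]
  refine Finset.sum_le_sum fun n hn => ?_
  rw [mem_Ioc] at hn
  rw [bv_const_mul (W j K N n : ℂ), Complex.norm_real, Real.norm_eq_abs,
    abs_of_nonneg (W_nonneg j K N n)]
  refine mul_le_mul_of_nonneg_left ?_ (W_nonneg j K N n)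
  refine (bv_ee (fun x => n * (h / (((x : ℝ) ^ 2 + (y : ℝ) ^ 2) * q * r))) u v).trans ?_
  have hn2 : (n : ℝ) ≤ 2 * N := by exact_mod_cast hn.2
  have hh' : |(h : ℝ)| ≤ H := by
    rw [← Int.cast_abs]
    exact_mod_cast hh
  have hs : ∑ x ∈ Ico u v, |(n : ℝ) * (h / ((((x + 1 : ℕ) : ℝ) ^ 2 + (y : ℝ) ^ 2) * q * r)) -
      n * (h / (((x : ℝ) ^ 2 + (y : ℝ) ^ 2) * q * r))| ≤ 2 * N * H * (1 / ((M : ℝ) * Q * r)) := by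
    have e1 : ∀ x ∈ Ico u v, |(n : ℝ) * (h / ((((x + 1 : ℕ) : ℝ) ^ 2 + (y : ℝ) ^ 2) * q * r)) -
      n * (h / (((x : ℝ) ^ 2 + (y : ℝ) ^ 2) * q * r))| = (n * |(h : ℝ)|) *
        |1 / ((((x + 1 : ℕ) : ℝ) ^ 2 + (y : ℝ) ^ 2) * q * r) -
          1 / (((x : ℝ) ^ 2 + (y : ℝ) ^ 2) * q * r)| := by
      intro x _
      rw [show (n : ℝ) * (h / ((((x + 1 : ℕ) : ℝ) ^ 2 + (y : ℝ) ^ 2) * q * r)) -
        n * (h / (((x : ℝ) ^ 2 + (y : ℝ) ^ 2) * q * r)) = (n * h) *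
        (1 / ((((x + 1 : ℕ) : ℝ) ^ 2 + (y : ℝ) ^ 2) * q * r) -
          1 / (((x : ℝ) ^ 2 + (y : ℝ) ^ 2) * q * r)) by ring, abs_mul, abs_mul,
        abs_of_nonneg (Nat.cast_nonneg n)]
    rw [Finset.sum_congr rfl e1, ← Finset.mul_sum]
    have hst := sum_step y q r M Q hy hr hM hQ hq u v huv hlo
    refine mul_le_mul ?_ hst (Finset.sum_nonneg fun _ _ => abs_nonneg _) (by positivity)
    exact mul_le_mul hn2 hh' (abs_nonneg _) (by positivity)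
  have : 2 * Real.pi * ∑ x ∈ Ico u v,
      |(n : ℝ) * (h / ((((x + 1 : ℕ) : ℝ) ^ 2 + (y : ℝ) ^ 2) * q * r)) -
      n * (h / (((x : ℝ) ^ 2 + (y : ℝ) ^ 2) * q * r))| ≤
      2 * Real.pi * (2 * N * H * (1 / ((M : ℝ) * Q * r))) :=
    mul_le_mul_of_nonneg_left hs (by positivity)
  calc _ ≤ 1 + 2 * Real.pi * (2 * N * H * (1 / ((M : ℝ) * Q * r))) := by linarith
    _ = _ := by ring

private theorem step_E (y M : ℕ) (hy : 1 ≤ y) (hM : 1 ≤ M) (u x : ℕ) (hx : u ≤ x)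
    (hlo : M ≤ u ^ 2 + y ^ 2) :
    |((x + 1 : ℕ) : ℝ) / (((x + 1 : ℕ) : ℝ) ^ 2 + (y : ℝ) ^ 2) -
      (x : ℝ) / ((x : ℝ) ^ 2 + (y : ℝ) ^ 2)| ≤ 1 / M := by
  have hy' : (1 : ℝ) ≤ y := by exact_mod_cast hy
  have hM' : (0 : ℝ) < M := by exact_mod_cast hM
  have hx0 : (0 : ℝ) ≤ x := Nat.cast_nonneg x
  have hlo' : (M : ℝ) ≤ (x : ℝ) ^ 2 + (y : ℝ) ^ 2 := by
    have : M ≤ x ^ 2 + y ^ 2 := hlo.trans (by gcongr)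
    exact_mod_cast this
  have hm1 : (0 : ℝ) < (x : ℝ) ^ 2 + (y : ℝ) ^ 2 := by positivity
  have hm2 : (0 : ℝ) < (x + 1 : ℝ) ^ 2 + (y : ℝ) ^ 2 := by positivity
  push_cast
  have e : (x + 1 : ℝ) / ((x + 1 : ℝ) ^ 2 + (y : ℝ) ^ 2) - (x : ℝ) / ((x : ℝ) ^ 2 + (y : ℝ) ^ 2) =
      (((y : ℝ) ^ 2 - x ^ 2 - x) / ((x + 1 : ℝ) ^ 2 + (y : ℝ) ^ 2)) *
        (1 / ((x : ℝ) ^ 2 + (y : ℝ) ^ 2)) := by
    field_simp
    ring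
  rw [e, abs_mul]
  have h1 : |((y : ℝ) ^ 2 - x ^ 2 - x) / ((x + 1 : ℝ) ^ 2 + (y : ℝ) ^ 2)| ≤ 1 := by
    rw [abs_div, abs_of_pos hm2, div_le_one hm2, abs_le]
    constructor
    · nlinarith
    · nlinarith
  have h2 : |1 / ((x : ℝ) ^ 2 + (y : ℝ) ^ 2)| ≤ 1 / (M : ℝ) := by
    rw [abs_of_pos (by positivity)]
    exact one_div_le_one_div_of_le hM' hlo'
  calc _ ≤ 1 * (1 / (M : ℝ)) := mul_le_mul h1 h2 (abs_nonneg _) zero_le_one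
    _ = _ := one_mul _

private theorem frac_id (c a b d m n : ℝ) :
    c * a / (d * m) - c * b / (d * n) = c * (1 / d) * (a / m - b / n) := by
  ring

private theorem bv_E (y q₁ q₂ r M Q H : ℕ) (h₁ h₂ : ℤ) (hy : 1 ≤ y) (hr : 1 ≤ r) (hM : 1 ≤ M)
    (hQ : 1 ≤ Q) (hq₁ : Q ≤ q₁) (hq₂ : Q ≤ q₂) (hh₁ : |h₁| ≤ H) (hh₂ : |h₂| ≤ H) (u v : ℕ)
    (huv : u ≤ v) (hlo : M ≤ u ^ 2 + y ^ 2) (hhi : v ^ 2 + y ^ 2 ≤ 2 * M) :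
    bv (fun x => ee (((h₁ : ℝ) / q₁ - h₂ / q₂) * x / (y * r * ((x : ℝ) ^ 2 + (y : ℝ) ^ 2)))) u v ≤
      1 + 18 * H / (Q * Real.sqrt M) := by
  have hM' : (0 : ℝ) < M := by exact_mod_cast hM
  have hQ' : (0 : ℝ) < Q := by exact_mod_cast hQ
  have hq₁' : (Q : ℝ) ≤ q₁ := by exact_mod_cast hq₁
  have hq₂' : (Q : ℝ) ≤ q₂ := by exact_mod_cast hq₂
  have hy' : (1 : ℝ) ≤ y := by exact_mod_cast hy
  have hr' : (1 : ℝ) ≤ r := by exact_mod_cast hr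
  have hh₁' : |(h₁ : ℝ)| ≤ H := by
    rw [← Int.cast_abs]
    exact_mod_cast hh₁
  have hh₂' : |(h₂ : ℝ)| ≤ H := by
    rw [← Int.cast_abs]
    exact_mod_cast hh₂
  have hH0 : (0 : ℝ) ≤ H := Nat.cast_nonneg H
  have hc : |(h₁ : ℝ) / q₁ - h₂ / q₂| ≤ 2 * H / Q := by
    have a1 : |(h₁ : ℝ) / q₁| ≤ H / Q := by
      rw [abs_div, abs_of_nonneg (Nat.cast_nonneg q₁ : (0 : ℝ) ≤ q₁)]
      exact div_le_div₀ hH0 hh₁' hQ' hq₁'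
    have a2 : |(h₂ : ℝ) / q₂| ≤ H / Q := by
      rw [abs_div, abs_of_nonneg (Nat.cast_nonneg q₂ : (0 : ℝ) ≤ q₂)]
      exact div_le_div₀ hH0 hh₂' hQ' hq₂'
    calc _ ≤ |(h₁ : ℝ) / q₁| + |(h₂ : ℝ) / q₂| := abs_sub _ _
      _ ≤ H / Q + H / Q := add_le_add a1 a2
      _ = _ := by ring
  refine (bv_ee (fun x : ℕ => ((h₁ : ℝ) / q₁ - h₂ / q₂) * x /
    (y * r * ((x : ℝ) ^ 2 + (y : ℝ) ^ 2))) u v).trans ?_
  have hyr : |(1 : ℝ) / (y * r)| ≤ 1 := by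
    rw [abs_of_nonneg (by positivity)]
    exact (div_le_one (by positivity)).2 (by nlinarith)
  have hstep : ∀ x ∈ Ico u v, |((h₁ : ℝ) / q₁ - h₂ / q₂) * ((x + 1 : ℕ) : ℝ) /
      (y * r * (((x + 1 : ℕ) : ℝ) ^ 2 + (y : ℝ) ^ 2)) - ((h₁ : ℝ) / q₁ - h₂ / q₂) * x /
      (y * r * ((x : ℝ) ^ 2 + (y : ℝ) ^ 2))| ≤ 2 * H / Q * (1 / M) := by
    intro x hx
    rw [mem_Ico] at hx
    have e : ((h₁ : ℝ) / q₁ - h₂ / q₂) * ((x + 1 : ℕ) : ℝ) /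
      (y * r * (((x + 1 : ℕ) : ℝ) ^ 2 + (y : ℝ) ^ 2)) - ((h₁ : ℝ) / q₁ - h₂ / q₂) * x /
      (y * r * ((x : ℝ) ^ 2 + (y : ℝ) ^ 2)) = ((h₁ : ℝ) / q₁ - h₂ / q₂) * (1 / (y * r)) *
      (((x + 1 : ℕ) : ℝ) / (((x + 1 : ℕ) : ℝ) ^ 2 + (y : ℝ) ^ 2) -
      (x : ℝ) / ((x : ℝ) ^ 2 + (y : ℝ) ^ 2)) := by
      exact frac_id _ _ _ _ _ _
    rw [e, abs_mul, abs_mul]
    have := step_E y M hy hM u x hx.1 hlo
    calc _ ≤ 2 * H / Q * 1 * (1 / (M : ℝ)) := by gcongr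
      _ = _ := by ring
  have hsum : ∑ x ∈ Ico u v, |((h₁ : ℝ) / q₁ - h₂ / q₂) * ((x + 1 : ℕ) : ℝ) /
      (y * r * (((x + 1 : ℕ) : ℝ) ^ 2 + (y : ℝ) ^ 2)) - ((h₁ : ℝ) / q₁ - h₂ / q₂) * x /
      (y * r * ((x : ℝ) ^ 2 + (y : ℝ) ^ 2))| ≤ (v : ℝ) * (2 * H / Q * (1 / M)) := by
    refine (Finset.sum_le_card_nsmul _ _ _ hstep).trans ?_
    rw [nsmul_eq_mul, Nat.card_Ico]
    have : ((v - u : ℕ) : ℝ) ≤ v := by exact_mod_cast Nat.sub_le v u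
    gcongr
  have hv : (v : ℝ) ≤ Real.sqrt 2 * Real.sqrt M := by
    rw [← Real.sqrt_mul (by norm_num)]
    apply Real.le_sqrt_of_sq_le
    have : v ^ 2 ≤ 2 * M := by nlinarith
    exact_mod_cast this
  have hsq2 : Real.sqrt 2 ≤ 1.4143 := by
    rw [Real.sqrt_le_left (by norm_num)]
    norm_num
  have hpi : Real.pi ≤ 3.15 := Real.pi_lt_d2.le
  have hsM : (0 : ℝ) < Real.sqrt M := Real.sqrt_pos.2 hM'
  have hMs : (M : ℝ) = Real.sqrt M * Real.sqrt M := (Real.mul_self_sqrt hM'.le).symm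
  have key : 2 * Real.pi * ((v : ℝ) * (2 * H / Q * (1 / M))) ≤ 18 * H / (Q * Real.sqrt M) := by
    calc 2 * Real.pi * ((v : ℝ) * (2 * H / Q * (1 / M)))
        ≤ 2 * 3.15 * ((1.4143 * Real.sqrt M) * (2 * H / Q * (1 / M))) := by
          have : (v : ℝ) ≤ 1.4143 * Real.sqrt M := hv.trans (by gcongr)
          gcongr
      _ = (2 * 3.15 * 1.4143 * 2) * H / (Q * Real.sqrt M) := by
          rw [hMs]
          have hs' : Real.sqrt (Real.sqrt M * Real.sqrt M) = Real.sqrt M := by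
            rw [← hMs]
          rw [hs']
          field_simp
      _ ≤ 18 * H / (Q * Real.sqrt M) := by
          gcongr
          norm_num
  have := mul_le_mul_of_nonneg_left hsum (show (0 : ℝ) ≤ 2 * Real.pi by positivity)
  linarith

theorem bv_FF (j K N y q₁ q₂ r M Q H : ℕ) (h₁ h₂ : ℤ) (hj : 1 ≤ j) (hK : 1 ≤ K)
    (hjK : j * K ≤ N) (hy : 1 ≤ y) (hr : 1 ≤ r) (hM : 1 ≤ M) (hQ : 1 ≤ Q) (hq₁ : Q ≤ q₁)
    (hq₂ : Q ≤ q₂) (hh₁ : |h₁| ≤ H) (hh₂ : |h₂| ≤ H) (u v : ℕ) (hu : 1 ≤ u) (huv : u ≤ v)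
    (hlo : M ≤ u ^ 2 + y ^ 2) (hhi : v ^ 2 + y ^ 2 ≤ 2 * M) :
    bv (FF j K N y q₁ q₂ r h₁ h₂) u v ≤ 64 * ((K : ℝ) / (M * Q * r)) ^ 2 *
      (1 + 4 * Real.pi * N * H / ((M : ℝ) * Q * r)) ^ 2 * (1 + 18 * H / (Q * Real.sqrt M)) := by
  have hM' : (0 : ℝ) < M := by exact_mod_cast hM
  have hQ' : (0 : ℝ) < Q := by exact_mod_cast hQ
  have hr' : (0 : ℝ) < r := by exact_mod_cast hr
  have hpi := Real.pi_pos
  set Y : ℝ := 1 + 4 * Real.pi * N * H / ((M : ℝ) * Q * r) with hY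
  have hY0 : 0 ≤ Y := by rw [hY]; positivity
  have hAB : ∀ (q : ℕ) (h : ℤ), Q ≤ q → |h| ≤ H →
      bv (fun x => 1 / (((x : ℂ) ^ 2 + (y : ℂ) ^ 2) * q * r) *
        What j K N (h / (((x : ℝ) ^ 2 + (y : ℝ) ^ 2) * q * r))) u v ≤
        4 * ((K : ℝ) / (M * Q * r)) * Y := by
    intro q h hq hh
    refine (bv_mul (fun x => 1 / (((x : ℂ) ^ 2 + (y : ℂ) ^ 2) * q * r)) (fun x =>
        What j K N (h / (((x : ℝ) ^ 2 + (y : ℝ) ^ 2) * q * r))) u v huv).trans ?_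
    have h1 := bv_A y q r M Q hy hr hM hQ hq u v huv hlo
    have h2 := bv_B j K N y q r M Q H h hj hK hjK hy hr hM hQ hq hh u v huv hlo
    rw [← hY] at h2
    calc _ ≤ 2 * (2 * (1 / ((M : ℝ) * Q * r))) * (K * Y) :=
          mul_le_mul (mul_le_mul_of_nonneg_left h1 (by norm_num)) h2 (bv_nonneg _ _ _)
            (by positivity)
      _ = _ := by ring
  have h1 := hAB q₁ h₁ hq₁ hh₁
  have h2 := hAB q₂ h₂ hq₂ hh₂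
  have h3 := bv_E y q₁ q₂ r M Q H h₁ h₂ hy hr hM hQ hq₁ hq₂ hh₁ hh₂ u v huv hlo hhi
  set Z : ℝ := 4 * ((K : ℝ) / (M * Q * r)) * Y with hZ
  have hZ0 : 0 ≤ Z := by rw [hZ]; positivity
  have h2' : bv (fun x => (starRingEnd ℂ) (1 / (((x : ℂ) ^ 2 + (y : ℂ) ^ 2) * q₂ * r) *
        What j K N (h₂ / (((x : ℝ) ^ 2 + (y : ℝ) ^ 2) * q₂ * r)))) u v ≤ Z := by
    rw [bv_conj]
    exact h2
  have h12 := bv_mul (fun x => 1 / (((x : ℂ) ^ 2 + (y : ℂ) ^ 2) * q₁ * r) *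
        What j K N (h₁ / (((x : ℝ) ^ 2 + (y : ℝ) ^ 2) * q₁ * r)))
      (fun x => (starRingEnd ℂ) (1 / (((x : ℂ) ^ 2 + (y : ℂ) ^ 2) * q₂ * r) *
        What j K N (h₂ / (((x : ℝ) ^ 2 + (y : ℝ) ^ 2) * q₂ * r)))) u v huv
  have h12' : bv (fun x : ℕ => (1 / (((x : ℂ) ^ 2 + (y : ℂ) ^ 2) * q₁ * r) *
        What j K N (h₁ / (((x : ℝ) ^ 2 + (y : ℝ) ^ 2) * q₁ * r))) *
      ((starRingEnd ℂ) (1 / (((x : ℂ) ^ 2 + (y : ℂ) ^ 2) * q₂ * r) *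
        What j K N (h₂ / (((x : ℝ) ^ 2 + (y : ℝ) ^ 2) * q₂ * r))))) u v ≤ 2 * Z * Z :=
    h12.trans (mul_le_mul (mul_le_mul_of_nonneg_left h1 (by norm_num)) h2' (bv_nonneg _ _ _)
      (by positivity))
  have h4 := bv_mul (fun x : ℕ => (1 / (((x : ℂ) ^ 2 + (y : ℂ) ^ 2) * q₁ * r) *
        What j K N (h₁ / (((x : ℝ) ^ 2 + (y : ℝ) ^ 2) * q₁ * r))) *
      ((starRingEnd ℂ) (1 / (((x : ℂ) ^ 2 + (y : ℂ) ^ 2) * q₂ * r) *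
        What j K N (h₂ / (((x : ℝ) ^ 2 + (y : ℝ) ^ 2) * q₂ * r)))))
      (fun x : ℕ => ee (((h₁ : ℝ) / q₁ - h₂ / q₂) * x / (y * r * ((x : ℝ) ^ 2 + (y : ℝ) ^ 2))))
      u v huv
  refine le_trans (le_of_eq ?_) (h4.trans ((mul_le_mul (mul_le_mul_of_nonneg_left h12'
    (by norm_num)) h3 (bv_nonneg _ _ _) (by positivity)).trans (le_of_eq ?_)))
  · rfl
  · rw [hZ]
    ring

end Pool.Agent.Work.MP_2dba45_nt.Bil
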