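import Mathlib
import Pool.Agent.Work.MP_2dba45_nt.BilFac
import Pool.Agent.Work.MP_2dba45_nt.BilLoc
import Pool.Agent.Work.MP_2dba45_nt.BilInc
import Pool.Agent.Work.MP_2dba45_nt.BilVar

/-!
MODULE X (sum over `x` for fixed `y`). Uses BilPar (`X_mul_conj`), BilFac, BilLoc, BilInc, BilBV
(`abel`), BilVar (`bv_FF`). The set `{x ≥ 1 : M ≤ x²+y² < 2M}` is an interval `Ico u v`
(empty: trivial), `v - u ≤ √(2M)`. On it the summand (with the coprimality conditions) is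
`FF x * Phi x`, and `Phi x = 0` if they fail. For `u ≤ w ≤ v`, `inc` (with `C = 3`, `R = RR`) gives
`‖∑_{u≤x<w} Phi x‖ ≤ RR 3^{#P0} √Q0 (√(2M)/(RR Q0) + 2 + log(RR Q0))
 = 3^{#P0} (√(2M) + 𝓜 (2 + log 𝓜))/√Q0`, `𝓜 = RR Q0 = lcm q₁ q₂ y r`. Then `abel` and `bv_FF`
on `[u, v-1]` (`(v-1)² + y² < 2M`).
-/

set_option autoImplicit false

namespace Pool.Agent.Work.MP_2dba45_nt.Bil

open Finset Pool.Agent.Work.MP_2dba45_nt.BilDef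

theorem sum_x (hW : WeilBound) (j K N r c M Q H y q₁ σ₁ q₂ σ₂ : ℕ) (h₁ h₂ : ℤ) (hj : 1 ≤ j)
    (hK : 1 ≤ K) (hjK : j * K ≤ N) (hy : 1 ≤ y) (hr : 1 ≤ r) (hM : 1 ≤ M) (hQ : 1 ≤ Q)
    (hq₁ : Q ≤ q₁) (hq₂ : Q ≤ q₂) (hh₁ : |h₁| ≤ H) (hh₂ : |h₂| ≤ H)
    (hs₁ : Squarefree q₁) (hs₂ : Squarefree q₂) (ho₁ : q₁.Coprime (2 * r))
    (ho₂ : q₂.Coprime (2 * r)) (hσ₁ : q₁ ∣ σ₁ ^ 2 + 1) (hσ₂ : q₂ ∣ σ₂ ^ 2 + 1)
    (hk : h₂ * q₁ - h₁ * q₂ ≠ 0) :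
    ‖∑ x ∈ (Icc 1 (Nat.sqrt (2 * M))).filter
        (fun x => (M ≤ x ^ 2 + y ^ 2 ∧ x ^ 2 + y ^ 2 < 2 * M) ∧ x.Coprime y ∧
          (x ^ 2 + y ^ 2).Coprime (q₁ * q₂ * r)),
        X j K N r c (x ^ 2 + y ^ 2) (om x y) q₁ σ₁ h₁ *
          (starRingEnd ℂ) (X j K N r c (x ^ 2 + y ^ 2) (om x y) q₂ σ₂ h₂)‖ ≤
      128 * ((K : ℝ) / (M * Q * r)) ^ 2 * (1 + 4 * Real.pi * N * H / ((M : ℝ) * Q * r)) ^ 2 *
        (1 + 18 * H / (Q * Real.sqrt M)) *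
        (3 ^ #(P0 y q₁ q₂ r (h₂ * q₁ - h₁ * q₂)) *
          (Real.sqrt (2 * M) + (Nat.lcm q₁ q₂ : ℝ) * y * r *
            (2 + Real.log ((Nat.lcm q₁ q₂ : ℝ) * y * r))) /
          Real.sqrt (Q0 y q₁ q₂ r (h₂ * q₁ - h₁ * q₂))) := by
  classical
  have hq₁1 : 1 ≤ q₁ := hQ.trans hq₁
  have hq₂1 : 1 ≤ q₂ := hQ.trans hq₂
  have hqr₁ : q₁.Coprime r := Nat.Coprime.coprime_mul_left_right ho₁
  have hqr₂ : q₂.Coprime r := Nat.Coprime.coprime_mul_left_right ho₂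
  obtain ⟨ΦR, κ, s, hper, hn, hκ, hfac⟩ :=
    fac y q₁ σ₁ q₂ σ₂ r c h₁ h₂ hy hr hs₁ hs₂ ho₁ ho₂ hσ₁ hσ₂ hk
  set k : ℤ := h₂ * q₁ - h₁ * q₂ with hkdef
  set P := P0 y q₁ q₂ r k with hP
  have hprod : ∏ p ∈ P, (p : ℝ) = (Q0 y q₁ q₂ r k : ℝ) := by
    unfold Q0; push_cast; rfl
  have hRQ := RR_mul_Q0 y q₁ q₂ r k hy hr hs₁ hs₂
  have hRpos := RR_pos y q₁ q₂ r k hy hr hs₁ hs₂
  set 𝓜 : ℝ := (Nat.lcm q₁ q₂ : ℝ) * y * r with hMM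
  have hRQ' : (RR y q₁ q₂ r k : ℝ) * (Q0 y q₁ q₂ r k : ℝ) = 𝓜 := by
    rw [hMM]; exact_mod_cast hRQ
  have hlcm : 0 < Nat.lcm q₁ q₂ := Nat.lcm_pos hq₁1 hq₂1
  have hM1 : 1 ≤ 𝓜 := by
    rw [hMM]
    have : 1 ≤ Nat.lcm q₁ q₂ * y * r := Nat.mul_pos (Nat.mul_pos hlcm hy) hr
    exact_mod_cast this
  have hQ0pos : 0 < (Q0 y q₁ q₂ r k : ℝ) := by
    have h0 : (Q0 y q₁ q₂ r k : ℝ) ≠ 0 := by
      intro h
      rw [h, mul_zero] at hRQ'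
      linarith
    exact lt_of_le_of_ne (Nat.cast_nonneg _) h0.symm
  have hRpos' : (0 : ℝ) < (RR y q₁ q₂ r k : ℝ) := by exact_mod_cast hRpos
  have hlog : 0 ≤ Real.log 𝓜 := Real.log_nonneg hM1
  have hsq : 0 < Real.sqrt (Q0 y q₁ q₂ r k : ℝ) := Real.sqrt_pos.2 hQ0pos
  set S : ℝ := 3 ^ #P * (Real.sqrt (2 * M) + 𝓜 * (2 + Real.log 𝓜)) /
    Real.sqrt (Q0 y q₁ q₂ r k : ℝ) with hS
  have hS0 : 0 ≤ S := by positivity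
  -- the interval
  have hex1 : ∃ x : ℕ, 1 ≤ x ∧ M ≤ x ^ 2 + y ^ 2 := ⟨M, hM, by nlinarith⟩
  have hex2 : ∃ x : ℕ, 1 ≤ x ∧ 2 * M ≤ x ^ 2 + y ^ 2 := ⟨2 * M, by omega, by nlinarith⟩
  set u := Nat.find hex1 with hu
  set v := Nat.find hex2 with hv
  have hu1 := Nat.find_spec hex1
  have hv1 := Nat.find_spec hex2
  rw [← hu] at hu1
  rw [← hv] at hv1
  have hvmin : ∀ x, 1 ≤ x → x < v → x ^ 2 + y ^ 2 < 2 * M := by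
    intro x hx hxv
    have := Nat.find_min hex2 hxv
    by_contra h
    exact this ⟨hx, not_lt.1 h⟩
  have hset : ∀ x, (x ∈ Icc 1 (Nat.sqrt (2 * M)) ∧ (M ≤ x ^ 2 + y ^ 2 ∧ x ^ 2 + y ^ 2 < 2 * M)) ↔
      x ∈ Ico u v := by
    intro x
    rw [mem_Icc, mem_Ico]
    constructor
    · rintro ⟨⟨h1, -⟩, h2, h3⟩
      refine ⟨Nat.find_min' hex1 ⟨h1, h2⟩, ?_⟩
      by_contra h
      have h4 : v ≤ x := not_lt.1 h
      have h5 : v ^ 2 ≤ x ^ 2 := Nat.pow_le_pow_left h4 2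
      omega
    · rintro ⟨h1, h2⟩
      have h0 : 1 ≤ x := hu1.1.trans h1
      have h5 : u ^ 2 ≤ x ^ 2 := Nat.pow_le_pow_left h1 2
      have h6 := hvmin x h0 h2
      refine ⟨⟨h0, ?_⟩, by omega, h6⟩
      rw [Nat.le_sqrt']
      omega
  have hsum : ∑ x ∈ (Icc 1 (Nat.sqrt (2 * M))).filter
        (fun x => (M ≤ x ^ 2 + y ^ 2 ∧ x ^ 2 + y ^ 2 < 2 * M) ∧ x.Coprime y ∧
          (x ^ 2 + y ^ 2).Coprime (q₁ * q₂ * r)),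
        X j K N r c (x ^ 2 + y ^ 2) (om x y) q₁ σ₁ h₁ *
          (starRingEnd ℂ) (X j K N r c (x ^ 2 + y ^ 2) (om x y) q₂ σ₂ h₂) =
      ∑ x ∈ Ico u v, FF j K N y q₁ q₂ r h₁ h₂ x * Phi y q₁ σ₁ q₂ σ₂ r c h₁ h₂ x := by
    have e1 : (Icc 1 (Nat.sqrt (2 * M))).filter
        (fun x => (M ≤ x ^ 2 + y ^ 2 ∧ x ^ 2 + y ^ 2 < 2 * M) ∧ x.Coprime y ∧
          (x ^ 2 + y ^ 2).Coprime (q₁ * q₂ * r)) =
        (Ico u v).filter (fun x => x.Coprime y ∧ (x ^ 2 + y ^ 2).Coprime (q₁ * q₂ * r)) := by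
      ext x
      rw [mem_filter, mem_filter, ← hset x]
      tauto
    rw [e1, sum_filter]
    refine sum_congr rfl fun x hx => ?_
    rw [mem_Ico] at hx
    have hx1 : 1 ≤ x := hu1.1.trans hx.1
    split_ifs with hC
    · exact X_mul_conj j K N r c x y q₁ σ₁ q₂ σ₂ h₁ h₂ hx1 hy hC.1 hq₁1 hq₂1 hσ₁ hσ₂ hr hqr₁ hqr₂
        hC.2
    · unfold Phi
      rw [if_neg hC, mul_zero]
  rw [hsum]
  rcases Nat.lt_or_ge u v with huv | huv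
  swap
  · rw [Ico_eq_empty (by omega), sum_empty, norm_zero]
    positivity
  -- partial sums
  have hPhi : ∀ w, u ≤ w → w ≤ v → ‖∑ x ∈ Ico u w, Phi y q₁ σ₁ q₂ σ₂ r c h₁ h₂ x‖ ≤ S := by
    intro w huw hwv
    have e1 : ∑ x ∈ Ico u w, Phi y q₁ σ₁ q₂ σ₂ r c h₁ h₂ x =
        ∑ x ∈ Ico u w, ΦR x * ∏ p ∈ P, loc p (κ p) (s p) x := by
      refine sum_congr rfl fun x hx => ?_
      rw [mem_Ico] at hx
      exact hfac x (hu1.1.trans hx.1)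
    rw [e1]
    have hprime : ∀ p ∈ P, p.Prime := by
      intro p hp
      rw [hP] at hp
      unfold P0 at hp
      exact Nat.prime_of_mem_primeFactors (mem_filter.1 hp).1
    have h := inc P hprime (RR y q₁ q₂ r k) hRpos
      (RR_coprime y q₁ q₂ r k hy hr hs₁ hs₂) ΦR hper hn
      (fun p x => loc p (κ p) (s p) x) (fun p _ x => loc_periodic p (κ p) (s p) x) 3 (by norm_num)
      (fun p hp l => loc_bound hW p (hprime p hp) (κ p) (s p) l (hκ p hp)) u w huw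
    refine h.trans ?_
    rw [hprod, hRQ']
    have hwu : (w : ℝ) - u ≤ Real.sqrt (2 * M) := by
      have h1 : v - 1 < v := by omega
      have h2 : (v - 1) ^ 2 + y ^ 2 < 2 * M := hvmin (v - 1) (by have := hu1.1; omega) h1
      have h3 : (v - 1) ^ 2 ≤ 2 * M := by omega
      have h4 : w - u ≤ v - 1 := by have := hu1.1; omega
      have h5 : ((w - u : ℕ) : ℝ) ≤ Real.sqrt (2 * M) := by
        apply Real.le_sqrt_of_sq_le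
        have h6 : (w - u) ^ 2 ≤ 2 * M := (Nat.pow_le_pow_left h4 2).trans h3
        exact_mod_cast h6
      rwa [Nat.cast_sub huw] at h5
    have e2 : (RR y q₁ q₂ r k : ℝ) * 3 ^ #P * Real.sqrt (Q0 y q₁ q₂ r k : ℝ) *
        (((w : ℝ) - u) / 𝓜 + 2 + Real.log 𝓜) =
        3 ^ #P * (((w : ℝ) - u) + 𝓜 * (2 + Real.log 𝓜)) / Real.sqrt (Q0 y q₁ q₂ r k : ℝ) := by
      have hM0 : 𝓜 ≠ 0 := by linarith
      have hRq : (RR y q₁ q₂ r k : ℝ) = 𝓜 / (Q0 y q₁ q₂ r k : ℝ) := by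
        rw [← hRQ']; field_simp
      have hss : (Q0 y q₁ q₂ r k : ℝ) = Real.sqrt (Q0 y q₁ q₂ r k : ℝ) *
          Real.sqrt (Q0 y q₁ q₂ r k : ℝ) := (Real.mul_self_sqrt hQ0pos.le).symm
      rw [hRq]
      have : 𝓜 / (Q0 y q₁ q₂ r k : ℝ) * 3 ^ #P * Real.sqrt (Q0 y q₁ q₂ r k : ℝ) =
          𝓜 * 3 ^ #P / Real.sqrt (Q0 y q₁ q₂ r k : ℝ) := by
        conv_lhs => rw [div_mul_eq_mul_div, div_mul_eq_mul_div]
        rw [div_eq_div_iff hQ0pos.ne' hsq.ne']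
        linear_combination (-(𝓜 * 3 ^ #P)) * hss
      rw [this]
      field_simp
      ring
    rw [e2, hS]
    gcongr
  have habel := abel (Phi y q₁ σ₁ q₂ σ₂ r c h₁ h₂) (FF j K N y q₁ q₂ r h₁ h₂) u v huv S hPhi
  refine habel.trans ?_
  have hv2 : (v - 1) ^ 2 + y ^ 2 ≤ 2 * M :=
    (hvmin (v - 1) (by have := hu1.1; omega) (by omega)).le
  have hbv := bv_FF j K N y q₁ q₂ r M Q H h₁ h₂ hj hK hjK hy hr hM hQ hq₁ hq₂ hh₁ hh₂ u (v - 1)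
    hu1.1 (by omega) hu1.2 hv2
  calc 2 * S * bv (FF j K N y q₁ q₂ r h₁ h₂) u (v - 1) ≤
      2 * S * (64 * ((K : ℝ) / (M * Q * r)) ^ 2 *
      (1 + 4 * Real.pi * N * H / ((M : ℝ) * Q * r)) ^ 2 * (1 + 18 * H / (Q * Real.sqrt M))) := by
        gcongr
    _ = _ := by ring

end Pool.Agent.Work.MP_2dba45_nt.Bil
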