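import Mathlib
import Pool.Agent.Work.MP_2dba45_nt.BilX
import Pool.Agent.Work.MP_2dba45_nt.BilG
import Pool.Agent.Work.MP_2dba45_nt.BilQB
import Pool.Agent.Work.MP_2dba45_nt.BilBet
import Pool.Agent.Work.MP_2dba45_nt.BilGcd

/-!
MODULE IN (inner sums). Uses BilG (`gauss_sum`), BilX, BilQB, BilBet.
`inner_triv`: `‖X‖ ≤ K/(mqr) ≤ K/(MQr)` (`norm_What_le`, `norm_ee`).
`inner`: `gauss_sum` with `L = q₁q₂r`, then `sum_x` for each `1 ≤ y ≤ Y = √(2M)`. `3^{#P0} ≤ C N^{δ'}`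
(`3^{ω(n)} ≤ τ(n)²`, `n = y q₁ q₂ ≤ N^4·8`). By `qb`: `1/√Q0 ≤ g √(y1 gcd(q,y) G₁ G₂/(q₁q₂y))`,
`g = gcd q₁ q₂ ≤ √(q₁q₂)`, `q = lcm`, `G_i = gcd q_i |h_i|`; `q g = q₁q₂`, `q_i ≤ 2Q`. So
`√(2M)/√Q0 ≤ √(2M) √(y1 gcd(q,y)/y) √(G₁G₂)` and
`(q y r)/√Q0 ≤ 2 Q r y √(y1 gcd(q,y)/y) √(G₁G₂)`, `y ≤ √(2M)`. Sum over `y` with `bet`
(`L' = 2 r q₁ q₂ |k| ≤ 64 N^6`, `q ∣ L'`): total `≤ C N^δ Q r √(2M) (2M)^{1/4} √(G₁G₂)`; logs `≤ C N^{δ'}`.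
-/

set_option autoImplicit false

namespace Pool.Agent.Work.MP_2dba45_nt.Bil

open Finset Pool.Agent.Work.MP_2dba45_nt.BilDef

namespace InAux

theorem mem_TT {Q r H q σ : ℕ} {h : ℤ} (ht : (q, σ, h) ∈ TT Q r H) :
    Q ≤ q ∧ q < 2 * Q ∧ h ≠ 0 ∧ |h| ≤ H ∧ Squarefree q ∧ q.Coprime (2 * r) ∧ q ∣ σ ^ 2 + 1 := by
  unfold TT at ht
  rw [mem_filter, mem_product, mem_product, mem_Ico, mem_Hs] at ht
  obtain ⟨⟨⟨h1, h2⟩, -, h3, h4⟩, h5, h6, h7⟩ := ht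
  unfold Rt at h7
  rw [mem_filter] at h7
  exact ⟨h1, h2, h3, h4, h5, h6, h7.2⟩

theorem norm_X_le (j K N r c m ω q σ M Q : ℕ) (h : ℤ) (hj : 1 ≤ j) (hK : 1 ≤ K)
    (hjK : j * K ≤ N) (hr : 1 ≤ r) (hM : 1 ≤ M) (hQ : 1 ≤ Q) (hm : M ≤ m) (hq : Q ≤ q) :
    ‖X j K N r c m ω q σ h‖ ≤ (K : ℝ) / (M * Q * r) := by
  unfold X
  rw [norm_mul, norm_mul, norm_ee, mul_one]
  have h1 := norm_What_le j K N hj hK hjK ((h : ℝ) / ((m : ℝ) * q * r))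
  have hr' : (0 : ℝ) < r := by exact_mod_cast hr
  have hM' : (0 : ℝ) < M := by exact_mod_cast hM
  have hQ' : (0 : ℝ) < Q := by exact_mod_cast hQ
  have hm' : (M : ℝ) ≤ m := by exact_mod_cast hm
  have hq' : (Q : ℝ) ≤ q := by exact_mod_cast hq
  have h2 : ‖(1 : ℂ) / ((m : ℂ) * q * r)‖ = 1 / ((m : ℝ) * q * r) := by
    rw [norm_div, norm_mul, norm_mul, norm_one]
    simp
  have h3 : (1 : ℝ) / ((m : ℝ) * q * r) ≤ 1 / ((M : ℝ) * Q * r) := by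
    refine one_div_le_one_div_of_le (by positivity) ?_
    gcongr
  rw [h2]
  calc 1 / ((m : ℝ) * q * r) * ‖What j K N ((h : ℝ) / ((m : ℝ) * q * r))‖
      ≤ 1 / ((M : ℝ) * Q * r) * K := mul_le_mul h3 h1 (norm_nonneg _) (by positivity)
    _ = (K : ℝ) / (M * Q * r) := by ring

theorem two_pow_le (n : ℕ) (hn : 0 < n) : 2 ^ #n.primeFactors ≤ #(n.divisors) := by
  rw [Nat.card_divisors hn.ne', ← prod_const]
  refine prod_le_prod' fun p hp => ?_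
  have : 0 < n.factorization p := (Nat.prime_of_mem_primeFactors hp).factorization_pos_of_dvd hn.ne'
    (Nat.dvd_of_mem_primeFactors hp)
  omega

theorem three_pow_le (n : ℕ) (hn : 0 < n) (P : Finset ℕ) (hP : P ⊆ n.primeFactors) :
    (3 : ℝ) ^ #P ≤ (#(n.divisors) : ℝ) ^ 2 := by
  have h1 : 2 ^ #P ≤ #(n.divisors) :=
    (Nat.pow_le_pow_right (by norm_num) (card_le_card hP)).trans (two_pow_le n hn)
  have h2 : ((2 : ℝ) ^ #P) ≤ #(n.divisors) := by exact_mod_cast h1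
  calc (3 : ℝ) ^ #P ≤ (4 : ℝ) ^ #P := pow_le_pow_left₀ (by norm_num) (by norm_num) _
    _ = ((2 : ℝ) ^ #P) ^ 2 := by rw [← pow_mul, mul_comm, pow_mul]; norm_num
    _ ≤ (#(n.divisors) : ℝ) ^ 2 := pow_le_pow_left₀ (by positivity) h2 2

theorem rp (N x c : ℝ) (hN : 0 ≤ N) (hx : 0 ≤ x) (hc : 0 ≤ c) (a : ℕ) (ha : 0 < a)
    (h : x ≤ c * N ^ a) (δ : ℝ) (hδ : 0 ≤ δ) : x ^ (δ / a) ≤ c ^ (δ / a) * N ^ δ := by
  have ha' : (0 : ℝ) < a := by exact_mod_cast ha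
  calc x ^ (δ / a) ≤ (c * N ^ a) ^ (δ / a) := Real.rpow_le_rpow hx h (by positivity)
    _ = c ^ (δ / a) * (N ^ a) ^ (δ / a) := Real.mul_rpow hc (by positivity)
    _ = c ^ (δ / a) * N ^ δ := by
        rw [← Real.rpow_natCast_mul hN, mul_div_cancel₀ _ ha'.ne']

/-- `τ(n)^2 ≤ C N^δ` for `n ≤ 8 N^3` -/
theorem tau_sq (δ : ℝ) (hδ : 0 < δ) : ∃ C : ℝ, 1 ≤ C ∧ ∀ N n : ℕ, 1 ≤ N → 0 < n →
    (n : ℝ) ≤ 8 * (N : ℝ) ^ 3 → (#(n.divisors) : ℝ) ^ 2 ≤ C * (N : ℝ) ^ δ := by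
  set k : ℕ := ⌈6 / δ⌉₊ + 1 with hk
  obtain ⟨C, hC1, hC⟩ := DivB.card_divisors_le k (by omega)
  have h8 : (1 : ℝ) ≤ 8 ^ (δ / (3 : ℕ)) := Real.one_le_rpow (by norm_num) (by positivity)
  refine ⟨C ^ 2 * 8 ^ (δ / (3 : ℕ)), one_le_mul_of_one_le_of_one_le (one_le_pow₀ hC1) h8,
    fun N n hN hn hnN => ?_⟩
  have hk0 : (0 : ℝ) < k := by positivity
  have hn' : (1 : ℝ) ≤ n := by exact_mod_cast hn
  have hkd : (2 : ℝ) / k ≤ δ / (3 : ℕ) := by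
    have h3 : 6 / δ ≤ k := by
      have := Nat.le_ceil (6 / δ)
      rw [hk]
      push_cast
      linarith
    rw [div_le_iff₀ hδ] at h3
    rw [div_le_div_iff₀ hk0 (by norm_num)]
    push_cast
    linarith
  calc (#(n.divisors) : ℝ) ^ 2 ≤ (C * (n : ℝ) ^ ((1 : ℝ) / k)) ^ 2 :=
        pow_le_pow_left₀ (by positivity) (hC n hn) 2
    _ = C ^ 2 * (n : ℝ) ^ ((2 : ℝ) / k) := by
        rw [mul_pow, ← Real.rpow_mul_natCast (by positivity)]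
        congr 2
        push_cast
        ring
    _ ≤ C ^ 2 * (n : ℝ) ^ (δ / (3 : ℕ)) := by
        refine mul_le_mul_of_nonneg_left ?_ (by positivity)
        exact Real.rpow_le_rpow_of_exponent_le hn' hkd
    _ ≤ C ^ 2 * (8 ^ (δ / (3 : ℕ)) * (N : ℝ) ^ δ) := by
        refine mul_le_mul_of_nonneg_left ?_ (by positivity)
        exact rp N n 8 (by positivity) (by positivity) (by norm_num) 3 (by norm_num) hnN δ hδ.le
    _ = C ^ 2 * 8 ^ (δ / (3 : ℕ)) * (N : ℝ) ^ δ := by ring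

end InAux

theorem inner_triv (j K N r c M Q H q₁ σ₁ q₂ σ₂ : ℕ) (h₁ h₂ : ℤ) (hj : 1 ≤ j) (hK : 1 ≤ K)
    (hjK : j * K ≤ N) (hr : 1 ≤ r) (hM : 1 ≤ M) (hQ : 1 ≤ Q)
    (ht₁ : (q₁, σ₁, h₁) ∈ TT Q r H) (ht₂ : (q₂, σ₂, h₂) ∈ TT Q r H) :
    ‖∑ m ∈ (Ico M (2 * M)).filter (fun m => m.Coprime (q₁ * q₂ * r)), ∑ ω ∈ Rt m,
        X j K N r c m ω q₁ σ₁ h₁ * (starRingEnd ℂ) (X j K N r c m ω q₂ σ₂ h₂)‖ ≤
      (∑ m ∈ Ico M (2 * M), (#(Rt m) : ℝ)) * ((K : ℝ) / (M * Q * r)) ^ 2 := by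
  obtain ⟨a1, -⟩ := InAux.mem_TT ht₁
  obtain ⟨a2, -⟩ := InAux.mem_TT ht₂
  have hr' : (0 : ℝ) < r := by exact_mod_cast hr
  have hM' : (0 : ℝ) < M := by exact_mod_cast hM
  have hQ' : (0 : ℝ) < Q := by exact_mod_cast hQ
  refine (norm_sum_le _ _).trans ?_
  calc ∑ m ∈ (Ico M (2 * M)).filter (fun m => m.Coprime (q₁ * q₂ * r)), ‖∑ ω ∈ Rt m,
        X j K N r c m ω q₁ σ₁ h₁ * (starRingEnd ℂ) (X j K N r c m ω q₂ σ₂ h₂)‖
      ≤ ∑ m ∈ Ico M (2 * M), ‖∑ ω ∈ Rt m,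
        X j K N r c m ω q₁ σ₁ h₁ * (starRingEnd ℂ) (X j K N r c m ω q₂ σ₂ h₂)‖ :=
        sum_le_sum_of_subset_of_nonneg (filter_subset _ _) fun _ _ _ => norm_nonneg _
    _ ≤ ∑ m ∈ Ico M (2 * M), (#(Rt m) : ℝ) * ((K : ℝ) / (M * Q * r)) ^ 2 := by
        refine sum_le_sum fun m hm => ?_
        rw [mem_Ico] at hm
        refine (norm_sum_le _ _).trans ?_
        rw [← nsmul_eq_mul]
        refine sum_le_card_nsmul _ _ _ fun ω _ => ?_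
        rw [norm_mul, RCLike.norm_conj, pow_two]
        exact mul_le_mul (InAux.norm_X_le j K N r c m ω q₁ σ₁ M Q h₁ hj hK hjK hr hM hQ hm.1 a1)
          (InAux.norm_X_le j K N r c m ω q₂ σ₂ M Q h₂ hj hK hjK hr hM hQ hm.1 a2)
          (norm_nonneg _) (by positivity)
    _ = (∑ m ∈ Ico M (2 * M), (#(Rt m) : ℝ)) * ((K : ℝ) / (M * Q * r)) ^ 2 := by rw [sum_mul]

namespace InAux

/-- the bound for `1 / √Q0` -/
theorem inv_sqrt_Q0 (y q₁ q₂ r : ℕ) (h₁ h₂ : ℤ) (hy : 1 ≤ y) (hr : 1 ≤ r) (hq₁ : Squarefree q₁)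
    (hq₂ : Squarefree q₂) (ho₁ : q₁.Coprime (2 * r)) (ho₂ : q₂.Coprime (2 * r))
    (hh₁ : h₁ ≠ 0) (hh₂ : h₂ ≠ 0) (hk : h₂ * q₁ - h₁ * q₂ ≠ 0) :
    0 < Q0 y q₁ q₂ r (h₂ * q₁ - h₁ * q₂) ∧
    1 / Real.sqrt (Q0 y q₁ q₂ r (h₂ * q₁ - h₁ * q₂)) ≤
      (Nat.gcd q₁ q₂ : ℝ) / Real.sqrt (q₁ * q₂) *
      Real.sqrt ((y1 (2 * r * q₁ * q₂ * (h₂ * q₁ - h₁ * q₂).natAbs) y : ℝ) *
        Nat.gcd (Nat.lcm q₁ q₂) y / y) *
      (Real.sqrt (Nat.gcd q₁ h₁.natAbs) * Real.sqrt (Nat.gcd q₂ h₂.natAbs)) := by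
  have hqb := qb y q₁ q₂ r h₁ h₂ hy hr hq₁ hq₂ ho₁ ho₂ hh₁ hh₂ hk
  have hQ0 : 0 < Q0 y q₁ q₂ r (h₂ * q₁ - h₁ * q₂) := by
    unfold Q0
    refine prod_pos fun p hp => ?_
    unfold P0 at hp
    exact (Nat.prime_of_mem_primeFactors (mem_filter.1 hp).1).pos
  refine ⟨hQ0, ?_⟩
  set L := 2 * r * q₁ * q₂ * (h₂ * q₁ - h₁ * q₂).natAbs with hL
  set Z := Q0 y q₁ q₂ r (h₂ * q₁ - h₁ * q₂) with hZ
  have hq₁0 : (0 : ℝ) < q₁ := by exact_mod_cast Nat.pos_of_ne_zero hq₁.ne_zero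
  have hq₂0 : (0 : ℝ) < q₂ := by exact_mod_cast Nat.pos_of_ne_zero hq₂.ne_zero
  have hy0 : (0 : ℝ) < y := by exact_mod_cast hy
  have hZ0 : (0 : ℝ) < Z := by exact_mod_cast hQ0
  have hqb' : (q₁ : ℝ) * q₂ * y ≤ Z * (Nat.gcd q₁ q₂ : ℝ) ^ 2 * y1 L y *
      Nat.gcd (Nat.lcm q₁ q₂) y * Nat.gcd q₁ h₁.natAbs * Nat.gcd q₂ h₂.natAbs := by
    exact_mod_cast hqb
  rw [div_le_iff₀ (Real.sqrt_pos.2 hZ0)]
  refine (one_le_sq_iff₀ (by positivity)).1 ?_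
  have e1 : ((Nat.gcd q₁ q₂ : ℝ) / Real.sqrt (q₁ * q₂) *
      Real.sqrt ((y1 L y : ℝ) * Nat.gcd (Nat.lcm q₁ q₂) y / y) *
      (Real.sqrt (Nat.gcd q₁ h₁.natAbs) * Real.sqrt (Nat.gcd q₂ h₂.natAbs)) * Real.sqrt Z) ^ 2 =
      (Z * (Nat.gcd q₁ q₂ : ℝ) ^ 2 * y1 L y *
      Nat.gcd (Nat.lcm q₁ q₂) y * Nat.gcd q₁ h₁.natAbs * Nat.gcd q₂ h₂.natAbs) /
      ((q₁ : ℝ) * q₂ * y) := by
    rw [mul_pow, mul_pow, mul_pow, mul_pow, div_pow, Real.sq_sqrt (by positivity),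
      Real.sq_sqrt (by positivity), Real.sq_sqrt (by positivity), Real.sq_sqrt (by positivity),
      Real.sq_sqrt (by positivity)]
    field_simp
  rw [e1, one_le_div (by positivity)]
  exact hqb'

/-- real analysis for one `y` -/
theorem one_y (g q₁ q₂ l y r Q M T A S G D : ℝ) (hy : 0 < y) (hr : 1 ≤ r) (hQ : 1 ≤ Q)
    (hq₁ : 0 < q₁) (hq₂ : 0 < q₂) (hg : 0 ≤ g) (hgq₁ : g ≤ q₁) (hgq₂ : g ≤ q₂)
    (hl : l * g = q₁ * q₂) (hl0 : 0 ≤ l) (hq₁Q : q₁ ≤ 2 * Q) (hq₂Q : q₂ ≤ 2 * Q)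
    (hyM : y ≤ M) (hS : 0 ≤ S) (hG : 0 ≤ G)
    (hA : 0 < A) (hAb : 1 / A ≤ g / Real.sqrt (q₁ * q₂) * S * G)
    (hT : 0 ≤ T) (hD : 2 + Real.log (l * y * r) ≤ D) (hD1 : 1 ≤ D) :
    T * (M + l * y * r * (2 + Real.log (l * y * r))) / A ≤
      T * (M * Q * r * (3 * D)) * (S * G) := by
  have hM : 0 < M := by linarith
  have hs : 0 < Real.sqrt (q₁ * q₂) := Real.sqrt_pos.2 (by positivity)
  have hss : Real.sqrt (q₁ * q₂) * Real.sqrt (q₁ * q₂) = q₁ * q₂ := Real.mul_self_sqrt (by positivity)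
  have hgs : g ≤ Real.sqrt (q₁ * q₂) := by
    refine Real.le_sqrt_of_sq_le ?_
    nlinarith
  have hs2 : Real.sqrt (q₁ * q₂) ≤ 2 * Q := by
    rw [Real.sqrt_le_left (by positivity)]
    nlinarith
  have h1 : M + l * y * r * (2 + Real.log (l * y * r)) ≤ M + l * y * r * D := by
    have : 0 ≤ l * y * r := by positivity
    nlinarith
  have h2 : (M + l * y * r * D) * (g / Real.sqrt (q₁ * q₂)) ≤ M * Q * r * (3 * D) := by
    have e1 : (M + l * y * r * D) * (g / Real.sqrt (q₁ * q₂)) =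
        M * (g / Real.sqrt (q₁ * q₂)) + Real.sqrt (q₁ * q₂) * y * r * D := by
      field_simp
      rw [Real.sq_sqrt (by positivity)]
      linear_combination (y * r * D) * hl
    have e2 : g / Real.sqrt (q₁ * q₂) ≤ 1 := (div_le_one hs).2 hgs
    have e3 : Real.sqrt (q₁ * q₂) * y * r * D ≤ 2 * Q * M * r * D := by gcongr
    have e4 : 1 ≤ Q * r := by nlinarith
    have e5 : M * (g / Real.sqrt (q₁ * q₂)) ≤ M * 1 := mul_le_mul_of_nonneg_left e2 hM.le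
    have e6 : M * 1 ≤ M * (Q * r) * D := by
      have : 1 ≤ (Q * r) * D := by nlinarith
      nlinarith
    rw [e1]
    nlinarith
  have h3 : 0 ≤ M + l * y * r * D := by positivity
  calc T * (M + l * y * r * (2 + Real.log (l * y * r))) / A
      ≤ T * (M + l * y * r * D) / A := by gcongr
    _ = T * ((M + l * y * r * D) * (1 / A)) := by ring
    _ ≤ T * ((M + l * y * r * D) * (g / Real.sqrt (q₁ * q₂) * S * G)) := by gcongr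
    _ = T * (((M + l * y * r * D) * (g / Real.sqrt (q₁ * q₂))) * (S * G)) := by ring
    _ ≤ T * ((M * Q * r * (3 * D)) * (S * G)) := by gcongr
    _ = T * (M * Q * r * (3 * D)) * (S * G) := by ring

theorem three_quarter (M : ℝ) (hM : 0 < M) (Y : ℝ) (hY0 : 0 ≤ Y) (hY : Y ≤ Real.sqrt (2 * M)) :
    Real.sqrt (2 * M) * Real.sqrt Y ≤ 2 * M ^ (3 / 4 : ℝ) := by
  have h2M : 0 < 2 * M := by positivity
  calc Real.sqrt (2 * M) * Real.sqrt Y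
      ≤ Real.sqrt (2 * M) * Real.sqrt (Real.sqrt (2 * M)) := by gcongr
    _ = (2 * M) ^ (3 / 4 : ℝ) := by
        rw [Real.sqrt_eq_rpow, Real.sqrt_eq_rpow, ← Real.rpow_mul h2M.le, ← Real.rpow_add h2M]
        norm_num
    _ = 2 ^ (3 / 4 : ℝ) * M ^ (3 / 4 : ℝ) := Real.mul_rpow (by norm_num) hM.le
    _ ≤ 2 * M ^ (3 / 4 : ℝ) := by
        refine mul_le_mul_of_nonneg_right ?_ (by positivity)
        calc (2 : ℝ) ^ (3 / 4 : ℝ) ≤ 2 ^ (1 : ℝ) :=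
              Real.rpow_le_rpow_of_exponent_le (by norm_num) (by norm_num)
          _ = 2 := Real.rpow_one 2

end InAux

theorem inner (hW : WeilBound) (δ : ℝ) (hδ : 0 < δ) : ∃ C : ℝ, 1 ≤ C ∧
    ∀ (j K N r c M Q H q₁ σ₁ q₂ σ₂ : ℕ) (h₁ h₂ : ℤ), 1 ≤ j → 1 ≤ K → j * K ≤ N → 1 ≤ r → r ≤ N →
      2 ≤ M → M ≤ N → 1 ≤ Q → Q ≤ N → 1 ≤ H → H ≤ N →
      (q₁, σ₁, h₁) ∈ TT Q r H → (q₂, σ₂, h₂) ∈ TT Q r H → h₂ * q₁ - h₁ * q₂ ≠ 0 →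
      ‖∑ m ∈ (Ico M (2 * M)).filter (fun m => m.Coprime (q₁ * q₂ * r)), ∑ ω ∈ Rt m,
          X j K N r c m ω q₁ σ₁ h₁ * (starRingEnd ℂ) (X j K N r c m ω q₂ σ₂ h₂)‖ ≤
        C * (N : ℝ) ^ δ * ((K : ℝ) / (M * Q * r)) ^ 2 *
          (1 + 4 * Real.pi * N * H / ((M : ℝ) * Q * r)) ^ 2 * (1 + 18 * H / (Q * Real.sqrt M)) *
          (Q * r * (M : ℝ) ^ (3 / 4 : ℝ)) *
          (Real.sqrt (Nat.gcd q₁ h₁.natAbs) * Real.sqrt (Nat.gcd q₂ h₂.natAbs)) := by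
  obtain ⟨C1, hC1, hC1'⟩ := InAux.tau_sq (δ / 3) (by positivity)
  obtain ⟨C2, hC2, hC2'⟩ := bet (δ / 3 / (6 : ℕ)) (by positivity)
  set C3 : ℝ := 2 + 8 ^ (δ / 3 / (4 : ℕ)) / (δ / 3 / (4 : ℕ)) with hC3
  set C4 : ℝ := 64 ^ (δ / 3 / (6 : ℕ)) with hC4
  have hC31 : 1 ≤ C3 := by
    rw [hC3]
    have : 0 ≤ (8 : ℝ) ^ (δ / 3 / (4 : ℕ)) / (δ / 3 / (4 : ℕ)) := by positivity
    linarith
  have hC41 : 1 ≤ C4 := Real.one_le_rpow (by norm_num) (by positivity)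
  have hCC : 1 ≤ C1 * C2 * C3 * C4 :=
    one_le_mul_of_one_le_of_one_le (one_le_mul_of_one_le_of_one_le
      (one_le_mul_of_one_le_of_one_le hC1 hC2) hC31) hC41
  refine ⟨768 * (C1 * C2 * C3 * C4), by linarith, ?_⟩
  intro j K N r c M Q H q₁ σ₁ q₂ σ₂ h₁ h₂ hj hK hjK hr hrN hM hMN hQ hQN hH hHN ht₁ ht₂ hk
  obtain ⟨a1, b1, c1, d1, e1, f1, g1⟩ := InAux.mem_TT ht₁
  obtain ⟨a2, b2, c2, d2, e2, f2, g2⟩ := InAux.mem_TT ht₂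
  have hN : 2 ≤ N := hM.trans hMN
  have hN1 : (1 : ℝ) ≤ N := by
    have : 1 ≤ N := by omega
    exact_mod_cast this
  have hN0 : (0 : ℝ) < N := by linarith
  have hr1 : (1 : ℝ) ≤ r := by exact_mod_cast hr
  have hQ1 : (1 : ℝ) ≤ Q := by exact_mod_cast hQ
  have hM0 : (0 : ℝ) < M := by
    have : 0 < M := by omega
    exact_mod_cast this
  have hMN' : (M : ℝ) ≤ N := by exact_mod_cast hMN
  have hQN' : (Q : ℝ) ≤ N := by exact_mod_cast hQN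
  have hrN' : (r : ℝ) ≤ N := by exact_mod_cast hrN
  have hHN' : (H : ℝ) ≤ N := by exact_mod_cast hHN
  have hq₁0 : (0 : ℝ) < q₁ := by
    have : 0 < q₁ := by omega
    exact_mod_cast this
  have hq₂0 : (0 : ℝ) < q₂ := by
    have : 0 < q₂ := by omega
    exact_mod_cast this
  have hq₁Q : (q₁ : ℝ) ≤ 2 * Q := by exact_mod_cast b1.le
  have hq₂Q : (q₂ : ℝ) ≤ 2 * Q := by exact_mod_cast b2.le
  set k : ℤ := h₂ * q₁ - h₁ * q₂ with hkdef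
  set L : ℕ := 2 * r * q₁ * q₂ * k.natAbs with hL
  set Y : ℕ := Nat.sqrt (2 * M) with hY
  set A : ℝ := ((K : ℝ) / (M * Q * r)) ^ 2 with hAdef
  set B : ℝ := (1 + 4 * Real.pi * N * H / ((M : ℝ) * Q * r)) ^ 2 with hBdef
  set E : ℝ := (1 + 18 * H / (Q * Real.sqrt M)) with hEdef
  have hA0 : 0 ≤ A := by positivity
  have hB0 : 0 ≤ B := by positivity
  have hE0 : 0 ≤ E := by positivity
  set GG : ℝ := Real.sqrt (Nat.gcd q₁ h₁.natAbs) * Real.sqrt (Nat.gcd q₂ h₂.natAbs) with hGG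
  have hGG0 : 0 ≤ GG := by positivity
  have hYM : (Y : ℝ) ≤ Real.sqrt (2 * M) := by
    have := Real.nat_sqrt_le_real_sqrt (a := 2 * M)
    push_cast at this
    exact this
  have hY1 : 1 ≤ Y := by
    rw [hY, Nat.le_sqrt]
    omega
  have hsqM : Real.sqrt (2 * M) ≤ 2 * N := by
    rw [Real.sqrt_le_left (by positivity)]
    nlinarith
  set D : ℝ := C3 * (N : ℝ) ^ (δ / 3) with hDdef
  have hNd : 1 ≤ (N : ℝ) ^ (δ / 3) := Real.one_le_rpow hN1 (by positivity)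
  have hD1 : 1 ≤ D := one_le_mul_of_one_le_of_one_le hC31 hNd
  -- the bound for one `y`
  have hterm : ∀ y ∈ Icc 1 Y, ‖∑ x ∈ (Icc 1 (Nat.sqrt (2 * M))).filter
      (fun x => (M ≤ x ^ 2 + y ^ 2 ∧ x ^ 2 + y ^ 2 < 2 * M) ∧ x.Coprime y ∧
        (x ^ 2 + y ^ 2).Coprime (q₁ * q₂ * r)),
      X j K N r c (x ^ 2 + y ^ 2) (om x y) q₁ σ₁ h₁ *
        (starRingEnd ℂ) (X j K N r c (x ^ 2 + y ^ 2) (om x y) q₂ σ₂ h₂)‖ ≤
      128 * A * B * E * (C1 * (N : ℝ) ^ (δ / 3) * (Real.sqrt (2 * M) * Q * r * (3 * D)) * GG) *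
        Real.sqrt ((y1 L y : ℝ) * Nat.gcd (Nat.lcm q₁ q₂) y / y) := by
    intro y hy
    rw [mem_Icc] at hy
    have hy0 : (0 : ℝ) < y := by exact_mod_cast hy.1
    have hyY : (y : ℝ) ≤ Real.sqrt (2 * M) := le_trans (by exact_mod_cast hy.2) hYM
    have hx := sum_x hW j K N r c M Q H y q₁ σ₁ q₂ σ₂ h₁ h₂ hj hK hjK hy.1 hr (by omega) hQ a1 a2
      d1 d2 e1 e2 f1 f2 g1 g2 hk
    obtain ⟨hQ0, hinv⟩ := InAux.inv_sqrt_Q0 y q₁ q₂ r h₁ h₂ hy.1 hr e1 e2 f1 f2 c1 c2 hk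
    rw [← hkdef] at hQ0 hinv hx
    rw [← hL, ← hGG] at hinv
    -- powers of 3
    have h3 : (3 : ℝ) ^ #(P0 y q₁ q₂ r k) ≤ C1 * (N : ℝ) ^ (δ / 3) := by
      have hn0 : 0 < y * q₁ * q₂ := by
        have : 0 < q₁ := by omega
        have : 0 < q₂ := by omega
        have := hy.1
        positivity
      refine (InAux.three_pow_le (y * q₁ * q₂) hn0 _ (by unfold P0; exact filter_subset _ _)).trans ?_
      refine hC1' N _ (by omega) hn0 ?_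
      push_cast
      calc (y : ℝ) * q₁ * q₂ ≤ (2 * N) * (2 * N) * (2 * N) := by
            gcongr
            · exact hyY.trans hsqM
            · linarith
            · linarith
        _ = 8 * (N : ℝ) ^ 3 := by ring
    -- logarithm
    have hlcm0 : (0 : ℝ) < Nat.lcm q₁ q₂ := by
      have : 0 < Nat.lcm q₁ q₂ := Nat.lcm_pos (by omega) (by omega)
      exact_mod_cast this
    have hlg : (Nat.lcm q₁ q₂ : ℝ) * Nat.gcd q₁ q₂ = q₁ * q₂ := by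
      have := Nat.gcd_mul_lcm q₁ q₂
      rw [mul_comm] at this
      exact_mod_cast this
    have hg1 : (1 : ℝ) ≤ Nat.gcd q₁ q₂ := by
      have : 1 ≤ Nat.gcd q₁ q₂ := Nat.gcd_pos_of_pos_left _ (by omega)
      exact_mod_cast this
    have hlcmN : (Nat.lcm q₁ q₂ : ℝ) * y * r ≤ 8 * (N : ℝ) ^ 4 := by
      have : (Nat.lcm q₁ q₂ : ℝ) ≤ (2 * N) * (2 * N) := by
        calc (Nat.lcm q₁ q₂ : ℝ) ≤ (Nat.lcm q₁ q₂ : ℝ) * Nat.gcd q₁ q₂ :=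
              le_mul_of_one_le_right hlcm0.le hg1
          _ = q₁ * q₂ := hlg
          _ ≤ (2 * N) * (2 * N) := by
              gcongr
              · linarith
              · linarith
      calc (Nat.lcm q₁ q₂ : ℝ) * y * r ≤ ((2 * N) * (2 * N)) * (2 * N) * N := by
            gcongr
            exact hyY.trans hsqM
        _ = 8 * (N : ℝ) ^ 4 := by ring
    have hlog : 2 + Real.log ((Nat.lcm q₁ q₂ : ℝ) * y * r) ≤ D := by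
      have hx0 : 0 ≤ (Nat.lcm q₁ q₂ : ℝ) * y * r := by positivity
      have h5 := Real.log_le_rpow_div hx0 (ε := δ / 3 / (4 : ℕ)) (by positivity)
      have h6 := InAux.rp N ((Nat.lcm q₁ q₂ : ℝ) * y * r) 8 hN0.le hx0 (by norm_num) 4
        (by norm_num) hlcmN (δ / 3) (by positivity)
      calc 2 + Real.log ((Nat.lcm q₁ q₂ : ℝ) * y * r)
          ≤ 2 + (8 ^ (δ / 3 / (4 : ℕ)) * (N : ℝ) ^ (δ / 3)) / (δ / 3 / (4 : ℕ)) := by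
            refine add_le_add (le_refl _) (h5.trans ?_)
            gcongr
        _ ≤ 2 * (N : ℝ) ^ (δ / 3) +
            (8 ^ (δ / 3 / (4 : ℕ)) * (N : ℝ) ^ (δ / 3)) / (δ / 3 / (4 : ℕ)) := by
            gcongr
            linarith
        _ = D := by rw [hDdef, hC3]; ring
    have h7 := InAux.one_y (Nat.gcd q₁ q₂) q₁ q₂ (Nat.lcm q₁ q₂) y r Q (Real.sqrt (2 * M))
      (3 ^ #(P0 y q₁ q₂ r k)) (Real.sqrt (Q0 y q₁ q₂ r k))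
      (Real.sqrt ((y1 L y : ℝ) * Nat.gcd (Nat.lcm q₁ q₂) y / y)) GG D hy0 hr1 hQ1 hq₁0 hq₂0
      (by positivity)
      (by exact_mod_cast Nat.le_of_dvd (by omega) (Nat.gcd_dvd_left q₁ q₂))
      (by exact_mod_cast Nat.le_of_dvd (by omega) (Nat.gcd_dvd_right q₁ q₂))
      hlg hlcm0.le hq₁Q hq₂Q hyY (Real.sqrt_nonneg _) hGG0
      (Real.sqrt_pos.2 (by exact_mod_cast hQ0)) hinv (by positivity) hlog hD1
    refine hx.trans ?_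
    calc 128 * A * B * E * (3 ^ #(P0 y q₁ q₂ r k) *
          (Real.sqrt (2 * M) + (Nat.lcm q₁ q₂ : ℝ) * y * r *
            (2 + Real.log ((Nat.lcm q₁ q₂ : ℝ) * y * r))) / Real.sqrt (Q0 y q₁ q₂ r k))
        ≤ 128 * A * B * E * (3 ^ #(P0 y q₁ q₂ r k) * (Real.sqrt (2 * M) * Q * r * (3 * D)) *
          (Real.sqrt ((y1 L y : ℝ) * Nat.gcd (Nat.lcm q₁ q₂) y / y) * GG)) :=
          mul_le_mul_of_nonneg_left h7 (by positivity)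
      _ ≤ 128 * A * B * E * ((C1 * (N : ℝ) ^ (δ / 3)) * (Real.sqrt (2 * M) * Q * r * (3 * D)) *
          (Real.sqrt ((y1 L y : ℝ) * Nat.gcd (Nat.lcm q₁ q₂) y / y) * GG)) := by
          gcongr
      _ = _ := by ring
  -- sum over `y`
  rw [gauss_sum M (q₁ * q₂ * r) hM (fun m ω => X j K N r c m ω q₁ σ₁ h₁ *
    (starRingEnd ℂ) (X j K N r c m ω q₂ σ₂ h₂))]
  have hk1 : 1 ≤ k.natAbs := by
    have := Int.natAbs_pos.2 hk
    omega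
  have hL1 : 1 ≤ L := by
    have : 0 < q₁ := by omega
    have : 0 < q₂ := by omega
    have : 0 < k.natAbs := by omega
    have : 0 < r := by omega
    have : 0 < L := by positivity
    omega
  have hdvd : Nat.lcm q₁ q₂ ∣ L := by
    refine Nat.lcm_dvd ?_ ?_
    · exact ⟨2 * r * q₂ * k.natAbs, by rw [hL]; ring⟩
    · exact ⟨2 * r * q₁ * k.natAbs, by rw [hL]; ring⟩
  have hbet := hC2' Y L (Nat.lcm q₁ q₂) hY1 hL1 hdvd
  have hkN : (k.natAbs : ℝ) ≤ 4 * (N : ℝ) ^ 2 := by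
    have h8 : (k.natAbs : ℝ) = |(k : ℝ)| := by
      rw [Nat.cast_natAbs, Int.cast_abs]
    rw [h8, hkdef]
    push_cast
    have d1' : |(h₁ : ℝ)| ≤ H := by exact_mod_cast d1
    have d2' : |(h₂ : ℝ)| ≤ H := by exact_mod_cast d2
    calc |(h₂ : ℝ) * q₁ - h₁ * q₂| ≤ |(h₂ : ℝ) * q₁| + |(h₁ : ℝ) * q₂| := abs_sub _ _
      _ = |(h₂ : ℝ)| * q₁ + |(h₁ : ℝ)| * q₂ := by
          rw [abs_mul, abs_mul, abs_of_pos hq₁0, abs_of_pos hq₂0]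
      _ ≤ N * (2 * N) + N * (2 * N) := by
          gcongr
          · exact d2'.trans hHN'
          · linarith
          · exact d1'.trans hHN'
          · linarith
      _ = 4 * (N : ℝ) ^ 2 := by ring
  have hYL : (Y : ℝ) * L ≤ 64 * (N : ℝ) ^ 6 := by
    rw [hL]
    push_cast
    calc (Y : ℝ) * (2 * r * q₁ * q₂ * (k.natAbs : ℝ))
        ≤ (2 * N) * (2 * N * (2 * N) * (2 * N) * (4 * (N : ℝ) ^ 2)) := by
          gcongr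
          · exact hYM.trans hsqM
          · linarith
          · linarith
      _ = 64 * (N : ℝ) ^ 6 := by ring
  have hbet2 : ∑ y ∈ Icc 1 Y, Real.sqrt ((y1 L y : ℝ) * Nat.gcd (Nat.lcm q₁ q₂) y / y) ≤
      C2 * (C4 * (N : ℝ) ^ (δ / 3)) * Real.sqrt Y := by
    refine hbet.trans ?_
    gcongr
    exact InAux.rp N ((Y : ℝ) * L) 64 hN0.le (by positivity) (by norm_num) 6 (by norm_num) hYL
      (δ / 3) (by positivity)
  have h34 := InAux.three_quarter M hM0 Y (by positivity) hYM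
  have hN3 : (N : ℝ) ^ (δ / 3) * (N : ℝ) ^ (δ / 3) * (N : ℝ) ^ (δ / 3) = (N : ℝ) ^ δ := by
    rw [← Real.rpow_add hN0, ← Real.rpow_add hN0]
    congr 1
    ring
  calc ‖∑ y ∈ Icc 1 (Nat.sqrt (2 * M)), ∑ x ∈ (Icc 1 (Nat.sqrt (2 * M))).filter
        (fun x => (M ≤ x ^ 2 + y ^ 2 ∧ x ^ 2 + y ^ 2 < 2 * M) ∧ x.Coprime y ∧
          (x ^ 2 + y ^ 2).Coprime (q₁ * q₂ * r)),
        X j K N r c (x ^ 2 + y ^ 2) (om x y) q₁ σ₁ h₁ *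
          (starRingEnd ℂ) (X j K N r c (x ^ 2 + y ^ 2) (om x y) q₂ σ₂ h₂)‖
      ≤ ∑ y ∈ Icc 1 Y, 128 * A * B * E *
        (C1 * (N : ℝ) ^ (δ / 3) * (Real.sqrt (2 * M) * Q * r * (3 * D)) * GG) *
        Real.sqrt ((y1 L y : ℝ) * Nat.gcd (Nat.lcm q₁ q₂) y / y) :=
        (norm_sum_le _ _).trans (sum_le_sum hterm)
    _ = 128 * A * B * E *
        (C1 * (N : ℝ) ^ (δ / 3) * (Real.sqrt (2 * M) * Q * r * (3 * D)) * GG) *
        ∑ y ∈ Icc 1 Y, Real.sqrt ((y1 L y : ℝ) * Nat.gcd (Nat.lcm q₁ q₂) y / y) := by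
        rw [mul_sum]
    _ ≤ 128 * A * B * E *
        (C1 * (N : ℝ) ^ (δ / 3) * (Real.sqrt (2 * M) * Q * r * (3 * D)) * GG) *
        (C2 * (C4 * (N : ℝ) ^ (δ / 3)) * Real.sqrt Y) :=
        mul_le_mul_of_nonneg_left hbet2 (by positivity)
    _ = 384 * (C1 * C2 * C3 * C4) *
        ((N : ℝ) ^ (δ / 3) * (N : ℝ) ^ (δ / 3) * (N : ℝ) ^ (δ / 3)) * A * B * E * (Q * r) * GG *
        (Real.sqrt (2 * M) * Real.sqrt Y) := by
        rw [hDdef]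
        ring
    _ ≤ 384 * (C1 * C2 * C3 * C4) *
        ((N : ℝ) ^ (δ / 3) * (N : ℝ) ^ (δ / 3) * (N : ℝ) ^ (δ / 3)) * A * B * E * (Q * r) * GG *
        (2 * (M : ℝ) ^ (3 / 4 : ℝ)) :=
        mul_le_mul_of_nonneg_left h34 (by positivity)
    _ = 768 * (C1 * C2 * C3 * C4) * (N : ℝ) ^ δ * A * B * E *
          (Q * r * (M : ℝ) ^ (3 / 4 : ℝ)) * GG := by
        rw [hN3]
        ring

end Pool.Agent.Work.MP_2dba45_nt.Bil
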