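import Mathlib
import Pool.Agent.Work.MP_2dba45_nt.BilIn
import Pool.Agent.Work.MP_2dba45_nt.BilCS
import Pool.Agent.Work.MP_2dba45_nt.BilRem

/-!
MODULE BLK (one dyadic block).
-/

set_option autoImplicit false

namespace Pool.Agent.Work.MP_2dba45_nt.Bil

open Finset Pool.Agent.Work.MP_2dba45_nt.BilDef

theorem card_Rt_le_self (m : ℕ) : #(Rt m) ≤ m := by
  unfold Rt
  exact (card_filter_le _ _).trans (by simp)

/-- sum of the numbers of roots over a block -/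
theorem rho_sum (δ : ℝ) (hδ : 0 < δ) : ∃ C : ℝ, 1 ≤ C ∧ ∀ M N : ℕ, 1 ≤ M → M ≤ N →
    ∑ m ∈ Ico M (2 * M), (#(Rt m) : ℝ) ≤ C * M * (N : ℝ) ^ δ := by
  obtain ⟨k, hk⟩ := exists_nat_gt (1 / δ)
  have hk0 : 0 < k := by
    have : (0 : ℝ) < k := lt_trans (by positivity) hk
    exact_mod_cast this
  obtain ⟨C, hC, hd⟩ := DivB.card_divisors_le k hk0
  refine ⟨C * 2, by linarith, fun M N hM hMN => ?_⟩
  have hN1 : (1 : ℝ) ≤ N := by exact_mod_cast hM.trans hMN
  have hk1 : (1 : ℝ) ≤ k := by exact_mod_cast hk0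
  have hkδ : (1 : ℝ) / k ≤ δ := by
    rw [div_le_iff₀ (by exact_mod_cast hk0)]
    have := (div_lt_iff₀ hδ).1 hk
    linarith
  have key : ∀ m ∈ Ico M (2 * M), (#(Rt m) : ℝ) ≤ C * 2 * (N : ℝ) ^ δ := by
    intro m hm
    rw [mem_Ico] at hm
    have hm0 : 0 < m := by omega
    have h1 : (#(Rt m) : ℝ) ≤ #(Nat.divisors m) := by exact_mod_cast card_Rt_le m hm0
    refine h1.trans ((hd m hm0).trans ?_)
    have h2 : (m : ℝ) ≤ 2 * N := by
      have : m ≤ 2 * N := by omega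
      exact_mod_cast this
    have h3 : (m : ℝ) ^ ((1 : ℝ) / k) ≤ (2 * N : ℝ) ^ ((1 : ℝ) / k) :=
      Real.rpow_le_rpow (by positivity) h2 (by positivity)
    have h4 : (2 * N : ℝ) ^ ((1 : ℝ) / k) ≤ 2 * (N : ℝ) ^ δ := by
      rw [Real.mul_rpow (by norm_num) (by positivity)]
      have h5 : (2 : ℝ) ^ ((1 : ℝ) / k) ≤ 2 ^ (1 : ℝ) :=
        Real.rpow_le_rpow_of_exponent_le (by norm_num) (by
          rw [div_le_one (by linarith)]; exact hk1)
      rw [Real.rpow_one] at h5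
      have h6 : (N : ℝ) ^ ((1 : ℝ) / k) ≤ (N : ℝ) ^ δ :=
        Real.rpow_le_rpow_of_exponent_le hN1 hkδ
      gcongr
    calc C * (m : ℝ) ^ ((1 : ℝ) / k) ≤ C * (2 * (N : ℝ) ^ δ) := by gcongr; exact h3.trans h4
      _ = C * 2 * (N : ℝ) ^ δ := by ring
  calc ∑ m ∈ Ico M (2 * M), (#(Rt m) : ℝ) ≤ ∑ m ∈ Ico M (2 * M), C * 2 * (N : ℝ) ^ δ :=
        sum_le_sum key
    _ = C * 2 * M * (N : ℝ) ^ δ := by
        rw [sum_const, Nat.card_Ico, nsmul_eq_mul]
        have : 2 * M - M = M := by omega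
        rw [this]
        ring

theorem sum_TT_filter (Q r H m : ℕ) (F : ℕ → ℕ → ℤ → ℂ) :
    ∑ q ∈ (Ico Q (2 * Q)).filter (fun q => Squarefree q ∧ q.Coprime (2 * m * r)),
      ∑ σ ∈ Rt q, ∑ h ∈ Hs H, F q σ h =
    ∑ t ∈ (TT Q r H).filter (fun t => m.Coprime t.1), F t.1 t.2.1 t.2.2 := by
  classical
  unfold TT
  rw [filter_filter]
  rw [sum_filter, sum_filter, sum_product]
  refine sum_congr rfl fun q hq => ?_
  rw [mem_Ico] at hq
  rw [sum_product]
  by_cases hc : Squarefree q ∧ q.Coprime (2 * m * r)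
  · rw [if_pos hc]
    have h1 : q.Coprime (2 * r) := by
      have h := hc.2
      rw [Nat.coprime_mul_iff_right, Nat.coprime_mul_iff_right] at h
      rw [Nat.coprime_mul_iff_right]
      exact ⟨h.1.1, h.2⟩
    have h2 : m.Coprime q := by
      have h := hc.2
      rw [Nat.coprime_mul_iff_right, Nat.coprime_mul_iff_right] at h
      exact h.1.2.symm
    have hsub : Rt q ⊆ range (2 * Q) := by
      intro σ hσ
      unfold Rt at hσ
      rw [mem_filter, mem_range] at hσ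
      rw [mem_range]
      omega
    rw [← sum_subset hsub (f := fun σ => ∑ y ∈ Hs H, if (Squarefree (q, σ, y).1 ∧
      (q, σ, y).1.Coprime (2 * r) ∧ (q, σ, y).2.1 ∈ Rt (q, σ, y).1) ∧ m.Coprime (q, σ, y).1 then
      F (q, σ, y).1 (q, σ, y).2.1 (q, σ, y).2.2 else 0)]
    · refine sum_congr rfl fun σ hσ => sum_congr rfl fun h _ => ?_
      rw [if_pos]
      exact ⟨⟨hc.1, h1, hσ⟩, h2⟩
    · intro σ _ hσ
      refine sum_eq_zero fun h _ => ?_
      rw [if_neg]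
      rintro ⟨⟨_, _, h3⟩, _⟩
      exact hσ h3
  · rw [if_neg hc]
    symm
    refine sum_eq_zero fun σ _ => sum_eq_zero fun h _ => ?_
    rw [if_neg]
    rintro ⟨⟨h1, h2, _⟩, h3⟩
    refine hc ⟨h1, ?_⟩
    simp only at h2 h3
    rw [Nat.coprime_mul_iff_right] at h2
    rw [Nat.coprime_mul_iff_right, Nat.coprime_mul_iff_right]
    exact ⟨⟨h2.1, h3.symm⟩, h2.2⟩

/-- the sum of the (small) error terms over a block -/
theorem err_sum (M Q r : ℕ) (E : ℝ) (hE : 0 ≤ E) (hM : 1 ≤ M) (hQ : 1 ≤ Q) (f : ℕ → ℕ → ℝ)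
    (hf : ∀ m ∈ Ico M (2 * M), ∀ q ∈ Ico Q (2 * Q), m.Coprime r → Squarefree q →
      q.Coprime (2 * m * r) → |f m q| ≤ (#(Rt m) : ℝ) * #(Rt q) * E) :
    ∑ m ∈ (Ico M (2 * M)).filter (fun m => m.Coprime r),
      ∑ q ∈ (Ico Q (2 * Q)).filter (fun q => Squarefree q ∧ q.Coprime (2 * m * r)), |f m q|
      ≤ 4 * (M : ℝ) ^ 2 * (Q : ℝ) ^ 2 * E := by
  have h1 : ∀ m ∈ (Ico M (2 * M)).filter (fun m => m.Coprime r),
      ∑ q ∈ (Ico Q (2 * Q)).filter (fun q => Squarefree q ∧ q.Coprime (2 * m * r)), |f m q|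
        ≤ Q * (2 * M * (2 * Q) * E) := by
    intro m hm
    rw [mem_filter] at hm
    have h2 : ∀ q ∈ (Ico Q (2 * Q)).filter (fun q => Squarefree q ∧ q.Coprime (2 * m * r)),
        |f m q| ≤ 2 * M * (2 * Q) * E := by
      intro q hq
      rw [mem_filter] at hq
      refine (hf m hm.1 q hq.1 hm.2 hq.2.1 hq.2.2).trans ?_
      have a1 : (#(Rt m) : ℝ) ≤ 2 * M := by
        have : #(Rt m) ≤ 2 * M := (card_Rt_le_self m).trans (by have := mem_Ico.1 hm.1; omega)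
        exact_mod_cast this
      have a2 : (#(Rt q) : ℝ) ≤ 2 * Q := by
        have : #(Rt q) ≤ 2 * Q := (card_Rt_le_self q).trans (by have := mem_Ico.1 hq.1; omega)
        exact_mod_cast this
      gcongr
    refine (sum_le_sum h2).trans ?_
    rw [sum_const, nsmul_eq_mul]
    have h3 : (#((Ico Q (2 * Q)).filter (fun q => Squarefree q ∧ q.Coprime (2 * m * r))) : ℝ)
        ≤ Q := by
      have : #((Ico Q (2 * Q)).filter (fun q => Squarefree q ∧ q.Coprime (2 * m * r))) ≤ Q := by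
        refine (card_filter_le _ _).trans ?_
        rw [Nat.card_Ico]
        omega
      exact_mod_cast this
    gcongr
  refine (sum_le_sum h1).trans ?_
  rw [sum_const, nsmul_eq_mul]
  have h4 : (#((Ico M (2 * M)).filter (fun m => m.Coprime r)) : ℝ) ≤ M := by
    have : #((Ico M (2 * M)).filter (fun m => m.Coprime r)) ≤ M := by
      refine (card_filter_le _ _).trans ?_
      rw [Nat.card_Ico]
      omega
    exact_mod_cast this
  calc (#((Ico M (2 * M)).filter (fun m => m.Coprime r)) : ℝ) * (Q * (2 * M * (2 * Q) * E))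
      ≤ M * (Q * (2 * M * (2 * Q) * E)) := by gcongr
    _ = 4 * (M : ℝ) ^ 2 * (Q : ℝ) ^ 2 * E := by ring

theorem mem_TT {Q r H : ℕ} {t : ℕ × ℕ × ℤ} (ht : t ∈ TT Q r H) :
    (Q ≤ t.1 ∧ t.1 < 2 * Q) ∧ (t.2.2 ≠ 0 ∧ |t.2.2| ≤ H) := by
  unfold TT at ht
  rw [mem_filter, mem_product, mem_product, mem_Ico, mem_Hs] at ht
  exact ⟨ht.1.1, ht.1.2.2⟩

/-- the square of the main sum -/
theorem t1_sq (hW : WeilBound) (δ : ℝ) (hδ : 0 < δ) : ∃ C : ℝ, 1 ≤ C ∧
    ∀ (j K N r c M Q H : ℕ) (b : ℕ → ℝ), 1 ≤ j → 1 ≤ K → j * K ≤ N → 1 ≤ r → r ≤ N →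
      2 ≤ M → M ≤ N → 1 ≤ Q → Q ≤ N → 1 ≤ H → H ≤ N → (∀ q, |b q| ≤ 1) →
      (∑ m ∈ (Ico M (2 * M)).filter (fun m => m.Coprime r),
        ‖∑ t ∈ (TT Q r H).filter (fun t => m.Coprime t.1), (b t.1 : ℂ) *
          ∑ ω ∈ Rt m, X j K N r c m ω t.1 t.2.1 t.2.2‖) ^ 2 ≤
      C * ((N : ℝ) ^ δ) ^ 4 * ((K : ℝ) / (M * Q * r)) ^ 2 * M *
        (Q * M * H + (1 + 4 * Real.pi * N * H / ((M : ℝ) * Q * r)) ^ 2 *
          (1 + 18 * H / (Q * Real.sqrt M)) * (Q : ℝ) ^ 3 * r * (M : ℝ) ^ (3 / 4 : ℝ) * H ^ 2) := by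
  classical
  obtain ⟨C₁, hC₁, hin⟩ := inner hW δ hδ
  obtain ⟨C₂, hC₂, hTT⟩ := sum_TT δ hδ
  obtain ⟨C₃, hC₃, hdg⟩ := diag_card δ hδ
  obtain ⟨C₄, hC₄, hrho⟩ := rho_sum δ hδ
  refine ⟨C₄ * (C₃ * C₄ + C₁ * C₂ ^ 2), ?_, ?_⟩
  · have h1 : (1 : ℝ) ≤ C₃ * C₄ := one_le_mul_of_one_le_of_one_le hC₃ hC₄
    have h2 : 0 ≤ C₁ * C₂ ^ 2 := by positivity
    exact one_le_mul_of_one_le_of_one_le hC₄ (by linarith)
  intro j K N r c M Q H b hj hK hjK hr hrN hM hMN hQ hQN hH hHN hb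
  have hN1 : (1 : ℝ) ≤ N := by exact_mod_cast (by omega : 1 ≤ N)
  set u : ℝ := (N : ℝ) ^ δ with hu
  have hu1 : 1 ≤ u := Real.one_le_rpow hN1 hδ.le
  set κ : ℝ := (K : ℝ) / (M * Q * r) with hκ
  set A : ℝ := 1 + 4 * Real.pi * N * H / ((M : ℝ) * Q * r) with hA
  set B : ℝ := 1 + 18 * H / (Q * Real.sqrt M) with hB
  set G : ℝ := (M : ℝ) ^ (3 / 4 : ℝ) with hG
  have hκ0 : 0 ≤ κ := by positivity
  have hA0 : 0 ≤ A := by positivity
  have hB0 : 0 ≤ B := by positivity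
  have hG0 : 0 ≤ G := by positivity
  have hQu : (Q : ℝ) ^ (1 + δ) ≤ Q * u := by
    have hQ0 : (0 : ℝ) < Q := by exact_mod_cast hQ
    rw [Real.rpow_add hQ0, Real.rpow_one]
    have : (Q : ℝ) ^ δ ≤ u := Real.rpow_le_rpow hQ0.le (by exact_mod_cast hQN) hδ.le
    gcongr
  have hcs := cs_expand ((Ico M (2 * M)).filter (fun m => m.Coprime r)) (fun m => Rt m)
    (TT Q r H) (fun m t => m.Coprime t.1) (fun t => (b t.1 : ℂ))
    (fun t => by rw [Complex.norm_real]; exact hb _)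
    (fun m ω t => X j K N r c m ω t.1 t.2.1 t.2.2)
  refine hcs.trans ?_
  have hS1 : (∑ m ∈ (Ico M (2 * M)).filter (fun m => m.Coprime r), (#(Rt m) : ℝ)) ≤
      C₄ * M * u := by
    refine (sum_le_sum_of_subset_of_nonneg (filter_subset _ _) ?_).trans (hrho M N (by omega) hMN)
    intro i _ _
    positivity
  -- bound for each pair
  set I : (ℕ × ℕ × ℤ) → (ℕ × ℕ × ℤ) → ℝ := fun t₁ t₂ =>
    ‖∑ m ∈ ((Ico M (2 * M)).filter (fun m => m.Coprime r)).filter
      (fun m => m.Coprime t₁.1 ∧ m.Coprime t₂.1), ∑ ω ∈ Rt m,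
        X j K N r c m ω t₁.1 t₁.2.1 t₁.2.2 *
          (starRingEnd ℂ) (X j K N r c m ω t₂.1 t₂.2.1 t₂.2.2)‖ with hI
  have hfil : ∀ t₁ t₂ : ℕ × ℕ × ℤ, ((Ico M (2 * M)).filter (fun m => m.Coprime r)).filter
      (fun m => m.Coprime t₁.1 ∧ m.Coprime t₂.1) =
      (Ico M (2 * M)).filter (fun m => m.Coprime (t₁.1 * t₂.1 * r)) := by
    intro t₁ t₂
    rw [filter_filter]
    refine filter_congr fun m _ => ?_
    rw [Nat.coprime_mul_iff_right, Nat.coprime_mul_iff_right]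
    tauto
  have hdiag : ∀ t₁ ∈ TT Q r H, ∀ t₂ ∈ TT Q r H, I t₁ t₂ ≤ C₄ * M * u * κ ^ 2 := by
    intro t₁ h₁ t₂ h₂
    rw [hI]
    simp only
    rw [hfil]
    refine (inner_triv j K N r c M Q H t₁.1 t₁.2.1 t₂.1 t₂.2.1 t₁.2.2 t₂.2.2 hj hK hjK hr
      (by omega) hQ h₁ h₂).trans ?_
    have := hrho M N (by omega) hMN
    gcongr
  have hoff : ∀ t₁ ∈ TT Q r H, ∀ t₂ ∈ TT Q r H, t₁.2.2 * (t₂.1 : ℤ) ≠ t₂.2.2 * (t₁.1 : ℤ) →
      I t₁ t₂ ≤ C₁ * u * κ ^ 2 * A ^ 2 * B * (Q * r * G) *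
        (Real.sqrt ((Nat.gcd t₁.1 t₁.2.2.natAbs : ℕ) : ℝ) *
          Real.sqrt ((Nat.gcd t₂.1 t₂.2.2.natAbs : ℕ) : ℝ)) := by
    intro t₁ h₁ t₂ h₂ hne
    rw [hI]
    simp only
    rw [hfil]
    refine hin j K N r c M Q H t₁.1 t₁.2.1 t₂.1 t₂.2.1 t₁.2.2 t₂.2.2 hj hK hjK hr hrN hM hMN hQ
      hQN hH hHN h₁ h₂ ?_
    intro h0
    exact hne (by linarith)
  have hsplit : ∑ t₁ ∈ TT Q r H, ∑ t₂ ∈ TT Q r H, I t₁ t₂ ≤
      C₃ * (Q * u) * H * (C₄ * M * u * κ ^ 2) +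
        C₁ * u * κ ^ 2 * A ^ 2 * B * (Q * r * G) * (C₂ * (Q * u) * H) ^ 2 := by
    have h1 : ∀ t₁ ∈ TT Q r H, ∀ t₂ ∈ TT Q r H, I t₁ t₂ ≤
        (if t₁.2.2 * (t₂.1 : ℤ) = t₂.2.2 * (t₁.1 : ℤ) then C₄ * M * u * κ ^ 2 else 0) +
          C₁ * u * κ ^ 2 * A ^ 2 * B * (Q * r * G) *
          (Real.sqrt ((Nat.gcd t₁.1 t₁.2.2.natAbs : ℕ) : ℝ) *
            Real.sqrt ((Nat.gcd t₂.1 t₂.2.2.natAbs : ℕ) : ℝ)) := by
      intro t₁ h₁ t₂ h₂
      by_cases hc : t₁.2.2 * (t₂.1 : ℤ) = t₂.2.2 * (t₁.1 : ℤ)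
      · rw [if_pos hc]
        have := hdiag t₁ h₁ t₂ h₂
        have h3 : 0 ≤ C₁ * u * κ ^ 2 * A ^ 2 * B * (Q * r * G) *
          (Real.sqrt ((Nat.gcd t₁.1 t₁.2.2.natAbs : ℕ) : ℝ) *
            Real.sqrt ((Nat.gcd t₂.1 t₂.2.2.natAbs : ℕ) : ℝ)) := by positivity
        linarith
      · rw [if_neg hc, zero_add]
        exact hoff t₁ h₁ t₂ h₂ hc
    refine (sum_le_sum fun t₁ h₁ => sum_le_sum fun t₂ h₂ => h1 t₁ h₁ t₂ h₂).trans ?_
    simp only [sum_add_distrib]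
    refine add_le_add ?_ ?_
    · rw [← sum_product' (f := fun t₁ t₂ : ℕ × ℕ × ℤ =>
        (if t₁.2.2 * (t₂.1 : ℤ) = t₂.2.2 * (t₁.1 : ℤ) then C₄ * M * u * κ ^ 2 else 0))]
      rw [← sum_filter, sum_const, nsmul_eq_mul]
      have h4 := hdg Q r H hQ hr
      have h5 : (0 : ℝ) ≤ C₄ * M * u * κ ^ 2 := by positivity
      refine mul_le_mul_of_nonneg_right (h4.trans ?_) h5
      have h6 : (0 : ℝ) ≤ H := by positivity
      gcongr
    · have h7 : ∑ t₁ ∈ TT Q r H, ∑ t₂ ∈ TT Q r H, C₁ * u * κ ^ 2 * A ^ 2 * B * (Q * r * G) *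
          (Real.sqrt ((Nat.gcd t₁.1 t₁.2.2.natAbs : ℕ) : ℝ) *
            Real.sqrt ((Nat.gcd t₂.1 t₂.2.2.natAbs : ℕ) : ℝ)) =
          C₁ * u * κ ^ 2 * A ^ 2 * B * (Q * r * G) *
            (∑ t ∈ TT Q r H, Real.sqrt ((Nat.gcd t.1 t.2.2.natAbs : ℕ) : ℝ)) ^ 2 := by
        rw [sq (∑ t ∈ TT Q r H, Real.sqrt ((Nat.gcd t.1 t.2.2.natAbs : ℕ) : ℝ)), sum_mul_sum,
          mul_sum]
        refine sum_congr rfl fun t₁ _ => ?_
        rw [mul_sum]
      rw [h7]
      have h8 := hTT Q r H hQ hr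
      have h9 : (∑ t ∈ TT Q r H, Real.sqrt ((Nat.gcd t.1 t.2.2.natAbs : ℕ) : ℝ)) ≤
          C₂ * (Q * u) * H := by
        refine h8.trans ?_
        gcongr
      have h10 : 0 ≤ ∑ t ∈ TT Q r H, Real.sqrt ((Nat.gcd t.1 t.2.2.natAbs : ℕ) : ℝ) :=
        sum_nonneg fun t _ => Real.sqrt_nonneg _
      gcongr
  have hS2 : 0 ≤ ∑ t₁ ∈ TT Q r H, ∑ t₂ ∈ TT Q r H, I t₁ t₂ :=
    sum_nonneg fun t₁ _ => sum_nonneg fun t₂ _ => norm_nonneg _
  calc (∑ m ∈ (Ico M (2 * M)).filter (fun m => m.Coprime r), (#(Rt m) : ℝ)) *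
        ∑ t₁ ∈ TT Q r H, ∑ t₂ ∈ TT Q r H, I t₁ t₂
      ≤ (C₄ * M * u) * (C₃ * (Q * u) * H * (C₄ * M * u * κ ^ 2) +
        C₁ * u * κ ^ 2 * A ^ 2 * B * (Q * r * G) * (C₂ * (Q * u) * H) ^ 2) := by
        apply mul_le_mul hS1 hsplit hS2
        positivity
    _ = (C₄ * κ ^ 2 * M) * (C₃ * C₄ * u ^ 3 * (Q * M * H) +
          C₁ * C₂ ^ 2 * u ^ 4 * (A ^ 2 * B * (Q : ℝ) ^ 3 * r * G * H ^ 2)) := by ring
    _ ≤ (C₄ * κ ^ 2 * M) * ((C₃ * C₄ + C₁ * C₂ ^ 2) * u ^ 4 * (Q * M * H) +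
          (C₃ * C₄ + C₁ * C₂ ^ 2) * u ^ 4 * (A ^ 2 * B * (Q : ℝ) ^ 3 * r * G * H ^ 2)) := by
        have e1 : C₃ * C₄ * u ^ 3 ≤ (C₃ * C₄ + C₁ * C₂ ^ 2) * u ^ 4 := by
          have : u ^ 3 ≤ u ^ 4 := pow_le_pow_right₀ hu1 (by norm_num)
          have h11 : C₃ * C₄ ≤ C₃ * C₄ + C₁ * C₂ ^ 2 := by
            have : 0 ≤ C₁ * C₂ ^ 2 := by positivity
            linarith
          gcongr
        have e2 : C₁ * C₂ ^ 2 * u ^ 4 ≤ (C₃ * C₄ + C₁ * C₂ ^ 2) * u ^ 4 := by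
          have : 0 ≤ C₃ * C₄ := by positivity
          gcongr
          linarith
        gcongr
    _ = C₄ * (C₃ * C₄ + C₁ * C₂ ^ 2) * u ^ 4 * κ ^ 2 * M *
        (Q * M * H + A ^ 2 * B * (Q : ℝ) ^ 3 * r * G * H ^ 2) := by ring

/-- one block, with explicit size conditions -/
theorem block_aux (C : ℝ) (hC : 1 ≤ C) (j K N r c M Q : ℕ) (b : ℕ → ℝ) (n w u : ℝ)
    (hj : 2 ≤ j) (hK : K = N / j) (hn : n = N) (hw : 1 ≤ w) (hu : 1 ≤ u) (hwn : w ^ 12 = n)
    (hr : 1 ≤ r) (hM : 1 ≤ M) (hQ : 1 ≤ Q) (hru : (r : ℝ) ≤ u ^ 12) (hMu : M * u ^ 100 ≤ n)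
    (hQu : Q * u ^ 100 ≤ w) (hb : ∀ q, |b q| ≤ 1) (huj : n ^ 2 ≤ u ^ (j - 1))
    (hL2 : 288 * j * u ^ 13 ≤ w ^ 6) (hL3 : u ^ 45 ≤ w ^ 10)
    (hsq : 2 ≤ M → r ≤ N → M ≤ N → Q ≤ N → 1 ≤ K → ∀ H : ℕ, 1 ≤ H → H ≤ N →
      (∑ m ∈ (Ico M (2 * M)).filter (fun m => m.Coprime r),
        ‖∑ t ∈ (TT Q r H).filter (fun t => m.Coprime t.1), (b t.1 : ℂ) *
          ∑ ω ∈ Rt m, X j K N r c m ω t.1 t.2.1 t.2.2‖) ^ 2 ≤
      C * u ^ 4 * ((K : ℝ) / (M * Q * r)) ^ 2 * M *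
        (Q * M * H + (1 + 4 * Real.pi * N * H / ((M : ℝ) * Q * r)) ^ 2 *
          (1 + 18 * H / (Q * Real.sqrt M)) * (Q : ℝ) ^ 3 * r * (M : ℝ) ^ (3 / 4 : ℝ) * H ^ 2)) :
    (∑ m ∈ (Ico M (2 * M)).filter (fun m => m.Coprime r),
      |∑ q ∈ (Ico Q (2 * Q)).filter (fun q => Squarefree q ∧ q.Coprime (2 * m * r)),
        b q * Rem (W j K N) N (m * q) r c|) * u ^ 45 ≤
      (C * (8 + 128 * (1 + 64 * Real.pi * j) ^ 2) + 8) * n := by
  classical
  have hj0 : (0 : ℝ) < j := by exact_mod_cast (by omega : 0 < j)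
  have hj1 : (1 : ℝ) ≤ j := by exact_mod_cast (by omega : 1 ≤ j)
  have hjK : j * K ≤ N := by rw [hK]; exact Nat.mul_div_le N j
  have hw0 : 0 < w := by linarith
  have hu0 : 0 < u := by linarith
  have hw6 : 1 ≤ w ^ 6 := one_le_pow₀ hw
  have hu13 : 1 ≤ u ^ 13 := one_le_pow₀ hu
  have hn1 : 1 ≤ n := by rw [← hwn]; exact one_le_pow₀ hw
  have hn0 : 0 < n := by linarith
  have hw66 : w ^ 6 * w ^ 6 = n := by rw [← hwn]; ring
  have hM0 : (0 : ℝ) < M := by exact_mod_cast hM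
  have hQ0 : (0 : ℝ) < Q := by exact_mod_cast hQ
  have hr0 : (0 : ℝ) < r := by exact_mod_cast hr
  have hQ1 : (1 : ℝ) ≤ Q := by exact_mod_cast hQ
  have hr1 : (1 : ℝ) ≤ r := by exact_mod_cast hr
  have hu100 : 1 ≤ u ^ 100 := one_le_pow₀ hu
  have hMn : (M : ℝ) ≤ n := (le_mul_of_one_le_right hM0.le hu100).trans hMu
  have hQw : (Q : ℝ) ≤ w := (le_mul_of_one_le_right hQ0.le hu100).trans hQu
  -- lower bound for `K`
  have hKn : (K : ℝ) ≤ n := by
    have h1 : K ≤ N := by rw [hK]; exact Nat.div_le_self N j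
    rw [hn]
    exact_mod_cast h1
  have h2jn : 2 * (j : ℝ) ≤ n := by
    have : 288 * (j : ℝ) ≤ w ^ 6 := by
      have : 288 * (j : ℝ) * 1 ≤ 288 * j * u ^ 13 := by gcongr
      linarith
    have h1 : w ^ 6 * 1 ≤ w ^ 6 * w ^ 6 := by gcongr
    linarith
  have hKlow : n / (2 * j) ≤ K := by
    have h1 : N < j * K + j := by
      rw [hK]
      have := Nat.div_add_mod N j
      have h2 := Nat.mod_lt N (show 0 < j by omega)
      omega
    have h2 : (n : ℝ) < j * K + j := by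
      rw [hn]
      exact_mod_cast h1
    rw [div_le_iff₀ (by positivity)]
    have h3 : (K : ℝ) * (2 * j) = 2 * (j * K) := by ring
    linarith
  have hK144 : 144 * u ^ 13 * w ^ 6 ≤ K := by
    refine le_trans ?_ hKlow
    rw [le_div_iff₀ (by positivity)]
    calc 144 * u ^ 13 * w ^ 6 * (2 * j) = (288 * j * u ^ 13) * w ^ 6 := by ring
      _ ≤ w ^ 6 * w ^ 6 := by gcongr
      _ = n := hw66
  have hK0 : (0 : ℝ) < K := lt_of_lt_of_le (by positivity) hK144
  have hK1 : 1 ≤ K := by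
    have : (0 : ℝ) < K := hK0
    exact_mod_cast this
  have hu1' : u ≤ u ^ 13 := le_self_pow₀ hu (by norm_num)
  have hK16 : 16 * u < K := by
    have h1 : u * 1 ≤ u ^ 13 * w ^ 6 := by gcongr
    have h2 : 144 * u ^ 13 * w ^ 6 = 144 * (u ^ 13 * w ^ 6) := by ring
    have h3 : 0 < u ^ 13 * w ^ 6 := by positivity
    linarith
  set D : ℝ := (M : ℝ) * Q * r with hD
  have hD0 : 0 < D := by positivity
  have hsize : ∀ m ∈ Ico M (2 * M), ∀ q ∈ Ico Q (2 * Q), (m : ℝ) * q * r ≤ 4 * D := by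
    intro m hm q hq
    rw [mem_Ico] at hm hq
    have h1 : (m : ℝ) ≤ 2 * M := by exact_mod_cast hm.2.le
    have h2 : (q : ℝ) ≤ 2 * Q := by exact_mod_cast hq.2.le
    calc (m : ℝ) * q * r ≤ (2 * M) * (2 * Q) * r := by gcongr
      _ = 4 * D := by rw [hD]; ring
  -- the error sum
  have hpow : ∀ x : ℝ, 0 ≤ x → x ≤ 1 / u → x ^ (j - 1) ≤ 1 / n ^ 2 := by
    intro x hx0 hx
    calc x ^ (j - 1) ≤ (1 / u) ^ (j - 1) := pow_le_pow_left₀ hx0 hx _
      _ = 1 / u ^ (j - 1) := by rw [div_pow, one_pow]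
      _ ≤ 1 / n ^ 2 := by
          apply one_div_le_one_div_of_le (by positivity) huj
  have herr : 4 * (M : ℝ) ^ 2 * (Q : ℝ) ^ 2 * (2 / n ^ 2) * u ^ 45 ≤ 8 * n := by
    have h1 : (M : ℝ) ^ 2 * (Q : ℝ) ^ 2 ≤ n ^ 2 * w ^ 2 := by gcongr
    calc 4 * (M : ℝ) ^ 2 * (Q : ℝ) ^ 2 * (2 / n ^ 2) * u ^ 45
        = 8 * ((M : ℝ) ^ 2 * (Q : ℝ) ^ 2) / n ^ 2 * u ^ 45 := by ring
      _ ≤ 8 * (n ^ 2 * w ^ 2) / n ^ 2 * w ^ 10 := by gcongr
      _ = 8 * n := by rw [← hwn]; field_simp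
  have hc0 : 0 ≤ C * (8 + 128 * (1 + 64 * Real.pi * j) ^ 2) := by positivity
  have hcop : ∀ m ∈ Ico M (2 * M), ∀ q ∈ Ico Q (2 * Q), m.Coprime r →
      q.Coprime (2 * m * r) → m.Coprime q ∧ (m * q).Coprime r := by
    intro m _ q _ hm hq
    rw [Nat.coprime_mul_iff_right, Nat.coprime_mul_iff_right] at hq
    refine ⟨hq.1.2.symm, ?_⟩
    rw [Nat.coprime_mul_iff_left]
    exact ⟨hm, hq.2⟩
  by_cases hA : 4 * D * u ≤ K
  · -- trivial case
    have h1 : (∑ m ∈ (Ico M (2 * M)).filter (fun m => m.Coprime r),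
        |∑ q ∈ (Ico Q (2 * Q)).filter (fun q => Squarefree q ∧ q.Coprime (2 * m * r)),
          b q * Rem (W j K N) N (m * q) r c|) ≤
        ∑ m ∈ (Ico M (2 * M)).filter (fun m => m.Coprime r),
          ∑ q ∈ (Ico Q (2 * Q)).filter (fun q => Squarefree q ∧ q.Coprime (2 * m * r)),
            |Rem (W j K N) N (m * q) r c| := by
      refine sum_le_sum fun m _ => (abs_sum_le_sum_abs _ _).trans (sum_le_sum fun q _ => ?_)
      rw [abs_mul]
      calc |b q| * |Rem (W j K N) N (m * q) r c| ≤ 1 * |Rem (W j K N) N (m * q) r c| := by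
            gcongr
            exact hb q
        _ = _ := one_mul _
    have h2 := err_sum M Q r (2 / n ^ 2) (by positivity) hM hQ
      (fun m q => Rem (W j K N) N (m * q) r c) (by
        intro m hm q hq hmr hsq' hq2
        have hc := hcop m hm q hq hmr hq2
        have hm1 : 1 ≤ m := by have := (mem_Ico.1 hm).1; omega
        have hq1 : 1 ≤ q := by have := (mem_Ico.1 hq).1; omega
        refine (rem_small j K N m q r c hj hK1 hjK hm1 hq1 hr hc.1 hc.2).trans ?_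
        have h3 : ((m : ℝ) * q * r / (2 * K)) ^ (j - 1) ≤ 1 / n ^ 2 := by
          apply hpow _ (by positivity)
          rw [div_le_div_iff₀ (by positivity) hu0]
          have := mul_le_mul_of_nonneg_right (hsize m hm q hq) hu0.le
          linarith
        have h4 : 2 * ((m : ℝ) * q * r / (2 * K)) ^ (j - 1) ≤ 2 / n ^ 2 := by
          calc 2 * ((m : ℝ) * q * r / (2 * K)) ^ (j - 1) ≤ 2 * (1 / n ^ 2) := by gcongr
            _ = 2 / n ^ 2 := by ring
        gcongr)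
    calc _ ≤ (4 * (M : ℝ) ^ 2 * (Q : ℝ) ^ 2 * (2 / n ^ 2)) * u ^ 45 := by
          gcongr
          exact h1.trans h2
      _ ≤ 8 * n := herr
      _ ≤ _ := by
          have := mul_nonneg hc0 hn0.le
          rw [add_mul]
          linarith
  · rw [not_le] at hA
    set H : ℕ := ⌈4 * u * D / K⌉₊ with hH
    have hx1 : 1 < 4 * u * D / K := by
      rw [lt_div_iff₀ hK0]
      linarith
    have hH1 : 1 ≤ H := by
      rw [hH]
      exact Nat.one_le_ceil_iff.2 (by positivity)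
    have hHlow : 4 * u * D / K ≤ H := Nat.le_ceil _
    have hHup : (H : ℝ) ≤ 8 * u * D / K := by
      have h1 : (H : ℝ) < 4 * u * D / K + 1 := Nat.ceil_lt_add_one (by positivity)
      have h2 : 8 * u * D / K = 4 * u * D / K + 4 * u * D / K := by ring
      linarith
    have hru' : (r : ℝ) ≤ u ^ 12 := hru
    have hu6 : u ^ 13 ≤ w ^ 6 := by
      have : 1 * u ^ 13 ≤ 288 * j * u ^ 13 := by
        gcongr
        linarith
      linarith
    have hu1213 : u ^ 12 ≤ u ^ 13 := pow_le_pow_right₀ hu (by norm_num)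
    have hrN : r ≤ N := by
      have h1 : w ^ 6 * 1 ≤ w ^ 6 * w ^ 6 := by gcongr
      have : (r : ℝ) ≤ n := by linarith
      rw [hn] at this
      exact_mod_cast this
    have hMN : M ≤ N := by
      rw [hn] at hMn
      exact_mod_cast hMn
    have hwn' : w ≤ n := by
      rw [← hwn]
      exact le_self_pow₀ hw (by norm_num)
    have hQN : Q ≤ N := by
      have : (Q : ℝ) ≤ n := hQw.trans hwn'
      rw [hn] at this
      exact_mod_cast this
    have hM2 : 2 ≤ M := by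
      by_contra hcon
      have hM1 : M = 1 := by omega
      have h1 : (K : ℝ) < 4 * (Q * r) * u := by
        rw [hD, hM1] at hA
        push_cast at hA
        linarith
      have h2 : (Q : ℝ) * r * u ≤ w * u ^ 12 * u := by gcongr
      have h3 : w ≤ w ^ 6 := le_self_pow₀ hw (by norm_num)
      have h4 : w * u ^ 12 * u ≤ w ^ 6 * u ^ 13 := by
        calc w * u ^ 12 * u = w * u ^ 13 := by ring
          _ ≤ w ^ 6 * u ^ 13 := by gcongr
      have h5 : 0 < w ^ 6 * u ^ 13 := by positivity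
      have h6 : 144 * u ^ 13 * w ^ 6 = 144 * (w ^ 6 * u ^ 13) := by ring
      have h7 : 4 * ((Q : ℝ) * r) * u = 4 * (Q * r * u) := by ring
      linarith
    have hHN : H ≤ N := by
      have h1 : 8 * u * D / K ≤ n := by
        rw [div_le_iff₀ hK0]
        have h2 : D ≤ n * w * u ^ 12 := by
          rw [hD]
          gcongr
        have h3 : 8 * u * D ≤ 8 * u * (n * w * u ^ 12) := by gcongr
        have h4 : 8 * u * (n * w * u ^ 12) = n * (8 * u ^ 13 * w) := by ring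
        have h5 : w ≤ w ^ 6 := le_self_pow₀ hw (by norm_num)
        have h6 : 8 * u ^ 13 * w ≤ 144 * u ^ 13 * w ^ 6 := by gcongr; norm_num
        have h7 : n * (8 * u ^ 13 * w) ≤ n * K := by
          gcongr
          linarith
        linarith
      have : (H : ℝ) ≤ N := by
        rw [← hn]
        linarith
      exact_mod_cast this
    have hT1 := hsq hM2 hrN hMN hQN hK1 H hH1 hHN
    set T1 : ℝ := ∑ m ∈ (Ico M (2 * M)).filter (fun m => m.Coprime r),
        ‖∑ t ∈ (TT Q r H).filter (fun t => m.Coprime t.1), (b t.1 : ℂ) *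
          ∑ ω ∈ Rt m, X j K N r c m ω t.1 t.2.1 t.2.2‖ with hT1def
    have hT10 : 0 ≤ T1 := sum_nonneg fun m _ => norm_nonneg _
    -- reduction to T1
    have hred : (∑ m ∈ (Ico M (2 * M)).filter (fun m => m.Coprime r),
        |∑ q ∈ (Ico Q (2 * Q)).filter (fun q => Squarefree q ∧ q.Coprime (2 * m * r)),
          b q * Rem (W j K N) N (m * q) r c|) ≤ T1 +
        ∑ m ∈ (Ico M (2 * M)).filter (fun m => m.Coprime r),
          ∑ q ∈ (Ico Q (2 * Q)).filter (fun q => Squarefree q ∧ q.Coprime (2 * m * r)),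
            |‖(Rem (W j K N) N (m * q) r c : ℂ)
              - ∑ ω ∈ Rt m, ∑ σ ∈ Rt q, ∑ h ∈ Hs H, X j K N r c m ω q σ h‖| := by
      rw [hT1def, ← sum_add_distrib]
      refine sum_le_sum fun m _ => ?_
      have e1 : ∑ t ∈ (TT Q r H).filter (fun t => m.Coprime t.1), (b t.1 : ℂ) *
          ∑ ω ∈ Rt m, X j K N r c m ω t.1 t.2.1 t.2.2 =
          ∑ q ∈ (Ico Q (2 * Q)).filter (fun q => Squarefree q ∧ q.Coprime (2 * m * r)),
            (b q : ℂ) * ∑ ω ∈ Rt m, ∑ σ ∈ Rt q, ∑ h ∈ Hs H, X j K N r c m ω q σ h := by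
        rw [← sum_TT_filter Q r H m (fun q σ h => (b q : ℂ) * ∑ ω ∈ Rt m, X j K N r c m ω q σ h)]
        refine sum_congr rfl fun q _ => ?_
        simp only [mul_sum]
        rw [sum_comm (s := Rt m)]
        refine sum_congr rfl fun σ _ => ?_
        rw [sum_comm (s := Rt m)]
      have e2 : |∑ q ∈ (Ico Q (2 * Q)).filter (fun q => Squarefree q ∧ q.Coprime (2 * m * r)),
          b q * Rem (W j K N) N (m * q) r c| =
          ‖∑ q ∈ (Ico Q (2 * Q)).filter (fun q => Squarefree q ∧ q.Coprime (2 * m * r)),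
            (b q : ℂ) * (Rem (W j K N) N (m * q) r c : ℂ)‖ := by
        rw [← Real.norm_eq_abs, ← Complex.norm_real]
        push_cast
        rfl
      rw [e2, e1]
      have e3 : ∑ q ∈ (Ico Q (2 * Q)).filter (fun q => Squarefree q ∧ q.Coprime (2 * m * r)),
            (b q : ℂ) * (Rem (W j K N) N (m * q) r c : ℂ) =
          ∑ q ∈ (Ico Q (2 * Q)).filter (fun q => Squarefree q ∧ q.Coprime (2 * m * r)),
            (b q : ℂ) * ∑ ω ∈ Rt m, ∑ σ ∈ Rt q, ∑ h ∈ Hs H, X j K N r c m ω q σ h +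
          ∑ q ∈ (Ico Q (2 * Q)).filter (fun q => Squarefree q ∧ q.Coprime (2 * m * r)),
            (b q : ℂ) * ((Rem (W j K N) N (m * q) r c : ℂ)
              - ∑ ω ∈ Rt m, ∑ σ ∈ Rt q, ∑ h ∈ Hs H, X j K N r c m ω q σ h) := by
        rw [← sum_add_distrib]
        refine sum_congr rfl fun q _ => ?_
        ring
      rw [e3]
      refine (norm_add_le _ _).trans (add_le_add le_rfl ?_)
      refine (norm_sum_le _ _).trans (sum_le_sum fun q _ => ?_)
      rw [norm_mul, abs_of_nonneg (norm_nonneg _), Complex.norm_real]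
      calc ‖b q‖ * _ ≤ 1 * _ := by
            gcongr
            exact hb q
        _ = _ := one_mul _
    have hE := err_sum M Q r (2 / n ^ 2) (by positivity) hM hQ
      (fun m q => ‖(Rem (W j K N) N (m * q) r c : ℂ)
              - ∑ ω ∈ Rt m, ∑ σ ∈ Rt q, ∑ h ∈ Hs H, X j K N r c m ω q σ h‖) (by
        intro m hm q hq hmr hsq' hq2
        have hc := hcop m hm q hq hmr hq2
        have hm1 : 1 ≤ m := by have := (mem_Ico.1 hm).1; omega
        have hq1 : 1 ≤ q := by have := (mem_Ico.1 hq).1; omega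
        have h2H : 2 * H < m * q * r := by
          have h1 : (2 : ℝ) * H < D := by
            have h3 : 16 * u * D < K * D := by gcongr
            have h4 : 2 * (8 * u * D / K) < D := by
              rw [← mul_div_assoc, div_lt_iff₀ hK0]
              linarith
            linarith
          have h2 : D ≤ (m : ℝ) * q * r := by
            have h5 : (M : ℝ) ≤ m := by exact_mod_cast (mem_Ico.1 hm).1
            have h6 : (Q : ℝ) ≤ q := by exact_mod_cast (mem_Ico.1 hq).1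
            rw [hD]
            gcongr
          have h3 : ((2 * H : ℕ) : ℝ) < ((m * q * r : ℕ) : ℝ) := by
            push_cast
            linarith
          exact_mod_cast h3
        rw [abs_of_nonneg (norm_nonneg _)]
        refine (rem_trunc j K N m q r c H hj hK1 hjK hm1 hq1 hr hc.1 hc.2 hH1 h2H).trans ?_
        have hH0 : (0 : ℝ) < H := by exact_mod_cast hH1
        have h3 : ((m : ℝ) * q * r / (2 * K * H)) ^ (j - 1) ≤ 1 / n ^ 2 := by
          apply hpow _ (by positivity)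
          rw [div_le_div_iff₀ (by positivity) hu0]
          have h7 := hsize m hm q hq
          have h8 : 4 * u * D ≤ K * H := by
            have := (div_le_iff₀ hK0).1 hHlow
            linarith
          have h9 : (m : ℝ) * q * r * u ≤ 4 * D * u := by gcongr
          have h10 : 0 ≤ (K : ℝ) * H := by positivity
          have h11 : 4 * D * u = 4 * u * D := by ring
          have h12 : 1 * (2 * (K : ℝ) * H) = 2 * (K * H) := by ring
          linarith
        have h4 : ((m : ℝ) * q * r / (2 * K * H)) ^ (j - 1) ≤ 2 / n ^ 2 := by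
          refine h3.trans ?_
          gcongr
          norm_num
        gcongr)
    -- the bound for T1
    have hmain : T1 * u ^ 45 ≤ C * (8 + 128 * (1 + 64 * Real.pi * j) ^ 2) * n := by
      have hnK : n ≤ 2 * j * K := by
        have := (div_le_iff₀ (by positivity : (0:ℝ) < 2 * j)).1 hKlow
        linarith
      have hH0 : (0 : ℝ) ≤ H := by positivity
      have hHK : (H : ℝ) * K ≤ 8 * u * D := (le_div_iff₀ hK0).1 hHup
      have hAb : 1 + 4 * Real.pi * N * H / D ≤ (1 + 64 * Real.pi * j) * u := by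
        have h1 : 4 * Real.pi * N * H / D ≤ 64 * Real.pi * j * u := by
          rw [div_le_iff₀ hD0]
          have h2 : (N : ℝ) * H ≤ 16 * j * u * D := by
            rw [← hn]
            calc n * H ≤ (2 * j * K) * H := by gcongr
              _ = 2 * j * (H * K) := by ring
              _ ≤ 2 * j * (8 * u * D) := by gcongr
              _ = 16 * j * u * D := by ring
          calc 4 * Real.pi * N * H = 4 * Real.pi * (N * H) := by ring
            _ ≤ 4 * Real.pi * (16 * j * u * D) := by gcongr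
            _ = 64 * Real.pi * j * u * D := by ring
        have h3 : (1 + 64 * Real.pi * j) * u = u + 64 * Real.pi * j * u := by ring
        rw [h3]
        linarith
      have hsM : Real.sqrt M ≤ w ^ 6 := by
        rw [Real.sqrt_le_left (by positivity)]
        calc (M : ℝ) ≤ n := hMn
          _ = (w ^ 6) ^ 2 := by rw [← hwn]; ring
      have hsM0 : 0 < Real.sqrt M := Real.sqrt_pos.2 hM0
      have hBb : 1 + 18 * H / (Q * Real.sqrt M) ≤ 2 := by
        have h1 : 18 * (H : ℝ) / (Q * Real.sqrt M) ≤ 1 := by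
          rw [div_le_one (by positivity)]
          -- 18 H K ≤ 144 u D ≤ Q √M K
          have h2 : 18 * (H : ℝ) * K ≤ Q * Real.sqrt M * K := by
            calc 18 * (H : ℝ) * K = 18 * (H * K) := by ring
              _ ≤ 18 * (8 * u * D) := by gcongr
              _ = Q * Real.sqrt M * (144 * u * r * Real.sqrt M) := by
                  rw [hD]
                  nth_rewrite 1 [← Real.mul_self_sqrt hM0.le]
                  ring
              _ ≤ Q * Real.sqrt M * (144 * u * u ^ 12 * w ^ 6) := by gcongr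
              _ = Q * Real.sqrt M * (144 * u ^ 13 * w ^ 6) := by ring
              _ ≤ Q * Real.sqrt M * K := by gcongr
          exact le_of_mul_le_mul_right h2 hK0
        linarith
      have hGb : (M : ℝ) ^ (3 / 4 : ℝ) ≤ w ^ 9 := by
        calc (M : ℝ) ^ (3 / 4 : ℝ) ≤ (w ^ 12) ^ (3 / 4 : ℝ) := by
              apply Real.rpow_le_rpow hM0.le _ (by norm_num)
              rw [hwn]
              exact hMn
          _ = w ^ 9 := by
              rw [← Real.rpow_natCast, ← Real.rpow_mul hw0.le, ← Real.rpow_natCast w 9]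
              norm_num
      set G : ℝ := (M : ℝ) ^ (3 / 4 : ℝ) with hG
      have hG0 : 0 ≤ G := by positivity
      set A : ℝ := 1 + 4 * Real.pi * N * H / D with hAdef
      set B : ℝ := 1 + 18 * H / (Q * Real.sqrt M) with hBdef
      have hA0 : 0 ≤ A := by positivity
      have hB0 : 0 ≤ B := by positivity
      set P : ℝ := 1 + 64 * Real.pi * j with hP
      have hP0 : 0 ≤ P := by positivity
      have hQ3 : (Q : ℝ) ^ 3 * r ≤ w ^ 3 := by
        have h1 : (Q : ℝ) ^ 3 * u ^ 300 ≤ w ^ 3 := by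
          calc (Q : ℝ) ^ 3 * u ^ 300 = (Q * u ^ 100) ^ 3 := by ring
            _ ≤ w ^ 3 := by gcongr
        have h2 : (Q : ℝ) ^ 3 * r ≤ (Q : ℝ) ^ 3 * u ^ 300 := by
          have h3 : (r : ℝ) ≤ u ^ 300 := hru.trans (pow_le_pow_right₀ hu (by norm_num))
          gcongr
        linarith
      -- first term
      have ht1 : C * u ^ 4 * ((K : ℝ) / D) ^ 2 * M * (Q * M * H) ≤ 8 * C * u ^ 5 * n * M := by
        have h1 : ((K : ℝ) / D) ^ 2 * (Q * M * H) * D ≤ 8 * u * (K * Q * M) := by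
          calc ((K : ℝ) / D) ^ 2 * (Q * M * H) * D = (K * Q * M) * (H * K) / D := by
                field_simp
            _ ≤ (K * Q * M) * (8 * u * D) / D := by gcongr
            _ = 8 * u * (K * Q * M) := by field_simp
        have h2 : ((K : ℝ) / D) ^ 2 * (Q * M * H) ≤ 8 * u * n := by
          have h3 : (8 * u * n) * D - 8 * u * (K * Q * M) ≥ 0 := by
            have h4 : (K : ℝ) * Q * M ≤ n * D := by
              rw [hD]
              calc (K : ℝ) * Q * M ≤ n * Q * M := by gcongr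
                _ = n * (M * Q * 1) := by ring
                _ ≤ n * (M * Q * r) := by gcongr
            have h6 := mul_le_mul_of_nonneg_left h4 (by positivity : (0 : ℝ) ≤ 8 * u)
            have h7 : 8 * u * (n * D) = (8 * u * n) * D := by ring
            linarith
          have h5 : ((K : ℝ) / D) ^ 2 * (Q * M * H) * D ≤ (8 * u * n) * D := by linarith
          exact le_of_mul_le_mul_right h5 hD0
        calc C * u ^ 4 * ((K : ℝ) / D) ^ 2 * M * (Q * M * H)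
            = C * u ^ 4 * M * (((K : ℝ) / D) ^ 2 * (Q * M * H)) := by ring
          _ ≤ C * u ^ 4 * M * (8 * u * n) := by gcongr
          _ = 8 * C * u ^ 5 * n * M := by ring
      have ht2 : C * u ^ 4 * ((K : ℝ) / D) ^ 2 * M *
          (A ^ 2 * B * (Q : ℝ) ^ 3 * r * G * H ^ 2) ≤
          128 * C * P ^ 2 * u ^ 8 * (M * w ^ 12) := by
        have h1 : ((K : ℝ) / D) ^ 2 * (H : ℝ) ^ 2 ≤ 64 * u ^ 2 := by
          calc ((K : ℝ) / D) ^ 2 * (H : ℝ) ^ 2 = ((H * K) / D) ^ 2 := by ring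
            _ ≤ ((8 * u * D) / D) ^ 2 := by gcongr
            _ = 64 * u ^ 2 := by
                rw [mul_div_assoc, div_self hD0.ne']
                ring
        calc C * u ^ 4 * ((K : ℝ) / D) ^ 2 * M * (A ^ 2 * B * (Q : ℝ) ^ 3 * r * G * H ^ 2)
            = C * u ^ 4 * (((K : ℝ) / D) ^ 2 * (H : ℝ) ^ 2) * M *
              (A ^ 2 * B * ((Q : ℝ) ^ 3 * r) * G) := by ring
          _ ≤ C * u ^ 4 * (64 * u ^ 2) * M * ((P * u) ^ 2 * 2 * w ^ 3 * w ^ 9) := by gcongr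
          _ = 128 * C * P ^ 2 * u ^ 8 * (M * w ^ 12) := by ring
      have hT1' : T1 ^ 2 ≤ 8 * C * u ^ 5 * n * M + 128 * C * P ^ 2 * u ^ 8 * (M * w ^ 12) := by
        refine hT1.trans ?_
        rw [mul_add]
        exact add_le_add ht1 ht2
      have hsq2 : (T1 * u ^ 45) ^ 2 ≤ (C * (8 + 128 * P ^ 2)) * n ^ 2 := by
        have e1 : u ^ 95 ≤ u ^ 100 := pow_le_pow_right₀ hu (by norm_num)
        have e2 : u ^ 98 ≤ u ^ 100 := pow_le_pow_right₀ hu (by norm_num)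
        calc (T1 * u ^ 45) ^ 2 = T1 ^ 2 * u ^ 90 := by ring
          _ ≤ (8 * C * u ^ 5 * n * M + 128 * C * P ^ 2 * u ^ 8 * (M * w ^ 12)) * u ^ 90 := by
              gcongr
          _ = 8 * C * n * (M * u ^ 95) + 128 * C * P ^ 2 * w ^ 12 * (M * u ^ 98) := by ring
          _ ≤ 8 * C * n * (M * u ^ 100) + 128 * C * P ^ 2 * w ^ 12 * (M * u ^ 100) := by gcongr
          _ ≤ 8 * C * n * n + 128 * C * P ^ 2 * w ^ 12 * n := by gcongr
          _ = (C * (8 + 128 * P ^ 2)) * n ^ 2 := by rw [hwn]; ring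
      have hc1 : 1 ≤ C * (8 + 128 * P ^ 2) := by
        have : (1 : ℝ) ≤ 8 + 128 * P ^ 2 := by
          have := sq_nonneg P
          linarith
        exact one_le_mul_of_one_le_of_one_le hC this
      have h3 : (T1 * u ^ 45) ^ 2 ≤ (C * (8 + 128 * P ^ 2) * n) ^ 2 := by
        refine hsq2.trans ?_
        rw [mul_pow]
        have := le_self_pow₀ hc1 (show (2 : ℕ) ≠ 0 by norm_num)
        gcongr
      exact (pow_le_pow_iff_left₀ (by positivity) (by positivity) (by norm_num)).1 h3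
    calc _ ≤ (T1 + 4 * (M : ℝ) ^ 2 * (Q : ℝ) ^ 2 * (2 / n ^ 2)) * u ^ 45 := by
          gcongr
          exact hred.trans (add_le_add le_rfl hE)
      _ = T1 * u ^ 45 + 4 * (M : ℝ) ^ 2 * (Q : ℝ) ^ 2 * (2 / n ^ 2) * u ^ 45 := by ring
      _ ≤ C * (8 + 128 * (1 + 64 * Real.pi * j) ^ 2) * n + 8 * n := add_le_add hmain herr
      _ = _ := by ring

end Pool.Agent.Work.MP_2dba45_nt.Bil
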