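import Mathlib
import Pool.Agent.Work.MP_2dba45_nt.BilBlk

/-!
MODULE FIN: one block with powers of `N`, then dyadic decomposition of `m` and `q`.
-/

set_option autoImplicit false

namespace Pool.Agent.Work.MP_2dba45_nt.Bil

open Finset Filter Pool.Agent.Work.MP_2dba45_nt.BilDef

theorem block (hW : WeilBound) (ε : ℝ) (h0 : 0 < ε) (h1 : ε < 1 / 100) :
    ∃ j : ℕ, 2 ≤ j ∧ ∃ η : ℝ, 0 < η ∧ ∃ N₀ : ℕ, ∀ N : ℕ, N₀ ≤ N → ∀ r c : ℕ, 1 ≤ r →
      (r : ℝ) ≤ (N : ℝ) ^ η → ∀ M Q : ℕ, 1 ≤ M → (M : ℝ) ≤ (N : ℝ) ^ (1 - ε) → 1 ≤ Q →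
        (Q : ℝ) ≤ (N : ℝ) ^ (1 / 12 - ε) → ∀ b : ℕ → ℝ, (∀ q, |b q| ≤ 1) →
          ∑ m ∈ (Ico M (2 * M)).filter (fun m => m.Coprime r),
            |∑ q ∈ (Ico Q (2 * Q)).filter (fun q => Squarefree q ∧ q.Coprime (2 * m * r)),
              b q * Rem (W j (N / j) N) N (m * q) r c| ≤ (N : ℝ) ^ (1 - 3 * η) := by
  set δ : ℝ := ε / 100 with hδ
  have hδ0 : 0 < δ := by positivity
  obtain ⟨C, hC, hsq⟩ := t1_sq hW δ hδ0
  obtain ⟨j₀, hj₀⟩ := exists_nat_gt (2 / δ)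
  set j : ℕ := j₀ + 2 with hj
  have hj2 : 2 ≤ j := by omega
  have hjδ : 2 ≤ δ * ((j - 1 : ℕ) : ℝ) := by
    have h2 : (2 : ℝ) / δ ≤ ((j - 1 : ℕ) : ℝ) := by
      have : (j₀ : ℝ) ≤ ((j - 1 : ℕ) : ℝ) := by exact_mod_cast (by omega : j₀ ≤ j - 1)
      linarith
    have := (div_le_iff₀ hδ0).1 h2
    linarith
  set c : ℝ := C * (8 + 128 * (1 + 64 * Real.pi * j) ^ 2) + 8 with hc
  -- size conditions
  have e1 : ∀ᶠ N : ℕ in atTop, 288 * (j : ℝ) ≤ (N : ℝ) ^ (1 / 4 : ℝ) :=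
    ((tendsto_rpow_atTop (by norm_num : (0 : ℝ) < 1 / 4)).comp
      tendsto_natCast_atTop_atTop).eventually_ge_atTop _
  have e2 : ∀ᶠ N : ℕ in atTop, c ≤ (N : ℝ) ^ δ :=
    ((tendsto_rpow_atTop hδ0).comp tendsto_natCast_atTop_atTop).eventually_ge_atTop _
  obtain ⟨N₀, hN₀⟩ := eventually_atTop.1 (e1.and (e2.and (eventually_ge_atTop 1)))
  refine ⟨j, hj2, 12 * δ, by positivity, N₀, ?_⟩
  intro N hN r c' hr hrN M Q hM hMN hQ hQN b hb
  obtain ⟨f1, f2, f3⟩ := hN₀ N hN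
  set n : ℝ := (N : ℝ) with hn
  have hn1 : 1 ≤ n := by rw [hn]; exact_mod_cast f3
  have hn0 : 0 < n := by linarith
  set w : ℝ := n ^ (1 / 12 : ℝ) with hw
  set u : ℝ := n ^ δ with hu
  have hw1 : 1 ≤ w := Real.one_le_rpow hn1 (by norm_num)
  have hu1 : 1 ≤ u := Real.one_le_rpow hn1 hδ0.le
  have hu0 : 0 < u := by linarith
  have powu : ∀ k : ℕ, u ^ k = n ^ (δ * k) := by
    intro k
    rw [hu, Real.rpow_mul hn0.le, Real.rpow_natCast]
  have poww : ∀ k : ℕ, w ^ k = n ^ ((1 / 12 : ℝ) * k) := by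
    intro k
    rw [hw, Real.rpow_mul hn0.le, Real.rpow_natCast]
  have hwn : w ^ 12 = n := by
    rw [poww]
    norm_num
  have key := block_aux C hC j (N / j) N r c' M Q b n w u hj2 rfl hn hw1 hu1 hwn hr hM hQ
    (by rw [powu]; refine hrN.trans (le_of_eq ?_); congr 1; push_cast; ring)
    (by
      rw [powu]
      calc (M : ℝ) * n ^ (δ * (100 : ℕ)) ≤ n ^ (1 - ε) * n ^ (δ * (100 : ℕ)) := by gcongr
        _ = n := by
          rw [← Real.rpow_add hn0]
          have : 1 - ε + δ * ((100 : ℕ) : ℝ) = 1 := by rw [hδ]; push_cast; ring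
          rw [this, Real.rpow_one])
    (by
      rw [powu]
      calc (Q : ℝ) * n ^ (δ * (100 : ℕ)) ≤ n ^ (1 / 12 - ε) * n ^ (δ * (100 : ℕ)) := by gcongr
        _ = w := by
          rw [← Real.rpow_add hn0, hw]
          congr 1
          rw [hδ]; push_cast; ring)
    hb
    (by
      rw [powu]
      calc n ^ 2 = n ^ (2 : ℝ) := by norm_num
        _ ≤ n ^ (δ * ((j - 1 : ℕ) : ℝ)) := Real.rpow_le_rpow_of_exponent_le hn1 hjδ)
    (by
      rw [powu, poww]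
      have g1 : n ^ (δ * (13 : ℕ)) ≤ n ^ (1 / 4 : ℝ) := by
        apply Real.rpow_le_rpow_of_exponent_le hn1
        rw [hδ]; push_cast; linarith
      calc 288 * (j : ℝ) * n ^ (δ * (13 : ℕ)) ≤ n ^ (1 / 4 : ℝ) * n ^ (1 / 4 : ℝ) := by gcongr
        _ = n ^ ((1 / 12 : ℝ) * (6 : ℕ)) := by
          rw [← Real.rpow_add hn0]
          norm_num)
    (by
      rw [powu, poww]
      apply Real.rpow_le_rpow_of_exponent_le hn1
      rw [hδ]; push_cast; linarith)
    (fun hM2 hrN' hMN' hQN' hK1 H hH1 hHN => hsq j (N / j) N r c' M Q H b (by omega) hK1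
      (Nat.mul_div_le N j) hr hrN' hM2 hMN' hQ hQN' hH1 hHN hb)
  set T : ℝ := ∑ m ∈ (Ico M (2 * M)).filter (fun m => m.Coprime r),
      |∑ q ∈ (Ico Q (2 * Q)).filter (fun q => Squarefree q ∧ q.Coprime (2 * m * r)),
        b q * Rem (W j (N / j) N) N (m * q) r c'| with hT
  have g2 : T * u ^ 45 ≤ u * n := by
    refine key.trans ?_
    gcongr
  have g3 : n ^ (1 - 3 * (12 * δ)) * u ^ 36 = n := by
    rw [powu, ← Real.rpow_add hn0]
    have : 1 - 3 * (12 * δ) + δ * ((36 : ℕ) : ℝ) = 1 := by push_cast; ring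
    rw [this, Real.rpow_one]
  have g4 : T * u ^ 36 ≤ n := by
    have g5 : T * u ^ 36 * u ^ 9 ≤ n * u ^ 9 := by
      calc T * u ^ 36 * u ^ 9 = T * u ^ 45 := by ring
        _ ≤ u * n := g2
        _ = n * u ^ 1 := by ring
        _ ≤ n * u ^ 9 := by
          gcongr
          norm_num
    exact le_of_mul_le_mul_right g5 (by positivity)
  have g6 : T * u ^ 36 ≤ n ^ (1 - 3 * (12 * δ)) * u ^ 36 := by rw [g3]; exact g4
  exact le_of_mul_le_mul_right g6 (by positivity)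

/-- dyadic decomposition of a sum over `[1, X]` -/
theorem dyadic (X : ℕ) (f : ℕ → ℝ) :
    ∑ m ∈ Icc 1 X, f m = ∑ i ∈ range (Nat.log 2 X + 1), ∑ m ∈ Ico (2 ^ i) (2 * 2 ^ i),
      if m ≤ X then f m else 0 := by
  rw [← sum_fiberwise_of_maps_to (s := Icc 1 X) (t := range (Nat.log 2 X + 1))
    (g := fun m => Nat.log 2 m)]
  · refine sum_congr rfl fun i _ => ?_
    rw [← sum_filter]
    refine sum_congr ?_ fun _ _ => rfl
    ext m
    rw [mem_filter, mem_filter, mem_Icc, mem_Ico]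
    constructor
    · rintro ⟨⟨h1, h2⟩, h3⟩
      refine ⟨?_, h2⟩
      rw [← h3]
      refine ⟨Nat.pow_log_le_self 2 (by omega), ?_⟩
      have := Nat.lt_pow_succ_log_self (b := 2) (by norm_num) m
      rw [pow_succ] at this
      omega
    · rintro ⟨⟨h1, h2⟩, h3⟩
      have h4 : 1 ≤ 2 ^ i := Nat.one_le_two_pow
      refine ⟨⟨by omega, h3⟩, ?_⟩
      rw [Nat.log_eq_iff (Or.inr ⟨by norm_num, by omega⟩)]
      refine ⟨h1, ?_⟩
      rw [pow_succ]
      omega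
  · intro m hm
    rw [mem_Icc] at hm
    rw [mem_range]
    have := Nat.log_mono_right (b := 2) hm.2
    omega

theorem bil (hW : WeilBound) : BIL := by
  intro ε hε0 hε1
  obtain ⟨j, hj, η, hη, N₁, hblk⟩ := block hW ε hε0 hε1
  have hj0 : (0 : ℝ) < j := by exact_mod_cast (by omega : 0 < j)
  -- `(log₂ N + 1)² ≤ N^{2η}`
  have e1 : ∀ᶠ N : ℕ in atTop, ((Nat.log 2 N : ℝ) + 1) ≤ (N : ℝ) ^ η := by
    have h1 : ∀ᶠ x : ℝ in atTop, ‖Real.log x‖ ≤ (1 / 4) * ‖x ^ η‖ :=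
      (isLittleO_log_rpow_atTop hη).bound (by norm_num)
    have h2 := tendsto_natCast_atTop_atTop (R := ℝ) |>.eventually h1
    have h3 : ∀ᶠ N : ℕ in atTop, (4 : ℝ) ≤ (N : ℝ) ^ η :=
      ((tendsto_rpow_atTop hη).comp tendsto_natCast_atTop_atTop).eventually_ge_atTop _
    filter_upwards [h2, h3, eventually_ge_atTop 1] with N a1 a2 a3
    have hN1 : (1 : ℝ) ≤ N := by exact_mod_cast a3
    have a4 : (Nat.log 2 N : ℝ) * Real.log 2 ≤ Real.log N := by
      rw [← Real.log_pow]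
      apply Real.log_le_log (by positivity)
      exact_mod_cast Nat.pow_log_le_self 2 (by omega)
    have a5 : (1 / 2 : ℝ) ≤ Real.log 2 := by
      have := Real.log_two_gt_d9
      linarith
    have a6 : (0 : ℝ) ≤ Nat.log 2 N := by positivity
    rw [Real.norm_of_nonneg (Real.log_nonneg hN1), Real.norm_of_nonneg (by positivity)] at a1
    nlinarith
  obtain ⟨N₂, hN₂⟩ := eventually_atTop.1 e1
  refine ⟨η, hη, 1 / (2 * j), by positivity, max (max N₁ N₂) (2 * j), ?_⟩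
  intro N hN
  have hN1 : N₁ ≤ N := le_trans (le_trans (le_max_left _ _) (le_max_left _ _)) hN
  have hN2 : N₂ ≤ N := le_trans (le_trans (le_max_right _ _) (le_max_left _ _)) hN
  have hNj : 2 * j ≤ N := le_trans (le_max_right _ _) hN
  have hNone : 1 ≤ N := by omega
  have hn1 : (1 : ℝ) ≤ N := by exact_mod_cast hNone
  have hn0 : (0 : ℝ) < N := by linarith
  have hK1 : 1 ≤ N / j := by
    rw [Nat.one_le_div_iff (by omega)]
    omega
  have hjK : j * (N / j) ≤ N := Nat.mul_div_le N j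
  refine ⟨W j (N / j) N, fun n => ⟨W_nonneg _ _ _ _, W_le_one _ _ _ _ (by omega) hK1⟩,
    fun n hn => W_support _ _ _ _ (by omega) hK1 hjK hn, ?_, ?_⟩
  · rw [sum_W j (N / j) N (by omega) hK1 hjK]
    have h1 : N < j * (N / j) + j := by
      have := Nat.div_add_mod N j
      have h2 := Nat.mod_lt N (show 0 < j by omega)
      omega
    have h2 : (N : ℝ) < j * ((N / j : ℕ) : ℝ) + j := by exact_mod_cast h1
    have h3 : (2 : ℝ) * j ≤ N := by exact_mod_cast hNj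
    rw [div_mul_eq_mul_div, div_le_iff₀ (by positivity)]
    have h4 : ((N / j : ℕ) : ℝ) * (2 * j) = 2 * (j * ((N / j : ℕ) : ℝ)) := by ring
    linarith
  · intro r c hr hrN M Q hM hQ b hb
    have hlog := hN₂ N hN2
    -- the two dyadic decompositions
    have hMN : ⌊M⌋₊ ≤ N := by
      have h1 : M ≤ N := by
        refine hM.trans ?_
        calc (N : ℝ) ^ (1 - ε) ≤ (N : ℝ) ^ (1 : ℝ) :=
              Real.rpow_le_rpow_of_exponent_le hn1 (by linarith)
          _ = N := Real.rpow_one _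
      exact Nat.floor_le_of_le h1
    have hQN : ⌊Q⌋₊ ≤ N := by
      have h1 : Q ≤ N := by
        refine hQ.trans ?_
        calc (N : ℝ) ^ (1 / 12 - ε) ≤ (N : ℝ) ^ (1 : ℝ) :=
              Real.rpow_le_rpow_of_exponent_le hn1 (by linarith)
          _ = N := Real.rpow_one _
      exact Nat.floor_le_of_le h1
    by_cases hM1 : 1 ≤ ⌊M⌋₊
    swap
    · have : ⌊M⌋₊ = 0 := by omega
      rw [this]
      simp only [Icc_eq_empty (by norm_num : ¬ (1 : ℕ) ≤ 0), filter_empty, sum_empty]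
      positivity
    by_cases hQ1 : 1 ≤ ⌊Q⌋₊
    swap
    · have : ⌊Q⌋₊ = 0 := by omega
      rw [this]
      simp only [Icc_eq_empty (by norm_num : ¬ (1 : ℕ) ≤ 0), filter_empty, sum_empty, abs_zero,
        sum_const_zero]
      positivity
    have hM0 : 0 ≤ M := by
      by_contra hcon
      have : ⌊M⌋₊ = 0 := Nat.floor_of_nonpos (by linarith)
      omega
    have hQ0 : 0 ≤ Q := by
      by_contra hcon
      have : ⌊Q⌋₊ = 0 := Nat.floor_of_nonpos (by linarith)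
      omega
    -- inner sums
    have hin : ∀ m : ℕ, |∑ q ∈ (Icc 1 ⌊Q⌋₊).filter (fun q => Squarefree q ∧
        q.Coprime (2 * m * r)), b q * Rem (W j (N / j) N) N (m * q) r c| ≤
        ∑ l ∈ range (Nat.log 2 ⌊Q⌋₊ + 1), |∑ q ∈ (Ico (2 ^ l) (2 * 2 ^ l)).filter
          (fun q => Squarefree q ∧ q.Coprime (2 * m * r)),
          (if q ≤ ⌊Q⌋₊ then b q else 0) * Rem (W j (N / j) N) N (m * q) r c| := by
      intro m
      rw [sum_filter, dyadic]
      refine (abs_sum_le_sum_abs _ _).trans (le_of_eq ?_)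
      refine sum_congr rfl fun l _ => ?_
      congr 1
      rw [sum_filter]
      refine sum_congr rfl fun q _ => ?_
      by_cases h5 : q ≤ ⌊Q⌋₊
      · by_cases h6 : Squarefree q ∧ q.Coprime (2 * m * r)
        · rw [if_pos h5, if_pos h6, if_pos h6, if_pos h5]
        · rw [if_pos h5, if_neg h6, if_neg h6]
      · rw [if_neg h5]
        by_cases h6 : Squarefree q ∧ q.Coprime (2 * m * r)
        · rw [if_pos h6, if_neg h5, zero_mul]
        · rw [if_neg h6]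
    have hout : ∑ m ∈ (Icc 1 ⌊M⌋₊).filter (fun m => m.Coprime r),
        |∑ q ∈ (Icc 1 ⌊Q⌋₊).filter (fun q => Squarefree q ∧ q.Coprime (2 * m * r)),
          b q * Rem (W j (N / j) N) N (m * q) r c| ≤
        ∑ i ∈ range (Nat.log 2 ⌊M⌋₊ + 1), ∑ l ∈ range (Nat.log 2 ⌊Q⌋₊ + 1),
          ∑ m ∈ (Ico (2 ^ i) (2 * 2 ^ i)).filter (fun m => m.Coprime r),
            |∑ q ∈ (Ico (2 ^ l) (2 * 2 ^ l)).filter
              (fun q => Squarefree q ∧ q.Coprime (2 * m * r)),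
              (if q ≤ ⌊Q⌋₊ then b q else 0) * Rem (W j (N / j) N) N (m * q) r c| := by
      rw [sum_filter, dyadic]
      refine sum_le_sum fun i _ => ?_
      rw [sum_comm, sum_filter]
      refine sum_le_sum fun m _ => ?_
      by_cases h5 : m.Coprime r
      · rw [if_pos h5, if_pos h5]
        by_cases h6 : m ≤ ⌊M⌋₊
        · rw [if_pos h6]
          exact hin m
        · rw [if_neg h6]
          exact sum_nonneg fun _ _ => abs_nonneg _
      · rw [if_neg h5, if_neg h5]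
        split_ifs <;> exact le_rfl
    refine hout.trans ?_
    have hblock : ∀ i ∈ range (Nat.log 2 ⌊M⌋₊ + 1), ∀ l ∈ range (Nat.log 2 ⌊Q⌋₊ + 1),
        ∑ m ∈ (Ico (2 ^ i) (2 * 2 ^ i)).filter (fun m => m.Coprime r),
            |∑ q ∈ (Ico (2 ^ l) (2 * 2 ^ l)).filter
              (fun q => Squarefree q ∧ q.Coprime (2 * m * r)),
              (if q ≤ ⌊Q⌋₊ then b q else 0) * Rem (W j (N / j) N) N (m * q) r c| ≤
          (N : ℝ) ^ (1 - 3 * η) := by
      intro i hi l hl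
      rw [mem_range] at hi hl
      have h5 : 2 ^ i ≤ ⌊M⌋₊ :=
        (Nat.pow_le_pow_right (by norm_num) (by omega)).trans (Nat.pow_log_le_self 2 (by omega))
      have h6 : 2 ^ l ≤ ⌊Q⌋₊ :=
        (Nat.pow_le_pow_right (by norm_num) (by omega)).trans (Nat.pow_log_le_self 2 (by omega))
      have h7 : ((2 ^ i : ℕ) : ℝ) ≤ (N : ℝ) ^ (1 - ε) := by
        have : ((2 ^ i : ℕ) : ℝ) ≤ (⌊M⌋₊ : ℝ) := by exact_mod_cast h5
        exact this.trans ((Nat.floor_le hM0).trans hM)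
      have h8 : ((2 ^ l : ℕ) : ℝ) ≤ (N : ℝ) ^ (1 / 12 - ε) := by
        have : ((2 ^ l : ℕ) : ℝ) ≤ (⌊Q⌋₊ : ℝ) := by exact_mod_cast h6
        exact this.trans ((Nat.floor_le hQ0).trans hQ)
      refine hblk N hN1 r c hr hrN (2 ^ i) (2 ^ l) Nat.one_le_two_pow h7 Nat.one_le_two_pow h8
        (fun q => if q ≤ ⌊Q⌋₊ then b q else 0) ?_
      intro q
      show |if q ≤ ⌊Q⌋₊ then b q else 0| ≤ 1
      split_ifs
      · exact hb q
      · rw [abs_zero]; norm_num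
    refine (sum_le_sum fun i hi => sum_le_sum fun l hl => hblock i hi l hl).trans ?_
    rw [sum_const, sum_const, card_range, card_range, nsmul_eq_mul, nsmul_eq_mul]
    have h9 : ((Nat.log 2 ⌊M⌋₊ + 1 : ℕ) : ℝ) ≤ (N : ℝ) ^ η := by
      refine le_trans ?_ hlog
      push_cast
      have := Nat.log_mono_right (b := 2) hMN
      have h10 : (Nat.log 2 ⌊M⌋₊ : ℝ) ≤ Nat.log 2 N := by exact_mod_cast this
      linarith
    have h10 : ((Nat.log 2 ⌊Q⌋₊ + 1 : ℕ) : ℝ) ≤ (N : ℝ) ^ η := by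
      refine le_trans ?_ hlog
      push_cast
      have := Nat.log_mono_right (b := 2) hQN
      have h10 : (Nat.log 2 ⌊Q⌋₊ : ℝ) ≤ Nat.log 2 N := by exact_mod_cast this
      linarith
    calc ((Nat.log 2 ⌊M⌋₊ + 1 : ℕ) : ℝ) * (((Nat.log 2 ⌊Q⌋₊ + 1 : ℕ) : ℝ) *
          (N : ℝ) ^ (1 - 3 * η))
        ≤ (N : ℝ) ^ η * ((N : ℝ) ^ η * (N : ℝ) ^ (1 - 3 * η)) := by gcongr
      _ = (N : ℝ) ^ (1 - η) := by
          rw [← Real.rpow_add hn0, ← Real.rpow_add hn0]
          congr 1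
          ring

end Pool.Agent.Work.MP_2dba45_nt.Bil
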