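import Mathlib
import Pool.Agent.Work.MP_2dba45_nt.Crt

set_option autoImplicit false

namespace Pool.Agent.Work.MP_2dba45_nt.TwoD

open Finset Pool.Agent.Work.MP_2dba45_nt.Crt

open Classical in
/-- two-dimensional local density -/
noncomputable def rho2 (bad : ℕ → ℕ × ℕ → Prop) (p : ℕ) : ℕ :=
  #((range p ×ˢ range p).filter (fun x => bad p x))

open Classical in
theorem card_crt2 (bad : ℕ → ℕ × ℕ → Prop) (T : Finset ℕ) (hT : ∀ p ∈ T, p.Prime)
    (hper : ∀ p ∈ T, ∀ x : ℕ × ℕ, bad p x ↔ bad p (x.1 % p, x.2 % p)) :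
    #((range (∏ p ∈ T, p) ×ˢ range (∏ p ∈ T, p)).filter (fun x => ∀ p ∈ T, bad p x)) =
      ∏ p ∈ T, rho2 bad p := by
  have h := sum_crt2 T hT (fun p x y => if bad p (x, y) then 1 else 0)
  have e1 : ∀ p ∈ T, rho2 bad p = ∑ y ∈ range p, ∑ x ∈ range p, (if bad p (x, y) then 1 else 0) := by
    intro p _
    rw [rho2, Finset.card_filter, Finset.sum_product_right]
  rw [Finset.prod_congr rfl e1, ← h, Finset.card_filter, Finset.sum_product_right]
  refine Finset.sum_congr rfl fun y _ => Finset.sum_congr rfl fun x _ => ?_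
  by_cases hx : ∀ p ∈ T, bad p (x, y)
  · rw [if_pos hx, Finset.prod_eq_one]
    intro p hp
    rw [if_pos ((hper p hp (x, y)).1 (hx p hp))]
  · rw [if_neg hx]
    push Not at hx
    obtain ⟨p, hp, hb⟩ := hx
    symm
    apply Finset.prod_eq_zero hp
    rw [if_neg (fun h => hb ((hper p hp (x, y)).2 h))]

/-- length of an arithmetic progression inside an interval -/
def len (L M α : ℕ) : ℕ := (L - α + (M - 1)) / M

theorem lt_len {L M α : ℕ} (hM : 0 < M) (k : ℕ) : α + M * k < L ↔ k < len L M α := by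
  unfold len
  have h : k < (L - α + (M - 1)) / M ↔ (k + 1) * M ≤ L - α + (M - 1) :=
    Nat.lt_iff_add_one_le.trans (Nat.le_div_iff_mul_le hM)
  rw [h, Nat.succ_mul, Nat.mul_comm k M]
  generalize M * k = t
  omega

theorem len_bounds {L M α : ℕ} (hM : 0 < M) (hα : α < M) :
    |(len L M α : ℝ) - (L : ℝ) / M| ≤ 1 := by
  have hM' : (0 : ℝ) < M := by exact_mod_cast hM
  unfold len
  have h1 : (((L - α + (M - 1)) / M : ℕ) : ℝ) ≤ ((L - α + (M - 1) : ℕ) : ℝ) / M := Nat.cast_div_le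
  have h2 : (L - α + (M - 1)) < M * ((L - α + (M - 1)) / M + 1) := Nat.lt_mul_div_succ _ hM
  have h3 : ((L - α + (M - 1) : ℕ) : ℝ) ≤ L + M := by exact_mod_cast (by omega)
  have h4 : L ≤ L - α + (M - 1) := by omega
  have h5 : L < M * ((L - α + (M - 1)) / M + 1) := lt_of_le_of_lt h4 h2
  have h6 : (L : ℝ) < M * (((L - α + (M - 1)) / M : ℕ) + 1) := by exact_mod_cast h5
  have h7 : (L : ℝ) / M ≤ ((L - α + (M - 1)) / M : ℕ) + 1 := by
    rw [div_le_iff₀ hM']; linarith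
  have h8 : ((L - α + (M - 1) : ℕ) : ℝ) / M ≤ (L : ℝ) / M + 1 := by
    rw [div_le_iff₀ hM']
    have : ((L : ℝ) / M + 1) * M = L + M := by field_simp
    rw [this]; exact h3
  rw [abs_le]
  constructor <;> linarith

/-- the error size -/
noncomputable def kap (b : ℕ) : ℝ :=
  2 * (#(b.divisors) : ℝ) ^ 3 * (1 + Real.log b) ^ 2 * (b : ℝ) ^ (-(1 / 4) : ℝ)

theorem kap_ge {b : ℕ} (hb : 0 < b) : (b : ℝ) ^ (-(1 / 4) : ℝ) ≤ kap b := by
  have hb1 : (1 : ℝ) ≤ b := by exact_mod_cast hb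
  have ht : (1 : ℝ) ≤ #(b.divisors) := by
    exact_mod_cast Finset.card_pos.2 ⟨1, Nat.one_mem_divisors.2 hb.ne'⟩
  have hlog : 0 ≤ Real.log b := Real.log_nonneg hb1
  have hr : 0 < (b : ℝ) ^ (-(1 / 4) : ℝ) := Real.rpow_pos_of_pos (by linarith) _
  unfold kap
  have h1 : (1 : ℝ) ≤ (#(b.divisors) : ℝ) ^ 3 := one_le_pow₀ ht
  have h2 : (1 : ℝ) ≤ (1 + Real.log b) ^ 2 := one_le_pow₀ (by linarith)
  have h3 : 1 ≤ 2 * (#(b.divisors) : ℝ) ^ 3 * (1 + Real.log b) ^ 2 := by nlinarith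
  nlinarith

/-- the set of pairs in the box with product one modulo `b` -/
def box (b : ℕ) (A0 E0 : ℤ) (L1 L2 : ℕ) : Finset (ℕ × ℕ) :=
  (range L1 ×ˢ range L2).filter
    (fun x => ((A0 : ZMod b) + x.1) * ((E0 : ZMod b) + x.2) = 1)

theorem cnt_box (b : ℕ) (hb : 0 < b) (A0 E0 : ℤ) (L1 L2 : ℕ) (bad : ℕ → ℕ × ℕ → Prop)
    (T : Finset ℕ) (hT : ∀ p ∈ T, p.Prime) (hTb : ∀ p ∈ T, ¬ p ∣ b)
    (hper : ∀ p ∈ T, ∀ x : ℕ × ℕ, bad p x ↔ bad p (x.1 % p, x.2 % p)) :
    |(Sel.cnt (box b A0 E0 L1 L2) bad T : ℝ) -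
      ((L1 : ℝ) * L2 * Nat.totient b / (b : ℝ) ^ 2) *
        Sel.gg (fun p => (rho2 bad p : ℝ) / (p : ℝ) ^ 2) T| ≤
      (2 * kap b * (L1 + L2 + 2 + b)) * ((∏ p ∈ T, p : ℕ) : ℝ) ^ 2 := by
  classical
  haveI : NeZero b := ⟨hb.ne'⟩
  have hb' : (0 : ℝ) < b := by exact_mod_cast hb
  have hb1 : (1 : ℝ) ≤ b := by exact_mod_cast hb
  set M := ∏ p ∈ T, p with hMdef
  have hM : 0 < M := Finset.prod_pos fun p hp => (hT p hp).pos
  have hM' : (0 : ℝ) < M := by exact_mod_cast hM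
  have hM1 : (1 : ℝ) ≤ M := by exact_mod_cast hM
  have hcop : Nat.Coprime M b := by
    rw [hMdef, Nat.coprime_prod_left_iff]
    intro p hp
    exact (Nat.Prime.coprime_iff_not_dvd (hT p hp)).2 (hTb p hp)
  set D : (ZMod b)ˣ := ZMod.unitOfCoprime M hcop with hD
  have hDval : (D : ZMod b) = (M : ZMod b) := ZMod.coe_unitOfCoprime M hcop
  set S := (range M ×ˢ range M).filter (fun x => ∀ p ∈ T, bad p x) with hS
  have hScard : #S = ∏ p ∈ T, rho2 bad p := card_crt2 bad T hT hper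
  have hQ : ∀ x : ℕ × ℕ, (∀ p ∈ T, bad p x) ↔ (∀ p ∈ T, bad p (x.1 % M, x.2 % M)) := by
    intro x
    refine forall₂_congr fun p hp => ?_
    rw [hper p hp x, hper p hp (x.1 % M, x.2 % M)]
    simp only
    rw [Nat.mod_mod_of_dvd _ (Finset.dvd_prod_of_mem _ hp),
      Nat.mod_mod_of_dvd _ (Finset.dvd_prod_of_mem _ hp)]
  set B := box b A0 E0 L1 L2 with hB
  -- fiberwise count
  have h1 : (Sel.cnt B bad T : ℝ) = ∑ y ∈ S, (#(B.filter (fun x => (x.1 % M, x.2 % M) = y)) : ℝ) := by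
    have h2 : Sel.cnt B bad T = #(B.filter (fun x => ∀ p ∈ T, bad p x)) := by
      unfold Sel.cnt; congr
    rw [h2, Finset.card_eq_sum_card_fiberwise (f := fun x : ℕ × ℕ => (x.1 % M, x.2 % M)) (t := S)]
    · push_cast
      refine Finset.sum_congr rfl fun y hy => ?_
      congr 2
      rw [Finset.filter_filter]
      ext x
      simp only [Finset.mem_filter]
      constructor
      · rintro ⟨h1, h2, h3⟩; exact ⟨h1, h3⟩
      · rintro ⟨h1, h3⟩
        refine ⟨h1, ?_, h3⟩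
        rw [hQ x, h3]
        exact (Finset.mem_filter.1 hy).2
    · intro x hx
      simp only [Finset.coe_filter, Set.mem_ofPred_eq] at hx
      simp only [hS, Finset.coe_filter, Set.mem_ofPred_eq, Finset.mem_product, Finset.mem_range]
      exact ⟨⟨Nat.mod_lt _ hM, Nat.mod_lt _ hM⟩, (hQ x).1 hx.2⟩
  -- each fiber
  have hfib : ∀ y ∈ S, |(#(B.filter (fun x => (x.1 % M, x.2 % M) = y)) : ℝ) -
      ((L1 : ℝ) * L2 * Nat.totient b / (b : ℝ) ^ 2) / (M : ℝ) ^ 2| ≤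
      2 * kap b * (L1 + L2 + 2 + b) := by
    rintro ⟨α, β⟩ hy
    simp only [hS, Finset.mem_filter, Finset.mem_product, Finset.mem_range] at hy
    obtain ⟨⟨hα, hβ⟩, _⟩ := hy
    set l1 := len L1 M α with hl1
    set l2 := len L2 M β with hl2
    have hcard : #(B.filter (fun x => (x.1 % M, x.2 % M) = (α, β))) =
        #((range l1 ×ˢ range l2).filter
          (fun p : ℕ × ℕ => (((A0 : ZMod b) + α) + (D : ZMod b) * p.1) *
            (((E0 : ZMod b) + β) + (D : ZMod b) * p.2) = 1)) := by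
      symm
      refine Finset.card_bij (fun p _ => (α + M * p.1, β + M * p.2)) ?_ ?_ ?_
      · rintro ⟨s, t⟩ hst
        simp only [Finset.mem_filter, Finset.mem_product, Finset.mem_range, hDval] at hst
        simp only [hB, box, Finset.mem_filter, Finset.mem_product, Finset.mem_range,
          Prod.mk.injEq]
        refine ⟨⟨⟨(lt_len hM s).2 hst.1.1, (lt_len hM t).2 hst.1.2⟩, ?_⟩, ?_, ?_⟩
        · push_cast
          rw [← hst.2]
          ring
        · rw [Nat.add_mul_mod_self_left, Nat.mod_eq_of_lt hα]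
        · rw [Nat.add_mul_mod_self_left, Nat.mod_eq_of_lt hβ]
      · rintro ⟨s, t⟩ _ ⟨s', t'⟩ _ h
        simp only [Prod.mk.injEq, Nat.add_left_cancel_iff] at h
        rw [Nat.eq_of_mul_eq_mul_left hM h.1, Nat.eq_of_mul_eq_mul_left hM h.2]
      · rintro ⟨s, t⟩ hst
        simp only [hB, box, Finset.mem_filter, Finset.mem_product, Finset.mem_range,
          Prod.mk.injEq] at hst
        obtain ⟨⟨⟨hs, ht⟩, hst1⟩, hs2, ht2⟩ := hst
        have es : s = α + M * (s / M) := by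
          have := Nat.mod_add_div s M; omega
        have et : t = β + M * (t / M) := by
          have := Nat.mod_add_div t M; omega
        refine ⟨(s / M, t / M), ?_, ?_⟩
        · simp only [Finset.mem_filter, Finset.mem_product, Finset.mem_range, hDval]
          refine ⟨⟨(lt_len hM _).1 (by omega), (lt_len hM _).1 (by omega)⟩, ?_⟩
          rw [es, et] at hst1
          push_cast at hst1
          rw [← hst1]
          ring
        · simp only [Prod.mk.injEq]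
          exact ⟨es.symm, et.symm⟩
    rw [hcard]
    have hmain := Compl.count_bound ((A0 : ZMod b) + (α : ZMod b)) ((E0 : ZMod b) + (β : ZMod b)) D D l1 l2
    have hkap : 2 * (#(b.divisors) : ℝ) ^ 3 * (1 + Real.log b) ^ 2 *
        (b : ℝ) ^ (-(1 / 4) : ℝ) * (l1 + l2 + b) = kap b * (l1 + l2 + b) := rfl
    rw [hkap] at hmain
    have hb1' := len_bounds (L := L1) hM hα
    have hb2' := len_bounds (L := L2) hM hβ
    rw [← hl1] at hb1'
    rw [← hl2] at hb2'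
    have hkap0 : 0 < kap b := lt_of_lt_of_le (Real.rpow_pos_of_pos hb' _) (kap_ge hb)
    set x1 := (L1 : ℝ) / M with hx1
    set x2 := (L2 : ℝ) / M with hx2
    have hx1le : x1 ≤ L1 := by
      rw [hx1, div_le_iff₀ hM']; nlinarith [(Nat.cast_nonneg L1 : (0 : ℝ) ≤ L1)]
    have hx2le : x2 ≤ L2 := by
      rw [hx2, div_le_iff₀ hM']; nlinarith [(Nat.cast_nonneg L2 : (0 : ℝ) ≤ L2)]
    have hx10 : 0 ≤ x1 := by positivity
    have hx20 : 0 ≤ x2 := by positivity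
    have hprod : |(l1 : ℝ) * l2 - x1 * x2| ≤ L1 + L2 + 1 := by
      have e : (l1 : ℝ) * l2 - x1 * x2 = (l1 - x1) * x2 + (l2 - x2) * x1 + (l1 - x1) * (l2 - x2) := by
        ring
      rw [e]
      calc |(l1 - x1) * x2 + (l2 - x2) * x1 + (l1 - x1) * (l2 - x2)|
          ≤ |(l1 - x1) * x2| + |(l2 - x2) * x1| + |(l1 - x1) * (l2 - x2)| := abs_add_three _ _ _
        _ = |l1 - x1| * x2 + |l2 - x2| * x1 + |l1 - x1| * |l2 - x2| := by
            rw [abs_mul, abs_mul, abs_mul, abs_of_nonneg hx10, abs_of_nonneg hx20]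
        _ ≤ 1 * L2 + 1 * L1 + 1 * 1 := by gcongr
        _ = _ := by ring
    have hphi : (Nat.totient b : ℝ) / (b : ℝ) ^ 2 ≤ kap b := by
      have h3 : (Nat.totient b : ℝ) ≤ b := by exact_mod_cast Nat.totient_le b
      calc (Nat.totient b : ℝ) / (b : ℝ) ^ 2 ≤ b / (b : ℝ) ^ 2 := by gcongr
        _ = (b : ℝ) ^ (-1 : ℝ) := by rw [Real.rpow_neg_one]; field_simp
        _ ≤ (b : ℝ) ^ (-(1 / 4) : ℝ) := Real.rpow_le_rpow_of_exponent_le hb1 (by norm_num)
        _ ≤ kap b := kap_ge hb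
    have hphi0 : 0 ≤ (Nat.totient b : ℝ) / (b : ℝ) ^ 2 := by positivity
    have e2 : ((L1 : ℝ) * L2 * Nat.totient b / (b : ℝ) ^ 2) / (M : ℝ) ^ 2 =
        x1 * x2 * (Nat.totient b / (b : ℝ) ^ 2) := by
      rw [hx1, hx2]; field_simp
    rw [e2]
    have e3 : (l1 : ℝ) * l2 * Nat.totient b / (b : ℝ) ^ 2 =
        l1 * l2 * (Nat.totient b / (b : ℝ) ^ 2) := by ring
    rw [e3] at hmain
    set c := #((range l1 ×ˢ range l2).filter
          (fun p : ℕ × ℕ => (((A0 : ZMod b) + α) + (D : ZMod b) * p.1) *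
            (((E0 : ZMod b) + β) + (D : ZMod b) * p.2) = 1))
    set φ := (Nat.totient b : ℝ) / (b : ℝ) ^ 2
    have hl1le : (l1 : ℝ) ≤ L1 + 1 := by have := (abs_le.1 hb1').2; linarith
    have hl2le : (l2 : ℝ) ≤ L2 + 1 := by have := (abs_le.1 hb2').2; linarith
    calc |(c : ℝ) - x1 * x2 * φ| ≤ |(c : ℝ) - l1 * l2 * φ| + |l1 * l2 * φ - x1 * x2 * φ| :=
          abs_sub_le _ _ _
      _ ≤ kap b * (l1 + l2 + b) + (L1 + L2 + 1) * kap b := by
          apply add_le_add hmain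
          rw [← sub_mul, abs_mul, abs_of_nonneg hphi0]
          gcongr
      _ ≤ kap b * ((L1 + 1) + (L2 + 1) + b) + (L1 + L2 + 2 + b) * kap b := by
          have : (L1 : ℝ) + L2 + 1 ≤ L1 + L2 + 2 + b := by linarith
          gcongr
      _ = 2 * kap b * (L1 + L2 + 2 + b) := by ring
  have hgg : Sel.gg (fun p => (rho2 bad p : ℝ) / (p : ℝ) ^ 2) T = (#S : ℝ) / (M : ℝ) ^ 2 := by
    rw [Sel.gg, Finset.prod_div_distrib, hScard, Finset.prod_pow, hMdef]
    push_cast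
    rfl
  rw [h1, hgg]
  have e4 : ((L1 : ℝ) * L2 * Nat.totient b / (b : ℝ) ^ 2) * ((#S : ℝ) / (M : ℝ) ^ 2) =
      ∑ y ∈ S, ((L1 : ℝ) * L2 * Nat.totient b / (b : ℝ) ^ 2) / (M : ℝ) ^ 2 := by
    rw [Finset.sum_const, nsmul_eq_mul]; ring
  rw [e4, ← Finset.sum_sub_distrib]
  have hSle : (#S : ℝ) ≤ (M : ℝ) ^ 2 := by
    have : #S ≤ M * M := by
      refine (Finset.card_filter_le _ _).trans ?_
      rw [Finset.card_product, Finset.card_range]
    calc (#S : ℝ) ≤ ((M * M : ℕ) : ℝ) := by exact_mod_cast this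
      _ = (M : ℝ) ^ 2 := by push_cast; ring
  have hkap0 : 0 < kap b := lt_of_lt_of_le (Real.rpow_pos_of_pos hb' _) (kap_ge hb)
  calc |∑ y ∈ S, ((#(B.filter (fun x => (x.1 % M, x.2 % M) = y)) : ℝ) -
        ((L1 : ℝ) * L2 * Nat.totient b / (b : ℝ) ^ 2) / (M : ℝ) ^ 2)|
      ≤ ∑ y ∈ S, 2 * kap b * (L1 + L2 + 2 + b) :=
        (Finset.abs_sum_le_sum_abs _ _).trans (Finset.sum_le_sum hfib)
    _ = #S * (2 * kap b * (L1 + L2 + 2 + b)) := by rw [Finset.sum_const, nsmul_eq_mul]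
    _ ≤ (M : ℝ) ^ 2 * (2 * kap b * (L1 + L2 + 2 + b)) := by gcongr
    _ = _ := by ring

end Pool.Agent.Work.MP_2dba45_nt.TwoD
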