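import Mathlib
import Pool.Agent.Work.MP_2dba45_nt.TwoD
import Pool.Agent.Work.MP_2dba45_nt.Nu

set_option autoImplicit false

namespace Pool.Agent.Work.MP_2dba45_nt.Loc

open Finset Pool.Agent.Work.MP_2dba45_nt.TwoD Pool.Agent.Work.MP_2dba45_nt.Nu

section field
variable {q : ℕ} [Fact q.Prime]

open Classical in
/-- affine substitution in a quadratic -/
theorem card_affine (δ : ℕ) (α β γ : ZMod q) (hβ : β ≠ 0) (hγ : γ ≠ 0) :
    #((univ : Finset (ZMod q)).filter (fun y => (α + β * y) ^ 2 + (δ : ZMod q) * γ ^ 2 = 0)) =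
      nu δ q := by
  rw [nu_eq_card]
  refine Finset.card_bij' (fun y _ => (α + β * y) / γ) (fun x _ => (x * γ - α) / β) ?_ ?_ ?_ ?_
  · intro y hy
    simp only [Finset.mem_filter, Finset.mem_univ, true_and] at hy ⊢
    have h1 : ((α + β * y) / γ) ^ 2 + (δ : ZMod q) =
        ((α + β * y) ^ 2 + (δ : ZMod q) * γ ^ 2) / γ ^ 2 := by field_simp
    rw [h1, hy, zero_div]
  · intro x hx
    simp only [Finset.mem_filter, Finset.mem_univ, true_and] at hx ⊢
    have h1 : α + β * ((x * γ - α) / β) = x * γ := by field_simp; ring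
    rw [h1]
    linear_combination γ ^ 2 * hx
  · intro y _
    field_simp
    ring
  · intro x _
    field_simp
    ring

variable (d d' : ℕ) (b : ZMod q)

open Classical in
noncomputable def E1 : Finset (ZMod q × ZMod q) :=
  univ.filter (fun x => x.1 ^ 2 + (d : ZMod q) * b ^ 2 = 0)

open Classical in
noncomputable def E2 : Finset (ZMod q × ZMod q) :=
  univ.filter (fun x => (1 - x.1 * x.2) ^ 2 + (d : ZMod q) * b ^ 2 * x.2 ^ 2 = 0)

open Classical in
noncomputable def E3 : Finset (ZMod q × ZMod q) :=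
  univ.filter (fun x => (x.1 - x.2 * (x.1 ^ 2 + (d : ZMod q) * b ^ 2)) ^ 2 +
    (d' : ZMod q) * b ^ 2 = 0)

variable {d d' b}

theorem card_roots (hb : b ≠ 0) :
    #((univ : Finset (ZMod q)).filter (fun a => a ^ 2 + (d : ZMod q) * b ^ 2 = 0)) = nu d q := by
  classical
  rw [← card_affine d 0 1 b one_ne_zero hb]
  congr 1
  ext a
  simp

theorem card_E1 (hb : b ≠ 0) : #(E1 d b) = nu d q * q := by
  classical
  rw [← card_roots (d := d) hb]
  have : E1 d b = ((univ : Finset (ZMod q)).filter (fun a => a ^ 2 + (d : ZMod q) * b ^ 2 = 0)) ×ˢ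
      (univ : Finset (ZMod q)) := by
    ext x
    simp [E1]
  rw [this, Finset.card_product, Finset.card_univ, ZMod.card]

theorem card_E2 (hb : b ≠ 0) : #(E2 d b) = nu d q * (q - 1) := by
  classical
  have h1 : #(E2 d b) = ∑ e : ZMod q,
      #((univ : Finset (ZMod q)).filter
        (fun a => (1 - a * e) ^ 2 + (d : ZMod q) * b ^ 2 * e ^ 2 = 0)) := by
    rw [E2, Finset.card_filter, ← Finset.univ_product_univ, Finset.sum_product_right]
    refine Finset.sum_congr rfl fun e _ => ?_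
    rw [Finset.card_filter]
  have h2 : ∀ e : ZMod q, #((univ : Finset (ZMod q)).filter
        (fun a => (1 - a * e) ^ 2 + (d : ZMod q) * b ^ 2 * e ^ 2 = 0)) =
        if e = 0 then 0 else nu d q := by
    intro e
    by_cases he : e = 0
    · subst he
      simp
    · rw [if_neg he, ← card_affine d 1 (-e) (b * e) (neg_ne_zero.2 he) (mul_ne_zero hb he)]
      congr 1
      ext a
      simp only [Finset.mem_filter, Finset.mem_univ, true_and]
      constructor
      · intro h; rw [← h]; ring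
      · intro h; rw [← h]; ring
  rw [h1, Finset.sum_congr rfl (fun e _ => h2 e), Finset.sum_ite, Finset.sum_const_zero, zero_add,
    Finset.sum_const, smul_eq_mul, mul_comm]
  congr 1
  have : (univ : Finset (ZMod q)).filter (fun e => ¬ e = 0) = univ.erase 0 := by
    ext e; simp
  rw [this, Finset.card_erase_of_mem (Finset.mem_univ _), Finset.card_univ, ZMod.card]

theorem card_E3 (hb : b ≠ 0) (hdd : (d : ZMod q) ≠ (d' : ZMod q)) :
    #(E3 d d' b) = nu d' q * (q - nu d q) := by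
  classical
  have h1 : #(E3 d d' b) = ∑ a : ZMod q,
      #((univ : Finset (ZMod q)).filter
        (fun e => (a - e * (a ^ 2 + (d : ZMod q) * b ^ 2)) ^ 2 + (d' : ZMod q) * b ^ 2 = 0)) := by
    rw [E3, Finset.card_filter, ← Finset.univ_product_univ, Finset.sum_product]
    refine Finset.sum_congr rfl fun a _ => ?_
    rw [Finset.card_filter]
  have h2 : ∀ a : ZMod q, #((univ : Finset (ZMod q)).filter
        (fun e => (a - e * (a ^ 2 + (d : ZMod q) * b ^ 2)) ^ 2 + (d' : ZMod q) * b ^ 2 = 0)) =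
        if a ^ 2 + (d : ZMod q) * b ^ 2 = 0 then 0 else nu d' q := by
    intro a
    by_cases ha : a ^ 2 + (d : ZMod q) * b ^ 2 = 0
    · rw [if_pos ha, Finset.card_eq_zero, Finset.filter_eq_empty_iff]
      intro e _ h
      rw [ha, mul_zero, sub_zero] at h
      have : ((d : ZMod q) - d') * b ^ 2 = 0 := by linear_combination ha - h
      rcases mul_eq_zero.1 this with h3 | h3
      · exact hdd (sub_eq_zero.1 h3)
      · exact hb (pow_eq_zero_iff (two_ne_zero) |>.1 h3)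
    · rw [if_neg ha, ← card_affine d' a (-(a ^ 2 + (d : ZMod q) * b ^ 2)) b (neg_ne_zero.2 ha) hb]
      congr 1
      ext e
      simp only [Finset.mem_filter, Finset.mem_univ, true_and]
      constructor
      · intro h; rw [← h]; ring
      · intro h; rw [← h]; ring
  rw [h1, Finset.sum_congr rfl (fun e _ => h2 e), Finset.sum_ite, Finset.sum_const_zero, zero_add,
    Finset.sum_const, smul_eq_mul, mul_comm]
  congr 1
  have h3 := Finset.card_filter_add_card_filter_not (s := (univ : Finset (ZMod q)))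
    (fun a => a ^ 2 + (d : ZMod q) * b ^ 2 = 0)
  rw [card_roots (d := d) hb, Finset.card_univ, ZMod.card] at h3
  omega

theorem card_E12 (hb : b ≠ 0) (h2 : (2 : ZMod q) ≠ 0) (hd : (d : ZMod q) ≠ 0) :
    #(E1 d b ∩ E2 d b) ≤ nu d q := by
  classical
  rw [← card_roots (d := d) hb]
  apply Finset.card_le_card_of_injOn (fun x => x.1)
  · intro x hx
    simp only [Finset.coe_inter, Set.mem_inter_iff, Finset.mem_coe, E1, E2, Finset.mem_filter,
      Finset.mem_univ, true_and] at hx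
    simp only [Finset.coe_filter, Finset.mem_univ, true_and, Set.mem_ofPred_eq]
    exact hx.1
  · rintro ⟨a, e⟩ hx ⟨a', e'⟩ hy h
    simp only [Finset.coe_inter, Set.mem_inter_iff, Finset.mem_coe, E1, E2, Finset.mem_filter,
      Finset.mem_univ, true_and] at hx hy
    simp only at h
    subst h
    have ha : a ≠ 0 := by
      rintro rfl
      have h3 : (d : ZMod q) * b ^ 2 = 0 := by linear_combination hx.1
      rcases mul_eq_zero.1 h3 with h4 | h4
      · exact hd h4
      · exact hb (pow_eq_zero_iff (two_ne_zero) |>.1 h4)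
    have e1 : 2 * a * e = 1 := by linear_combination e ^ 2 * hx.1 - hx.2
    have e2 : 2 * a * e' = 1 := by linear_combination e' ^ 2 * hy.1 - hy.2
    have : 2 * a * (e - e') = 0 := by linear_combination e1 - e2
    rcases mul_eq_zero.1 this with h5 | h5
    · exact absurd h5 (mul_ne_zero h2 ha)
    · rw [sub_eq_zero.1 h5]

theorem disj_13 (hb : b ≠ 0) (hdd : (d : ZMod q) ≠ (d' : ZMod q)) :
    Disjoint (E1 d b ∪ E2 d b) (E3 d d' b) := by
  classical
  rw [Finset.disjoint_left]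
  rintro ⟨a, e⟩ hx hy
  simp only [Finset.mem_union, E1, E2, E3, Finset.mem_filter, Finset.mem_univ, true_and] at hx hy
  have hb2 : b ^ 2 ≠ 0 := pow_ne_zero 2 hb
  rcases hx with hx | hx
  · have : ((d : ZMod q) - d') * b ^ 2 = 0 := by
      linear_combination (1 - 2 * a * e + e ^ 2 * (a ^ 2 + (d : ZMod q) * b ^ 2)) * hx - hy
    rcases mul_eq_zero.1 this with h3 | h3
    · exact hdd (sub_eq_zero.1 h3)
    · exact hb2 h3
  · have : ((d : ZMod q) - d') * b ^ 2 = 0 := by
      linear_combination (a ^ 2 + (d : ZMod q) * b ^ 2) * hx - hy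
    rcases mul_eq_zero.1 this with h3 | h3
    · exact hdd (sub_eq_zero.1 h3)
    · exact hb2 h3

theorem card_union_ge (hb : b ≠ 0) (h2 : (2 : ZMod q) ≠ 0) (hd : (d : ZMod q) ≠ 0)
    (hdd : (d : ZMod q) ≠ (d' : ZMod q)) :
    (2 * nu d q + nu d' q) * q ≤ #(E1 d b ∪ E2 d b ∪ E3 d d' b) + 8 := by
  classical
  have hq := (Fact.out : q.Prime)
  rw [Finset.card_union_of_disjoint (disj_13 hb hdd)]
  have h12 := Finset.card_union_add_card_inter (E1 d b) (E2 d b)
  have hle := card_E12 (d := d) hb h2 hd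
  rw [card_E1 hb, card_E2 hb] at h12
  rw [card_E3 hb hdd]
  have hn := nu_le d q hq
  have hn' := nu_le d' q hq
  have hq2 := hq.two_le
  obtain ⟨k, hk⟩ : ∃ k, q = k + 2 := ⟨q - 2, by omega⟩
  have e1 : q - 1 = k + 1 := by omega
  rw [e1] at h12
  have e2 : q - nu d q = k + 2 - nu d q := by omega
  rw [e2]
  set n := nu d q
  set n' := nu d' q
  set U := #(E1 d b ∪ E2 d b)
  set I := #(E1 d b ∩ E2 d b)
  clear_value U I n n'
  rw [hk] at h12
  rw [hk]
  interval_cases n <;> interval_cases n' <;> omega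

theorem card_union_le (hb : b ≠ 0) (hdd : (d : ZMod q) ≠ (d' : ZMod q)) :
    #(E1 d b ∪ E2 d b ∪ E3 d d' b) ≤ 6 * q := by
  classical
  have hq := (Fact.out : q.Prime)
  have hn := nu_le d q hq
  have hn' := nu_le d' q hq
  calc #(E1 d b ∪ E2 d b ∪ E3 d d' b) ≤ #(E1 d b ∪ E2 d b) + #(E3 d d' b) :=
        Finset.card_union_le _ _
    _ ≤ #(E1 d b) + #(E2 d b) + #(E3 d d' b) := by
        gcongr; exact Finset.card_union_le _ _
    _ ≤ 2 * q + 2 * q + 2 * q := by
        rw [card_E1 hb, card_E2 hb, card_E3 hb hdd]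
        have h1 : q - 1 ≤ q := Nat.sub_le _ _
        have h2 : q - nu d q ≤ q := Nat.sub_le _ _
        gcongr
    _ = 6 * q := by ring

end field

/-- the sieve condition for pairs `(a,e)` -/
def bad2 (d d' z b : ℕ) (A0 E0 : ℤ) (q : ℕ) (x : ℕ × ℕ) : Prop :=
  (q : ℤ) ∣ (A0 + x.1) ^ 2 + d * b ^ 2 ∨
  (q < z ∧ ((q : ℤ) ∣ (1 - (A0 + x.1) * (E0 + x.2)) ^ 2 + d * b ^ 2 * (E0 + x.2) ^ 2 ∨
    (q : ℤ) ∣ ((A0 + x.1) - (E0 + x.2) * ((A0 + x.1) ^ 2 + d * b ^ 2)) ^ 2 + d' * b ^ 2))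

theorem bad2_iff (d d' z b : ℕ) (A0 E0 : ℤ) (q : ℕ) (x : ℕ × ℕ) :
    bad2 d d' z b A0 E0 q x ↔
      (((A0 : ZMod q) + x.1) ^ 2 + (d : ZMod q) * (b : ZMod q) ^ 2 = 0 ∨
      (q < z ∧ ((1 - ((A0 : ZMod q) + x.1) * ((E0 : ZMod q) + x.2)) ^ 2 +
          (d : ZMod q) * (b : ZMod q) ^ 2 * ((E0 : ZMod q) + x.2) ^ 2 = 0 ∨
        (((A0 : ZMod q) + x.1) - ((E0 : ZMod q) + x.2) *
          (((A0 : ZMod q) + x.1) ^ 2 + (d : ZMod q) * (b : ZMod q) ^ 2)) ^ 2 +
          (d' : ZMod q) * (b : ZMod q) ^ 2 = 0))) := by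
  unfold bad2
  rw [← ZMod.intCast_zmod_eq_zero_iff_dvd, ← ZMod.intCast_zmod_eq_zero_iff_dvd,
    ← ZMod.intCast_zmod_eq_zero_iff_dvd]
  push_cast
  rfl

theorem bad2_per (d d' z b : ℕ) (A0 E0 : ℤ) (q : ℕ) (x : ℕ × ℕ) :
    bad2 d d' z b A0 E0 q x ↔ bad2 d d' z b A0 E0 q (x.1 % q, x.2 % q) := by
  rw [bad2_iff, bad2_iff]
  simp only [ZMod.natCast_mod]

theorem rho2_card (d d' z b : ℕ) (A0 E0 : ℤ) (q : ℕ) [Fact q.Prime] :
    rho2 (bad2 d d' z b A0 E0) q =
      #((univ : Finset (ZMod q × ZMod q)).filter (fun x => x ∈ E1 (q := q) d (b : ZMod q) ∨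
        (q < z ∧ (x ∈ E2 (q := q) d (b : ZMod q) ∨ x ∈ E3 (q := q) d d' (b : ZMod q))))) := by
  classical
  unfold rho2
  refine Finset.card_bij' (fun x _ => ((A0 : ZMod q) + x.1, (E0 : ZMod q) + x.2))
    (fun y _ => ((y.1 - (A0 : ZMod q)).val, (y.2 - (E0 : ZMod q)).val)) ?_ ?_ ?_ ?_
  · intro x hx
    simp only [Finset.mem_filter, Finset.mem_product, Finset.mem_range] at hx
    have h := (bad2_iff d d' z b A0 E0 q x).1 hx.2
    simp only [Finset.mem_filter, Finset.mem_univ, true_and, E1, E2, E3]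
    exact h
  · intro y hy
    simp only [Finset.mem_filter, Finset.mem_univ, true_and, E1, E2, E3] at hy
    simp only [Finset.mem_filter, Finset.mem_product, Finset.mem_range]
    refine ⟨⟨ZMod.val_lt _, ZMod.val_lt _⟩, ?_⟩
    rw [bad2_iff]
    simp only [ZMod.natCast_zmod_val, add_sub_cancel]
    exact hy
  · intro x hx
    simp only [Finset.mem_filter, Finset.mem_product, Finset.mem_range] at hx
    simp only [add_sub_cancel_left]
    rw [ZMod.val_cast_of_lt hx.1.1, ZMod.val_cast_of_lt hx.1.2]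
  · intro y _
    simp only [ZMod.natCast_zmod_val, add_sub_cancel]

theorem ne_of_not_dvd {q b : ℕ} (h : ¬ q ∣ b) : (b : ZMod q) ≠ 0 := by
  rwa [Ne, ZMod.natCast_eq_zero_iff]

/-- hypotheses on the pair `(d, d')` -/
def Pair (d d' : ℕ) : Prop := (d = 1 ∧ d' = 3) ∨ (d = 3 ∧ d' = 1)

theorem pair_ne {d d' q : ℕ} (h : Pair d d') (hq : q.Prime) (h5 : 5 ≤ q) :
    (2 : ZMod q) ≠ 0 ∧ (d : ZMod q) ≠ 0 ∧ (d' : ZMod q) ≠ 0 ∧ (d : ZMod q) ≠ (d' : ZMod q) := by
  have h2 : (2 : ZMod q) ≠ 0 := by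
    intro h
    have : q ∣ 2 := (ZMod.natCast_eq_zero_iff 2 q).1 (by exact_mod_cast h)
    have := Nat.le_of_dvd (by norm_num) this
    omega
  have h3 : (3 : ZMod q) ≠ 0 := by
    intro h
    have : q ∣ 3 := (ZMod.natCast_eq_zero_iff 3 q).1 (by exact_mod_cast h)
    have := Nat.le_of_dvd (by norm_num) this
    omega
  haveI : Fact q.Prime := ⟨hq⟩
  rcases h with ⟨rfl, rfl⟩ | ⟨rfl, rfl⟩
  · refine ⟨h2, by simp, by exact_mod_cast h3, ?_⟩
    push_cast
    intro h
    apply h2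
    linear_combination -h
  · refine ⟨h2, by exact_mod_cast h3, by simp, ?_⟩
    push_cast
    intro h
    apply h2
    linear_combination h

/-- lower bound for the density below `z` -/
theorem rho2_ge_lt {d d' z b : ℕ} (hdd : Pair d d') (A0 E0 : ℤ) {q : ℕ} (hq : q.Prime)
    (h5 : 5 ≤ q) (hqb : ¬ q ∣ b) (hqz : q < z) :
    (2 * nu d q + nu d' q) * q ≤ rho2 (bad2 d d' z b A0 E0) q + 8 := by
  classical
  haveI : Fact q.Prime := ⟨hq⟩
  obtain ⟨h2, hd, hd', hne⟩ := pair_ne hdd hq h5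
  refine (card_union_ge (b := (b : ZMod q)) (ne_of_not_dvd hqb) h2 hd hne).trans ?_
  rw [rho2_card]
  apply Nat.add_le_add_right
  apply Finset.card_le_card
  intro x hx
  simp only [Finset.mem_filter, Finset.mem_univ, true_and]
  rw [Finset.mem_union, Finset.mem_union] at hx
  rcases hx with (h | h) | h
  · exact Or.inl h
  · exact Or.inr ⟨hqz, Or.inl h⟩
  · exact Or.inr ⟨hqz, Or.inr h⟩

theorem rho2_ge {d d' z b : ℕ} (A0 E0 : ℤ) {q : ℕ} (hq : q.Prime)
    (hqb : ¬ q ∣ b) : nu d q * q ≤ rho2 (bad2 d d' z b A0 E0) q := by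
  classical
  haveI : Fact q.Prime := ⟨hq⟩
  rw [rho2_card, ← card_E1 (d := d) (b := (b : ZMod q)) (ne_of_not_dvd hqb)]
  apply Finset.card_le_card
  intro x hx
  simp only [Finset.mem_filter, Finset.mem_univ, true_and]
  exact Or.inl hx

theorem rho2_le {d d' z b : ℕ} (hdd : Pair d d') (A0 E0 : ℤ) {q : ℕ} (hq : q.Prime)
    (h5 : 5 ≤ q) (hqb : ¬ q ∣ b) : rho2 (bad2 d d' z b A0 E0) q ≤ 6 * q := by
  classical
  haveI : Fact q.Prime := ⟨hq⟩
  obtain ⟨h2, hd, hd', hne⟩ := pair_ne hdd hq h5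
  refine le_trans ?_ (card_union_le (b := (b : ZMod q)) (ne_of_not_dvd hqb) hne)
  rw [rho2_card]
  apply Finset.card_le_card
  intro x hx
  simp only [Finset.mem_filter, Finset.mem_univ, true_and] at hx
  rw [Finset.mem_union, Finset.mem_union]
  rcases hx with h | ⟨_, h | h⟩
  · exact Or.inl (Or.inl h)
  · exact Or.inl (Or.inr h)
  · exact Or.inr h

end Pool.Agent.Work.MP_2dba45_nt.Loc
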