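import Mathlib
import Pool.Agent.Work.MP_2dba45_nt.Loc

set_option autoImplicit false

namespace Pool.Agent.Work.MP_2dba45_nt.Rep

open Finset Pool.Agent.Work.MP_2dba45_nt.TwoD Pool.Agent.Work.MP_2dba45_nt.Nu
  Pool.Agent.Work.MP_2dba45_nt.Loc

/-- Thue's lemma -/
theorem thue (p : ℕ) (hp : p.Prime) (m : ℤ) :
    ∃ x y : ℤ, (x, y) ≠ (0, 0) ∧ x ^ 2 < p ∧ y ^ 2 < p ∧ (p : ℤ) ∣ x - m * y := by
  haveI : Fact p.Prime := ⟨hp⟩
  set s := Nat.sqrt p with hs
  have hs1 : s * s ≤ p := Nat.sqrt_le p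
  have hs2 : p < (s + 1) * (s + 1) := Nat.lt_succ_sqrt p
  have hs3 : s * s ≠ p := by
    intro h
    exact (Nat.prime_iff.1 hp).irreducible.not_isSquare ⟨s, h.symm⟩
  have hs4 : s * s < p := lt_of_le_of_ne hs1 hs3
  have hcard : #(univ : Finset (ZMod p)) < #(range (s + 1) ×ˢ range (s + 1)) := by
    rw [Finset.card_product, Finset.card_range, Finset.card_univ, ZMod.card]
    exact hs2
  obtain ⟨⟨u, v⟩, hx, ⟨u', v'⟩, hy, hne, heq⟩ :=
    Finset.exists_ne_map_eq_of_card_lt_of_maps_to hcard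
      (f := fun x : ℕ × ℕ => (x.1 : ZMod p) - (m : ZMod p) * x.2) (fun _ _ => Finset.mem_univ _)
  simp only [Finset.mem_product, Finset.mem_range] at hx hy
  simp only at heq
  have bound : ∀ a b : ℕ, a < s + 1 → b < s + 1 → ((a : ℤ) - b) ^ 2 < p := by
    intro a b ha hb
    have h1 : |(a : ℤ) - b| ≤ s := by
      rw [abs_le]
      constructor <;> omega
    calc ((a : ℤ) - b) ^ 2 = |(a : ℤ) - b| ^ 2 := (sq_abs _).symm
      _ ≤ (s : ℤ) ^ 2 := by gcongr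
      _ < p := by rw [sq]; exact_mod_cast hs4
  refine ⟨(u : ℤ) - u', (v : ℤ) - v', ?_, bound _ _ hx.1 hy.1, bound _ _ hx.2 hy.2, ?_⟩
  · intro h
    simp only [Prod.mk.injEq] at h
    apply hne
    rw [Prod.mk.injEq]
    constructor <;> omega
  · rw [← ZMod.intCast_zmod_eq_zero_iff_dvd]
    push_cast
    linear_combination heq

theorem prime_not_sq (p : ℕ) (hp : p.Prime) (x : ℤ) : x ^ 2 ≠ p := by
  intro h
  have h1 : x.natAbs * x.natAbs = p := by
    have : (x.natAbs : ℤ) * (x.natAbs : ℤ) = p := by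
      rw [Int.natAbs_mul_self' x, ← h]; ring
    exact_mod_cast this
  exact (Nat.prime_iff.1 hp).irreducible.not_isSquare ⟨x.natAbs, h1.symm⟩

/-- from a signed representation to one with positive second coordinate -/
theorem fix_sign {d m p : ℕ} (hp : p.Prime) {x y : ℤ} (h1 : x ^ 2 + d * y ^ 2 = p)
    (h2 : (p : ℤ) ∣ x - m * y) :
    ∃ (a e : ℤ) (b : ℕ), 0 < b ∧ a ^ 2 + d * (b : ℤ) ^ 2 = p ∧ a = e * p + m * b := by
  obtain ⟨e, he⟩ := h2
  have hy : y ≠ 0 := by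
    rintro rfl
    apply prime_not_sq p hp x
    rw [← h1]; ring
  rcases lt_trichotomy y 0 with h | h | h
  · refine ⟨-x, -e, y.natAbs, Int.natAbs_pos.2 hy, ?_, ?_⟩
    · rw [Int.natAbs_sq, neg_sq]; exact h1
    · have : (y.natAbs : ℤ) = -y := by omega
      rw [this]
      linear_combination -he
  · exact absurd h hy
  · refine ⟨x, e, y.natAbs, Int.natAbs_pos.2 hy, ?_, ?_⟩
    · rw [Int.natAbs_sq]; exact h1
    · have : (y.natAbs : ℤ) = y := by omega
      rw [this]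
      linear_combination he

theorem rep {d m p : ℕ} (hd : d = 1 ∨ d = 3) (hp : p.Prime) (h5 : 5 ≤ p) (hdvd : p ∣ m ^ 2 + d) :
    ∃ (a e : ℤ) (b : ℕ), 0 < b ∧ a ^ 2 + d * (b : ℤ) ^ 2 = p ∧ a = e * p + m * b := by
  obtain ⟨x, y, hne, hx, hy, hxy⟩ := thue p hp m
  have hdvd' : (p : ℤ) ∣ (m : ℤ) ^ 2 + d := by exact_mod_cast hdvd
  have hk : (p : ℤ) ∣ x ^ 2 + d * y ^ 2 := by
    have : x ^ 2 + d * y ^ 2 = (x - m * y) * (x + m * y) + ((m : ℤ) ^ 2 + d) * y ^ 2 := by ring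
    rw [this]
    exact dvd_add (Dvd.dvd.mul_right hxy _) (Dvd.dvd.mul_right hdvd' _)
  obtain ⟨k, hk⟩ := hk
  have hp0 : (0 : ℤ) < p := by exact_mod_cast hp.pos
  have hpos : 0 < x ^ 2 + d * y ^ 2 := by
    have hd0 : (0 : ℤ) < d := by rcases hd with rfl | rfl <;> norm_num
    by_cases hx0 : x = 0
    · have hy0 : y ≠ 0 := by
        rintro rfl
        exact hne (by rw [hx0])
      have : 0 < y ^ 2 := by positivity
      have : 0 < (d : ℤ) * y ^ 2 := by positivity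
      nlinarith [sq_nonneg x]
    · have : 0 < x ^ 2 := by positivity
      have : 0 ≤ (d : ℤ) * y ^ 2 := by positivity
      linarith
  rcases hd with rfl | rfl
  · have hk1 : k = 1 := by
      push_cast at hk hpos
      have h1 : k < 2 := by
        by_contra h
        push Not at h
        nlinarith
      have h2 : 0 < k := by
        by_contra h
        push Not at h
        nlinarith
      omega
    apply fix_sign hp (x := x) (y := y) _ hxy
    rw [hk, hk1, mul_one]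
  · push_cast at hk hpos
    have h1 : k < 4 := by
      by_contra h
      push Not at h
      nlinarith
    have h2 : 0 < k := by
      by_contra h
      push Not at h
      nlinarith
    have hpodd : (p : ℤ) % 2 = 1 := by
      rcases hp.eq_two_or_odd with h | h <;> omega
    have h3 : k = 1 ∨ k = 2 ∨ k = 3 := by omega
    rcases h3 with rfl | rfl | rfl
    · apply fix_sign hp (x := x) (y := y) _ hxy
      push_cast
      rw [hk, mul_one]
    · exfalso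
      have e1 : (x ^ 2 + 3 * y ^ 2) % 4 = 2 := by
        rw [hk]; omega
      have e2 : x % 4 = 0 ∨ x % 4 = 1 ∨ x % 4 = 2 ∨ x % 4 = 3 := by omega
      have e3 : y % 4 = 0 ∨ y % 4 = 1 ∨ y % 4 = 2 ∨ y % 4 = 3 := by omega
      rcases e2 with h | h | h | h <;> rcases e3 with h' | h' | h' | h' <;>
        simp [pow_two, Int.add_emod, Int.mul_emod, h, h'] at e1
    · have h3x : (3 : ℤ) ∣ x := by
        have : (3 : ℤ) ∣ x ^ 2 := ⟨p - y ^ 2, by linarith⟩
        exact Int.prime_three.dvd_of_dvd_pow this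
      obtain ⟨x', rfl⟩ := h3x
      have hrep : y ^ 2 + 3 * x' ^ 2 = p := by linarith
      have hc : (p : ℤ) ∣ -y - m * x' := by
        have h6 : (p : ℤ) ∣ 3 * (-y - m * x') := by
          have : 3 * (-y - m * x') = -m * (3 * x' - m * y) - ((m : ℤ) ^ 2 + 3) * y := by ring
          rw [this]
          exact dvd_sub (Dvd.dvd.mul_left hxy _) (Dvd.dvd.mul_right (by exact_mod_cast hdvd') _)
        have hcop : IsCoprime (p : ℤ) 3 := by
          have : Nat.Coprime p 3 := by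
            rw [Nat.coprime_primes hp Nat.prime_three]; omega
          exact_mod_cast Nat.isCoprime_iff_coprime.2 this
        exact hcop.dvd_of_dvd_mul_left h6
      apply fix_sign hp (x := -y) (y := x') _ hc
      push_cast
      linarith

/-- roughness -/
def Rough (z m : ℕ) : Prop := ∀ q : ℕ, q.Prime → q < z → ¬ q ∣ (m ^ 2 + 1) * (m ^ 2 + 3)

theorem rough_pair {d d' z m : ℕ} (hdd : Pair d d') (h : Rough z m) {q : ℕ} (hq : q.Prime)
    (hqz : q < z) : ¬ q ∣ m ^ 2 + d ∧ ¬ q ∣ m ^ 2 + d' := by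
  have h1 := h q hq hqz
  rcases hdd with ⟨rfl, rfl⟩ | ⟨rfl, rfl⟩
  · exact ⟨fun h => h1 (Dvd.dvd.mul_right h _), fun h => h1 (Dvd.dvd.mul_left h _)⟩
  · exact ⟨fun h => h1 (Dvd.dvd.mul_left h _), fun h => h1 (Dvd.dvd.mul_right h _)⟩

/-- bound for the second coordinate -/
def Eb (N P R b : ℕ) : ℕ := (R + 2 * N * b) / P

open Classical in
theorem mem_aux {d d' : ℕ} (hdd : Pair d d') (N P z z' R : ℕ) (hP : 5 ≤ P) (hz' : z' ≤ P)
    (hR : 2 * P < (R + 1) ^ 2) (Pb : ℕ → Finset ℕ)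
    (hPb : ∀ b, ∀ q ∈ Pb b, q.Prime ∧ q < z' ∧ ¬ q ∣ b) {m p : ℕ} (hm : m ≤ 2 * N)
    (hp : P < p ∧ p ≤ 2 * P) (hrough : Rough z m) (hprime : p.Prime) (hdvd : p ∣ m ^ 2 + d)
    {a e : ℤ} {b : ℕ} (h1 : 0 < b) (h2 : a ^ 2 + d * (b : ℤ) ^ 2 = p) (h3 : a = e * p + m * b) :
    b ≤ R ∧ |a| ≤ R ∧ |e| ≤ Eb N P R b ∧
    ((a + R).toNat, (e + Eb N P R b).toNat) ∈
      (TwoD.box b (-(R : ℤ)) (-(Eb N P R b : ℤ)) (2 * R + 1) (2 * Eb N P R b + 1)).filter
        (fun x => ∀ q ∈ Pb b, ¬ bad2 d d' z b (-(R : ℤ)) (-(Eb N P R b : ℤ)) q x) := by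
  have hd : d = 1 ∨ d = 3 := by rcases hdd with ⟨h, _⟩ | ⟨h, _⟩ <;> omega
  have hd1 : (1 : ℤ) ≤ d := by rcases hd with rfl | rfl <;> norm_num
  have hP2 : (p : ℤ) ≤ 2 * P := by exact_mod_cast hp.2
  have hP1 : (P : ℤ) < p := by exact_mod_cast hp.1
  have hR' : 2 * (P : ℤ) < (R + 1) ^ 2 := by exact_mod_cast hR
  have hb0 : (0 : ℤ) < b := by exact_mod_cast h1
  have hbR : b ≤ R := by
    by_contra hcon
    push Not at hcon
    have : (R : ℤ) + 1 ≤ b := by exact_mod_cast hcon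
    nlinarith [sq_nonneg a]
  have haR : |a| ≤ R := by
    by_contra hcon
    push Not at hcon
    have h4 : (R : ℤ) + 1 ≤ |a| := by omega
    have h5 : a ^ 2 = |a| ^ 2 := (sq_abs a).symm
    have h6 : 0 ≤ (d : ℤ) * (b : ℤ) ^ 2 := by positivity
    nlinarith
  have heE : |e| ≤ Eb N P R b := by
    have h4 : |e| * P ≤ R + 2 * N * b := by
      have h5 : e * p = a - m * b := by linarith
      have h6 : |e| * p = |a - m * b| := by
        rw [← h5, abs_mul, Nat.abs_cast]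
      have h7 : |a - m * b| ≤ |a| + m * b := by
        refine (abs_sub _ _).trans ?_
        rw [abs_mul, Nat.abs_cast, Nat.abs_cast]
      have h8 : (m : ℤ) ≤ 2 * N := by exact_mod_cast hm
      have h9 : (m : ℤ) * b ≤ 2 * N * b := by gcongr
      have h10 : |e| * P ≤ |e| * p := by
        apply mul_le_mul_of_nonneg_left hP1.le (abs_nonneg _)
      linarith
    unfold Eb
    have hPpos : (0 : ℤ) < P := by omega
    push_cast
    rw [Int.le_ediv_iff_mul_le hPpos]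
    exact h4
  have ha1 := abs_le.1 haR
  have he1 := abs_le.1 heE
  have c1 : (((a + R).toNat : ℕ) : ℤ) = a + R := Int.toNat_of_nonneg (by omega)
  have c2 : (((e + Eb N P R b).toNat : ℕ) : ℤ) = e + Eb N P R b :=
    Int.toNat_of_nonneg (by omega)
  have hae : (b : ℤ) ∣ a * e - 1 := by
    have hp0 : (p : ℤ) ≠ 0 := by omega
    obtain ⟨k, hk⟩ : (p : ℤ) ∣ (m : ℤ) ^ 2 + d := by exact_mod_cast hdvd
    refine ⟨-(m * e + k * b), ?_⟩
    apply mul_left_cancel₀ hp0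
    linear_combination h2 - (a + m * b) * h3 - (b : ℤ) ^ 2 * hk
  have g1 : (-(R : ℤ)) + (((a + R).toNat : ℕ) : ℤ) = a := by rw [c1]; ring
  have g2 : (-(Eb N P R b : ℤ)) + (((e + Eb N P R b).toNat : ℕ) : ℤ) = e := by
    rw [c2]; ring
  refine ⟨hbR, haR, heE, ?_⟩
  simp only [Finset.mem_filter, TwoD.box, Finset.mem_product, Finset.mem_range]
  refine ⟨⟨⟨?_, ?_⟩, ?_⟩, ?_⟩
  · omega
  · omega
  · have f1 : (((a + R).toNat : ℕ) : ZMod b) = ((a + R : ℤ) : ZMod b) := by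
      rw [← c1]; push_cast; rfl
    have f2 : (((e + Eb N P R b).toNat : ℕ) : ZMod b) = ((e + Eb N P R b : ℤ) : ZMod b) := by
      rw [← c2]; push_cast; rfl
    rw [f1, f2]
    push_cast
    have f3 : (a : ZMod b) * (e : ZMod b) = 1 := by
      have := (ZMod.intCast_zmod_eq_zero_iff_dvd (a * e - 1) b).2 hae
      push_cast at this
      linear_combination this
    linear_combination f3
  · intro q hq hbad
    obtain ⟨hqp, hqz', hqb⟩ := hPb b q hq
    have hqb' : ¬ (q : ℤ) ∣ (b : ℤ) := by exact_mod_cast hqb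
    have hqprime : Prime (q : ℤ) := Nat.prime_iff_prime_int.1 hqp
    unfold bad2 at hbad
    simp only [g1, g2] at hbad
    have e6 : e * p = a - m * b := by linarith
    rcases hbad with h4 | ⟨hqz, h4 | h4⟩
    · rw [h2] at h4
      have h5 : q ∣ p := by exact_mod_cast h4
      have := (Nat.prime_dvd_prime_iff_eq hqp hprime).1 h5
      omega
    · obtain ⟨hr1, hr2⟩ := rough_pair hdd hrough hqp hqz
      have key : (p : ℤ) * ((1 - a * e) ^ 2 + d * (b : ℤ) ^ 2 * e ^ 2) =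
          (b : ℤ) ^ 2 * ((m : ℤ) ^ 2 + d) := by
        have k1 : (p : ℤ) * ((1 - a * e) ^ 2 + d * (b : ℤ) ^ 2 * e ^ 2) =
            p - 2 * a * (e * p) + (a ^ 2 + d * (b : ℤ) ^ 2) * e * (e * p) := by ring
        have k2 : (p : ℤ) * e * (e * p) = (e * p) ^ 2 := by ring
        rw [k1, h2, k2, e6]
        linear_combination -h2
      have h5 : (q : ℤ) ∣ (b : ℤ) ^ 2 * ((m : ℤ) ^ 2 + d) := by
        rw [← key]; exact Dvd.dvd.mul_left h4 _
      rcases hqprime.dvd_or_dvd h5 with h6 | h6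
      · exact hqb' (hqprime.dvd_of_dvd_pow h6)
      · exact hr1 (by exact_mod_cast h6)
    · obtain ⟨hr1, hr2⟩ := rough_pair hdd hrough hqp hqz
      have key : (a - e * (a ^ 2 + d * (b : ℤ) ^ 2)) ^ 2 + d' * (b : ℤ) ^ 2 =
          (b : ℤ) ^ 2 * ((m : ℤ) ^ 2 + d') := by
        rw [h2]
        have e7 : a - e * p = m * b := by linarith
        rw [e7]; ring
      rw [key] at h4
      rcases hqprime.dvd_or_dvd h4 with h6 | h6
      · exact hqb' (hqprime.dvd_of_dvd_pow h6)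
      · exact hr2 (by exact_mod_cast h6)

open Classical in
theorem block_le {d d' : ℕ} (hdd : Pair d d') (N P z z' R : ℕ) (hP : 5 ≤ P) (hz' : z' ≤ P)
    (hR : 2 * P < (R + 1) ^ 2) (Pb : ℕ → Finset ℕ)
    (hPb : ∀ b, ∀ q ∈ Pb b, q.Prime ∧ q < z' ∧ ¬ q ∣ b) :
    #(((Ioc N (2 * N)) ×ˢ (Ioc P (2 * P))).filter
      (fun x : ℕ × ℕ => Rough z x.1 ∧ x.2.Prime ∧ x.2 ∣ x.1 ^ 2 + d)) ≤
    ∑ b ∈ Icc 1 R, Sel.sift (TwoD.box b (-(R : ℤ)) (-(Eb N P R b : ℤ)) (2 * R + 1)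
      (2 * Eb N P R b + 1)) (bad2 d d' z b (-(R : ℤ)) (-(Eb N P R b : ℤ))) (Pb b) := by
  have hd : d = 1 ∨ d = 3 := by rcases hdd with ⟨h, _⟩ | ⟨h, _⟩ <;> omega
  set S := ((Ioc N (2 * N)) ×ˢ (Ioc P (2 * P))).filter
      (fun x : ℕ × ℕ => Rough z x.1 ∧ x.2.Prime ∧ x.2 ∣ x.1 ^ 2 + d) with hS
  have hrep : ∀ x ∈ S, ∃ (t : ℤ × ℤ × ℕ), 0 < t.2.2 ∧
      t.1 ^ 2 + d * (t.2.2 : ℤ) ^ 2 = x.2 ∧ t.1 = t.2.1 * x.2 + x.1 * t.2.2 := by
    intro x hx
    simp only [hS, Finset.mem_filter, Finset.mem_product, Finset.mem_Ioc] at hx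
    obtain ⟨a, e, b, h1, h2, h3⟩ := rep (m := x.1) hd hx.2.2.1 (by omega) hx.2.2.2
    exact ⟨(a, e, b), h1, h2, h3⟩
  choose! t ht using hrep
  rw [show ∑ b ∈ Icc 1 R, Sel.sift
      (TwoD.box b (-(R : ℤ)) (-(Eb N P R b : ℤ)) (2 * R + 1) (2 * Eb N P R b + 1))
      (bad2 d d' z b (-(R : ℤ)) (-(Eb N P R b : ℤ))) (Pb b) =
      #((Icc 1 R).sigma (fun b => (TwoD.box b (-(R : ℤ)) (-(Eb N P R b : ℤ)) (2 * R + 1)
        (2 * Eb N P R b + 1)).filter
          (fun x => ∀ q ∈ Pb b, ¬ bad2 d d' z b (-(R : ℤ)) (-(Eb N P R b : ℤ)) q x))) by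
    rw [Finset.card_sigma]; rfl]
  have haux : ∀ x ∈ S, (t x).2.2 ≤ R ∧ |(t x).1| ≤ R ∧ |(t x).2.1| ≤ Eb N P R (t x).2.2 ∧
      (((t x).1 + R).toNat, ((t x).2.1 + Eb N P R (t x).2.2).toNat) ∈
      (TwoD.box (t x).2.2 (-(R : ℤ)) (-(Eb N P R (t x).2.2 : ℤ)) (2 * R + 1)
        (2 * Eb N P R (t x).2.2 + 1)).filter
        (fun y => ∀ q ∈ Pb (t x).2.2,
          ¬ bad2 d d' z (t x).2.2 (-(R : ℤ)) (-(Eb N P R (t x).2.2 : ℤ)) q y) := by
    intro x hx
    obtain ⟨h1, h2, h3⟩ := ht x hx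
    simp only [hS, Finset.mem_filter, Finset.mem_product, Finset.mem_Ioc] at hx
    obtain ⟨⟨hm, hp⟩, hrough, hprime, hdvd⟩ := hx
    exact mem_aux hdd N P z z' R hP hz' hR Pb hPb hm.2 hp hrough hprime hdvd h1 h2 h3
  apply Finset.card_le_card_of_injOn (fun x => (⟨(t x).2.2, (((t x).1 + R).toNat,
    ((t x).2.1 + Eb N P R (t x).2.2).toNat)⟩ : (_ : ℕ) × (ℕ × ℕ)))
  · intro x hx
    rw [Finset.mem_coe] at hx
    obtain ⟨h1, h2, h3, h4⟩ := haux x hx
    have h5 := (ht x hx).1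
    rw [Finset.mem_coe, Finset.mem_sigma]
    refine ⟨?_, h4⟩
    rw [Finset.mem_Icc]
    exact ⟨h5, h1⟩
  · intro x hx y hy hxy
    rw [Finset.mem_coe] at hx hy
    obtain ⟨hx1, hx2, hx3, _⟩ := haux x hx
    obtain ⟨hy1, hy2, hy3, _⟩ := haux y hy
    obtain ⟨px1, px2, px3⟩ := ht x hx
    obtain ⟨py1, py2, py3⟩ := ht y hy
    simp only [Sigma.mk.injEq, heq_eq_eq, Prod.mk.injEq] at hxy
    obtain ⟨hb, ha, he⟩ := hxy
    rw [← hb] at he hy3 py1 py2 py3
    have hx2' := abs_le.1 hx2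
    have hy2' := abs_le.1 hy2
    have hx3' := abs_le.1 hx3
    have hy3' := abs_le.1 hy3
    have ha' : (t x).1 = (t y).1 := by omega
    have he' : (t x).2.1 = (t y).2.1 := by omega
    have hp : (x.2 : ℤ) = y.2 := by rw [← px2, ← py2, ha']
    have hp' : x.2 = y.2 := by exact_mod_cast hp
    have hm : (x.1 : ℤ) * ((t x).2.2 : ℤ) = y.1 * ((t x).2.2 : ℤ) := by
      rw [ha', he', hp] at px3
      linarith
    have hb0 : ((t x).2.2 : ℤ) ≠ 0 := by exact_mod_cast px1.ne'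
    have hm' : (x.1 : ℤ) = y.1 := mul_right_cancel₀ hb0 hm
    have hm'' : x.1 = y.1 := by exact_mod_cast hm'
    exact Prod.ext hm'' hp'

end Pool.Agent.Work.MP_2dba45_nt.Rep
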