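import Mathlib
import Pool.Agent.Work.MP_2dba45_nt.VV
import Pool.Agent.Work.MP_2dba45_nt.Rep
import Pool.Agent.Work.MP_2dba45_nt.DivB

set_option autoImplicit false

namespace Pool.Agent.Work.MP_2dba45_nt.Block

open Finset Pool.Agent.Work.MP_2dba45_nt.TwoD Pool.Agent.Work.MP_2dba45_nt.Nu
  Pool.Agent.Work.MP_2dba45_nt.Loc Pool.Agent.Work.MP_2dba45_nt.VV
  Pool.Agent.Work.MP_2dba45_nt.Psum Pool.Agent.Work.MP_2dba45_nt.Rep

/-- averages of multiplicative weights over divisors -/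
theorem sum_kappa (PQ : Finset ℕ) (hPQ : ∀ q ∈ PQ, q.Prime) (h : ℕ → ℝ) (hh : ∀ q, 0 ≤ h q)
    (R : ℕ) (w : ℕ → ℝ) (W : ℝ)
    (hW : ∀ D : ℕ, 0 < D → ∑ b ∈ (Icc 1 R).filter (fun b => D ∣ b), w b ≤ W / D) :
    ∑ b ∈ Icc 1 R, (∏ q ∈ PQ.filter (fun q => q ∣ b), (1 + h q)) * w b ≤
      W * ∏ q ∈ PQ, (1 + h q / q) := by
  have h1 : ∀ b ∈ Icc 1 R, (∏ q ∈ PQ.filter (fun q => q ∣ b), (1 + h q)) * w b =
      ∑ S ∈ PQ.powerset, (if (∏ q ∈ S, q) ∣ b then (∏ q ∈ S, h q) * w b else 0) := by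
    intro b _
    rw [Finset.prod_one_add, Finset.sum_mul, ← Finset.sum_filter]
    apply Finset.sum_congr _ (fun _ _ => rfl)
    ext S
    simp only [Finset.mem_powerset, Finset.mem_filter]
    constructor
    · intro hS
      have hS' : S ⊆ PQ := hS.trans (Finset.filter_subset _ _)
      refine ⟨hS', ?_⟩
      apply Finset.prod_primes_dvd
      · intro q hq; exact (hPQ q (hS' hq)).prime
      · intro q hq; exact (Finset.mem_filter.1 (hS hq)).2
    · rintro ⟨hS, hd⟩ q hq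
      rw [Finset.mem_filter]
      exact ⟨hS hq, (Finset.dvd_prod_of_mem _ hq).trans hd⟩
  rw [Finset.sum_congr rfl h1, Finset.sum_comm]
  calc ∑ S ∈ PQ.powerset, ∑ b ∈ Icc 1 R, (if (∏ q ∈ S, q) ∣ b then (∏ q ∈ S, h q) * w b else 0)
      ≤ ∑ S ∈ PQ.powerset, (∏ q ∈ S, h q) * (W / ((∏ q ∈ S, q : ℕ) : ℝ)) := by
        refine Finset.sum_le_sum fun S hS => ?_
        rw [← Finset.sum_filter, ← Finset.mul_sum]
        apply mul_le_mul_of_nonneg_left _ (Finset.prod_nonneg fun q _ => hh q)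
        apply hW
        exact Finset.prod_pos fun q hq => (hPQ q (Finset.mem_powerset.1 hS hq)).pos
    _ = W * ∏ q ∈ PQ, (1 + h q / q) := by
        rw [Finset.prod_one_add, Finset.mul_sum]
        refine Finset.sum_congr rfl fun S _ => ?_
        rw [Finset.prod_div_distrib]
        push_cast
        ring

theorem weight_one (R : ℕ) (D : ℕ) (hD : 0 < D) :
    ∑ b ∈ (Icc 1 R).filter (fun b => D ∣ b), (1 : ℝ) ≤ (R : ℝ) / D := by
  rw [Finset.sum_const, nsmul_eq_mul, mul_one]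
  have : (Icc 1 R).filter (fun b => D ∣ b) = (Ioc 0 R).filter (fun b => D ∣ b) := by
    congr 1
  rw [this, Nat.Ioc_filter_dvd_card_eq_div]
  exact Nat.cast_div_le

theorem weight_inv (R : ℕ) (hR : 1 ≤ R) (D : ℕ) (hD : 0 < D) :
    ∑ b ∈ (Icc 1 R).filter (fun b => D ∣ b), 1 / (b : ℝ) ≤ (1 + Real.log R) / D := by
  have hD' : (0 : ℝ) < D := by exact_mod_cast hD
  have hinj : Set.InjOn (fun b => b / D - 1)
      ((Icc 1 R).filter (fun b => D ∣ b) : Finset ℕ) := by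
    intro x hx y hy hxy
    simp only [Finset.coe_filter, Finset.mem_Icc, Set.mem_ofPred_eq] at hx hy
    obtain ⟨⟨hx1, hx2⟩, ⟨x', rfl⟩⟩ := hx
    obtain ⟨⟨hy1, hy2⟩, ⟨y', rfl⟩⟩ := hy
    simp only [Nat.mul_div_cancel_left _ hD] at hxy
    have : x' ≠ 0 := by rintro rfl; simp at hx1
    have : y' ≠ 0 := by rintro rfl; simp at hy1
    have : x' = y' := by omega
    rw [this]
  have hval : ∀ b ∈ (Icc 1 R).filter (fun b => D ∣ b),
      1 / (b : ℝ) = (((b / D - 1) + 1 : ℕ) : ℝ)⁻¹ / D := by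
    intro j hj
    simp only [Finset.mem_filter, Finset.mem_Icc] at hj
    obtain ⟨⟨hj1, hj2⟩, ⟨j', rfl⟩⟩ := hj
    have hj' : j' ≠ 0 := by rintro rfl; simp at hj1
    rw [Nat.mul_div_cancel_left _ hD, Nat.sub_add_cancel (Nat.pos_of_ne_zero hj')]
    have : (j' : ℝ) ≠ 0 := by positivity
    push_cast
    field_simp
  rw [Finset.sum_congr rfl hval, ← Finset.sum_div,
    ← Finset.sum_image (f := fun i : ℕ => ((i + 1 : ℕ) : ℝ)⁻¹) hinj]
  gcongr
  calc ∑ i ∈ ((Icc 1 R).filter (fun b => D ∣ b)).image (fun b => b / D - 1), ((i + 1 : ℕ) : ℝ)⁻¹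
      ≤ ∑ i ∈ range R, ((i + 1 : ℕ) : ℝ)⁻¹ := by
        apply Finset.sum_le_sum_of_subset_of_nonneg
        · intro i hi
          rw [Finset.mem_image] at hi
          obtain ⟨j, hj, rfl⟩ := hi
          simp only [Finset.mem_filter, Finset.mem_Icc] at hj
          rw [Finset.mem_range]
          have : j / D ≤ j := Nat.div_le_self _ _
          omega
        · intro i _ _
          positivity
    _ = ((harmonic R : ℚ) : ℝ) := by
        rw [harmonic]; push_cast; rfl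
    _ ≤ 1 + Real.log R := harmonic_le_one_add_log R

theorem kap_le : ∃ C : ℝ, 0 < C ∧ ∀ b : ℕ, 0 < b → kap b ≤ C * (b : ℝ) ^ (-(1 / 8) : ℝ) := by
  obtain ⟨C, hC1, hC⟩ := DivB.card_divisors_le 48 (by norm_num)
  refine ⟨2 * C ^ 3 * 33 ^ 2, by positivity, fun b hb => ?_⟩
  have hb1 : (1 : ℝ) ≤ b := by exact_mod_cast hb
  have hb0 : (0 : ℝ) < b := by linarith
  have h1 := hC b hb
  have h2 : 1 + Real.log b ≤ 33 * (b : ℝ) ^ (1 / 32 : ℝ) := by
    have h3 := Real.log_le_rpow_div hb0.le (show (0 : ℝ) < 1 / 32 by norm_num)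
    have h4 : 1 ≤ (b : ℝ) ^ (1 / 32 : ℝ) := Real.one_le_rpow hb1 (by norm_num)
    have h5 : (b : ℝ) ^ (1 / 32 : ℝ) / (1 / 32) = 32 * (b : ℝ) ^ (1 / 32 : ℝ) := by ring
    rw [h5] at h3
    linarith
  have hlog : 0 ≤ Real.log b := Real.log_nonneg hb1
  unfold kap
  calc 2 * (#(b.divisors) : ℝ) ^ 3 * (1 + Real.log b) ^ 2 * (b : ℝ) ^ (-(1 / 4) : ℝ)
      ≤ 2 * (C * (b : ℝ) ^ ((1 : ℝ) / (48 : ℕ))) ^ 3 * (33 * (b : ℝ) ^ (1 / 32 : ℝ)) ^ 2 *
        (b : ℝ) ^ (-(1 / 4) : ℝ) := by gcongr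
    _ = 2 * C ^ 3 * 33 ^ 2 * (((b : ℝ) ^ ((1 : ℝ) / (48 : ℕ))) ^ 3 * ((b : ℝ) ^ (1 / 32 : ℝ)) ^ 2 *
        (b : ℝ) ^ (-(1 / 4) : ℝ)) := by ring
    _ = 2 * C ^ 3 * 33 ^ 2 * (b : ℝ) ^ (-(1 / 8) : ℝ) := by
        congr 1
        rw [← Real.rpow_natCast, ← Real.rpow_natCast, ← Real.rpow_mul hb0.le,
          ← Real.rpow_mul hb0.le, ← Real.rpow_add hb0, ← Real.rpow_add hb0]
        norm_num

theorem sum_rpow_le (R : ℕ) (hR : 1 ≤ R) :
    ∑ b ∈ Icc 1 R, (b : ℝ) ^ (-(1 / 8) : ℝ) ≤ 2 * (R : ℝ) ^ (15 / 16 : ℝ) := by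
  have hR1 : (1 : ℝ) ≤ R := by exact_mod_cast hR
  have hR0 : (0 : ℝ) < R := by linarith
  rw [← Finset.sum_filter_add_sum_filter_not (Icc 1 R) (fun b => b ^ 2 ≤ R)]
  have h1 : ∑ b ∈ (Icc 1 R).filter (fun b => b ^ 2 ≤ R), (b : ℝ) ^ (-(1 / 8) : ℝ) ≤
      (R : ℝ) ^ (15 / 16 : ℝ) := by
    calc ∑ b ∈ (Icc 1 R).filter (fun b => b ^ 2 ≤ R), (b : ℝ) ^ (-(1 / 8) : ℝ)
        ≤ ∑ b ∈ Icc 1 (Nat.sqrt R), (1 : ℝ) := by
          calc _ ≤ ∑ b ∈ (Icc 1 R).filter (fun b => b ^ 2 ≤ R), (1 : ℝ) := by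
                refine Finset.sum_le_sum fun b hb => ?_
                rw [Finset.mem_filter, Finset.mem_Icc] at hb
                apply Real.rpow_le_one_of_one_le_of_nonpos
                · exact_mod_cast hb.1.1
                · norm_num
            _ ≤ _ := by
                apply Finset.sum_le_sum_of_subset_of_nonneg
                · intro b hb
                  rw [Finset.mem_filter, Finset.mem_Icc] at hb
                  rw [Finset.mem_Icc]
                  exact ⟨hb.1.1, Nat.le_sqrt.2 (by rw [← sq]; exact hb.2)⟩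
                · intros; norm_num
      _ = (Nat.sqrt R : ℝ) := by simp
      _ ≤ (R : ℝ) ^ (1 / 2 : ℝ) := by
          rw [← Real.sqrt_eq_rpow]
          exact Real.nat_sqrt_le_real_sqrt
      _ ≤ (R : ℝ) ^ (15 / 16 : ℝ) := Real.rpow_le_rpow_of_exponent_le hR1 (by norm_num)
  have h2 : ∑ b ∈ (Icc 1 R).filter (fun b => ¬ b ^ 2 ≤ R), (b : ℝ) ^ (-(1 / 8) : ℝ) ≤
      (R : ℝ) ^ (15 / 16 : ℝ) := by
    calc ∑ b ∈ (Icc 1 R).filter (fun b => ¬ b ^ 2 ≤ R), (b : ℝ) ^ (-(1 / 8) : ℝ)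
        ≤ ∑ b ∈ (Icc 1 R).filter (fun b => ¬ b ^ 2 ≤ R), (R : ℝ) ^ (-(1 / 16) : ℝ) := by
          refine Finset.sum_le_sum fun b hb => ?_
          rw [Finset.mem_filter, Finset.mem_Icc, not_le] at hb
          have hb0 : (0 : ℝ) < b := by exact_mod_cast hb.1.1
          have h3 : (R : ℝ) ≤ (b : ℝ) ^ (2 : ℝ) := by
            rw [Real.rpow_two]
            exact_mod_cast hb.2.le
          calc (b : ℝ) ^ (-(1 / 8) : ℝ) = ((b : ℝ) ^ (2 : ℝ)) ^ (-(1 / 16) : ℝ) := by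
                rw [← Real.rpow_mul hb0.le]; norm_num
            _ ≤ (R : ℝ) ^ (-(1 / 16) : ℝ) :=
                Real.rpow_le_rpow_of_nonpos hR0 h3 (by norm_num)
      _ ≤ ∑ b ∈ Icc 1 R, (R : ℝ) ^ (-(1 / 16) : ℝ) := by
          apply Finset.sum_le_sum_of_subset_of_nonneg (Finset.filter_subset _ _)
          intros; positivity
      _ = R * (R : ℝ) ^ (-(1 / 16) : ℝ) := by simp
      _ = (R : ℝ) ^ (15 / 16 : ℝ) := by
          rw [← Real.rpow_one_add' hR0.le (by norm_num)]; norm_num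
  linarith

/-- primes between 50 and `z'` -/
def PQ (z' : ℕ) : Finset ℕ := (PP z').filter (fun q => 50 ≤ q)

theorem mem_PQ {z' q : ℕ} : q ∈ PQ z' ↔ q < z' ∧ q.Prime ∧ 50 ≤ q := by
  rw [PQ, Finset.mem_filter, mem_PP, and_assoc]

/-- lower density -/
noncomputable def gl (d d' z q : ℕ) : ℝ :=
  if q < z then max 0 ((2 * (nu d q : ℝ) + nu d' q) / q - 8 / (q : ℝ) ^ 2) else (nu d q : ℝ) / q

theorem gl_nonneg (d d' z q : ℕ) : 0 ≤ gl d d' z q := by
  unfold gl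
  split_ifs
  · exact le_max_left _ _
  · positivity

theorem gl_le (d d' z : ℕ) {q : ℕ} (hq : q.Prime) : gl d d' z q ≤ 6 / q := by
  have hq0 : (0 : ℝ) < q := by exact_mod_cast hq.pos
  have h1 : (nu d q : ℝ) ≤ 2 := by exact_mod_cast nu_le d q hq
  have h2 : (nu d' q : ℝ) ≤ 2 := by exact_mod_cast nu_le d' q hq
  unfold gl
  split_ifs
  · apply max_le (by positivity)
    have : (2 * (nu d q : ℝ) + nu d' q) / q ≤ 6 / q := by
      gcongr; linarith
    have : 0 ≤ 8 / (q : ℝ) ^ 2 := by positivity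
    linarith
  · gcongr; linarith

theorem one_sub_gl (d d' z : ℕ) {q : ℕ} (hq : q.Prime) (h50 : 50 ≤ q) :
    0 < 1 - gl d d' z q ∧ (1 - gl d d' z q)⁻¹ ≤ 1 + 7 / q := by
  have hq0 : (50 : ℝ) ≤ q := by exact_mod_cast h50
  have h1 := gl_le d d' z hq
  have h2 : (6 : ℝ) / q ≤ 6 / 50 := by gcongr
  have h3 : 0 < 1 - gl d d' z q := by linarith
  refine ⟨h3, ?_⟩
  rw [inv_le_iff_one_le_mul₀ h3]
  have h4 : (1 + 7 / (q : ℝ)) * (1 - 6 / q) ≤ (1 + 7 / (q : ℝ)) * (1 - gl d d' z q) := by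
    gcongr
  refine le_trans ?_ h4
  have : (1 + 7 / (q : ℝ)) * (1 - 6 / q) = 1 + (q - 42) / (q : ℝ) ^ 2 := by
    field_simp; ring
  rw [this]
  have : 0 ≤ ((q : ℝ) - 42) / (q : ℝ) ^ 2 := by
    apply div_nonneg <;> nlinarith
  linarith

theorem gom_eq {d d' : ℕ} (hdd : Pair d d') {q : ℕ} (hq : q.Prime) (h3 : 3 ≤ q) :
    gom q = ((nu d q : ℝ) + nu d' q) / q := by
  unfold gom
  rw [om_eq_nu q hq h3]
  rcases hdd with ⟨rfl, rfl⟩ | ⟨rfl, rfl⟩
  · push_cast; rfl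
  · push_cast; ring

theorem prod_gl_le : ∃ C : ℝ, 0 < C ∧ ∀ d d' z z' : ℕ, Pair d d' → z ≤ z' → 60 ≤ z' →
    ∏ q ∈ PQ z', (1 - gl d d' z q) ≤ C * (V z / Real.log z') := by
  obtain ⟨C, hC0, hC⟩ := psum_nu
  set L := Real.log (Real.log (49 : ℕ)) with hL
  refine ⟨(V 50)⁻¹ * (2 * Real.exp (C + L)) * Real.exp 20, by
    have := V_pos 50
    positivity, fun d d' z z' hdd hzz hz' => ?_⟩
  have hd : d = 1 ∨ d = 3 := by rcases hdd with ⟨h, _⟩ | ⟨h, _⟩ <;> omega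
  have hlz' : 0 < Real.log z' := Real.log_pos (by exact_mod_cast (by omega : 1 < z'))
  have hfac : ∀ q ∈ PQ z', 1 - gl d d' z q ≤
      (if q < z then (1 - gom q) else 1) * (1 - (nu d q : ℝ) / q) * (1 + 10 * (1 / (q : ℝ) ^ 2)) := by
    intro q hq
    rw [mem_PQ] at hq
    obtain ⟨hqz', hqp, hq50⟩ := hq
    have hq50' : (50 : ℝ) ≤ q := by exact_mod_cast hq50
    have hq0 : (0 : ℝ) < q := by linarith
    have hnu : (nu d q : ℝ) ≤ 2 := by exact_mod_cast nu_le d q hqp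
    have hnu' : (nu d' q : ℝ) ≤ 2 := by exact_mod_cast nu_le d' q hqp
    have hy : (nu d q : ℝ) / q ≤ 0.04 := by
      rw [div_le_iff₀ hq0]; linarith
    have hy0 : 0 ≤ (nu d q : ℝ) / q := by positivity
    have ht0 : 0 ≤ 1 / (q : ℝ) ^ 2 := by positivity
    by_cases hqz : q < z
    · rw [if_pos hqz]
      have hx : gom q ≤ 0.08 := by
        refine (gom_le q hqp).trans ?_
        rw [div_le_iff₀ hq0]; linarith
      have hx0 := gom_nonneg q
      have hge : 1 - gl d d' z q ≤ 1 - gom q - (nu d q : ℝ) / q + 8 * (1 / (q : ℝ) ^ 2) := by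
        have h1 : (2 * (nu d q : ℝ) + nu d' q) / q - 8 / (q : ℝ) ^ 2 ≤ gl d d' z q := by
          unfold gl; rw [if_pos hqz]; exact le_max_right _ _
        have h2 := gom_eq hdd hqp (by omega)
        have h3 : (2 * (nu d q : ℝ) + nu d' q) / q = gom q + (nu d q : ℝ) / q := by
          rw [h2]; ring
        rw [h3] at h1
        have h4 : 8 / (q : ℝ) ^ 2 = 8 * (1 / (q : ℝ) ^ 2) := by ring
        rw [h4] at h1
        linarith
      refine hge.trans ?_
      have h5 : 0.88 ≤ (1 - gom q) * (1 - (nu d q : ℝ) / q) := by nlinarith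
      have h6 : 1 - gom q - (nu d q : ℝ) / q ≤ (1 - gom q) * (1 - (nu d q : ℝ) / q) := by nlinarith
      nlinarith
    · rw [if_neg hqz, one_mul]
      unfold gl
      rw [if_neg hqz]
      nlinarith
  have hpos : ∀ q ∈ PQ z', 0 ≤ 1 - gl d d' z q := by
    intro q hq
    rw [mem_PQ] at hq
    exact (one_sub_gl d d' z hq.2.1 hq.2.2).1.le
  refine (Finset.prod_le_prod hpos hfac).trans ?_
  rw [Finset.prod_mul_distrib, Finset.prod_mul_distrib]
  have hA : ∏ q ∈ PQ z', (if q < z then (1 - gom q) else 1) ≤ V z * (V 50)⁻¹ := by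
    rw [← Finset.prod_filter]
    have : (PQ z').filter (fun q => q < z) = (PP z).filter (fun q => 50 ≤ q) := by
      ext q
      simp only [Finset.mem_filter, mem_PQ, mem_PP]
      constructor
      · rintro ⟨⟨_, h2, h3⟩, h4⟩; exact ⟨⟨h4, h2⟩, h3⟩
      · rintro ⟨⟨h4, h2⟩, h3⟩; exact ⟨⟨by omega, h2, h3⟩, h4⟩
    rw [this, ← div_eq_mul_inv]
    exact V_split 50 z
  have hA0 : 0 ≤ ∏ q ∈ PQ z', (if q < z then (1 - gom q) else 1) := by
    apply Finset.prod_nonneg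
    intro q hq
    rw [mem_PQ] at hq
    split_ifs
    · linarith [one_sub_gom q hq.2.1]
    · norm_num
  have hB : ∏ q ∈ PQ z', (1 - (nu d q : ℝ) / q) ≤ 2 * Real.exp (C + L) / Real.log z' := by
    refine (prod_le (PQ z') (fun q => (nu d q : ℝ) / q) ?_).trans ?_
    · intro q hq
      rw [mem_PQ] at hq
      have hq0 : (50 : ℝ) ≤ q := by exact_mod_cast hq.2.2
      have hnu : (nu d q : ℝ) ≤ 2 := by exact_mod_cast nu_le d q hq.2.1
      rw [div_le_one (by linarith)]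
      linarith
    · have h1 := (abs_le.1 (hC d hd 49 (z' - 1) (by norm_num) (by omega))).1
      have h2 : PQ z' = (Ioc 49 (z' - 1)).filter Nat.Prime := by
        ext q
        rw [mem_PQ, Finset.mem_filter, Finset.mem_Ioc]
        constructor
        · rintro ⟨h1, h2, h3⟩; exact ⟨⟨by omega, by omega⟩, h2⟩
        · rintro ⟨⟨h1, h3⟩, h2⟩; exact ⟨by omega, h2, by omega⟩
      rw [h2]
      have hlz1 : Real.log z' / 2 ≤ Real.log ((z' - 1 : ℕ) : ℝ) := by
        have h3 : Real.log z' ≤ 2 * Real.log ((z' - 1 : ℕ) : ℝ) := by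
          rw [← Real.log_rpow (by exact_mod_cast (by omega : 0 < z' - 1))]
          apply Real.log_le_log (by exact_mod_cast (by omega : 0 < z'))
          rw [Real.rpow_two]
          have h4 : z' ≤ (z' - 1) ^ 2 := by
            obtain ⟨k, rfl⟩ : ∃ k, z' = k + 60 := ⟨z' - 60, by omega⟩
            have : k + 60 - 1 = k + 59 := by omega
            rw [this]
            nlinarith
          exact_mod_cast h4
        linarith
      have hl0 : 0 < Real.log ((z' - 1 : ℕ) : ℝ) := by linarith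
      calc Real.exp (-∑ p ∈ (Ioc 49 (z' - 1)).filter Nat.Prime, (nu d p : ℝ) / p)
          ≤ Real.exp (C + L + -(Real.log (Real.log ((z' - 1 : ℕ) : ℝ)))) := by
            apply Real.exp_le_exp.2
            rw [← hL] at h1
            generalize ∑ p ∈ (Ioc 49 (z' - 1)).filter Nat.Prime, (nu d p : ℝ) / p = S at h1 ⊢
            generalize Real.log (Real.log ((z' - 1 : ℕ) : ℝ)) = X at h1 ⊢
            linarith
        _ = Real.exp (C + L) / Real.log ((z' - 1 : ℕ) : ℝ) := by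
            rw [Real.exp_add, Real.exp_neg, Real.exp_log hl0]
            rfl
        _ ≤ Real.exp (C + L) / (Real.log z' / 2) := by gcongr
        _ = _ := by field_simp
  have hB0 : 0 ≤ ∏ q ∈ PQ z', (1 - (nu d q : ℝ) / q) := by
    apply Finset.prod_nonneg
    intro q hq
    rw [mem_PQ] at hq
    have hq0 : (50 : ℝ) ≤ q := by exact_mod_cast hq.2.2
    have hnu : (nu d q : ℝ) ≤ 2 := by exact_mod_cast nu_le d q hq.2.1
    have : (nu d q : ℝ) / q ≤ 1 := by
      rw [div_le_one (by linarith)]; linarith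
    linarith
  have hCC : ∏ q ∈ PQ z', (1 + 10 * (1 / (q : ℝ) ^ 2)) ≤ Real.exp 20 := by
    calc ∏ q ∈ PQ z', (1 + 10 * (1 / (q : ℝ) ^ 2))
        ≤ ∏ q ∈ PQ z', Real.exp (10 * (1 / (q : ℝ) ^ 2)) := by
          apply Finset.prod_le_prod
          · intro q _; positivity
          · intro q _
            rw [add_comm]; exact Real.add_one_le_exp _
      _ = Real.exp (∑ q ∈ PQ z', 10 * (1 / (q : ℝ) ^ 2)) := (Real.exp_sum _ _).symm
      _ ≤ Real.exp 20 := by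
          apply Real.exp_le_exp.2
          rw [← Finset.mul_sum]
          have := sum_inv_sq_le (PQ z') (fun q hq => by
            have := (mem_PQ.1 hq).2.2
            omega)
          linarith
  have hVz := V_pos z
  have hV50 := V_pos 50
  calc (∏ q ∈ PQ z', (if q < z then (1 - gom q) else 1)) * (∏ q ∈ PQ z', (1 - (nu d q : ℝ) / q)) *
        ∏ q ∈ PQ z', (1 + 10 * (1 / (q : ℝ) ^ 2))
      ≤ (V z * (V 50)⁻¹) * (2 * Real.exp (C + L) / Real.log z') * Real.exp 20 := by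
        gcongr
    _ = _ := by ring

end Pool.Agent.Work.MP_2dba45_nt.Block
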