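import Mathlib
import Pool.Agent.Work.MP_2dba45_nt.BlockA

set_option autoImplicit false

namespace Pool.Agent.Work.MP_2dba45_nt.Block

open Finset Pool.Agent.Work.MP_2dba45_nt.TwoD Pool.Agent.Work.MP_2dba45_nt.Nu
  Pool.Agent.Work.MP_2dba45_nt.Loc Pool.Agent.Work.MP_2dba45_nt.VV
  Pool.Agent.Work.MP_2dba45_nt.Psum Pool.Agent.Work.MP_2dba45_nt.Rep

/-- density of the two-dimensional sieve -/
noncomputable def g2 (d d' z b : ℕ) (A0 E0 : ℤ) (q : ℕ) : ℝ :=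
  (rho2 (bad2 d d' z b A0 E0) q : ℝ) / (q : ℝ) ^ 2

/-- the sifting primes attached to `b` -/
noncomputable def Qb (d d' z z' b : ℕ) (A0 E0 : ℤ) : Finset ℕ := by
  classical exact (PQ z').filter (fun q => ¬ q ∣ b ∧ 0 < rho2 (bad2 d d' z b A0 E0) q)

theorem mem_Qb {d d' z z' b : ℕ} {A0 E0 : ℤ} {q : ℕ} :
    q ∈ Qb d d' z z' b A0 E0 ↔ (q < z' ∧ q.Prime ∧ 50 ≤ q) ∧
      ¬ q ∣ b ∧ 0 < rho2 (bad2 d d' z b A0 E0) q := by
  classical
  unfold Qb
  rw [Finset.mem_filter, mem_PQ]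

theorem gl_le_g2 {d d' z b : ℕ} (hdd : Pair d d') (A0 E0 : ℤ) {q : ℕ} (hq : q.Prime)
    (h50 : 50 ≤ q) (hqb : ¬ q ∣ b) : gl d d' z q ≤ g2 d d' z b A0 E0 q := by
  have hq0 : (0 : ℝ) < q := by exact_mod_cast hq.pos
  unfold gl g2
  split_ifs with hqz
  · apply max_le (by positivity)
    have h := rho2_ge_lt hdd A0 E0 hq (by omega) hqb hqz
    have h' : (2 * (nu d q : ℝ) + nu d' q) * q ≤ rho2 (bad2 d d' z b A0 E0) q + 8 := by
      exact_mod_cast h
    have e : (2 * (nu d q : ℝ) + nu d' q) / q = (2 * (nu d q : ℝ) + nu d' q) * q / (q : ℝ) ^ 2 := by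
      field_simp
    rw [e, ← sub_div]
    gcongr
    linarith
  · have h := rho2_ge (d := d) (d' := d') (z := z) (b := b) A0 E0 hq hqb
    have h' : (nu d q : ℝ) * q ≤ rho2 (bad2 d d' z b A0 E0) q := by exact_mod_cast h
    have e : (nu d q : ℝ) / q = (nu d q : ℝ) * q / (q : ℝ) ^ 2 := by field_simp
    rw [e]
    gcongr

theorem g2_le {d d' z b : ℕ} (hdd : Pair d d') (A0 E0 : ℤ) {q : ℕ} (hq : q.Prime)
    (h50 : 50 ≤ q) (hqb : ¬ q ∣ b) : g2 d d' z b A0 E0 q ≤ 6 / q := by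
  have hq0 : (0 : ℝ) < q := by exact_mod_cast hq.pos
  have h := rho2_le (z := z) hdd A0 E0 hq (by omega) hqb
  have h' : (rho2 (bad2 d d' z b A0 E0) q : ℝ) ≤ 6 * q := by exact_mod_cast h
  unfold g2
  calc (rho2 (bad2 d d' z b A0 E0) q : ℝ) / (q : ℝ) ^ 2 ≤ 6 * (q : ℝ) / (q : ℝ) ^ 2 := by gcongr
    _ = 6 / (q : ℝ) := by field_simp

theorem prod_Qb_le {d d' z z' b : ℕ} (hdd : Pair d d') (A0 E0 : ℤ) :
    ∏ q ∈ Qb d d' z z' b A0 E0, (1 - g2 d d' z b A0 E0 q) ≤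
      (∏ q ∈ PQ z', (1 - gl d d' z q)) * ∏ q ∈ (PQ z').filter (fun q => q ∣ b), (1 + 7 / (q : ℝ)) := by
  classical
  have h1 : ∏ q ∈ Qb d d' z z' b A0 E0, (1 - g2 d d' z b A0 E0 q) =
      ∏ q ∈ (PQ z').filter (fun q => ¬ q ∣ b), (1 - g2 d d' z b A0 E0 q) := by
    apply Finset.prod_subset
    · intro q hq
      rw [mem_Qb] at hq
      rw [Finset.mem_filter, mem_PQ]
      exact ⟨hq.1, hq.2.1⟩
    · intro q hq hq'
      rw [Finset.mem_filter, mem_PQ] at hq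
      rw [mem_Qb] at hq'
      have : rho2 (bad2 d d' z b A0 E0) q = 0 := by
        by_contra h
        exact hq' ⟨hq.1, hq.2, Nat.pos_of_ne_zero h⟩
      unfold g2
      rw [this]; simp
  have h2 : ∏ q ∈ (PQ z').filter (fun q => ¬ q ∣ b), (1 - g2 d d' z b A0 E0 q) ≤
      ∏ q ∈ (PQ z').filter (fun q => ¬ q ∣ b), (1 - gl d d' z q) := by
    apply Finset.prod_le_prod
    · intro q hq
      rw [Finset.mem_filter, mem_PQ] at hq
      have h3 := g2_le (z := z) hdd A0 E0 hq.1.2.1 hq.1.2.2 hq.2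
      have hq0 : (50 : ℝ) ≤ q := by exact_mod_cast hq.1.2.2
      have : (6 : ℝ) / q ≤ 1 := by rw [div_le_one (by linarith)]; linarith
      linarith
    · intro q hq
      rw [Finset.mem_filter, mem_PQ] at hq
      have := gl_le_g2 (z := z) hdd A0 E0 hq.1.2.1 hq.1.2.2 hq.2
      linarith
  have h3 : ∏ q ∈ PQ z', (1 - gl d d' z q) =
      (∏ q ∈ (PQ z').filter (fun q => q ∣ b), (1 - gl d d' z q)) *
      ∏ q ∈ (PQ z').filter (fun q => ¬ q ∣ b), (1 - gl d d' z q) := by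
    rw [Finset.prod_filter_mul_prod_filter_not]
  have hpos : 0 < ∏ q ∈ (PQ z').filter (fun q => q ∣ b), (1 - gl d d' z q) :=
    Finset.prod_pos fun q hq => by
      rw [Finset.mem_filter, mem_PQ] at hq
      exact (one_sub_gl d d' z hq.1.2.1 hq.1.2.2).1
  have hpos' : 0 < ∏ q ∈ (PQ z').filter (fun q => ¬ q ∣ b), (1 - gl d d' z q) :=
    Finset.prod_pos fun q hq => by
      rw [Finset.mem_filter, mem_PQ] at hq
      exact (one_sub_gl d d' z hq.1.2.1 hq.1.2.2).1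
  have h4 : (∏ q ∈ (PQ z').filter (fun q => q ∣ b), (1 - gl d d' z q))⁻¹ ≤
      ∏ q ∈ (PQ z').filter (fun q => q ∣ b), (1 + 7 / (q : ℝ)) := by
    rw [← Finset.prod_inv_distrib]
    apply Finset.prod_le_prod
    · intro q hq
      rw [Finset.mem_filter, mem_PQ] at hq
      exact (inv_pos.2 (one_sub_gl d d' z hq.1.2.1 hq.1.2.2).1).le
    · intro q hq
      rw [Finset.mem_filter, mem_PQ] at hq
      exact (one_sub_gl d d' z hq.1.2.1 hq.1.2.2).2
  rw [h1]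
  refine h2.trans ?_
  rw [h3]
  have h5 : 1 ≤ (∏ q ∈ (PQ z').filter (fun q => q ∣ b), (1 - gl d d' z q)) *
      ∏ q ∈ (PQ z').filter (fun q => q ∣ b), (1 + 7 / (q : ℝ)) := by
    rw [inv_le_iff_one_le_mul₀ hpos] at h4
    rw [mul_comm]; exact h4
  calc ∏ q ∈ (PQ z').filter (fun q => ¬ q ∣ b), (1 - gl d d' z q)
      = (∏ q ∈ (PQ z').filter (fun q => ¬ q ∣ b), (1 - gl d d' z q)) * 1 := (mul_one _).symm
    _ ≤ (∏ q ∈ (PQ z').filter (fun q => ¬ q ∣ b), (1 - gl d d' z q)) *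
        ((∏ q ∈ (PQ z').filter (fun q => q ∣ b), (1 - gl d d' z q)) *
        ∏ q ∈ (PQ z').filter (fun q => q ∣ b), (1 + 7 / (q : ℝ))) := by gcongr
    _ = _ := by ring

/-- the sieve bound for a single `b` -/
theorem per_b : ∃ K : ℝ, 1 ≤ K ∧ ∀ (d d' z z' b : ℕ), Pair d d' → 60 ≤ z' → 0 < b →
    ∀ (A0 E0 : ℤ) (L1 L2 : ℕ),
    (Sel.sift (TwoD.box b A0 E0 L1 L2) (bad2 d d' z b A0 E0) (Qb d d' z z' b A0 E0) : ℝ) ≤
      2 * ((L1 : ℝ) * L2 / b) * ((∏ q ∈ PQ z', (1 - gl d d' z q)) *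
        ∏ q ∈ (PQ z').filter (fun q => q ∣ b), (1 + 7 / (q : ℝ))) +
      (2 * kap b * (L1 + L2 + 2 + b)) * ((z' : ℝ) ^ (2 * K + 1)) ^ 6 := by
  obtain ⟨K, hK1, hK⟩ := sum_log_le
  refine ⟨K, hK1, fun d d' z z' b hdd hz' hb A0 E0 L1 L2 => ?_⟩
  have hb0 : (0 : ℝ) < b := by exact_mod_cast hb
  have hz'1 : (1 : ℝ) < z' := by exact_mod_cast (by omega : 1 < z')
  have hlz' : 0 < Real.log z' := Real.log_pos hz'1
  set P := Qb d d' z z' b A0 E0 with hPdef
  set g := g2 d d' z b A0 E0 with hg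
  set X : ℝ := (L1 : ℝ) * L2 * Nat.totient b / (b : ℝ) ^ 2 with hX
  have hPp : ∀ p ∈ P, p.Prime := fun p hp => (mem_Qb.1 hp).1.2.1
  have hkap0 : 0 < kap b := lt_of_lt_of_le (Real.rpow_pos_of_pos hb0 _) (kap_ge hb)
  have hlogD : Real.log ((z' : ℝ) ^ (2 * K + 1)) = (2 * K + 1) * Real.log z' := by
    rw [Real.log_rpow (by linarith)]
  have hexp : Real.exp (2 * K - Real.log ((z' : ℝ) ^ (2 * K + 1)) / Real.log z') =
      Real.exp (-1) := by
    rw [hlogD]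
    congr 1
    field_simp
    ring
  have he : 2 * Real.exp (-1) ≤ 1 := by
    have : Real.exp (-1) = (Real.exp 1)⁻¹ := Real.exp_neg 1
    rw [this]
    have h2 := Real.exp_one_gt_d9
    rw [mul_inv_le_iff₀ (Real.exp_pos _)]
    linarith
  have hup := Sel.upper (TwoD.box b A0 E0 L1 L2) (bad2 d d' z b A0 E0) P g X z'
    ((z' : ℝ) ^ (2 * K + 1)) K (2 * kap b * (L1 + L2 + 2 + b)) hPp
    (fun p hp => by exact_mod_cast (mem_Qb.1 hp).1.1.le) hz'1
    (fun p hp => by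
      have h := mem_Qb.1 hp
      have hp0 : (0 : ℝ) < p := by exact_mod_cast h.1.2.1.pos
      have h2 : (0 : ℝ) < rho2 (bad2 d d' z b A0 E0) p := by exact_mod_cast h.2.2
      simp only [hg, g2]
      positivity)
    (fun p hp => by
      have h := mem_Qb.1 hp
      have h3 := g2_le (z := z) hdd A0 E0 h.1.2.1 h.1.2.2 h.2.1
      have hq0 : (50 : ℝ) ≤ p := by exact_mod_cast h.1.2.2
      have : (6 : ℝ) / p < 1 := by rw [div_lt_one (by linarith)]; linarith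
      exact lt_of_le_of_lt h3 this)
    (by positivity) (by positivity) (Real.one_le_rpow hz'1.le (by linarith))
    (by
      have h := hK P g hPp (fun p hp => by
        have h := mem_Qb.1 hp
        exact g2_le (z := z) hdd A0 E0 h.1.2.1 h.1.2.2 h.2.1) z' hz'1
      refine le_trans (le_of_eq ?_) h
      apply Finset.sum_congr _ (fun _ _ => rfl)
      ext p
      rw [Finset.mem_filter]
      exact ⟨fun hp => ⟨hp, by exact_mod_cast (mem_Qb.1 hp).1.1.le⟩, fun hp => hp.1⟩)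
    (by rw [hexp]; exact he)
    (fun T hT => by
      have hTp : ∀ p ∈ T, p.Prime := fun p hp => hPp p (hT hp)
      have h := cnt_box b hb A0 E0 L1 L2 (bad2 d d' z b A0 E0) T hTp
        (fun p hp => (mem_Qb.1 (hT hp)).2.1) (fun p _ x => bad2_per d d' z b A0 E0 p x)
      exact h)
  refine hup.trans ?_
  rw [hexp]
  have hXle : X ≤ (L1 : ℝ) * L2 / b := by
    rw [hX]
    have h3 : (Nat.totient b : ℝ) ≤ b := by exact_mod_cast Nat.totient_le b
    calc (L1 : ℝ) * L2 * Nat.totient b / (b : ℝ) ^ 2 ≤ (L1 : ℝ) * L2 * b / (b : ℝ) ^ 2 := by gcongr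
      _ = (L1 : ℝ) * L2 / b := by field_simp
  have hprod := prod_Qb_le (z := z) (z' := z') (b := b) hdd A0 E0
  have hprod0 : 0 ≤ ∏ q ∈ P, (1 - g q) := by
    apply Finset.prod_nonneg
    intro q hq
    have h := mem_Qb.1 hq
    have h3 := g2_le (z := z) hdd A0 E0 h.1.2.1 h.1.2.2 h.2.1
    have hq0 : (50 : ℝ) ≤ q := by exact_mod_cast h.1.2.2
    have : (6 : ℝ) / q < 1 := by rw [div_lt_one (by linarith)]; linarith
    linarith
  have hX0 : 0 ≤ X := by positivity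
  apply add_le_add _ (le_refl _)
  calc X * (∏ q ∈ P, (1 - g q)) * (1 + 2 * Real.exp (-1))
      ≤ X * (∏ q ∈ P, (1 - g q)) * 2 := by
        apply mul_le_mul_of_nonneg_left _ (by positivity)
        linarith
    _ ≤ ((L1 : ℝ) * L2 / b) * ((∏ q ∈ PQ z', (1 - gl d d' z q)) *
        ∏ q ∈ (PQ z').filter (fun q => q ∣ b), (1 + 7 / (q : ℝ))) * 2 := by gcongr
    _ = _ := by ring

open Classical in
/-- the raw block bound -/
theorem block_raw : ∃ C K : ℝ, 0 < C ∧ 1 ≤ K ∧ ∀ (d d' N P z z' : ℕ), Pair d d' → 60 ≤ z' →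
    z ≤ z' → z' ≤ P → 1 ≤ N →
    (#(((Ioc N (2 * N)) ×ˢ (Ioc P (2 * P))).filter
      (fun x : ℕ × ℕ => Rough z x.1 ∧ x.2.Prime ∧ x.2 ∣ x.1 ^ 2 + d)) : ℝ) ≤
    C * (V z / Real.log z') * (N + √P * (1 + Real.log P)) +
    C * ((z' : ℝ) ^ (2 * K + 1)) ^ 6 * (√P + N / √P) * (P : ℝ) ^ (15 / 32 : ℝ) := by
  obtain ⟨K, hK1, hK⟩ := per_b
  obtain ⟨C1, hC1, hprod⟩ := prod_gl_le
  obtain ⟨C2, hC2, hkap⟩ := kap_le
  refine ⟨C1 * Real.exp 14 * 200 + C2 * 2000, K, by positivity, hK1,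
    fun d d' N P z z' hdd hz' hzz' hz'P hN => ?_⟩
  have hP60 : 60 ≤ P := hz'.trans hz'P
  have hP0 : (60 : ℝ) ≤ P := by exact_mod_cast hP60
  have hN0 : (1 : ℝ) ≤ N := by exact_mod_cast hN
  set R := Nat.sqrt (2 * P) with hR
  have hR1 : R * R ≤ 2 * P := Nat.sqrt_le _
  have hR2 : 2 * P < (R + 1) ^ 2 := by rw [sq]; exact Nat.lt_succ_sqrt _
  have hRpos : 1 ≤ R := by
    by_contra h
    have : R = 0 := by omega
    rw [this] at hR2
    omega
  have hsP0 : 0 < √(P : ℝ) := Real.sqrt_pos.2 (by linarith)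
  have hsP : √(P : ℝ) * √(P : ℝ) = P := Real.mul_self_sqrt (by linarith)
  have hRle : (R : ℝ) ≤ 1.5 * √P := by
    have h1 : (R : ℝ) * R ≤ 2 * P := by exact_mod_cast hR1
    have h2 : (R : ℝ) ^ 2 ≤ (1.5 * √(P : ℝ)) ^ 2 := by nlinarith
    exact le_of_pow_le_pow_left₀ (by norm_num) (by positivity) h2
  have hRP : R ≤ P := by
    by_contra h
    push Not at h
    nlinarith
  have hRP' : (R : ℝ) ≤ P := by exact_mod_cast hRP
  have hR0 : (1 : ℝ) ≤ R := by exact_mod_cast hRpos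
  have hbl := block_le hdd N P z z' R (by omega) hz'P hR2
    (fun b => Qb d d' z z' b (-(R : ℤ)) (-(Eb N P R b : ℤ)))
    (fun b q hq => by
      have h := mem_Qb.1 hq
      exact ⟨h.1.2.1, h.1.1, h.2.1⟩)
  set G := ∏ q ∈ PQ z', (1 - gl d d' z q) with hG
  have hG0 : 0 ≤ G := by
    apply Finset.prod_nonneg
    intro q hq
    rw [mem_PQ] at hq
    exact (one_sub_gl d d' z hq.2.1 hq.2.2).1.le
  have hGle : G ≤ C1 * (V z / Real.log z') := hprod d d' z z' hdd hzz' hz'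
  set D6 := ((z' : ℝ) ^ (2 * K + 1)) ^ 6 with hD6
  have hD60 : 0 < D6 := by positivity
  -- bound of L2
  have hE : ∀ b : ℕ, (Eb N P R b : ℝ) ≤ 2 * N * b / P + 1 := by
    intro b
    unfold Eb
    have h1 : (((R + 2 * N * b) / P : ℕ) : ℝ) ≤ ((R + 2 * N * b : ℕ) : ℝ) / P := Nat.cast_div_le
    refine h1.trans ?_
    rw [div_le_iff₀ (by linarith)]
    have : (2 * (N : ℝ) * b / P + 1) * P = 2 * N * b + P := by field_simp
    rw [this]
    push_cast
    linarith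
  have hterm : ∀ b ∈ Icc 1 R,
      (Sel.sift (TwoD.box b (-(R : ℤ)) (-(Eb N P R b : ℤ)) (2 * R + 1) (2 * Eb N P R b + 1))
        (bad2 d d' z b (-(R : ℤ)) (-(Eb N P R b : ℤ)))
        (Qb d d' z z' b (-(R : ℤ)) (-(Eb N P R b : ℤ))) : ℝ) ≤
      G * (24 * R * N / P) * ((∏ q ∈ (PQ z').filter (fun q => q ∣ b), (1 + 7 / (q : ℝ))) * 1) +
      G * (18 * R) * ((∏ q ∈ (PQ z').filter (fun q => q ∣ b), (1 + 7 / (q : ℝ))) * (1 / (b : ℝ))) +
      (C2 * D6 * (22 * R + 8 * N * R / P)) * (b : ℝ) ^ (-(1 / 8) : ℝ) := by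
    intro b hb
    rw [Finset.mem_Icc] at hb
    have hb0 : (0 : ℝ) < b := by exact_mod_cast hb.1
    have hbR : (b : ℝ) ≤ R := by exact_mod_cast hb.2
    have h1 := hK d d' z z' b hdd hz' hb.1 (-(R : ℤ)) (-(Eb N P R b : ℤ)) (2 * R + 1)
      (2 * Eb N P R b + 1)
    refine h1.trans ?_
    rw [← hG, ← hD6]
    set κ := ∏ q ∈ (PQ z').filter (fun q => q ∣ b), (1 + 7 / (q : ℝ)) with hκ
    have hκ0 : 0 ≤ κ := Finset.prod_nonneg fun q _ => by positivity
    have hL1 : ((2 * R + 1 : ℕ) : ℝ) ≤ 3 * R := by push_cast; linarith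
    have hL2 : ((2 * Eb N P R b + 1 : ℕ) : ℝ) ≤ 4 * N * b / P + 3 := by
      push_cast
      have := hE b
      have e : 2 * (2 * (N : ℝ) * b / P) = 4 * N * b / P := by ring
      linarith
    have hkb := hkap b hb.1
    have hkap0 : 0 < kap b := lt_of_lt_of_le (Real.rpow_pos_of_pos hb0 _) (kap_ge hb.1)
    have e1 : 2 * (((2 * R + 1 : ℕ) : ℝ) * ((2 * Eb N P R b + 1 : ℕ) : ℝ) / b) * (G * κ) ≤
        2 * ((3 * R) * (4 * N * b / P + 3) / b) * (G * κ) := by gcongr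
    have e2 : 2 * ((3 * (R : ℝ)) * (4 * N * b / P + 3) / b) * (G * κ) =
        G * (24 * R * N / P) * (κ * 1) + G * (18 * R) * (κ * (1 / (b : ℝ))) := by
      field_simp
      ring
    have e3 : 2 * kap b * (((2 * R + 1 : ℕ) : ℝ) + ((2 * Eb N P R b + 1 : ℕ) : ℝ) + 2 + b) * D6 ≤
        (C2 * D6 * (22 * R + 8 * N * R / P)) * (b : ℝ) ^ (-(1 / 8) : ℝ) := by
      have f1 : ((2 * R + 1 : ℕ) : ℝ) + ((2 * Eb N P R b + 1 : ℕ) : ℝ) + 2 + b ≤
          11 * R + 4 * N * R / P := by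
        have f2 : 4 * (N : ℝ) * b / P ≤ 4 * N * R / P := by gcongr
        push_cast at hL1 hL2 ⊢
        nlinarith
      calc 2 * kap b * (((2 * R + 1 : ℕ) : ℝ) + ((2 * Eb N P R b + 1 : ℕ) : ℝ) + 2 + b) * D6
          ≤ 2 * (C2 * (b : ℝ) ^ (-(1 / 8) : ℝ)) * (11 * R + 4 * N * R / P) * D6 := by gcongr
        _ = _ := by ring
    linarith
  have hsum : (#(((Ioc N (2 * N)) ×ˢ (Ioc P (2 * P))).filter
      (fun x : ℕ × ℕ => Rough z x.1 ∧ x.2.Prime ∧ x.2 ∣ x.1 ^ 2 + d)) : ℝ) ≤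
      G * (24 * R * N / P) * (R * Real.exp 14) + G * (18 * R) * ((1 + Real.log R) * Real.exp 14) +
      (C2 * D6 * (22 * R + 8 * N * R / P)) * (2 * (R : ℝ) ^ (15 / 16 : ℝ)) := by
    have hcast : (#(((Ioc N (2 * N)) ×ˢ (Ioc P (2 * P))).filter
      (fun x : ℕ × ℕ => Rough z x.1 ∧ x.2.Prime ∧ x.2 ∣ x.1 ^ 2 + d)) : ℝ) ≤
      ∑ b ∈ Icc 1 R, (Sel.sift (TwoD.box b (-(R : ℤ)) (-(Eb N P R b : ℤ)) (2 * R + 1)
        (2 * Eb N P R b + 1)) (bad2 d d' z b (-(R : ℤ)) (-(Eb N P R b : ℤ)))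
        (Qb d d' z z' b (-(R : ℤ)) (-(Eb N P R b : ℤ))) : ℝ) := by
      exact_mod_cast hbl
    refine hcast.trans ((Finset.sum_le_sum hterm).trans ?_)
    rw [Finset.sum_add_distrib, Finset.sum_add_distrib, ← Finset.mul_sum, ← Finset.mul_sum,
      ← Finset.mul_sum]
    have hPQp : ∀ q ∈ PQ z', q.Prime := fun q hq => (mem_PQ.1 hq).2.1
    have hprod14 : ∏ q ∈ PQ z', (1 + 7 / (q : ℝ) / q) ≤ Real.exp 14 := by
      calc ∏ q ∈ PQ z', (1 + 7 / (q : ℝ) / q) ≤ ∏ q ∈ PQ z', Real.exp (7 * (1 / (q : ℝ) ^ 2)) := by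
            apply Finset.prod_le_prod
            · intro q _; positivity
            · intro q _
              have : 7 / (q : ℝ) / q = 7 * (1 / (q : ℝ) ^ 2) := by
                rw [div_div, ← sq]; ring
              rw [this, add_comm]; exact Real.add_one_le_exp _
        _ = Real.exp (∑ q ∈ PQ z', 7 * (1 / (q : ℝ) ^ 2)) := (Real.exp_sum _ _).symm
        _ ≤ Real.exp 14 := by
            apply Real.exp_le_exp.2
            rw [← Finset.mul_sum]
            have := sum_inv_sq_le (PQ z') (fun q hq => by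
              have := (mem_PQ.1 hq).2.2
              omega)
            linarith
    have hs1 := sum_kappa (PQ z') hPQp (fun q => 7 / (q : ℝ)) (fun q => by positivity) R
      (fun _ => 1) R (fun D hD => weight_one R D hD)
    have hs2 := sum_kappa (PQ z') hPQp (fun q => 7 / (q : ℝ)) (fun q => by positivity) R
      (fun b => 1 / (b : ℝ)) (1 + Real.log R) (fun D hD => weight_inv R hRpos D hD)
    have hs3 := sum_rpow_le R hRpos
    have hlogR : 0 ≤ Real.log R := Real.log_nonneg hR0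
    have hs1' : ∑ b ∈ Icc 1 R, (∏ q ∈ (PQ z').filter (fun q => q ∣ b), (1 + 7 / (q : ℝ))) * 1 ≤
        R * Real.exp 14 := hs1.trans (by gcongr)
    have hs2' : ∑ b ∈ Icc 1 R, (∏ q ∈ (PQ z').filter (fun q => q ∣ b), (1 + 7 / (q : ℝ))) *
        (1 / (b : ℝ)) ≤ (1 + Real.log R) * Real.exp 14 := hs2.trans (by gcongr)
    gcongr
  refine hsum.trans ?_
  -- final simplification
  have hlogRP : Real.log R ≤ Real.log P := Real.log_le_log (by linarith) hRP'
  have hlogR : 0 ≤ Real.log R := Real.log_nonneg hR0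
  have hlogP : 0 ≤ Real.log P := by linarith
  have hVlog : 0 ≤ V z / Real.log z' := by
    have := V_pos z
    have : 0 < Real.log z' := Real.log_pos (by exact_mod_cast (by omega : 1 < z'))
    positivity
  have t1 : (24 * (R : ℝ) * N / P) * (R * Real.exp 14) ≤ 54 * N * Real.exp 14 := by
    have : (R : ℝ) * R ≤ 2.25 * P := by nlinarith
    have e : (24 * (R : ℝ) * N / P) * (R * Real.exp 14) = 24 * N * Real.exp 14 * ((R * R) / P) := by
      ring
    rw [e]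
    have h3 : ((R : ℝ) * R) / P ≤ 2.25 := by rw [div_le_iff₀ (by linarith)]; exact this
    calc 24 * (N : ℝ) * Real.exp 14 * ((R * R) / P) ≤ 24 * N * Real.exp 14 * 2.25 := by gcongr
      _ = 54 * N * Real.exp 14 := by ring
  have t2 : (18 * (R : ℝ)) * ((1 + Real.log R) * Real.exp 14) ≤
      27 * (√P * (1 + Real.log P)) * Real.exp 14 := by
    calc (18 * (R : ℝ)) * ((1 + Real.log R) * Real.exp 14)
        ≤ (18 * (1.5 * √P)) * ((1 + Real.log P) * Real.exp 14) := by gcongr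
      _ = _ := by ring
  have hR15 : (R : ℝ) ^ (15 / 16 : ℝ) ≤ 2 * (P : ℝ) ^ (15 / 32 : ℝ) := by
    calc (R : ℝ) ^ (15 / 16 : ℝ) ≤ (1.5 * √P) ^ (15 / 16 : ℝ) := by
          apply Real.rpow_le_rpow (by linarith) hRle (by norm_num)
      _ = 1.5 ^ (15 / 16 : ℝ) * (√P) ^ (15 / 16 : ℝ) := Real.mul_rpow (by norm_num) hsP0.le
      _ ≤ 2 * (P : ℝ) ^ (15 / 32 : ℝ) := by
          apply mul_le_mul _ _ (by positivity) (by norm_num)
          · calc (1.5 : ℝ) ^ (15 / 16 : ℝ) ≤ 1.5 ^ (1 : ℝ) :=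
                Real.rpow_le_rpow_of_exponent_le (by norm_num) (by norm_num)
              _ ≤ 2 := by norm_num
          · rw [Real.sqrt_eq_rpow, ← Real.rpow_mul (by linarith)]
            norm_num
  have t3 : 22 * (R : ℝ) + 8 * N * R / P ≤ 33 * (√P + N / √P) := by
    have e : N / √(P : ℝ) = N * √P / P := by
      rw [div_eq_div_iff hsP0.ne' (by linarith)]
      rw [mul_assoc, hsP]
    rw [e]
    have f1 : 8 * (N : ℝ) * R / P ≤ 8 * N * (1.5 * √P) / P := by gcongr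
    have f2 : 8 * (N : ℝ) * (1.5 * √P) / P = 12 * (N * √P / P) := by ring
    have f3 : 0 ≤ (N : ℝ) * √P / P := by positivity
    rw [f2] at f1
    nlinarith
  have t3' : 0 ≤ √(P : ℝ) + N / √P := by positivity
  set v := V z / Real.log z' with hv
  set S := √(P : ℝ) * (1 + Real.log P) with hS
  have hS0 : 0 ≤ S := by positivity
  set Q := (P : ℝ) ^ (15 / 32 : ℝ) with hQ
  have hQ0 : 0 ≤ Q := by positivity
  set U := √(P : ℝ) + N / √P with hU
  set ex := Real.exp 14 with hexd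
  have hex : 0 < ex := Real.exp_pos _
  set Y1 := (24 * (R : ℝ) * N / P) * (R * ex) with hY1
  set Y2 := (18 * (R : ℝ)) * ((1 + Real.log R) * ex) with hY2
  set Y3 := 22 * (R : ℝ) + 8 * N * R / P with hY3
  set Y4 := (R : ℝ) ^ (15 / 16 : ℝ) with hY4
  have hY10 : 0 ≤ Y1 := by positivity
  have hY20 : 0 ≤ Y2 := by positivity
  have hY30 : 0 ≤ Y3 := by positivity
  have hY40 : 0 ≤ Y4 := by positivity
  have s1 : G * (24 * R * N / P) * (R * ex) + G * (18 * R) * ((1 + Real.log R) * ex) =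
      G * (Y1 + Y2) := by rw [hY1, hY2]; ring
  rw [s1]
  clear_value Y1 Y2 Y3 Y4 ex U Q S v G
  have s2 : G * (Y1 + Y2) ≤ (C1 * v) * (54 * N * ex + 27 * S * ex) :=
    mul_le_mul hGle (add_le_add t1 t2) (by linarith) (by positivity)
  have s3 : C2 * D6 * Y3 * (2 * Y4) ≤ C2 * D6 * (33 * U) * (2 * (2 * Q)) := by
    apply mul_le_mul _ (by linarith) (by positivity) (by positivity)
    apply mul_le_mul_of_nonneg_left t3 (by positivity)
  have s4 : (C1 * v) * (54 * N * ex + 27 * S * ex) ≤ C1 * v * (200 * ex * (N + S)) := by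
    apply mul_le_mul_of_nonneg_left _ (by positivity)
    have h1 : 0 ≤ ex * N := by positivity
    have h2 : 0 ≤ ex * S := by positivity
    nlinarith
  have s5 : 0 ≤ C2 * 2000 * v * (N + S) := by positivity
  have s6 : C2 * D6 * (33 * U) * (2 * (2 * Q)) = C2 * 132 * (D6 * U * Q) := by ring
  have s7 : 0 ≤ C2 * (D6 * U * Q) := by positivity
  have s8 : 0 ≤ C1 * ex * 200 * (D6 * U * Q) := by positivity
  have s9 : (C1 * ex * 200 + C2 * 2000) * v * (N + S) =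
      C1 * v * (200 * ex * (N + S)) + C2 * 2000 * v * (N + S) := by ring
  have s10 : (C1 * ex * 200 + C2 * 2000) * D6 * U * Q =
      C1 * ex * 200 * (D6 * U * Q) + 2000 * (C2 * (D6 * U * Q)) := by ring
  rw [s9, s10]
  rw [s6] at s3
  linarith

end Pool.Agent.Work.MP_2dba45_nt.Block
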