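import Mathlib
import Pool.Agent.Work.MP_2dba45_nt.VV
import Pool.Agent.Work.MP_2dba45_nt.Rep

set_option autoImplicit false

namespace Pool.Agent.Work.MP_2dba45_nt.OneS

open Finset Pool.Agent.Work.MP_2dba45_nt.TwoD Pool.Agent.Work.MP_2dba45_nt.Nu
  Pool.Agent.Work.MP_2dba45_nt.VV Pool.Agent.Work.MP_2dba45_nt.Psum
  Pool.Agent.Work.MP_2dba45_nt.Rep

/-- bad condition along a progression -/
def badA (c0 W q t : ℕ) : Prop := q ∣ ((c0 + W * t) ^ 2 + 1) * ((c0 + W * t) ^ 2 + 3)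

theorem dvd_mod (q t : ℕ) : q ∣ (t ^ 2 + 1) * (t ^ 2 + 3) ↔
    q ∣ ((t % q) ^ 2 + 1) * ((t % q) ^ 2 + 3) := by
  rw [← ZMod.natCast_eq_zero_iff, ← ZMod.natCast_eq_zero_iff]
  push_cast
  rw [ZMod.natCast_mod]

theorem badA_per (c0 W q t : ℕ) : badA c0 W q t ↔ badA c0 W q (t % q) := by
  unfold badA
  rw [← ZMod.natCast_eq_zero_iff, ← ZMod.natCast_eq_zero_iff]
  push_cast
  rw [ZMod.natCast_mod]

theorem rho_badA {c0 W q : ℕ} (hq : q.Prime) (hW : ¬ q ∣ W) : Crt.rho (badA c0 W) q = om q := by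
  classical
  have hcop : Nat.Coprime W q := by
    rw [Nat.coprime_comm]
    exact (Nat.Prime.coprime_iff_not_dvd hq).2 hW
  have h := Crt.rho_affine (fun t => q ∣ (t ^ 2 + 1) * (t ^ 2 + 3)) q (dvd_mod q) hq c0 W hcop
  unfold Crt.rho om badA
  rw [← Finset.card_filter_add_card_filter_not (s := (range q).filter
    (fun t => q ∣ (t ^ 2 + 1) * (t ^ 2 + 3))) (fun _ => True)] at *
  simp only [Finset.filter_true, not_true_eq_false, Finset.filter_false, Finset.card_empty,
    add_zero] at *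
  convert h

open Classical in
/-- count of rough values along a progression -/
noncomputable def cntAP (W c0 L z : ℕ) : ℕ := #((range L).filter (fun t => Rough z (c0 + W * t)))

/-- sifting primes -/
noncomputable def PS (z : ℕ) : Finset ℕ := (PP z).filter (fun q => 0 < om q)

theorem mem_PS {z q : ℕ} : q ∈ PS z ↔ (q < z ∧ q.Prime) ∧ 0 < om q := by
  rw [PS, Finset.mem_filter, mem_PP]

theorem prod_PS (z : ℕ) : ∏ q ∈ PS z, (1 - gom q) = V z := by
  unfold V PS
  apply Finset.prod_subset (Finset.filter_subset _ _)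
  intro q hq hq'
  rw [Finset.mem_filter] at hq'
  have : om q = 0 := by
    by_contra h
    exact hq' ⟨hq, Nat.pos_of_ne_zero h⟩
  unfold gom
  rw [this]; simp

theorem sift_eq {W c0 L z : ℕ} (hW : ∀ q ∈ PP z, ¬ q ∣ W) :
    Sel.sift (range L) (badA c0 W) (PS z) = cntAP W c0 L z := by
  classical
  unfold Sel.sift cntAP
  congr 1
  ext t
  simp only [Finset.mem_filter]
  apply and_congr_right
  intro _
  constructor
  · intro h q hq hqz hdvd
    have hqPP : q ∈ PP z := mem_PP.2 ⟨hqz, hq⟩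
    by_cases hom : 0 < om q
    · exact h q (mem_PS.2 ⟨⟨hqz, hq⟩, hom⟩) hdvd
    · have h0 : om q = 0 := by omega
      rw [← rho_badA (c0 := c0) hq (hW q hqPP)] at h0
      unfold Crt.rho at h0
      rw [Finset.card_eq_zero, Finset.filter_eq_empty_iff] at h0
      apply h0 (x := t % q) (Finset.mem_range.2 (Nat.mod_lt _ hq.pos))
      rw [← badA_per]
      exact hdvd
  · intro h q hq hdvd
    rw [mem_PS] at hq
    exact h q hq.1.2 hq.1.1 hdvd

/-- the fundamental lemma along progressions -/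
theorem fund : ∃ s0 C : ℝ, 5 ≤ s0 ∧ 0 < C ∧ ∀ s : ℝ, s0 ≤ s → ∀ W c0 L z : ℕ, 2 ≤ z →
    (∀ q ∈ PP z, ¬ q ∣ W) →
    |(cntAP W c0 L z : ℝ) - L * V z| ≤ C * Real.exp (-s) * (L * V z) + 2 * (z : ℝ) ^ (6 * s + 3) := by
  obtain ⟨K, hK1, hK⟩ := sum_log_le
  obtain ⟨C, hC0, hC⟩ := V_ratio
  refine ⟨2 * K + 5, 2 * Real.exp (2 * K) * (C * K + 1), by linarith, by positivity,
    fun s hs W c0 L z hz hW => ?_⟩
  have hz1 : (1 : ℝ) < z := by exact_mod_cast (by omega : 1 < z)
  have hz0 : (0 : ℝ) < z := by linarith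
  have hlz : 0 < Real.log z := Real.log_pos hz1
  have hPS : ∀ p ∈ PS z, p.Prime := fun p hp => (mem_PS.1 hp).1.2
  have hPSz : ∀ p ∈ PS z, (p : ℝ) ≤ z := fun p hp => by exact_mod_cast (mem_PS.1 hp).1.1.le
  have hg0 : ∀ p ∈ PS z, 0 < gom p := fun p hp => by
    have h := mem_PS.1 hp
    have h1 : (0 : ℝ) < om p := by exact_mod_cast h.2
    have h2 : (0 : ℝ) < p := by exact_mod_cast h.1.2.pos
    unfold gom
    positivity
  have hg1 : ∀ p ∈ PS z, gom p < 1 := fun p hp => by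
    linarith [gom_le_half p (hPS p hp)]
  have hlogD : Real.log ((z : ℝ) ^ s) / Real.log z = s := by
    rw [Real.log_rpow hz0]; field_simp
  have hD1 : 1 ≤ (z : ℝ) ^ s := Real.one_le_rpow hz1.le (by linarith)
  have hKall := hK (PS z) gom hPS (fun p hp => by
    refine (gom_le p (hPS p hp)).trans ?_
    gcongr; norm_num)
  have hrem : ∀ T ⊆ PS z, |(Sel.cnt (range L) (badA c0 W) T : ℝ) - (L : ℝ) * Sel.gg gom T| ≤
      1 * ((∏ p ∈ T, p : ℕ) : ℝ) ^ 2 := by
    intro T hT
    have h := Crt.cnt_range' (badA c0 W) T (fun p hp => hPS p (hT hp))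
      (fun p _ t => badA_per c0 W p t) L
    have h2 : Sel.gg (fun p => (Crt.rho (badA c0 W) p : ℝ) / p) T = Sel.gg gom T := by
      unfold Sel.gg
      refine Finset.prod_congr rfl fun p hp => ?_
      have h3 := mem_PS.1 (hT hp)
      show (Crt.rho (badA c0 W) p : ℝ) / p = gom p
      rw [rho_badA h3.1.2 (hW p (mem_PP.2 h3.1))]
      rfl
    rw [h2] at h
    exact h
  have hexp : 2 * Real.exp (2 * K - Real.log ((z : ℝ) ^ s) / Real.log z) ≤ 1 := by
    rw [hlogD]
    have h1 : Real.exp (2 * K - s) ≤ Real.exp (-1) := Real.exp_le_exp.2 (by linarith)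
    have h2 : Real.exp (-1) = (Real.exp 1)⁻¹ := Real.exp_neg 1
    have h3 : 2 * (Real.exp 1)⁻¹ ≤ 1 := by
      rw [mul_inv_le_iff₀ (Real.exp_pos _)]
      linarith [Real.exp_one_gt_d9]
    rw [← h2] at h3
    linarith
  have hup := Sel.upper (range L) (badA c0 W) (PS z) gom L z ((z : ℝ) ^ s) K 1 hPS hPSz hz1 hg0 hg1
    (by positivity) (by norm_num) hD1
    (by
      refine le_trans (le_of_eq ?_) (hKall z hz1)
      apply Finset.sum_congr _ (fun _ _ => rfl)
      ext p
      rw [Finset.mem_filter]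
      exact ⟨fun hp => ⟨hp, hPSz p hp⟩, fun hp => hp.1⟩)
    hexp hrem
  have hlow := Sel.lower (range L) (badA c0 W) (PS z) gom L z ((z : ℝ) ^ s) K C 1 hPS hPSz hz1
    hg0 hg1 (by positivity) (by norm_num) hD1 (by linarith) hC0.le hKall
    (fun p hp => hC z (PS z) (Finset.filter_subset _ _) p (Finset.filter_subset _ _ hp))
    (by rw [hlogD]; linarith) hexp hrem
  rw [sift_eq hW, prod_PS, hlogD] at hup hlow
  have hD6 : ((z : ℝ) ^ s) ^ 6 = (z : ℝ) ^ (6 * s) := by
    rw [← Real.rpow_natCast, ← Real.rpow_mul hz0.le]; ring_nf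
  have hpow : (z : ℝ) ^ (6 * s + 3) = z ^ 3 * (z : ℝ) ^ (6 * s) := by
    rw [Real.rpow_add hz0, mul_comm]
    norm_cast
  have hz3 : (1 : ℝ) ≤ (z : ℝ) ^ 3 := one_le_pow₀ hz1.le
  have hzs : (1 : ℝ) ≤ (z : ℝ) ^ (6 * s) := Real.one_le_rpow hz1.le (by linarith)
  rw [hD6] at hup hlow
  rw [hpow]
  have hLV : 0 ≤ (L : ℝ) * V z := by have := V_pos z; positivity
  have hek : Real.exp (2 * K - s) = Real.exp (2 * K) * Real.exp (-s) := by
    rw [← Real.exp_add]; ring_nf
  rw [hek] at hup hlow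
  set e := Real.exp (-s) with he
  set ek := Real.exp (2 * K) with hekd
  have he0 : 0 < e := Real.exp_pos _
  have hek0 : 0 < ek := Real.exp_pos _
  have hCK : 0 < C * K := by nlinarith
  set LV := (L : ℝ) * V z
  set z6 := (z : ℝ) ^ (6 * s)
  have p1 : 0 ≤ LV * (ek * e) := by positivity
  have p2 : 0 ≤ LV * (ek * e) * (C * K) := by positivity
  have p3 : z6 ≤ (z : ℝ) ^ 3 * z6 := by nlinarith
  rw [abs_le]
  constructor
  · have e1 : LV * (1 - 2 * C * K * (ek * e)) = LV - 2 * (LV * (ek * e) * (C * K)) := by ring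
    have e2 : 2 * ek * (C * K + 1) * e * LV =
        2 * (LV * (ek * e) * (C * K)) + 2 * (LV * (ek * e)) := by ring
    rw [e1] at hlow
    rw [e2]
    nlinarith
  · have e1 : LV * (1 + 2 * (ek * e)) = LV + 2 * (LV * (ek * e)) := by ring
    have e2 : 2 * ek * (C * K + 1) * e * LV =
        2 * (LV * (ek * e) * (C * K)) + 2 * (LV * (ek * e)) := by ring
    rw [e1] at hup
    rw [e2]
    nlinarith

open Classical in
/-- rough values in residue classes -/
theorem rough_classes : ∃ s0 C : ℝ, 5 ≤ s0 ∧ 0 < C ∧ ∀ s : ℝ, s0 ≤ s → ∀ N z W : ℕ, 2 ≤ z →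
    0 < W → (∀ q ∈ PP z, ¬ q ∣ W) → ∀ 𝓡 ⊆ range W,
    |(#((Ioc N (2 * N)).filter (fun m => Rough z m ∧ m % W ∈ 𝓡)) : ℝ) -
      #𝓡 * ((N : ℝ) / W * V z)| ≤
    #𝓡 * (C * Real.exp (-s) * ((N : ℝ) / W * V z) + C * (z : ℝ) ^ (6 * s + 3)) := by
  obtain ⟨s0, C, hs0, hC, hmain⟩ := fund
  refine ⟨s0, C + 3, hs0, by linarith, fun s hs N z W hz hW0 hW 𝓡 hR => ?_⟩
  have hz1 : (1 : ℝ) < z := by exact_mod_cast (by omega : 1 < z)
  have hWR : (0 : ℝ) < W := by exact_mod_cast hW0
  have h1 : (#((Ioc N (2 * N)).filter (fun m => Rough z m ∧ m % W ∈ 𝓡)) : ℝ) =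
      ∑ r ∈ 𝓡, (#((Ioc N (2 * N)).filter (fun m => Rough z m ∧ m % W = r)) : ℝ) := by
    have h2 : #((Ioc N (2 * N)).filter (fun m => Rough z m ∧ m % W ∈ 𝓡)) =
        ∑ r ∈ 𝓡, #(((Ioc N (2 * N)).filter (fun m => Rough z m ∧ m % W ∈ 𝓡)).filter
          (fun m => m % W = r)) := by
      apply Finset.card_eq_sum_card_fiberwise
      intro m hm
      simp only [Finset.coe_filter, Set.mem_ofPred_eq] at hm
      exact hm.2.2
    rw [h2]
    push_cast
    refine Finset.sum_congr rfl fun r hr => ?_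
    congr 2
    ext m
    simp only [Finset.mem_filter]
    constructor
    · rintro ⟨⟨h1, h2, h3⟩, h4⟩; exact ⟨h1, h2, h4⟩
    · rintro ⟨h1, h2, h4⟩; exact ⟨⟨h1, h2, by rw [h4]; exact hr⟩, h4⟩
  have h2 : ∀ r ∈ 𝓡, |(#((Ioc N (2 * N)).filter (fun m => Rough z m ∧ m % W = r)) : ℝ) -
      (N : ℝ) / W * V z| ≤
      (C + 3) * Real.exp (-s) * ((N : ℝ) / W * V z) + (C + 3) * (z : ℝ) ^ (6 * s + 3) := by
    intro r hr
    have hrW : r < W := Finset.mem_range.1 (hR hr)
    set α := (r + (W - 1) * (N + 1)) % W with hα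
    have hαW : α < W := Nat.mod_lt _ hW0
    have hαr : (N + 1 + α) % W = r := by
      rw [hα, Nat.add_mod_mod]
      have : N + 1 + (r + (W - 1) * (N + 1)) = r + W * (N + 1) := by
        obtain ⟨k, rfl⟩ : ∃ k, W = k + 1 := ⟨W - 1, by omega⟩
        simp only [Nat.add_sub_cancel]
        ring
      rw [this, Nat.add_mul_mod_self_left, Nat.mod_eq_of_lt hrW]
    have hcard : #((Ioc N (2 * N)).filter (fun m => Rough z m ∧ m % W = r)) =
        cntAP W (N + 1 + α) (len N W α) z := by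
      unfold cntAP
      symm
      refine Finset.card_bij (fun k _ => N + 1 + α + W * k) ?_ ?_ ?_
      · intro k hk
        rw [Finset.mem_filter, Finset.mem_range, ← lt_len hW0] at hk
        rw [Finset.mem_filter, Finset.mem_Ioc]
        refine ⟨⟨by omega, by omega⟩, hk.2, ?_⟩
        rw [Nat.add_mul_mod_self_left, hαr]
      · intro k _ k' _ h
        simp only [Nat.add_left_cancel_iff] at h
        exact Nat.eq_of_mul_eq_mul_left hW0 h
      · intro m hm
        rw [Finset.mem_filter, Finset.mem_Ioc] at hm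
        obtain ⟨⟨hm1, hm2⟩, hm3, hm4⟩ := hm
        have h5 : m - (N + 1) ≡ α [MOD W] := by
          have h6 : N + 1 + (m - (N + 1)) ≡ N + 1 + α [MOD W] := by
            unfold Nat.ModEq
            rw [hαr, Nat.add_sub_cancel' (by omega), hm4]
          exact Nat.ModEq.add_left_cancel' _ h6
        have h6 : (m - (N + 1)) % W = α := by
          unfold Nat.ModEq at h5
          rw [h5, Nat.mod_eq_of_lt hαW]
        have h7 : m = N + 1 + α + W * ((m - (N + 1)) / W) := by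
          have := Nat.mod_add_div (m - (N + 1)) W
          rw [h6] at this
          omega
        refine ⟨(m - (N + 1)) / W, ?_, h7.symm⟩
        rw [Finset.mem_filter, Finset.mem_range, ← lt_len hW0]
        refine ⟨?_, ?_⟩
        · omega
        · rw [← h7]; exact hm3
    rw [hcard]
    have h3 := hmain s hs W (N + 1 + α) (len N W α) z hz hW
    have h4 := len_bounds (L := N) hW0 hαW
    have hV := V_pos z
    have hV1 := V_le_one z
    have hzs : (1 : ℝ) ≤ (z : ℝ) ^ (6 * s + 3) := Real.one_le_rpow hz1.le (by linarith)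
    have he1 : Real.exp (-s) ≤ 1 := Real.exp_le_one_iff.2 (by linarith)
    have he0 : 0 < Real.exp (-s) := Real.exp_pos _
    set l : ℝ := (len N W α : ℝ) with hl
    set x : ℝ := (N : ℝ) / W with hx
    have hx0 : 0 ≤ x := by positivity
    have hlx : l ≤ x + 1 := by have := (abs_le.1 h4).2; linarith
    have hdiff : |l * V z - x * V z| ≤ 1 := by
      rw [← sub_mul, abs_mul, abs_of_pos hV]
      calc |l - x| * V z ≤ 1 * 1 := by gcongr
        _ = 1 := one_mul 1
    calc |(cntAP W (N + 1 + α) (len N W α) z : ℝ) - x * V z|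
        ≤ |(cntAP W (N + 1 + α) (len N W α) z : ℝ) - l * V z| + |l * V z - x * V z| :=
          abs_sub_le _ _ _
      _ ≤ (C * Real.exp (-s) * (l * V z) + 2 * (z : ℝ) ^ (6 * s + 3)) + 1 := add_le_add h3 hdiff
      _ ≤ (C * Real.exp (-s) * ((x + 1) * V z) + 2 * (z : ℝ) ^ (6 * s + 3)) + 1 := by gcongr
      _ ≤ (C + 3) * Real.exp (-s) * (x * V z) + (C + 3) * (z : ℝ) ^ (6 * s + 3) := by
          have q1 : C * Real.exp (-s) * ((x + 1) * V z) =
              C * Real.exp (-s) * (x * V z) + C * (Real.exp (-s) * V z) := by ring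
          have q2 : Real.exp (-s) * V z ≤ 1 := by
            calc Real.exp (-s) * V z ≤ 1 * 1 := by gcongr
              _ = 1 := one_mul 1
          have q3 : 0 ≤ Real.exp (-s) * (x * V z) := by positivity
          have q4 : C * (Real.exp (-s) * V z) ≤ C * 1 := by gcongr
          rw [q1]
          nlinarith
  have h3 : (#𝓡 : ℝ) * ((N : ℝ) / W * V z) = ∑ r ∈ 𝓡, (N : ℝ) / W * V z := by
    rw [Finset.sum_const, nsmul_eq_mul]
  rw [h1, h3, ← Finset.sum_sub_distrib]
  refine (Finset.abs_sum_le_sum_abs _ _).trans ((Finset.sum_le_sum h2).trans ?_)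
  rw [Finset.sum_const, nsmul_eq_mul]

end Pool.Agent.Work.MP_2dba45_nt.OneS
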