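import Mathlib
import Pool.Agent.Work.MP_2dba45_nt.TwoD

set_option autoImplicit false

namespace Pool.Agent.Work.MP_2dba45_nt.Sq

open Finset Pool.Agent.Work.MP_2dba45_nt.TwoD

theorem sum_inv_sq_ge (z Y : ℕ) (hz : 2 ≤ z) : ∑ n ∈ Ico z Y, 1 / (n : ℝ) ^ 2 ≤ 2 / (z : ℝ) := by
  rcases Nat.lt_or_ge Y z with h | h
  · rw [Finset.Ico_eq_empty_of_le h.le, Finset.sum_empty]; positivity
  have hz' : (2 : ℝ) ≤ z := by exact_mod_cast hz
  have key : ∑ n ∈ Ico z Y, 1 / (n : ℝ) ^ 2 ≤ 1 / ((z : ℝ) - 1) - 1 / ((Y : ℝ) - 1) := by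
    induction Y, h using Nat.le_induction with
    | base => simp
    | succ Y hY ih =>
      rw [Finset.sum_Ico_succ_top hY]
      have hY' : (2 : ℝ) ≤ Y := by exact_mod_cast hz.trans hY
      have : 1 / (Y : ℝ) ^ 2 ≤ 1 / ((Y : ℝ) - 1) - 1 / (((Y + 1 : ℕ) : ℝ) - 1) := by
        push_cast
        have e : 1 / ((Y : ℝ) - 1) - 1 / ((Y : ℝ) + 1 - 1) = 1 / (((Y : ℝ) - 1) * Y) := by
          have h1 : (Y : ℝ) - 1 ≠ 0 := by linarith
          have h2 : (Y : ℝ) ≠ 0 := by linarith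
          rw [add_sub_cancel_right, div_sub_div _ _ h1 h2]
          congr 1
          ring
        rw [e]
        apply one_div_le_one_div_of_le
        · apply mul_pos <;> linarith
        · nlinarith
      linarith
  have hY' : (2 : ℝ) ≤ Y := by exact_mod_cast hz.trans h
  have h1 : 0 < 1 / ((Y : ℝ) - 1) := by
    apply one_div_pos.2; linarith
  have h2 : 1 / ((z : ℝ) - 1) ≤ 2 / (z : ℝ) := by
    rw [div_le_div_iff₀ (by linarith) (by linarith)]
    linarith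
  linarith

open Classical in
/-- number of `m` in a class of an interval -/
theorem class_card (N W r : ℕ) (hW : 0 < W) :
    (#((Ioc N (2 * N)).filter (fun m => m % W = r)) : ℝ) ≤ (N : ℝ) / W + 1 := by
  have hW' : (0 : ℝ) < W := by exact_mod_cast hW
  rcases Finset.eq_empty_or_nonempty ((Ioc N (2 * N)).filter (fun m => m % W = r)) with he | hne
  · rw [he]; simp; positivity
  · have h1 : #((Ioc N (2 * N)).filter (fun m => m % W = r)) ≤ #(range (N / W + 1)) := by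
      set m0 := ((Ioc N (2 * N)).filter (fun m => m % W = r)).min' hne with hm0
      have hm0' := Finset.min'_mem _ hne
      rw [← hm0, Finset.mem_filter, Finset.mem_Ioc] at hm0'
      apply Finset.card_le_card_of_injOn (fun m => (m - m0) / W)
      · intro m hm
        have hm1 := Finset.min'_le _ m hm
        rw [← hm0] at hm1
        simp only [Finset.coe_filter, Finset.mem_Ioc, Set.mem_ofPred_eq] at hm
        simp only [Finset.coe_range, Set.mem_Iio]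
        have : (m - m0) / W ≤ N / W := Nat.div_le_div_right (by omega)
        omega
      · intro m hm m' hm' heq
        have hm1 := Finset.min'_le _ m hm
        have hm1' := Finset.min'_le _ m' hm'
        rw [← hm0] at hm1 hm1'
        simp only [Finset.coe_filter, Finset.mem_Ioc, Set.mem_ofPred_eq] at hm hm'
        simp only at heq
        have e1 : (m - m0) % W = 0 := by
          apply Nat.mod_eq_zero_of_dvd
          exact (Nat.modEq_iff_dvd' hm1).1 (by unfold Nat.ModEq; omega)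
        have e2 : (m' - m0) % W = 0 := by
          apply Nat.mod_eq_zero_of_dvd
          exact (Nat.modEq_iff_dvd' hm1').1 (by unfold Nat.ModEq; omega)
        have f1 := Nat.mod_add_div (m - m0) W
        have f2 := Nat.mod_add_div (m' - m0) W
        rw [heq] at f1
        omega
    rw [Finset.card_range] at h1
    have h2 : ((N / W : ℕ) : ℝ) ≤ (N : ℝ) / W := Nat.cast_div_le
    calc (#((Ioc N (2 * N)).filter (fun m => m % W = r)) : ℝ) ≤ ((N / W + 1 : ℕ) : ℝ) := by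
          exact_mod_cast h1
      _ ≤ (N : ℝ) / W + 1 := by push_cast; linarith

theorem not_dvd_d {d p : ℕ} (hd : d = 1 ∨ d = 3) (hp : p.Prime) (h5 : 5 ≤ p) : ¬ p ∣ d := by
  intro h
  rcases hd with rfl | rfl
  · have := Nat.le_of_dvd (by norm_num) h; omega
  · have := Nat.le_of_dvd (by norm_num) h; omega

open Classical in
/-- few values divisible by a given prime square -/
theorem small_p {d : ℕ} (hd : d = 1 ∨ d = 3) (N p : ℕ) (hp : p.Prime) (h5 : 5 ≤ p) :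
    (#((Ioc N (2 * N)).filter (fun m => p ^ 2 ∣ m ^ 2 + d)) : ℝ) ≤ 2 * (N : ℝ) / (p : ℝ) ^ 2 + 2 := by
  have hp2 : 0 < p ^ 2 := by positivity
  rcases Finset.eq_empty_or_nonempty ((Ioc N (2 * N)).filter (fun m => p ^ 2 ∣ m ^ 2 + d))
    with he | ⟨m0, hm0⟩
  · rw [he]; simp; positivity
  · rw [Finset.mem_filter] at hm0
    have hsub : (Ioc N (2 * N)).filter (fun m => p ^ 2 ∣ m ^ 2 + d) ⊆
        (Ioc N (2 * N)).filter (fun m => m % p ^ 2 = m0 % p ^ 2) ∪
        (Ioc N (2 * N)).filter (fun m => m % p ^ 2 = (p ^ 2 * m0 - m0) % p ^ 2) := by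
      intro m hm
      rw [Finset.mem_filter] at hm
      rw [Finset.mem_union, Finset.mem_filter, Finset.mem_filter]
      have hprime : Prime (p : ℤ) := Nat.prime_iff_prime_int.1 hp
      have h1 : ((p : ℤ) ^ 2) ∣ ((m : ℤ) - m0) * (m + m0) := by
        have a1 : ((p : ℤ) ^ 2) ∣ (m : ℤ) ^ 2 + d := by exact_mod_cast hm.2
        have a2 : ((p : ℤ) ^ 2) ∣ (m0 : ℤ) ^ 2 + d := by exact_mod_cast hm0.2
        have := dvd_sub a1 a2
        have e : ((m : ℤ) - m0) * (m + m0) = ((m : ℤ) ^ 2 + d) - ((m0 : ℤ) ^ 2 + d) := by ring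
        rw [e]; exact this
      have hnot : ¬ ((p : ℤ) ∣ (m : ℤ) - m0 ∧ (p : ℤ) ∣ (m : ℤ) + m0) := by
        rintro ⟨b1, b2⟩
        have b3 : (p : ℤ) ∣ 2 * m := by
          have := dvd_add b1 b2
          have e : (2 : ℤ) * m = (m - m0) + (m + m0) := by ring
          rw [e]; exact this
        have b4 : (p : ℤ) ∣ m := by
          rcases hprime.dvd_or_dvd b3 with h | h
          · exfalso
            have := Int.le_of_dvd (by norm_num) h
            omega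
          · exact h
        have b5 : p ∣ m := by exact_mod_cast b4
        have b6 : p ∣ m ^ 2 + d := (dvd_pow_self p two_ne_zero).trans hm.2
        have b7 : p ∣ d := (Nat.dvd_add_right (Dvd.dvd.trans b5 (dvd_pow_self m two_ne_zero))).1 b6
        exact not_dvd_d hd hp h5 b7
      have hcases : ((p : ℤ) ^ 2) ∣ ((m : ℤ) - m0) ∨ ((p : ℤ) ^ 2) ∣ ((m : ℤ) + m0) := by
        by_cases hc : (p : ℤ) ∣ (m : ℤ) - m0
        · left
          have hc' : ¬ (p : ℤ) ∣ (m : ℤ) + m0 := fun h => hnot ⟨hc, h⟩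
          have hcop : IsCoprime ((p : ℤ) ^ 2) ((m : ℤ) + m0) :=
            IsCoprime.pow_left ((Prime.coprime_iff_not_dvd hprime).2 hc')
          exact hcop.dvd_of_dvd_mul_right h1
        · right
          have hcop : IsCoprime ((p : ℤ) ^ 2) ((m : ℤ) - m0) :=
            IsCoprime.pow_left ((Prime.coprime_iff_not_dvd hprime).2 hc)
          exact hcop.dvd_of_dvd_mul_left h1
      rcases hcases with h | h
      · left
        refine ⟨hm.1, ?_⟩
        have : (m0 : ℤ) ≡ m [ZMOD ((p ^ 2 : ℕ) : ℤ)] := by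
          rw [Int.modEq_iff_dvd]; exact_mod_cast h
        have := (Int.natCast_modEq_iff).1 this
        exact this.symm
      · right
        refine ⟨hm.1, ?_⟩
        have hle : m0 ≤ p ^ 2 * m0 := Nat.le_mul_of_pos_left _ hp2
        have : ((p ^ 2 * m0 - m0 : ℕ) : ℤ) ≡ m [ZMOD ((p ^ 2 : ℕ) : ℤ)] := by
          rw [Int.modEq_iff_dvd, Nat.cast_sub hle]
          have e : (m : ℤ) - (((p ^ 2 * m0 : ℕ) : ℤ) - m0) = (m + m0) - ((p ^ 2 : ℕ) : ℤ) * m0 := by
            push_cast; ring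
          rw [e]
          exact dvd_sub (by exact_mod_cast h) (dvd_mul_right _ _)
        have := (Int.natCast_modEq_iff).1 this
        exact this.symm
    have h1 := Finset.card_le_card hsub
    have h2 := Finset.card_union_le ((Ioc N (2 * N)).filter (fun m => m % p ^ 2 = m0 % p ^ 2))
        ((Ioc N (2 * N)).filter (fun m => m % p ^ 2 = (p ^ 2 * m0 - m0) % p ^ 2))
    have h3 := class_card N (p ^ 2) (m0 % p ^ 2) hp2
    have h4 := class_card N (p ^ 2) ((p ^ 2 * m0 - m0) % p ^ 2) hp2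
    have h5 : (#((Ioc N (2 * N)).filter (fun m => p ^ 2 ∣ m ^ 2 + d)) : ℝ) ≤
        #((Ioc N (2 * N)).filter (fun m => m % p ^ 2 = m0 % p ^ 2)) +
        #((Ioc N (2 * N)).filter (fun m => m % p ^ 2 = (p ^ 2 * m0 - m0) % p ^ 2)) := by
      exact_mod_cast h1.trans h2
    push_cast at h3 h4
    have e : 2 * (N : ℝ) / (p : ℝ) ^ 2 = N / (p : ℝ) ^ 2 + N / (p : ℝ) ^ 2 := by ring
    rw [e]
    linarith

/-- two solutions of `k p^2 = m^2 + d` of comparable size -/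
theorem two_sol {d : ℕ} (hd : d = 1 ∨ d = 3) {N k m1 p1 m2 p2 : ℕ} (hN : 3 ≤ N)
    (h1 : N < m1 ∧ m1 ≤ 2 * N) (h2 : N < m2 ∧ m2 ≤ 2 * N) (e1 : k * p1 ^ 2 = m1 ^ 2 + d)
    (e2 : k * p2 ^ 2 = m2 ^ 2 + d) : |(m1 : ℤ) * p2 - m2 * p1| ≤ 18 := by
  have hd3 : (d : ℤ) ≤ 3 := by rcases hd with rfl | rfl <;> norm_num
  have hd0 : (0 : ℤ) < d := by rcases hd with rfl | rfl <;> norm_num
  have E1 : (k : ℤ) * (p1 : ℤ) ^ 2 = (m1 : ℤ) ^ 2 + d := by exact_mod_cast e1
  have E2 : (k : ℤ) * (p2 : ℤ) ^ 2 = (m2 : ℤ) ^ 2 + d := by exact_mod_cast e2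
  have hm1 : (N : ℤ) < m1 := by exact_mod_cast h1.1
  have hm2 : (N : ℤ) < m2 := by exact_mod_cast h2.1
  have hm1' : (m1 : ℤ) ≤ 2 * N := by exact_mod_cast h1.2
  have hm2' : (m2 : ℤ) ≤ 2 * N := by exact_mod_cast h2.2
  have hN' : (3 : ℤ) ≤ N := by exact_mod_cast hN
  have hk : (1 : ℤ) ≤ k := by
    rcases Nat.eq_zero_or_pos k with h | h
    · rw [h] at e1; rcases hd with rfl | rfl <;> omega
    · exact_mod_cast h
  have hp10 : (0 : ℤ) ≤ p1 := by positivity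
  have hp20 : (0 : ℤ) ≤ p2 := by positivity
  have key : ((m1 : ℤ) * p2 - m2 * p1) * (m1 * p2 + m2 * p1) = d * ((p1 : ℤ) ^ 2 - (p2 : ℤ) ^ 2) := by
    linear_combination (p1 : ℤ) ^ 2 * E2 - (p2 : ℤ) ^ 2 * E1
  -- wlog via symmetric bounds
  have hb : ∀ (x y m m' : ℤ), 0 ≤ x → 0 ≤ y → (N : ℤ) < m → m ≤ 2 * N → (N : ℤ) < m' →
      m' ≤ 2 * N → (k : ℤ) * x ^ 2 = m ^ 2 + d → (k : ℤ) * y ^ 2 = m' ^ 2 + d →
      x ≤ y → y ^ 2 ≤ 5 * x ^ 2 ∧ x ≤ 3 * N := by
    intro x y m m' hx hy hm hm2 hm' hm'2 ex ey hxy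
    constructor
    · by_contra hcon
      push Not at hcon
      have : (k : ℤ) * (5 * x ^ 2) < k * y ^ 2 := by
        apply mul_lt_mul_of_pos_left hcon; linarith
      nlinarith
    · by_contra hcon
      push Not at hcon
      have : (9 : ℤ) * N ^ 2 < x ^ 2 := by nlinarith
      have : (k : ℤ) * (9 * N ^ 2) < k * x ^ 2 := by
        apply mul_lt_mul_of_pos_left this; linarith
      nlinarith
  by_contra hcon
  push Not at hcon
  have habs : |((m1 : ℤ) * p2 - m2 * p1)| * (m1 * p2 + m2 * p1) = d * |(p1 : ℤ) ^ 2 - (p2 : ℤ) ^ 2| := by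
    have hnn : (0 : ℤ) ≤ m1 * p2 + m2 * p1 := by positivity
    rw [← abs_of_nonneg hnn, ← abs_mul, key, abs_mul, abs_of_pos hd0]
    
  have fin : ∀ x y : ℤ, 0 ≤ x → x ≤ y → y ^ 2 ≤ 5 * x ^ 2 → x ≤ 3 * N → 0 < x →
      |(p1 : ℤ) ^ 2 - (p2 : ℤ) ^ 2| ≤ y ^ 2 - x ^ 2 → 2 * N * x ≤ m1 * p2 + m2 * p1 → False := by
    intro x y hx0 hxy b1 b2 hpos c1 c0
    have c2 : (19 : ℤ) * (2 * N * x) ≤ |((m1 : ℤ) * p2 - m2 * p1)| * (m1 * p2 + m2 * p1) := by
      have h17 : (19 : ℤ) ≤ |((m1 : ℤ) * p2 - m2 * p1)| := by omega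
      have h0 : (0 : ℤ) ≤ 2 * N * x := by positivity
      calc (19 : ℤ) * (2 * N * x) ≤ |((m1 : ℤ) * p2 - m2 * p1)| * (2 * N * x) := by gcongr
        _ ≤ _ := by gcongr
    have c3 : (d : ℤ) * |(p1 : ℤ) ^ 2 - (p2 : ℤ) ^ 2| ≤ 3 * (4 * x ^ 2) := by
      have : |(p1 : ℤ) ^ 2 - (p2 : ℤ) ^ 2| ≤ 4 * x ^ 2 := by linarith
      gcongr
    have c4 : (19 : ℤ) * (2 * N * x) ≤ 12 * x ^ 2 := by linarith
    have c5 : (19 : ℤ) * (2 * N) * x ≤ (12 * x) * x := by linarith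
    have c6 := le_of_mul_le_mul_right c5 hpos
    linarith
  have hp1pos : 0 < (p1 : ℤ) := by
    rcases hp10.eq_or_lt with h | h
    · rw [← h] at E1; nlinarith
    · exact h
  have hp2pos : 0 < (p2 : ℤ) := by
    rcases hp20.eq_or_lt with h | h
    · rw [← h] at E2; nlinarith
    · exact h
  rcases le_total (p1 : ℤ) p2 with hle | hle
  · obtain ⟨b1, b2⟩ := hb p1 p2 m1 m2 hp10 hp20 hm1 hm1' hm2 hm2' E1 E2 hle
    refine fin p1 p2 hp10 hle b1 b2 hp1pos ?_ (by nlinarith)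
    rw [abs_le]; constructor <;> nlinarith
  · obtain ⟨b1, b2⟩ := hb p2 p1 m2 m1 hp20 hp10 hm2 hm2' hm1 hm1' E2 E1 hle
    refine fin p2 p1 hp20 hle b1 b2 hp2pos ?_ (by nlinarith)
    rw [abs_le]; constructor <;> nlinarith

open Classical in
/-- few values divisible by the square of a large prime -/
theorem large_p {d : ℕ} (hd : d = 1 ∨ d = 3) (N Y : ℕ) (hN : 3 ≤ N) (hY : 5 ≤ Y) :
    (#((Ioc N (2 * N)).filter (fun m => ∃ p : ℕ, p.Prime ∧ Y ≤ p ∧ p ^ 2 ∣ m ^ 2 + d)) : ℝ) ≤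
      200 * (N : ℝ) ^ 2 / (Y : ℝ) ^ 2 := by
  set S := (Ioc N (2 * N)).filter (fun m => ∃ p : ℕ, p.Prime ∧ Y ≤ p ∧ p ^ 2 ∣ m ^ 2 + d) with hS
  have hex : ∀ m ∈ S, ∃ x : ℕ × ℕ, x.1.Prime ∧ Y ≤ x.1 ∧ x.2 * x.1 ^ 2 = m ^ 2 + d := by
    intro m hm
    rw [hS, Finset.mem_filter] at hm
    obtain ⟨p, hp, hYp, k, hk⟩ := hm.2
    exact ⟨(p, k), hp, hYp, by rw [hk]; ring⟩
  choose! t ht using hex
  have hdle : d ≤ 3 := by rcases hd with rfl | rfl <;> norm_num
  have hfib : ∀ k ∈ S.image (fun m => (t m).2), #(S.filter (fun m => (t m).2 = k)) ≤ 37 := by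
    intro k hk
    rw [Finset.mem_image] at hk
    obtain ⟨m1, hm1, hk1⟩ := hk
    obtain ⟨a1, a2, a3⟩ := ht m1 hm1
    have hm1' : N < m1 ∧ m1 ≤ 2 * N := by
      rw [hS, Finset.mem_filter, Finset.mem_Ioc] at hm1; exact hm1.1
    have hcop : IsCoprime (m1 : ℤ) ((t m1).1 : ℤ) := by
      rw [Nat.isCoprime_iff_coprime, Nat.coprime_comm, Nat.Prime.coprime_iff_not_dvd a1]
      intro h
      have h2 : (t m1).1 ∣ m1 ^ 2 + d := by
        rw [← a3]
        exact Dvd.dvd.mul_left (dvd_pow_self _ two_ne_zero) _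
      have h3 : (t m1).1 ∣ d := (Nat.dvd_add_right (Dvd.dvd.trans h (dvd_pow_self m1 two_ne_zero))).1 h2
      exact not_dvd_d hd a1 (by omega) h3
    have hcard : #(Finset.Icc (-18 : ℤ) 18) = 37 := by decide
    rw [← hcard]
    apply Finset.card_le_card_of_injOn (fun m => (m1 : ℤ) * (t m).1 - m * (t m1).1)
    · intro m hm
      simp only [Finset.coe_filter, Set.mem_ofPred_eq] at hm
      obtain ⟨b1, b2, b3⟩ := ht m hm.1
      have hm' : N < m ∧ m ≤ 2 * N := by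
        have := hm.1
        rw [hS, Finset.mem_filter, Finset.mem_Ioc] at this; exact this.1
      have h4 := two_sol hd hN hm1' hm' (k := k) (p1 := (t m1).1) (p2 := (t m).1)
        (by rw [← hk1]; exact a3) (by rw [← hm.2]; exact b3)
      rw [Finset.coe_Icc, Set.mem_Icc]
      exact abs_le.1 h4
    · intro m hm m' hm' heq
      simp only [Finset.coe_filter, Set.mem_ofPred_eq] at hm hm'
      simp only at heq
      have hmN : N < m ∧ m ≤ 2 * N := by
        have := hm.1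
        rw [hS, Finset.mem_filter, Finset.mem_Ioc] at this; exact this.1
      have hmN' : N < m' ∧ m' ≤ 2 * N := by
        have := hm'.1
        rw [hS, Finset.mem_filter, Finset.mem_Ioc] at this; exact this.1
      have h5 : (m1 : ℤ) * (((t m).1 : ℤ) - (t m').1) = (((m : ℤ) - m')) * ((t m1).1 : ℤ) := by
        linarith
      have h6 : (m1 : ℤ) ∣ ((m : ℤ) - m') * ((t m1).1 : ℤ) := ⟨_, h5.symm⟩
      have h7 : (m1 : ℤ) ∣ (m : ℤ) - m' := hcop.dvd_of_dvd_mul_right h6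
      have h8 : |(m : ℤ) - m'| < m1 := by
        rw [abs_lt]; constructor <;> omega
      have h9 := Int.eq_zero_of_abs_lt_dvd h7 h8
      omega
  have himg : #(S.image (fun m => (t m).2)) ≤ 5 * N ^ 2 / Y ^ 2 := by
    have : S.image (fun m => (t m).2) ⊆ Icc 1 (5 * N ^ 2 / Y ^ 2) := by
      intro k hk
      rw [Finset.mem_image] at hk
      obtain ⟨m, hm, rfl⟩ := hk
      obtain ⟨b1, b2, b3⟩ := ht m hm
      rw [hS, Finset.mem_filter, Finset.mem_Ioc] at hm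
      rw [Finset.mem_Icc]
      constructor
      · by_contra h
        have h0 : (t m).2 = 0 := by omega
        rw [h0] at b3
        rcases hd with rfl | rfl <;> omega
      · rw [Nat.le_div_iff_mul_le (by positivity)]
        calc (t m).2 * Y ^ 2 ≤ (t m).2 * (t m).1 ^ 2 := by gcongr
          _ = m ^ 2 + d := b3
          _ ≤ (2 * N) ^ 2 + 3 := by
              have := hm.1.2
              gcongr
          _ ≤ 5 * N ^ 2 := by nlinarith
    calc #(S.image (fun m => (t m).2)) ≤ #(Icc 1 (5 * N ^ 2 / Y ^ 2)) := Finset.card_le_card this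
      _ = 5 * N ^ 2 / Y ^ 2 := by rw [Nat.card_Icc, Nat.add_sub_cancel]
  have h1 := Finset.card_le_mul_card_image (s := S) (f := fun m => (t m).2) 37 hfib
  have h2 : ((5 * N ^ 2 / Y ^ 2 : ℕ) : ℝ) ≤ 5 * (N : ℝ) ^ 2 / (Y : ℝ) ^ 2 := by
    refine Nat.cast_div_le.trans (le_of_eq ?_)
    push_cast; ring
  calc (#S : ℝ) ≤ 37 * ((5 * N ^ 2 / Y ^ 2 : ℕ) : ℝ) := by
        exact_mod_cast h1.trans (Nat.mul_le_mul_left _ himg)
    _ ≤ 37 * (5 * (N : ℝ) ^ 2 / (Y : ℝ) ^ 2) := by gcongr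
    _ = 185 * ((N : ℝ) ^ 2 / (Y : ℝ) ^ 2) := by ring
    _ ≤ 200 * ((N : ℝ) ^ 2 / (Y : ℝ) ^ 2) := by
        have : 0 ≤ (N : ℝ) ^ 2 / (Y : ℝ) ^ 2 := by positivity
        linarith
    _ = _ := by ring

open Classical in
/-- few values are divisible by a prime square with the prime at least `z` -/
theorem squares {d : ℕ} (hd : d = 1 ∨ d = 3) (N z Y : ℕ) (hN : 3 ≤ N) (hz : 5 ≤ z) (hY : 5 ≤ Y) :
    (#((Ioc N (2 * N)).filter (fun m => ∃ p : ℕ, p.Prime ∧ z ≤ p ∧ p ^ 2 ∣ m ^ 2 + d)) : ℝ) ≤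
      4 * (N : ℝ) / z + 2 * Y + 200 * (N : ℝ) ^ 2 / (Y : ℝ) ^ 2 := by
  have hsub : (Ioc N (2 * N)).filter (fun m => ∃ p : ℕ, p.Prime ∧ z ≤ p ∧ p ^ 2 ∣ m ^ 2 + d) ⊆
      ((Ico z Y).filter Nat.Prime).biUnion
        (fun p => (Ioc N (2 * N)).filter (fun m => p ^ 2 ∣ m ^ 2 + d)) ∪
      (Ioc N (2 * N)).filter (fun m => ∃ p : ℕ, p.Prime ∧ Y ≤ p ∧ p ^ 2 ∣ m ^ 2 + d) := by
    intro m hm
    rw [Finset.mem_filter] at hm
    obtain ⟨hm1, p, hp, hzp, hdvd⟩ := hm
    rw [Finset.mem_union, Finset.mem_biUnion]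
    rcases Nat.lt_or_ge p Y with h | h
    · left
      exact ⟨p, Finset.mem_filter.2 ⟨Finset.mem_Ico.2 ⟨hzp, h⟩, hp⟩, Finset.mem_filter.2 ⟨hm1, hdvd⟩⟩
    · right
      exact Finset.mem_filter.2 ⟨hm1, p, hp, h, hdvd⟩
  have h1 := (Finset.card_le_card hsub).trans (Finset.card_union_le _ _)
  have h2 := large_p hd N Y hN hY
  have h3 : (#(((Ico z Y).filter Nat.Prime).biUnion
        (fun p => (Ioc N (2 * N)).filter (fun m => p ^ 2 ∣ m ^ 2 + d))) : ℝ) ≤
      4 * (N : ℝ) / z + 2 * Y := by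
    calc (#(((Ico z Y).filter Nat.Prime).biUnion
        (fun p => (Ioc N (2 * N)).filter (fun m => p ^ 2 ∣ m ^ 2 + d))) : ℝ)
        ≤ ∑ p ∈ (Ico z Y).filter Nat.Prime,
          (#((Ioc N (2 * N)).filter (fun m => p ^ 2 ∣ m ^ 2 + d)) : ℝ) := by
          exact_mod_cast Finset.card_biUnion_le
      _ ≤ ∑ p ∈ (Ico z Y).filter Nat.Prime, (2 * (N : ℝ) / (p : ℝ) ^ 2 + 2) := by
          refine Finset.sum_le_sum fun p hp => ?_
          rw [Finset.mem_filter, Finset.mem_Ico] at hp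
          exact small_p hd N p hp.2 (by omega)
      _ ≤ ∑ p ∈ Ico z Y, (2 * (N : ℝ) / (p : ℝ) ^ 2 + 2) := by
          apply Finset.sum_le_sum_of_subset_of_nonneg (Finset.filter_subset _ _)
          intro p _ _; positivity
      _ = 2 * N * ∑ p ∈ Ico z Y, 1 / (p : ℝ) ^ 2 + 2 * (#(Ico z Y) : ℝ) := by
          rw [Finset.sum_add_distrib, Finset.mul_sum, Finset.sum_const, nsmul_eq_mul, mul_comm 2]
          congr 1
          · refine Finset.sum_congr rfl fun p _ => ?_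
            ring
          · ring
      _ ≤ 2 * N * (2 / z) + 2 * Y := by
          have h4 := sum_inv_sq_ge z Y (by omega)
          have h5 : (#(Ico z Y) : ℝ) ≤ Y := by
            rw [Nat.card_Ico]; exact_mod_cast Nat.sub_le _ _
          gcongr
      _ = _ := by ring
  have h4 : (#((Ioc N (2 * N)).filter (fun m => ∃ p : ℕ, p.Prime ∧ z ≤ p ∧ p ^ 2 ∣ m ^ 2 + d)) : ℝ) ≤
      #(((Ico z Y).filter Nat.Prime).biUnion
        (fun p => (Ioc N (2 * N)).filter (fun m => p ^ 2 ∣ m ^ 2 + d))) +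
      #((Ioc N (2 * N)).filter (fun m => ∃ p : ℕ, p.Prime ∧ Y ≤ p ∧ p ^ 2 ∣ m ^ 2 + d)) := by
    exact_mod_cast h1
  linarith

end Pool.Agent.Work.MP_2dba45_nt.Sq
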