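import Mathlib
import Pool.Agent.Work.MP_2dba45_nt.Sq
import Pool.Agent.Work.MP_2dba45_nt.OneS
import Pool.Agent.Work.MP_2dba45_nt.BlockB

set_option autoImplicit false

namespace Pool.Agent.Work.MP_2dba45_nt.Fin

open Finset Filter Pool.Agent.Work.MP_2dba45_nt.TwoD Pool.Agent.Work.MP_2dba45_nt.Nu
  Pool.Agent.Work.MP_2dba45_nt.VV Pool.Agent.Work.MP_2dba45_nt.Psum
  Pool.Agent.Work.MP_2dba45_nt.Rep Pool.Agent.Work.MP_2dba45_nt.OneS
  Pool.Agent.Work.MP_2dba45_nt.Loc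

/-- for every exponent, eventually a power of `N` is large -/
theorem ev_rpow (κ : ℝ) (hκ : 0 < κ) (C : ℝ) : ∀ᶠ N : ℕ in atTop, C ≤ (N : ℝ) ^ κ :=
  ((tendsto_rpow_atTop hκ).comp tendsto_natCast_atTop_atTop).eventually_ge_atTop C

theorem ev_log (C : ℝ) : ∀ᶠ N : ℕ in atTop, C ≤ Real.log N :=
  (Real.tendsto_log_atTop.comp tendsto_natCast_atTop_atTop).eventually_ge_atTop C

theorem log_le_pow (κ : ℝ) (hκ : 0 < κ) : ∀ᶠ N : ℕ in atTop, Real.log N ≤ (N : ℝ) ^ κ := by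
  filter_upwards [ev_rpow (κ / 2) (by positivity) (2 / κ), eventually_ge_atTop 1] with N h1 h2
  have hN : (1 : ℝ) ≤ N := by exact_mod_cast h2
  have h3 := Real.log_le_rpow_div (show (0 : ℝ) ≤ N by linarith) (show 0 < κ / 2 by positivity)
  have h4 : (N : ℝ) ^ κ = (N : ℝ) ^ (κ / 2) * (N : ℝ) ^ (κ / 2) := by
    rw [← Real.rpow_add (by linarith)]; ring_nf
  rw [h4]
  refine h3.trans ?_
  have h5 : (N : ℝ) ^ (κ / 2) / (κ / 2) = (2 / κ) * (N : ℝ) ^ (κ / 2) := by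
    field_simp
  rw [h5]
  gcongr

/-- the expected size -/
noncomputable def XX (N z : ℕ) : ℝ := (N : ℝ) * V z

theorem XX_big (κ : ℝ) (hκ : 0 < κ) : ∀ᶠ N : ℕ in atTop, ∀ z : ℕ, 2 ≤ z → z ≤ N →
    (N : ℝ) ^ (1 - κ) ≤ XX N z := by
  obtain ⟨c, hc, hV⟩ := V_ge
  filter_upwards [log_le_pow (κ / 4) (by positivity), ev_rpow (κ / 2) (by positivity) (1 / c),
    eventually_ge_atTop 3] with N h1 h2 h3 z hz hzN
  have hN : (3 : ℝ) ≤ N := by exact_mod_cast h3
  have hN0 : (0 : ℝ) < N := by linarith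
  have hlz : 0 < Real.log z := Real.log_pos (by exact_mod_cast (by omega : 1 < z))
  have hlzN : Real.log z ≤ Real.log N :=
    Real.log_le_log (by exact_mod_cast (by omega : 0 < z)) (by exact_mod_cast hzN)
  have h4 := hV z hz
  have h5 : (Real.log z) ^ 2 ≤ (N : ℝ) ^ (κ / 2) := by
    calc (Real.log z) ^ 2 ≤ ((N : ℝ) ^ (κ / 4)) ^ 2 := by
          gcongr
          exact hlzN.trans h1
      _ = (N : ℝ) ^ (κ / 2) := by
          rw [← Real.rpow_natCast, ← Real.rpow_mul hN0.le]; ring_nf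
  have h6 : (N : ℝ) ^ (-κ) ≤ V z := by
    refine le_trans ?_ h4
    rw [le_div_iff₀ (by positivity)]
    calc (N : ℝ) ^ (-κ) * (Real.log z) ^ 2 ≤ (N : ℝ) ^ (-κ) * (N : ℝ) ^ (κ / 2) := by gcongr
      _ = (N : ℝ) ^ (-(κ / 2)) := by rw [← Real.rpow_add hN0]; ring_nf
      _ = ((N : ℝ) ^ (κ / 2))⁻¹ := Real.rpow_neg hN0.le _
      _ ≤ c := by
          rw [inv_le_comm₀ (by positivity) hc, ← one_div]
          exact h2
  unfold XX
  calc (N : ℝ) ^ (1 - κ) = N * (N : ℝ) ^ (-κ) := by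
        rw [sub_eq_add_neg, Real.rpow_add hN0, Real.rpow_one]
    _ ≤ N * V z := by gcongr

open Classical in
/-- rough `m` in the dyadic interval -/
noncomputable def SS (N z : ℕ) : Finset ℕ := (Ioc N (2 * N)).filter (fun m => Rough z m)

theorem mem_SS {N z m : ℕ} : m ∈ SS N z ↔ (N < m ∧ m ≤ 2 * N) ∧ Rough z m := by
  classical
  unfold SS
  rw [Finset.mem_filter, Finset.mem_Ioc]

theorem dvd_mod_iff {d p W m : ℕ} (h : p ∣ W) : p ∣ m ^ 2 + d ↔ p ∣ (m % W) ^ 2 + d := by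
  rw [← ZMod.natCast_eq_zero_iff, ← ZMod.natCast_eq_zero_iff]
  have h1 : ((m % W : ℕ) : ZMod p) = (m : ZMod p) := by
    rw [ZMod.natCast_eq_natCast_iff]
    exact (Nat.mod_modEq m W).of_dvd h
  push_cast
  rw [h1]

open Classical in
/-- counts of rough numbers with prescribed divisors -/
theorem counts : ∃ s0 C : ℝ, 5 ≤ s0 ∧ 0 < C ∧ ∀ s : ℝ, s0 ≤ s → ∀ N z : ℕ, 2 ≤ z →
    (|(#(SS N z) : ℝ) - XX N z| ≤ C * Real.exp (-s) * XX N z + C * (z : ℝ) ^ (6 * s + 3)) ∧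
    (∀ d p : ℕ, p.Prime → z ≤ p → 
      (#((SS N z).filter (fun m => p ∣ m ^ 2 + d)) : ℝ) ≤
        (nu d p : ℝ) * ((1 + C * Real.exp (-s)) * (XX N z / p) + C * (z : ℝ) ^ (6 * s + 3))) ∧
    (∀ p1 p3 : ℕ, p1.Prime → p3.Prime → z ≤ p1 → z ≤ p3 → p1 ≠ p3 →
      (nu 1 p1 : ℝ) * nu 3 p3 * ((1 - C * Real.exp (-s)) * (XX N z / (p1 * p3)) -
        C * (z : ℝ) ^ (6 * s + 3)) ≤
      (#((SS N z).filter (fun m => p1 ∣ m ^ 2 + 1 ∧ p3 ∣ m ^ 2 + 3)) : ℝ)) := by
  obtain ⟨s0, C, hs0, hC, hmain⟩ := rough_classes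
  refine ⟨s0, C, hs0, hC, fun s hs N z hz => ⟨?_, ?_, ?_⟩⟩
  · have h := hmain s hs N z 1 hz one_pos (fun q hq hdvd => by
      have := (mem_PP.1 hq).2
      rw [Nat.dvd_one] at hdvd
      rw [hdvd] at this
      exact Nat.not_prime_one this) {0} (by simp)
    have h1 : (Ioc N (2 * N)).filter (fun m => Rough z m ∧ m % 1 ∈ ({0} : Finset ℕ)) = SS N z := by
      ext m
      rw [Finset.mem_filter, mem_SS, Finset.mem_Ioc]
      simp [Nat.mod_one]
    rw [h1] at h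
    simp only [Finset.card_singleton, Nat.cast_one, one_mul, div_one] at h
    exact h
  · intro d p hp hzp
    have hp0 : (0 : ℝ) < p := by exact_mod_cast hp.pos
    have h := hmain s hs N z p hz hp.pos (fun q hq hdvd => by
      rw [mem_PP] at hq
      have := (Nat.prime_dvd_prime_iff_eq hq.2 hp).1 hdvd
      omega) ((range p).filter (fun r => p ∣ r ^ 2 + d)) (Finset.filter_subset _ _)
    have h1 : (Ioc N (2 * N)).filter (fun m => Rough z m ∧
        m % p ∈ (range p).filter (fun r => p ∣ r ^ 2 + d)) =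
        (SS N z).filter (fun m => p ∣ m ^ 2 + d) := by
      ext m
      simp only [Finset.mem_filter, mem_SS, Finset.mem_Ioc, Finset.mem_range]
      rw [← dvd_mod_iff (dvd_refl p)]
      have := Nat.mod_lt m hp.pos
      tauto
    have h2 : #((range p).filter (fun r => p ∣ r ^ 2 + d)) = nu d p := rfl
    rw [h1, h2] at h
    have h3 := (abs_le.1 h).2
    have e : (N : ℝ) / p * V z = XX N z / p := by unfold XX; ring
    rw [e] at h3
    calc (#((SS N z).filter (fun m => p ∣ m ^ 2 + d)) : ℝ)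
        ≤ (nu d p : ℝ) * (XX N z / p) + (nu d p : ℝ) * (C * Real.exp (-s) * (XX N z / p) +
          C * (z : ℝ) ^ (6 * s + 3)) := by linarith
      _ = _ := by ring
  · intro p1 p3 hp1 hp3 hz1 hz3 hne
    have hp10 : (0 : ℝ) < p1 := by exact_mod_cast hp1.pos
    have hp30 : (0 : ℝ) < p3 := by exact_mod_cast hp3.pos
    have hcop : Nat.Coprime p1 p3 := (Nat.coprime_primes hp1 hp3).2 hne
    set 𝓡 := (range (p1 * p3)).filter (fun r => p1 ∣ r ^ 2 + 1 ∧ p3 ∣ r ^ 2 + 3) with hR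
    have h := hmain s hs N z (p1 * p3) hz (Nat.mul_pos hp1.pos hp3.pos) (fun q hq hdvd => by
      rw [mem_PP] at hq
      rcases (Nat.Prime.dvd_mul hq.2).1 hdvd with h | h
      · have := (Nat.prime_dvd_prime_iff_eq hq.2 hp1).1 h
        omega
      · have := (Nat.prime_dvd_prime_iff_eq hq.2 hp3).1 h
        omega) 𝓡 (Finset.filter_subset _ _)
    have h1 : (Ioc N (2 * N)).filter (fun m => Rough z m ∧ m % (p1 * p3) ∈ 𝓡) =
        (SS N z).filter (fun m => p1 ∣ m ^ 2 + 1 ∧ p3 ∣ m ^ 2 + 3) := by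
      ext m
      simp only [hR, Finset.mem_filter, mem_SS, Finset.mem_Ioc, Finset.mem_range]
      rw [← dvd_mod_iff (dvd_mul_right p1 p3), ← dvd_mod_iff (dvd_mul_left p3 p1)]
      have := Nat.mod_lt m (Nat.mul_pos hp1.pos hp3.pos)
      tauto
    have h2 : #𝓡 = nu 1 p1 * nu 3 p3 := by
      have h3 := Crt.sum_crt_two p1 p3 hcop hp1.pos hp3.pos
        (fun x => if p1 ∣ x ^ 2 + 1 then 1 else 0) (fun x => if p3 ∣ x ^ 2 + 3 then 1 else 0)
      unfold nu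
      rw [hR, Finset.card_filter, Finset.card_filter, Finset.card_filter, ← h3]
      refine Finset.sum_congr rfl fun x _ => ?_
      have i1 := dvd_mod_iff (d := 1) (m := x) (dvd_refl p1)
      have i3 := dvd_mod_iff (d := 3) (m := x) (dvd_refl p3)
      by_cases ha : p1 ∣ (x % p1) ^ 2 + 1 <;> by_cases hb : p3 ∣ (x % p3) ^ 2 + 3 <;>
        simp [ha, hb, i1, i3]
    rw [h1, h2] at h
    have h3 := (abs_le.1 h).1
    push_cast at h3
    have e : (N : ℝ) / (p1 * p3) * V z = XX N z / (p1 * p3) := by unfold XX; ring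
    rw [e] at h3
    calc (nu 1 p1 : ℝ) * nu 3 p3 * ((1 - C * Real.exp (-s)) * (XX N z / (p1 * p3)) -
        C * (z : ℝ) ^ (6 * s + 3))
        = (nu 1 p1 : ℝ) * nu 3 p3 * (XX N z / (p1 * p3)) - (nu 1 p1 : ℝ) * nu 3 p3 *
          (C * Real.exp (-s) * (XX N z / (p1 * p3)) + C * (z : ℝ) ^ (6 * s + 3)) := by ring
      _ ≤ _ := by linarith

end Pool.Agent.Work.MP_2dba45_nt.Fin
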