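import Mathlib
import Pool.Agent.Work.MP_2dba45_nt.Fin1

set_option autoImplicit false

namespace Pool.Agent.Work.MP_2dba45_nt.Fin

open Finset Filter Pool.Agent.Work.MP_2dba45_nt.TwoD Pool.Agent.Work.MP_2dba45_nt.Nu
  Pool.Agent.Work.MP_2dba45_nt.VV Pool.Agent.Work.MP_2dba45_nt.Psum
  Pool.Agent.Work.MP_2dba45_nt.Rep Pool.Agent.Work.MP_2dba45_nt.OneS
  Pool.Agent.Work.MP_2dba45_nt.Loc Pool.Agent.Work.MP_2dba45_nt.Mert

open Classical in
/-- number of rough `m` with `p ∣ m^2+d` -/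
noncomputable def cdp (N z d p : ℕ) : ℕ := #((SS N z).filter (fun m => p ∣ m ^ 2 + d))

open Classical in
theorem sum_cdp (N z d P : ℕ) :
    ∑ p ∈ (Ioc P (2 * P)).filter Nat.Prime, cdp N z d p =
    #(((Ioc N (2 * N)) ×ˢ (Ioc P (2 * P))).filter
      (fun x : ℕ × ℕ => Rough z x.1 ∧ x.2.Prime ∧ x.2 ∣ x.1 ^ 2 + d)) := by
  rw [Finset.card_filter, Finset.sum_product_right, Finset.sum_filter]
  refine Finset.sum_congr rfl fun p _ => ?_
  by_cases hp : p.Prime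
  · rw [if_pos hp, cdp, SS, Finset.filter_filter, Finset.card_filter]
    refine Finset.sum_congr rfl fun m _ => ?_
    simp [hp]
  · rw [if_neg hp]
    symm
    apply Finset.sum_eq_zero
    intro m _
    simp [hp]

/-- the block bound in asymptotic form -/
theorem block_asym : ∃ C3 τ1 : ℝ, 0 < C3 ∧ 0 < τ1 ∧ τ1 ≤ 1 / 100 ∧ ∀ᶠ N : ℕ in atTop,
    ∀ z : ℕ, 2 ≤ z → (z : ℝ) ≤ (N : ℝ) ^ τ1 → ∀ P : ℕ, (N : ℝ) ^ (99 / 100 : ℝ) ≤ P →
    (P : ℝ) ≤ (N : ℝ) ^ (101 / 100 : ℝ) → ∀ d d' : ℕ, Pair d d' →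
    (∑ p ∈ (Ioc P (2 * P)).filter Nat.Prime, (cdp N z d p : ℝ)) ≤
      C3 * (XX N z / Real.log N) := by
  obtain ⟨C, K, hC, hK, hraw⟩ := Block.block_raw
  set τ1 : ℝ := 1 / (2400 * (2 * K + 1)) with hτ1
  have hK1 : 0 < 2 * K + 1 := by linarith
  have hτ0 : 0 < τ1 := by positivity
  have hτle : τ1 ≤ 1 / 2400 := by
    rw [hτ1]
    apply one_div_le_one_div_of_le (by norm_num)
    nlinarith
  have hKτ : (2 * K + 1) * τ1 * 6 = 1 / 400 := by
    rw [hτ1]; field_simp; norm_num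
  refine ⟨4 * C / τ1 + 1, τ1, by positivity, hτ0, by linarith, ?_⟩
  filter_upwards [XX_big (1 / 100) (by norm_num), ev_rpow τ1 hτ0 61, ev_rpow (1 / 1000) (by norm_num) (2 * C),
    log_le_pow (1 / 1000) (by norm_num), eventually_ge_atTop 3, ev_log (4 * Real.log 2 / τ1),
    ev_log 3] with N hXX h61 h2C hlogp hN3 hlogN hlog3 z hz hzN P hP1 hP2 d d' hdd
  have hN : (3 : ℝ) ≤ N := by exact_mod_cast hN3
  have hN0 : (0 : ℝ) < N := by linarith
  have hN1 : (1 : ℝ) ≤ N := by linarith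
  have hlN : 0 < Real.log N := by linarith
  set z' := ⌊(N : ℝ) ^ τ1⌋₊ with hz'
  have hNτ0 : 0 < (N : ℝ) ^ τ1 := by positivity
  have hz'60 : 60 ≤ z' := by
    rw [hz']
    apply Nat.le_floor
    push_cast
    linarith
  have hzz' : z ≤ z' := Nat.le_floor hzN
  have hz'le : (z' : ℝ) ≤ (N : ℝ) ^ τ1 := Nat.floor_le hNτ0.le
  have hz'P : z' ≤ P := by
    have : (z' : ℝ) ≤ P := by
      calc (z' : ℝ) ≤ (N : ℝ) ^ τ1 := hz'le
        _ ≤ (N : ℝ) ^ (99 / 100 : ℝ) := Real.rpow_le_rpow_of_exponent_le hN1 (by linarith)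
        _ ≤ P := hP1
    exact_mod_cast this
  have hzN' : z ≤ N := by
    have : (z : ℝ) ≤ N := by
      calc (z : ℝ) ≤ (N : ℝ) ^ τ1 := hzN
        _ ≤ (N : ℝ) ^ (1 : ℝ) := Real.rpow_le_rpow_of_exponent_le hN1 (by linarith)
        _ = N := Real.rpow_one _
    exact_mod_cast this
  have hb := hraw d d' N P z z' hdd hz'60 hzz' hz'P (by omega)
  have hb' : (∑ p ∈ (Ioc P (2 * P)).filter Nat.Prime, (cdp N z d p : ℝ)) ≤
      C * (V z / Real.log z') * (N + √P * (1 + Real.log P)) +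
      C * ((z' : ℝ) ^ (2 * K + 1)) ^ 6 * (√P + N / √P) * (P : ℝ) ^ (15 / 32 : ℝ) := by
    have := sum_cdp N z d P
    rw [← this] at hb
    push_cast at hb
    exact hb
  refine hb'.trans ?_
  have hP0 : (0 : ℝ) < P := by
    have : 0 < (N : ℝ) ^ (99 / 100 : ℝ) := by positivity
    linarith
  have hVz := V_pos z
  -- log z'
  have hlz' : τ1 / 2 * Real.log N ≤ Real.log z' := by
    have h1 : (N : ℝ) ^ τ1 / 2 ≤ z' := by
      have := Nat.lt_floor_add_one ((N : ℝ) ^ τ1)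
      rw [← hz'] at this
      linarith
    have h2 := Real.log_le_log (by positivity) h1
    rw [Real.log_div (by positivity) (by norm_num), Real.log_rpow hN0] at h2
    have h3 : Real.log 2 ≤ τ1 / 4 * Real.log N := by
      have := mul_le_mul_of_nonneg_left hlogN (show (0 : ℝ) ≤ τ1 / 4 by positivity)
      have e : τ1 / 4 * (4 * Real.log 2 / τ1) = Real.log 2 := by field_simp
      rw [e] at this
      exact this
    nlinarith [mul_pos hτ0 hlN]
  have hlz'0 : 0 < τ1 / 2 * Real.log N := by positivity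
  have hlogP : Real.log P ≤ 2 * Real.log N := by
    calc Real.log P ≤ Real.log ((N : ℝ) ^ (101 / 100 : ℝ)) := Real.log_le_log hP0 hP2
      _ = (101 / 100) * Real.log N := Real.log_rpow hN0 _
      _ ≤ 2 * Real.log N := by gcongr; norm_num
  have hsqP : √(P : ℝ) ≤ (N : ℝ) ^ (101 / 200 : ℝ) := by
    calc √(P : ℝ) ≤ √((N : ℝ) ^ (101 / 100 : ℝ)) := Real.sqrt_le_sqrt hP2
      _ = (N : ℝ) ^ (101 / 200 : ℝ) := by
        rw [Real.sqrt_eq_rpow, ← Real.rpow_mul hN0.le]; norm_num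
  have hsqP0 : 0 < √(P : ℝ) := Real.sqrt_pos.2 hP0
  have first : √(P : ℝ) * (1 + Real.log P) ≤ N := by
    calc √(P : ℝ) * (1 + Real.log P) ≤ (N : ℝ) ^ (101 / 200 : ℝ) * (3 * (N : ℝ) ^ (1 / 1000 : ℝ)) := by
          have h1 : 1 + Real.log P ≤ 3 * (N : ℝ) ^ (1 / 1000 : ℝ) := by linarith
          have h2 : 0 ≤ 1 + Real.log P := by
            have : (1 : ℝ) ≤ P := by
              have : (1 : ℝ) ≤ (N : ℝ) ^ (99 / 100 : ℝ) := Real.one_le_rpow hN1 (by norm_num)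
              linarith
            have := Real.log_nonneg this
            linarith
          gcongr
      _ ≤ (N : ℝ) ^ (101 / 200 : ℝ) * ((N : ℝ) ^ (1 / 10 : ℝ) * (N : ℝ) ^ (1 / 1000 : ℝ)) := by
          have h3 : (3 : ℝ) ≤ (N : ℝ) ^ (1 / 10 : ℝ) := by
            calc (3 : ℝ) ≤ 61 := by norm_num
              _ ≤ (N : ℝ) ^ τ1 := h61
              _ ≤ (N : ℝ) ^ (1 / 10 : ℝ) := Real.rpow_le_rpow_of_exponent_le hN1 (by linarith)
          gcongr
      _ = (N : ℝ) ^ (606 / 1000 : ℝ) := by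
          rw [← Real.rpow_add hN0, ← Real.rpow_add hN0]; norm_num
      _ ≤ (N : ℝ) ^ (1 : ℝ) := Real.rpow_le_rpow_of_exponent_le hN1 (by norm_num)
      _ = N := Real.rpow_one _
  have main1 : C * (V z / Real.log z') * (N + √P * (1 + Real.log P)) ≤
      4 * C / τ1 * (XX N z / Real.log N) := by
    calc C * (V z / Real.log z') * (N + √P * (1 + Real.log P))
        ≤ C * (V z / (τ1 / 2 * Real.log N)) * (N + N) := by gcongr
      _ = 4 * C / τ1 * (XX N z / Real.log N) := by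
          unfold XX
          field_simp
          ring
  have hD6 : ((z' : ℝ) ^ (2 * K + 1)) ^ 6 ≤ (N : ℝ) ^ (1 / 400 : ℝ) := by
    calc ((z' : ℝ) ^ (2 * K + 1)) ^ 6 ≤ (((N : ℝ) ^ τ1) ^ (2 * K + 1)) ^ 6 := by gcongr
      _ = (N : ℝ) ^ (1 / 400 : ℝ) := by
          rw [← Real.rpow_mul hN0.le, ← Real.rpow_natCast, ← Real.rpow_mul hN0.le]
          congr 1
          rw [← hKτ]
          push_cast
          ring
  have e1 : √(P : ℝ) * (P : ℝ) ^ (15 / 32 : ℝ) ≤ (N : ℝ) ^ (979 / 1000 : ℝ) := by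
    rw [Real.sqrt_eq_rpow, ← Real.rpow_add hP0]
    calc (P : ℝ) ^ (1 / 2 + 15 / 32 : ℝ) ≤ ((N : ℝ) ^ (101 / 100 : ℝ)) ^ (1 / 2 + 15 / 32 : ℝ) := by
          apply Real.rpow_le_rpow hP0.le hP2 (by norm_num)
      _ = (N : ℝ) ^ ((101 / 100) * (1 / 2 + 15 / 32) : ℝ) := by rw [← Real.rpow_mul hN0.le]
      _ ≤ (N : ℝ) ^ (979 / 1000 : ℝ) := Real.rpow_le_rpow_of_exponent_le hN1 (by norm_num)
  have e2 : (N : ℝ) / √(P : ℝ) * (P : ℝ) ^ (15 / 32 : ℝ) ≤ (N : ℝ) ^ (979 / 1000 : ℝ) := by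
    have e3 : (N : ℝ) / √(P : ℝ) * (P : ℝ) ^ (15 / 32 : ℝ) = N * (P : ℝ) ^ (-(1 / 32) : ℝ) := by
      rw [Real.sqrt_eq_rpow, div_mul_eq_mul_div, mul_div_assoc, ← Real.rpow_sub hP0]
      norm_num
    rw [e3]
    calc (N : ℝ) * (P : ℝ) ^ (-(1 / 32) : ℝ) ≤ N * ((N : ℝ) ^ (99 / 100 : ℝ)) ^ (-(1 / 32) : ℝ) := by
          apply mul_le_mul_of_nonneg_left _ hN0.le
          exact Real.rpow_le_rpow_of_nonpos (by positivity) hP1 (by norm_num)
      _ = (N : ℝ) ^ (1 + (99 / 100) * (-(1 / 32)) : ℝ) := by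
          rw [← Real.rpow_mul hN0.le, Real.rpow_add hN0, Real.rpow_one]
      _ ≤ (N : ℝ) ^ (979 / 1000 : ℝ) := Real.rpow_le_rpow_of_exponent_le hN1 (by norm_num)
  have main2 : C * ((z' : ℝ) ^ (2 * K + 1)) ^ 6 * (√P + N / √P) * (P : ℝ) ^ (15 / 32 : ℝ) ≤
      XX N z / Real.log N := by
    have f1 : (√(P : ℝ) + N / √P) * (P : ℝ) ^ (15 / 32 : ℝ) ≤ 2 * (N : ℝ) ^ (979 / 1000 : ℝ) := by
      rw [add_mul]; linarith
    have f2 := hXX z hz hzN'
    calc C * ((z' : ℝ) ^ (2 * K + 1)) ^ 6 * (√P + N / √P) * (P : ℝ) ^ (15 / 32 : ℝ)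
        = C * ((z' : ℝ) ^ (2 * K + 1)) ^ 6 * ((√P + N / √P) * (P : ℝ) ^ (15 / 32 : ℝ)) := by ring
      _ ≤ C * (N : ℝ) ^ (1 / 400 : ℝ) * (2 * (N : ℝ) ^ (979 / 1000 : ℝ)) := by gcongr
      _ = (2 * C) * ((N : ℝ) ^ (1 / 400 : ℝ) * (N : ℝ) ^ (979 / 1000 : ℝ)) := by ring
      _ ≤ (N : ℝ) ^ (1 / 1000 : ℝ) * ((N : ℝ) ^ (1 / 400 : ℝ) * (N : ℝ) ^ (979 / 1000 : ℝ)) := by
          gcongr
      _ = (N : ℝ) ^ (9825 / 10000 : ℝ) := by
          rw [← Real.rpow_add hN0, ← Real.rpow_add hN0]; norm_num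
      _ ≤ (N : ℝ) ^ (1 - 1 / 100 : ℝ) / (N : ℝ) ^ (1 / 1000 : ℝ) := by
          rw [← Real.rpow_sub hN0]
          exact Real.rpow_le_rpow_of_exponent_le hN1 (by norm_num)
      _ ≤ XX N z / Real.log N := by
          have hX0 : 0 < (N : ℝ) ^ (1 - 1 / 100 : ℝ) := by positivity
          gcongr
          linarith
  calc _ ≤ 4 * C / τ1 * (XX N z / Real.log N) + XX N z / Real.log N := add_le_add main1 main2
    _ = _ := by ring

/-- dyadic summation -/
theorem block_sum : ∃ C3 τ1 : ℝ, 0 < C3 ∧ 0 < τ1 ∧ τ1 ≤ 1 / 100 ∧ ∀ᶠ N : ℕ in atTop,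
    ∀ z : ℕ, 2 ≤ z → (z : ℝ) ≤ (N : ℝ) ^ τ1 → ∀ P : ℕ, (N : ℝ) ^ (99 / 100 : ℝ) ≤ P →
    ∀ J : ℕ, ((2 ^ J * P : ℕ) : ℝ) ≤ (N : ℝ) ^ (101 / 100 : ℝ) → ∀ d d' : ℕ, Pair d d' →
    (∑ p ∈ (Ioc P (2 ^ J * P)).filter Nat.Prime, Real.log p * (cdp N z d p : ℝ)) ≤
      C3 * J * XX N z := by
  obtain ⟨C3, τ1, hC3, hτ1, hτ1', hev⟩ := block_asym
  refine ⟨2 * C3, τ1, by positivity, hτ1, hτ1', ?_⟩
  filter_upwards [hev, eventually_ge_atTop 3] with N hb hN3 z hz hzN P hP J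
  have hN : (3 : ℝ) ≤ N := by exact_mod_cast hN3
  have hN0 : (0 : ℝ) < N := by linarith
  have hN1 : (1 : ℝ) ≤ N := by linarith
  have hlN : 0 < Real.log N := Real.log_pos (by linarith)
  have hX0 : 0 ≤ XX N z := by unfold XX; have := V_pos z; positivity
  induction J with
  | zero =>
    intro _ d d' hdd
    simp
  | succ J ih =>
    intro hJ d d' hdd
    have hle : 2 ^ J * P ≤ 2 ^ (J + 1) * P := by
      rw [pow_succ]; nlinarith [Nat.zero_le (2 ^ J * P)]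
    have hJ' : ((2 ^ J * P : ℕ) : ℝ) ≤ (N : ℝ) ^ (101 / 100 : ℝ) := by
      refine le_trans ?_ hJ
      exact_mod_cast hle
    have h1 := ih hJ' d d' hdd
    set Q := 2 ^ J * P with hQ
    have hQ2 : 2 ^ (J + 1) * P = 2 * Q := by rw [hQ, pow_succ]; ring
    rw [hQ2] at hJ ⊢
    have hPQ : P ≤ Q := by
      rw [hQ]; exact Nat.le_mul_of_pos_left _ (by positivity)
    have hsplit : (Ioc P (2 * Q)).filter Nat.Prime =
        (Ioc P Q).filter Nat.Prime ∪ (Ioc Q (2 * Q)).filter Nat.Prime := by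
      rw [← Finset.filter_union, Finset.Ioc_union_Ioc_eq_Ioc hPQ (by omega)]
    have hdisj : Disjoint ((Ioc P Q).filter Nat.Prime) ((Ioc Q (2 * Q)).filter Nat.Prime) := by
      rw [Finset.disjoint_left]
      intro p hp hp'
      rw [Finset.mem_filter, Finset.mem_Ioc] at hp hp'
      omega
    rw [hsplit, Finset.sum_union hdisj]
    have hPQ' : (P : ℝ) ≤ Q := by exact_mod_cast hPQ
    have h2 := hb z hz hzN Q (hP.trans hPQ') hJ' d d' hdd
    have h3 : ∑ p ∈ (Ioc Q (2 * Q)).filter Nat.Prime, Real.log p * (cdp N z d p : ℝ) ≤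
        2 * Real.log N * ∑ p ∈ (Ioc Q (2 * Q)).filter Nat.Prime, (cdp N z d p : ℝ) := by
      rw [Finset.mul_sum]
      refine Finset.sum_le_sum fun p hp => ?_
      rw [Finset.mem_filter, Finset.mem_Ioc] at hp
      have hp0 : (0 : ℝ) < p := by exact_mod_cast hp.2.pos
      have h4 : Real.log p ≤ 2 * Real.log N := by
        calc Real.log p ≤ Real.log ((N : ℝ) ^ (101 / 100 : ℝ)) := by
              apply Real.log_le_log hp0
              refine le_trans ?_ hJ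
              exact_mod_cast hp.1.2
          _ = (101 / 100) * Real.log N := Real.log_rpow hN0 _
          _ ≤ 2 * Real.log N := by gcongr; norm_num
      gcongr
    have h5 : 2 * Real.log N * ∑ p ∈ (Ioc Q (2 * Q)).filter Nat.Prime, (cdp N z d p : ℝ) ≤
        2 * C3 * XX N z := by
      calc 2 * Real.log N * ∑ p ∈ (Ioc Q (2 * Q)).filter Nat.Prime, (cdp N z d p : ℝ)
          ≤ 2 * Real.log N * (C3 * (XX N z / Real.log N)) := by gcongr
        _ = 2 * C3 * XX N z := by field_simp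
    push_cast
    push_cast at h1
    linarith

/-- medium primes -/
theorem med_sum : ∃ s0 C : ℝ, 5 ≤ s0 ∧ 0 < C ∧ ∀ s : ℝ, s0 ≤ s → ∀ N z y : ℕ, 2 ≤ z → 1 ≤ y →
    ∀ d : ℕ, (d = 1 ∨ d = 3) →
    (∑ p ∈ (Icc z y).filter Nat.Prime, Real.log p * (cdp N z d p : ℝ)) ≤
      (1 + C * Real.exp (-s)) * XX N z * (Real.log y + C) +
        C * (z : ℝ) ^ (6 * s + 3) * (y * Real.log y) := by
  obtain ⟨s0, C, hs0, hC, hcounts⟩ := counts
  obtain ⟨C', hC'0, hmert⟩ := mert_nu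
  refine ⟨s0, 2 * C + C', hs0, by linarith, fun s hs N z y hz hy d hd => ?_⟩
  have hX0 : 0 ≤ XX N z := by unfold XX; have := V_pos z; positivity
  have hy0 : (1 : ℝ) ≤ y := by exact_mod_cast hy
  have hly : 0 ≤ Real.log y := Real.log_nonneg hy0
  have hzp : 0 ≤ (z : ℝ) ^ (6 * s + 3) := by positivity
  have hterm : ∀ p ∈ (Icc z y).filter Nat.Prime, Real.log p * (cdp N z d p : ℝ) ≤
      (1 + C * Real.exp (-s)) * XX N z * ((nu d p : ℝ) * (Real.log p / p)) +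
        2 * C * (z : ℝ) ^ (6 * s + 3) * Real.log y := by
    intro p hp
    rw [Finset.mem_filter, Finset.mem_Icc] at hp
    have h1 := (hcounts s hs N z hz).2.1 d p hp.2 hp.1.1
    have hlp : 0 ≤ Real.log p := Real.log_nonneg (by exact_mod_cast hp.2.one_lt.le)
    have hlpy : Real.log p ≤ Real.log y :=
      Real.log_le_log (by exact_mod_cast hp.2.pos) (by exact_mod_cast hp.1.2)
    have hnu : (nu d p : ℝ) ≤ 2 := by exact_mod_cast nu_le d p hp.2
    have hc : (cdp N z d p : ℝ) ≤ (nu d p : ℝ) * ((1 + C * Real.exp (-s)) * (XX N z / p) +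
        C * (z : ℝ) ^ (6 * s + 3)) := h1
    calc Real.log p * (cdp N z d p : ℝ) ≤ Real.log p * ((nu d p : ℝ) *
          ((1 + C * Real.exp (-s)) * (XX N z / p) + C * (z : ℝ) ^ (6 * s + 3))) := by gcongr
      _ = (1 + C * Real.exp (-s)) * XX N z * ((nu d p : ℝ) * (Real.log p / p)) +
          (nu d p : ℝ) * C * (z : ℝ) ^ (6 * s + 3) * Real.log p := by ring
      _ ≤ (1 + C * Real.exp (-s)) * XX N z * ((nu d p : ℝ) * (Real.log p / p)) +
          2 * C * (z : ℝ) ^ (6 * s + 3) * Real.log y := by gcongr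
  refine (Finset.sum_le_sum hterm).trans ?_
  rw [Finset.sum_add_distrib, ← Finset.mul_sum, Finset.sum_const, nsmul_eq_mul]
  have h2 : ∑ p ∈ (Icc z y).filter Nat.Prime, (nu d p : ℝ) * (Real.log p / p) ≤
      Real.log y + C' := by
    have h3 := (abs_le.1 (hmert d hd y (by omega))).2
    have h4 : ∑ p ∈ (Icc z y).filter Nat.Prime, (nu d p : ℝ) * (Real.log p / p) ≤
        ∑ p ∈ (Ioc 0 y).filter Nat.Prime, (nu d p : ℝ) * (Real.log p / p) := by
      apply Finset.sum_le_sum_of_subset_of_nonneg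
      · intro p hp
        rw [Finset.mem_filter, Finset.mem_Icc] at hp
        rw [Finset.mem_filter, Finset.mem_Ioc]
        exact ⟨⟨hp.2.pos, hp.1.2⟩, hp.2⟩
      · intro p hp _
        rw [Finset.mem_filter] at hp
        have : 0 ≤ Real.log p := Real.log_nonneg (by exact_mod_cast hp.2.one_lt.le)
        positivity
    linarith
  have h5 : (#((Icc z y).filter Nat.Prime) : ℝ) ≤ y := by
    have : #((Icc z y).filter Nat.Prime) ≤ #(Icc 1 y) := by
      apply Finset.card_le_card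
      intro p hp
      rw [Finset.mem_filter, Finset.mem_Icc] at hp
      rw [Finset.mem_Icc]
      exact ⟨hp.2.pos, hp.1.2⟩
    rw [Nat.card_Icc, Nat.add_sub_cancel] at this
    exact_mod_cast this
  have he : 0 < Real.exp (-s) := Real.exp_pos _
  have h6 : 0 ≤ (1 + C * Real.exp (-s)) * XX N z := by positivity
  calc (1 + C * Real.exp (-s)) * XX N z * ∑ p ∈ (Icc z y).filter Nat.Prime,
        (nu d p : ℝ) * (Real.log p / p) +
        (#((Icc z y).filter Nat.Prime) : ℝ) * (2 * C * (z : ℝ) ^ (6 * s + 3) * Real.log y)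
      ≤ (1 + C * Real.exp (-s)) * XX N z * (Real.log y + C') +
        y * (2 * C * (z : ℝ) ^ (6 * s + 3) * Real.log y) := by gcongr
    _ ≤ (1 + (2 * C + C') * Real.exp (-s)) * XX N z * (Real.log y + (2 * C + C')) +
        (2 * C + C') * (z : ℝ) ^ (6 * s + 3) * (y * Real.log y) := by
        have g1 : (1 + C * Real.exp (-s)) * XX N z ≤ (1 + (2 * C + C') * Real.exp (-s)) * XX N z := by
          gcongr; linarith
        have g2 : (y : ℝ) * (2 * C * (z : ℝ) ^ (6 * s + 3) * Real.log y) ≤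
            (2 * C + C') * (z : ℝ) ^ (6 * s + 3) * (y * Real.log y) := by
          have : 0 ≤ (z : ℝ) ^ (6 * s + 3) * (y * Real.log y) := by positivity
          nlinarith
        have g3 : Real.log y + C' ≤ Real.log y + (2 * C + C') := by linarith
        have g4 : 0 ≤ Real.log y + C' := by linarith
        have g5 : 0 ≤ (1 + (2 * C + C') * Real.exp (-s)) * XX N z := h6.trans g1
        have g6 := mul_le_mul g1 g3 g4 g5
        linarith

end Pool.Agent.Work.MP_2dba45_nt.Fin
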