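import Mathlib
import Pool.Agent.Work.MP_2dba45_nt.Fin2

set_option autoImplicit false

namespace Pool.Agent.Work.MP_2dba45_nt.Fin

open Finset Filter Pool.Agent.Work.MP_2dba45_nt.TwoD Pool.Agent.Work.MP_2dba45_nt.Nu
  Pool.Agent.Work.MP_2dba45_nt.VV Pool.Agent.Work.MP_2dba45_nt.Psum
  Pool.Agent.Work.MP_2dba45_nt.Rep Pool.Agent.Work.MP_2dba45_nt.OneS
  Pool.Agent.Work.MP_2dba45_nt.Loc Pool.Agent.Work.MP_2dba45_nt.Mert

/-- log of a squarefree number -/
theorem log_eq_sum {n : ℕ} (hn : Squarefree n) :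
    Real.log n = ∑ p ∈ n.primeFactors, Real.log p := by
  have h1 : ((∏ p ∈ n.primeFactors, p : ℕ) : ℝ) = n := by
    rw [Nat.prod_primeFactors_of_squarefree hn]
  rw [← h1, Nat.cast_prod, Real.log_prod]
  intro p hp
  have := (Nat.prime_of_mem_primeFactors hp).pos
  positivity

/-- the part of the logarithm coming from prime factors larger than `w` -/
noncomputable def LL (w n : ℕ) : ℝ := ∑ p ∈ n.primeFactors.filter (fun p => w < p), Real.log p

theorem logp_nonneg {n p : ℕ} (hp : p ∈ n.primeFactors) : 0 ≤ Real.log p :=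
  Real.log_nonneg (by exact_mod_cast (Nat.prime_of_mem_primeFactors hp).one_lt.le)

theorem LL_nonneg (w n : ℕ) : 0 ≤ LL w n :=
  Finset.sum_nonneg fun _ hp => logp_nonneg (Finset.mem_filter.1 hp).1

theorem LL_le {w n : ℕ} (hn : Squarefree n) : LL w n ≤ Real.log n := by
  rw [log_eq_sum hn]
  exact Finset.sum_le_sum_of_subset_of_nonneg (Finset.filter_subset _ _)
    (fun p hp _ => logp_nonneg hp)

theorem LL_le' {w n p : ℕ} (hn : Squarefree n) (hp : p.Prime) (hpn : p ∣ n) (hpw : p ≤ w) :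
    LL w n ≤ Real.log n - Real.log p := by
  rw [log_eq_sum hn]
  have hmem : p ∈ n.primeFactors := Nat.mem_primeFactors.2 ⟨hp, hpn, hn.ne_zero⟩
  rw [← Finset.add_sum_erase _ _ hmem, add_sub_cancel_left]
  apply Finset.sum_le_sum_of_subset_of_nonneg
  · intro q hq
    rw [Finset.mem_filter] at hq
    rw [Finset.mem_erase]
    exact ⟨by omega, hq.1⟩
  · intro q hq _
    exact logp_nonneg (Finset.mem_of_mem_erase hq)

theorem LL_zero {w n : ℕ} (hn : n ≠ 0) (h : ¬ ∃ p : ℕ, p.Prime ∧ p ∣ n ∧ w < p) : LL w n = 0 := by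
  unfold LL
  apply Finset.sum_eq_zero
  intro p hp
  rw [Finset.mem_filter, Nat.mem_primeFactors] at hp
  exact absurd ⟨p, hp.1.1, hp.1.2.1, hp.2⟩ h

open Classical in
/-- squarefree part of the rough set -/
noncomputable def SQ (N z : ℕ) : Finset ℕ :=
  (SS N z).filter (fun m => Squarefree (m ^ 2 + 1) ∧ Squarefree (m ^ 2 + 3))

theorem SQ_sub (N z : ℕ) : SQ N z ⊆ SS N z := by
  classical
  exact Finset.filter_subset _ _

theorem mem_SQ {N z m : ℕ} : m ∈ SQ N z ↔ m ∈ SS N z ∧ Squarefree (m ^ 2 + 1) ∧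
    Squarefree (m ^ 2 + 3) := by
  classical
  unfold SQ
  rw [Finset.mem_filter]

theorem rough_ge {z m d p : ℕ} (hd : d = 1 ∨ d = 3) (h : Rough z m) (hp : p.Prime)
    (hdvd : p ∣ m ^ 2 + d) : z ≤ p := by
  by_contra hlt
  rcases hd with rfl | rfl
  · exact h p hp (by omega) (Dvd.dvd.mul_right hdvd _)
  · exact h p hp (by omega) (Dvd.dvd.mul_left hdvd _)

open Classical in
theorem card_SQ (N z Y : ℕ) (hN : 3 ≤ N) (hz : 5 ≤ z) (hY : 5 ≤ Y) :
    (#(SS N z) : ℝ) - (8 * (N : ℝ) / z + 4 * Y + 400 * (N : ℝ) ^ 2 / (Y : ℝ) ^ 2) ≤ #(SQ N z) := by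
  have h1 := Sq.squares (Or.inl rfl : (1 : ℕ) = 1 ∨ (1 : ℕ) = 3) N z Y hN hz hY
  have h3 := Sq.squares (Or.inr rfl : (3 : ℕ) = 1 ∨ (3 : ℕ) = 3) N z Y hN hz hY
  set A1 := (Ioc N (2 * N)).filter (fun m => ∃ p : ℕ, p.Prime ∧ z ≤ p ∧ p ^ 2 ∣ m ^ 2 + 1) with hA1
  set A3 := (Ioc N (2 * N)).filter (fun m => ∃ p : ℕ, p.Prime ∧ z ≤ p ∧ p ^ 2 ∣ m ^ 2 + 3) with hA3
  have hsub : SS N z ⊆ SQ N z ∪ (A1 ∪ A3) := by
    intro m hm
    by_cases hs : Squarefree (m ^ 2 + 1) ∧ Squarefree (m ^ 2 + 3)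
    · exact Finset.mem_union_left _ (mem_SQ.2 ⟨hm, hs⟩)
    · apply Finset.mem_union_right
      have hm' := mem_SS.1 hm
      rw [not_and_or, Nat.squarefree_iff_prime_squarefree, Nat.squarefree_iff_prime_squarefree] at hs
      rcases hs with hs | hs
      · push Not at hs
        obtain ⟨p, hp, hdvd⟩ := hs
        apply Finset.mem_union_left
        rw [hA1, Finset.mem_filter, Finset.mem_Ioc]
        exact ⟨hm'.1, p, hp, rough_ge (Or.inl rfl) hm'.2 hp ((Dvd.intro _ rfl).trans hdvd),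
          by rw [pow_two p]; exact hdvd⟩
      · push Not at hs
        obtain ⟨p, hp, hdvd⟩ := hs
        apply Finset.mem_union_right
        rw [hA3, Finset.mem_filter, Finset.mem_Ioc]
        exact ⟨hm'.1, p, hp, rough_ge (Or.inr rfl) hm'.2 hp ((Dvd.intro _ rfl).trans hdvd),
          by rw [pow_two p]; exact hdvd⟩
  have hc := (Finset.card_le_card hsub).trans (Finset.card_union_le _ _)
  have hc2 := Finset.card_union_le A1 A3
  have hc' : (#(SS N z) : ℝ) ≤ #(SQ N z) + (#A1 + #A3) := by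
    have : #(SS N z) ≤ #(SQ N z) + (#A1 + #A3) := by omega
    exact_mod_cast this
  have e : 8 * (N : ℝ) / z + 4 * Y + 400 * (N : ℝ) ^ 2 / (Y : ℝ) ^ 2 =
      (4 * (N : ℝ) / z + 2 * Y + 200 * (N : ℝ) ^ 2 / (Y : ℝ) ^ 2) +
      (4 * (N : ℝ) / z + 2 * Y + 200 * (N : ℝ) ^ 2 / (Y : ℝ) ^ 2) := by ring
  linarith

/-- splitting the logarithm -/
theorem log_le_parts {N z P0 w d m : ℕ} (hm : m ∈ SS N z) (hsq : Squarefree (m ^ 2 + d))
    (hd : d = 1 ∨ d = 3) (hP : P0 ≤ w) :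
    Real.log ((m ^ 2 + d : ℕ) : ℝ) ≤
      ∑ p ∈ ((Icc z P0).filter Nat.Prime).filter (fun p => p ∣ m ^ 2 + d), Real.log p +
      ∑ p ∈ ((Ioc P0 w).filter Nat.Prime).filter (fun p => p ∣ m ^ 2 + d), Real.log p +
      LL w (m ^ 2 + d) := by
  have hm' := mem_SS.1 hm
  rw [log_eq_sum hsq]
  set F := (m ^ 2 + d).primeFactors with hF
  rw [← Finset.sum_filter_add_sum_filter_not F (fun p => p ≤ w)]
  rw [← Finset.sum_filter_add_sum_filter_not (F.filter (fun p => p ≤ w)) (fun p => p ≤ P0)]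
  have h1 : ∑ p ∈ (F.filter (fun p => p ≤ w)).filter (fun p => p ≤ P0), Real.log p ≤
      ∑ p ∈ ((Icc z P0).filter Nat.Prime).filter (fun p => p ∣ m ^ 2 + d), Real.log p := by
    apply Finset.sum_le_sum_of_subset_of_nonneg
    · intro p hp
      rw [Finset.mem_filter, Finset.mem_filter, hF, Nat.mem_primeFactors] at hp
      rw [Finset.mem_filter, Finset.mem_filter, Finset.mem_Icc]
      exact ⟨⟨⟨rough_ge hd hm'.2 hp.1.1.1 hp.1.1.2.1, hp.2⟩, hp.1.1.1⟩, hp.1.1.2.1⟩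
    · intro p hp _
      rw [Finset.mem_filter, Finset.mem_filter] at hp
      exact Real.log_nonneg (by exact_mod_cast hp.1.2.one_lt.le)
  have h2 : ∑ p ∈ (F.filter (fun p => p ≤ w)).filter (fun p => ¬ p ≤ P0), Real.log p ≤
      ∑ p ∈ ((Ioc P0 w).filter Nat.Prime).filter (fun p => p ∣ m ^ 2 + d), Real.log p := by
    apply Finset.sum_le_sum_of_subset_of_nonneg
    · intro p hp
      rw [Finset.mem_filter, Finset.mem_filter, hF, Nat.mem_primeFactors] at hp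
      rw [Finset.mem_filter, Finset.mem_filter, Finset.mem_Ioc]
      exact ⟨⟨⟨by omega, hp.1.2⟩, hp.1.1.1⟩, hp.1.1.2.1⟩
    · intro p hp _
      rw [Finset.mem_filter, Finset.mem_filter] at hp
      exact Real.log_nonneg (by exact_mod_cast hp.1.2.one_lt.le)
  have h3 : ∑ p ∈ F.filter (fun p => ¬ p ≤ w), Real.log p = LL w (m ^ 2 + d) := by
    unfold LL
    rw [hF]
    simp only [not_le]
  linarith

open Classical in
theorem sum_swap (N z d : ℕ) (A S : Finset ℕ) (hS : S ⊆ SS N z) (hA : ∀ p ∈ A, p.Prime) :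
    ∑ m ∈ S, ∑ p ∈ A.filter (fun p => p ∣ m ^ 2 + d), Real.log p ≤
      ∑ p ∈ A, Real.log p * (cdp N z d p : ℝ) := by
  simp_rw [Finset.sum_filter]
  rw [Finset.sum_comm]
  refine Finset.sum_le_sum fun p hp => ?_
  have hlp : 0 ≤ Real.log p := Real.log_nonneg (by exact_mod_cast (hA p hp).one_lt.le)
  rw [← Finset.sum_filter, Finset.sum_const, nsmul_eq_mul, mul_comm]
  apply mul_le_mul_of_nonneg_left _ hlp
  unfold cdp
  exact_mod_cast Finset.card_le_card (Finset.filter_subset_filter _ hS)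

/-- lower bound for the sum of the large parts -/
theorem sumL_ge {N z P0 w d : ℕ} (hN : 1 ≤ N) (hd : d = 1 ∨ d = 3) (hP : P0 ≤ w) :
    2 * Real.log N * #(SQ N z) -
      ∑ p ∈ (Icc z P0).filter Nat.Prime, Real.log p * (cdp N z d p : ℝ) -
      ∑ p ∈ (Ioc P0 w).filter Nat.Prime, Real.log p * (cdp N z d p : ℝ) ≤
    ∑ m ∈ SQ N z, LL w (m ^ 2 + d) := by
  have hN' : (1 : ℝ) ≤ N := by exact_mod_cast hN
  have h1 : ∑ m ∈ SQ N z, 2 * Real.log N ≤ ∑ m ∈ SQ N z,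
      (∑ p ∈ ((Icc z P0).filter Nat.Prime).filter (fun p => p ∣ m ^ 2 + d), Real.log p +
      ∑ p ∈ ((Ioc P0 w).filter Nat.Prime).filter (fun p => p ∣ m ^ 2 + d), Real.log p +
      LL w (m ^ 2 + d)) := by
    refine Finset.sum_le_sum fun m hm => ?_
    have hm1 := mem_SQ.1 hm
    have hsq : Squarefree (m ^ 2 + d) := by
      rcases hd with rfl | rfl
      · exact hm1.2.1
      · exact hm1.2.2
    refine le_trans ?_ (log_le_parts hm1.1 hsq hd hP)
    have hmN := (mem_SS.1 hm1.1).1.1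
    have hmN' : (N : ℝ) ≤ m := by exact_mod_cast hmN.le
    have : 2 * Real.log N = Real.log ((N : ℝ) ^ 2) := by
      rw [Real.log_pow]; norm_num
    rw [this]
    apply Real.log_le_log (by positivity)
    push_cast
    have hd0 : (0 : ℝ) ≤ d := by positivity
    nlinarith
  rw [Finset.sum_add_distrib, Finset.sum_add_distrib, Finset.sum_const, nsmul_eq_mul] at h1
  have h2 := sum_swap N z d ((Icc z P0).filter Nat.Prime) (SQ N z) (SQ_sub N z)
    (fun p hp => (Finset.mem_filter.1 hp).2)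
  have h3 := sum_swap N z d ((Ioc P0 w).filter Nat.Prime) (SQ N z) (SQ_sub N z)
    (fun p hp => (Finset.mem_filter.1 hp).2)
  linarith

/-- few large prime factors -/
theorem card_large_le {n M K : ℕ} (hn : n ≠ 0) (h : n < M ^ (K + 1)) (hM : 1 ≤ M) :
    #(n.primeFactors.filter (fun p => M < p)) ≤ K := by
  by_contra hlt
  push Not at hlt
  set F := n.primeFactors.filter (fun p => M < p) with hF
  have h1 : M ^ #F ≤ ∏ p ∈ F, p := by
    apply Finset.pow_card_le_prod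
    intro p hp
    rw [hF, Finset.mem_filter] at hp
    exact hp.2.le
  have h2 : ∏ p ∈ F, p ∣ n :=
    (Finset.prod_dvd_prod_of_subset _ _ _ (Finset.filter_subset _ _)).trans
      (Nat.prod_primeFactors_dvd n)
  have h3 := Nat.le_of_dvd (Nat.pos_of_ne_zero hn) h2
  have h4 : M ^ (K + 1) ≤ M ^ #F := Nat.pow_le_pow_right hM hlt
  omega

open Classical in
/-- both values have a medium prime factor -/
noncomputable def TT (N z M : ℕ) : Finset ℕ :=
  (SS N z).filter (fun m => (∃ p : ℕ, p.Prime ∧ M < p ∧ p ≤ M ^ 4 ∧ p ∣ m ^ 2 + 1) ∧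
    ∃ p : ℕ, p.Prime ∧ M < p ∧ p ≤ M ^ 4 ∧ p ∣ m ^ 2 + 3)

open Classical in
theorem TT_count {N z M K : ℕ} (hM : 2 ≤ M) (hK : 7 * N ^ 2 < M ^ (K + 1)) (hN : 1 ≤ N) :
    (∑ p1 ∈ (Ioc (M ^ 2) (M ^ 4)).filter Nat.Prime, ∑ p3 ∈ (Ioc M (M ^ 2)).filter Nat.Prime,
      (#((SS N z).filter (fun m => p1 ∣ m ^ 2 + 1 ∧ p3 ∣ m ^ 2 + 3)) : ℝ)) ≤
    (K : ℝ) ^ 2 * #(TT N z M) := by
  set A1 := (Ioc (M ^ 2) (M ^ 4)).filter Nat.Prime with hA1
  set A3 := (Ioc M (M ^ 2)).filter Nat.Prime with hA3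
  have hMM : M ≤ M ^ 2 := by nlinarith
  have hMM2 : M ^ 2 ≤ M ^ 4 := Nat.pow_le_pow_right (by omega) (by norm_num)
  have key : ∑ p1 ∈ A1, ∑ p3 ∈ A3, #((SS N z).filter (fun m => p1 ∣ m ^ 2 + 1 ∧ p3 ∣ m ^ 2 + 3)) ≤
      K ^ 2 * #(TT N z M) := by
    have e : ∑ p1 ∈ A1, ∑ p3 ∈ A3, #((SS N z).filter (fun m => p1 ∣ m ^ 2 + 1 ∧ p3 ∣ m ^ 2 + 3)) =
        ∑ m ∈ SS N z, #(A1.filter (fun p => p ∣ m ^ 2 + 1)) * #(A3.filter (fun p => p ∣ m ^ 2 + 3)) := by
      simp_rw [Finset.card_filter]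
      have e1 : ∀ p1 ∈ A1, ∑ p3 ∈ A3, ∑ m ∈ SS N z,
          (if p1 ∣ m ^ 2 + 1 ∧ p3 ∣ m ^ 2 + 3 then 1 else 0) =
          ∑ m ∈ SS N z, ∑ p3 ∈ A3, (if p1 ∣ m ^ 2 + 1 ∧ p3 ∣ m ^ 2 + 3 then 1 else 0) :=
        fun p1 _ => Finset.sum_comm
      rw [Finset.sum_congr rfl e1, Finset.sum_comm]
      refine Finset.sum_congr rfl fun m _ => ?_
      rw [Finset.sum_mul_sum]
      refine Finset.sum_congr rfl fun p1 _ => Finset.sum_congr rfl fun p3 _ => ?_
      by_cases h1 : p1 ∣ m ^ 2 + 1 <;> by_cases h3 : p3 ∣ m ^ 2 + 3 <;> simp [h1, h3]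
    rw [e]
    have hsub : TT N z M ⊆ SS N z := Finset.filter_subset _ _
    have h0 : ∑ m ∈ SS N z, #(A1.filter (fun p => p ∣ m ^ 2 + 1)) *
        #(A3.filter (fun p => p ∣ m ^ 2 + 3)) = ∑ m ∈ TT N z M,
        #(A1.filter (fun p => p ∣ m ^ 2 + 1)) * #(A3.filter (fun p => p ∣ m ^ 2 + 3)) := by
      symm
      apply Finset.sum_subset hsub
      intro m hm hmT
      by_contra hne
      apply hmT
      have hne' := Nat.pos_of_ne_zero hne
      have g1 : 0 < #(A1.filter (fun p => p ∣ m ^ 2 + 1)) := Nat.pos_of_mul_pos_right hne'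
      have g3 : 0 < #(A3.filter (fun p => p ∣ m ^ 2 + 3)) := Nat.pos_of_mul_pos_left hne'
      obtain ⟨p, hp⟩ := Finset.card_pos.1 g1
      obtain ⟨q, hq⟩ := Finset.card_pos.1 g3
      rw [Finset.mem_filter, hA1, Finset.mem_filter, Finset.mem_Ioc] at hp
      rw [Finset.mem_filter, hA3, Finset.mem_filter, Finset.mem_Ioc] at hq
      unfold TT
      rw [Finset.mem_filter]
      exact ⟨hm, ⟨p, hp.1.2, by omega, hp.1.1.2, hp.2⟩, ⟨q, hq.1.2, hq.1.1.1, by omega, hq.2⟩⟩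
    rw [h0, mul_comm, ← smul_eq_mul, ← Finset.sum_const]
    refine Finset.sum_le_sum fun m hm => ?_
    have hm' := (mem_SS.1 (hsub hm)).1
    have hb : ∀ d : ℕ, d ≤ 3 → m ^ 2 + d < M ^ (K + 1) := by
      intro d hd
      have : m ^ 2 + d ≤ 7 * N ^ 2 := by
        have : m ^ 2 ≤ (2 * N) ^ 2 := Nat.pow_le_pow_left hm'.2 2
        nlinarith
      omega
    have c1 : #(A1.filter (fun p => p ∣ m ^ 2 + 1)) ≤ K := by
      refine le_trans (Finset.card_le_card ?_) (card_large_le (n := m ^ 2 + 1) (by omega)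
        (hb 1 (by norm_num)) (by omega : 1 ≤ M))
      intro p hp
      rw [Finset.mem_filter, hA1, Finset.mem_filter, Finset.mem_Ioc] at hp
      rw [Finset.mem_filter, Nat.mem_primeFactors]
      exact ⟨⟨hp.1.2, hp.2, by omega⟩, by omega⟩
    have c3 : #(A3.filter (fun p => p ∣ m ^ 2 + 3)) ≤ K := by
      refine le_trans (Finset.card_le_card ?_) (card_large_le (n := m ^ 2 + 3) (by omega)
        (hb 3 (by norm_num)) (by omega : 1 ≤ M))
      intro p hp
      rw [Finset.mem_filter, hA3, Finset.mem_filter, Finset.mem_Ioc] at hp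
      rw [Finset.mem_filter, Nat.mem_primeFactors]
      exact ⟨⟨hp.1.2, hp.2, by omega⟩, by omega⟩
    calc _ ≤ K * K := Nat.mul_le_mul c1 c3
      _ = K ^ 2 := by ring
  exact_mod_cast key

/-- weighted sums of `nu` -/
theorem nu_sum_ge : ∃ C : ℝ, 0 ≤ C ∧ ∀ d : ℕ, (d = 1 ∨ d = 3) → ∀ u y : ℕ, 2 ≤ u → u ≤ y →
    (Real.log y - Real.log u - C) / Real.log y ≤
      ∑ p ∈ (Ioc u y).filter Nat.Prime, (nu d p : ℝ) / (p : ℝ) := by
  obtain ⟨C, hC0, hC⟩ := mert_nu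
  refine ⟨2 * C, by linarith, fun d hd u y hu huy => ?_⟩
  have hly : 0 < Real.log y := Real.log_pos (by exact_mod_cast (by omega : 1 < y))
  rw [div_le_iff₀ hly, Finset.sum_mul]
  have h1 := (abs_le.1 (hC d hd y (by omega))).1
  have h2 := (abs_le.1 (hC d hd u (by omega))).2
  have hsplit : (Ioc 0 y).filter Nat.Prime = (Ioc 0 u).filter Nat.Prime ∪ (Ioc u y).filter Nat.Prime := by
    rw [← Finset.filter_union, Finset.Ioc_union_Ioc_eq_Ioc (Nat.zero_le _) huy]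
  have hdisj : Disjoint ((Ioc 0 u).filter Nat.Prime) ((Ioc u y).filter Nat.Prime) := by
    rw [Finset.disjoint_left]
    intro p hp hp'
    rw [Finset.mem_filter, Finset.mem_Ioc] at hp hp'
    omega
  rw [hsplit, Finset.sum_union hdisj] at h1
  have h3 : ∑ p ∈ (Ioc u y).filter Nat.Prime, (nu d p : ℝ) * (Real.log p / p) ≤
      ∑ p ∈ (Ioc u y).filter Nat.Prime, (nu d p : ℝ) / (p : ℝ) * Real.log y := by
    refine Finset.sum_le_sum fun p hp => ?_
    rw [Finset.mem_filter, Finset.mem_Ioc] at hp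
    have hp0 : (0 : ℝ) < p := by exact_mod_cast hp.2.pos
    have hpy : Real.log p ≤ Real.log y := Real.log_le_log hp0 (by exact_mod_cast hp.1.2)
    calc (nu d p : ℝ) * (Real.log p / p) = (nu d p : ℝ) / (p : ℝ) * Real.log p := by ring
      _ ≤ _ := by gcongr
  linarith

end Pool.Agent.Work.MP_2dba45_nt.Fin
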