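import Mathlib
import Pool.Agent.Work.MP_2dba45_nt.Fin3

set_option autoImplicit false

namespace Pool.Agent.Work.MP_2dba45_nt.Fin

open Finset Filter Pool.Agent.Work.MP_2dba45_nt.TwoD Pool.Agent.Work.MP_2dba45_nt.Nu
  Pool.Agent.Work.MP_2dba45_nt.VV Pool.Agent.Work.MP_2dba45_nt.Psum
  Pool.Agent.Work.MP_2dba45_nt.Rep Pool.Agent.Work.MP_2dba45_nt.OneS
  Pool.Agent.Work.MP_2dba45_nt.Loc Pool.Agent.Work.MP_2dba45_nt.Mert

open Classical in
/-- both values squarefree and with a large prime factor -/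
noncomputable def BB (N z w : ℕ) : Finset ℕ :=
  (SQ N z).filter (fun m => (∃ p : ℕ, p.Prime ∧ p ∣ m ^ 2 + 1 ∧ w < p) ∧
    ∃ p : ℕ, p.Prime ∧ p ∣ m ^ 2 + 3 ∧ w < p)

theorem log_seven : Real.log 7 ≤ 2 := by
  have h := Real.exp_one_gt_d9
  have h2 : (7 : ℝ) ≤ Real.exp 2 := by
    have : Real.exp 2 = Real.exp 1 * Real.exp 1 := by rw [← Real.exp_add]; norm_num
    rw [this]
    nlinarith
  calc Real.log 7 ≤ Real.log (Real.exp 2) := Real.log_le_log (by norm_num) h2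
    _ = 2 := Real.log_exp 2

theorem log_val_le {N m d : ℕ} (hN : 1 ≤ N) (hm : m ≤ 2 * N) (hd : d ≤ 3) (h0 : 0 < m) :
    Real.log ((m ^ 2 + d : ℕ) : ℝ) ≤ 2 * Real.log N + 2 := by
  have hN' : (1 : ℝ) ≤ N := by exact_mod_cast hN
  have h1 : m ^ 2 + d ≤ 7 * N ^ 2 := by
    have : m ^ 2 ≤ (2 * N) ^ 2 := Nat.pow_le_pow_left hm 2
    nlinarith
  have h2 : ((m ^ 2 + d : ℕ) : ℝ) ≤ 7 * (N : ℝ) ^ 2 := by exact_mod_cast h1
  have h3 : (0 : ℝ) < ((m ^ 2 + d : ℕ) : ℝ) := by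
    have : 0 < m ^ 2 + d := by positivity
    exact_mod_cast this
  calc Real.log ((m ^ 2 + d : ℕ) : ℝ) ≤ Real.log (7 * (N : ℝ) ^ 2) := Real.log_le_log h3 h2
    _ = Real.log 7 + 2 * Real.log N := by
      rw [Real.log_mul (by norm_num) (by positivity), Real.log_pow]; norm_num
    _ ≤ 2 * Real.log N + 2 := by linarith [log_seven]

open Classical in
theorem pointwise {N z w M m : ℕ} (hN : 1 ≤ N) (hM : 2 ≤ M) (hMw : M ^ 4 ≤ w)
    (hMN : 2 * Real.log M ≤ 2 * Real.log N + 2) (hm : m ∈ SQ N z) :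
    LL w (m ^ 2 + 1) + LL w (m ^ 2 + 3) ≤
      (2 * Real.log N + 2) * (1 + (if m ∈ BB N z w then (1 : ℝ) else 0)) -
      Real.log M * (if m ∈ TT N z M then (1 : ℝ) else 0) := by
  have hm1 := mem_SQ.1 hm
  have hm2 := mem_SS.1 hm1.1
  have hM0 : (0 : ℝ) < M := by exact_mod_cast (by omega : 0 < M)
  have hlM : 0 ≤ Real.log M := Real.log_nonneg (by exact_mod_cast (by omega : 1 ≤ M))
  have a1 := LL_le (w := w) hm1.2.1
  have a3 := LL_le (w := w) hm1.2.2
  have b1 := log_val_le (d := 1) hN hm2.1.2 (by norm_num) (by omega)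
  have b3 := log_val_le (d := 3) hN hm2.1.2 (by norm_num) (by omega)
  have n1 := LL_nonneg w (m ^ 2 + 1)
  have n3 := LL_nonneg w (m ^ 2 + 3)
  set Λ := 2 * Real.log N + 2 with hΛ
  have t1 : m ∈ TT N z M → LL w (m ^ 2 + 1) ≤ Λ - Real.log M := by
    intro ht
    unfold TT at ht
    rw [Finset.mem_filter] at ht
    obtain ⟨p, hp, hMp, hpM, hdvd⟩ := ht.2.1
    have := LL_le' (w := w) hm1.2.1 hp hdvd (by omega)
    have h2 : Real.log M ≤ Real.log p := Real.log_le_log hM0 (by exact_mod_cast hMp.le)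
    linarith
  have t3 : m ∈ TT N z M → LL w (m ^ 2 + 3) ≤ Λ - Real.log M := by
    intro ht
    unfold TT at ht
    rw [Finset.mem_filter] at ht
    obtain ⟨p, hp, hMp, hpM, hdvd⟩ := ht.2.2
    have := LL_le' (w := w) hm1.2.2 hp hdvd (by omega)
    have h2 : Real.log M ≤ Real.log p := Real.log_le_log hM0 (by exact_mod_cast hMp.le)
    linarith
  have z0 : m ∉ BB N z w → LL w (m ^ 2 + 1) = 0 ∨ LL w (m ^ 2 + 3) = 0 := by
    intro hb
    by_contra hcon
    push Not at hcon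
    apply hb
    unfold BB
    rw [Finset.mem_filter]
    refine ⟨hm, ?_, ?_⟩
    · by_contra h; exact hcon.1 (LL_zero (by omega) h)
    · by_contra h; exact hcon.2 (LL_zero (by omega) h)
  by_cases hb : m ∈ BB N z w <;> by_cases ht : m ∈ TT N z M
  · rw [if_pos hb, if_pos ht]; linarith [t1 ht, t3 ht]
  · rw [if_pos hb, if_neg ht]; linarith
  · rw [if_neg hb, if_pos ht]
    rcases z0 hb with h | h
    · linarith [t3 ht]
    · linarith [t1 ht]
  · rw [if_neg hb, if_neg ht]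
    rcases z0 hb with h | h
    · linarith
    · linarith

open Classical in
theorem sumL_le {N z w M : ℕ} (hN : 1 ≤ N) (hM : 2 ≤ M) (hMw : M ^ 4 ≤ w)
    (hMN : 2 * Real.log M ≤ 2 * Real.log N + 2) :
    (∑ m ∈ SQ N z, LL w (m ^ 2 + 1)) + ∑ m ∈ SQ N z, LL w (m ^ 2 + 3) ≤
      (2 * Real.log N + 2) * ((#(SQ N z) : ℝ) + #(BB N z w)) -
      Real.log M * ((#(TT N z M) : ℝ) - (#(SS N z) - #(SQ N z))) := by
  rw [← Finset.sum_add_distrib]
  refine (Finset.sum_le_sum fun m hm => pointwise hN hM hMw hMN hm).trans ?_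
  have hlM : 0 ≤ Real.log M := Real.log_nonneg (by exact_mod_cast (by omega : 1 ≤ M))
  rw [Finset.sum_sub_distrib, ← Finset.mul_sum, ← Finset.mul_sum, Finset.sum_add_distrib,
    Finset.sum_ite_mem, Finset.sum_ite_mem]
  simp only [Finset.sum_const, nsmul_eq_mul, mul_one]
  have e1 : SQ N z ∩ BB N z w = BB N z w := Finset.inter_eq_right.2 (Finset.filter_subset _ _)
  rw [e1]
  have e2 : (#(TT N z M) : ℝ) - (#(SS N z) - #(SQ N z)) ≤ #(SQ N z ∩ TT N z M) := by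
    have h1 : TT N z M ⊆ (SQ N z ∩ TT N z M) ∪ (SS N z \ SQ N z) := by
      intro m hm
      have hmS : m ∈ SS N z := Finset.filter_subset _ _ hm
      by_cases h : m ∈ SQ N z
      · exact Finset.mem_union_left _ (Finset.mem_inter.2 ⟨h, hm⟩)
      · exact Finset.mem_union_right _ (Finset.mem_sdiff.2 ⟨hmS, h⟩)
    have h2 := (Finset.card_le_card h1).trans (Finset.card_union_le _ _)
    have h3 : (#(SS N z \ SQ N z) : ℝ) = #(SS N z) - #(SQ N z) := by
      rw [Finset.card_sdiff_of_subset (SQ_sub N z)]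
      rw [Nat.cast_sub (Finset.card_le_card (SQ_sub N z))]
    have h4 : (#(TT N z M) : ℝ) ≤ #(SQ N z ∩ TT N z M) + #(SS N z \ SQ N z) := by
      exact_mod_cast h2
    rw [h3] at h4
    linarith
  have := mul_le_mul_of_nonneg_left e2 hlM
  linarith

end Pool.Agent.Work.MP_2dba45_nt.Fin
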