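import Mathlib
import Pool.Agent.Work.MP_2dba45_nt.Fin4

set_option autoImplicit false

namespace Pool.Agent.Work.MP_2dba45_nt.Fin

open Finset Filter Pool.Agent.Work.MP_2dba45_nt.TwoD Pool.Agent.Work.MP_2dba45_nt.Nu
  Pool.Agent.Work.MP_2dba45_nt.VV Pool.Agent.Work.MP_2dba45_nt.Psum
  Pool.Agent.Work.MP_2dba45_nt.Rep Pool.Agent.Work.MP_2dba45_nt.OneS
  Pool.Agent.Work.MP_2dba45_nt.Loc Pool.Agent.Work.MP_2dba45_nt.Mert

/-- the medium size parameter -/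
noncomputable def MM (N : ℕ) : ℕ := ⌊(N : ℝ) ^ (1 / 16 : ℝ)⌋₊

theorem MM_facts : ∀ᶠ N : ℕ in atTop, (N : ℝ) ^ (1 / 20 : ℝ) ≤ MM N ∧
    (MM N : ℝ) ≤ (N : ℝ) ^ (1 / 16 : ℝ) ∧ 2 ≤ MM N ∧ 7 * N ^ 2 < (MM N) ^ (40 + 1) ∧
    (1 / 20) * Real.log N ≤ Real.log (MM N) := by
  filter_upwards [ev_rpow (1 / 80) (by norm_num) 2, ev_rpow (1 / 20) (by norm_num) 8,
    eventually_ge_atTop 1] with N h1 h2 hN
  have hN1 : (1 : ℝ) ≤ N := by exact_mod_cast hN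
  have hN0 : (0 : ℝ) < N := by linarith
  have hM1 : (MM N : ℝ) ≤ (N : ℝ) ^ (1 / 16 : ℝ) := Nat.floor_le (by positivity)
  have hM2 : (N : ℝ) ^ (1 / 16 : ℝ) < MM N + 1 := Nat.lt_floor_add_one _
  have e1 : (N : ℝ) ^ (1 / 16 : ℝ) = (N : ℝ) ^ (1 / 80 : ℝ) * (N : ℝ) ^ (1 / 20 : ℝ) := by
    rw [← Real.rpow_add hN0]; norm_num
  have h20 : 0 < (N : ℝ) ^ (1 / 20 : ℝ) := by positivity
  have hM3 : (N : ℝ) ^ (1 / 20 : ℝ) ≤ MM N := by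
    have : 2 * (N : ℝ) ^ (1 / 20 : ℝ) ≤ (N : ℝ) ^ (1 / 16 : ℝ) := by
      rw [e1]; gcongr
    linarith
  refine ⟨hM3, hM1, ?_, ?_, ?_⟩
  · have : (2 : ℝ) ≤ MM N := by linarith
    exact_mod_cast this
  · have h3 : ((7 * N ^ 2 : ℕ) : ℝ) < ((MM N ^ (40 + 1) : ℕ) : ℝ) := by
      push_cast
      calc (7 : ℝ) * (N : ℝ) ^ 2 < 8 * (N : ℝ) ^ 2 := by
            have : (0 : ℝ) < (N : ℝ) ^ 2 := by positivity
            linarith
        _ ≤ (N : ℝ) ^ (1 / 20 : ℝ) * (N : ℝ) ^ 2 := by gcongr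
        _ = ((N : ℝ) ^ (1 / 20 : ℝ)) ^ (40 + 1) := by
            rw [← Real.rpow_natCast, ← Real.rpow_natCast, ← Real.rpow_mul hN0.le,
              ← Real.rpow_add hN0]
            norm_num
        _ ≤ (MM N : ℝ) ^ (40 + 1) := by gcongr
    exact_mod_cast h3
  · calc (1 / 20) * Real.log N = Real.log ((N : ℝ) ^ (1 / 20 : ℝ)) := (Real.log_rpow hN0 _).symm
      _ ≤ Real.log (MM N) := Real.log_le_log h20 hM3

theorem sum_nu_le (d u y : ℕ) : (∑ p ∈ (Ioc u y).filter Nat.Prime, (nu d p : ℝ)) ≤ 2 * y := by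
  have h1 : ∑ p ∈ (Ioc u y).filter Nat.Prime, nu d p ≤ ∑ p ∈ (Ioc u y).filter Nat.Prime, 2 :=
    Finset.sum_le_sum fun p hp => nu_le d p (Finset.mem_filter.1 hp).2
  have h2 : #((Ioc u y).filter Nat.Prime) ≤ y := by
    refine (Finset.card_filter_le _ _).trans ?_
    rw [Nat.card_Ioc]; omega
  rw [Finset.sum_const, smul_eq_mul] at h1
  have h3 : ∑ p ∈ (Ioc u y).filter Nat.Prime, nu d p ≤ 2 * y := by omega
  exact_mod_cast h3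

/-- many rough `m` such that both values have a medium prime factor -/
theorem TT_ge (s C : ℝ) (hC : 0 < C) (hs : 0 ≤ s) (hCs : C * Real.exp (-s) ≤ 1 / 10)
    (hcounts : ∀ N z : ℕ, 2 ≤ z → ∀ p1 p3 : ℕ, p1.Prime → p3.Prime → z ≤ p1 → z ≤ p3 → p1 ≠ p3 →
      (nu 1 p1 : ℝ) * nu 3 p3 * ((1 - C * Real.exp (-s)) * (XX N z / (p1 * p3)) -
        C * (z : ℝ) ^ (6 * s + 3)) ≤
      (#((SS N z).filter (fun m => p1 ∣ m ^ 2 + 1 ∧ p3 ∣ m ^ 2 + 3)) : ℝ)) :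
    ∀ᶠ N : ℕ in atTop, ∀ z : ℕ, 2 ≤ z → (z : ℝ) ≤ (N : ℝ) ^ (1 / 100 : ℝ) →
      (z : ℝ) ^ (6 * s + 3) ≤ (N : ℝ) ^ (1 / 100 : ℝ) →
      1 / 16000 * XX N z ≤ #(TT N z (MM N)) := by
  obtain ⟨C', hC'0, hC'⟩ := nu_sum_ge
  filter_upwards [MM_facts, XX_big (1 / 10) (by norm_num), ev_rpow (1 / 10) (by norm_num) (100 * C),
    ev_log (100 * C' + 1), eventually_ge_atTop 1] with N hM hXX h100 hlog hN z hz hz1 hz2
  obtain ⟨hM1, hM2, hM3, hM4, hM5⟩ := hM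
  set M := MM N with hMdef
  have hN1 : (1 : ℝ) ≤ N := by exact_mod_cast hN
  have hN0 : (0 : ℝ) < N := by linarith
  have hzM : z ≤ M := by
    have : (z : ℝ) ≤ M := by
      calc (z : ℝ) ≤ (N : ℝ) ^ (1 / 100 : ℝ) := hz1
        _ ≤ (N : ℝ) ^ (1 / 20 : ℝ) := Real.rpow_le_rpow_of_exponent_le hN1 (by norm_num)
        _ ≤ M := hM1
    exact_mod_cast this
  have hzN : z ≤ N := by
    have : (z : ℝ) ≤ N := by
      calc (z : ℝ) ≤ (N : ℝ) ^ (1 / 100 : ℝ) := hz1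
        _ ≤ (N : ℝ) ^ (1 : ℝ) := Real.rpow_le_rpow_of_exponent_le hN1 (by norm_num)
        _ = N := Real.rpow_one _
    exact_mod_cast this
  have hX := hXX z hz hzN
  have hX0 : 0 < XX N z := lt_of_lt_of_le (by positivity) hX
  have hMM : M ≤ M ^ 2 := by nlinarith
  have hMM2 : M ^ 2 ≤ M ^ 4 := Nat.pow_le_pow_right (by omega) (by norm_num)
  have hT := TT_count (z := z) hM3 hM4 hN
  have hlow : ∑ p1 ∈ (Ioc (M ^ 2) (M ^ 4)).filter Nat.Prime, ∑ p3 ∈ (Ioc M (M ^ 2)).filter Nat.Prime,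
      (nu 1 p1 : ℝ) * nu 3 p3 * ((1 - C * Real.exp (-s)) * (XX N z / (p1 * p3)) -
        C * (z : ℝ) ^ (6 * s + 3)) ≤
      (∑ p1 ∈ (Ioc (M ^ 2) (M ^ 4)).filter Nat.Prime, ∑ p3 ∈ (Ioc M (M ^ 2)).filter Nat.Prime,
      (#((SS N z).filter (fun m => p1 ∣ m ^ 2 + 1 ∧ p3 ∣ m ^ 2 + 3)) : ℝ)) := by
    refine Finset.sum_le_sum fun p1 hp1 => Finset.sum_le_sum fun p3 hp3 => ?_
    rw [Finset.mem_filter, Finset.mem_Ioc] at hp1 hp3
    exact hcounts N z hz p1 p3 hp1.2 hp3.2 (by omega) (by omega) (by omega)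
  set S1 := ∑ p ∈ (Ioc (M ^ 2) (M ^ 4)).filter Nat.Prime, (nu 1 p : ℝ) / (p : ℝ) with hS1
  set S3 := ∑ p ∈ (Ioc M (M ^ 2)).filter Nat.Prime, (nu 3 p : ℝ) / (p : ℝ) with hS3
  set R1 := ∑ p ∈ (Ioc (M ^ 2) (M ^ 4)).filter Nat.Prime, (nu 1 p : ℝ) with hR1
  set R3 := ∑ p ∈ (Ioc M (M ^ 2)).filter Nat.Prime, (nu 3 p : ℝ) with hR3
  have hexp : ∑ p1 ∈ (Ioc (M ^ 2) (M ^ 4)).filter Nat.Prime, ∑ p3 ∈ (Ioc M (M ^ 2)).filter Nat.Prime,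
      (nu 1 p1 : ℝ) * nu 3 p3 * ((1 - C * Real.exp (-s)) * (XX N z / (p1 * p3)) -
        C * (z : ℝ) ^ (6 * s + 3)) =
      (1 - C * Real.exp (-s)) * XX N z * (S1 * S3) - C * (z : ℝ) ^ (6 * s + 3) * (R1 * R3) := by
    rw [hS1, hS3, hR1, hR3, Finset.sum_mul_sum, Finset.sum_mul_sum, Finset.mul_sum, Finset.mul_sum,
      ← Finset.sum_sub_distrib]
    refine Finset.sum_congr rfl fun p1 hp1 => ?_
    rw [Finset.mul_sum, Finset.mul_sum, ← Finset.sum_sub_distrib]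
    refine Finset.sum_congr rfl fun p3 hp3 => ?_
    rw [Finset.mem_filter] at hp1 hp3
    have h1 : (p1 : ℝ) ≠ 0 := by exact_mod_cast hp1.2.ne_zero
    have h3 : (p3 : ℝ) ≠ 0 := by exact_mod_cast hp3.2.ne_zero
    field_simp
  have hlM : 5 * C' < Real.log M := by
    have : (1 / 20) * (100 * C' + 1) ≤ (1 / 20) * Real.log N := by gcongr
    linarith
  have hlM0 : 0 < Real.log M := by linarith
  have hS3' : 2 / 5 ≤ S3 := by
    refine le_trans ?_ (hC' 3 (Or.inr rfl) M (M ^ 2) hM3 hMM)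
    push_cast
    rw [Real.log_pow]
    push_cast
    rw [div_le_div_iff₀ (by norm_num) (by positivity)]
    linarith
  have hS1' : 2 / 5 ≤ S1 := by
    refine le_trans ?_ (hC' 1 (Or.inl rfl) (M ^ 2) (M ^ 4) (by omega) hMM2)
    push_cast
    rw [Real.log_pow, Real.log_pow]
    push_cast
    rw [div_le_div_iff₀ (by norm_num) (by positivity)]
    linarith
  have hR1' : R1 ≤ 2 * (M : ℝ) ^ 4 := by
    have := sum_nu_le 1 (M ^ 2) (M ^ 4)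
    push_cast at this
    exact this
  have hR3' : R3 ≤ 2 * (M : ℝ) ^ 2 := by
    have := sum_nu_le 3 M (M ^ 2)
    push_cast at this
    exact this
  have hR10 : 0 ≤ R1 := Finset.sum_nonneg fun _ _ => by positivity
  have hR30 : 0 ≤ R3 := Finset.sum_nonneg fun _ _ => by positivity
  have hS13 : 4 / 25 ≤ S1 * S3 := by nlinarith
  have hmain : 9 / 10 * XX N z * (4 / 25) ≤ (1 - C * Real.exp (-s)) * XX N z * (S1 * S3) := by
    have : (9 / 10 : ℝ) ≤ 1 - C * Real.exp (-s) := by linarith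
    gcongr
  have hM6 : (M : ℝ) ^ 6 ≤ (N : ℝ) ^ (3 / 8 : ℝ) := by
    calc (M : ℝ) ^ 6 ≤ ((N : ℝ) ^ (1 / 16 : ℝ)) ^ 6 := by gcongr
      _ = (N : ℝ) ^ (3 / 8 : ℝ) := by
        rw [← Real.rpow_natCast, ← Real.rpow_mul hN0.le]; norm_num
  have herr : C * (z : ℝ) ^ (6 * s + 3) * (R1 * R3) ≤ 1 / 25 * XX N z := by
    calc C * (z : ℝ) ^ (6 * s + 3) * (R1 * R3)
        ≤ C * (N : ℝ) ^ (1 / 100 : ℝ) * ((2 * (M : ℝ) ^ 4) * (2 * (M : ℝ) ^ 2)) := by gcongr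
      _ = 4 * C * ((N : ℝ) ^ (1 / 100 : ℝ) * (M : ℝ) ^ 6) := by ring
      _ ≤ 4 * C * ((N : ℝ) ^ (1 / 100 : ℝ) * (N : ℝ) ^ (3 / 8 : ℝ)) := by gcongr
      _ = 1 / 25 * (100 * C) * (N : ℝ) ^ (1 / 100 + 3 / 8 : ℝ) := by
          rw [← Real.rpow_add hN0]; ring
      _ ≤ 1 / 25 * (N : ℝ) ^ (1 / 10 : ℝ) * (N : ℝ) ^ (1 / 100 + 3 / 8 : ℝ) := by gcongr
      _ = 1 / 25 * (N : ℝ) ^ (1 / 10 + (1 / 100 + 3 / 8) : ℝ) := by
          rw [mul_assoc, ← Real.rpow_add hN0]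
      _ ≤ 1 / 25 * (N : ℝ) ^ (1 - 1 / 10 : ℝ) := by
          apply mul_le_mul_of_nonneg_left _ (by norm_num)
          exact Real.rpow_le_rpow_of_exponent_le hN1 (by norm_num)
      _ ≤ 1 / 25 * XX N z := by gcongr
  rw [hexp] at hlow
  have hfin := hlow.trans hT
  push_cast at hfin
  linarith

/-- the final numerical inequality -/
theorem final_arith (ℓ X sq bb ss tt lM C2 C3 J L1 L3 : ℝ) (β η ε : ℝ) (hβ : 0 < β)
    (hη : η = β / 2000) (hβ1 : β ≤ 1) (hε : 0 < ε) (hε' : 1600 * (C3 * ε) ≤ β) (hX : 0 < X)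
    (hℓ : 2 ≤ ℓ) (hC2 : 0 < C2) (hC3 : 0 < C3)
    (hℓ' : 4 + 4 * C2 + 4 * C3 ≤ β / 100 * ℓ)
    (h1 : ss ≤ (1 + 2 * η) * X) (h2 : (1 - 2 * η) * X ≤ ss) (h3 : ss - sq ≤ η * X)
    (h4 : sq ≤ ss) (h5 : β * X ≤ tt) (h6 : 1 / 20 * ℓ ≤ lM) (hJ : J ≤ 2 + 4 * ε * ℓ)
    (hL1 : 2 * ℓ * sq - ((1 + η) * X * (ℓ + C2) + η * X * ℓ) - C3 * J * X ≤ L1)
    (hL3 : 2 * ℓ * sq - ((1 + η) * X * (ℓ + C2) + η * X * ℓ) - C3 * J * X ≤ L3)
    (hup : L1 + L3 ≤ (2 * ℓ + 2) * (sq + bb) - lM * (tt - (ss - sq))) :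
    β / 200 * X ≤ bb := by
  have hη0 : 0 < η := by rw [hη]; positivity
  have hℓ0 : 0 < ℓ := by linarith
  have hXℓ : 0 < X * ℓ := by positivity
  have g1 : (1 - 3 * η) * X ≤ sq := by linarith
  have g2 : sq ≤ 2 * X := by
    have : 2 * η * X ≤ X := by
      have : 2 * η ≤ 1 := by rw [hη]; linarith
      nlinarith
    linarith
  have g3 : (β - η) * X ≤ tt - (ss - sq) := by linarith
  have g4 : 0 ≤ (β - η) * X := by
    apply mul_nonneg _ hX.le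
    rw [hη]; linarith
  have g5 : 1 / 20 * ℓ * ((β - η) * X) ≤ lM * (tt - (ss - sq)) :=
    mul_le_mul h6 g3 g4 (by linarith)
  have g6 : ℓ * ((1 - 3 * η) * X) ≤ ℓ * sq := mul_le_mul_of_nonneg_left g1 hℓ0.le
  have g7 : C3 * J * X ≤ C3 * (2 + 4 * ε * ℓ) * X := by gcongr
  have g8 : 8 * (C3 * ε) * (X * ℓ) ≤ β / 200 * (X * ℓ) := by
    apply mul_le_mul_of_nonneg_right _ hXℓ.le
    linarith
  have g9 : (4 + 4 * C2 + 4 * C3) * X ≤ β / 100 * ℓ * X := by gcongr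
  have g10 : η * X * C2 ≤ X * C2 := by
    have : η ≤ 1 := by rw [hη]; linarith
    have : 0 < X * C2 := by positivity
    nlinarith
  have key : β * (295 / 10000) * (X * ℓ) ≤ (2 * ℓ + 2) * bb := by
    have e1 : (2 * ℓ + 2) * (sq + bb) = 2 * (ℓ * sq) + 2 * sq + (2 * ℓ + 2) * bb := by ring
    have e2 : (1 + η) * X * (ℓ + C2) + η * X * ℓ = X * ℓ + 2 * η * (X * ℓ) + X * C2 + η * X * C2 := by
      ring
    have e3 : C3 * (2 + 4 * ε * ℓ) * X = 2 * C3 * X + 4 * (C3 * ε) * (X * ℓ) := by ring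
    have e4 : ℓ * ((1 - 3 * η) * X) = X * ℓ - 3 * η * (X * ℓ) := by ring
    have e5 : 1 / 20 * ℓ * ((β - η) * X) = 1 / 20 * (β * (X * ℓ)) - 1 / 20 * (η * (X * ℓ)) := by ring
    have e6 : η * (X * ℓ) = β * (X * ℓ) / 2000 := by rw [hη]; ring
    have e7 : (4 + 4 * C2 + 4 * C3) * X = 4 * X + 4 * (X * C2) + 4 * (C3 * X) := by ring
    have e8 : β / 100 * ℓ * X = β * (X * ℓ) / 100 := by ring
    have hβX : 0 < β * (X * ℓ) := by positivity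
    have e9 : 3 * η * (X * ℓ) = 3 * (η * (X * ℓ)) := by ring
    have e10 : 2 * η * (X * ℓ) = 2 * (η * (X * ℓ)) := by ring
    have e11 : 2 * C3 * X = 2 * (C3 * X) := by ring
    have e12 : 4 * (C3 * ε) * (X * ℓ) = (8 * (C3 * ε) * (X * ℓ)) / 2 := by ring
    have e13 : β / 200 * (X * ℓ) = β * (X * ℓ) / 200 := by ring
    have e14 : β * (295 / 10000) * (X * ℓ) = β * (X * ℓ) * (295 / 10000) := by ring
    have e15 : 2 * ℓ * sq = 2 * (ℓ * sq) := by ring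
    rw [e1] at hup
    rw [e2, e15] at hL1 hL3
    rw [e3] at g7
    rw [e4] at g6
    rw [e5] at g5
    rw [e7, e8] at g9
    rw [e14]
    rw [e9] at g6
    rw [e10] at hL1 hL3
    rw [e11, e12] at g7
    rw [e13] at g8
    nlinarith
  by_contra hcon
  push Not at hcon
  have : (2 * ℓ + 2) * bb < (3 * ℓ) * (β / 200 * X) := by
    have h0 : 0 < 2 * ℓ + 2 := by linarith
    calc (2 * ℓ + 2) * bb < (2 * ℓ + 2) * (β / 200 * X) := by gcongr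
      _ ≤ (3 * ℓ) * (β / 200 * X) := by gcongr; linarith
  have e : (3 * ℓ) * (β / 200 * X) = β * (3 / 200) * (X * ℓ) := by ring
  rw [e] at this
  have hβX : 0 < β * (X * ℓ) := by positivity
  nlinarith

end Pool.Agent.Work.MP_2dba45_nt.Fin
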