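import Mathlib
import Pool.Agent.Work.MP_2dba45_nt.Fin5

set_option autoImplicit false

namespace Pool.Agent.Work.MP_2dba45_nt.Fin

open Finset Filter Pool.Agent.Work.MP_2dba45_nt.TwoD Pool.Agent.Work.MP_2dba45_nt.Nu
  Pool.Agent.Work.MP_2dba45_nt.VV Pool.Agent.Work.MP_2dba45_nt.Psum
  Pool.Agent.Work.MP_2dba45_nt.Rep Pool.Agent.Work.MP_2dba45_nt.OneS
  Pool.Agent.Work.MP_2dba45_nt.Loc Pool.Agent.Work.MP_2dba45_nt.Mert

/-- the sieving level beyond which squares of primes are negligible -/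
theorem z_large (η c : ℝ) (hη : 0 < η) (hc : 0 < c) :
    ∀ᶠ z : ℕ in atTop, 16 * (Real.log z) ^ 2 ≤ η * c * z := by
  filter_upwards [log_le_pow (1 / 4) (by norm_num), ev_rpow (1 / 2) (by norm_num) (16 / (η * c)),
    eventually_ge_atTop 1] with z h1 h2 hz
  have hz1 : (1 : ℝ) ≤ z := by exact_mod_cast hz
  have hz0 : (0 : ℝ) < z := by linarith
  have hl : 0 ≤ Real.log z := Real.log_nonneg hz1
  have e : (z : ℝ) = (z : ℝ) ^ (1 / 2 : ℝ) * (z : ℝ) ^ (1 / 2 : ℝ) := by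
    rw [← Real.rpow_add hz0]; norm_num
  have e2 : ((z : ℝ) ^ (1 / 4 : ℝ)) ^ 2 = (z : ℝ) ^ (1 / 2 : ℝ) := by
    rw [← Real.rpow_natCast, ← Real.rpow_mul hz0.le]; norm_num
  have h3 : (Real.log z) ^ 2 ≤ (z : ℝ) ^ (1 / 2 : ℝ) := by
    rw [← e2]; gcongr
  have h4 : 16 ≤ η * c * (z : ℝ) ^ (1 / 2 : ℝ) := by
    rw [div_le_iff₀ (by positivity)] at h2
    linarith
  calc 16 * (Real.log z) ^ 2 ≤ 16 * (z : ℝ) ^ (1 / 2 : ℝ) := by gcongr
    _ ≤ (η * c * (z : ℝ) ^ (1 / 2 : ℝ)) * (z : ℝ) ^ (1 / 2 : ℝ) := by gcongr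
    _ = η * c * z := by rw [mul_assoc, ← e]

/-- squares of primes are negligible -/
theorem sq_small (η : ℝ) (hη : 0 < η) : ∃ z1 : ℕ, 5 ≤ z1 ∧ ∀ᶠ N : ℕ in atTop, ∀ z : ℕ, z1 ≤ z →
    z ≤ N → (#(SS N z) : ℝ) - #(SQ N z) ≤ η * XX N z := by
  obtain ⟨c, hc, hV⟩ := V_ge
  obtain ⟨z1, hz1⟩ := eventually_atTop.1 (z_large η c hη hc)
  refine ⟨max z1 5, le_max_right _ _, ?_⟩
  filter_upwards [XX_big (1 / 10) (by norm_num), ev_rpow (1 / 10) (by norm_num) (848 / η),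
    ev_rpow (2 / 3) (by norm_num) 1, eventually_ge_atTop 3] with N hXX h1 h23 hN z hz hzN
  have hzz1 : z1 ≤ z := (le_max_left _ _).trans hz
  have hz5 : 5 ≤ z := (le_max_right _ _).trans hz
  have hNr : (3 : ℝ) ≤ N := by exact_mod_cast hN
  have hN1 : (1 : ℝ) ≤ N := by linarith
  have hN0 : (0 : ℝ) < N := by linarith
  have hzr : (5 : ℝ) ≤ z := by exact_mod_cast hz5
  have hz0 : (0 : ℝ) < z := by linarith
  have hlz : 0 < Real.log z := Real.log_pos (by linarith)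
  have hX := hXX z (by omega) hzN
  set Y := ⌊(N : ℝ) ^ (2 / 3 : ℝ)⌋₊ + 5 with hY
  have hY1 : (N : ℝ) ^ (2 / 3 : ℝ) ≤ Y := by
    have := Nat.lt_floor_add_one ((N : ℝ) ^ (2 / 3 : ℝ))
    rw [hY]; push_cast; linarith
  have hY2 : (Y : ℝ) ≤ (N : ℝ) ^ (2 / 3 : ℝ) + 5 := by
    have := Nat.floor_le (show 0 ≤ (N : ℝ) ^ (2 / 3 : ℝ) by positivity)
    rw [hY]; push_cast; linarith
  have hsq := card_SQ N z Y hN hz5 (by omega)
  have h23' : 0 < (N : ℝ) ^ (2 / 3 : ℝ) := by positivity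
  have e1 : (N : ℝ) ^ 2 / (Y : ℝ) ^ 2 ≤ (N : ℝ) ^ (2 / 3 : ℝ) := by
    calc (N : ℝ) ^ 2 / (Y : ℝ) ^ 2 ≤ (N : ℝ) ^ 2 / ((N : ℝ) ^ (2 / 3 : ℝ)) ^ 2 := by gcongr
      _ = (N : ℝ) ^ (2 / 3 : ℝ) := by
        rw [← Real.rpow_natCast, ← Real.rpow_natCast, ← Real.rpow_mul hN0.le, ← Real.rpow_sub hN0]
        norm_num
  have e2 : 4 * (Y : ℝ) + 400 * (N : ℝ) ^ 2 / (Y : ℝ) ^ 2 ≤ 424 * (N : ℝ) ^ (2 / 3 : ℝ) := by
    rw [mul_div_assoc]; linarith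
  have e3 : 424 * (N : ℝ) ^ (2 / 3 : ℝ) ≤ η / 2 * XX N z := by
    calc 424 * (N : ℝ) ^ (2 / 3 : ℝ) = η / 2 * (848 / η) * (N : ℝ) ^ (2 / 3 : ℝ) := by
          field_simp; ring
      _ ≤ η / 2 * (N : ℝ) ^ (1 / 10 : ℝ) * (N : ℝ) ^ (2 / 3 : ℝ) := by gcongr
      _ = η / 2 * (N : ℝ) ^ (1 / 10 + 2 / 3 : ℝ) := by rw [mul_assoc, ← Real.rpow_add hN0]
      _ ≤ η / 2 * (N : ℝ) ^ (1 - 1 / 10 : ℝ) := by
          apply mul_le_mul_of_nonneg_left _ (by positivity)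
          exact Real.rpow_le_rpow_of_exponent_le hN1 (by norm_num)
      _ ≤ η / 2 * XX N z := by gcongr
  have e4 : 8 * (N : ℝ) / z ≤ η / 2 * XX N z := by
    have h5 := hz1 z hzz1
    have h6 := hV z (by omega)
    have h7 : 8 / (z : ℝ) ≤ η / 2 * (c / (Real.log z) ^ 2) := by
      rw [div_le_iff₀ hz0]
      have : η / 2 * (c / (Real.log z) ^ 2) * z = (η * c * z) / (2 * (Real.log z) ^ 2) := by
        field_simp
      rw [this, le_div_iff₀ (by positivity)]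
      linarith
    have h8 : η / 2 * (c / (Real.log z) ^ 2) ≤ η / 2 * V z := by gcongr
    unfold XX
    calc 8 * (N : ℝ) / z = N * (8 / z) := by ring
      _ ≤ N * (η / 2 * V z) := by
          apply mul_le_mul_of_nonneg_left _ hN0.le
          linarith
      _ = η / 2 * (N * V z) := by ring
  linarith

/-- choice of the dyadic parameter -/
theorem choose_J (ε : ℝ) (hε : 0 < ε) (hε1 : ε ≤ 1 / 200) : ∀ᶠ N : ℕ in atTop,
    ∃ P0 J : ℕ, 1 ≤ P0 ∧ (P0 : ℝ) ≤ (N : ℝ) ^ (1 - ε) ∧ (N : ℝ) ^ (99 / 100 : ℝ) ≤ P0 ∧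
      ((2 ^ J * P0 : ℕ) : ℝ) ≤ (N : ℝ) ^ (101 / 100 : ℝ) ∧
      (N : ℝ) ^ (1 + ε) < ((2 ^ J * P0 : ℕ) : ℝ) ∧ (J : ℝ) ≤ 2 + 4 * ε * Real.log N := by
  filter_upwards [ev_rpow (1 / 200) (by norm_num) 2, eventually_ge_atTop 3] with N h1 hN
  have hNr : (3 : ℝ) ≤ N := by exact_mod_cast hN
  have hN1 : (1 : ℝ) ≤ N := by linarith
  have hN0 : (0 : ℝ) < N := by linarith
  have hlN : 0 < Real.log N := Real.log_pos (by linarith)
  set P0 := ⌊(N : ℝ) ^ (1 - ε)⌋₊ with hP0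
  have hpow : 2 ≤ (N : ℝ) ^ (1 - ε) := by
    calc (2 : ℝ) ≤ (N : ℝ) ^ (1 / 200 : ℝ) := h1
      _ ≤ (N : ℝ) ^ (1 - ε) := Real.rpow_le_rpow_of_exponent_le hN1 (by linarith)
  have hP1 : (P0 : ℝ) ≤ (N : ℝ) ^ (1 - ε) := Nat.floor_le (by positivity)
  have hP2 : (N : ℝ) ^ (1 - ε) / 2 ≤ P0 := by
    have := Nat.lt_floor_add_one ((N : ℝ) ^ (1 - ε))
    rw [← hP0] at this
    linarith
  have hP3 : (N : ℝ) ^ (99 / 100 : ℝ) ≤ P0 := by
    refine le_trans ?_ hP2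
    rw [le_div_iff₀ (by norm_num)]
    calc (N : ℝ) ^ (99 / 100 : ℝ) * 2 ≤ (N : ℝ) ^ (99 / 100 : ℝ) * (N : ℝ) ^ (1 / 200 : ℝ) := by gcongr
      _ = (N : ℝ) ^ (99 / 100 + 1 / 200 : ℝ) := by rw [← Real.rpow_add hN0]
      _ ≤ (N : ℝ) ^ (1 - ε) := Real.rpow_le_rpow_of_exponent_le hN1 (by linarith)
  have hP0pos : (0 : ℝ) < P0 := lt_of_lt_of_le (by positivity) hP3
  have hx1 : (1 : ℝ) ≤ 2 * (N : ℝ) ^ (1 + ε) / P0 := by
    rw [le_div_iff₀ hP0pos, one_mul]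
    have : (N : ℝ) ^ (1 - ε) ≤ (N : ℝ) ^ (1 + ε) :=
      Real.rpow_le_rpow_of_exponent_le hN1 (by linarith)
    have h0 : 0 < (N : ℝ) ^ (1 + ε) := by positivity
    linarith
  obtain ⟨J, hJ1, hJ2⟩ := exists_nat_pow_near hx1 (one_lt_two : (1 : ℝ) < 2)
  rw [le_div_iff₀ hP0pos] at hJ1
  rw [div_lt_iff₀ hP0pos] at hJ2
  refine ⟨P0, J, ?_, hP1, hP3, ?_, ?_, ?_⟩
  · exact_mod_cast hP0pos
  · push_cast
    refine hJ1.trans ?_
    calc 2 * (N : ℝ) ^ (1 + ε) ≤ (N : ℝ) ^ (1 / 200 : ℝ) * (N : ℝ) ^ (1 + ε) := by gcongr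
      _ = (N : ℝ) ^ (1 / 200 + (1 + ε) : ℝ) := by rw [← Real.rpow_add hN0]
      _ ≤ (N : ℝ) ^ (101 / 100 : ℝ) := Real.rpow_le_rpow_of_exponent_le hN1 (by linarith)
  · push_cast
    rw [pow_succ] at hJ2
    linarith
  · have h2J : (2 : ℝ) ^ J ≤ 4 * (N : ℝ) ^ (2 * ε) := by
      have : (2 : ℝ) ^ J * ((N : ℝ) ^ (1 - ε) / 2) ≤ 2 * (N : ℝ) ^ (1 + ε) := by
        refine le_trans ?_ hJ1
        gcongr
      have h0 : 0 < (N : ℝ) ^ (1 - ε) := by positivity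
      have e : (N : ℝ) ^ (1 + ε) = (N : ℝ) ^ (2 * ε) * (N : ℝ) ^ (1 - ε) := by
        rw [← Real.rpow_add hN0]; ring_nf
      rw [e] at this
      have h3 : (2 : ℝ) ^ J * (N : ℝ) ^ (1 - ε) ≤ (4 * (N : ℝ) ^ (2 * ε)) * (N : ℝ) ^ (1 - ε) := by
        linarith
      exact le_of_mul_le_mul_right h3 h0
    have hlog := Real.log_le_log (by positivity) h2J
    rw [Real.log_pow, Real.log_mul (by norm_num) (by positivity), Real.log_rpow hN0] at hlog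
    have h4 : Real.log 4 = 2 * Real.log 2 := by
      rw [show (4 : ℝ) = 2 ^ 2 by norm_num, Real.log_pow]; norm_num
    have hl2 : 1 / 2 < Real.log 2 := by have := Real.log_two_gt_d9; linarith
    rw [h4] at hlog
    have h5 : (J : ℝ) * Real.log 2 ≤ (2 + 4 * ε * Real.log N) * Real.log 2 := by
      have : 2 * ε * Real.log N ≤ 4 * ε * Real.log N * Real.log 2 := by
        have h6 : 0 < ε * Real.log N := by positivity
        nlinarith
      linarith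
    exact le_of_mul_le_mul_right h5 (by linarith)

theorem main_ev : ∃ δ τ c : ℝ, 0 < δ ∧ 0 < τ ∧ τ ≤ 1 / 100 ∧ 0 < c ∧ ∃ z1 : ℕ, 5 ≤ z1 ∧
    ∀ᶠ N : ℕ in atTop, ∀ z : ℕ, z1 ≤ z → (z : ℝ) ≤ (N : ℝ) ^ τ →
      ∃ w : ℕ, (N : ℝ) ^ (1 + δ) < w ∧ c * XX N z ≤ #(BB N z w) := by
  obtain ⟨s1, C1, hs1, hC1, hcounts⟩ := counts
  obtain ⟨C3, τ1, hC3, hτ1, hτ1', hblock⟩ := block_sum
  obtain ⟨s2, C2, hs2, hC2, hmed⟩ := med_sum
  set β : ℝ := 1 / 16000 with hβ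
  set η : ℝ := β / 2000 with hη
  have hβ0 : 0 < β := by rw [hβ]; norm_num
  have hη0 : 0 < η := by rw [hη]; positivity
  have hη1 : η ≤ 1 / 10 := by rw [hη, hβ]; norm_num
  set s : ℝ := max (max s1 s2) (Real.log ((C1 + C2) / η)) with hs
  have hss1 : s1 ≤ s := (le_max_left _ _).trans (le_max_left _ _)
  have hss2 : s2 ≤ s := (le_max_right _ _).trans (le_max_left _ _)
  have hs0 : 0 ≤ s := by linarith
  have hexp : (C1 + C2) * Real.exp (-s) ≤ η := by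
    have h1 : Real.log ((C1 + C2) / η) ≤ s := le_max_right _ _
    have h2 : (C1 + C2) / η ≤ Real.exp s := by
      rw [← Real.log_le_iff_le_exp (by positivity)]
      exact h1
    rw [Real.exp_neg, ← div_eq_mul_inv, div_le_iff₀ (Real.exp_pos _)]
    rw [div_le_iff₀ hη0] at h2
    linarith
  have hE0 : 0 < Real.exp (-s) := Real.exp_pos _
  have hexp1 : C1 * Real.exp (-s) ≤ η := by nlinarith
  have hexp2 : C2 * Real.exp (-s) ≤ η := by nlinarith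
  set ε : ℝ := min (1 / 200) (β / (1600 * C3)) with hε
  have hε0 : 0 < ε := lt_min (by norm_num) (by positivity)
  have hε1 : ε ≤ 1 / 200 := min_le_left _ _
  have hε2 : 1600 * (C3 * ε) ≤ β := by
    have : ε ≤ β / (1600 * C3) := min_le_right _ _
    rw [le_div_iff₀ (by positivity)] at this
    linarith
  have h6s : 0 < 6 * s + 3 := by linarith
  set τ : ℝ := min τ1 (ε / (4 * (6 * s + 3))) with hτ
  have hτ0 : 0 < τ := lt_min hτ1 (by positivity)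
  have hττ1 : τ ≤ τ1 := min_le_left _ _
  have hτ2 : τ * (6 * s + 3) ≤ ε / 4 := by
    have h1 : τ ≤ ε / (4 * (6 * s + 3)) := min_le_right _ _
    rw [le_div_iff₀ (by positivity)] at h1
    linarith
  obtain ⟨z1, hz15, hsq⟩ := sq_small η hη0
  have hTT := TT_ge s C1 hC1 hs0 (hexp1.trans hη1) (fun N z hz p1 p3 h1 h3 h4 h5 h6 =>
    (hcounts s hss1 N z hz).2.2 p1 p3 h1 h3 h4 h5 h6)
  refine ⟨ε, τ, β / 200, hε0, hτ0, by linarith, by positivity, z1, hz15, ?_⟩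
  filter_upwards [hblock, hsq, hTT, choose_J ε hε0 hε1, MM_facts, XX_big (ε / 2) (by positivity),
    ev_rpow (ε / 4) (by positivity) ((C1 + C2) / η), eventually_ge_atTop 3, ev_log 2,
    ev_log ((4 + 4 * C2 + 4 * C3) / (β / 100))] with
    N hB hS hT hJ hM hXX hCη hN hlog2 hlog3 z hz hzN
  obtain ⟨P0, J, hP01, hP02, hP03, hw1, hw2, hJle⟩ := hJ
  obtain ⟨hM1, hM2, hM3, hM4, hM5⟩ := hM
  have hNr : (3 : ℝ) ≤ N := by exact_mod_cast hN
  have hN1 : (1 : ℝ) ≤ N := by linarith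
  have hN0 : (0 : ℝ) < N := by linarith
  have hz2 : 2 ≤ z := by omega
  have hz0 : (0 : ℝ) < z := by exact_mod_cast (by omega : 0 < z)
  have hlN : 0 < Real.log N := by linarith
  have hzτ1 : (z : ℝ) ≤ (N : ℝ) ^ τ1 :=
    hzN.trans (Real.rpow_le_rpow_of_exponent_le hN1 hττ1)
  have hz100 : (z : ℝ) ≤ (N : ℝ) ^ (1 / 100 : ℝ) :=
    hzN.trans (Real.rpow_le_rpow_of_exponent_le hN1 (by linarith))
  have hzN' : z ≤ N := by
    have : (z : ℝ) ≤ N := by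
      calc (z : ℝ) ≤ (N : ℝ) ^ (1 / 100 : ℝ) := hz100
        _ ≤ (N : ℝ) ^ (1 : ℝ) := Real.rpow_le_rpow_of_exponent_le hN1 (by norm_num)
        _ = N := Real.rpow_one _
    exact_mod_cast this
  have hzpow : (z : ℝ) ^ (6 * s + 3) ≤ (N : ℝ) ^ (ε / 4) := by
    calc (z : ℝ) ^ (6 * s + 3) ≤ ((N : ℝ) ^ τ) ^ (6 * s + 3) :=
          Real.rpow_le_rpow hz0.le hzN h6s.le
      _ = (N : ℝ) ^ (τ * (6 * s + 3)) := (Real.rpow_mul hN0.le _ _).symm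
      _ ≤ (N : ℝ) ^ (ε / 4) := Real.rpow_le_rpow_of_exponent_le hN1 hτ2
  have hzpow100 : (z : ℝ) ^ (6 * s + 3) ≤ (N : ℝ) ^ (1 / 100 : ℝ) :=
    hzpow.trans (Real.rpow_le_rpow_of_exponent_le hN1 (by linarith))
  have hX := hXX z hz2 hzN'
  have hX0 : 0 < XX N z := lt_of_lt_of_le (by positivity) hX
  set w := 2 ^ J * P0 with hw
  have hPw : P0 ≤ w := by rw [hw]; exact Nat.le_mul_of_pos_left _ (by positivity)
  have hMw : (MM N) ^ 4 ≤ w := by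
    have h1 : ((MM N ^ 4 : ℕ) : ℝ) ≤ (w : ℝ) := by
      push_cast
      calc (MM N : ℝ) ^ 4 ≤ ((N : ℝ) ^ (1 / 16 : ℝ)) ^ 4 := by gcongr
        _ = (N : ℝ) ^ (1 / 4 : ℝ) := by
            rw [← Real.rpow_natCast, ← Real.rpow_mul hN0.le]; norm_num
        _ ≤ (N : ℝ) ^ (1 + ε) := Real.rpow_le_rpow_of_exponent_le hN1 (by linarith)
        _ ≤ (w : ℝ) := hw2.le
    exact_mod_cast h1
  have hMN : 2 * Real.log (MM N) ≤ 2 * Real.log N + 2 := by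
    have h1 : Real.log (MM N) ≤ Real.log N := by
      apply Real.log_le_log (by exact_mod_cast (by omega : 0 < MM N))
      calc (MM N : ℝ) ≤ (N : ℝ) ^ (1 / 16 : ℝ) := hM2
        _ ≤ (N : ℝ) ^ (1 : ℝ) := Real.rpow_le_rpow_of_exponent_le hN1 (by norm_num)
        _ = N := Real.rpow_one _
    linarith
  refine ⟨w, hw2, ?_⟩
  -- the error terms
  have herr1 : C1 * (z : ℝ) ^ (6 * s + 3) ≤ η * XX N z := by
    calc C1 * (z : ℝ) ^ (6 * s + 3) ≤ (C1 + C2) * (N : ℝ) ^ (ε / 4) := by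
          gcongr
          linarith
      _ = η * ((C1 + C2) / η) * (N : ℝ) ^ (ε / 4) := by field_simp
      _ ≤ η * (N : ℝ) ^ (ε / 4) * (N : ℝ) ^ (ε / 4) := by gcongr
      _ = η * (N : ℝ) ^ (ε / 4 + ε / 4) := by rw [mul_assoc, ← Real.rpow_add hN0]
      _ ≤ η * (N : ℝ) ^ (1 - ε / 2) := by
          apply mul_le_mul_of_nonneg_left _ hη0.le
          exact Real.rpow_le_rpow_of_exponent_le hN1 (by linarith)
      _ ≤ η * XX N z := by gcongr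
  have hP0r : (1 : ℝ) ≤ P0 := by exact_mod_cast hP01
  have hlP0 : Real.log P0 ≤ Real.log N := by
    apply Real.log_le_log (by linarith)
    calc (P0 : ℝ) ≤ (N : ℝ) ^ (1 - ε) := hP02
      _ ≤ (N : ℝ) ^ (1 : ℝ) := Real.rpow_le_rpow_of_exponent_le hN1 (by linarith)
      _ = N := Real.rpow_one _
  have hlP00 : 0 ≤ Real.log P0 := Real.log_nonneg hP0r
  have herr2 : C2 * (z : ℝ) ^ (6 * s + 3) * (P0 * Real.log P0) ≤ η * XX N z * Real.log N := by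
    have h1 : C2 * (z : ℝ) ^ (6 * s + 3) * P0 ≤ η * XX N z := by
      calc C2 * (z : ℝ) ^ (6 * s + 3) * P0 ≤ (C1 + C2) * (N : ℝ) ^ (ε / 4) * (N : ℝ) ^ (1 - ε) := by
            gcongr
            linarith
        _ = η * ((C1 + C2) / η) * (N : ℝ) ^ (ε / 4) * (N : ℝ) ^ (1 - ε) := by field_simp
        _ ≤ η * (N : ℝ) ^ (ε / 4) * (N : ℝ) ^ (ε / 4) * (N : ℝ) ^ (1 - ε) := by gcongr
        _ = η * (N : ℝ) ^ (ε / 4 + (ε / 4 + (1 - ε))) := by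
            rw [mul_assoc, mul_assoc, ← Real.rpow_add hN0, ← Real.rpow_add hN0]
        _ = η * (N : ℝ) ^ (1 - ε / 2) := by ring_nf
        _ ≤ η * XX N z := by gcongr
    calc C2 * (z : ℝ) ^ (6 * s + 3) * (P0 * Real.log P0)
        = (C2 * (z : ℝ) ^ (6 * s + 3) * P0) * Real.log P0 := by ring
      _ ≤ η * XX N z * Real.log N := by gcongr
  have hcnt := (hcounts s hss1 N z hz2).1
  have hcnt1 := (abs_le.1 hcnt).1
  have hcnt2 := (abs_le.1 hcnt).2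
  have hee : C1 * Real.exp (-s) * XX N z ≤ η * XX N z := by gcongr
  have hmedd : ∀ d : ℕ, (d = 1 ∨ d = 3) →
      (∑ p ∈ (Icc z P0).filter Nat.Prime, Real.log p * (cdp N z d p : ℝ)) ≤
      (1 + η) * XX N z * (Real.log N + C2) + η * XX N z * Real.log N := by
    intro d hd
    refine (hmed s hss2 N z P0 hz2 hP01 d hd).trans ?_
    have h1 : (1 + C2 * Real.exp (-s)) * XX N z * (Real.log P0 + C2) ≤
        (1 + η) * XX N z * (Real.log N + C2) := by gcongr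
    linarith
  have hblk : ∀ d d' : ℕ, Pair d d' →
      (∑ p ∈ (Ioc P0 w).filter Nat.Prime, Real.log p * (cdp N z d p : ℝ)) ≤ C3 * J * XX N z :=
    fun d d' hdd => hB z hz2 hzτ1 P0 hP03 J hw1 d d' hdd
  have hL1 := sumL_ge (N := N) (z := z) (P0 := P0) (w := w) (d := 1) (by omega) (Or.inl rfl) hPw
  have hL3 := sumL_ge (N := N) (z := z) (P0 := P0) (w := w) (d := 3) (by omega) (Or.inr rfl) hPw
  have hup := sumL_le (N := N) (z := z) (w := w) (M := MM N) (by omega) hM3 hMw hMN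
  have hlog3' : 4 + 4 * C2 + 4 * C3 ≤ β / 100 * Real.log N := by
    rw [div_le_iff₀ (by positivity)] at hlog3
    linarith
  have hcardle : (#(SQ N z) : ℝ) ≤ #(SS N z) := by
    exact_mod_cast Finset.card_le_card (SQ_sub N z)
  refine final_arith (Real.log N) (XX N z) (#(SQ N z)) (#(BB N z w)) (#(SS N z)) (#(TT N z (MM N)))
    (Real.log (MM N)) C2 C3 J _ _ β η ε hβ0 hη (by rw [hβ]; norm_num) hε0 hε2 hX0 hlog2 hC2 hC3
    hlog3' (by linarith) (by linarith) (hS z hz hzN') hcardle (hT z hz2 hz100 hzpow100) hM5 hJle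
    ?_ ?_ hup
  · have h1 := hmedd 1 (Or.inl rfl)
    have h2 := hblk 1 3 (Or.inl ⟨rfl, rfl⟩)
    linarith
  · have h1 := hmedd 3 (Or.inr rfl)
    have h2 := hblk 3 1 (Or.inr ⟨rfl, rfl⟩)
    linarith

end Pool.Agent.Work.MP_2dba45_nt.Fin
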