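import Mathlib

set_option autoImplicit false

namespace Pool.Agent.Work.MP_2dba45_nt.Lucas

/-- companion Lucas sequence with parameters (t, -1) -/
def V (t : ℕ) : ℕ → ℕ
  | 0 => 2
  | 1 => t
  | (n + 2) => t * V t (n + 1) + V t n

/-- Lucas sequence with parameters (t, -1) -/
def U (t : ℕ) : ℕ → ℕ
  | 0 => 0
  | 1 => 1
  | (n + 2) => t * U t (n + 1) + U t n

theorem V_two_add (t n : ℕ) : V t (n + 2) = t * V t (n + 1) + V t n := rfl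
theorem U_two_add (t n : ℕ) : U t (n + 2) = t * U t (n + 1) + U t n := rfl

theorem V_pos {t : ℕ} (ht : 0 < t) : ∀ n, 0 < V t n
  | 0 => by simp [V]
  | 1 => by simpa [V] using ht
  | (n + 2) => by
      have := V_pos ht n
      rw [V_two_add]; positivity

theorem V_lt_succ {t : ℕ} (ht : 0 < t) (n : ℕ) : V t (n + 1) < V t (n + 2) := by
  rw [V_two_add]
  have h1 := V_pos ht n
  have h2 : 1 * V t (n+1) ≤ t * V t (n+1) := Nat.mul_le_mul_right _ ht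
  omega

theorem V_strictMono {t : ℕ} (ht : 0 < t) : StrictMono (fun n => V t (n + 1)) :=
  strictMono_nat_of_lt_succ (fun n => V_lt_succ ht n)

/-- step-two recurrence, over the integers -/
theorem V_four (t n : ℕ) :
    (V t (n + 4) : ℤ) = ((t : ℤ) ^ 2 + 2) * V t (n + 2) - V t n := by
  rw [V_two_add t (n+2), V_two_add t (n+1), V_two_add t n]
  push_cast
  ring

section field

variable {F : Type*} [Field F] {t : ℕ} {e d : F}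

theorem V_eq (h1 : e + d = t) (h2 : e * d = -1) : ∀ n, (V t n : F) = e ^ n + d ^ n
  | 0 => by simp [V]; norm_num
  | 1 => by simp [V, h1]
  | (n + 2) => by
      rw [V_two_add]
      push_cast
      rw [V_eq h1 h2 n, V_eq h1 h2 (n+1), ← h1]
      linear_combination (e ^ n + d ^ n) * h2

theorem U_eq (h1 : e + d = t) (h2 : e * d = -1) : ∀ n, (e - d) * (U t n : F) = e ^ n - d ^ n
  | 0 => by simp [U]
  | 1 => by simp [U]
  | (n + 2) => by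
      rw [U_two_add]
      push_cast
      rw [mul_add, ← mul_assoc, mul_comm (e - d), mul_assoc, U_eq h1 h2 n, U_eq h1 h2 (n+1), ← h1]
      linear_combination (e ^ n - d ^ n) * h2

end field


/-- values of `V` at `6i+1` and `6i+3` modulo `(t^2+3)^2` -/
theorem V_mod3 (t i : ℕ) :
    (((t : ℤ) ^ 2 + 3) ^ 2 ∣ (V t (6 * i + 1) : ℤ) - t * (1 - i * ((t : ℤ) ^ 2 + 3))) ∧
    (((t : ℤ) ^ 2 + 3) ^ 2 ∣ (V t (6 * i + 3) : ℤ) - t * ((2 * i + 1) * ((t : ℤ) ^ 2 + 3))) ∧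
    (((t : ℤ) ^ 2 + 3) ^ 2 ∣ (V t (6 * i + 5) : ℤ) - t * (-1 - (i + 1) * ((t : ℤ) ^ 2 + 3))) := by
  induction i with
  | zero =>
    refine ⟨?_, ?_, ?_⟩
    · simp [V]
    · simp only [V]
      push_cast
      exact ⟨0, by ring⟩
    · simp only [V]
      push_cast
      exact ⟨t, by ring⟩
  | succ i ih =>
    obtain ⟨⟨a, ha⟩, ⟨b, hb⟩, ⟨c, hc⟩⟩ := ih
    have e1 := V_four t (6 * i + 3)
    have e2 := V_four t (6 * i + 5)
    have e3 := V_four t (6 * i + 7)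
    rw [show 6 * i + 3 + 4 = 6 * i + 7 by ring, show 6 * i + 3 + 2 = 6 * i + 5 by ring] at e1
    rw [show 6 * i + 5 + 4 = 6 * i + 9 by ring, show 6 * i + 5 + 2 = 6 * i + 7 by ring] at e2
    rw [show 6 * i + 7 + 4 = 6 * i + 11 by ring, show 6 * i + 7 + 2 = 6 * i + 9 by ring] at e3
    rw [show 6 * (i + 1) + 1 = 6 * i + 7 by ring, show 6 * (i + 1) + 3 = 6 * i + 9 by ring,
      show 6 * (i + 1) + 5 = 6 * i + 11 by ring]
    have k1 : ((t : ℤ) ^ 2 + 3) ^ 2 ∣ (V t (6 * i + 7) : ℤ) -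
        t * (1 - (i + 1 : ℕ) * ((t : ℤ) ^ 2 + 3)) := by
      refine ⟨((t:ℤ)^2+2) * c - b - t * (i + 1), ?_⟩
      rw [e1]; push_cast
      linear_combination ((t:ℤ)^2+2) * hc - hb
    obtain ⟨a', ha'⟩ := k1
    have k2 : ((t : ℤ) ^ 2 + 3) ^ 2 ∣ (V t (6 * i + 9) : ℤ) -
        t * ((2 * (i + 1 : ℕ) + 1) * ((t : ℤ) ^ 2 + 3)) := by
      refine ⟨((t:ℤ)^2+2) * a' - c - t * (i + 1), ?_⟩
      rw [e2]; push_cast
      push_cast at ha'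
      linear_combination ((t:ℤ)^2+2) * ha' - hc
    obtain ⟨b', hb'⟩ := k2
    have k3 : ((t : ℤ) ^ 2 + 3) ^ 2 ∣ (V t (6 * i + 11) : ℤ) -
        t * (-1 - ((i + 1 : ℕ) + 1) * ((t : ℤ) ^ 2 + 3)) := by
      refine ⟨((t:ℤ)^2+2) * b' - a' + t * (2 * i + 3), ?_⟩
      rw [e3]; push_cast
      push_cast at ha' hb'
      linear_combination ((t:ℤ)^2+2) * hb' - ha'
    exact ⟨⟨a', ha'⟩, ⟨b', hb'⟩, k3⟩


theorem V_mod1_step (t k : ℕ) (c₀ R₀ c R : ℤ)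
    (h₀ : ((t : ℤ) ^ 2 + 1) ^ 2 ∣ (V t k : ℤ) - t * (c₀ + R₀ * ((t : ℤ) ^ 2 + 1)))
    (h : ((t : ℤ) ^ 2 + 1) ^ 2 ∣ (V t (k + 2) : ℤ) - t * (c + R * ((t : ℤ) ^ 2 + 1))) :
    ((t : ℤ) ^ 2 + 1) ^ 2 ∣ (V t (k + 4) : ℤ) -
      t * ((c - c₀) + (c + R - R₀) * ((t : ℤ) ^ 2 + 1)) := by
  obtain ⟨a, ha⟩ := h₀
  obtain ⟨b, hb⟩ := h
  refine ⟨((t:ℤ)^2+2) * b - a + t * R, ?_⟩
  rw [V_four]
  linear_combination ((t:ℤ)^2+2) * hb - ha

/-- values of `V` at odd indices modulo `(t^2+1)^2` -/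
theorem V_mod1 (t i : ℕ) :
    (((t : ℤ) ^ 2 + 1) ^ 2 ∣ (V t (12 * i + 1) : ℤ) - t * (1 + (-6 * i) * ((t : ℤ) ^ 2 + 1))) ∧
    (((t : ℤ) ^ 2 + 1) ^ 2 ∣ (V t (12 * i + 3) : ℤ) - t * (2 + 1 * ((t : ℤ) ^ 2 + 1))) ∧
    (((t : ℤ) ^ 2 + 1) ^ 2 ∣ (V t (12 * i + 5) : ℤ) - t * (1 + (3 + 6 * i) * ((t : ℤ) ^ 2 + 1))) ∧
    (((t : ℤ) ^ 2 + 1) ^ 2 ∣ (V t (12 * i + 7) : ℤ) - t * (-1 + (3 + 6 * i) * ((t : ℤ) ^ 2 + 1))) ∧
    (((t : ℤ) ^ 2 + 1) ^ 2 ∣ (V t (12 * i + 9) : ℤ) - t * (-2 + (-1) * ((t : ℤ) ^ 2 + 1))) ∧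
    (((t : ℤ) ^ 2 + 1) ^ 2 ∣ (V t (12 * i + 11) : ℤ) -
      t * (-1 + (-6 - 6 * i) * ((t : ℤ) ^ 2 + 1))) := by
  have key : ∀ i : ℕ,
      (((t : ℤ) ^ 2 + 1) ^ 2 ∣ (V t (12 * i + 1) : ℤ) - t * (1 + (-6 * i) * ((t : ℤ) ^ 2 + 1))) →
      (((t : ℤ) ^ 2 + 1) ^ 2 ∣ (V t (12 * i + 3) : ℤ) - t * (2 + 1 * ((t : ℤ) ^ 2 + 1))) →
      (((t : ℤ) ^ 2 + 1) ^ 2 ∣ (V t (12 * i + 5) : ℤ) -
        t * (1 + (3 + 6 * i) * ((t : ℤ) ^ 2 + 1))) ∧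
      (((t : ℤ) ^ 2 + 1) ^ 2 ∣ (V t (12 * i + 7) : ℤ) -
        t * (-1 + (3 + 6 * i) * ((t : ℤ) ^ 2 + 1))) ∧
      (((t : ℤ) ^ 2 + 1) ^ 2 ∣ (V t (12 * i + 9) : ℤ) - t * (-2 + (-1) * ((t : ℤ) ^ 2 + 1))) ∧
      (((t : ℤ) ^ 2 + 1) ^ 2 ∣ (V t (12 * i + 11) : ℤ) -
        t * (-1 + (-6 - 6 * i) * ((t : ℤ) ^ 2 + 1))) := by
    intro i h1 h3
    have h5 := V_mod1_step t (12 * i + 1) _ _ _ _ h1 h3
    rw [show 12 * i + 1 + 4 = 12 * i + 5 by ring] at h5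
    have h5' : (((t : ℤ) ^ 2 + 1) ^ 2 ∣ (V t (12 * i + 5) : ℤ) -
        t * (1 + (3 + 6 * i) * ((t : ℤ) ^ 2 + 1))) := by
      convert h5 using 3; ring
    have h7 := V_mod1_step t (12 * i + 3) _ _ _ _ h3 h5'
    rw [show 12 * i + 3 + 4 = 12 * i + 7 by ring] at h7
    have h7' : (((t : ℤ) ^ 2 + 1) ^ 2 ∣ (V t (12 * i + 7) : ℤ) -
        t * (-1 + (3 + 6 * i) * ((t : ℤ) ^ 2 + 1))) := by
      convert h7 using 3; ring
    have h9 := V_mod1_step t (12 * i + 5) _ _ _ _ h5' h7'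
    rw [show 12 * i + 5 + 4 = 12 * i + 9 by ring] at h9
    have h9' : (((t : ℤ) ^ 2 + 1) ^ 2 ∣ (V t (12 * i + 9) : ℤ) -
        t * (-2 + (-1) * ((t : ℤ) ^ 2 + 1))) := by
      convert h9 using 3; ring
    have h11 := V_mod1_step t (12 * i + 7) _ _ _ _ h7' h9'
    rw [show 12 * i + 7 + 4 = 12 * i + 11 by ring] at h11
    have h11' : (((t : ℤ) ^ 2 + 1) ^ 2 ∣ (V t (12 * i + 11) : ℤ) -
        t * (-1 + (-6 - 6 * i) * ((t : ℤ) ^ 2 + 1))) := by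
      convert h11 using 3; ring
    exact ⟨h5', h7', h9', h11'⟩
  have base : (((t : ℤ) ^ 2 + 1) ^ 2 ∣ (V t (12 * i + 1) : ℤ) -
        t * (1 + (-6 * i) * ((t : ℤ) ^ 2 + 1))) ∧
      (((t : ℤ) ^ 2 + 1) ^ 2 ∣ (V t (12 * i + 3) : ℤ) - t * (2 + 1 * ((t : ℤ) ^ 2 + 1))) := by
    induction i with
    | zero =>
      refine ⟨?_, ?_⟩
      · simp [V]
      · simp only [V]
        push_cast
        exact ⟨0, by ring⟩
    | succ i ih =>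
      obtain ⟨h5, h7, h9, h11⟩ := key i ih.1 ih.2
      have h13 := V_mod1_step t (12 * i + 9) _ _ _ _ h9 h11
      rw [show 12 * i + 9 + 4 = 12 * (i + 1) + 1 by ring] at h13
      have h13' : (((t : ℤ) ^ 2 + 1) ^ 2 ∣ (V t (12 * (i + 1) + 1) : ℤ) -
          t * (1 + (-6 * (i + 1 : ℕ)) * ((t : ℤ) ^ 2 + 1))) := by
        convert h13 using 3; push_cast; ring
      have h15 := V_mod1_step t (12 * i + 11) _ _ _ _ h11
        (by rw [show 12 * i + 11 + 2 = 12 * (i + 1) + 1 by ring]; exact h13')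
      rw [show 12 * i + 11 + 4 = 12 * (i + 1) + 3 by ring] at h15
      refine ⟨h13', ?_⟩
      convert h15 using 3; push_cast; ring
  exact ⟨base.1, base.2, key i base.1 base.2⟩

/-- for `k` prime to 6, `V_k^2+3 = (t^2+3) b` with `b = ± k` modulo `t^2+3` -/
theorem V_sq_add_three (t k : ℕ) (hk : Nat.Coprime k 6) :
    ∃ b : ℤ, (V t k : ℤ) ^ 2 + 3 = ((t : ℤ) ^ 2 + 3) * b ∧
      (((t : ℤ) ^ 2 + 3) ∣ b - k ∨ ((t : ℤ) ^ 2 + 3) ∣ b + k) := by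
  have h : k % 6 = 1 ∨ k % 6 = 5 := by
    have h1 : k % 6 < 6 := Nat.mod_lt _ (by norm_num)
    have h2 : Nat.gcd (k % 6) 6 = 1 := by
      have := hk; rw [Nat.Coprime, Nat.gcd_comm, Nat.gcd_rec] at this; simpa using this
    interval_cases hh : k % 6 <;> simp_all
  have hd := Nat.div_add_mod k 6
  set i := k / 6 with hi
  obtain ⟨⟨a, ha⟩, -, ⟨c, hc⟩⟩ := V_mod3 t i
  rcases h with h | h
  · rw [h] at hd
    rw [← hd]
    set x : ℤ := (V t (6 * i + 1) : ℤ) with hx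
    set s : ℤ := (t : ℤ) ^ 2 + 3 with hs
    have hx2 : x = t * (1 - i * s) + s ^ 2 * a := by linear_combination ha
    refine ⟨1 + 6 * i + s * (-2 * i + i ^ 2 * (s - 3) + 2 * t * (1 - i * s) * a + s ^ 2 * a ^ 2),
      ?_, Or.inl ?_⟩
    · rw [hx2]
      have ht2 : (t : ℤ) ^ 2 = s - 3 := by rw [hs]; ring
      linear_combination (1 - 2 * i * s + i ^ 2 * s ^ 2) * ht2
    · refine ⟨(-2 * i + i ^ 2 * (s - 3) + 2 * t * (1 - i * s) * a + s ^ 2 * a ^ 2), ?_⟩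
      push_cast; ring
  · rw [h] at hd
    rw [← hd]
    set x : ℤ := (V t (6 * i + 5) : ℤ) with hx
    set s : ℤ := (t : ℤ) ^ 2 + 3 with hs
    have hx2 : x = t * (-1 - (i + 1) * s) + s ^ 2 * c := by linear_combination hc
    refine ⟨-(6 * i + 5) + s * (2 * (i + 1) + (i + 1) ^ 2 * (s - 3) +
      2 * t * (-1 - (i + 1) * s) * c + s ^ 2 * c ^ 2), ?_, Or.inr ?_⟩
    · rw [hx2]
      have ht2 : (t : ℤ) ^ 2 = s - 3 := by rw [hs]; ring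
      linear_combination (1 + 2 * (i + 1) * s + (i + 1) ^ 2 * s ^ 2) * ht2
    · refine ⟨(2 * (i + 1) + (i + 1) ^ 2 * (s - 3) +
      2 * t * (-1 - (i + 1) * s) * c + s ^ 2 * c ^ 2), ?_⟩
      push_cast; ring


theorem sq_add_one_aux (t x c R w s : ℤ) (hs : s = t ^ 2 + 1) (hc : c ^ 2 = 1)
    (hx : x - t * (c + R * s) = s ^ 2 * w) :
    x ^ 2 + 1 = s * (1 - 2 * c * R + s * (2 * c * R + (s - 1) * R ^ 2 +
      2 * t * (c + R * s) * w + s ^ 2 * w ^ 2)) := by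
  have hx2 : x = t * (c + R * s) + s ^ 2 * w := by linear_combination hx
  have ht2 : t ^ 2 = s - 1 := by rw [hs]; ring
  rw [hx2]
  linear_combination (c + R * s) ^ 2 * ht2 + (s - 1) * hc

theorem aux_dvd (s A Z k : ℤ) (h : A = k) : s ∣ (A + s * Z) - k := ⟨Z, by rw [h]; ring⟩
theorem aux_dvd' (s A Z k : ℤ) (h : A = -k) : s ∣ (A + s * Z) + k := ⟨Z, by rw [h]; ring⟩

/-- for `k` prime to 6, `V_k^2+1 = (t^2+1) a` with `a = ± k` modulo `t^2+1` -/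
theorem V_sq_add_one (t k : ℕ) (hk : Nat.Coprime k 6) :
    ∃ b : ℤ, (V t k : ℤ) ^ 2 + 1 = ((t : ℤ) ^ 2 + 1) * b ∧
      (((t : ℤ) ^ 2 + 1) ∣ b - k ∨ ((t : ℤ) ^ 2 + 1) ∣ b + k) := by
  have h : k % 12 = 1 ∨ k % 12 = 5 ∨ k % 12 = 7 ∨ k % 12 = 11 := by
    have h1 : k % 12 < 12 := Nat.mod_lt _ (by norm_num)
    have h2 : Nat.gcd (k % 6) 6 = 1 := by
      have := hk; rw [Nat.Coprime, Nat.gcd_comm, Nat.gcd_rec] at this; simpa using this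
    have h3 : k % 6 = (k % 12) % 6 := by omega
    rw [h3] at h2
    interval_cases hh : k % 12 <;> simp_all
  have hd := Nat.div_add_mod k 12
  set i := k / 12 with hi
  obtain ⟨⟨w1, h1⟩, -, ⟨w5, h5⟩, ⟨w7, h7⟩, -, ⟨w11, h11⟩⟩ := V_mod1 t i
  rcases h with h | h | h | h
  · rw [h] at hd
    rw [← hd]
    refine ⟨_, sq_add_one_aux _ _ _ _ _ _ rfl (by norm_num) h1, Or.inl ?_⟩
    exact aux_dvd _ _ _ _ (by push_cast; ring)
  · rw [h] at hd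
    rw [← hd]
    refine ⟨_, sq_add_one_aux _ _ _ _ _ _ rfl (by norm_num) h5, Or.inr ?_⟩
    exact aux_dvd' _ _ _ _ (by push_cast; ring)
  · rw [h] at hd
    rw [← hd]
    refine ⟨_, sq_add_one_aux _ _ _ _ _ _ rfl (by norm_num) h7, Or.inl ?_⟩
    exact aux_dvd _ _ _ _ (by push_cast; ring)
  · rw [h] at hd
    rw [← hd]
    refine ⟨_, sq_add_one_aux _ _ _ _ _ _ rfl (by norm_num) h11, Or.inr ?_⟩
    exact aux_dvd' _ _ _ _ (by push_cast; ring)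

end Pool.Agent.Work.MP_2dba45_nt.Lucas
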