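import Pool.Agent.Work.MP_2dba45_nt.Lucas

set_option autoImplicit false

namespace Pool.Agent.Work.MP_2dba45_nt.Lucas

section

variable {F : Type*} [Field F] {t : ℕ} {e d : F}

theorem pow_cases {g : F} {k : ℕ} (hk : Nat.Coprime k 6) (hg : g ^ 6 = 1) :
    (g ^ k = g) ∨ (g ^ k = g ^ 5) := by
  have h : k % 6 = 1 ∨ k % 6 = 5 := by
    have h1 : k % 6 < 6 := Nat.mod_lt _ (by norm_num)
    have h2 : Nat.gcd (k % 6) 6 = 1 := by
      have := hk; rw [Nat.Coprime, Nat.gcd_comm, Nat.gcd_rec] at this; simpa using this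
    interval_cases hh : k % 6 <;> simp_all
  have hd := Nat.div_add_mod k 6
  rcases h with h | h
  · left
    rw [← hd, h, pow_add, pow_mul, hg, one_pow, one_mul, pow_one]
  · right
    rw [← hd, h, pow_add, pow_mul, hg, one_pow, one_mul]

theorem pow_cases3 {g : F} {k : ℕ} (hk : Nat.Coprime k 6) (hg : g ^ 3 = 1) :
    (g ^ k = g) ∨ (g ^ k = g ^ 2) := by
  have hg6 : g ^ 6 = 1 := by rw [show 6 = 3 * 2 by norm_num, pow_mul, hg, one_pow]
  rcases pow_cases hk hg6 with h | h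
  · left; exact h
  · right; rw [h, show 5 = 3 + 2 by norm_num, pow_add, hg, one_mul]

theorem odd_of_coprime {k : ℕ} (hk : Nat.Coprime k 6) : Odd k := by
  rcases Nat.even_or_odd k with h | h
  · exfalso
    have h2 : 2 ∣ Nat.gcd k 6 := Nat.dvd_gcd h.two_dvd (by norm_num)
    rw [hk] at h2; omega
  · exact h

theorem case3 (h1 : e + d = t) (h2 : e * d = -1) {k : ℕ} (hk : Nat.Coprime k 6)
    (hV : (V t k : F) ^ 2 + 3 = 0) (ht : (t : F) ^ 2 + 3 ≠ 0) :
    (e ^ 2) ^ (3 * k) = 1 ∧ (e ^ 2) ^ 3 ≠ 1 := by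
  have he : e ≠ 0 := by
    rintro rfl; simp at h2
  have hodd := odd_of_coprime hk
  have hed : e ^ k * d ^ k = -1 := by rw [← mul_pow, h2, hodd.neg_one_pow]
  have hye : e ^ k ≠ 0 := pow_ne_zero _ he
  rw [V_eq h1 h2 k] at hV
  have hq : (e ^ k) ^ 4 + (e ^ k) ^ 2 + 1 = 0 := by
    have := congrArg (fun z => (e ^ k) ^ 2 * z) hV
    simp only [mul_zero] at this
    linear_combination this + (-(e ^ k * d ^ k) + 1 - 2 * (e ^ k) ^ 2) * hed
  constructor
  · rw [← pow_mul, show 2 * (3 * k) = k * 6 by ring, pow_mul]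
    linear_combination ((e ^ k) ^ 2 - 1) * hq
  · intro hg
    have hg2 : (e ^ 2) ^ 2 + e ^ 2 + 1 = 0 := by
      have hy2 : (e ^ k) ^ 2 = (e ^ 2) ^ k := by rw [← pow_mul, ← pow_mul, mul_comm]
      rcases pow_cases3 hk hg with h | h
      · rw [h] at hy2
        rw [← hy2]
        linear_combination hq
      · rw [h] at hy2
        have : (e ^ k) ^ 4 = e ^ 2 := by
          rw [show (e ^ k) ^ 4 = ((e ^ k) ^ 2) ^ 2 by ring, hy2]
          linear_combination e ^ 2 * hg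
        linear_combination hq - this - hy2
    apply ht
    rw [← h1]
    have he2 : e ^ 2 ≠ 0 := pow_ne_zero _ he
    apply (mul_left_inj' he2).1
    rw [zero_mul]
    linear_combination hg2 + (e * d - 1 + 2 * e ^ 2) * h2

theorem case1 (h1 : e + d = t) (h2 : e * d = -1) {k : ℕ} (hk : Nat.Coprime k 6)
    (hV : (V t k : F) ^ 2 + 1 = 0) (ht : (t : F) ^ 2 + 1 ≠ 0) :
    (e ^ 2) ^ (6 * k) = 1 ∧ (e ^ 2) ^ 6 ≠ 1 := by
  have he : e ≠ 0 := by
    rintro rfl; simp at h2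
  have hodd := odd_of_coprime hk
  have hed : e ^ k * d ^ k = -1 := by rw [← mul_pow, h2, hodd.neg_one_pow]
  have hye : e ^ k ≠ 0 := pow_ne_zero _ he
  rw [V_eq h1 h2 k] at hV
  have hq : (e ^ k) ^ 4 - (e ^ k) ^ 2 + 1 = 0 := by
    have := congrArg (fun z => (e ^ k) ^ 2 * z) hV
    simp only [mul_zero] at this
    linear_combination this + (-(e ^ k * d ^ k) + 1 - 2 * (e ^ k) ^ 2) * hed
  constructor
  · rw [← pow_mul, show 2 * (6 * k) = k * 12 by ring, pow_mul]
    linear_combination ((e ^ k) ^ 2 + 1) * ((e ^ k) ^ 6 - 1) * hq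
  · intro hg
    have hg2 : (e ^ 2) ^ 2 - e ^ 2 + 1 = 0 := by
      have hy2 : (e ^ k) ^ 2 = (e ^ 2) ^ k := by rw [← pow_mul, ← pow_mul, mul_comm]
      rcases pow_cases hk hg with h | h
      · rw [h] at hy2
        rw [← hy2]
        linear_combination hq
      · rw [h] at hy2
        have h4 : (e ^ k) ^ 4 = (e ^ 2) ^ 10 := by
          rw [show (e ^ k) ^ 4 = ((e ^ k) ^ 2) ^ 2 by ring, hy2]; ring
        rw [h4, hy2] at hq
        linear_combination (e ^ 2) ^ 2 * hq - ((e ^ 2) ^ 6 + 1 - e ^ 2) * hg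
    apply ht
    rw [← h1]
    have he2 : e ^ 2 ≠ 0 := pow_ne_zero _ he
    apply (mul_left_inj' he2).1
    rw [zero_mul]
    linear_combination hg2 + (e * d - 1 + 2 * e ^ 2) * h2

theorem ell_dvd_order {g : F} {ℓ j c : ℕ} (hℓ : ℓ.Prime) (h1 : g ^ (c * ℓ ^ j) = 1)
    (h2 : g ^ c ≠ 1) : ℓ ∣ orderOf g := by
  by_contra hnd
  have hcop : Nat.Coprime (orderOf g) (ℓ ^ j) :=
    (((Nat.Prime.coprime_iff_not_dvd hℓ).2 hnd).symm).pow_right j
  have hd := orderOf_dvd_of_pow_eq_one h1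
  have := hcop.dvd_of_dvd_mul_right hd
  exact h2 (orderOf_dvd_iff_pow_eq_one.1 this)

end

theorem exists_roots (r : ℕ) [Fact r.Prime] (t : ℕ) :
    ∃ e d : AlgebraicClosure (ZMod r), e + d = t ∧ e * d = -1 := by
  classical
  let p : Polynomial (AlgebraicClosure (ZMod r)) :=
    Polynomial.X ^ 2 - Polynomial.C (t : AlgebraicClosure (ZMod r)) * Polynomial.X - 1
  have hdeg : p.degree = 2 := by
    simp only [p]
    compute_degree!
  obtain ⟨e, he⟩ := IsAlgClosed.exists_root p (by rw [hdeg]; norm_num)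
  refine ⟨e, t - e, by ring, ?_⟩
  have : e ^ 2 - t * e - 1 = 0 := by
    simpa [p, Polynomial.IsRoot] using he
  linear_combination -this

theorem frob_root {K : Type*} [Field K] {r : ℕ} [Fact r.Prime] [CharP K r] {t : ℕ} {e d : K}
    (h1 : e + d = t) (h2 : e * d = -1) : e ^ r = e ∨ e ^ r = d := by
  have hroot : e ^ 2 - t * e - 1 = 0 := by rw [← h1]; linear_combination -h2
  have hf := congrArg (frobenius K r) hroot
  simp only [map_sub, map_mul, map_pow, map_natCast, map_one, map_zero, frobenius_def] at hf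
  have : (e ^ r - e) * (e ^ r - d) = 0 := by
    rw [← h1] at hf
    linear_combination hf + h2
  rcases mul_eq_zero.1 this with h | h
  · left; exact sub_eq_zero.1 h
  · right; exact sub_eq_zero.1 h

theorem coprime_six {ℓ : ℕ} (hℓ : ℓ.Prime) (hℓ5 : 5 ≤ ℓ) (j : ℕ) : Nat.Coprime (ℓ ^ j) 6 := by
  apply Nat.Coprime.pow_left
  rw [Nat.Prime.coprime_iff_not_dvd hℓ]
  intro h
  have := Nat.le_of_dvd (by norm_num) h
  have h56 : ℓ = 5 ∨ ℓ = 6 := by omega
  rcases h56 with rfl | rfl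
  · norm_num at h
  · norm_num at hℓ

theorem prime_case3_aux {K : Type*} [Field K] {r t ℓ j : ℕ} [Fact r.Prime] [CharP K r]
    (e d : K) (h1 : e + d = t) (h2 : e * d = -1) (hr : r.Prime) (hℓ : ℓ.Prime) (hℓ5 : 5 ≤ ℓ)
    (hV : r ∣ V t (ℓ ^ j) ^ 2 + 3) (ht : ¬ r ∣ t ^ 2 + 3) : r % ℓ = 1 := by
  have hk : Nat.Coprime (ℓ ^ j) 6 := coprime_six hℓ hℓ5 j
  have hodd := odd_of_coprime hk
  have hV' : (V t (ℓ ^ j) : K) ^ 2 + 3 = 0 := by
    have := (CharP.cast_eq_zero_iff K r _).2 hV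
    exact_mod_cast this
  have ht' : (t : K) ^ 2 + 3 ≠ 0 := by
    intro h
    apply ht
    apply (CharP.cast_eq_zero_iff K r _).1
    exact_mod_cast h
  obtain ⟨h3, h4⟩ := case3 h1 h2 hk hV' ht'
  have hℓd := ell_dvd_order hℓ h3 h4
  have he : e ≠ 0 := by
    rintro rfl; simp at h2
  have hr2 : r ≠ 2 := by
    rintro rfl
    have h20 : (2 : K) = 0 := by exact_mod_cast (CharP.cast_eq_zero K 2)
    rcases Nat.even_or_odd t with he' | ho
    · -- t even
      have ht0 : (t : K) = 0 := (CharP.cast_eq_zero_iff K 2 _).2 he'.two_dvd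
      apply h4
      have he2 : e ^ 2 = 1 := by
        have : e ^ 2 - t * e - 1 = 0 := by rw [← h1]; linear_combination -h2
        rw [ht0] at this
        linear_combination this
      rw [he2, one_pow]
    · apply ht
      obtain ⟨m, rfl⟩ := ho
      exact ⟨2 * m ^ 2 + 2 * m + 2, by ring⟩
  have key : e ^ r = e := by
    rcases frob_root h1 h2 with h | h
    · exact h
    · exfalso
      have h' : d ^ r = e := by
        have hs := congrArg (frobenius K r) h1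
        simp only [map_add, map_natCast, frobenius_def] at hs
        rw [h, ← h1] at hs
        linear_combination hs
      set w := e ^ (ℓ ^ j) - d ^ (ℓ ^ j) with hw
      have hed : e ^ (ℓ ^ j) * d ^ (ℓ ^ j) = -1 := by
        rw [← mul_pow, h2, hodd.neg_one_pow]
      have hw2 : w ^ 2 = 1 := by
        rw [V_eq h1 h2] at hV'
        rw [hw]
        linear_combination hV' - 4 * hed
      have hwr : w ^ r = - w := by
        have := sub_pow_char (R := K) (e ^ (ℓ ^ j)) (d ^ (ℓ ^ j)) (p := r)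
        rw [hw, this, ← pow_mul, ← pow_mul, mul_comm (ℓ ^ j) r, pow_mul, pow_mul, h, h']
        ring
      have hrodd : Odd r := hr.odd_of_ne_two hr2
      have hww : w ^ r = w := by
        have gen : ∀ s : ℕ, Odd s → w ^ s = w := by
          rintro s ⟨m, rfl⟩
          rw [pow_add, pow_mul, hw2, one_pow, one_mul, pow_one]
        exact gen r hrodd
      rw [hww] at hwr
      have h2w : (2 : K) * w = 0 := by linear_combination hwr
      rcases mul_eq_zero.1 h2w with h0 | h0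
      · have : ((2 : ℕ) : K) = 0 := by exact_mod_cast h0
        have := (CharP.cast_eq_zero_iff K r 2).1 this
        exact hr2 ((Nat.prime_dvd_prime_iff_eq hr Nat.prime_two).1 this)
      · rw [h0] at hw2; simp at hw2
  have hg : (e ^ 2) ^ (r - 1) = 1 := by
    have : e ^ (r - 1) = 1 := by
      apply (mul_left_inj' he).1
      rw [← pow_succ, Nat.sub_add_cancel hr.one_le, key, one_mul]
    rw [← pow_mul, mul_comm, pow_mul, this, one_pow]
  have hdvd : ℓ ∣ r - 1 := hℓd.trans (orderOf_dvd_of_pow_eq_one hg)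
  obtain ⟨c, hc⟩ := hdvd
  have : r = ℓ * c + 1 := by have := hr.one_le; omega
  rw [this, Nat.mul_add_mod, Nat.mod_eq_of_lt (by omega)]

theorem prime_case1_aux {K : Type*} [Field K] {r t ℓ j : ℕ} [Fact r.Prime] [CharP K r]
    (e d : K) (h1 : e + d = t) (h2 : e * d = -1) (hr : r.Prime) (hℓ : ℓ.Prime) (hℓ5 : 5 ≤ ℓ)
    (hV : r ∣ V t (ℓ ^ j) ^ 2 + 1) (ht : ¬ r ∣ t ^ 2 + 1) :
    r % ℓ = 1 ∨ r % ℓ = ℓ - 1 := by
  have hk : Nat.Coprime (ℓ ^ j) 6 := coprime_six hℓ hℓ5 j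
  have hV' : (V t (ℓ ^ j) : K) ^ 2 + 1 = 0 := by
    have := (CharP.cast_eq_zero_iff K r _).2 hV
    exact_mod_cast this
  have ht' : (t : K) ^ 2 + 1 ≠ 0 := by
    intro h
    apply ht
    apply (CharP.cast_eq_zero_iff K r _).1
    exact_mod_cast h
  obtain ⟨h3, h4⟩ := case1 h1 h2 hk hV' ht'
  have hℓd := ell_dvd_order hℓ h3 h4
  have he : e ≠ 0 := by
    rintro rfl; simp at h2
  rcases frob_root h1 h2 with h | h
  · left
    have hg : (e ^ 2) ^ (r - 1) = 1 := by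
      have : e ^ (r - 1) = 1 := by
        apply (mul_left_inj' he).1
        rw [← pow_succ, Nat.sub_add_cancel hr.one_le, h, one_mul]
      rw [← pow_mul, mul_comm, pow_mul, this, one_pow]
    have hdvd : ℓ ∣ r - 1 := hℓd.trans (orderOf_dvd_of_pow_eq_one hg)
    obtain ⟨c, hc⟩ := hdvd
    have : r = ℓ * c + 1 := by have := hr.one_le; omega
    rw [this, Nat.mul_add_mod, Nat.mod_eq_of_lt (by omega)]
  · right
    have hg : (e ^ 2) ^ (r + 1) = 1 := by
      have : e ^ (r + 1) = -1 := by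
        rw [pow_succ, h, mul_comm, h2]
      rw [← pow_mul, mul_comm, pow_mul, this]; norm_num
    have hdvd : ℓ ∣ r + 1 := hℓd.trans (orderOf_dvd_of_pow_eq_one hg)
    obtain ⟨c, hc⟩ := hdvd
    have hc0 : c ≠ 0 := by rintro rfl; omega
    obtain ⟨c', rfl⟩ := Nat.exists_eq_succ_of_ne_zero hc0
    have : r = ℓ * c' + (ℓ - 1) := by
      have h5 : ℓ * c'.succ = ℓ * c' + ℓ := Nat.mul_succ _ _
      omega
    rw [this, Nat.mul_add_mod, Nat.mod_eq_of_lt (by omega)]


theorem prime_case3 {r t ℓ j : ℕ} (hr : r.Prime) (hℓ : ℓ.Prime) (hℓ5 : 5 ≤ ℓ)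
    (hV : r ∣ V t (ℓ ^ j) ^ 2 + 3) (ht : ¬ r ∣ t ^ 2 + 3) : r % ℓ = 1 := by
  have : Fact r.Prime := ⟨hr⟩
  obtain ⟨e, d, h1, h2⟩ := exists_roots r t
  exact prime_case3_aux e d h1 h2 hr hℓ hℓ5 hV ht

theorem prime_case1 {r t ℓ j : ℕ} (hr : r.Prime) (hℓ : ℓ.Prime) (hℓ5 : 5 ≤ ℓ)
    (hV : r ∣ V t (ℓ ^ j) ^ 2 + 1) (ht : ¬ r ∣ t ^ 2 + 1) :
    r % ℓ = 1 ∨ r % ℓ = ℓ - 1 := by
  have : Fact r.Prime := ⟨hr⟩
  obtain ⟨e, d, h1, h2⟩ := exists_roots r t
  exact prime_case1_aux e d h1 h2 hr hℓ hℓ5 hV ht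

end Pool.Agent.Work.MP_2dba45_nt.Lucas
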