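import Pool.Agent.Work.MP_2dba45_nt.LucasField

/-!
Strong Lucas probable primes `m ^ 2 + 1`, `m ^ 2 + 3` for `m = V_{3 ^ j}(t, -1)`.
-/

set_option autoImplicit false

namespace Pool.Agent.Work.MP_2dba45_nt.Lucas

theorem exists_real_roots (t : ℕ) : ∃ e d : ℝ, e + d = t ∧ e * d = -1 ∧ e - d ≠ 0 := by
  have h0 : (0 : ℝ) < (t : ℝ) ^ 2 + 4 := by positivity
  have hs := Real.sq_sqrt h0.le
  have hpos := Real.sqrt_pos.2 h0
  refine ⟨(t + √((t : ℝ) ^ 2 + 4)) / 2, (t - √((t : ℝ) ^ 2 + 4)) / 2, by ring, ?_, ?_⟩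
  · linear_combination (-1 / 4) * hs
  · intro h
    have : √((t : ℝ) ^ 2 + 4) = 0 := by linear_combination h
    exact hpos.ne' this

theorem V_add_two_mul (t : ℕ) {a : ℕ} (ha : Odd a) (x : ℕ) :
    V t (x + 2 * a) = V t (x + a) * V t a + V t x := by
  obtain ⟨e, d, h1, h2, _⟩ := exists_real_roots t
  have hED : e ^ a * d ^ a = -1 := by rw [← mul_pow, h2, ha.neg_one_pow]
  have : (V t (x + 2 * a) : ℝ) = V t (x + a) * V t a + V t x := by
    rw [V_eq h1 h2, V_eq h1 h2, V_eq h1 h2, V_eq h1 h2]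
    linear_combination (-(e ^ x + d ^ x)) * hED
  exact_mod_cast this

theorem U_add_two_mul (t : ℕ) {a : ℕ} (ha : Odd a) (x : ℕ) :
    U t (x + 2 * a) = U t (x + a) * V t a + U t x := by
  obtain ⟨e, d, h1, h2, h3⟩ := exists_real_roots t
  have hED : e ^ a * d ^ a = -1 := by rw [← mul_pow, h2, ha.neg_one_pow]
  have : (e - d) * (U t (x + 2 * a) : ℝ) = (e - d) * (U t (x + a) * V t a + U t x) := by
    rw [mul_add, ← mul_assoc, U_eq h1 h2, U_eq h1 h2, U_eq h1 h2, V_eq h1 h2]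
    linear_combination (-(e ^ x - d ^ x)) * hED
  exact_mod_cast mul_left_cancel₀ h3 this

theorem U_three_mul (t : ℕ) {a : ℕ} (ha : Odd a) : U t (3 * a) = U t a * (V t a ^ 2 + 1) := by
  obtain ⟨e, d, h1, h2, h3⟩ := exists_real_roots t
  have hED : e ^ a * d ^ a = -1 := by rw [← mul_pow, h2, ha.neg_one_pow]
  have : (e - d) * (U t (3 * a) : ℝ) = (e - d) * (U t a * (V t a ^ 2 + 1)) := by
    rw [← mul_assoc, U_eq h1 h2, U_eq h1 h2, V_eq h1 h2]
    linear_combination (-(e ^ a - d ^ a)) * hED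
  exact_mod_cast mul_left_cancel₀ h3 this

theorem V_three_mul (t : ℕ) {a : ℕ} (ha : Odd a) : V t (3 * a) = V t a * (V t a ^ 2 + 3) := by
  obtain ⟨e, d, h1, h2, _⟩ := exists_real_roots t
  have hED : e ^ a * d ^ a = -1 := by rw [← mul_pow, h2, ha.neg_one_pow]
  have : (V t (3 * a) : ℝ) = V t a * (V t a ^ 2 + 3) := by
    rw [V_eq h1 h2, V_eq h1 h2]
    linear_combination (-3 * (e ^ a + d ^ a)) * hED
  exact_mod_cast this

theorem V_sq_add_four (t : ℕ) {a : ℕ} (ha : Odd a) :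
    V t a ^ 2 + 4 = (t ^ 2 + 4) * U t a ^ 2 := by
  obtain ⟨e, d, h1, h2, _⟩ := exists_real_roots t
  have hED : e ^ a * d ^ a = -1 := by rw [← mul_pow, h2, ha.neg_one_pow]
  have hdisc : ((t : ℝ) ^ 2 + 4) = (e - d) ^ 2 := by
    rw [← h1]
    linear_combination 4 * h2
  have : ((V t a : ℝ) ^ 2 + 4) = ((t : ℝ) ^ 2 + 4) * U t a ^ 2 := by
    rw [hdisc, ← mul_pow, U_eq h1 h2, V_eq h1 h2]
    linear_combination 4 * hED
  exact_mod_cast this

theorem U_dvd (t : ℕ) {a : ℕ} (ha : Odd a) : ∀ c, U t a ∣ U t (a * c)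
  | 0 => by simp [U]
  | 1 => by simp
  | (c + 2) => by
      have h := U_add_two_mul t ha (a * c)
      rw [show a * c + 2 * a = a * (c + 2) by ring, show a * c + a = a * (c + 1) by ring] at h
      rw [h]
      exact Dvd.dvd.add (Dvd.dvd.mul_right (U_dvd t ha (c + 1)) _) (U_dvd t ha c)

theorem V_dvd (t : ℕ) {a : ℕ} (ha : Odd a) : ∀ c, V t a ∣ V t (a * (2 * c + 1))
  | 0 => by simp
  | (c + 1) => by
      have h := V_add_two_mul t ha (a * (2 * c + 1))
      rw [show a * (2 * c + 1) + 2 * a = a * (2 * (c + 1) + 1) by ring] at h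
      rw [h]
      exact Dvd.dvd.add (Dvd.dvd.mul_left dvd_rfl _) (V_dvd t ha c)

theorem odd_three_pow (j : ℕ) : Odd (3 ^ j) := (by decide : Odd 3).pow

theorem V_three_pow_succ (t j : ℕ) :
    V t (3 ^ (j + 1)) = V t (3 ^ j) * (V t (3 ^ j) ^ 2 + 3) := by
  rw [pow_succ, mul_comm]
  exact V_three_mul t (odd_three_pow j)

theorem three_not_dvd {t : ℕ} (ht : ¬ 3 ∣ t) : ∀ j, ¬ 3 ∣ V t (3 ^ j)
  | 0 => by simpa [V] using ht
  | (j + 1) => by
      intro h
      rw [V_three_pow_succ] at h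
      have h0 := three_not_dvd ht j
      rcases (Nat.Prime.dvd_mul Nat.prime_three).1 h with h1 | h1
      · exact h0 h1
      · exact h0 (Nat.prime_three.dvd_of_dvd_pow ((Nat.dvd_add_left dvd_rfl).1 h1))

theorem even_V (t j : ℕ) : 2 ∣ V t (3 ^ (j + 1)) := by
  rw [V_three_pow_succ]
  rcases Nat.even_or_odd (V t (3 ^ j)) with h | h
  · exact Dvd.dvd.mul_right h.two_dvd _
  · apply Dvd.dvd.mul_left
    obtain ⟨k, hk⟩ := h
    rw [hk]
    exact ⟨2 * k ^ 2 + 2 * k + 2, by ring⟩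

section field

variable {K : Type*} [Field K] {p t : ℕ} [Fact p.Prime] [CharP K p]

theorem frob_d {e d : K} (h1 : e + d = t) (h : e ^ p = e) : d ^ p = d := by
  have hs := congrArg (frobenius K p) h1
  simp only [map_add, map_natCast, frobenius_def] at hs
  rw [h, ← h1] at hs
  linear_combination hs

theorem frob_d' {e d : K} (h1 : e + d = t) (h : e ^ p = d) : d ^ p = e := by
  have hs := congrArg (frobenius K p) h1
  simp only [map_add, map_natCast, frobenius_def] at hs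
  rw [h, ← h1] at hs
  linear_combination hs

theorem dvd_of_frob {e d : K} (h2 : e * d = -1) (hp2 : p ≠ 2) {R : ℕ} {g : K}
    (hg : g = e ^ 2 ∨ g = -e ^ 2) (hR : orderOf g = R) :
    (e ^ p = e → R ∣ p - 1) ∧ (e ^ p = d → R ∣ p + 1) := by
  have hp : p.Prime := Fact.out
  have he : e ≠ 0 := by
    rintro rfl; simp at h2
  have hodd : Odd p := hp.odd_of_ne_two hp2
  have hev : Even (p - 1) := Nat.Odd.sub_odd hodd odd_one
  have hev' : Even (p + 1) := hodd.add_odd odd_one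
  constructor
  · intro h
    have h3 : e ^ (p - 1) = 1 := by
      apply (mul_left_inj' he).1
      rw [← pow_succ, Nat.sub_add_cancel hp.one_le, h, one_mul]
    rw [← hR]
    apply orderOf_dvd_of_pow_eq_one
    rcases hg with rfl | rfl
    · rw [← pow_mul, mul_comm, pow_mul, h3, one_pow]
    · rw [hev.neg_pow, ← pow_mul, mul_comm, pow_mul, h3, one_pow]
  · intro h
    have h3 : e ^ (p + 1) = -1 := by
      rw [pow_succ, h, mul_comm, h2]
    rw [← hR]
    apply orderOf_dvd_of_pow_eq_one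
    rcases hg with rfl | rfl
    · rw [← pow_mul, mul_comm, pow_mul, h3]; norm_num
    · rw [hev'.neg_pow, ← pow_mul, mul_comm, pow_mul, h3]; norm_num

theorem symbol_of_frob {e d : K} (h1 : e + d = t) (h2 : e * d = -1) (hp2 : p ≠ 2)
    (hne : e - d ≠ 0) :
    (e ^ p = e → jacobiSym ((t : ℤ) ^ 2 + 4) p = 1) ∧
      (e ^ p = d → jacobiSym ((t : ℤ) ^ 2 + 4) p = -1) := by
  have hp : p.Prime := Fact.out
  have hodd : Odd p := hp.odd_of_ne_two hp2
  have hdisc : (((t : ℤ) ^ 2 + 4 : ℤ) : K) = (e - d) ^ 2 := by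
    push_cast
    rw [← h1]
    linear_combination 4 * h2
  have hne0 : ((((t : ℤ) ^ 2 + 4 : ℤ) : ZMod p)) ≠ 0 := by
    intro h
    apply pow_ne_zero 2 hne
    rw [← hdisc]
    have h3 := (ZMod.intCast_zmod_eq_zero_iff_dvd _ p).1 h
    exact (CharP.intCast_eq_zero_iff K p _).2 h3
  rw [← jacobiSym.legendreSym.to_jacobiSym]
  have hE := legendreSym.eq_pow p ((t : ℤ) ^ 2 + 4)
  have hEK : ((legendreSym p ((t : ℤ) ^ 2 + 4) : ℤ) : K) = (e - d) ^ (p - 1) := by
    have h3 := congrArg (ZMod.castHom (dvd_refl p) K) hE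
    rw [map_intCast, map_pow, map_intCast, hdisc] at h3
    rw [h3, ← pow_mul]
    congr 1
    obtain ⟨k, hk⟩ := hodd
    omega
  have h2K : (2 : K) ≠ 0 := by
    intro h
    have h3 : ((2 : ℕ) : K) = 0 := by exact_mod_cast h
    have h4 := (CharP.cast_eq_zero_iff K p 2).1 h3
    exact hp2 ((Nat.prime_dvd_prime_iff_eq hp Nat.prime_two).1 h4)
  have hcases := legendreSym.eq_one_or_neg_one p hne0
  constructor
  · intro h
    have hd := frob_d h1 h
    have h3 : (e - d) ^ (p - 1) = 1 := by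
      apply (mul_left_inj' hne).1
      rw [← pow_succ, Nat.sub_add_cancel hp.one_le, one_mul, sub_pow_char, h, hd]
    rw [h3] at hEK
    rcases hcases with h4 | h4
    · exact h4
    · exfalso
      rw [h4] at hEK
      push_cast at hEK
      apply h2K
      linear_combination -hEK
  · intro h
    have hd := frob_d' h1 h
    have h3 : (e - d) ^ (p - 1) = -1 := by
      apply (mul_left_inj' hne).1
      rw [← pow_succ, Nat.sub_add_cancel hp.one_le, sub_pow_char, h, hd]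
      ring
    rw [h3] at hEK
    rcases hcases with h4 | h4
    · exfalso
      rw [h4] at hEK
      push_cast at hEK
      apply h2K
      linear_combination hEK
    · exact h4

end field

theorem prime_symbol_aux {K : Type*} [Field K] {t j p c : ℕ} [Fact p.Prime] [CharP K p] {e d : K}
    (h1 : e + d = t) (h2 : e * d = -1) (hp2 : p ≠ 2) (hp3 : p ≠ 3)
    (hc : c = 1 ∨ c = 3) (hpc : p ∣ V t (3 ^ j) ^ 2 + c) :
    ((3 ^ (j + 1) : ℕ) : ℤ) ∣ (p : ℤ) - jacobiSym ((t : ℤ) ^ 2 + 4) p := by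
  have hp : p.Prime := Fact.out
  have : Fact (Nat.Prime 3) := ⟨Nat.prime_three⟩
  have h3K : (3 : K) ≠ 0 := by
    intro h
    have h3 : ((3 : ℕ) : K) = 0 := by exact_mod_cast h
    have h4 := (CharP.cast_eq_zero_iff K p 3).1 h3
    exact hp3 ((Nat.prime_dvd_prime_iff_eq hp Nat.prime_three).1 h4)
  have hED : e ^ (3 ^ j) * d ^ (3 ^ j) = -1 := by
    rw [← mul_pow, h2, (odd_three_pow j).neg_one_pow]
  have hV : (V t (3 ^ j) : K) ^ 2 + c = 0 := by
    have := (CharP.cast_eq_zero_iff K p _).2 hpc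
    exact_mod_cast this
  rw [V_eq h1 h2] at hV
  -- the discriminant is not zero
  have hne : e - d ≠ 0 := by
    intro h
    have hd : d = e := by linear_combination -h
    rw [hd] at hV hED
    rcases hc with rfl | rfl
    · apply h3K
      push_cast at hV
      linear_combination -hV + 4 * hED
    · have h5 : (1 : K) = 0 := by
        push_cast at hV
        linear_combination -hV + 4 * hED
      exact one_ne_zero h5
  -- an element of order `3 ^ (j + 1)`
  obtain ⟨g, hg, hord⟩ : ∃ g : K, (g = e ^ 2 ∨ g = -e ^ 2) ∧ orderOf g = 3 ^ (j + 1) := by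
    rcases hc with rfl | rfl
    · refine ⟨-e ^ 2, Or.inr rfl, ?_⟩
      have hq : (e ^ 3 ^ j) ^ 4 - (e ^ 3 ^ j) ^ 2 + 1 = 0 := by
        have := congrArg (fun z => (e ^ 3 ^ j) ^ 2 * z) hV
        simp only [mul_zero] at this
        push_cast at this
        linear_combination this + (-(e ^ 3 ^ j * d ^ 3 ^ j) + 1 - 2 * (e ^ 3 ^ j) ^ 2) * hED
      have hpow : (-e ^ 2) ^ 3 ^ j = -(e ^ 3 ^ j) ^ 2 := by
        rw [(odd_three_pow j).neg_pow, ← pow_mul, ← pow_mul, mul_comm]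
      apply orderOf_eq_prime_pow
      · rw [hpow]
        intro h
        apply h3K
        have hz : (e ^ 3 ^ j) ^ 2 = -1 := by linear_combination -h
        have h4 : (e ^ 3 ^ j) ^ 4 = 1 := by
          rw [show (e ^ 3 ^ j) ^ 4 = ((e ^ 3 ^ j) ^ 2) ^ 2 by ring, hz]; ring
        rw [h4, hz] at hq
        linear_combination hq
      · rw [pow_succ 3 j, pow_mul, hpow]
        linear_combination (-((e ^ 3 ^ j) ^ 2 + 1)) * hq
    · refine ⟨e ^ 2, Or.inl rfl, ?_⟩
      have hq : (e ^ 3 ^ j) ^ 4 + (e ^ 3 ^ j) ^ 2 + 1 = 0 := by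
        have := congrArg (fun z => (e ^ 3 ^ j) ^ 2 * z) hV
        simp only [mul_zero] at this
        push_cast at this
        linear_combination this + (-(e ^ 3 ^ j * d ^ 3 ^ j) + 1 - 2 * (e ^ 3 ^ j) ^ 2) * hED
      have hpow : (e ^ 2) ^ 3 ^ j = (e ^ 3 ^ j) ^ 2 := by
        rw [← pow_mul, ← pow_mul, mul_comm]
      apply orderOf_eq_prime_pow
      · rw [hpow]
        intro h
        apply h3K
        have h4 : (e ^ 3 ^ j) ^ 4 = 1 := by
          rw [show (e ^ 3 ^ j) ^ 4 = ((e ^ 3 ^ j) ^ 2) ^ 2 by ring, h]; ring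
        rw [h4, h] at hq
        linear_combination hq
      · rw [pow_succ 3 j, pow_mul, hpow]
        linear_combination ((e ^ 3 ^ j) ^ 2 - 1) * hq
  obtain ⟨k1, k2⟩ := dvd_of_frob (p := p) h2 hp2 hg hord
  obtain ⟨s1, s2⟩ := symbol_of_frob (p := p) h1 h2 hp2 hne
  rcases frob_root (r := p) h1 h2 with h | h
  · rw [s1 h]
    have h5 := k1 h
    have h6 : ((3 ^ (j + 1) : ℕ) : ℤ) ∣ ((p - 1 : ℕ) : ℤ) := Int.natCast_dvd_natCast.2 h5
    rwa [Nat.cast_sub hp.one_le, Nat.cast_one] at h6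
  · rw [s2 h]
    have h5 := k2 h
    have h6 : ((3 ^ (j + 1) : ℕ) : ℤ) ∣ ((p + 1 : ℕ) : ℤ) := Int.natCast_dvd_natCast.2 h5
    rw [Nat.cast_add, Nat.cast_one] at h6
    rwa [sub_neg_eq_add]

theorem prime_symbol {t j p c : ℕ} (hp : p.Prime) (hp2 : p ≠ 2) (hp3 : p ≠ 3)
    (hc : c = 1 ∨ c = 3) (hpc : p ∣ V t (3 ^ j) ^ 2 + c) :
    ((3 ^ (j + 1) : ℕ) : ℤ) ∣ (p : ℤ) - jacobiSym ((t : ℤ) ^ 2 + 4) p := by
  have : Fact p.Prime := ⟨hp⟩
  obtain ⟨e, d, h1, h2⟩ := exists_roots p t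
  exact prime_symbol_aux h1 h2 hp2 hp3 hc hpc

/-- multiplicativity -/
theorem dvd_symbol {R : ℤ} {a : ℤ} : ∀ d : ℕ, d ≠ 0 →
    (∀ p : ℕ, p.Prime → p ∣ d → R ∣ (p : ℤ) - jacobiSym a p) → R ∣ (d : ℤ) - jacobiSym a d := by
  intro d
  induction d using induction_on_primes with
  | zero => intro h; exact absurd rfl h
  | one => intro _ _; simp
  | prime_mul p n hp ih =>
    intro h0 h
    have hn : n ≠ 0 := by
      rintro rfl
      simp at h0
    have hne : NeZero p := ⟨hp.ne_zero⟩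
    have hne' : NeZero n := ⟨hn⟩
    have h1 := h p hp (Dvd.intro _ rfl)
    have h2 := ih hn (fun q hq hqn => h q hq (Dvd.dvd.mul_left hqn _))
    rw [jacobiSym.mul_right]
    have h3 : ((p * n : ℕ) : ℤ) - jacobiSym a p * jacobiSym a n =
        ((p : ℤ) - jacobiSym a p) * n + jacobiSym a p * ((n : ℤ) - jacobiSym a n) := by
      push_cast
      ring
    rw [h3]
    exact Dvd.dvd.add (Dvd.dvd.mul_right h1 _) (Dvd.dvd.mul_left h2 _)

end Pool.Agent.Work.MP_2dba45_nt.Lucas
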